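import Mathlib

-- merged part: Pool.Agent.Work.MP_e1e788_gt.Defs
section
/-!
# Knots, regular Morse maps, the Morse-Novikov number and Artin spinning
-/

open scoped Manifold ContDiff Topology

namespace Pool.Agent.Work.MP_e1e788_gt

/-- Euclidean space of dimension `n`. -/
abbrev Euc (n : ℕ) : Type := EuclideanSpace ℝ (Fin n)

/-- The unit sphere `S^n` in `R^(n+1)`, with the smooth structure of Mathlib. -/
abbrev Sph (n : ℕ) : Type := Metric.sphere (0 : Euc (n + 1)) 1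

/-- An `n`-knot: a smooth embedding `S^n → S^(n+2)` (a smooth injective immersion). -/
def IsKnot {n : ℕ} (K : Sph n → Sph (n + 2)) : Prop :=
  ContMDiff (𝓡 n) (𝓡 (n + 2)) ∞ K ∧ Function.Injective K ∧
    ∀ x, Function.Injective (mfderiv (𝓡 n) (𝓡 (n + 2)) K x)

/-- A regular map: `f` is smooth on the complement of the knot (its values on the knot play no
role) and, for a tubular neighbourhood `ν : S^n × D^2 → S^(n+2)` of the knot (a diffeomorphism of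
`S^n × {|z| < 1}` onto an open set with `ν (x, 0) = K x`), `f (ν (x, z)) = z / |z|` for `z ≠ 0`. -/
def IsRegular {n : ℕ} (K : Sph n → Sph (n + 2)) (f : Sph (n + 2) → Circle) : Prop :=
  ContMDiffOn (𝓡 (n + 2)) (𝓡 1) ∞ f (Set.range K)ᶜ ∧
    ∃ ν : PartialDiffeomorph ((𝓡 n).prod 𝓘(ℝ, ℂ)) (𝓡 (n + 2)) (Sph n × ℂ) (Sph (n + 2)) ∞,
      ν.source = Set.univ ×ˢ Metric.ball 0 1 ∧ (∀ x, ν (x, 0) = K x) ∧
        ∀ x z, z ≠ 0 → ‖z‖ < 1 → (f (ν (x, z)) : ℂ) = z / (‖z‖ : ℂ)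

/-- The critical points of `f` in the complement of the knot. -/
def crit {n : ℕ} (K : Sph n → Sph (n + 2)) (f : Sph (n + 2) → Circle) : Set (Sph (n + 2)) :=
  {y | y ∉ Set.range K ∧ mfderiv (𝓡 (n + 2)) (𝓡 1) f y = 0}

/-- A Morse map: at every critical point, in the chart at that point `f = exp (i g)` for a smooth
real function `g` whose second derivative is nondegenerate. -/
def IsMorse {n : ℕ} (K : Sph n → Sph (n + 2)) (f : Sph (n + 2) → Circle) : Prop :=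
  ∀ y ∈ crit K f, ∃ g : Euc (n + 2) → ℝ, ContDiffAt ℝ ∞ g (chartAt (Euc (n + 2)) y y) ∧
    (∀ᶠ u in 𝓝 (chartAt (Euc (n + 2)) y y),
      f ((chartAt (Euc (n + 2)) y).symm u) = Circle.exp (g u)) ∧
    ∀ v, fderiv ℝ (fderiv ℝ g) (chartAt (Euc (n + 2)) y y) v = 0 → v = 0

/-- The Morse-Novikov number: the least number of critical points of a regular Morse map. -/
noncomputable def MN {n : ℕ} (K : Sph n → Sph (n + 2)) : ℕ∞ :=
  ⨅ f : {f : Sph (n + 2) → Circle // IsRegular K f ∧ IsMorse K f}, (crit K f.1).encard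

/-- The standard inclusion `(x₀, x₁, …, x_n) ↦ (x₀, 0, 0, x₁, …, x_n)`. -/
def incl {n : ℕ} (x : Euc (n + 1)) : Euc (n + 3) :=
  WithLp.toLp 2 (Fin.cons (x 0) (Fin.cons 0 (Fin.cons 0 fun i : Fin n => x i.succ)))

/-- Rotation of the half space `x₀ ≥ 0` about its boundary:
`(x₀, x₁, …, x_n) ↦ (x₀ cos θ, x₀ sin θ, x₁, …, x_n)`. -/
noncomputable def rot {n : ℕ} (θ : ℝ) (x : Euc (n + 1)) : Euc (n + 2) :=
  WithLp.toLp 2 (Fin.cons (x 0 * Real.cos θ) (Fin.cons (x 0 * Real.sin θ) fun i : Fin n => x i.succ))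

/-- `K'` is the Artin spin of `K`. The knot `K` is the standard inclusion near the lower
hemisphere `x₀ ≤ 0` (the unknotted ball pair) and sends the open upper hemisphere into the open
upper hemisphere (the knotted ball pair); `K'` is swept out by rotating the upper hemispheres. -/
def IsSpin {n : ℕ} (K : Sph n → Sph (n + 2)) (K' : Sph (n + 1) → Sph (n + 1 + 2)) : Prop :=
  (∃ ε > 0, ∀ x : Sph n, x.1 0 < ε → (K x).1 = incl x.1) ∧
    (∀ x : Sph n, 0 < x.1 0 → 0 < (K x).1 0) ∧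
      ∀ (x : Sph n) (y : Sph (n + 1)) (θ : ℝ), 0 ≤ x.1 0 → y.1 = rot θ x.1 →
        (K' y).1 = rot θ (K x).1

end Pool.Agent.Work.MP_e1e788_gt
end

-- merged part: Pool.Agent.Work.MP_e1e788_gt.LongDefs
section
/-!
# The long model

A long knot in `L = V × ℂ` is the image of the axis `V × {0}` under a smooth open partial
homeomorphism `G` which is the identity far away.
-/

open scoped ContDiff

namespace Pool.Agent.Work.MP_e1e788_gt

variable {V : Type} [NormedAddCommGroup V] [NormedSpace ℝ V]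

/-- Long knot data. -/
structure IsLong (G : OpenPartialHomeomorph (V × ℂ) (V × ℂ)) : Prop where
  smooth : ContDiffOn ℝ ∞ G G.source
  smooth_symm : ContDiffOn ℝ ∞ G.symm G.target
  axis : ∀ v : V, (v, (0 : ℂ)) ∈ G.source
  far : ∃ R : ℝ, ∀ y : V × ℂ, R ≤ ‖y‖ → y ∈ G.source ∧ G y = y

/-- The long knot. -/
def knotL (G : OpenPartialHomeomorph (V × ℂ) (V × ℂ)) : Set (V × ℂ) :=
  Set.range fun v : V => G (v, 0)

/-- `F` is smooth and nonzero off the long knot, and `arg (F (G y)) = arg y.2` near the axis and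
far away. -/
structure StdArg (G : OpenPartialHomeomorph (V × ℂ) (V × ℂ)) (F : V × ℂ → ℂ) : Prop where
  smooth : ∀ y ∉ knotL G, ContDiffAt ℝ ∞ F y
  ne_zero : ∀ y ∉ knotL G, F y ≠ 0
  std : ∃ δ > 0, ∃ R : ℝ, ∀ y : V × ℂ, y.2 ≠ 0 → (‖y.2‖ < δ ∨ R ≤ ‖y‖) →
    y ∈ G.source ∧ ∃ c : ℝ, 0 < c ∧ F (G y) = c * y.2

/-- The long knot is fibred: some `arg F` has no critical point. -/
def LongFib (G : OpenPartialHomeomorph (V × ℂ) (V × ℂ)) : Prop :=
  ∃ F : V × ℂ → ℂ, StdArg G F ∧ ∀ y ∉ knotL G, ∃ v, (fderiv ℝ F y v / F y).im ≠ 0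

/-- What a fibration (for an arbitrary tube) gives: a real function `g` off the knot such that
`arg Φ + g` has no critical point and has nonzero angular derivative near the axis and far away. -/
def WeakFib (G : OpenPartialHomeomorph (V × ℂ) (V × ℂ)) (Φ : V × ℂ → ℂ) : Prop :=
  ∃ g : V × ℂ → ℝ, (∀ y ∉ knotL G, ContDiffAt ℝ ∞ g y) ∧
    (∀ y ∉ knotL G, ∃ v, (fderiv ℝ Φ y v / Φ y).im + fderiv ℝ g y v ≠ 0) ∧
    ∃ δ > 0, ∃ R : ℝ, ∀ y : V × ℂ, y.2 ≠ 0 → (‖y.2‖ < δ ∨ R ≤ ‖y‖) →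
      y ∈ G.source ∧ 1 + fderiv ℝ (fun u => g (G u)) y (0, Complex.I * y.2) ≠ 0

variable {U : Type} [NormedAddCommGroup U] [NormedSpace ℝ U]

/-- Rotation of the long half space. -/
noncomputable def rotL (θ : ℝ) (y : (ℝ × U) × ℂ) : (ℂ × U) × ℂ :=
  (((y.1.1 : ℂ) * Complex.exp (θ * Complex.I), y.1.2), y.2)

/-- `G'` gives the spin of the long knot given by `G`. -/
structure LongSpin (G : OpenPartialHomeomorph ((ℝ × U) × ℂ) ((ℝ × U) × ℂ))
    (G' : OpenPartialHomeomorph ((ℂ × U) × ℂ) ((ℂ × U) × ℂ)) : Prop where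
  low : ∃ ε > 0, ∀ (t : ℝ) (u : U), t < ε → G ((t, u), 0) = ((t, u), 0)
  spin : ∀ (t θ : ℝ) (u : U), 0 ≤ t → G' (rotL θ ((t, u), 0)) = rotL θ (G ((t, u), 0))
  pos : ∀ (t : ℝ) (u : U), 0 < t → 0 < (G ((t, u), 0)).1.1

end Pool.Agent.Work.MP_e1e788_gt
end

-- merged part: Pool.Agent.Work.MP_e1e788_gt.TrSphere
section
/-! Stereographic projection and compactification of long data. -/

open scoped Manifold ContDiff Topology
open Set Filter Metric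

noncomputable section
namespace Pool.Agent.Work.MP_e1e788_gt

theorem factEuc (k : ℕ) : Fact (Module.finrank ℝ (Euc (k + 1)) = k + 1) :=
  ⟨finrank_euclideanSpace_fin⟩

attribute [local instance] factEuc

theorem cmd_coe (k : ℕ) :
    ContMDiff (𝓡 k) 𝓘(ℝ, Euc (k + 1)) ∞ (Subtype.val : Sph k → Euc (k + 1)) :=
  contMDiff_coe_sphere

section
variable {F : Type*} [NormedAddCommGroup F] [NormedSpace ℝ F] {H : Type*} [TopologicalSpace H]
  {I : ModelWithCorners ℝ F H} {M : Type*} [TopologicalSpace M] [ChartedSpace H M]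

theorem cmdAt_sphere {E : Type*} [NormedAddCommGroup E] [InnerProductSpace ℝ E] {k : ℕ}
    [Fact (Module.finrank ℝ E = k + 1)] {f : M → sphere (0 : E) 1} {x : M}
    (h : ContMDiffAt I 𝓘(ℝ, E) ∞ (fun y => (f y : E)) x) : ContMDiffAt I (𝓡 k) ∞ f x := by
  rw [contMDiffAt_iff_target]
  refine ⟨Topology.IsInducing.subtypeVal.continuousAt_iff.2 h.continuousAt, ?_⟩
  let v : sphere (0 : E) 1 := -f x
  let U : _ ≃ₗᵢ[ℝ] _ :=
    (OrthonormalBasis.fromOrthogonalSpanSingleton k (ne_zero_of_mem_unit_sphere v)).repr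
  have h1 : ContDiffAt ℝ ∞ (stereoToFun (v : E)) (f x : E) := by
    refine (contDiffOn_stereoToFun (n := ∞)).contDiffAt (IsOpen.mem_nhds ?_ ?_)
    · exact isOpen_ne_fun (innerSL ℝ (v : E)).continuous continuous_const
    · have hn : ‖(f x : E)‖ = 1 := norm_eq_of_mem_sphere _
      simp only [v, mem_ofPred_eq, coe_neg_sphere, innerSL_apply_apply, inner_neg_left,
        real_inner_self_eq_norm_sq, hn]
      norm_num
  have h2 : ContDiffAt ℝ ∞ (fun y => U (stereoToFun (v : E) y)) (f x : E) :=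
    U.contDiff.contDiffAt.comp _ h1
  exact h2.comp_contMDiffAt (f := fun y => (f y : E)) h

theorem cmdAt_sph {k : ℕ} {f : M → Sph k} {x : M}
    (h : ContMDiffAt I 𝓘(ℝ, Euc (k + 1)) ∞ (fun y => (f y : Euc (k + 1))) x) :
    ContMDiffAt I (𝓡 k) ∞ f x := cmdAt_sphere h

theorem cmdAt_circle {f : M → Circle} {x : M}
    (h : ContMDiffAt I 𝓘(ℝ, ℂ) ∞ (fun y => (f y : ℂ)) x) : ContMDiffAt I (𝓡 1) ∞ f x :=
  haveI : Fact (Module.finrank ℝ ℂ = 1 + 1) := Complex.finrank_real_complex_fact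
  cmdAt_sphere (E := ℂ) (k := 1) h

theorem cmd_coe_circle : ContMDiff (𝓡 1) 𝓘(ℝ, ℂ) ∞ (fun z : Circle => (z : ℂ)) :=
  haveI : Fact (Module.finrank ℝ ℂ = 1 + 1) := Complex.finrank_real_complex_fact
  contMDiff_coe_sphere (E := ℂ) (n := 1)

theorem inj_coe_circle (z : Circle) :
    Function.Injective (mfderiv (𝓡 1) 𝓘(ℝ, ℂ) (fun z : Circle => (z : ℂ)) z) :=
  haveI : Fact (Module.finrank ℝ ℂ = 1 + 1) := Complex.finrank_real_complex_fact
  mfderiv_coe_sphere_injective (E := ℂ) (n := 1) z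
end

/-- A linear frame: a pole coordinate and an orthogonal complement. -/
structure Pole (k : ℕ) (W : Type) [NormedAddCommGroup W] [NormedSpace ℝ W] where
  b : (ℝ × W) ≃L[ℝ] Euc (k + 1)
  norm_b : ∀ p w, ‖b (p, w)‖ ^ 2 = p ^ 2 + ‖b (0, w)‖ ^ 2

namespace Pole
variable {k : ℕ} {W : Type} [NormedAddCommGroup W] [NormedSpace ℝ W] (P : Pole k W)

def N (w : W) : ℝ := ‖P.b (0, w)‖ ^ 2

theorem N_nonneg (w : W) : 0 ≤ P.N w := sq_nonneg _

theorem N_smul (c : ℝ) (w : W) : P.N (c • w) = c ^ 2 * P.N w := by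
  have : ((0 : ℝ), c • w) = c • ((0 : ℝ), w) := by simp
  rw [N, N, this, map_smul, norm_smul, mul_pow, Real.norm_eq_abs, sq_abs]

theorem N_smooth : ContDiff ℝ ∞ P.N :=
  (contDiff_norm_sq ℝ).comp (P.b.contDiff.comp (contDiff_const.prodMk contDiff_id))

theorem norm_sq (x : Euc (k + 1)) :
    ‖x‖ ^ 2 = (P.b.symm x).1 ^ 2 + P.N (P.b.symm x).2 := by
  rw [N, ← P.norm_b]; simp

/-- pole coordinate -/
def p (s : Sph k) : ℝ := (P.b.symm s).1
/-- complementary coordinate -/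
def w (s : Sph k) : W := (P.b.symm s).2

theorem pw (s : Sph k) : P.p s ^ 2 + P.N (P.w s) = 1 := by
  rw [p, w, ← norm_sq, norm_eq_of_mem_sphere]; norm_num

theorem b_pw (s : Sph k) : P.b (P.p s, P.w s) = s := by simp [p, w]

theorem p_le (s : Sph k) : P.p s ≤ 1 := by
  have := P.pw s; have := P.N_nonneg (P.w s); nlinarith

theorem le_p (s : Sph k) : -1 ≤ P.p s := by
  have := P.pw s; have := P.N_nonneg (P.w s); nlinarith

def pole : Sph k := ⟨P.b (1, 0), by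
  have h := P.norm_b 1 0
  rw [show ((0 : ℝ), (0 : W)) = 0 from rfl, map_zero, norm_zero] at h
  rw [mem_sphere_zero_iff_norm]
  nlinarith [norm_nonneg (P.b (1, 0))]⟩

theorem p_pole : P.p P.pole = 1 := by simp [p, pole]
theorem w_pole : P.w P.pole = 0 := by simp [w, pole]

theorem N_eq_zero {w : W} (h : P.N w = 0) : w = 0 := by
  have h1 : P.b (0, w) = 0 := by simpa [N] using h
  have h2 := P.b.injective (h1.trans (map_zero _).symm)
  exact congrArg Prod.snd h2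

theorem p_lt {s : Sph k} (h : s ≠ P.pole) : P.p s < 1 := by
  refine lt_of_le_of_ne (P.p_le s) fun h1 => h ?_
  have h2 : P.w s = 0 := P.N_eq_zero (by have := P.pw s; rw [h1] at this; linarith)
  apply Subtype.ext
  rw [← P.b_pw s, h1, h2]; rfl

theorem cmd_p : ContMDiff (𝓡 k) 𝓘(ℝ, ℝ) ∞ P.p :=
  (contDiff_fst.comp P.b.symm.contDiff).comp_contMDiff (cmd_coe k)

theorem cmd_w : ContMDiff (𝓡 k) 𝓘(ℝ, W) ∞ P.w :=
  (contDiff_snd.comp P.b.symm.contDiff).comp_contMDiff (cmd_coe k)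

/-- stereographic projection -/
def σ (s : Sph k) : W := (1 - P.p s)⁻¹ • P.w s

/-- inverse stereographic projection -/
def τ (y : W) : Sph k := ⟨P.b ((P.N y - 1) / (P.N y + 1), (2 / (P.N y + 1)) • y), by
  have h := P.norm_b ((P.N y - 1) / (P.N y + 1)) ((2 / (P.N y + 1)) • y)
  have h1 := P.N_smul (2 / (P.N y + 1)) y
  have h2 : 0 < P.N y + 1 := by linarith [P.N_nonneg y]
  rw [N] at h1
  rw [h1] at h
  have h3 : ((P.N y - 1) / (P.N y + 1)) ^ 2 + (2 / (P.N y + 1)) ^ 2 * P.N y = 1 := by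
    field_simp; ring
  rw [h3] at h
  rw [mem_sphere_zero_iff_norm]
  nlinarith [norm_nonneg (P.b ((P.N y - 1) / (P.N y + 1), (2 / (P.N y + 1)) • y))]⟩

theorem p_τ (y : W) : P.p (P.τ y) = (P.N y - 1) / (P.N y + 1) := by simp [p, τ]
theorem w_τ (y : W) : P.w (P.τ y) = (2 / (P.N y + 1)) • y := by simp [w, τ]

theorem τ_ne (y : W) : P.τ y ≠ P.pole := by
  intro h
  have h1 := P.p_τ y
  have h2 : 0 < P.N y + 1 := by linarith only [P.N_nonneg y]
  rw [h, p_pole, eq_div_iff h2.ne'] at h1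
  linarith

theorem σ_τ (y : W) : P.σ (P.τ y) = y := by
  have h2 : 0 < P.N y + 1 := by linarith [P.N_nonneg y]
  rw [σ, p_τ, w_τ, smul_smul]
  have : (1 - (P.N y - 1) / (P.N y + 1))⁻¹ * (2 / (P.N y + 1)) = 1 := by
    field_simp; ring
  rw [this, one_smul]

theorem N_σ {s : Sph k} (h : s ≠ P.pole) : P.N (P.σ s) + 1 = 2 / (1 - P.p s) := by
  have h1 := P.p_lt h
  have h2 := P.pw s
  have h3 : 1 - P.p s ≠ 0 := by linarith only [h1]
  rw [σ, N_smul, show P.N (P.w s) = (1 - P.p s) * (1 + P.p s) by linarith]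
  field_simp; ring

theorem τ_σ {s : Sph k} (h : s ≠ P.pole) : P.τ (P.σ s) = s := by
  have h1 := P.p_lt h
  have h3 : 1 - P.p s ≠ 0 := by linarith
  have h4 := P.N_σ h
  apply Subtype.ext
  rw [← P.b_pw s]
  simp only [τ]
  congr 2
  · rw [show P.N (P.σ s) - 1 = P.N (P.σ s) + 1 - 2 by ring, h4]; field_simp; ring
  · rw [h4, σ, smul_smul]
    have : 2 / (2 / (1 - P.p s)) * (1 - P.p s)⁻¹ = 1 := by field_simp
    rw [this, one_smul]

theorem cmd_τ : ContMDiff 𝓘(ℝ, W) (𝓡 k) ∞ P.τ := by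
  intro y
  apply cmdAt_sph
  have h2 : ∀ y, P.N y + 1 ≠ 0 := fun y => by linarith [P.N_nonneg y]
  have h := P.N_smooth
  have : ContDiff ℝ ∞ fun y => P.b ((P.N y - 1) / (P.N y + 1), (2 / (P.N y + 1)) • y) :=
    P.b.contDiff.comp (((h.sub contDiff_const).div (h.add contDiff_const) h2).prodMk
      ((contDiff_const.div (h.add contDiff_const) h2).smul contDiff_id))
  exact this.contMDiff y

theorem cmdAt_σ {s : Sph k} (h : s ≠ P.pole) : ContMDiffAt (𝓡 k) 𝓘(ℝ, W) ∞ P.σ s := by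
  have h1 := P.p_lt h
  have h2 : ContDiffAt ℝ ∞ (fun q : ℝ × W => (1 - q.1)⁻¹ • q.2) (P.p s, P.w s) :=
    ((contDiffAt_const.sub contDiffAt_fst).inv (by simp only; linarith)).smul contDiffAt_snd
  exact h2.comp_contMDiffAt (f := fun s => (P.p s, P.w s))
    ((P.cmd_p s).prodMk_space (P.cmd_w s))

theorem N_le : ∃ C : ℝ, 0 < C ∧ ∀ y, P.N y ≤ C * ‖y‖ ^ 2 := by
  refine ⟨‖(P.b : ℝ × W →L[ℝ] Euc (k + 1))‖ ^ 2 + 1, by positivity, fun y => ?_⟩
  have h := (P.b : ℝ × W →L[ℝ] Euc (k + 1)).le_opNorm (0, y)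
  have h1 : ‖((0 : ℝ), y)‖ = ‖y‖ := by simp [Prod.norm_def]
  rw [h1] at h
  have h2 : P.N y ≤ (‖(P.b : ℝ × W →L[ℝ] Euc (k + 1))‖ * ‖y‖) ^ 2 :=
    pow_le_pow_left₀ (norm_nonneg _) h 2
  linarith only [h2, sq_nonneg ‖y‖, sq_nonneg ‖y‖]

theorem le_N : ∃ C : ℝ, 0 < C ∧ ∀ y, ‖y‖ ^ 2 ≤ C * P.N y := by
  refine ⟨‖(P.b.symm : Euc (k + 1) →L[ℝ] ℝ × W)‖ ^ 2 + 1, by positivity, fun y => ?_⟩
  have h := (P.b.symm : Euc (k + 1) →L[ℝ] ℝ × W).le_opNorm (P.b (0, y))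
  have h1 : ‖((0 : ℝ), y)‖ = ‖y‖ := by simp [Prod.norm_def]
  simp only [ContinuousLinearEquiv.coe_coe, ContinuousLinearEquiv.symm_apply_apply, h1] at h
  have h2 : ‖y‖ ^ 2 ≤ (‖(P.b.symm : Euc (k + 1) →L[ℝ] ℝ × W)‖ * ‖P.b (0, y)‖) ^ 2 :=
    pow_le_pow_left₀ (norm_nonneg _) h 2
  have h3 := P.N_nonneg y
  rw [mul_pow] at h2
  unfold N at h3 ⊢
  linarith only [h2, sq_nonneg ‖P.b ((0 : ℝ), y)‖]

/-- near the pole the projection is far away -/
theorem ev_far (R : ℝ) : ∀ᶠ s in 𝓝 P.pole, s ≠ P.pole → R ≤ ‖P.σ s‖ := by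
  obtain ⟨C, hC, hN⟩ := P.N_le
  have h1 : 0 < C * R ^ 2 + 1 := by positivity
  have h2 : ∀ᶠ s in 𝓝 P.pole, 1 - 2 / (C * R ^ 2 + 1) < P.p s := by
    apply P.cmd_p.continuous.continuousAt.eventually (lt_mem_nhds ?_)
    rw [p_pole]; have : 0 < 2 / (C * R ^ 2 + 1) := by positivity
    linarith only [this]
  filter_upwards [h2] with s hs hne
  have h3 := P.p_lt hne
  have h4 := P.N_σ hne
  have h5 : C * R ^ 2 + 1 < 2 / (1 - P.p s) := by
    rw [lt_div_iff₀ (by linarith)]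
    have : 1 - P.p s < 2 / (C * R ^ 2 + 1) := by linarith only [hs]
    rw [lt_div_iff₀ h1] at this
    linarith only [this]
  have h6 := hN (P.σ s)
  have h7 : R ^ 2 < ‖P.σ s‖ ^ 2 := lt_of_mul_lt_mul_left (a := C) (by linarith only [h4, h5, h6]) hC.le
  exact (abs_lt_of_sq_lt_sq' h7 (norm_nonneg _)).2.le

open Classical in
/-- compactification of a map which is the identity far away -/
def hat (g : W → W) (s : Sph k) : Sph k := if s = P.pole then P.pole else P.τ (g (P.σ s))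

theorem hat_pole (g : W → W) : P.hat g P.pole = P.pole := by simp [hat]

theorem hat_ne (g : W → W) {s : Sph k} (h : s ≠ P.pole) : P.hat g s = P.τ (g (P.σ s)) := by
  simp [hat, h]

theorem hat_τ (g : W → W) (y : W) : P.hat g (P.τ y) = P.τ (g y) := by
  rw [P.hat_ne g (P.τ_ne y), σ_τ]

theorem hat_ev {g : W → W} {R : ℝ} (h : ∀ y, R ≤ ‖y‖ → g y = y) :
    P.hat g =ᶠ[𝓝 P.pole] id := by
  filter_upwards [P.ev_far R] with s hs
  by_cases h1 : s = P.pole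
  · rw [h1, hat_pole]; rfl
  · rw [P.hat_ne g h1, h _ (hs h1), P.τ_σ h1]; rfl

theorem cmdAt_hat {g : W → W} {R : ℝ} (h : ∀ y, R ≤ ‖y‖ → g y = y) {s : Sph k}
    (hs : s ≠ P.pole → ContDiffAt ℝ ∞ g (P.σ s)) : ContMDiffAt (𝓡 k) (𝓡 k) ∞ (P.hat g) s := by
  by_cases h1 : s = P.pole
  · rw [h1]; exact contMDiffAt_id.congr_of_eventuallyEq (P.hat_ev h)
  · have h2 : ContMDiffAt (𝓡 k) (𝓡 k) ∞ (fun s => P.τ (g (P.σ s))) s :=
      (P.cmd_τ _).comp s ((hs h1).comp_contMDiffAt (P.cmdAt_σ h1))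
    refine h2.congr_of_eventuallyEq ?_
    filter_upwards [isOpen_ne.mem_nhds h1] with u hu using P.hat_ne g hu

theorem isOpen_hat {O : Set W} (hO : IsOpen O) {R : ℝ} (h : ∀ y, R ≤ ‖y‖ → y ∈ O) :
    IsOpen {s | s ≠ P.pole → P.σ s ∈ O} := by
  rw [isOpen_iff_mem_nhds]
  intro s hs
  by_cases h1 : s = P.pole
  · rw [h1]
    filter_upwards [P.ev_far R] with u hu hne using h _ (hu hne)
  · filter_upwards [(P.cmdAt_σ h1).continuousAt.preimage_mem_nhds (hO.mem_nhds (hs h1))]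
      with u hu _ using hu

/-- The compactified partial diffeomorphism. -/
def hatD (G : OpenPartialHomeomorph W W) (h1 : ContDiffOn ℝ ∞ G G.source)
    (h2 : ContDiffOn ℝ ∞ G.symm G.target) {R : ℝ} (h3 : ∀ y, R ≤ ‖y‖ → y ∈ G.source ∧ G y = y) :
    PartialDiffeomorph (𝓡 k) (𝓡 k) (Sph k) (Sph k) ∞ where
  toFun := P.hat G
  invFun := P.hat G.symm
  source := {s | s ≠ P.pole → P.σ s ∈ G.source}
  target := {s | s ≠ P.pole → P.σ s ∈ G.target}
  map_source' s hs hne := by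
    have h : s ≠ P.pole := fun h => hne (by rw [h, hat_pole])
    rw [P.hat_ne _ h, σ_τ]; exact G.map_source (hs h)
  map_target' s hs hne := by
    have h : s ≠ P.pole := fun h => hne (by rw [h, hat_pole])
    rw [P.hat_ne _ h, σ_τ]; exact G.map_target (hs h)
  left_inv' s hs := by
    by_cases h : s = P.pole
    · rw [h, hat_pole, hat_pole]
    · rw [P.hat_ne _ h, hat_τ, G.left_inv (hs h), P.τ_σ h]
  right_inv' s hs := by
    by_cases h : s = P.pole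
    · rw [h, hat_pole, hat_pole]
    · rw [P.hat_ne _ h, hat_τ, G.right_inv (hs h), P.τ_σ h]
  open_source := P.isOpen_hat G.open_source fun y hy => (h3 y hy).1
  open_target := P.isOpen_hat G.open_target (R := R) fun y hy => by
    rw [← (h3 y hy).2]; exact G.map_source (h3 y hy).1
  contMDiffOn_toFun s hs :=
    (P.cmdAt_hat (fun y hy => (h3 y hy).2) fun h =>
      h1.contDiffAt (G.open_source.mem_nhds (hs h))).contMDiffWithinAt
  contMDiffOn_invFun s hs :=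
    (P.cmdAt_hat (R := R) (fun y hy => by
      conv_lhs => rw [← (h3 y hy).2]
      exact G.left_inv (h3 y hy).1) fun h =>
      h2.contDiffAt (G.open_target.mem_nhds (hs h))).contMDiffWithinAt

end Pole

end Pool.Agent.Work.MP_e1e788_gt
end
end

-- merged part: Pool.Agent.Work.MP_e1e788_gt.TrTube
section
/-! The standard tube around a great sphere, the compactified knot, and fibred long knots. -/

open scoped Manifold ContDiff Topology
open Set Filter Metric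

noncomputable section
namespace Pool.Agent.Work.MP_e1e788_gt

attribute [local instance] factEuc

theorem isKnot_of_tube {n : ℕ} {K : Sph n → Sph (n + 2)}
    (ν : PartialDiffeomorph ((𝓡 n).prod 𝓘(ℝ, ℂ)) (𝓡 (n + 2)) (Sph n × ℂ) (Sph (n + 2)) ∞)
    (h1 : ∀ x, (x, (0 : ℂ)) ∈ ν.source) (h2 : ∀ x, ν (x, 0) = K x) : IsKnot K := by
  have hK : K = fun x => ν (x, 0) := funext fun x => (h2 x).symm
  have hs : ContMDiff (𝓡 n) (𝓡 (n + 2)) ∞ K := by
    intro x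
    rw [hK]
    exact (ν.contMDiffOn.contMDiffAt (ν.open_source.mem_nhds (h1 x))).comp x
      (contMDiffAt_id.prodMk contMDiffAt_const)
  have hl : ∀ x, (ν.symm (K x)).1 = x := fun x => by
    rw [← h2]
    exact congrArg Prod.fst (ν.toPartialEquiv.left_inv (h1 x))
  refine ⟨hs, fun x y h => by rw [← hl x, h, hl], fun x => ?_⟩
  have h3 : ContMDiffAt (𝓡 (n + 2)) (𝓡 n) ∞ (fun s => (ν.symm s).1) (K x) := by
    refine contMDiffAt_fst.comp _ (ν.symm.contMDiffOn.contMDiffAt (ν.open_target.mem_nhds ?_))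
    rw [← h2]; exact ν.toPartialEquiv.map_source (h1 x)
  have h4 := mfderiv_comp x (h3.mdifferentiableAt (by simp)) ((hs x).mdifferentiableAt (by simp))
  have h5 : ((fun s => (ν.symm s).1) ∘ K) = id := funext hl
  rw [h5, mfderiv_id] at h4
  intro a b hab
  have ha : a = mfderiv (𝓡 (n + 2)) (𝓡 n) (fun s => (ν.symm s).1) (K x)
      (mfderiv (𝓡 n) (𝓡 (n + 2)) K x a) := congrArg (fun L => L a) h4
  have hb : b = mfderiv (𝓡 (n + 2)) (𝓡 n) (fun s => (ν.symm s).1) (K x)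
      (mfderiv (𝓡 n) (𝓡 (n + 2)) K x b) := congrArg (fun L => L b) h4
  rw [hab] at ha
  exact ha.trans hb.symm

theorem Pole.ext {k : ℕ} {W : Type} [NormedAddCommGroup W] [NormedSpace ℝ W] (P : Pole k W)
    {s t : Sph k} (h1 : P.p s = P.p t) (h2 : P.w s = P.w t) : s = t := by
  apply Subtype.ext
  rw [← P.b_pw s, h1, h2, P.b_pw]

/-- Compatible frames for `S^n` and `S^(n+2)`. -/
structure Frame (n : ℕ) (V : Type) [NormedAddCommGroup V] [NormedSpace ℝ V] where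
  P₁ : Pole n V
  P₂ : Pole (n + 2) (V × ℂ)
  N_eq : ∀ v z, P₂.N (v, z) = P₁.N v + ‖z‖ ^ 2

namespace Frame
variable {n : ℕ} {V : Type} [NormedAddCommGroup V] [NormedSpace ℝ V] (Fr : Frame n V)

def zc (s : Sph (n + 2)) : ℂ := (Fr.P₂.w s).2
def xr (s : Sph (n + 2)) : Euc (n + 1) := Fr.P₁.b (Fr.P₂.p s, (Fr.P₂.w s).1)

theorem norm_xr (s : Sph (n + 2)) : ‖Fr.xr s‖ ^ 2 + ‖Fr.zc s‖ ^ 2 = 1 := by
  have h := Fr.P₂.pw s
  have h1 := Fr.N_eq (Fr.P₂.w s).1 (Fr.P₂.w s).2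
  have h2 := Fr.P₁.norm_b (Fr.P₂.p s) (Fr.P₂.w s).1
  rw [xr, zc, h2]
  unfold Pole.N at *
  simp only [Prod.mk.eta] at h1
  linarith only [h, h1]

theorem cmd_zc : ContMDiff (𝓡 (n + 2)) 𝓘(ℝ, ℂ) ∞ Fr.zc :=
  contDiff_snd.comp_contMDiff Fr.P₂.cmd_w

theorem cmd_xr : ContMDiff (𝓡 (n + 2)) 𝓘(ℝ, Euc (n + 1)) ∞ Fr.xr :=
  Fr.P₁.b.contDiff.comp_contMDiff
    (Fr.P₂.cmd_p.prodMk_space (contDiff_fst.comp_contMDiff Fr.P₂.cmd_w))

/-- scale factor -/
def sc (ε : ℝ) (z : ℂ) : ℝ := (√(1 + ε ^ 2 * ‖z‖ ^ 2))⁻¹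

theorem sc_pos (ε : ℝ) (z : ℂ) : 0 < sc ε z := by unfold sc; positivity

theorem sc_sq (ε : ℝ) (z : ℂ) : sc ε z ^ 2 * (1 + ε ^ 2 * ‖z‖ ^ 2) = 1 := by
  have : 0 < 1 + ε ^ 2 * ‖z‖ ^ 2 := by positivity
  rw [sc, inv_pow, Real.sq_sqrt this.le, inv_mul_cancel₀ this.ne']

theorem sc_le (ε : ℝ) (z : ℂ) : sc ε z ≤ 1 := by
  have h := sc_sq ε z
  have h1 := sc_pos ε z
  have : 0 ≤ sc ε z ^ 2 * (ε ^ 2 * ‖z‖ ^ 2) := by positivity
  (refine le_of_not_gt fun h_nl => ?_; linarith only [h_nl, h, this, h1, mul_pos_of_neg_of_neg (Mathlib.Tactic.Linarith.sub_neg_of_lt h1) (Mathlib.Tactic.Linarith.sub_neg_of_lt h_nl)])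

theorem sc_smooth (ε : ℝ) : ContDiff ℝ ∞ (sc ε) := by
  have h : ∀ z : ℂ, 0 < 1 + ε ^ 2 * ‖z‖ ^ 2 := fun z => by positivity
  refine ((contDiff_const.add (contDiff_const.mul (contDiff_norm_sq ℝ))).sqrt
    fun z => (h z).ne').inv fun z => (Real.sqrt_pos.2 (h z)).ne'

/-- the standard tube -/
def tube (ε : ℝ) (q : Sph n × ℂ) : Sph (n + 2) :=
  ⟨Fr.P₂.b (sc ε q.2 • (Fr.P₁.p q.1, (Fr.P₁.w q.1, ε • q.2))), by
    rw [mem_sphere_zero_iff_norm, map_smul, norm_smul, Real.norm_of_nonneg (sc_pos _ _).le]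
    have h1 := Fr.P₂.norm_b (Fr.P₁.p q.1) (Fr.P₁.w q.1, ε • q.2)
    have h2 := Fr.N_eq (Fr.P₁.w q.1) (ε • q.2)
    have h3 := Fr.P₁.pw q.1
    have h4 := sc_sq ε q.2
    rw [norm_smul, mul_pow, Real.norm_eq_abs, sq_abs] at h2
    unfold Pole.N at *
    have h5 : (sc ε q.2 * ‖Fr.P₂.b (Fr.P₁.p q.1, (Fr.P₁.w q.1, ε • q.2))‖) ^ 2 = 1 := by
      rw [mul_pow, h1, h2, ← h4]; congr 1; linarith
    exact (pow_eq_one_iff_of_nonneg (mul_nonneg (sc_pos _ _).le (norm_nonneg _)) two_ne_zero).1 h5⟩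

theorem p_tube (ε : ℝ) (q : Sph n × ℂ) : Fr.P₂.p (Fr.tube ε q) = sc ε q.2 * Fr.P₁.p q.1 := by
  simp only [Pole.p, tube, ContinuousLinearEquiv.symm_apply_apply]; rfl

theorem w_tube (ε : ℝ) (q : Sph n × ℂ) :
    Fr.P₂.w (Fr.tube ε q) = (sc ε q.2 • Fr.P₁.w q.1, sc ε q.2 • ε • q.2) := by
  simp only [Pole.w, tube, ContinuousLinearEquiv.symm_apply_apply]; rfl

theorem zc_tube (ε : ℝ) (q : Sph n × ℂ) : Fr.zc (Fr.tube ε q) = (sc ε q.2 * ε) • q.2 := by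
  rw [zc, w_tube, smul_smul]

theorem xr_tube (ε : ℝ) (q : Sph n × ℂ) : Fr.xr (Fr.tube ε q) = sc ε q.2 • (q.1 : Euc (n + 1)) := by
  rw [xr, p_tube, w_tube, ← Fr.P₁.b_pw q.1, ← map_smul]; rfl

theorem norm_xr_tube (ε : ℝ) (q : Sph n × ℂ) : ‖Fr.xr (Fr.tube ε q)‖ = sc ε q.2 := by
  rw [xr_tube, norm_smul, norm_eq_of_mem_sphere, mul_one, Real.norm_of_nonneg (sc_pos _ _).le]

theorem cmd_tube (ε : ℝ) : ContMDiff ((𝓡 n).prod 𝓘(ℝ, ℂ)) (𝓡 (n + 2)) ∞ (Fr.tube ε) := by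
  intro q
  apply cmdAt_sph
  have h : ContDiff ℝ ∞ fun u : (ℝ × V) × ℂ => Fr.P₂.b (sc ε u.2 • (u.1.1, (u.1.2, ε • u.2))) :=
    Fr.P₂.b.contDiff.comp (((sc_smooth ε).comp contDiff_snd).smul (by fun_prop))
  exact h.contDiffAt.comp_contMDiffAt (f := fun q : Sph n × ℂ => ((Fr.P₁.p q.1, Fr.P₁.w q.1), q.2))
    ((((Fr.P₁.cmd_p.comp contMDiff_fst).prodMk_space
      (Fr.P₁.cmd_w.comp contMDiff_fst)).prodMk_space contMDiff_snd) q)

open Classical in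
/-- radial projection -/
def nrm (x : Euc (n + 1)) : Sph n :=
  if h : x = 0 then Fr.P₁.pole else ⟨‖x‖⁻¹ • x, by
    rw [mem_sphere_zero_iff_norm, norm_smul, norm_inv, norm_norm,
      inv_mul_cancel₀ (norm_ne_zero_iff.2 h)]⟩

theorem nrm_coe {x : Euc (n + 1)} (h : x ≠ 0) : (Fr.nrm x : Euc (n + 1)) = ‖x‖⁻¹ • x := by
  simp [nrm, h]

theorem nrm_smul {c : ℝ} (hc : 0 < c) (x : Sph n) : Fr.nrm (c • (x : Euc (n + 1))) = x := by
  have h : ‖c • (x : Euc (n + 1))‖ = c := by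
    rw [norm_smul, norm_eq_of_mem_sphere, mul_one, Real.norm_of_nonneg hc.le]
  apply Subtype.ext
  rw [Fr.nrm_coe (norm_ne_zero_iff.1 (by rw [h]; exact hc.ne')), h, smul_smul,
    inv_mul_cancel₀ hc.ne', one_smul]

theorem cmdAt_nrm {x : Euc (n + 1)} (h : x ≠ 0) :
    ContMDiffAt 𝓘(ℝ, Euc (n + 1)) (𝓡 n) ∞ Fr.nrm x := by
  apply cmdAt_sph
  have h1 : ContDiffAt ℝ ∞ (fun x : Euc (n + 1) => ‖x‖⁻¹ • x) x :=
    ((contDiffAt_norm ℝ h).inv (norm_ne_zero_iff.2 h)).smul contDiffAt_id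
  refine h1.contMDiffAt.congr_of_eventuallyEq ?_
  filter_upwards [isOpen_ne.mem_nhds h] with u hu using Fr.nrm_coe hu

/-- the standard tube as a partial diffeomorphism -/
def tubeD {ε : ℝ} (hε : 0 < ε) :
    PartialDiffeomorph ((𝓡 n).prod 𝓘(ℝ, ℂ)) (𝓡 (n + 2)) (Sph n × ℂ) (Sph (n + 2)) ∞ where
  toFun := Fr.tube ε
  invFun s := (Fr.nrm (Fr.xr s), (ε * ‖Fr.xr s‖)⁻¹ • Fr.zc s)
  source := univ ×ˢ ball 0 1
  target := {s | ‖Fr.zc s‖ < ε * ‖Fr.xr s‖}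
  map_source' q hq := by
    have h1 : ‖q.2‖ < 1 := mem_ball_zero_iff.1 hq.2
    have h2 := mul_pos (sc_pos ε q.2) hε
    rw [mem_ofPred_eq, zc_tube, norm_xr_tube, norm_smul, Real.norm_of_nonneg h2.le]
    nlinarith
  map_target' s hs := by
    have h1 : 0 < ε * ‖Fr.xr s‖ := lt_of_le_of_lt (norm_nonneg _) hs
    refine ⟨mem_univ _, mem_ball_zero_iff.2 ?_⟩
    rw [norm_smul, norm_inv, Real.norm_of_nonneg h1.le, inv_mul_lt_iff₀ h1, mul_one]
    exact hs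
  left_inv' q _ := by
    have h2 := sc_pos ε q.2
    rw [norm_xr_tube, xr_tube, zc_tube, Fr.nrm_smul h2, smul_smul, mul_comm (sc ε q.2),
      inv_mul_cancel₀ (mul_pos hε h2).ne', one_smul]
  right_inv' s hs := by
    have h1 : 0 < ε * ‖Fr.xr s‖ := lt_of_le_of_lt (norm_nonneg _) hs
    have h2 : 0 < ‖Fr.xr s‖ := (mul_pos_iff_of_pos_left hε).1 h1
    have h3 : Fr.xr s ≠ 0 := norm_pos_iff.1 h2
    have h4 := Fr.norm_xr s
    have h5 : sc ε ((ε * ‖Fr.xr s‖)⁻¹ • Fr.zc s) = ‖Fr.xr s‖ := by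
      have h6 := sc_sq ε ((ε * ‖Fr.xr s‖)⁻¹ • Fr.zc s)
      rw [norm_smul, norm_inv, Real.norm_of_nonneg h1.le] at h6
      have h7 : 1 + ε ^ 2 * ((ε * ‖Fr.xr s‖)⁻¹ * ‖Fr.zc s‖) ^ 2 = (‖Fr.xr s‖ ^ 2)⁻¹ := by
        field_simp; linarith
      rw [h7, mul_inv_eq_one₀ (by positivity)] at h6
      exact (pow_left_inj₀ (sc_pos _ _).le h2.le two_ne_zero).1 h6
    have hp : Fr.P₁.p (Fr.nrm (Fr.xr s)) = ‖Fr.xr s‖⁻¹ * Fr.P₂.p s := by
      rw [Pole.p, Fr.nrm_coe h3, map_smul]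
      nth_rewrite 2 [xr]
      rw [ContinuousLinearEquiv.symm_apply_apply]; rfl
    have hw : Fr.P₁.w (Fr.nrm (Fr.xr s)) = ‖Fr.xr s‖⁻¹ • (Fr.P₂.w s).1 := by
      rw [Pole.w, Fr.nrm_coe h3, map_smul]
      nth_rewrite 2 [xr]
      rw [ContinuousLinearEquiv.symm_apply_apply]; rfl
    apply Fr.P₂.ext
    · rw [p_tube, h5, hp, mul_inv_cancel_left₀ h2.ne']
    · rw [w_tube, h5, hw, smul_inv_smul₀ h2.ne', smul_smul, smul_smul, mul_comm _ ε,
        mul_inv_cancel₀ h1.ne', one_smul]; rfl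
  open_source := isOpen_univ.prod isOpen_ball
  open_target := isOpen_lt Fr.cmd_zc.continuous.norm
    (continuous_const.mul Fr.cmd_xr.continuous.norm)
  contMDiffOn_toFun := (Fr.cmd_tube ε).contMDiffOn
  contMDiffOn_invFun s hs := by
    have h1 : 0 < ε * ‖Fr.xr s‖ := lt_of_le_of_lt (norm_nonneg _) hs
    have h2 : 0 < ‖Fr.xr s‖ := (mul_pos_iff_of_pos_left hε).1 h1
    have h3 : Fr.xr s ≠ 0 := norm_pos_iff.1 h2
    refine (((Fr.cmdAt_nrm h3).comp s (Fr.cmd_xr s)).prodMk ?_).contMDiffWithinAt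
    have h4 : ContDiffAt ℝ ∞ (fun u : Euc (n + 1) × ℂ => (ε * ‖u.1‖)⁻¹ • u.2) (Fr.xr s, Fr.zc s) :=
      ((contDiffAt_const.mul (contDiffAt_fst.norm ℝ h3)).inv h1.ne').smul contDiffAt_snd
    exact h4.comp_contMDiffAt (f := fun s => (Fr.xr s, Fr.zc s))
      ((Fr.cmd_xr s).prodMk_space (Fr.cmd_zc s))

end Frame

end Pool.Agent.Work.MP_e1e788_gt
end
end

-- merged part: Pool.Agent.Work.MP_e1e788_gt.TrFib
section
/-! The compactified knot; fibred long knots give knots with vanishing Morse-Novikov number. -/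

open scoped Manifold ContDiff Topology
open Set Filter Metric

noncomputable section
namespace Pool.Agent.Work.MP_e1e788_gt

attribute [local instance] factEuc

theorem dlog {L : Type*} [NormedAddCommGroup L] [NormedSpace ℝ L] {A B : L → ℂ} {c g : L → ℝ}
    {y : L} (hB : DifferentiableAt ℝ B y) (hc : DifferentiableAt ℝ c y)
    (hg : DifferentiableAt ℝ g y) (hc0 : c y ≠ 0) (hB0 : B y ≠ 0)
    (h : A =ᶠ[𝓝 y] fun u => c u * B u * Complex.exp (g u * Complex.I)) (v : L) :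
    (fderiv ℝ A y v / A y).im = (fderiv ℝ B y v / B y).im + fderiv ℝ g y v := by
  have h1 := (Complex.ofRealCLM.hasFDerivAt.comp y hc.hasFDerivAt).mul hB.hasFDerivAt
  have h2 := ((Complex.ofRealCLM.hasFDerivAt.comp y hg.hasFDerivAt).mul_const Complex.I).cexp
  have h3 := (h1.mul h2).congr_of_eventuallyEq h
  have h4 : (c y : ℂ) ≠ 0 := Complex.ofReal_ne_zero.2 hc0
  have h5 := Complex.exp_ne_zero (g y * Complex.I)
  have h6 : fderiv ℝ A y v / A y = ((fderiv ℝ c y v / c y : ℝ) : ℂ) + fderiv ℝ B y v / B y +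
      fderiv ℝ g y v * Complex.I := by
    rw [h3.fderiv, h.eq_of_nhds]
    simp
    field_simp
    ring
  rw [h6]
  simp

theorem exp_arg_coe {z : ℂ} (h : z ≠ 0) : (Circle.exp z.arg : ℂ) = z / (‖z‖ : ℂ) := by
  have h1 : (‖z‖ : ℂ) ≠ 0 := by simpa using h
  rw [Circle.coe_exp, eq_div_iff h1, mul_comm, Complex.norm_mul_exp_arg_mul_I]

theorem div_norm_pos_mul {c : ℝ} (hc : 0 < c) (z : ℂ) :
    (c * z) / (‖(c : ℂ) * z‖ : ℂ) = z / (‖z‖ : ℂ) := by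
  have h1 : (c : ℂ) ≠ 0 := Complex.ofReal_ne_zero.2 hc.ne'
  rw [norm_mul, Complex.norm_real, Real.norm_of_nonneg hc.le, Complex.ofReal_mul,
    mul_div_mul_left _ _ h1]

namespace Frame
variable {n : ℕ} {V : Type} [NormedAddCommGroup V] [NormedSpace ℝ V] (Fr : Frame n V)

theorem sc_zero (ε : ℝ) : sc ε 0 = 1 := by simp [sc]

theorem p_tube0 (ε : ℝ) (x : Sph n) : Fr.P₂.p (Fr.tube ε (x, 0)) = Fr.P₁.p x := by
  simp [p_tube, sc_zero]

theorem w_tube0 (ε : ℝ) (x : Sph n) : Fr.P₂.w (Fr.tube ε (x, 0)) = (Fr.P₁.w x, 0) := by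
  simp [w_tube, sc_zero]

theorem tube0 (ε : ℝ) (x : Sph n) : Fr.tube ε (x, 0) = Fr.tube 1 (x, 0) :=
  Fr.P₂.ext (by rw [p_tube0, p_tube0]) (by rw [w_tube0, w_tube0])

theorem tube_pole : Fr.tube 1 (Fr.P₁.pole, 0) = Fr.P₂.pole :=
  Fr.P₂.ext (by rw [p_tube0, Pole.p_pole, Pole.p_pole])
    (by rw [w_tube0, Pole.w_pole, Pole.w_pole]; rfl)

theorem tube_τ (v : V) : Fr.tube 1 (Fr.P₁.τ v, 0) = Fr.P₂.τ (v, 0) :=
  Fr.P₂.ext (by simp [p_tube0, Pole.p_τ, Fr.N_eq]) (by simp [w_tube0, Pole.w_τ, Fr.N_eq])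

theorem zc_pole : Fr.zc Fr.P₂.pole = 0 := by simp [zc, Pole.w_pole]

theorem σ_snd (s : Sph (n + 2)) : (Fr.P₂.σ s).2 = (1 - Fr.P₂.p s)⁻¹ • Fr.zc s := rfl

theorem tube_ne {ε : ℝ} (hε : 0 < ε) {q : Sph n × ℂ} (h : q.2 ≠ 0) : Fr.tube ε q ≠ Fr.P₂.pole := by
  intro h1
  have h2 := Fr.zc_tube ε q
  rw [h1, zc_pole, eq_comm, smul_eq_zero] at h2
  exact h2.elim (mul_pos (sc_pos ε q.2) hε).ne' h

theorem σ_tube {ε : ℝ} (hε : 0 < ε) {q : Sph n × ℂ} (h : Fr.tube ε q ≠ Fr.P₂.pole) :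
    ∃ c : ℝ, 0 < c ∧ (Fr.P₂.σ (Fr.tube ε q)).2 = c * q.2 := by
  refine ⟨(1 - Fr.P₂.p (Fr.tube ε q))⁻¹ * (sc ε q.2 * ε), mul_pos (inv_pos.2 ?_)
    (mul_pos (sc_pos _ _) hε), ?_⟩
  · linarith [Fr.P₂.p_lt h]
  · rw [σ_snd, zc_tube, smul_smul, Complex.real_smul]

/-- The compactified knot. -/
def knot (G : V × ℂ → V × ℂ) (x : Sph n) : Sph (n + 2) := Fr.P₂.hat G (Fr.tube 1 (x, 0))

theorem knot_pole (G : V × ℂ → V × ℂ) : Fr.knot G Fr.P₁.pole = Fr.P₂.pole := by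
  rw [knot, tube_pole, Pole.hat_pole]

theorem knot_τ (G : V × ℂ → V × ℂ) (v : V) : Fr.knot G (Fr.P₁.τ v) = Fr.P₂.τ (G (v, 0)) := by
  rw [knot, tube_τ, Pole.hat_τ]

theorem τ_mem_knot (G : OpenPartialHomeomorph (V × ℂ) (V × ℂ)) (y : V × ℂ) :
    Fr.P₂.τ y ∈ range (Fr.knot G) ↔ y ∈ knotL G := by
  constructor
  · rintro ⟨x, hx⟩
    by_cases h : x = Fr.P₁.pole
    · rw [h, knot_pole] at hx; exact absurd hx.symm (Fr.P₂.τ_ne y)
    · rw [← Fr.P₁.τ_σ h, knot_τ] at hx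
      exact ⟨_, by simpa only [Pole.σ_τ] using congrArg Fr.P₂.σ hx⟩
  · rintro ⟨v, rfl⟩
    exact ⟨_, Fr.knot_τ G v⟩

theorem not_mem_knot {G : OpenPartialHomeomorph (V × ℂ) (V × ℂ)} {s : Sph (n + 2)}
    (h : s ∉ range (Fr.knot G)) : s ≠ Fr.P₂.pole ∧ Fr.P₂.σ s ∉ knotL G := by
  have h1 : s ≠ Fr.P₂.pole := fun h1 => h ⟨_, (Fr.knot_pole G).trans h1.symm⟩
  refine ⟨h1, fun h2 => h ?_⟩
  rw [← Fr.P₂.τ_σ h1]; exact (Fr.τ_mem_knot G _).2 h2

theorem near1 {δ : ℝ} (hδ : 0 < δ) (R : ℝ) : ∃ ε > 0, ∀ s ≠ Fr.P₂.pole, ‖Fr.zc s‖ < ε →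
    ‖(Fr.P₂.σ s).2‖ < δ ∨ R ≤ ‖Fr.P₂.σ s‖ := by
  obtain ⟨C, hC, hN⟩ := Fr.P₂.N_le
  have h1 : 0 < C * R ^ 2 + 1 := by positivity
  refine ⟨2 * δ / (C * R ^ 2 + 1), by positivity, fun s hs h => ?_⟩
  by_contra hc
  push Not at hc
  have h2 := Fr.P₂.N_σ hs
  have h3 := Fr.P₂.p_lt hs
  have h4 := hN (Fr.P₂.σ s)
  have h5 : ‖Fr.P₂.σ s‖ ^ 2 ≤ R ^ 2 := pow_le_pow_left₀ (norm_nonneg _) hc.2.le 2
  have h6 : (1 - Fr.P₂.p s)⁻¹ ≤ (C * R ^ 2 + 1) / 2 := by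
    have : 2 / (1 - Fr.P₂.p s) = 2 * (1 - Fr.P₂.p s)⁻¹ := div_eq_mul_inv _ _
    linarith only [h2, h4, this, hC, h5, mul_nonneg_of_nonpos_of_nonpos (le_of_lt (Mathlib.Tactic.Linarith.sub_neg_of_lt hC)) (Mathlib.Tactic.Linarith.sub_nonpos_of_le h5)]
  have h7 := hc.1
  rw [σ_snd, norm_smul, Real.norm_of_nonneg (inv_pos.2 (by linarith only [h3])).le] at h7
  rw [lt_div_iff₀ h1] at h
  linarith only [h, h7, h6, norm_nonneg (Fr.zc s), mul_nonneg_of_nonpos_of_nonpos (Mathlib.Tactic.Linarith.sub_nonpos_of_le h6) (Mathlib.Tactic.Linarith.sub_nonpos_of_le (norm_nonneg (Fr.zc s)))]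

theorem near2 {ε : ℝ} (hε : 0 < ε) : ∃ δ > 0, ∃ R : ℝ, ∀ y : V × ℂ, (‖y.2‖ < δ ∨ R ≤ ‖y‖) →
    ‖Fr.zc (Fr.P₂.τ y)‖ < ε := by
  obtain ⟨C, hC, hN⟩ := Fr.P₂.le_N
  refine ⟨ε / 2, by positivity, √C * (2 / ε), fun y hy => ?_⟩
  have h0 := Fr.P₂.N_nonneg y
  have h1 : 0 < Fr.P₂.N y + 1 := by linarith
  have h2 : ‖Fr.zc (Fr.P₂.τ y)‖ = 2 * ‖y.2‖ / (Fr.P₂.N y + 1) := by
    rw [zc, Pole.w_τ, Prod.smul_snd, norm_smul, Real.norm_of_nonneg (by positivity)]; ring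
  rw [h2, div_lt_iff₀ h1]
  rcases hy with hy | hy
  · linarith only [hy, hε, h0, mul_nonneg_of_nonpos_of_nonpos (le_of_lt (Mathlib.Tactic.Linarith.sub_neg_of_lt hε)) (Mathlib.Tactic.Linarith.sub_nonpos_of_le h0)]
  · have h3 : ‖y.2‖ ^ 2 ≤ Fr.P₂.N y := by
      have := Fr.N_eq y.1 y.2
      have := Fr.P₁.N_nonneg y.1
      simp only [Prod.mk.eta] at *
      linarith
    have h4 : (√C * (2 / ε)) ^ 2 ≤ ‖y‖ ^ 2 := pow_le_pow_left₀ (by positivity) hy 2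
    rw [mul_pow, Real.sq_sqrt hC.le] at h4
    have h5 : (2 / ε) ^ 2 ≤ Fr.P₂.N y := le_of_mul_le_mul_left (h4.trans (hN y)) hC
    have h6 : 4 ≤ ε ^ 2 * Fr.P₂.N y := by
      rw [div_pow, div_le_iff₀ (by positivity)] at h5; linarith only [h5]
    have h7 : (2 * ‖y.2‖) ^ 2 < (ε * (Fr.P₂.N y + 1)) ^ 2 := by
      have : 0 < ε ^ 2 := by positivity
      linarith only [h3, h6, this, h0, mul_nonneg_of_nonpos_of_nonpos (Mathlib.Tactic.Linarith.sub_nonpos_of_le h0) (Mathlib.Tactic.Linarith.sub_nonpos_of_le h6)]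
    exact lt_of_pow_lt_pow_left₀ 2 (by positivity) h7

theorem exists_tube {G : OpenPartialHomeomorph (V × ℂ) (V × ℂ)} (hG : IsLong G) {δ R : ℝ}
    (hδ : 0 < δ) (h : ∀ y : V × ℂ, y.2 ≠ 0 → (‖y.2‖ < δ ∨ R ≤ ‖y‖) → y ∈ G.source) :
    ∃ ε > 0, ∃ ν : PartialDiffeomorph ((𝓡 n).prod 𝓘(ℝ, ℂ)) (𝓡 (n + 2)) (Sph n × ℂ)
      (Sph (n + 2)) ∞, ν.source = univ ×ˢ ball 0 1 ∧ (∀ q, ν q = Fr.P₂.hat G (Fr.tube ε q)) ∧
      (∀ x, ν (x, 0) = Fr.knot G x) ∧
      ∀ q : Sph n × ℂ, ‖q.2‖ < 1 → Fr.tube ε q ≠ Fr.P₂.pole →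
        ‖(Fr.P₂.σ (Fr.tube ε q)).2‖ < δ ∨ R ≤ ‖Fr.P₂.σ (Fr.tube ε q)‖ := by
  obtain ⟨R', hR'⟩ := hG.far
  obtain ⟨ε, hε, h1⟩ := Fr.near1 hδ R
  have h2 : ∀ q : Sph n × ℂ, ‖q.2‖ < 1 → Fr.tube ε q ≠ Fr.P₂.pole →
      ‖(Fr.P₂.σ (Fr.tube ε q)).2‖ < δ ∨ R ≤ ‖Fr.P₂.σ (Fr.tube ε q)‖ := by
    intro q hq hne
    refine h1 _ hne ?_
    have h3 := sc_pos ε q.2
    have h4 := sc_le ε q.2
    rw [zc_tube, norm_smul, Real.norm_of_nonneg (mul_pos h3 hε).le]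
    have : sc ε q.2 * ‖q.2‖ < 1 := by linarith only [h4, hq, h3, norm_nonneg q.2, mul_pos_of_neg_of_neg (Mathlib.Tactic.Linarith.sub_neg_of_lt hq) (Mathlib.Tactic.Linarith.sub_neg_of_lt h3)]
    nlinarith
  refine ⟨ε, hε, (Fr.tubeD hε).trans (Fr.P₂.hatD G hG.smooth hG.smooth_symm hR'), ?_,
    fun _ => rfl, fun x => ?_, h2⟩
  · apply inter_eq_left.2
    intro q hq hne
    change Fr.P₂.σ (Fr.tube ε q) ∈ G.source
    by_cases h0 : (Fr.P₂.σ (Fr.tube ε q)).2 = 0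
    · have := hG.axis (Fr.P₂.σ (Fr.tube ε q)).1
      rwa [← h0] at this
    · exact h _ h0 (h2 q (mem_ball_zero_iff.1 hq.2) hne)
  · change Fr.P₂.hat G (Fr.tube ε (x, 0)) = _
    rw [tube0]; rfl

theorem isKnot_knot {G : OpenPartialHomeomorph (V × ℂ) (V × ℂ)} (hG : IsLong G) {F : V × ℂ → ℂ}
    (hF : StdArg G F) : IsKnot (Fr.knot G) := by
  obtain ⟨δ, hδ, R, h⟩ := hF.std
  obtain ⟨ε, -, ν, h1, -, h2, -⟩ := Fr.exists_tube hG hδ fun y a b => (h y a b).1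
  exact isKnot_of_tube ν (fun x => by rw [h1]; exact ⟨mem_univ _, mem_ball_self one_pos⟩) h2

theorem MN_knot {G : OpenPartialHomeomorph (V × ℂ) (V × ℂ)} (hG : IsLong G) (hf : LongFib G) :
    MN (Fr.knot G) = 0 := by
  obtain ⟨F, hF, hr⟩ := hf
  obtain ⟨δ, hδ, R, h⟩ := hF.std
  obtain ⟨ε, hε, ν, h1, h2, h3, h4⟩ := Fr.exists_tube hG hδ fun y a b => (h y a b).1
  let f : Sph (n + 2) → Circle := fun s => Circle.exp (F (Fr.P₂.σ s)).arg
  have hn : ∀ y ∉ knotL G, ContDiffAt ℝ ∞ (fun u => ‖F u‖) y := fun y hy =>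
    (hF.smooth y hy).norm ℝ (hF.ne_zero y hy)
  have hs : ∀ s ∉ range (Fr.knot G), ContMDiffAt (𝓡 (n + 2)) (𝓡 1) ∞ f s := by
    intro s hs
    obtain ⟨a, b⟩ := Fr.not_mem_knot hs
    apply cmdAt_circle
    have h5 : ContDiffAt ℝ ∞ (fun u => F u / (‖F u‖ : ℂ)) (Fr.P₂.σ s) := by
      have := ((hn _ b).inv (norm_ne_zero_iff.2 (hF.ne_zero _ b))).smul (hF.smooth _ b)
      refine this.congr_of_eventuallyEq (Eventually.of_forall fun u => ?_)
      simp [div_eq_inv_mul]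
    refine (h5.comp_contMDiffAt (Fr.P₂.cmdAt_σ a)).congr_of_eventuallyEq ?_
    have h6 := ((hF.smooth _ b).continuousAt.comp (Fr.P₂.cmdAt_σ a).continuousAt).eventually_ne
      (hF.ne_zero _ b)
    filter_upwards [h6] with u hu using exp_arg_coe hu
  have hreg : IsRegular (Fr.knot G) f := by
    refine ⟨fun s h => (hs s h).contMDiffWithinAt, ν, h1, h3, fun x z hz hz1 => ?_⟩
    have a := Fr.tube_ne hε (q := (x, z)) hz
    obtain ⟨c, hc, b⟩ := Fr.σ_tube hε a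
    have b' : (Fr.P₂.σ (Fr.tube ε (x, z))).2 ≠ 0 := by
      rw [b]; exact mul_ne_zero (Complex.ofReal_ne_zero.2 hc.ne') hz
    obtain ⟨-, d, hd, e⟩ := h _ b' (h4 (x, z) hz1 a)
    have e' : F (Fr.P₂.σ (ν (x, z))) = ((d * c : ℝ) : ℂ) * z := by
      rw [h2, Fr.P₂.hat_ne _ a, Pole.σ_τ, e, b]; push_cast; ring
    have := mul_pos hd hc
    simp only [f]
    rw [e', exp_arg_coe (mul_ne_zero (Complex.ofReal_ne_zero.2 this.ne') hz),
      div_norm_pos_mul this]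
  have hc : crit (Fr.knot G) f = ∅ := by
    refine eq_empty_of_forall_notMem fun s ⟨hs1, hs2⟩ => ?_
    obtain ⟨a, b⟩ := Fr.not_mem_knot hs1
    obtain ⟨v, hv⟩ := hr _ b
    set y := Fr.P₂.σ s with hy
    have e : Fr.P₂.τ y = s := Fr.P₂.τ_σ a
    have d1 : MDifferentiableAt (𝓡 (n + 2)) (𝓡 1) f (Fr.P₂.τ y) := by
      rw [e]; exact (hs s hs1).mdifferentiableAt (by simp)
    have d2 := (Fr.P₂.cmd_τ y).mdifferentiableAt (by simp)
    have d3 := (cmd_coe_circle (f (Fr.P₂.τ y))).mdifferentiableAt (by simp)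
    have d4 := d1.hasMFDerivAt
    rw [← e] at hs2
    rw [hs2] at d4
    have d5 := (d3.hasMFDerivAt.comp y (d4.comp y d2.hasMFDerivAt)).hasFDerivAt
    have d6 : HasFDerivAt (fun u => (f (Fr.P₂.τ u) : ℂ)) (0 : V × ℂ →L[ℝ] ℂ) y := by
      refine d5.congr_fderiv (ContinuousLinearMap.ext fun u => ?_)
      change mfderiv (𝓡 1) 𝓘(ℝ, ℂ) (fun z : Circle => (z : ℂ)) (f (Fr.P₂.τ y)) 0 = 0
      exact map_zero _
    have d7 := dlog (A := F) (c := fun u => ‖F u‖) (g := fun _ => 0) d6.differentiableAt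
      ((hn _ b).differentiableAt (by simp)) (differentiableAt_const _)
      (norm_ne_zero_iff.2 (hF.ne_zero _ b)) (Circle.coe_ne_zero _) (by
        filter_upwards with u
        simp only [f, Pole.σ_τ, Circle.coe_exp, Complex.norm_mul_exp_arg_mul_I]
        simp) v
    rw [d6.fderiv] at d7
    exact hv (by simpa using d7)
  refine le_antisymm (iInf_le_of_le ⟨f, hreg, fun y hy => ?_⟩ ?_) zero_le
  · rw [hc] at hy; exact hy.elim
  · simp [hc]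

end Frame

end Pool.Agent.Work.MP_e1e788_gt
end
end

-- merged part: Pool.Agent.Work.MP_e1e788_gt.TrLin
section
/-! Uniform linearisation of transition maps between tubes; logarithms. -/

open scoped Manifold ContDiff Topology ComplexConjugate
open Set Filter Metric

noncomputable section
namespace Pool.Agent.Work.MP_e1e788_gt

attribute [local instance] factEuc

/-- complex linear part -/
def aa (A : ℂ →L[ℝ] ℂ) : ℂ := (A 1 - Complex.I * A Complex.I) / 2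
/-- antilinear part -/
def bb (A : ℂ →L[ℝ] ℂ) : ℂ := (A 1 + Complex.I * A Complex.I) / 2

theorem aa_bb (A : ℂ →L[ℝ] ℂ) (v : ℂ) : A v = aa A * v + bb A * conj v := by
  have h : v = v.re • (1 : ℂ) + v.im • Complex.I := by
    apply Complex.ext <;> simp
  have h1 : conj v = v.re - v.im * Complex.I := by apply Complex.ext <;> simp
  have h2 : A v = v.re * A 1 + v.im * A Complex.I := by
    conv_lhs => rw [h, map_add, map_smul, map_smul]
    simp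
  rw [h2, h1, aa, bb]
  have h3 : v = v.re + v.im * Complex.I := (Complex.re_add_im v).symm
  have h4 := Complex.I_mul_I
  conv_rhs => enter [1, 2]; rw [h3]
  linear_combination (v.im * A Complex.I) * h4

theorem continuous_aa : Continuous aa := by unfold aa; fun_prop
theorem continuous_bb : Continuous bb := by unfold bb; fun_prop

theorem norm_aa_ne {A : ℂ →L[ℝ] ℂ} (h : ∀ v, A v = 0 → v = 0) : ‖aa A‖ ≠ ‖bb A‖ := by
  intro he
  by_cases ha : aa A = 0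
  · have hb : bb A = 0 := by rw [ha, norm_zero] at he; exact norm_eq_zero.1 he.symm
    exact one_ne_zero (h 1 (by rw [aa_bb, ha, hb]; simp))
  have h1 : bb A * conj (bb A) = aa A * conj (aa A) := by
    rw [Complex.mul_conj', Complex.mul_conj', he]
  by_cases hab : aa A = bb A
  · exact Complex.I_ne_zero (h Complex.I (by rw [aa_bb, hab]; simp))
  · have h2 := h (conj (aa A) * (aa A - bb A)) (by
      rw [aa_bb]
      simp only [map_mul, map_sub, Complex.conj_conj]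
      linear_combination (-aa A) * h1)
    rcases mul_eq_zero.1 h2 with h3 | h3
    · exact ha (by simpa using h3)
    · exact hab (sub_eq_zero.1 h3)

theorem aa_conj (A : ℂ →L[ℝ] ℂ) :
    aa ((Complex.conjCLE : ℂ →L[ℝ] ℂ).comp A) = conj (bb A) := by
  simp [aa, bb, sub_eq_add_neg, map_ofNat]

theorem bb_conj (A : ℂ →L[ℝ] ℂ) :
    bb ((Complex.conjCLE : ℂ →L[ℝ] ℂ).comp A) = conj (aa A) := by
  simp [aa, bb, map_ofNat]

theorem core_est {a b z Z W : ℂ} {m M η : ℝ} (hz : z ≠ 0) (hm : 0 < m) (hη : 0 < η)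
    (h1 : m ≤ ‖a‖ - ‖b‖) (h2 : ‖a‖ ≤ M) (h3 : η < m) (h4 : 4 * M * η + η ^ 2 < m ^ 2)
    (hZ : ‖Z - (a * z + b * conj z)‖ ≤ η * ‖z‖)
    (hW : ‖W - (a * (Complex.I * z) + b * conj (Complex.I * z))‖ ≤ η * ‖z‖) :
    0 < (Z * conj z * conj a).re ∧ 0 < (W * conj Z).im := by
  have hz0 : 0 < ‖z‖ := norm_pos_iff.2 hz
  have hb := norm_nonneg b
  have ha : 0 < ‖a‖ := by linarith
  obtain ⟨E, rfl⟩ : ∃ E, Z = a * z + b * conj z + E := ⟨Z - (a * z + b * conj z), by ring⟩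
  obtain ⟨E', rfl⟩ : ∃ E', W = a * (Complex.I * z) + b * conj (Complex.I * z) + E' :=
    ⟨W - (a * (Complex.I * z) + b * conj (Complex.I * z)), by ring⟩
  rw [add_sub_cancel_left] at hZ hW
  constructor
  · have e : (a * z + b * conj z + E) * conj z * conj a =
        ((‖a‖ ^ 2 * ‖z‖ ^ 2 : ℝ) : ℂ) + (b * conj z + E) * conj z * conj a := by
      push_cast
      rw [← Complex.mul_conj', ← Complex.mul_conj']; ring
    have e1 : ‖(b * conj z + E) * conj z * conj a‖ ≤ (‖b‖ + η) * ‖z‖ * ‖z‖ * ‖a‖ := by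
      rw [norm_mul, norm_mul, Complex.norm_conj, Complex.norm_conj]
      gcongr
      refine (norm_add_le _ _).trans ?_
      rw [norm_mul, Complex.norm_conj]; linarith
    have e2 := (Complex.abs_re_le_norm _).trans e1
    rw [e, Complex.add_re, Complex.ofReal_re]
    have e3 : 0 < (‖a‖ - ‖b‖ - η) * (‖z‖ * ‖z‖ * ‖a‖) := mul_pos (by linarith) (by positivity)
    linarith only [e2, e3, neg_abs_le ((b * conj z + E) * conj z * conj a).re]
  · set Z0 := a * z + b * conj z with hZ0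
    set W0 := a * (Complex.I * z) + b * conj (Complex.I * z) with hW0
    have e : (W0 * conj Z0).im = (‖a‖ ^ 2 - ‖b‖ ^ 2) * ‖z‖ ^ 2 := by
      rw [← Complex.normSq_eq_norm_sq, ← Complex.normSq_eq_norm_sq, ← Complex.normSq_eq_norm_sq]
      simp [hW0, hZ0, Complex.normSq_apply]
      ring
    have n1 : ‖Z0‖ ≤ 2 * M * ‖z‖ := by
      refine (norm_add_le _ _).trans ?_
      rw [norm_mul, norm_mul, Complex.norm_conj]; linarith only [hm, hz0, h1, h2, mul_pos_of_neg_of_neg (Mathlib.Tactic.Linarith.sub_neg_of_lt hm) (Mathlib.Tactic.Linarith.sub_neg_of_lt hz0), mul_nonneg_of_nonpos_of_nonpos (Mathlib.Tactic.Linarith.sub_nonpos_of_le h1) (le_of_lt (Mathlib.Tactic.Linarith.sub_neg_of_lt hz0)), mul_nonneg_of_nonpos_of_nonpos (Mathlib.Tactic.Linarith.sub_nonpos_of_le h2) (le_of_lt (Mathlib.Tactic.Linarith.sub_neg_of_lt hz0))]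
    have n2 : ‖W0‖ ≤ 2 * M * ‖z‖ := by
      refine (norm_add_le _ _).trans ?_
      rw [norm_mul, norm_mul, norm_mul, Complex.norm_conj, norm_mul, Complex.norm_I]; linarith only [hm, hz0, h1, h2, mul_pos_of_neg_of_neg (Mathlib.Tactic.Linarith.sub_neg_of_lt hm) (Mathlib.Tactic.Linarith.sub_neg_of_lt hz0), mul_nonneg_of_nonpos_of_nonpos (Mathlib.Tactic.Linarith.sub_nonpos_of_le h1) (le_of_lt (Mathlib.Tactic.Linarith.sub_neg_of_lt hz0)), mul_nonneg_of_nonpos_of_nonpos (Mathlib.Tactic.Linarith.sub_nonpos_of_le h2) (le_of_lt (Mathlib.Tactic.Linarith.sub_neg_of_lt hz0))]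
    have e1 : (W0 + E') * conj (Z0 + E) = W0 * conj Z0 + (W0 * conj E + E' * conj Z0 + E' * conj E) := by
      rw [map_add]; ring
    have hM : 0 ≤ M := by linarith
    have e2 : ‖W0 * conj E + E' * conj Z0 + E' * conj E‖ ≤ (4 * M * η + η ^ 2) * ‖z‖ ^ 2 := by
      refine (norm_add₃_le).trans ?_
      simp only [norm_mul, Complex.norm_conj]
      have a1 : ‖W0‖ * ‖E‖ ≤ (2 * M * ‖z‖) * (η * ‖z‖) := by gcongr
      have a2 : ‖E'‖ * ‖Z0‖ ≤ (η * ‖z‖) * (2 * M * ‖z‖) := by gcongr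
      have a3 : ‖E'‖ * ‖E‖ ≤ (η * ‖z‖) * (η * ‖z‖) := by gcongr
      linarith only [a1, a2, a3]
    have e3 := (Complex.abs_im_le_norm _).trans e2
    rw [e1, Complex.add_im, e]
    have e4 : m ^ 2 ≤ ‖a‖ ^ 2 - ‖b‖ ^ 2 := by linarith only [hm, h1, hb, mul_nonneg_of_nonpos_of_nonpos (le_of_lt (Mathlib.Tactic.Linarith.sub_neg_of_lt hm)) (Mathlib.Tactic.Linarith.sub_nonpos_of_le h1), mul_nonneg_of_nonpos_of_nonpos (le_of_lt (Mathlib.Tactic.Linarith.sub_neg_of_lt hm)) (Mathlib.Tactic.Linarith.sub_nonpos_of_le hb), mul_nonneg_of_nonpos_of_nonpos (Mathlib.Tactic.Linarith.sub_nonpos_of_le h1) (Mathlib.Tactic.Linarith.sub_nonpos_of_le h1), mul_nonneg_of_nonpos_of_nonpos (Mathlib.Tactic.Linarith.sub_nonpos_of_le h1) (Mathlib.Tactic.Linarith.sub_nonpos_of_le hb)]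
    have e5 : 0 < ‖z‖ ^ 2 := by positivity
    linarith only [e3, e4, h4, e5, neg_abs_le (W0 * conj E + E' * conj Z0 + E' * conj E).im, mul_nonneg_of_nonpos_of_nonpos (Mathlib.Tactic.Linarith.sub_nonpos_of_le (sq_nonneg ‖z‖)) (Mathlib.Tactic.Linarith.sub_nonpos_of_le e4), mul_pos_of_neg_of_neg (Mathlib.Tactic.Linarith.sub_neg_of_lt h4) (Mathlib.Tactic.Linarith.sub_neg_of_lt e5)]

theorem exists_log {L : Type*} [NormedAddCommGroup L] [NormedSpace ℝ L] {R : L → ℂ}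
    (hR : Continuous R) (h0 : ∀ y, R y ≠ 0) :
    ∃ g : L → ℝ, Continuous g ∧ ∀ y, R y = ‖R y‖ * Complex.exp (g y * Complex.I) := by
  have hn : ∀ y, (‖R y‖ : ℂ) ≠ 0 := fun y => by simpa using h0 y
  have hm : ∀ y, R y / (‖R y‖ : ℂ) ∈ Submonoid.unitSphere ℂ := fun y => by
    simp [Submonoid.unitSphere, h0 y]
  let f : C(L, Circle) := ⟨fun y => ⟨R y / (‖R y‖ : ℂ), hm y⟩,
    Continuous.subtype_mk (hR.div (Complex.continuous_ofReal.comp hR.norm) hn) hm⟩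
  obtain ⟨g, ⟨-, hg⟩, -⟩ := Circle.isCoveringMap_exp.existsUnique_continuousMap_lifts f 0
    (f 0 : ℂ).arg (Circle.exp_arg _)
  refine ⟨g, g.continuous, fun y => ?_⟩
  have h1 : (Circle.exp (g y) : ℂ) = R y / (‖R y‖ : ℂ) := congrArg Subtype.val (congrFun hg y)
  rw [← Circle.coe_exp, h1, mul_div_cancel₀ _ (hn y)]

theorem smooth_log {L : Type*} [NormedAddCommGroup L] [NormedSpace ℝ L] {R : L → ℂ} {g : L → ℝ}
    {y : L} (hR : ContDiffAt ℝ ∞ R y) (h0 : R y ≠ 0) (hg : ContinuousAt g y)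
    (h : ∀ᶠ u in 𝓝 y, R u = ‖R u‖ * Complex.exp (g u * Complex.I)) : ContDiffAt ℝ ∞ g y := by
  have h1 : ContDiffAt ℝ ∞ (fun u => R u * Complex.exp (-(g y * Complex.I))) y :=
    hR.mul contDiffAt_const
  have h2 : R y * Complex.exp (-(g y * Complex.I)) ∈ Complex.slitPlane := by
    rw [h.self_of_nhds, mul_assoc, ← Complex.exp_add, add_neg_cancel, Complex.exp_zero, mul_one]
    exact Complex.ofReal_mem_slitPlane.2 (norm_pos_iff.2 h0)
  have h2' : ContDiffAt ℝ ∞ Complex.log (R y * Complex.exp (-(g y * Complex.I))) :=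
    (Complex.contDiffAt_log h2).restrict_scalars ℝ
  have h3 : ContDiffAt ℝ ∞
      (fun u => g y + (Complex.log (R u * Complex.exp (-(g y * Complex.I)))).im) y :=
    contDiffAt_const.add (Complex.imCLM.contDiff.contDiffAt.comp y
      (ContDiffAt.comp (g := Complex.log) y h2' h1))
  refine h3.congr_of_eventuallyEq ?_
  have h4 : ∀ᶠ u in 𝓝 y, g u - g y ∈ Ioo (-Real.pi) Real.pi :=
    (hg.sub continuousAt_const).eventually
      (Ioo_mem_nhds (by simpa using Real.pi_pos) (by simpa using Real.pi_pos))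
  filter_upwards [h, h4, hR.continuousAt.eventually_ne h0] with u hu hu1 hu2
  have h5 : R u * Complex.exp (-(g y * Complex.I)) =
      ‖R u‖ * (Complex.cos (g u - g y : ℝ) + Complex.sin (g u - g y : ℝ) * Complex.I) := by
    rw [← Complex.exp_mul_I]
    conv_lhs => rw [hu]
    rw [mul_assoc, ← Complex.exp_add]; congr 2; push_cast; ring
  rw [Complex.log_im, h5, Complex.arg_mul_cos_add_sin_mul_I (norm_pos_iff.2 hu2) ⟨hu1.1, hu1.2.le⟩]
  ring

/-- the derivative in the normal direction along the zero section -/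
def lin {n : ℕ} (Z : Sph n × ℂ → ℂ) (x : Sph n) : ℂ →L[ℝ] ℂ := fderiv ℝ (fun w => Z (x, w)) 0

namespace Frame
variable {n : ℕ} {V : Type} [NormedAddCommGroup V] [NormedSpace ℝ V] (Fr : Frame n V)

include Fr in
theorem unif_lin {Z : Sph n × ℂ → ℂ} {O : Set (Sph n × ℂ)} (hO : IsOpen O)
    (h0 : ∀ x, (x, (0 : ℂ)) ∈ O) (hZ : ContMDiffOn ((𝓡 n).prod 𝓘(ℝ, ℂ)) 𝓘(ℝ, ℂ) ∞ Z O)
    (hZ0 : ∀ x, Z (x, 0) = 0) :
    Continuous (lin Z) ∧ ∀ η > 0, ∃ ρ > 0, ∀ x z, ‖z‖ < ρ → (x, z) ∈ O ∧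
      DifferentiableAt ℝ (fun w => Z (x, w)) z ∧ ‖fderiv ℝ (fun w => Z (x, w)) z - lin Z x‖ ≤ η ∧
      ‖Z (x, z) - lin Z x z‖ ≤ η * ‖z‖ := by
  let Y : Euc (n + 1) × ℂ → ℂ := fun u => Z (Fr.nrm u.1, u.2)
  have hn : ∀ x : Sph n, Fr.nrm x = x := fun x => by simpa using Fr.nrm_smul one_pos x
  have hY : ∀ q ∈ O, ContDiffAt ℝ ∞ Y ((q.1 : Euc (n + 1)), q.2) := by
    intro q hq
    rw [← contMDiffAt_iff_contDiffAt]
    have h1 : ContMDiffAt 𝓘(ℝ, Euc (n + 1) × ℂ) ((𝓡 n).prod 𝓘(ℝ, ℂ)) ∞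
        (fun u : Euc (n + 1) × ℂ => (Fr.nrm u.1, u.2)) ((q.1 : Euc (n + 1)), q.2) :=
      (ContMDiffAt.comp (g := Fr.nrm) (f := Prod.fst) ((q.1 : Euc (n + 1)), q.2)
        (Fr.cmdAt_nrm (ne_zero_of_mem_unit_sphere q.1))
        (contDiff_fst.contMDiff _)).prodMk (contDiff_snd.contMDiff _)
    refine ContMDiffAt.comp _ ?_ h1
    simp only [hn]
    exact hZ.contMDiffAt (hO.mem_nhds hq)
  let D : Sph n × ℂ → ℂ →L[ℝ] ℂ := fun q => fderiv ℝ (fun w => Z (q.1, w)) q.2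
  have hD : ∀ q ∈ O, HasFDerivAt (fun w => Z (q.1, w))
      ((fderiv ℝ Y ((q.1 : Euc (n + 1)), q.2)).comp (ContinuousLinearMap.inr ℝ _ _)) q.2 := by
    intro q hq
    have h1 := ((hY q hq).differentiableAt (by simp)).hasFDerivAt.comp q.2
      (hasFDerivAt_prodMk_right (q.1 : Euc (n + 1)) q.2)
    refine h1.congr_of_eventuallyEq (Eventually.of_forall fun w => ?_)
    simp only [Y, Function.comp, hn]
  have hDc : ContinuousOn D O := by
    have h1 : ContinuousOn (fun q : Sph n × ℂ => (fderiv ℝ Y ((q.1 : Euc (n + 1)), q.2)).comp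
        (ContinuousLinearMap.inr ℝ _ _)) O := by
      intro q hq
      refine (ContinuousAt.clm_comp ?_ continuousAt_const).continuousWithinAt
      exact ContinuousAt.comp (f := fun q : Sph n × ℂ => ((q.1 : Euc (n + 1)), q.2))
        ((hY q hq).continuousAt_fderiv (by simp)) (by fun_prop)
    exact h1.congr fun q hq => (hD q hq).fderiv
  have hA : Continuous (lin Z) := hDc.comp_continuous (f := fun x => (x, 0)) (by fun_prop) h0
  refine ⟨hA, fun η hη => ?_⟩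
  have h1 : IsOpen (O ∩ (fun q => ‖D q - lin Z q.1‖) ⁻¹' Iio η) :=
    (hDc.sub (hA.comp continuous_fst).continuousOn).norm.isOpen_inter_preimage hO isOpen_Iio
  obtain ⟨u, v, -, hv, hu, h0v, huv⟩ := generalized_tube_lemma isCompact_univ
    (isCompact_singleton (x := (0 : ℂ))) h1 (by
      rintro ⟨x, z⟩ ⟨-, hz⟩
      obtain rfl : z = 0 := hz
      exact ⟨h0 x, by simpa [D, lin] using hη⟩)
  obtain ⟨ρ, hρ, hb⟩ := Metric.isOpen_iff.1 hv 0 (h0v rfl)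
  have h2 : ∀ x z, ‖z‖ < ρ → (x, z) ∈ O ∧ DifferentiableAt ℝ (fun w => Z (x, w)) z ∧
      ‖fderiv ℝ (fun w => Z (x, w)) z - lin Z x‖ ≤ η := by
    intro x z hz
    have := huv (mk_mem_prod (hu (mem_univ x)) (hb (mem_ball_zero_iff.2 hz)))
    exact ⟨this.1, (hD _ this.1).differentiableAt, le_of_lt this.2⟩
  refine ⟨ρ, hρ, fun x z hz => ⟨(h2 x z hz).1, (h2 x z hz).2.1, (h2 x z hz).2.2, ?_⟩⟩
  have h3 := (convex_ball (0 : ℂ) ρ).norm_image_sub_le_of_norm_fderiv_le'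
    (f := fun w => Z (x, w)) (φ := lin Z x) (fun w hw => (h2 x w (mem_ball_zero_iff.1 hw)).2.1)
    (fun w hw => (h2 x w (mem_ball_zero_iff.1 hw)).2.2) (mem_ball_self hρ) (mem_ball_zero_iff.2 hz)
  simpa [hZ0] using h3

end Frame

/-- a tube around `K` -/
structure IsTube {n : ℕ} (K : Sph n → Sph (n + 2))
    (ν : PartialDiffeomorph ((𝓡 n).prod 𝓘(ℝ, ℂ)) (𝓡 (n + 2)) (Sph n × ℂ) (Sph (n + 2)) ∞) :
    Prop where
  src : ν.source = univ ×ˢ ball 0 1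
  zero : ∀ x, ν (x, 0) = K x

section
variable {n : ℕ} {K : Sph n → Sph (n + 2)}
  {ν μ : PartialDiffeomorph ((𝓡 n).prod 𝓘(ℝ, ℂ)) (𝓡 (n + 2)) (Sph n × ℂ) (Sph (n + 2)) ∞}

theorem IsTube.mem (h : IsTube K ν) (x : Sph n) {z : ℂ} (hz : ‖z‖ < 1) : (x, z) ∈ ν.source := by
  rw [h.src]; exact ⟨mem_univ _, mem_ball_zero_iff.2 hz⟩

theorem IsTube.mem0 (h : IsTube K ν) (x : Sph n) : (x, (0 : ℂ)) ∈ ν.source := h.mem x (by simp)

theorem IsTube.not_mem (h : IsTube K ν) {q : Sph n × ℂ} (hq : q ∈ ν.source) (hz : q.2 ≠ 0) :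
    ν q ∉ range K := by
  rintro ⟨x, hx⟩
  rw [← h.zero] at hx
  exact hz (congrArg Prod.snd (ν.toPartialEquiv.injOn (h.mem0 x) hq hx)).symm

theorem IsTube.trans_mem (h : IsTube K ν) (h' : IsTube K μ) (x : Sph n) :
    (x, (0 : ℂ)) ∈ (ν.trans μ.symm).source :=
  ⟨h.mem0 x, by
    change ν (x, 0) ∈ μ.target
    rw [h.zero, ← h'.zero]; exact μ.toPartialEquiv.map_source (h'.mem0 x)⟩

theorem IsTube.trans_zero (h : IsTube K ν) (h' : IsTube K μ) (x : Sph n) :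
    (μ.symm (ν (x, 0))).2 = 0 := by
  rw [h.zero, ← h'.zero]
  exact congrArg Prod.snd (μ.toPartialEquiv.left_inv (h'.mem0 x))

theorem trans_smooth : ContMDiffOn ((𝓡 n).prod 𝓘(ℝ, ℂ)) 𝓘(ℝ, ℂ) ∞
    (fun q => (μ.symm (ν q)).2) (ν.trans μ.symm).source :=
  contMDiff_snd.comp_contMDiffOn (ν.trans μ.symm).contMDiffOn

theorem Frame.lin_inj {V : Type} [NormedAddCommGroup V] [NormedSpace ℝ V] (Fr : Frame n V)
    (h : IsTube K ν) (h' : IsTube K μ) (x : Sph n) (v : ℂ)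
    (hv : lin (fun q => (μ.symm (ν q)).2) x v = 0) : v = 0 := by
  obtain ⟨-, h1⟩ := Fr.unif_lin (ν.trans μ.symm).open_source (h.trans_mem h') trans_smooth
    (h.trans_zero h')
  obtain ⟨hc, h2⟩ := Fr.unif_lin (μ.trans ν.symm).open_source (h'.trans_mem h) trans_smooth
    (h'.trans_zero h)
  obtain ⟨M, hM⟩ := isCompact_univ.exists_bound_of_continuousOn hc.continuousOn
  have hM0 : 0 ≤ M := (norm_nonneg _).trans (hM x (mem_univ _))
  obtain ⟨ρ', hρ', h3⟩ := h2 1 one_pos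
  obtain ⟨ρ, hρ, h4⟩ := h1 (1 / (2 * (M + 1))) (by positivity)
  by_contra hne
  have hv0 : 0 < ‖v‖ := norm_pos_iff.2 hne
  have hm : 0 < min ρ ρ' := lt_min hρ hρ'
  set z : ℂ := (min ρ ρ' / (2 * ‖v‖)) • v with hz
  have hzn : ‖z‖ = min ρ ρ' / 2 := by
    rw [hz, norm_smul, Real.norm_of_nonneg (by positivity)]; field_simp
  obtain ⟨a1, -, -, a2⟩ := h4 x z (by rw [hzn]; linarith only [hρ, min_le_left ρ ρ'])
  rw [hz, map_smul, hv, smul_zero, sub_zero, ← hz] at a2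
  set q := μ.symm (ν (x, z)) with hq
  have a3 : 1 / (2 * (M + 1)) * ‖z‖ ≤ ‖z‖ := by
    refine mul_le_of_le_one_left (norm_nonneg _) ?_
    rw [div_le_one (by positivity)]; linarith only [hM0]
  obtain ⟨-, -, -, a4⟩ := h3 q.1 q.2 (by
    have := a2.trans a3
    rw [hzn] at this; linarith only [hρ', hzn, a2, a3, min_le_right ρ ρ'])
  have a5 : (ν.symm (μ (q.1, q.2))).2 = z := by
    have b1 : μ q = ν (x, z) := μ.toPartialEquiv.right_inv a1.2
    rw [Prod.mk.eta, b1]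
    exact congrArg Prod.snd (ν.toPartialEquiv.left_inv a1.1)
  rw [a5] at a4
  have a6 : ‖z‖ ≤ (M + 1) * ‖q.2‖ := by
    have b1 := (lin (fun q => (ν.symm (μ q)).2) q.1).le_opNorm q.2
    have b2 := mul_le_mul_of_nonneg_right (hM q.1 (mem_univ _)) (norm_nonneg q.2)
    have b3 := norm_le_norm_add_norm_sub' z (lin (fun q => (ν.symm (μ q)).2) q.1 q.2)
    linarith only [a4, b1, b2, b3]
  have a7 : (M + 1) * ‖q.2‖ ≤ (M + 1) * (1 / (2 * (M + 1)) * ‖z‖) := by gcongr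
  have a8 : (M + 1) * (1 / (2 * (M + 1)) * ‖z‖) = ‖z‖ / 2 := by field_simp
  rw [hzn] at a6 a7 a8
  linarith only [hm, a6, a7, a8]

end

end Pool.Agent.Work.MP_e1e788_gt
end
end

-- merged part: Pool.Agent.Work.MP_e1e788_gt.TrWeak
section
/-! A fibration for an arbitrary tube gives `WeakFib`. -/

open scoped Manifold ContDiff Topology ComplexConjugate
open Set Filter Metric

noncomputable section
namespace Pool.Agent.Work.MP_e1e788_gt

attribute [local instance] factEuc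

namespace Frame
variable {n : ℕ} {V : Type} [NormedAddCommGroup V] [NormedSpace ℝ V] (Fr : Frame n V)

include Fr in
theorem est {Z : Sph n × ℂ → ℂ} {O : Set (Sph n × ℂ)} (hO : IsOpen O)
    (h0 : ∀ x, (x, (0 : ℂ)) ∈ O) (hZ : ContMDiffOn ((𝓡 n).prod 𝓘(ℝ, ℂ)) 𝓘(ℝ, ℂ) ∞ Z O)
    (hZ0 : ∀ x, Z (x, 0) = 0) (hab : ∀ x, ‖bb (lin Z x)‖ < ‖aa (lin Z x)‖) :
    ∃ ρ > 0, ρ ≤ 1 ∧ ∀ x z, z ≠ 0 → ‖z‖ < ρ → (x, z) ∈ O ∧
      DifferentiableAt ℝ (fun w => Z (x, w)) z ∧ 0 < (Z (x, z) * conj z * conj (aa (lin Z x))).re ∧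
      0 < (fderiv ℝ (fun w => Z (x, w)) z (Complex.I * z) * conj (Z (x, z))).im := by
  obtain ⟨hc, hu⟩ := Fr.unif_lin hO h0 hZ hZ0
  have ca := (continuous_aa.comp hc).norm
  have cb := (continuous_bb.comp hc).norm
  obtain ⟨x0, -, hx0⟩ := isCompact_univ.exists_isMinOn ⟨Fr.P₁.pole, mem_univ _⟩
    (ca.sub cb).continuousOn
  obtain ⟨x1, -, hx1⟩ := isCompact_univ.exists_isMaxOn ⟨Fr.P₁.pole, mem_univ _⟩ ca.continuousOn
  set m := ‖aa (lin Z x0)‖ - ‖bb (lin Z x0)‖ with hm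
  set M := ‖aa (lin Z x1)‖ with hM
  have hm0 : 0 < m := sub_pos.2 (hab x0)
  have hM0 : 0 ≤ M := norm_nonneg _
  have h1 : ∀ x, m ≤ ‖aa (lin Z x)‖ - ‖bb (lin Z x)‖ := fun x => hx0 (mem_univ x)
  have h2 : ∀ x, ‖aa (lin Z x)‖ ≤ M := fun x => hx1 (mem_univ x)
  have hd : 0 < 4 * M + m + 1 := by positivity
  set η := m ^ 2 / (4 * M + m + 1) with hη
  have hη0 : 0 < η := by positivity
  have h3 : η * (4 * M + m + 1) = m ^ 2 := div_mul_cancel₀ _ hd.ne'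
  have h4 : η < m := by
    rw [hη, div_lt_iff₀ hd]; linarith only [hm0, hM0, mul_nonneg_of_nonpos_of_nonpos (le_of_lt (Mathlib.Tactic.Linarith.sub_neg_of_lt hm0)) (Mathlib.Tactic.Linarith.sub_nonpos_of_le hM0)]
  have h5 : 4 * M * η + η ^ 2 < m ^ 2 := by (refine lt_of_not_ge fun h_nl => ?_; linarith only [h_nl, hM0, hm0, hη0, h3, sq_nonneg η, mul_nonneg_of_nonpos_of_nonpos (Mathlib.Tactic.Linarith.sub_nonpos_of_le (sq_nonneg η)) (Mathlib.Tactic.Linarith.sub_nonpos_of_le hM0), mul_pos_of_neg_of_neg (Mathlib.Tactic.Linarith.sub_neg_of_lt hm0) (Mathlib.Tactic.Linarith.sub_neg_of_lt hη0), Mathlib.Tactic.Linarith.mul_zero_eq (Mathlib.Tactic.Linarith.sub_neg_of_lt hm0) (sub_eq_zero_of_eq h3), mul_nonneg_of_nonpos_of_nonpos (le_of_lt (Mathlib.Tactic.Linarith.sub_neg_of_lt hm0)) (Mathlib.Tactic.Linarith.sub_nonpos_of_le h_nl), Mathlib.Tactic.Linarith.mul_zero_eq (Mathlib.Tactic.Linarith.sub_neg_of_lt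 hη0) (sub_eq_zero_of_eq h3)])
  obtain ⟨ρ, hρ, h6⟩ := hu η hη0
  refine ⟨min ρ 1, lt_min hρ one_pos, min_le_right _ _, fun x z hz hz1 => ?_⟩
  obtain ⟨a1, a2, a3, a4⟩ := h6 x z (hz1.trans_le (min_le_left _ _))
  refine ⟨a1, a2, core_est hz hm0 hη0 (h1 x) (h2 x) h4 h5 (by rwa [← aa_bb]) ?_⟩
  rw [← aa_bb, ← sub_apply]
  refine (ContinuousLinearMap.le_opNorm _ _).trans ?_
  rw [norm_mul, Complex.norm_I, one_mul]
  gcongr

theorem rot_tube {ε : ℝ} {y : V × ℂ} {q : Sph n × ℂ} (h : Fr.P₂.τ y = Fr.tube ε q) {u : ℂ}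
    (hu : ‖u‖ = 1) : Fr.P₂.τ (y.1, u * y.2) = Fr.tube ε (q.1, u * q.2) := by
  have hN : Fr.P₂.N (y.1, u * y.2) = Fr.P₂.N y := by
    have := Fr.N_eq y.1 y.2
    rw [Fr.N_eq, norm_mul, hu, one_mul, ← this]
  have hs : sc ε (u * q.2) = sc ε q.2 := by simp only [sc, norm_mul, hu, one_mul]
  have h1 := congrArg Fr.P₂.p h
  have h2 := congrArg Fr.P₂.w h
  rw [Pole.p_τ, p_tube] at h1
  rw [Pole.w_τ, w_tube] at h2
  apply Fr.P₂.ext
  · rw [Pole.p_τ, p_tube, hN, hs, h1]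
  · rw [Pole.w_τ, w_tube, hN, hs]
    refine Prod.ext (congrArg Prod.fst h2 :) ?_
    have h3 : (2 / (Fr.P₂.N y + 1)) • y.2 = sc ε q.2 • ε • q.2 := congrArg Prod.snd h2
    change (2 / (Fr.P₂.N y + 1)) • (u * y.2) = sc ε q.2 • ε • (u * q.2)
    rw [← mul_smul_comm, ← mul_smul_comm, ← mul_smul_comm, h3]

theorem near3 {ε ρ : ℝ} (hε : 0 < ε) (hρ : 0 < ρ) : ∃ δ > 0, ∃ R : ℝ, ∀ y : V × ℂ,
    (‖y.2‖ < δ ∨ R ≤ ‖y‖) → ∃ q : Sph n × ℂ, ‖q.2‖ < ρ ∧ Fr.P₂.τ y = Fr.tube ε q := by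
  obtain ⟨δ, hδ, R, h⟩ := Fr.near2 (ε := min (1 / 2) (ε * min ρ 1 / 2))
    (lt_min (by norm_num) (by have := lt_min hρ one_pos; positivity))
  refine ⟨δ, hδ, R, fun y hy => ?_⟩
  have h1 := (h y hy).trans_le (min_le_left _ _)
  have h2 := (h y hy).trans_le (min_le_right _ _)
  have h3 := Fr.norm_xr (Fr.P₂.τ y)
  have h4 : 1 / 2 < ‖Fr.xr (Fr.P₂.τ y)‖ := by
    by_contra hc
    linarith only [h1, h3, hc, norm_nonneg (Fr.xr (Fr.P₂.τ y)), norm_nonneg (Fr.zc (Fr.P₂.τ y)), mul_nonneg_of_nonpos_of_nonpos (le_of_lt (Mathlib.Tactic.Linarith.sub_neg_of_lt h1)) (Mathlib.Tactic.Linarith.sub_nonpos_of_le (norm_nonneg (Fr.zc (Fr.P₂.τ y)))), mul_nonneg_of_nonpos_of_nonpos (Mathlib.Tactic.Linarith.sub_nonpos_of_le (le_of_not_gt hc)) (Mathlib.Tactic.Linarith.sub_nonpos_of_le (norm_nonneg (Fr.xr (Fr.P₂.τ y))))]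
  have h5 : ‖Fr.zc (Fr.P₂.τ y)‖ < ε * ‖Fr.xr (Fr.P₂.τ y)‖ * min ρ 1 := by
    have := mul_pos hε (lt_min hρ one_pos)
    linarith only [h2, h4, this, mul_pos_of_neg_of_neg (Mathlib.Tactic.Linarith.sub_neg_of_lt h4) (Mathlib.Tactic.Linarith.sub_neg_of_lt this)]
  have h6 : 0 < ε * ‖Fr.xr (Fr.P₂.τ y)‖ := by positivity
  have h7 : Fr.P₂.τ y ∈ (Fr.tubeD hε).target := by
    change ‖Fr.zc (Fr.P₂.τ y)‖ < ε * ‖Fr.xr (Fr.P₂.τ y)‖
    linarith only [h2, hε, h4, min_le_right ρ 1, mul_pos_of_neg_of_neg (Mathlib.Tactic.Linarith.sub_neg_of_lt hε) (Mathlib.Tactic.Linarith.sub_neg_of_lt h4), mul_nonneg_of_nonpos_of_nonpos (le_of_lt (Mathlib.Tactic.Linarith.sub_neg_of_lt hε)) (Mathlib.Tactic.Linarith.sub_nonpos_of_le (min_le_right ρ (1 : ℝ)))]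
  refine ⟨_, ?_, ((Fr.tubeD hε).toPartialEquiv.right_inv h7).symm⟩
  change ‖(ε * ‖Fr.xr (Fr.P₂.τ y)‖)⁻¹ • Fr.zc (Fr.P₂.τ y)‖ < ρ
  rw [norm_smul, norm_inv, Real.norm_of_nonneg h6.le, inv_mul_lt_iff₀ h6]
  linarith only [h5, h6, min_le_left ρ 1, mul_nonneg_of_nonpos_of_nonpos (le_of_lt (Mathlib.Tactic.Linarith.sub_neg_of_lt h6)) (Mathlib.Tactic.Linarith.sub_nonpos_of_le (min_le_left ρ (1 : ℝ)))]

theorem weak_core {G : OpenPartialHomeomorph (V × ℂ) (V × ℂ)} (hG : IsLong G) {Φ : V × ℂ → ℂ}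
    (hΦ : StdArg G Φ) {δ R ε : ℝ} (hδ : 0 < δ) (hε : 0 < ε)
    (h : ∀ y : V × ℂ, y.2 ≠ 0 → (‖y.2‖ < δ ∨ R ≤ ‖y‖) →
      y ∈ G.source ∧ ∃ c : ℝ, 0 < c ∧ Φ (G y) = c * y.2)
    {ν : PartialDiffeomorph ((𝓡 n).prod 𝓘(ℝ, ℂ)) (𝓡 (n + 2)) (Sph n × ℂ) (Sph (n + 2)) ∞}
    (hν : IsTube (Fr.knot G) ν) (h2 : ∀ q, ν q = Fr.P₂.hat G (Fr.tube ε q))
    (h4 : ∀ q : Sph n × ℂ, ‖q.2‖ < 1 → Fr.tube ε q ≠ Fr.P₂.pole →
      ‖(Fr.P₂.σ (Fr.tube ε q)).2‖ < δ ∨ R ≤ ‖Fr.P₂.σ (Fr.tube ε q)‖)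
    {P : V × ℂ → ℂ} (hP : ∀ y ∉ knotL G, ContDiffAt ℝ ∞ P y ∧ P y ≠ 0 ∧
      ∃ v, (fderiv ℝ P y v / P y).im ≠ 0)
    {Z : Sph n × ℂ → ℂ} {O : Set (Sph n × ℂ)} (hO : IsOpen O)
    (h0 : ∀ x, (x, (0 : ℂ)) ∈ O) (hZ : ContMDiffOn ((𝓡 n).prod 𝓘(ℝ, ℂ)) 𝓘(ℝ, ℂ) ∞ Z O)
    (hZ0 : ∀ x, Z (x, 0) = 0) (hab : ∀ x, ‖bb (lin Z x)‖ < ‖aa (lin Z x)‖)
    (hPZ : ∀ q ∈ O, q.2 ≠ 0 → ‖q.2‖ < 1 → Z q ≠ 0 ∧ P (Fr.P₂.σ (ν q)) = Z q / (‖Z q‖ : ℂ)) :
    WeakFib G Φ := by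
  obtain ⟨ρ, hρ, hρ1, he⟩ := Fr.est hO h0 hZ hZ0 hab
  have hc := (Fr.unif_lin hO h0 hZ hZ0).1
  have cτ := Fr.P₂.cmd_τ.continuous
  have hΦν : ∀ q : Sph n × ℂ, q.2 ≠ 0 → ‖q.2‖ < 1 →
      ∃ c : ℝ, 0 < c ∧ Φ (Fr.P₂.σ (ν q)) = c * q.2 := by
    intro q hz hz1
    have a := Fr.tube_ne hε hz
    obtain ⟨c, hc, b⟩ := Fr.σ_tube hε a
    obtain ⟨-, d, hd, e⟩ := h _ (by
      rw [b]; exact mul_ne_zero (Complex.ofReal_ne_zero.2 hc.ne') hz) (h4 q hz1 a)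
    exact ⟨d * c, mul_pos hd hc, by rw [h2, Fr.P₂.hat_ne _ a, Pole.σ_τ, e, b]; push_cast; ring⟩
  let Q : V × ℂ → ℂ := fun y => P y * conj (Φ y)
  have hQ : ∀ y ∉ knotL G, ContDiffAt ℝ ∞ Q y ∧ Q y ≠ 0 := fun y hy =>
    ⟨(hP y hy).1.mul (Complex.conjCLE.contDiff.contDiffAt.comp y (hΦ.smooth y hy)),
      mul_ne_zero (hP y hy).2.1 (by simpa using hΦ.ne_zero y hy)⟩
  let a : Sph (n + 2) → ℂ := fun s => aa (lin Z (ν.symm s).1)
  have ha : ∀ q ∈ ν.source, a (ν q) = aa (lin Z q.1) := fun q hq =>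
    congrArg (fun q : Sph n × ℂ => aa (lin Z q.1)) (ν.toPartialEquiv.left_inv hq)
  have ha0 : ∀ s, a s ≠ 0 := fun s => norm_pos_iff.1 ((norm_nonneg _).trans_lt (hab _))
  have hac : ∀ s ∈ ν.target, ContinuousAt a s := fun s hs =>
    (continuous_aa.comp (hc.comp continuous_fst)).continuousAt.comp
      (ν.symm.contMDiffOn.continuousOn.continuousAt (ν.open_target.mem_nhds hs))
  have pos : ∀ y ∉ knotL G, ∀ q : Sph n × ℂ, ‖q.2‖ < ρ → ν q = Fr.P₂.τ y →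
      0 < (Q y * conj (a (Fr.P₂.τ y))).re := by
    intro y hy q hq e
    have hz : q.2 ≠ 0 := fun hz => hy ((Fr.τ_mem_knot G y).1 ⟨q.1, by
      rw [← e, ← hν.zero, ← hz]⟩)
    have hq1 := hq.trans_le hρ1
    obtain ⟨b1, -, b2, -⟩ := he q.1 q.2 hz hq
    obtain ⟨c, hc, b3⟩ := hΦν q hz hq1
    obtain ⟨b4, b5⟩ := hPZ q b1 hz hq1
    rw [e, Pole.σ_τ] at b3 b5
    have b6 : Q y * conj (a (Fr.P₂.τ y)) =
        ((c / ‖Z q‖ : ℝ) : ℂ) * (Z q * conj q.2 * conj (aa (lin Z q.1))) := by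
      rw [← e, ha q (hν.mem q.1 hq1)]
      simp only [Q, b3, b5, map_mul, Complex.conj_ofReal]
      push_cast; ring
    rw [b6, Complex.re_ofReal_mul]
    exact mul_pos (div_pos hc (norm_pos_iff.2 b4)) b2
  have hB : ∀ r ≤ 1, IsOpen (ν '' (univ ×ˢ ball 0 r)) := fun r hr =>
    ν.toOpenPartialHomeomorph.isOpen_image_of_subset_source (isOpen_univ.prod isOpen_ball)
      fun q hq => hν.mem q.1 ((mem_ball_zero_iff.1 hq.2).trans_le hr)
  have hBc : ∀ r < 1, IsClosed (ν '' (univ ×ˢ closedBall 0 r)) := fun r hr =>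
    ((isCompact_univ.prod (isCompact_closedBall 0 r)).image_of_continuousOn
      (ν.contMDiffOn.continuousOn.mono fun q hq =>
        hν.mem q.1 ((mem_closedBall_zero_iff.1 hq.2).trans_lt hr))).isClosed
  obtain ⟨χ, χ0, χ1, χb⟩ := exists_continuous_zero_one_of_isClosed
    (hB (ρ / 2) (by linarith only [hρ1])).isClosed_compl (hBc (ρ / 3) (by linarith))
    (disjoint_compl_left_iff_subset.2 (image_mono (prod_mono_right
      (closedBall_subset_ball (by linarith)))))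
  have hk : ∀ y ∈ knotL G, Fr.P₂.τ y ∈ ν '' (univ ×ˢ ball 0 (ρ / 3)) := by
    intro y hy
    obtain ⟨x, hx⟩ := (Fr.τ_mem_knot G y).2 hy
    exact ⟨(x, 0), ⟨mem_univ _, mem_ball_self (by linarith only [hρ])⟩, (hν.zero x).trans hx⟩
  have χ1' : ∀ s ∈ ν '' (univ ×ˢ ball 0 (ρ / 3)), χ s = 1 := fun s hs =>
    χ1 (image_mono (prod_mono_right ball_subset_closedBall) hs)
  let S : V × ℂ → ℂ := fun y =>
    χ (Fr.P₂.τ y) * a (Fr.P₂.τ y) + (1 - χ (Fr.P₂.τ y)) * Q y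
  have cχ : Continuous fun y => (χ (Fr.P₂.τ y) : ℂ) :=
    Complex.continuous_ofReal.comp (χ.continuous.comp cτ)
  have hS : Continuous S := by
    refine continuous_iff_continuousAt.2 fun y => ?_
    by_cases h1 : Fr.P₂.τ y ∈ ν '' (univ ×ˢ ball 0 (ρ / 3))
    · have h3 : Fr.P₂.τ y ∈ ν.target := by
        obtain ⟨q, hq, e⟩ := h1
        rw [← e]
        exact ν.toPartialEquiv.map_source
          (hν.mem q.1 ((mem_ball_zero_iff.1 hq.2).trans_le (by linarith only [hρ1])))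
      refine ((hac _ h3).comp cτ.continuousAt).congr ?_
      filter_upwards [cτ.continuousAt.preimage_mem_nhds ((hB _ (by linarith)).mem_nhds h1)]
        with u hu
      simp [S, χ1' _ hu]
    have hy : y ∉ knotL G := fun hy => h1 (hk y hy)
    by_cases h3 : Fr.P₂.τ y ∈ ν.target
    · exact (cχ.continuousAt.mul ((hac _ h3).comp cτ.continuousAt)).add
        ((continuousAt_const.sub cχ.continuousAt).mul (hQ y hy).1.continuousAt)
    · have h5 : Fr.P₂.τ y ∉ ν '' (univ ×ˢ closedBall 0 (ρ / 2)) := by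
        rintro ⟨q, hq, e⟩
        rw [← e] at h3
        exact h3 (ν.toPartialEquiv.map_source
          (hν.mem q.1 ((mem_closedBall_zero_iff.1 hq.2).trans_lt (by linarith only [hρ1]))))
      refine (hQ y hy).1.continuousAt.congr ?_
      filter_upwards [cτ.continuousAt.preimage_mem_nhds
        ((hBc _ (by linarith only [hρ1])).isOpen_compl.mem_nhds h5)] with u hu
      have : χ (Fr.P₂.τ u) = 0 := χ0 fun h6 =>
        hu (image_mono (prod_mono_right ball_subset_closedBall) h6)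
      simp [S, this]
  have hQS : ∀ y ∉ knotL G, 0 < (Q y * conj (S y)).re := by
    intro y hy
    have e : Q y * conj (S y) = χ (Fr.P₂.τ y) * (Q y * conj (a (Fr.P₂.τ y))) +
        ((1 - χ (Fr.P₂.τ y)) * ‖Q y‖ ^ 2 : ℝ) := by
      simp only [S, map_add, map_mul, map_sub, map_one, Complex.conj_ofReal]
      push_cast
      rw [← Complex.mul_conj']; ring
    have b1 : 0 < ‖Q y‖ ^ 2 := pow_pos (norm_pos_iff.2 (hQ y hy).2) 2
    rw [e, Complex.add_re, Complex.re_ofReal_mul, Complex.ofReal_re]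
    by_cases h1 : Fr.P₂.τ y ∈ ν '' (univ ×ˢ ball 0 (ρ / 2))
    · obtain ⟨q, hq, e⟩ := h1
      have b2 := pos y hy q ((mem_ball_zero_iff.1 hq.2).trans (by linarith only [hρ])) e
      obtain ⟨b3, b4⟩ := χb (Fr.P₂.τ y)
      rcases b3.eq_or_lt with b5 | b5
      · rw [← b5]; linarith
      · linarith only [b5, b2, b4, mul_pos b5 b2, mul_nonneg_of_nonpos_of_nonpos (Mathlib.Tactic.Linarith.sub_nonpos_of_le (sq_nonneg ‖Q y‖)) (Mathlib.Tactic.Linarith.sub_nonpos_of_le b4)]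
    · rw [show χ (Fr.P₂.τ y) = 0 from χ0 h1]; linarith
  have hS0 : ∀ y, S y ≠ 0 := by
    intro y
    by_cases hy : y ∈ knotL G
    · simpa [S, χ1' _ (hk y hy)] using ha0 _
    · intro h1
      simpa [h1] using hQS y hy
  obtain ⟨g0, cg0, hg0⟩ := exists_log hS hS0
  let g : V × ℂ → ℝ := fun y => g0 y + (Q y * conj (S y)).arg
  have hg : ∀ y, Q y = ‖Q y‖ * Complex.exp (g y * Complex.I) := by
    intro y
    have b1 := Complex.norm_mul_exp_arg_mul_I (Q y * conj (S y))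
    have b2 : (‖S y‖ : ℂ) ≠ 0 := by simpa using hS0 y
    have b3 := Complex.mul_conj' (S y)
    rw [norm_mul, Complex.norm_conj] at b1
    push_cast at b1
    apply mul_left_cancel₀ (pow_ne_zero 2 b2)
    simp only [g]
    push_cast
    rw [add_mul, Complex.exp_add]
    linear_combination (-Q y) * b3 - S y * b1 + (‖Q y‖ * ‖S y‖ *
      Complex.exp ((Q y * conj (S y)).arg * Complex.I)) * hg0 y
  have gs : ∀ y ∉ knotL G, ContDiffAt ℝ ∞ g y := fun y hy =>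
    smooth_log (hQ y hy).1 (hQ y hy).2 (cg0.continuousAt.add
      (ContinuousAt.comp (f := fun y => Q y * conj (S y))
        (Complex.continuousAt_arg (Or.inl (hQS y hy))) ((hQ y hy).1.continuousAt.mul
        (Complex.continuous_conj.comp hS).continuousAt))) (Eventually.of_forall hg)
  have hPg : ∀ y, Φ y ≠ 0 → P y = ((‖Q y‖ / ‖Φ y‖ ^ 2 : ℝ) : ℂ) * Φ y *
      Complex.exp (g y * Complex.I) := by
    intro y hy
    have b2 : (‖Φ y‖ : ℂ) ≠ 0 := by simpa using hy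
    have b3 := Complex.mul_conj' (Φ y)
    have b4 : P y * conj (Φ y) = _ := hg y
    push_cast
    field_simp
    linear_combination (-P y) * b3 + Φ y * b4
  refine ⟨g, gs, fun y hy => ?_, ?_⟩
  · obtain ⟨v, hv⟩ := (hP y hy).2.2
    refine ⟨v, ?_⟩
    have b1 := hΦ.smooth y hy
    have b2 := hΦ.ne_zero y hy
    rwa [dlog (c := fun u => ‖Q u‖ / ‖Φ u‖ ^ 2) (b1.differentiableAt (by simp))
      ((((hQ y hy).1.norm ℝ (hQ y hy).2).div (b1.norm_sq ℝ)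
        (pow_ne_zero 2 (norm_ne_zero_iff.2 b2))).differentiableAt (by simp))
      ((gs y hy).differentiableAt (by simp))
      (div_ne_zero (norm_ne_zero_iff.2 (hQ y hy).2) (pow_ne_zero 2 (norm_ne_zero_iff.2 b2))) b2
      ((b1.continuousAt.eventually_ne b2).mono hPg)] at hv
  obtain ⟨δ', hδ', R', h5⟩ := Fr.near3 hε hρ
  refine ⟨min δ δ', lt_min hδ hδ', max R R', fun y hy0 hy => ?_⟩
  have hy1 : y ∈ G.source := (h y hy0 (hy.imp (fun a => a.trans_le (min_le_left _ _))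
    fun a => (le_max_left _ _).trans a)).1
  refine ⟨hy1, ?_⟩
  obtain ⟨q, hq, e⟩ := h5 y (hy.imp (fun a => a.trans_le (min_le_right _ _))
    fun a => (le_max_right _ _).trans a)
  obtain ⟨k, hk0, ek⟩ := Fr.σ_tube hε (e ▸ Fr.P₂.τ_ne y)
  rw [← e, Pole.σ_τ] at ek
  have hq0 : q.2 ≠ 0 := fun a => hy0 (by rw [ek, a, mul_zero])
  let u : ℝ → ℂ := fun t => Complex.exp (t * Complex.I)
  have hu : ∀ t, ‖u t‖ = 1 := fun t => Complex.norm_exp_ofReal_mul_I t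
  have hu0 : u 0 = 1 := by simp [u]
  have du : HasDerivAt u Complex.I 0 := by
    simpa [u] using ((Complex.ofRealCLM.hasDerivAt (x := 0)).mul_const Complex.I).cexp
  have hyk : G y ∉ knotL G := by
    rintro ⟨v, hv⟩
    exact hy0 (congrArg Prod.snd (G.injOn (hG.axis v) hy1 hv)).symm
  have dg : DifferentiableAt ℝ (fun w => g (G w)) y :=
    ((gs _ hyk).comp y (hG.smooth.contDiffAt (G.open_source.mem_nhds hy1))).differentiableAt
      (by simp)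
  have dγ : HasDerivAt (fun t => ((y.1, u t * y.2) : V × ℂ)) (0, Complex.I * y.2) 0 :=
    (hasDerivAt_const _ _).prodMk (du.mul_const _)
  have d1 : HasDerivAt (fun t => g (G (y.1, u t * y.2)))
      (fderiv ℝ (fun w => g (G w)) y (0, Complex.I * y.2)) 0 :=
    HasFDerivAt.comp_hasDerivAt_of_eq 0 dg.hasFDerivAt dγ (by simp [hu0])
  obtain ⟨-, b1, -, b2⟩ := he q.1 q.2 hq0 hq
  have d2 : HasDerivAt (fun t => Z (q.1, u t * q.2))
      (fderiv ℝ (fun w => Z (q.1, w)) q.2 (Complex.I * q.2)) 0 :=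
    HasFDerivAt.comp_hasDerivAt_of_eq 0 b1.hasFDerivAt (du.mul_const _) (by simp [hu0])
  have hZq : Z (q.1, u 0 * q.2) ≠ 0 := by
    rw [hu0, one_mul]
    intro a; rw [a] at b2; simp at b2
  have key : ∀ t, Z (q.1, u t * q.2) = ((‖Z (q.1, u t * q.2)‖ / ‖q.2‖ : ℝ) : ℂ) * (u t * q.2) *
      Complex.exp (g (G (y.1, u t * y.2)) * Complex.I) := by
    intro t
    have n1 : ‖u t * q.2‖ = ‖q.2‖ := by rw [norm_mul, hu, one_mul]
    have n0 : u t * q.2 ≠ 0 := norm_ne_zero_iff.1 (by rw [n1]; exact norm_ne_zero_iff.2 hq0)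
    have n2 : ‖u t * q.2‖ < 1 := by rw [n1]; exact hq.trans_le hρ1
    have e1 : Fr.P₂.σ (ν (q.1, u t * q.2)) = G (y.1, u t * y.2) := by
      rw [h2, ← Fr.rot_tube e (hu t), Pole.hat_τ, Pole.σ_τ]
    obtain ⟨c, hc, c1⟩ := hΦν (q.1, u t * q.2) n0 n2
    obtain ⟨c2, c3⟩ := hPZ (q.1, u t * q.2) (he _ _ n0 (by rwa [n1])).1 n0 n2
    rw [e1] at c1 c3
    have c4 := hPg (G (y.1, u t * y.2)) (by
      rw [c1]; exact mul_ne_zero (Complex.ofReal_ne_zero.2 hc.ne') n0)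
    have c5 : ‖P (G (y.1, u t * y.2))‖ = 1 := by
      rw [c3, norm_div, Complex.norm_real, norm_norm, div_self (norm_ne_zero_iff.2 c2)]
    have c6 : ‖Φ (G (y.1, u t * y.2))‖ = c * ‖q.2‖ := by
      rw [c1, norm_mul, n1, Complex.norm_real, Real.norm_of_nonneg hc.le]
    have c7 : ‖Q (G (y.1, u t * y.2))‖ = c * ‖q.2‖ := by
      simp only [Q, norm_mul, Complex.norm_conj, c5, c6, one_mul]
    rw [c7, c6, c1, c3] at c4
    have c8 : (‖Z (q.1, u t * q.2)‖ : ℂ) ≠ 0 := by simpa using c2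
    have c9 : (‖q.2‖ : ℂ) ≠ 0 := by simpa using hq0
    have c10 : (c : ℂ) ≠ 0 := Complex.ofReal_ne_zero.2 hc.ne'
    rw [div_eq_iff c8] at c4
    conv_lhs => rw [c4]
    push_cast
    field_simp
  have d3 := dlog (c := fun t => ‖Z (q.1, u t * q.2)‖ / ‖q.2‖) (du.mul_const q.2).differentiableAt
    ((d2.differentiableAt.norm ℝ hZq).div_const _) d1.differentiableAt
    (div_ne_zero (norm_ne_zero_iff.2 hZq) (norm_ne_zero_iff.2 hq0))
    (by rw [hu0, one_mul]; exact hq0) (Eventually.of_forall key) 1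
  rw [fderiv_apply_one_eq_deriv, fderiv_apply_one_eq_deriv, fderiv_apply_one_eq_deriv,
    d1.deriv, d2.deriv, (du.mul_const q.2).deriv, hu0, one_mul, mul_div_assoc, div_self hq0,
    mul_one, Complex.I_im] at d3
  rw [← d3]
  rw [hu0, one_mul] at hZq
  rw [div_eq_mul_inv, Complex.inv_def, ← mul_assoc, Complex.im_mul_ofReal]
  exact mul_ne_zero b2.ne' (inv_ne_zero (Complex.normSq_pos.2 hZq).ne')

private theorem h14_z {E H M : Type} [NormedAddCommGroup E] [NormedSpace ℝ E] [TopologicalSpace H]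
    {I : ModelWithCorners ℝ E H} [TopologicalSpace M] [ChartedSpace H M] {g h : M → ℂ} {x : M}
    {L : TangentSpace I x →L[ℝ] TangentSpace 𝓘(ℝ, ℂ) (h x)} (e : HasMFDerivAt I 𝓘(ℝ, ℂ) h x L)
    (hL : L = 0) (he : g =ᶠ[𝓝 x] h) : HasMFDerivAt I 𝓘(ℝ, ℂ) g x 0 := by
  subst hL; exact e.congr_of_eventuallyEq he

theorem weak_of_MN (hn : 1 ≤ n) {G : OpenPartialHomeomorph (V × ℂ) (V × ℂ)} (hG : IsLong G)
    {Φ : V × ℂ → ℂ} (hΦ : StdArg G Φ) (hM : MN (Fr.knot G) = 0) : WeakFib G Φ := by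
  obtain ⟨⟨f, ⟨hf, μ, m1, m2, m3⟩, hmo⟩, hc0⟩ := ENat.iInf_eq_zero.1 hM
  have hc : crit (Fr.knot G) f = ∅ := encard_eq_zero.1 hc0
  have hμ : IsTube (Fr.knot G) μ := ⟨m1, m2⟩
  obtain ⟨δ, hδ, R, h⟩ := hΦ.std
  obtain ⟨ε, hε, ν, h1, h2, h3, h4⟩ := Fr.exists_tube hG hδ fun y a b => (h y a b).1
  have hν : IsTube (Fr.knot G) ν := ⟨h1, h3⟩
  have hcl : IsOpen (range (Fr.knot G))ᶜ :=
    (isCompact_range (Fr.isKnot_knot hG hΦ).1.continuous).isClosed.isOpen_compl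
  let P : V × ℂ → ℂ := fun y => f (Fr.P₂.τ y)
  have hP : ∀ y ∉ knotL G, ContDiffAt ℝ ∞ P y ∧ P y ≠ 0 ∧ ∃ v, (fderiv ℝ P y v / P y).im ≠ 0 := by
    intro y hy
    have a1 : Fr.P₂.τ y ∉ range (Fr.knot G) := fun a => hy ((Fr.τ_mem_knot G y).1 a)
    have a2 := hf.contMDiffAt (hcl.mem_nhds a1)
    have a3 : ContDiffAt ℝ ∞ P y :=
      ((cmd_coe_circle _).comp y (a2.comp y (Fr.P₂.cmd_τ y))).contDiffAt
    refine ⟨a3, Circle.coe_ne_zero _, ?_⟩
    by_contra hv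
    push Not at hv
    have d := (a3.differentiableAt (by simp)).hasFDerivAt
    have d1 : fderiv ℝ P y = 0 := by
      have n1 : (fun u => P u * conj (P u)) = fun _ => 1 := funext fun u => by
        rw [Complex.mul_conj']; simp [P]
      have d2 := d.mul (Complex.conjCLE.hasFDerivAt.comp y d)
      have d3 : HasFDerivAt (fun u => P u * conj (P u)) (0 : V × ℂ →L[ℝ] ℂ) y := by
        rw [n1]; exact hasFDerivAt_const _ _
      have d4 := d2.unique d3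
      refine ContinuousLinearMap.ext fun v => ?_
      have d5 := congrArg (fun L => (L v).re) d4
      have d6 := hv v
      have d7 : P y * conj (P y) = 1 := congrFun n1 y
      have d8 : fderiv ℝ P y v / P y = fderiv ℝ P y v * conj (P y) := by
        rw [div_eq_iff (Circle.coe_ne_zero _)]; linear_combination (-fderiv ℝ P y v) * d7
      rw [d8] at d6
      have d9 : fderiv ℝ P y v * conj (P y) = 0 := by
        refine Complex.ext ?_ d6
        simp at d5 ⊢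
        linarith only [d5]
      change fderiv ℝ P y v = 0
      linear_combination P y * d9 - fderiv ℝ P y v * d7
    have a4 : Fr.P₂.τ y ∈ crit (Fr.knot G) f := by
      refine ⟨a1, ContinuousLinearMap.ext fun w => inj_coe_circle (f (Fr.P₂.τ y)) ?_⟩
      have e1 := ((cmd_coe_circle (f (Fr.P₂.τ y))).mdifferentiableAt (by simp)).hasMFDerivAt.comp _
        (a2.mdifferentiableAt (by simp)).hasMFDerivAt
      have e2 : HasMFDerivAt 𝓘(ℝ, V × ℂ) 𝓘(ℝ, ℂ) P (Fr.P₂.σ (Fr.P₂.τ y)) 0 := by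
        rw [Pole.σ_τ]; exact (d.congr_fderiv d1).hasMFDerivAt
      have e3 := e2.comp _
        ((Fr.P₂.cmdAt_σ (Fr.P₂.τ_ne y)).mdifferentiableAt (by simp)).hasMFDerivAt
      have e4 := h14_z (g := (fun z : Circle => (z : ℂ)) ∘ f) e3 (ContinuousLinearMap.zero_comp _) (by
        filter_upwards [isOpen_ne.mem_nhds (Fr.P₂.τ_ne y)] with s hs
        simp only [P, Function.comp, Fr.P₂.τ_σ hs])
      have e5 := congrArg (fun L => L w) (hasMFDerivAt_unique e1 e4)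
      exact e5.trans (map_zero _).symm
    rw [hc] at a4; exact a4
  let Z : Sph n × ℂ → ℂ := fun q => (μ.symm (ν q)).2
  have hPZ : ∀ q ∈ (ν.trans μ.symm).source, q.2 ≠ 0 → ‖q.2‖ < 1 →
      Z q ≠ 0 ∧ P (Fr.P₂.σ (ν q)) = Z q / (‖Z q‖ : ℂ) := by
    intro q hq hz _
    have a1 := hν.not_mem hq.1 hz
    have a2 : μ ((μ.symm (ν q)).1, Z q) = ν q := μ.toPartialEquiv.right_inv hq.2
    have a3 : Z q ≠ 0 := fun a => a1 ⟨_, by rw [← a2, a, m2]⟩
    have a4 : μ.symm (ν q) ∈ μ.source := μ.toPartialEquiv.map_target hq.2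
    rw [m1] at a4
    refine ⟨a3, ?_⟩
    rw [← m3 _ _ a3 (mem_ball_zero_iff.1 a4.2), a2]
    simp only [P, Fr.P₂.τ_σ (Fr.not_mem_knot a1).1]
  have hO := (ν.trans μ.symm).open_source
  have hl := (Fr.unif_lin hO (hν.trans_mem hμ) trans_smooth (hν.trans_zero hμ))
  have hne : ∀ x, ‖aa (lin Z x)‖ - ‖bb (lin Z x)‖ ≠ 0 := fun x =>
    sub_ne_zero.2 (norm_aa_ne (Fr.lin_inj hν hμ x))
  have hcn : Continuous fun x => ‖aa (lin Z x)‖ - ‖bb (lin Z x)‖ :=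
    (continuous_aa.comp hl.1).norm.sub (continuous_bb.comp hl.1).norm
  have : PreconnectedSpace (Sph n) := Subtype.preconnectedSpace (isPreconnected_sphere (by
    rw [← Module.finrank_eq_rank, finrank_euclideanSpace_fin]; exact_mod_cast (by omega)) _ _)
  have hs : (∀ x, ‖bb (lin Z x)‖ < ‖aa (lin Z x)‖) ∨ ∀ x, ‖aa (lin Z x)‖ < ‖bb (lin Z x)‖ := by
    by_contra hc
    push Not at hc
    obtain ⟨⟨x, hx⟩, x', hx'⟩ := hc
    obtain ⟨w, hw⟩ := intermediate_value_univ x x' hcn ⟨sub_nonpos.2 hx, sub_nonneg.2 hx'⟩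
    exact hne w hw
  rcases hs with hs | hs
  · exact Fr.weak_core hG hΦ hδ hε h hν h2 h4 hP hO (hν.trans_mem hμ) trans_smooth
      (hν.trans_zero hμ) hs hPZ
  · refine Fr.weak_core hG hΦ hδ hε h hν h2 h4 (P := fun y => conj (P y)) (Z := fun q => conj (Z q))
      (fun y hy => ?_) hO (hν.trans_mem hμ)
      (Complex.conjCLE.contDiff.contMDiff.comp_contMDiffOn trans_smooth)
      (fun x => by rw [show Z (x, 0) = 0 from hν.trans_zero hμ x, map_zero]) (fun x => ?_) fun q a b c => ?_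
    · obtain ⟨a1, a2, v, a3⟩ := hP y hy
      refine ⟨Complex.conjCLE.contDiff.contDiffAt.comp y a1, by simpa using a2, v, ?_⟩
      have d : fderiv ℝ (fun y => conj (P y)) y = _ :=
        (Complex.conjCLE.hasFDerivAt.comp y (a1.differentiableAt (by simp)).hasFDerivAt).fderiv
      rw [d]
      change (conj (fderiv ℝ P y v) / conj (P y)).im ≠ 0
      rw [← map_div₀, Complex.conj_im]
      exact neg_ne_zero.2 a3
    · obtain ⟨ρ, hρ, a⟩ := hl.2 1 one_pos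
      have d : lin (fun q => conj (Z q)) x = (Complex.conjCLE : ℂ →L[ℝ] ℂ).comp (lin Z x) :=
        (Complex.conjCLE.hasFDerivAt.comp _ (a x 0 (by simpa using hρ)).2.1.hasFDerivAt).fderiv
      rw [d, aa_conj, bb_conj, Complex.norm_conj, Complex.norm_conj]
      exact hs x
    · obtain ⟨a1, a2⟩ := hPZ q a b c
      refine ⟨by simpa using a1, ?_⟩
      simp only [a2, map_div₀, Complex.conj_ofReal, Complex.norm_conj]

end Frame

end Pool.Agent.Work.MP_e1e788_gt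
end
end
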