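import Mathlib
import Pool.Agent.Work.MP_e1e788_gt.TrWeak

-- merged part: Pool.Agent.Work.MP_e1e788_gt.Long
section
/-! Interface between the Euclidean (long) construction and the sphere-level statement. -/

open Set Filter Topology

noncomputable section
namespace SpunKnot

section Ext
variable (E : Type*) [NormedAddCommGroup E] [NormedSpace ℝ E]
variable {V : Type*} [NormedAddCommGroup V] [NormedSpace ℝ V]

/-- `‖Φ x‖²` times the derivative of `arg Φ` at `x` in the direction `v`. -/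
def dArg (Φ : V → ℂ) (x v : V) : ℝ := ((starRingEnd ℂ) (Φ x) * fderiv ℝ Φ x v).im

/-- `χ` is a `C²` local parametrisation at `ξ` of the hypersurface `{G = 0}`. -/
structure IsChart (G : V → ℝ) (χ : E → V) (ξ : V) : Prop where
  smooth : ContDiffAt ℝ 2 χ 0
  zero : χ 0 = ξ
  inj : Function.Injective (fderiv ℝ χ 0)
  nhds : map χ (𝓝 0) = 𝓝[{x | G x = 0}] ξ
  onto : ∀ v, fderiv ℝ G ξ v = 0 → ∃ e, fderiv ℝ χ 0 e = v

/-- `X` is a compact piece of `{G = 0, Φ ≠ 0}` with `C²` boundary, containing `C` in its interior;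
`arg Φ` is not critical on the boundary, and `arg Φ + β` has no critical point on `X` or on its
boundary. -/
structure FibExt (G : V → ℝ) (Φ : V → ℂ) (C X : Set V) (β : V → ℝ) : Prop where
  cpt : IsCompact X
  sub : ∀ ξ ∈ X, G ξ = 0 ∧ Φ ξ ≠ 0
  int : ∀ ξ ∈ C, X ∈ 𝓝[{x | G x = 0}] ξ
  cont : ContinuousOn β X
  loc : ∀ ξ ∈ X, ∃ (χ : E → V) (g : E → ℝ), IsChart E G χ ξ ∧ ContDiffAt ℝ 2 g 0 ∧
    ContDiffAt ℝ 2 (β ∘ χ) 0 ∧ (∀ᶠ u in 𝓝 (0 : E), χ u ∈ X ↔ g u ≤ 0) ∧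
    (g 0 = 0 → ∃ e, 0 < fderiv ℝ g 0 e ∧ 0 < dArg Φ ξ (fderiv ℝ χ 0 e)) ∧
    ∃ e, 0 < dArg Φ ξ (fderiv ℝ χ 0 e) / ‖Φ ξ‖ ^ 2 + fderiv ℝ (β ∘ χ) 0 e ∧
      (g 0 = 0 → 0 < fderiv ℝ g 0 e)
end Ext

abbrev Ax (m : ℕ) := EuclideanSpace ℝ (Fin m)
/-- long space `ℝ^{n+2}`, `n = m + 1`: (spun coordinate, other axis coordinates, normal plane). -/
abbrev Lg (m : ℕ) := ℝ × Ax m × ℂ
/-- spun long space `ℝ^{n+3}`. -/
abbrev SLg (m : ℕ) := ℂ × Ax m × ℂ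

def spinback {m : ℕ} (p : SLg m × ℝ) : Lg m × ℝ := ((‖p.1.1‖, p.1.2), p.2)

/-- Euclidean data of the example.  The knot is `Ξ' (axis)` inside the hyperplane `p.2 = 0`. -/
structure LongData (m : ℕ) where
  G : Lg m × ℝ → ℝ
  Λ : ℂ → ℂ
  Ξ : Lg m × ℝ → Lg m × ℝ
  Ξ' : Lg m × ℝ → Lg m × ℝ
  Gh : SLg m × ℝ → ℝ
  Θ : SLg m × ℝ → SLg m × ℝ
  Θ' : SLg m × ℝ → SLg m × ℝ
  R : ℝ
  ε : ℝ
  ε_pos : 0 < ε
  G_smooth : ContDiff ℝ (⊤ : ℕ∞) G
  Λ_smooth : ContDiff ℝ (⊤ : ℕ∞) Λ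
  Λ_std : ∀ w, ‖w‖ < ε → Λ w = w
  Λ_ang : ∀ w, w ≠ 0 → 0 < dArg Λ w (Complex.I * w)
  Λ_zero : ∀ w, Λ w = 0 → w = 0
  Ξ_smooth : ContDiff ℝ (⊤ : ℕ∞) Ξ
  Ξ'_smooth : ContDiff ℝ (⊤ : ℕ∞) Ξ'
  Ξ_left : ∀ p, Ξ' (Ξ p) = p
  Ξ_right : ∀ p, Ξ (Ξ' p) = p
  Ξ_id : ∀ p, R ≤ ‖p‖ ∨ p.1.1 ≤ 1 → Ξ p = p
  Ξ_zero : ∀ p, p.2 = 0 ↔ G (Ξ p) = 0
  G_std : ∀ p, ‖p.1.2.2‖ < ε ∨ R ≤ ‖p‖ → (G p = 0 ↔ p.2 = 0)
  G_reg : ∀ p, G p = 0 → fderiv ℝ G p ≠ 0
  Gh_smooth : ContDiff ℝ (⊤ : ℕ∞) Gh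
  Θ_smooth : ContDiff ℝ (⊤ : ℕ∞) Θ
  Θ'_smooth : ContDiff ℝ (⊤ : ℕ∞) Θ'
  Θ_left : ∀ p, Θ' (Θ p) = p
  Θ_right : ∀ p, Θ (Θ' p) = p
  Θ_id : ∀ p, R ≤ ‖p‖ ∨ ‖p.1.2.2‖ < ε → Θ p = p
  Θ_zero : ∀ p, G (spinback p) = 0 ↔ Gh (Θ p) = 0
  Gh_reg : ∀ p, Gh p = 0 → fderiv ℝ Gh p ≠ 0
  Gh_fib : ∀ p, Gh p = 0 → p.1.2.2 ≠ 0 →
    ∃ v, fderiv ℝ Gh p v = 0 ∧ dArg (fun q : SLg m × ℝ => Λ q.1.2.2) p v ≠ 0
  noFib : ∃ C : Set (Lg m × ℝ), IsCompact C ∧ (∀ p ∈ C, G p = 0 ∧ p.1.2.2 ≠ 0) ∧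
    ∀ X β, ¬ FibExt (Ax (m + 1) × ℂ) G (fun q => Λ q.1.2.2) C X β

end SpunKnot
end
end

-- merged part: Pool.Agent.Work.MP_e1e788_gt.FibT
section
/-! Transport of `FibExt` along an affine isomorphism. -/

open Set Filter Topology

noncomputable section
namespace SpunKnot
variable {E : Type*} [NormedAddCommGroup E] [NormedSpace ℝ E]
variable {V V' : Type*} [NormedAddCommGroup V] [NormedSpace ℝ V] [NormedAddCommGroup V']
  [NormedSpace ℝ V']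

namespace FibTAux

theorem hasF (A : V ≃L[ℝ] V') (o : V') (x : V) :
    HasFDerivAt (fun x => A x + o) (A : V →L[ℝ] V') x :=
  A.hasFDerivAt.add_const o

theorem nhdsW (A : V ≃L[ℝ] V') (o : V') (G : V' → ℝ) (x : V) :
    map (fun x => A x + o) (𝓝[{x | G (A x + o) = 0}] x) = 𝓝[{y | G y = 0}] (A x + o) :=
  (A.toHomeomorph.trans (Homeomorph.addRight o)).isOpenEmbedding.map_nhdsWithin_preimage_eq
    {y | G y = 0} x

theorem fd {W : Type*} [NormedAddCommGroup W] [NormedSpace ℝ W] (A : V ≃L[ℝ] V') (o : V')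
    {F : V' → W} (hF : Differentiable ℝ F) (x v : V) :
    fderiv ℝ (fun x => F (A x + o)) x v = fderiv ℝ F (A x + o) (A v) := by
  have := ((hF (A x + o)).hasFDerivAt.comp x (hasF A o x)).fderiv
  exact congrArg (fun L : V →L[ℝ] W => L v) this

end FibTAux

open FibTAux in
theorem FibExt.transport (A : V ≃L[ℝ] V') (o : V') {G : V' → ℝ} {Φ : V' → ℂ}
    (hG : Differentiable ℝ G) (hΦ : Differentiable ℝ Φ) {C X : Set V} {β : V → ℝ}
    (h : FibExt E (fun x => G (A x + o)) (fun x => Φ (A x + o)) C X β) :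
    FibExt E G Φ ((fun x => A x + o) '' C) ((fun x => A x + o) '' X)
      (fun y => β (A.symm (y - o))) := by
  have hc : Continuous fun x => A x + o := A.continuous.add continuous_const
  have hi : Function.Injective fun x => A x + o := fun x y e => A.injective (add_right_cancel e)
  refine ⟨h.cpt.image hc, ?_, ?_, ?_, ?_⟩
  · rintro _ ⟨x, hx, rfl⟩
    exact h.sub x hx
  · rintro _ ⟨x, hx, rfl⟩
    rw [← nhdsW]
    exact image_mem_map (h.int x hx)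
  · refine h.cont.comp (A.symm.continuous.comp (continuous_id.sub continuous_const)).continuousOn ?_
    rintro _ ⟨x, hx, rfl⟩
    simpa using hx
  · rintro _ ⟨x, hx, rfl⟩
    obtain ⟨χ, g, hχ, hg, hβ, hX, h1, h2⟩ := h.loc x hx
    have hd : HasFDerivAt χ (fderiv ℝ χ 0) 0 :=
      (hχ.smooth.differentiableAt (by norm_num)).hasFDerivAt
    have hf : ∀ e, fderiv ℝ (fun u => A (χ u) + o) 0 e = A (fderiv ℝ χ 0 e) := fun e =>
      congrArg (fun L : E →L[ℝ] V' => L e) ((hasF A o (χ 0)).comp 0 hd).fderiv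
    have hb : (fun y => β (A.symm (y - o))) ∘ (fun u => A (χ u) + o) = β ∘ χ := by
      funext u
      simp
    have ha : ∀ e, dArg Φ (A x + o) (fderiv ℝ (fun u => A (χ u) + o) 0 e) =
        dArg (fun x => Φ (A x + o)) x (fderiv ℝ χ 0 e) := fun e => by
      rw [dArg, dArg, hf, fd A o hΦ]
    refine ⟨fun u => A (χ u) + o, g, ⟨?_, ?_, ?_, ?_, ?_⟩, hg, hb ▸ hβ, ?_, ?_, ?_⟩
    · exact (A.contDiff.contDiffAt.comp 0 hχ.smooth).add contDiffAt_const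
    · rw [hχ.zero]
    · intro e e' he
      rw [hf, hf] at he
      exact hχ.inj (A.injective he)
    · rw [← nhdsW, ← hχ.nhds, map_map]
      rfl
    · intro v hv
      obtain ⟨e, he⟩ := hχ.onto (A.symm v) (by rw [fd A o hG, A.apply_symm_apply]; exact hv)
      exact ⟨e, by rw [hf, he, A.apply_symm_apply]⟩
    · filter_upwards [hX] with u hu
      rw [← hu]
      exact hi.mem_set_image
    · simpa only [ha] using h1
    · simpa only [ha, hb] using h2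

end SpunKnot
end
end

-- merged part: Pool.Agent.Work.MP_e1e788_gt.Transfer
section
/-! Transfer from the long model to spheres. -/

open scoped Manifold ContDiff Topology
open Set Filter Metric

noncomputable section
namespace Pool.Agent.Work.MP_e1e788_gt

/-- prepend a coordinate -/
def cs {k : ℕ} (a : ℝ) (x : Euc k) : Euc (k + 1) := WithLp.toLp 2 (Fin.cons a fun i => x i)

theorem cs_zero {k : ℕ} (a : ℝ) (x : Euc k) : cs a x 0 = a := rfl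
theorem cs_succ {k : ℕ} (a : ℝ) (x : Euc k) (i : Fin k) : cs a x i.succ = x i := rfl

theorem cs_add {k : ℕ} (a b : ℝ) (x y : Euc k) : cs (a + b) (x + y) = cs a x + cs b y := by
  ext i; refine Fin.cases ?_ (fun i => ?_) i <;> simp [cs_zero, cs_succ]

theorem cs_smul {k : ℕ} (c a : ℝ) (x : Euc k) : cs (c * a) (c • x) = c • cs a x := by
  ext i; refine Fin.cases ?_ (fun i => ?_) i <;> simp [cs_zero, cs_succ]

theorem norm_cs {k : ℕ} (a : ℝ) (x : Euc k) : ‖cs a x‖ ^ 2 = a ^ 2 + ‖x‖ ^ 2 := by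
  simp [EuclideanSpace.real_norm_sq_eq, Fin.sum_univ_succ, cs_zero, cs_succ]

theorem incl_cs {k : ℕ} (a : ℝ) (x : Euc k) : incl (cs a x) = cs a (cs 0 (cs 0 x)) := rfl

theorem rot_cs {k : ℕ} (θ a : ℝ) (x : Euc k) :
    rot θ (cs a x) = cs (a * Real.cos θ) (cs (a * Real.sin θ) x) := rfl

/-- a pole frame from a linear map -/
def mkPole {k : ℕ} {W : Type} [NormedAddCommGroup W] [NormedSpace ℝ W] [FiniteDimensional ℝ W]
    (f : (ℝ × W) →ₗ[ℝ] Euc (k + 1)) (h : ∀ p w, ‖f (p, w)‖ ^ 2 = p ^ 2 + ‖f (0, w)‖ ^ 2)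
    (h0 : ∀ w, ‖f (0, w)‖ ^ 2 = 0 → w = 0) (hd : Module.finrank ℝ W = k) : Pole k W where
  b := (f.linearEquivOfInjective ((injective_iff_map_eq_zero _).2 fun q hq => by
      have h1 := h q.1 q.2
      rw [Prod.mk.eta, hq, norm_zero] at h1
      have h2 := sq_nonneg q.1
      have h3 := sq_nonneg ‖f (0, q.2)‖
      exact Prod.ext (pow_eq_zero_iff two_ne_zero |>.1 (by linarith)) (h0 _ (by linarith)))
    (by simp [hd, add_comm])).toContinuousLinearEquiv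
  norm_b := h

section
variable {U : Type} [NormedAddCommGroup U] [NormedSpace ℝ U] [FiniteDimensional ℝ U] {m : ℕ}
  (e : U ≃L[ℝ] Euc m)

def f1 : (ℝ × (ℝ × U)) →ₗ[ℝ] Euc (m + 1 + 1) where
  toFun q := cs q.2.1 (cs q.1 (e q.2.2))
  map_add' a b := by simp [← cs_add]
  map_smul' c a := by simp [← cs_smul]

def f2 : (ℝ × ((ℝ × U) × ℂ)) →ₗ[ℝ] Euc (m + 1 + 2 + 1) where
  toFun q := cs q.2.1.1 (cs q.2.2.re (cs q.2.2.im (cs q.1 (e q.2.1.2))))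
  map_add' a b := by simp [← cs_add]
  map_smul' c a := by simp [← cs_smul]

def g1 : (ℝ × (ℂ × U)) →ₗ[ℝ] Euc (m + 1 + 1 + 1) where
  toFun q := cs q.2.1.re (cs q.2.1.im (cs q.1 (e q.2.2)))
  map_add' a b := by simp [← cs_add]
  map_smul' c a := by simp [← cs_smul]

def g2 : (ℝ × ((ℂ × U) × ℂ)) →ₗ[ℝ] Euc (m + 1 + 1 + 2 + 1) where
  toFun q := cs q.2.1.1.re (cs q.2.1.1.im (cs q.2.2.re (cs q.2.2.im (cs q.1 (e q.2.1.2)))))
  map_add' a b := by simp [← cs_add]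
  map_smul' c a := by simp [← cs_smul]

theorem nsq (z : ℂ) : ‖z‖ ^ 2 = z.re ^ 2 + z.im ^ 2 := by
  rw [Complex.sq_norm, Complex.normSq_apply]; ring

omit [FiniteDimensional ℝ U] in
theorem n_f1 (q) : ‖f1 e q‖ ^ 2 = q.1 ^ 2 + q.2.1 ^ 2 + ‖e q.2.2‖ ^ 2 := by
  simp only [f1, LinearMap.coe_mk, AddHom.coe_mk, norm_cs]; ring
omit [FiniteDimensional ℝ U] in
theorem n_f2 (q) : ‖f2 e q‖ ^ 2 = q.1 ^ 2 + q.2.1.1 ^ 2 + ‖e q.2.1.2‖ ^ 2 + ‖q.2.2‖ ^ 2 := by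
  simp only [f2, LinearMap.coe_mk, AddHom.coe_mk, norm_cs, nsq]; ring
omit [FiniteDimensional ℝ U] in
theorem n_g1 (q) : ‖g1 e q‖ ^ 2 = q.1 ^ 2 + ‖q.2.1‖ ^ 2 + ‖e q.2.2‖ ^ 2 := by
  simp only [g1, LinearMap.coe_mk, AddHom.coe_mk, norm_cs, nsq]; ring
omit [FiniteDimensional ℝ U] in
theorem n_g2 (q) : ‖g2 e q‖ ^ 2 = q.1 ^ 2 + ‖q.2.1.1‖ ^ 2 + ‖e q.2.1.2‖ ^ 2 + ‖q.2.2‖ ^ 2 := by
  simp only [g2, LinearMap.coe_mk, AddHom.coe_mk, norm_cs, nsq]; ring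

omit [FiniteDimensional ℝ U] in
theorem e_zero {u : U} (h : ‖e u‖ ^ 2 = 0) : u = 0 := by simpa using h

omit [FiniteDimensional ℝ U] in
include e in
theorem rk : Module.finrank ℝ U = m := by simpa using e.toLinearEquiv.finrank_eq

def fr : Frame (m + 1) (ℝ × U) where
  P₁ := mkPole (f1 e) (fun p w => by simp only [n_f1]; ring) (fun w h => by
      rw [n_f1] at h
      have := sq_nonneg w.1; have := sq_nonneg ‖e w.2‖
      exact Prod.ext (pow_eq_zero_iff two_ne_zero |>.1 (by linarith)) (e_zero e (by linarith)))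
    (by simp [rk e, add_comm])
  P₂ := mkPole (f2 e) (fun p w => by simp only [n_f2]; ring) (fun w h => by
      rw [n_f2] at h
      have := sq_nonneg w.1.1; have := sq_nonneg ‖e w.1.2‖; have := sq_nonneg ‖w.2‖
      exact Prod.ext (Prod.ext (pow_eq_zero_iff two_ne_zero |>.1 (by linarith))
        (e_zero e (by linarith))) (norm_eq_zero.1 (pow_eq_zero_iff two_ne_zero |>.1 (by linarith))))
    (by simp [rk e, add_comm])
  N_eq v z := by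
    change ‖f2 e _‖ ^ 2 = ‖f1 e _‖ ^ 2 + _
    rw [n_f1, n_f2]

def fr' : Frame (m + 1 + 1) (ℂ × U) where
  P₁ := mkPole (g1 e) (fun p w => by simp only [n_g1]; ring) (fun w h => by
      rw [n_g1] at h
      have := sq_nonneg ‖w.1‖; have := sq_nonneg ‖e w.2‖
      exact Prod.ext (norm_eq_zero.1 (pow_eq_zero_iff two_ne_zero |>.1 (by linarith)))
        (e_zero e (by linarith)))
    (by simp [rk e]; omega)
  P₂ := mkPole (g2 e) (fun p w => by simp only [n_g2]; ring) (fun w h => by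
      rw [n_g2] at h
      have := sq_nonneg ‖w.1.1‖; have := sq_nonneg ‖e w.1.2‖; have := sq_nonneg ‖w.2‖
      exact Prod.ext (Prod.ext (norm_eq_zero.1 (pow_eq_zero_iff two_ne_zero |>.1 (by linarith)))
        (e_zero e (by linarith))) (norm_eq_zero.1 (pow_eq_zero_iff two_ne_zero |>.1 (by linarith))))
    (by simp [rk e]; omega)
  N_eq v z := by
    change ‖g2 e _‖ ^ 2 = ‖g1 e _‖ ^ 2 + _
    rw [n_g1, n_g2]

theorem rot_b2 (θ p : ℝ) (y : (ℝ × U) × ℂ) :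
    rot θ ((fr e).P₂.b (p, y)) = (fr' e).P₂.b (p, rotL θ y) := by
  change rot θ (cs _ _) = cs _ (cs _ _)
  rw [rot_cs]
  simp [rotL, Complex.exp_ofReal_mul_I_re, Complex.exp_ofReal_mul_I_im]

theorem rot_b1 (θ p : ℝ) (v : ℝ × U) :
    rot θ ((fr e).P₁.b (p, v)) = (fr' e).P₁.b (p, (rotL θ (v, 0)).1) := by
  change rot θ (cs _ _) = cs _ (cs _ _)
  rw [rot_cs]
  simp [rotL, Complex.exp_ofReal_mul_I_re, Complex.exp_ofReal_mul_I_im]

omit [FiniteDimensional ℝ U] in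
theorem rotL_smul (θ c : ℝ) (y : (ℝ × U) × ℂ) : rotL θ (c • y) = c • rotL θ y := by
  simp [rotL, mul_assoc]

theorem N_rot2 (θ : ℝ) (y : (ℝ × U) × ℂ) : (fr' e).P₂.N (rotL θ y) = (fr e).P₂.N y := by
  change ‖g2 e _‖ ^ 2 = ‖f2 e _‖ ^ 2
  simp [n_g2, n_f2, rotL]

theorem N_rot1 (θ : ℝ) (v : ℝ × U) : (fr' e).P₁.N (rotL θ (v, 0)).1 = (fr e).P₁.N v := by
  change ‖g1 e _‖ ^ 2 = ‖f1 e _‖ ^ 2
  simp [n_g1, n_f1, rotL]

theorem rot_τ2 (θ : ℝ) (y : (ℝ × U) × ℂ) :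
    rot θ ((fr e).P₂.τ y).1 = ((fr' e).P₂.τ (rotL θ y)).1 := by
  simp only [Pole.τ, rot_b2, N_rot2, rotL_smul]

theorem rot_τ1 (θ : ℝ) (v : ℝ × U) :
    rot θ ((fr e).P₁.τ v).1 = ((fr' e).P₁.τ (rotL θ (v, 0)).1).1 := by
  simp only [Pole.τ, rot_b1, N_rot1]
  rw [← Prod.smul_fst, ← rotL_smul]; simp

theorem coord1 (v : ℝ × U) : ((fr e).P₁.τ v).1 0 = 2 / ((fr e).P₁.N v + 1) * v.1 := rfl
theorem coord2 (y : (ℝ × U) × ℂ) : ((fr e).P₂.τ y).1 0 = 2 / ((fr e).P₂.N y + 1) * y.1.1 := rfl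

theorem incl_tube (x : Sph (m + 1)) : ((fr e).tube 1 (x, 0)).1 = incl x.1 := by
  rw [← (fr e).P₂.b_pw, Frame.p_tube0, Frame.w_tube0, ← (fr e).P₁.b_pw x]
  rfl

theorem isSpin_knot {G : OpenPartialHomeomorph ((ℝ × U) × ℂ) ((ℝ × U) × ℂ)}
    {G' : OpenPartialHomeomorph ((ℂ × U) × ℂ) ((ℂ × U) × ℂ)} (hG : IsLong G)
    (hs : LongSpin G G') : IsSpin ((fr e).knot G) ((fr' e).knot G') := by
  have hpos : ∀ v, 0 < 2 / ((fr e).P₁.N v + 1) := fun v => by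
    have := (fr e).P₁.N_nonneg v; positivity
  refine ⟨?_, fun x hx => ?_, fun x y θ hx hy => ?_⟩
  · obtain ⟨ε, hε, h1⟩ := hs.low
    obtain ⟨R, h2⟩ := hG.far
    obtain ⟨C, hC, h3⟩ := (fr e).P₁.N_le
    refine ⟨2 / (C * R ^ 2 + 1) * ε, by positivity, fun x hx => ?_⟩
    rw [← incl_tube e]
    by_cases h : x = (fr e).P₁.pole
    · rw [h, Frame.knot_pole, Frame.tube_pole]
    rw [← (fr e).P₁.τ_σ h] at hx ⊢
    set v := (fr e).P₁.σ x
    rw [Frame.knot_τ, Frame.tube_τ]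
    congr 2
    by_cases h4 : R ≤ ‖v‖
    · exact (h2 _ (h4.trans (norm_fst_le (v, (0 : ℂ))))).2
    refine h1 v.1 v.2 ?_
    rw [coord1] at hx
    have h5 : ‖v‖ ^ 2 ≤ R ^ 2 := pow_le_pow_left₀ (norm_nonneg _) (not_le.1 h4).le 2
    have h6 := (fr e).P₁.N_nonneg v
    have h7 : 2 / (C * R ^ 2 + 1) ≤ 2 / ((fr e).P₁.N v + 1) := by
      gcongr; exact (h3 v).trans (by gcongr)
    exact lt_of_mul_lt_mul_left (hx.trans_le (by gcongr)) (hpos v).le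
  · have h : x ≠ (fr e).P₁.pole := by
      rintro rfl
      exact lt_irrefl (0 : ℝ) hx
    rw [← (fr e).P₁.τ_σ h] at hx ⊢
    set v := (fr e).P₁.σ x
    rw [Frame.knot_τ, coord2]
    rw [coord1] at hx
    have := (fr e).P₂.N_nonneg (G (v, 0))
    exact mul_pos (by positivity) (hs.pos v.1 v.2 ((mul_pos_iff_of_pos_left (hpos v)).1 hx))
  · by_cases h : x = (fr e).P₁.pole
    · have h1 : y = (fr' e).P₁.pole := Subtype.ext (by
        rw [hy, h]; simp only [Pole.pole, rot_b1]; congr 2; simp [rotL])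
      rw [h, h1, Frame.knot_pole, Frame.knot_pole]
      simp only [Pole.pole, rot_b2]; congr 2; simp [rotL]; rfl
    rw [← (fr e).P₁.τ_σ h] at hx hy ⊢
    set v := (fr e).P₁.σ x
    rw [rot_τ1] at hy
    rw [Subtype.ext hy, Frame.knot_τ, Frame.knot_τ, rot_τ2]
    rw [coord1] at hx
    rw [← hs.spin v.1 θ v.2 (nonneg_of_mul_nonneg_right hx (hpos v))]
    rfl

end

/-- Transfer from the long model to spheres. -/
theorem transfer {U : Type} [NormedAddCommGroup U] [NormedSpace ℝ U] [FiniteDimensional ℝ U]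
    (hU : 5 ≤ Module.finrank ℝ U)
    (G : OpenPartialHomeomorph ((ℝ × U) × ℂ) ((ℝ × U) × ℂ))
    (G' : OpenPartialHomeomorph ((ℂ × U) × ℂ) ((ℂ × U) × ℂ))
    (hG : IsLong G) (hG' : IsLong G') (hs : LongSpin G G') (hf : LongFib G')
    (Φ : (ℝ × U) × ℂ → ℂ) (hΦ : StdArg G Φ) (hn : ¬ WeakFib G Φ) :
    ∃ n : ℕ, 6 ≤ n ∧ ∃ (K : Sph n → Sph (n + 2)) (K' : Sph (n + 1) → Sph (n + 1 + 2)),
      IsKnot K ∧ IsKnot K' ∧ IsSpin K K' ∧ MN K' = 0 ∧ 0 < MN K := by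
  let e : U ≃L[ℝ] Euc (Module.finrank ℝ U) := ContinuousLinearEquiv.ofFinrankEq (by simp)
  obtain ⟨F, hF, -⟩ := id hf
  exact ⟨_, by omega, (fr e).knot G, (fr' e).knot G', (fr e).isKnot_knot hG hΦ,
    (fr' e).isKnot_knot hG' hF, isSpin_knot e hG hs, (fr' e).MN_knot hG' hf,
    pos_iff_ne_zero.2 fun h => hn ((fr e).weak_of_MN (by omega) hG hΦ h)⟩

end Pool.Agent.Work.MP_e1e788_gt
end
end

-- merged part: Pool.Agent.Work.MP_e1e788_gt.BrAmb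
section
/-! From ambient data (a hypersurface straightened by a diffeomorphism) to long data. -/

open scoped ContDiff Topology ComplexConjugate
open Set Filter Metric SpunKnot

noncomputable section
namespace Pool.Agent.Work.MP_e1e788_gt

section
variable {T U : Type} [NormedAddCommGroup T] [NormedSpace ℝ T] [NormedAddCommGroup U]
  [NormedSpace ℝ U]

/-- inclusion as the hyperplane -/
def jj : (T × U) × ℂ →L[ℝ] (T × U × ℂ) × ℝ :=
  (ContinuousLinearMap.inl ℝ _ ℝ).comp (ContinuousLinearEquiv.prodAssoc ℝ T U ℂ : _ →L[ℝ] _)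

/-- projection to the hyperplane -/
def pr : (T × U × ℂ) × ℝ →L[ℝ] (T × U) × ℂ :=
  ((ContinuousLinearEquiv.prodAssoc ℝ T U ℂ).symm : _ →L[ℝ] _).comp
    (ContinuousLinearMap.fst ℝ _ ℝ)

theorem jj_apply (y : (T × U) × ℂ) : jj y = ((y.1.1, y.1.2, y.2), 0) := rfl
theorem pr_apply (p : (T × U × ℂ) × ℝ) : pr p = ((p.1.1, p.1.2.1), p.1.2.2) := rfl
theorem pr_jj (y : (T × U) × ℂ) : pr (jj y) = y := rfl
theorem jj_pr {p : (T × U × ℂ) × ℝ} (h : p.2 = 0) : jj (pr p) = p := Prod.ext rfl h.symm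

theorem norm_jj (y : (T × U) × ℂ) : ‖jj y‖ = ‖y‖ := by
  simp [jj_apply, Prod.norm_def, max_assoc]

theorem norm_pr (p : (T × U × ℂ) × ℝ) : ‖pr p‖ ≤ ‖p‖ := by
  rw [← norm_jj]
  exact max_le (norm_fst_le p) (by simp [jj_apply])

theorem onto_of {H : (T × U × ℂ) × ℝ → ℝ} {Ψ Ψ' : (T × U × ℂ) × ℝ → (T × U × ℂ) × ℝ}
    (hH : Differentiable ℝ H) (h1 : Differentiable ℝ Ψ) (h2 : Differentiable ℝ Ψ')
    (hr : ∀ p, Ψ (Ψ' p) = p) (hl : ∀ p, Ψ' (Ψ p) = p) (h0 : ∀ y, H (Ψ (jj y)) = 0)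
    (y : (T × U) × ℂ) (hne : fderiv ℝ H (Ψ (jj y)) ≠ 0) (v) (hv : fderiv ℝ H (Ψ (jj y)) v = 0) :
    ∃ e, fderiv ℝ Ψ (jj y) (jj e) = v := by
  have a1 : ∀ w, fderiv ℝ Ψ (jj y) (fderiv ℝ Ψ' (Ψ (jj y)) w) = w := by
    intro w
    have b1 : HasFDerivAt Ψ (fderiv ℝ Ψ (jj y)) (Ψ' (Ψ (jj y))) := by
      rw [hl]; exact (h1 _).hasFDerivAt
    have b2 := b1.comp _ (h2 (Ψ (jj y))).hasFDerivAt
    rw [show Ψ ∘ Ψ' = id from funext hr] at b2
    exact congrArg (fun L => L w) (b2.unique (hasFDerivAt_id _))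
  have a2 : ∀ e, fderiv ℝ H (Ψ (jj y)) (fderiv ℝ Ψ (jj y) (jj e)) = 0 := by
    intro e
    have b1 := (hH _).hasFDerivAt.comp y ((h1 _).hasFDerivAt.comp y (jj.hasFDerivAt (x := y)))
    rw [show H ∘ Ψ ∘ jj = fun _ => 0 from funext h0] at b1
    exact congrArg (fun L => L e) (b1.unique (hasFDerivAt_const _ _))
  have a3 : ∀ a : (T × U × ℂ) × ℝ, a = jj (pr a) + a.2 • (0, 1) := fun a => by
    simp [jj_apply, pr_apply]
  set a := fderiv ℝ Ψ' (Ψ (jj y)) v with ha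
  by_cases h : a.2 = 0
  · exact ⟨pr a, by rw [jj_pr h, ha, a1]⟩
  exfalso
  have a4 : fderiv ℝ H (Ψ (jj y)) (fderiv ℝ Ψ (jj y) (0, 1)) = 0 := by
    rw [← a1 v, ← ha, a3 a, map_add, map_add, a2, zero_add, map_smul, map_smul] at hv
    exact (smul_eq_zero.1 hv).resolve_left h
  refine hne (ContinuousLinearMap.ext fun w => ?_)
  rw [← a1 w, a3 (fderiv ℝ Ψ' (Ψ (jj y)) w), map_add, map_add, a2, zero_add, map_smul, map_smul,
    a4, smul_zero]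
  rfl

omit [NormedSpace ℝ T] [NormedSpace ℝ U] in
theorem isOpen_src (R ε : ℝ) : IsOpen {y : (T × U) × ℂ | ‖y.2‖ < ε ∨ R < ‖y‖} :=
  (isOpen_lt continuous_snd.norm continuous_const).union
    (isOpen_lt continuous_const continuous_norm)

/-- ambient data -/
structure Amb (Gf : (T × U × ℂ) × ℝ → ℝ) (Ξ Ξ' : (T × U × ℂ) × ℝ → (T × U × ℂ) × ℝ)
    (R ε : ℝ) : Prop where
  pos : 0 < ε
  s1 : ContDiff ℝ ∞ Ξ
  s2 : ContDiff ℝ ∞ Ξ'
  left : ∀ p, Ξ' (Ξ p) = p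
  right : ∀ p, Ξ (Ξ' p) = p
  far : ∀ p, R ≤ ‖p‖ → Ξ p = p
  zero : ∀ p, p.2 = 0 ↔ Gf (Ξ p) = 0
  std : ∀ p, ‖p.1.2.2‖ < ε ∨ R ≤ ‖p‖ → (Gf p = 0 ↔ p.2 = 0)

namespace Amb
variable {Gf : (T × U × ℂ) × ℝ → ℝ} {Ξ Ξ' : (T × U × ℂ) × ℝ → (T × U × ℂ) × ℝ} {R ε : ℝ}
  (A : Amb Gf Ξ Ξ' R ε)
include A

theorem back {p} (h : Gf p = 0) : Ξ (jj (pr (Ξ' p))) = p := by
  rw [jj_pr ((A.zero _).2 (by rwa [A.right])), A.right]

theorem on_src {y : (T × U) × ℂ} (h : ‖y.2‖ < ε ∨ R < ‖y‖) : Gf (jj y) = 0 :=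
  (A.std _ (h.imp id fun a => by rw [norm_jj]; exact a.le)).2 rfl

theorem on_tgt {y : (T × U) × ℂ} (h : ‖(pr (Ξ (jj y))).2‖ < ε ∨ R < ‖pr (Ξ (jj y))‖) :
    jj (pr (Ξ (jj y))) = Ξ (jj y) :=
  jj_pr ((A.std _ (h.imp id fun a => a.le.trans (norm_pr _))).1 ((A.zero _).1 rfl))

/-- the long data -/
def G : OpenPartialHomeomorph ((T × U) × ℂ) ((T × U) × ℂ) where
  toFun y := pr (Ξ' (jj y))
  invFun y := pr (Ξ (jj y))
  source := {y | ‖y.2‖ < ε ∨ R < ‖y‖}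
  target := {y | ‖(pr (Ξ (jj y))).2‖ < ε ∨ R < ‖pr (Ξ (jj y))‖}
  map_source' y hy := by
    change ‖(pr (Ξ (jj (pr _)))).2‖ < ε ∨ R < ‖pr (Ξ (jj (pr _)))‖
    rw [A.back (A.on_src hy)]; exact hy
  map_target' y hy := hy
  left_inv' y hy := by rw [A.back (A.on_src hy)]; rfl
  right_inv' y hy := by rw [A.on_tgt hy, A.left]; rfl
  open_source := isOpen_src R ε
  open_target := (isOpen_src R ε).preimage (f := fun y => pr (Ξ (jj y)))
    (by have := A.s1.continuous; fun_prop)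
  continuousOn_toFun := by have := A.s2.continuous; fun_prop
  continuousOn_invFun := by have := A.s1.continuous; fun_prop

theorem G_apply (y) : A.G y = pr (Ξ' (jj y)) := rfl

theorem G_back {y : (T × U) × ℂ} (h : ‖y.2‖ < ε ∨ R < ‖y‖) : Ξ (jj (A.G y)) = jj y :=
  A.back (A.on_src h)

theorem G_far {y : (T × U) × ℂ} (h : R ≤ ‖y‖) : A.G y = y := by
  rw [G_apply, ← A.far (jj y) (by rwa [norm_jj]), A.left]; rfl

theorem isLong : IsLong A.G where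
  smooth := ContDiff.contDiffOn (f := fun y => pr (Ξ' (jj y))) (by have := A.s2; fun_prop)
  smooth_symm := ContDiff.contDiffOn (f := fun y => pr (Ξ (jj y))) (by have := A.s1; fun_prop)
  axis v := Or.inl (by simpa using A.pos)
  far := ⟨R + 1, fun y hy => ⟨Or.inr (by linarith), A.G_far (by linarith)⟩⟩

theorem mem_knot (y : (T × U) × ℂ) : y ∈ knotL A.G ↔ (Ξ (jj y)).1.2.2 = 0 := by
  constructor
  · rintro ⟨v, rfl⟩
    rw [A.G_back (Or.inl (by simpa using A.pos))]; rfl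
  · intro h
    have h1 : (pr (Ξ (jj y))).2 = 0 := h
    refine ⟨(pr (Ξ (jj y))).1, ?_⟩
    beta_reduce
    rw [← h1]
    exact A.G.right_inv (x := y) (Or.inl (by rw [h1]; simpa using A.pos))

theorem stdArg : StdArg A.G fun y => (Ξ (jj y)).1.2.2 where
  smooth y _ := by have := A.s1; fun_prop
  ne_zero y hy := fun h => hy ((A.mem_knot y).2 h)
  std := ⟨ε, A.pos, R + 1, fun y _ hy => by
    have h : ‖y.2‖ < ε ∨ R < ‖y‖ := hy.imp id fun a => by linarith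
    refine ⟨h, 1, one_pos, ?_⟩
    rw [A.G_back h]; simp [jj_apply]⟩

end Amb
end

section Spin
variable {m : ℕ}

/-- the spun diffeomorphism -/
def sp (Ξ : Lg m × ℝ → Lg m × ℝ) (p : SLg m × ℝ) : SLg m × ℝ :=
  ((((Ξ (spinback p)).1.1 / ‖p.1.1‖) • p.1.1, (Ξ (spinback p)).1.2), (Ξ (spinback p)).2)

theorem norm_spinback (p : SLg m × ℝ) : ‖spinback p‖ = ‖p‖ := by
  simp [spinback, Prod.norm_def]

variable {Ξ Ξ' : Lg m × ℝ → Lg m × ℝ}

theorem sp_fix {p : SLg m × ℝ} (h : Ξ (spinback p) = spinback p) : sp Ξ p = p := by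
  rw [sp, h]
  refine Prod.ext (Prod.ext ?_ rfl) rfl
  by_cases h1 : p.1.1 = 0
  · simp [h1]
  · simp [spinback, h1]

theorem one_lt_of (hl : ∀ p, Ξ' (Ξ p) = p) (hid : ∀ p, p.1.1 ≤ 1 → Ξ p = p) {p : Lg m × ℝ}
    (h : 1 < p.1.1) : 1 < (Ξ p).1.1 := by
  by_contra hc
  have h1 := congrArg Ξ' (hid _ (not_lt.1 hc))
  rw [hl, hl] at h1
  rw [h1] at hc
  exact hc h

theorem spinback_sp (hl : ∀ p, Ξ' (Ξ p) = p) (hid : ∀ p, p.1.1 ≤ 1 → Ξ p = p) (p : SLg m × ℝ) :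
    spinback (sp Ξ p) = Ξ (spinback p) := by
  by_cases h : ‖p.1.1‖ ≤ 1
  · rw [sp_fix (hid _ h), hid _ h]
  · have h1 : 1 < (Ξ (spinback p)).1.1 := one_lt_of hl hid (not_le.1 h)
    have h2 : ‖p.1.1‖ ≠ 0 := by linarith [not_le.1 h]
    refine Prod.ext (Prod.ext ?_ rfl) rfl
    change ‖((Ξ (spinback p)).1.1 / ‖p.1.1‖) • p.1.1‖ = _
    rw [norm_smul, norm_div, norm_norm, div_mul_cancel₀ _ h2, Real.norm_of_nonneg (by linarith)]

theorem sp_sp (hl : ∀ p, Ξ' (Ξ p) = p) (hid : ∀ p, p.1.1 ≤ 1 → Ξ p = p) (p : SLg m × ℝ) :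
    sp Ξ' (sp Ξ p) = p := by
  by_cases h : ‖p.1.1‖ ≤ 1
  · rw [sp_fix (hid _ h)]
    apply sp_fix
    conv_lhs => rw [← hid (spinback p) h, hl]
  · have h1 : 1 < (Ξ (spinback p)).1.1 := one_lt_of hl hid (not_le.1 h)
    have h2 : ‖p.1.1‖ ≠ 0 := by linarith [not_le.1 h]
    have h3 : ‖(sp Ξ p).1.1‖ = (Ξ (spinback p)).1.1 :=
      congrArg (fun q => q.1.1) (spinback_sp hl hid p)
    rw [sp, spinback_sp hl hid, hl, h3]
    refine Prod.ext (Prod.ext ?_ rfl) rfl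
    change (‖p.1.1‖ / (Ξ (spinback p)).1.1) • ((Ξ (spinback p)).1.1 / ‖p.1.1‖) • p.1.1 = p.1.1
    rw [smul_smul, div_mul_div_cancel₀ (by linarith), div_self h2, one_smul]

theorem sp_smooth (hs : ContDiff ℝ ∞ Ξ) (hid : ∀ p, p.1.1 ≤ 1 → Ξ p = p) :
    ContDiff ℝ ∞ (sp Ξ) := by
  refine contDiff_iff_contDiffAt.2 fun p => ?_
  by_cases h : p.1.1 = 0
  · refine contDiffAt_id.congr_of_eventuallyEq ?_
    have : ∀ᶠ q : SLg m × ℝ in 𝓝 p, ‖q.1.1‖ < 1 :=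
      (by fun_prop : Continuous fun q : SLg m × ℝ => ‖q.1.1‖).continuousAt.eventually
        (gt_mem_nhds (by simp [h]))
    filter_upwards [this] with q hq using sp_fix (hid _ hq.le)
  · have h1 : ContDiffAt ℝ ∞ (fun q : SLg m × ℝ => ‖q.1.1‖) p :=
      (contDiffAt_fst.comp p contDiffAt_fst).norm ℝ h
    have h2 : ContDiffAt ℝ ∞ (fun q : SLg m × ℝ => Ξ (spinback q)) p :=
      hs.contDiffAt.comp p ((h1.prodMk (by fun_prop)).prodMk contDiffAt_snd)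
    exact (((h2.fst.fst.div h1 (norm_ne_zero_iff.2 h)).smul (by fun_prop)).prodMk
      h2.fst.snd).prodMk h2.snd

variable (D : LongData m)

theorem amb1 : Amb D.G D.Ξ D.Ξ' D.R D.ε :=
  ⟨D.ε_pos, D.Ξ_smooth, D.Ξ'_smooth, D.Ξ_left, D.Ξ_right, fun p h => D.Ξ_id p (Or.inl h),
    D.Ξ_zero, D.G_std⟩

theorem id1 (p : Lg m × ℝ) (h : p.1.1 ≤ 1) : D.Ξ p = p := D.Ξ_id p (Or.inr h)

theorem id2 (p : Lg m × ℝ) (h : p.1.1 ≤ 1) : D.Ξ' p = p := by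
  conv_lhs => rw [← id1 D p h, D.Ξ_left]

theorem amb2 : Amb (fun p => D.G (spinback p)) (sp D.Ξ) (sp D.Ξ') D.R D.ε where
  pos := D.ε_pos
  s1 := sp_smooth D.Ξ_smooth (id1 D)
  s2 := sp_smooth D.Ξ'_smooth (id2 D)
  left := sp_sp D.Ξ_left (id1 D)
  right := sp_sp D.Ξ_right (id2 D)
  far p h := sp_fix (D.Ξ_id _ (Or.inl (by rwa [norm_spinback])))
  zero p := by rw [spinback_sp D.Ξ_left (id1 D)]; exact D.Ξ_zero (spinback p)
  std p h := D.G_std (spinback p) (by rwa [norm_spinback])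

theorem longSpin : LongSpin (amb1 D).G (amb2 D).G where
  low := ⟨1, one_pos, fun t u h => by rw [Amb.G_apply, id2 D _ h.le]; rfl⟩
  spin t θ u ht := by
    have h : spinback (jj (rotL θ ((t, u), 0))) = jj ((t, u), 0) := by
      simp [spinback, jj_apply, rotL, ht]
    rw [Amb.G_apply, Amb.G_apply, sp, h]
    refine Prod.ext (Prod.ext ?_ rfl) rfl
    rcases ht.eq_or_lt with rfl | h1
    · rw [id2 D _ zero_le_one]; simp [jj_apply, pr_apply, rotL]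
    · simp only [jj_apply, pr_apply, rotL, norm_mul, Complex.norm_exp_ofReal_mul_I,
        Complex.norm_real, Real.norm_of_nonneg ht, Complex.real_smul, mul_one]
      have : (t : ℂ) ≠ 0 := Complex.ofReal_ne_zero.2 h1.ne'
      push_cast
      field_simp
  pos t u ht := by
    rw [Amb.G_apply]
    by_cases h : t ≤ 1
    · rw [id2 D _ h]; exact ht
    · exact one_pos.trans (one_lt_of D.Ξ_right (id2 D) (p := jj ((t, u), 0)) (not_le.1 h))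

end Spin

end Pool.Agent.Work.MP_e1e788_gt
end
end
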