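import Pool.Agent.Work.MP_e1e788_gt.TrWeak
import Pool.Agent.Work.MP_e1e788_gt.BrAmb

-- merged part: Pool.Agent.Work.MP_e1e788_gt.MorseA
section
/-! Perturbing the argument of a standard function to a Morse map. -/

open scoped Manifold ContDiff Topology
open Set Filter Metric MeasureTheory

noncomputable section
namespace Pool.Agent.Work.MP_e1e788_gt

section
variable {W : Type} [NormedAddCommGroup W] [NormedSpace ℝ W]

/-- the derivative of the argument -/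
def om (F : W → ℂ) (y : W) : W →L[ℝ] ℝ :=
  Complex.imCLM.comp (((ContinuousLinearMap.mul ℝ ℂ) (F y)⁻¹).comp (fderiv ℝ F y))

theorem om_apply (F : W → ℂ) (y v : W) : om F y v = (fderiv ℝ F y v / F y).im := by
  simp [om, div_eq_inv_mul]

theorem om_smooth {F : W → ℂ} {y : W} (h : ContDiffAt ℝ ∞ F y) (h0 : F y ≠ 0) :
    ContDiffAt ℝ 1 (om F) y := by
  have h1 : ContDiffAt ℝ 1 (fderiv ℝ F) y := h.fderiv_right (m := 1) (WithTop.coe_le_coe.2 (le_top : ((2 : ℕ) : ℕ∞) ≤ ⊤))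
  have h2 : ContDiffAt ℝ 1 (fun u => (F u)⁻¹) y :=
    ((contDiffAt_inv ℝ h0).comp y h).of_le (by exact_mod_cast le_top)
  exact contDiffAt_const.clm_comp
    (((ContinuousLinearMap.mul ℝ ℂ).contDiff.contDiffAt.comp y h2).clm_comp h1)

theorem fderiv_cut {ρ : W → ℝ} (hρ : ContDiff ℝ ∞ ρ) (a : W →L[ℝ] ℝ) (y : W) :
    fderiv ℝ (fun u => ρ u * a u) y = ρ y • a + a y • fderiv ℝ ρ y :=
  ((hρ.differentiable (by simp) y).hasFDerivAt.mul a.hasFDerivAt).fderiv

theorem exists_pert [FiniteDimensional ℝ W] {w : W → W →L[ℝ] ℝ} {K O : Set W} {ρ : W → ℝ}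
    (hK : IsCompact K) (hw : ∀ y ∈ K, ContDiffAt ℝ 1 w y) (hO : IsOpen O) (hOK : O ⊆ K)
    (hρ : ContDiff ℝ ∞ ρ) (h1 : ∀ y ∈ O, ρ y = 1) (hne : ∀ y ∈ K, y ∉ O → w y ≠ 0) :
    ∃ a : W →L[ℝ] ℝ, {y ∈ K | w y + fderiv ℝ (fun u => ρ u * a u) y = 0}.Finite ∧
      ∀ y ∈ K, w y + fderiv ℝ (fun u => ρ u * a u) y = 0 →
        y ∈ O ∧ Function.Injective (fderiv ℝ w y) := by
  have cw : ContinuousOn w K := fun y hy => (hw y hy).continuousAt.continuousWithinAt
  have cρ : Continuous (fderiv ℝ ρ) := hρ.continuous_fderiv (by simp)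
  obtain ⟨m, hm, hm'⟩ := (hK.diff hO).exists_forall_le' (f := fun y => ‖w y‖)
    (cw.mono sdiff_subset).norm (a := 0) fun y hy => norm_pos_iff.2 (hne y hy.1 hy.2)
  obtain ⟨C, hC⟩ := hK.exists_bound_of_continuousOn
    (f := fun y => |ρ y| + ‖y‖ * ‖fderiv ℝ ρ y‖) (by
      have := hρ.continuous; fun_prop)
  let J : (W →L[ℝ] ℝ) ≃L[ℝ] W := ContinuousLinearEquiv.ofFinrankEq (by
    rw [← (LinearMap.toContinuousLinearMap (𝕜 := ℝ) (E := W) (F' := ℝ)).finrank_eq]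
    exact Subspace.dual_finrank_eq)
  let _ : MeasurableSpace W := borel W
  have : BorelSpace W := ⟨rfl⟩
  let s : Set W := {y ∈ O | ((J : (W →L[ℝ] ℝ) →L[ℝ] W).comp (fderiv ℝ w y)).det = 0}
  have hs : (Measure.addHaar : Measure W) ((fun y => J (w y)) '' s) = 0 :=
    addHaar_image_eq_zero_of_det_fderivWithin_eq_zero _
      (f' := fun y => (J : (W →L[ℝ] ℝ) →L[ℝ] W).comp (fderiv ℝ w y))
      (fun y hy => ((J : (W →L[ℝ] ℝ) →L[ℝ] W).hasFDerivAt.comp y
        ((hw y (hOK hy.1)).differentiableAt (by simp)).hasFDerivAt).hasFDerivWithinAt)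
      fun y hy => hy.2
  have hop : IsOpen {b : W | ‖J.symm b‖ * (|C| + 1) < m} :=
    isOpen_lt (by fun_prop) continuous_const
  have hpos := hop.measure_pos (Measure.addHaar : Measure W) ⟨0, by simpa using hm⟩
  obtain ⟨b, hb, hb'⟩ : ∃ b, ‖J.symm b‖ * (|C| + 1) < m ∧ b ∉ (fun y => J (w y)) '' s := by
    by_contra h
    push Not at h
    exact hpos.ne' (measure_mono_null (fun b hb => h b hb) hs)
  set a : W →L[ℝ] ℝ := -J.symm b with ha
  have loc : ∀ y ∈ O, ∀ᶠ u in 𝓝 y, fderiv ℝ (fun u => ρ u * a u) u = a := by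
    intro y hy
    filter_upwards [hO.mem_nhds hy] with u hu
    have : (fun u => ρ u * a u) =ᶠ[𝓝 u] a := by
      filter_upwards [hO.mem_nhds hu] with z hz
      rw [h1 z hz, one_mul]
    rw [this.fderiv_eq, a.fderiv]
  have key : ∀ y ∈ K, w y + fderiv ℝ (fun u => ρ u * a u) y = 0 →
      y ∈ O ∧ Function.Injective (fderiv ℝ w y) := by
    intro y hy h
    have hyO : y ∈ O := by
      by_contra hn
      have e1 := hm' y ⟨hy, hn⟩
      have e2 : w y = -(ρ y • a + a y • fderiv ℝ ρ y) := by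
        rw [← fderiv_cut hρ]; exact eq_neg_of_add_eq_zero_left h
      have e3 : ‖w y‖ ≤ ‖a‖ * (|ρ y| + ‖y‖ * ‖fderiv ℝ ρ y‖) := by
        rw [e2, norm_neg]
        refine (norm_add_le _ _).trans ?_
        rw [norm_smul, norm_smul, Real.norm_eq_abs]
        have := mul_le_mul_of_nonneg_right (a.le_opNorm y) (norm_nonneg (fderiv ℝ ρ y))
        linarith only [this]
      have e4 := (le_abs_self _).trans ((hC y hy).trans (le_abs_self C))
      have e5 : ‖a‖ = ‖J.symm b‖ := norm_neg _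
      have e6 := mul_le_mul_of_nonneg_left e4 (norm_nonneg a)
      rw [e5] at e3 e6
      linarith only [hb, e1, e3, e6, norm_nonneg (J.symm b)]
    refine ⟨hyO, ?_⟩
    rw [(loc y hyO).self_of_nhds] at h
    have e : J (w y) = b := by rw [eq_neg_of_add_eq_zero_left h, ha]; simp
    have hd : ((J : (W →L[ℝ] ℝ) →L[ℝ] W).comp (fderiv ℝ w y)).det ≠ 0 :=
      fun hd => hb' ⟨y, ⟨hyO, hd⟩, e⟩
    have hi := (LinearMap.equivOfDetNeZero _ hd).injective
    exact Function.Injective.of_comp (f := J) hi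
  refine ⟨a, IsCompact.finite ?_ ?_, key⟩
  · have cc : ContinuousOn (fun y => w y + fderiv ℝ (fun u => ρ u * a u) y) K :=
      cw.add ((hρ.mul a.contDiff).continuous_fderiv (by simp)).continuousOn
    exact hK.of_isClosed_subset (cc.preimage_isClosed_of_isClosed hK.isClosed isClosed_singleton)
      fun y hy => hy.1
  · rw [isDiscrete_iff_nhdsNE]
    intro y hy
    obtain ⟨hyO, hi⟩ := key y hy.1 hy.2
    obtain ⟨k, -, hk⟩ := LinearMap.exists_antilipschitzWith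
      (fderiv ℝ w y : W →ₗ[ℝ] (W →L[ℝ] ℝ)) (LinearMap.ker_eq_bot.2 hi)
    have e := ((hw y hy.1).differentiableAt (by simp)).hasFDerivAt.eventually_ne (c := -a) ⟨k, hk⟩
    rw [inf_principal_eq_bot]
    filter_upwards [e, nhdsWithin_le_nhds (loc y hyO)] with u hu hu' hm
    exact hu (eq_neg_of_add_eq_zero_left (hu' ▸ hm.2))
end

variable {V : Type} [NormedAddCommGroup V] [NormedSpace ℝ V] [FiniteDimensional ℝ V]
variable {G : OpenPartialHomeomorph (V × ℂ) (V × ℂ)} {F : V × ℂ → ℂ}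

omit [FiniteDimensional ℝ V] in
theorem om_ne (hG : IsLong G) (hF : StdArg G F) {B : Set (V × ℂ)} (hB : IsOpen B)
    (h : ∀ y ∈ B, y.2 ≠ 0 → y ∈ G.source ∧ ∃ c : ℝ, 0 < c ∧ F (G y) = c * y.2) {y : V × ℂ}
    (hy : y ∈ B) (h0 : y.2 ≠ 0) (hk : G y ∉ knotL G) : om F (G y) ≠ 0 := by
  intro hz
  have dG : DifferentiableAt ℝ G y :=
    (hG.smooth.contDiffAt (G.open_source.mem_nhds (h y hy h0).1)).differentiableAt (by simp)
  have dF := (hF.smooth _ hk).differentiableAt (by simp)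
  have dA := dF.comp y dG
  have n0 := hF.ne_zero _ hk
  have dn : DifferentiableAt ℝ (fun u : V × ℂ => ‖u.2‖) y :=
    DifferentiableAt.norm ℝ (f := fun u : V × ℂ => u.2) differentiableAt_snd h0
  have dc : DifferentiableAt ℝ (fun u : V × ℂ => ‖F (G u)‖ / ‖u.2‖) y :=
    (dA.norm ℝ n0).mul (dn.inv (norm_ne_zero_iff.2 h0))
  have e := dlog (A := fun u => F (G u)) (B := fun u : V × ℂ => u.2)
    (c := fun u => ‖F (G u)‖ / ‖u.2‖) (g := fun _ => 0) differentiableAt_snd dc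
    (differentiableAt_const _) (div_ne_zero (norm_ne_zero_iff.2 n0) (norm_ne_zero_iff.2 h0)) h0
    (by
      filter_upwards [hB.mem_nhds hy, continuous_snd.continuousAt.eventually_ne h0] with u hu hu0
      obtain ⟨-, c, hc, e⟩ := h u hu hu0
      rw [e, norm_mul, Complex.norm_real, Real.norm_of_nonneg hc.le,
        mul_div_cancel_right₀ _ (norm_ne_zero_iff.2 hu0)]
      simp) (0, Complex.I * y.2)
  have e1 : fderiv ℝ (fun u => F (G u)) y = (fderiv ℝ F (G y)).comp (fderiv ℝ G y) :=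
    fderiv_comp y dF dG
  have e2 := om_apply F (G y) (fderiv ℝ G y (0, Complex.I * y.2))
  rw [hz] at e2
  rw [e1, ContinuousLinearMap.comp_apply, ← e2, fderiv_snd] at e
  simp [mul_div_assoc, div_self h0] at e

theorem exists_morse (hG : IsLong G) (hF : StdArg G F) :
    ∃ F', StdArg G F' ∧ {y | y ∉ knotL G ∧ om F' y = 0}.Finite ∧
      ∀ y ∉ knotL G, om F' y = 0 → Function.Injective (fderiv ℝ (om F') y) := by
  obtain ⟨δ, hδ, R₁, hstd⟩ := hF.std
  obtain ⟨R₂, hfar⟩ := hG.far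
  set R := max R₁ R₂
  let A : ℝ → Set (V × ℂ) := fun t => {y | ‖y.2‖ ≤ δ * t / 4 ∨ R + 4 - t ≤ ‖y‖}
  let B : ℝ → Set (V × ℂ) := fun t => {y | ‖y.2‖ < δ * t / 4 ∨ R + 4 - t < ‖y‖}
  have hB : ∀ t, IsOpen (B t) := fun t =>
    (isOpen_lt continuous_snd.norm continuous_const).union
      (isOpen_lt continuous_const continuous_norm)
  have BA : ∀ t, B t ⊆ A t := fun t y hy => hy.imp le_of_lt le_of_lt
  have AB : ∀ t t', t < t' → A t ⊆ B t' := fun t t' h y hy =>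
    hy.imp (fun h' => by linarith only [h', hδ, h, mul_pos_of_neg_of_neg (Mathlib.Tactic.Linarith.sub_neg_of_lt hδ) (Mathlib.Tactic.Linarith.sub_neg_of_lt h)]) fun h' => by linarith
  have hB3 : ∀ y ∈ B 3, y.2 ≠ 0 → y ∈ G.source ∧ ∃ c : ℝ, 0 < c ∧ F (G y) = c * y.2 :=
    fun y hy h0 => hstd y h0 (hy.imp (fun h => by linarith only [hδ, h]) fun h => by
      linarith [le_max_left R₁ R₂])
  have src : B 3 ⊆ G.source := fun y hy => by
    by_cases h0 : y.2 = 0
    · have := hG.axis y.1; rwa [← h0] at this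
    · exact (hB3 y hy h0).1
  have opB : ∀ t ≤ 3, IsOpen (G '' B t) := fun t ht =>
    G.isOpen_image_of_subset_source (hB t) fun y hy => src (hy.imp (fun h => by linarith only [h, hδ, ht, mul_nonneg_of_nonpos_of_nonpos (le_of_lt (Mathlib.Tactic.Linarith.sub_neg_of_lt hδ)) (Mathlib.Tactic.Linarith.sub_nonpos_of_le ht)])
      fun h => by linarith)
  have clA : ∀ t < 3, IsClosed (G '' A t) := by
    intro t ht
    have e : G '' A t = G '' (A t ∩ closedBall 0 (R + 4 - t)) ∪ {y | R + 4 - t ≤ ‖y‖} := by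
      have hf : ∀ y : V × ℂ, R + 4 - t ≤ ‖y‖ → G y = y := fun y hy =>
        (hfar y (by linarith [le_max_right R₁ R₂])).2
      ext z
      constructor
      · rintro ⟨y, hy, rfl⟩
        by_cases h : R + 4 - t ≤ ‖y‖
        · right; rw [hf y h]; exact h
        · exact Or.inl ⟨y, ⟨hy, mem_closedBall_zero_iff.2 (not_le.1 h).le⟩, rfl⟩
      · rintro (⟨y, hy, rfl⟩ | h)
        · exact ⟨y, hy.1, rfl⟩
        · exact ⟨z, Or.inr h, hf z h⟩
    have c : IsClosed (A t) := (isClosed_le continuous_snd.norm continuous_const).union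
      (isClosed_le continuous_const continuous_norm)
    rw [e]
    exact (((isCompact_closedBall _ _).inter_left c).image_of_continuousOn
      (G.continuousOn.mono fun y hy => src (AB t 3 ht hy.1))).isClosed.union
      (isClosed_le continuous_const (by fun_prop))
  obtain ⟨ρ, ρ0, ρ1, -⟩ := exists_contMDiffMap_zero_one_of_isClosed (n := ⊤) 𝓘(ℝ, V × ℂ)
    (clA 1 (by norm_num)) (opB 2 (by norm_num)).isClosed_compl
    (disjoint_compl_right_iff_subset.2 (image_mono (AB 1 2 (by norm_num))))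
  have hρ : ContDiff ℝ ∞ ρ := ρ.contMDiff.contDiff
  have hK : IsCompact (G '' B 1)ᶜ := by
    refine Metric.isCompact_of_isClosed_isBounded (opB 1 (by norm_num)).isClosed_compl
      ((isBounded_closedBall (x := 0) (r := R + 3)).subset fun y hy => ?_)
    by_contra h
    rw [mem_closedBall_zero_iff, not_le] at h
    exact hy ⟨y, Or.inr (by linarith only [h]), (hfar y (by linarith [le_max_right R₁ R₂])).2⟩
  have Kk : ∀ y ∈ (G '' B 1)ᶜ, y ∉ knotL G := by
    rintro _ hy ⟨v, rfl⟩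
    exact hy ⟨(v, 0), Or.inl (by simpa using hδ), rfl⟩
  have ne : ∀ y ∉ knotL G, y ∈ G '' A 2 → om F y ≠ 0 := by
    rintro _ hk ⟨y, hy, rfl⟩
    refine om_ne hG hF (hB 3) hB3 (AB 2 3 (by norm_num) hy) (fun h0 => hk ⟨y.1, ?_⟩) hk
    simp only [← h0]
  obtain ⟨a, fin, inj⟩ := exists_pert (w := om F) hK
    (fun y hy => om_smooth (hF.smooth y (Kk y hy)) (hF.ne_zero y (Kk y hy)))
    (clA 2 (by norm_num)).isOpen_compl
    (compl_subset_compl.2 (image_mono ((BA 1).trans ((AB 1 2 (by norm_num)).trans (BA 2))))) hρ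
    (fun y hy => ρ1 fun h => hy (image_mono (BA 2) h))
    fun y hy hy' => ne y (Kk y hy) (not_not.1 hy')
  have sg : ContDiff ℝ ∞ fun u => ρ u * a u := hρ.mul a.contDiff
  let F' : V × ℂ → ℂ := fun u => F u * Complex.exp ((ρ u * a u : ℝ) * Complex.I)
  have sF' : ∀ y ∉ knotL G, ContDiffAt ℝ ∞ F' y := fun y hy =>
    (hF.smooth y hy).mul (((Complex.ofRealCLM.contDiff.comp sg).mul contDiff_const).cexp.contDiffAt)
  have omF' : ∀ y, DifferentiableAt ℝ F y → F y ≠ 0 →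
      om F' y = om F y + fderiv ℝ (fun u => ρ u * a u) y := by
    intro y hy h0
    refine ContinuousLinearMap.ext fun v => ?_
    rw [om_apply, add_apply, om_apply]
    exact dlog (c := fun _ => 1) hy (differentiableAt_const _) (sg.differentiable (by simp) y)
      one_ne_zero h0 (Eventually.of_forall fun u => by simp [F']) v
  have omk : ∀ y ∉ knotL G, om F' y = om F y + fderiv ℝ (fun u => ρ u * a u) y := fun y hy =>
    omF' y ((hF.smooth y hy).differentiableAt (by simp)) (hF.ne_zero y hy)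
  have inK : ∀ y ∉ knotL G, om F' y = 0 → y ∈ (G '' B 1)ᶜ := by
    intro y hy h hm
    have e : (fun u => ρ u * a u) =ᶠ[𝓝 y] fun _ => 0 := by
      filter_upwards [(opB 1 (by norm_num)).mem_nhds hm] with u hu
      rw [ρ0 (image_mono (BA 1) hu)]; simp
    rw [omk y hy, e.fderiv_eq] at h
    exact ne y hy (image_mono ((BA 1).trans ((AB 1 2 (by norm_num)).trans (BA 2))) hm)
      (by simpa using h)
  refine ⟨F', ⟨sF', fun y hy => mul_ne_zero (hF.ne_zero y hy) (Complex.exp_ne_zero _),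
    δ / 4, by positivity, R + 3, fun y h0 hy => ?_⟩,
    fin.subset fun y hy => ⟨inK y hy.1 hy.2, omk y hy.1 ▸ hy.2⟩, fun y hy h => ?_⟩
  · have hA : y ∈ A 1 := hy.imp (fun h => by linarith only [h]) fun h => by linarith
    obtain ⟨h1, c, hc, e⟩ := hB3 y (AB 1 3 (by norm_num) hA) h0
    refine ⟨h1, c, hc, ?_⟩
    simp only [F']
    rw [ρ0 ⟨y, hA, rfl⟩, e]; simp
  · obtain ⟨hO, hi⟩ := inj y (inK y hy h) (omk y hy ▸ h)
    have hO' := (clA 2 (by norm_num)).isOpen_compl.mem_nhds hO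
    have e : om F' =ᶠ[𝓝 y] fun u => om F u + a := by
      filter_upwards [hO'] with u hu
      have hu' : u ∉ knotL G := Kk u fun h =>
        hu (image_mono ((BA 1).trans ((AB 1 2 (by norm_num)).trans (BA 2))) h)
      have : (fun u => ρ u * a u) =ᶠ[𝓝 u] a := by
        filter_upwards [(clA 2 (by norm_num)).isOpen_compl.mem_nhds hu] with z hz
        rw [ρ1 fun h => hz (image_mono (BA 2) h)]; simp
      rw [omk u hu', this.fderiv_eq, a.fderiv]
    rwa [e.fderiv_eq, fderiv_add_const]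

end Pool.Agent.Work.MP_e1e788_gt
end
end

-- merged part: Pool.Agent.Work.MP_e1e788_gt.BrFib
section
/-! The spun long knot is fibred. -/

open scoped ContDiff Topology ComplexConjugate
open Set Filter Metric SpunKnot

noncomputable section
namespace Pool.Agent.Work.MP_e1e788_gt

theorem dArg_div {V : Type*} [NormedAddCommGroup V] [NormedSpace ℝ V] (Φ : V → ℂ) (x v : V) :
    dArg Φ x v / ‖Φ x‖ ^ 2 = (fderiv ℝ Φ x v / Φ x).im := by
  rw [div_eq_mul_inv (fderiv ℝ Φ x v), Complex.inv_def, ← mul_assoc, Complex.im_mul_ofReal, dArg,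
    mul_comm (fderiv ℝ Φ x v), Complex.normSq_eq_norm_sq, div_eq_mul_inv]

theorem rot_deriv {V : Type*} [NormedAddCommGroup V] [NormedSpace ℝ V] {f : V × ℂ → ℝ}
    {y : V × ℂ} (hf : DifferentiableAt ℝ f y) (h : ∀ u : ℂ, ‖u‖ = 1 → f (y.1, u * y.2) = f y) :
    fderiv ℝ f y (0, Complex.I * y.2) = 0 := by
  have du : HasDerivAt (fun t : ℝ => Complex.exp (t * Complex.I)) Complex.I 0 := by
    simpa using ((Complex.ofRealCLM.hasDerivAt (x := 0)).mul_const Complex.I).cexp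
  have d1 := HasFDerivAt.comp_hasDerivAt_of_eq 0 hf.hasFDerivAt
    ((hasDerivAt_const _ y.1).prodMk (du.mul_const y.2)) (by simp)
  refine d1.unique ((hasDerivAt_const (0 : ℝ) (f y)).congr_of_eventuallyEq ?_)
  exact Eventually.of_forall fun t => h _ (Complex.norm_exp_ofReal_mul_I t)

/-- the angle correction of the shear -/
structure Shear (Λ : ℂ → ℂ) (ε : ℝ) (s c : ℂ → ℝ) : Prop where
  ss : ContDiff ℝ ∞ s
  cs : ContDiff ℝ ∞ c
  pos : ∀ w, 0 < c w
  eq : ∀ w, Λ w = c w * w * Complex.exp (s w * Complex.I)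
  zero : ∀ w, ‖w‖ < ε → s w = 0
  ang : ∀ w, w ≠ 0 → 0 < 1 + fderiv ℝ s w (Complex.I * w)

theorem Shear.dlog {Λ : ℂ → ℂ} {ε : ℝ} {s c : ℂ → ℝ} (S : Shear Λ ε s c) {L : Type*}
    [NormedAddCommGroup L] [NormedSpace ℝ L] {W : L → ℂ} {y : L} (hW : DifferentiableAt ℝ W y)
    (h0 : W y ≠ 0) (v : L) : (fderiv ℝ (fun u => Λ (W u)) y v / Λ (W y)).im =
      (fderiv ℝ W y v / W y).im + fderiv ℝ (fun u => s (W u)) y v :=
  MP_e1e788_gt.dlog (c := fun u => c (W u)) hW ((S.cs.differentiable (by simp) _).comp y hW)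
    ((S.ss.differentiable (by simp) _).comp y hW) (S.pos _).ne' h0
    (Eventually.of_forall fun u => S.eq (W u)) v

theorem exists_shear {m : ℕ} (D : LongData m) : ∃ s c, Shear D.Λ D.ε s c := by
  classical
  let r : ℂ → ℂ := fun w => if w = 0 then 1 else D.Λ w / w
  have r1 : ∀ w, ‖w‖ < D.ε → r w = 1 := fun w hw => by
    by_cases h : w = 0
    · simp [r, h]
    · simp [r, h, D.Λ_std w hw]
  have r0 : ∀ w, r w ≠ 0 := fun w => by
    by_cases h : w = 0
    · simp [r, h]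
    · simpa [r, h] using fun a => h (D.Λ_zero w a)
  have rs : ContDiff ℝ ∞ r := contDiff_iff_contDiffAt.2 fun w => by
    by_cases h : w = 0
    · refine (contDiffAt_const (c := (1 : ℂ))).congr_of_eventuallyEq ?_
      filter_upwards [isOpen_ball.mem_nhds (h ▸ mem_ball_self D.ε_pos : w ∈ ball 0 D.ε)]
        with u hu using r1 u (mem_ball_zero_iff.1 hu)
    · refine (D.Λ_smooth.contDiffAt.mul ((contDiffAt_inv ℂ h).restrict_scalars ℝ)).congr_of_eventuallyEq ?_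
      filter_upwards [isOpen_ne.mem_nhds h] with u (hu : u ≠ 0)
      simp [r, hu, div_eq_mul_inv]
  obtain ⟨g, gc, hg⟩ := exists_log rs.continuous r0
  have e0 : Complex.exp (g 0 * Complex.I) = 1 := by
    have := hg 0
    rw [r1 0 (by simpa using D.ε_pos)] at this
    simpa using this.symm
  have hs : ∀ w, r w = ‖r w‖ * Complex.exp ((g w - g 0 : ℝ) * Complex.I) := fun w => by
    push_cast
    rw [sub_mul, Complex.exp_sub, e0, div_one]; exact hg w
  have ss : ContDiff ℝ ∞ fun w => g w - g 0 := contDiff_iff_contDiffAt.2 fun w =>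
    smooth_log rs.contDiffAt (r0 w) (gc.sub continuous_const).continuousAt (Eventually.of_forall hs)
  have cs : ContDiff ℝ ∞ fun w => ‖r w‖ := rs.norm ℝ r0
  have eq : ∀ w, D.Λ w = (‖r w‖ : ℝ) * w * Complex.exp ((g w - g 0 : ℝ) * Complex.I) := fun w => by
    rw [mul_right_comm, ← hs]
    by_cases h : w = 0
    · rw [h, mul_zero]; exact D.Λ_std 0 (by simpa using D.ε_pos)
    · simp [r, h]
  refine ⟨_, _, ss, cs, fun w => norm_pos_iff.2 (r0 w), eq, fun w hw => ?_, fun w hw => ?_⟩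
  · refine Circle.isCoveringMap_exp.eqOn_of_comp_eqOn (convex_ball (0 : ℂ) D.ε).isPreconnected
      (g₁ := fun w => g w - g 0) (g₂ := fun _ => 0) ss.continuous.continuousOn continuousOn_const
      (fun u hu => ?_) (mem_ball_self D.ε_pos) (by simp) (mem_ball_zero_iff.2 hw)
    have := hs u
    rw [r1 u (mem_ball_zero_iff.1 hu)] at this
    apply Subtype.ext
    simp only [Function.comp, Circle.coe_exp]
    simpa using this.symm
  · have h1 := MP_e1e788_gt.dlog (A := D.Λ) (B := id) differentiableAt_id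
      (cs.differentiable (by simp) w) (ss.differentiable (by simp) w) (norm_ne_zero_iff.2 (r0 w))
      hw (Eventually.of_forall eq) (Complex.I * w)
    rw [← dArg_div, fderiv_id] at h1
    have h2 : (ContinuousLinearMap.id ℝ ℂ (Complex.I * w) / id w).im = 1 := by simp [hw]
    rw [h2] at h1
    rw [← h1]
    exact div_pos (D.Λ_ang w hw) (pow_pos (norm_pos_iff.2 fun a => hw (D.Λ_zero w a)) 2)

theorem longFib {m : ℕ} (D : LongData m) : LongFib (amb2 D).G := by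
  obtain ⟨s, c, S⟩ := exists_shear D
  have A := amb2 D
  let Ψ : SLg m × ℝ → SLg m × ℝ := fun p => D.Θ (sp D.Ξ p)
  have Ψs : ContDiff ℝ ∞ Ψ := D.Θ_smooth.comp A.s1
  let W : (ℂ × Ax m) × ℂ → ℂ := fun y => (Ψ (jj y)).1.2.2
  have Ws : ContDiff ℝ ∞ W := by fun_prop
  let N : (ℂ × Ax m) × ℂ → ℝ := fun y => ‖y.1.1‖ ^ 2 + ‖y.1.2‖ ^ 2 + ‖y.2‖ ^ 2
  have Ns : ContDiff ℝ ∞ N :=
    ((contDiff_fst.fst.norm_sq ℝ).add (contDiff_fst.snd.norm_sq ℝ)).add (contDiff_snd.norm_sq ℝ)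
  have N1 : ∀ y, N y ≤ 3 * ‖y‖ ^ 2 := fun y => by
    have a := pow_le_pow_left₀ (norm_nonneg _) ((norm_fst_le y.1).trans (norm_fst_le y)) 2
    have b := pow_le_pow_left₀ (norm_nonneg _) ((norm_snd_le y.1).trans (norm_fst_le y)) 2
    have c := pow_le_pow_left₀ (norm_nonneg _) (norm_snd_le y) 2
    simp only [N]; linarith only [a, b, c]
  have N2 : ∀ y, ‖y‖ ^ 2 ≤ N y := fun y => by
    have a := sq_nonneg ‖y.1.1‖; have b := sq_nonneg ‖y.1.2‖; have c := sq_nonneg ‖y.2‖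
    simp only [N, Prod.norm_def]
    rcases max_choice (max ‖y.1.1‖ ‖y.1.2‖) ‖y.2‖ with h | h <;> rw [h]
    · rcases max_choice ‖y.1.1‖ ‖y.1.2‖ with h | h <;> rw [h] <;> linarith only [b, c, a]
    · linarith
  let χ : (ℂ × Ax m) × ℂ → ℝ := fun y => Real.smoothTransition (3 * D.R ^ 2 + 2 - N y)
  have χs : ContDiff ℝ ∞ χ := Real.smoothTransition.contDiff.comp (contDiff_const.sub Ns)
  let F : (ℂ × Ax m) × ℂ → ℂ := fun y => W y * Complex.exp ((χ y * s (W y) : ℝ) * Complex.I)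
  have as : ContDiff ℝ ∞ fun y => χ y * s (W y) := χs.mul (S.ss.comp Ws)
  have W0 : ∀ y ∉ knotL A.G, W y ≠ 0 := fun y hy h => by
    have h1 := D.Θ_id (Ψ (jj y)) (Or.inr (by rw [show (Ψ (jj y)).1.2.2 = 0 from h]; simpa using D.ε_pos))
    have h2 := congrArg D.Θ' h1
    simp only [Ψ, D.Θ_left] at h2
    exact hy ((A.mem_knot y).2 (by rw [← h2]; exact h))
  have Wf : ∀ y, D.R ≤ ‖y‖ → W y = y.2 := fun y hy => by
    have h : D.R ≤ ‖jj y‖ := by rwa [norm_jj]
    simp only [W, Ψ, A.far _ h, D.Θ_id _ (Or.inl h)]; rfl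
  have dF : ∀ y ∉ knotL A.G, ∀ v, (fderiv ℝ F y v / F y).im =
      (fderiv ℝ W y v / W y).im + fderiv ℝ (fun y => χ y * s (W y)) y v := fun y hy v =>
    dlog (c := fun _ => 1) (Ws.differentiable (by simp) y) (differentiableAt_const _)
      (as.differentiable (by simp) y) one_ne_zero (W0 y hy)
      (Eventually.of_forall fun u => by simp [F]) v
  refine ⟨F, ⟨fun y _ => ?_, fun y hy => mul_ne_zero (W0 y hy) (Complex.exp_ne_zero _),
    D.ε, D.ε_pos, √(3 * D.R ^ 2 + 2), fun y _ hy => ?_⟩, fun y hy => ?_⟩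
  · exact (Ws.mul ((Complex.contDiff_exp (𝕜 := ℝ)).comp
      ((Complex.ofRealCLM.contDiff.comp as).mul contDiff_const))).contDiffAt
  · have hR : D.R < √(3 * D.R ^ 2 + 2) := Real.lt_sqrt_of_sq_lt (by linarith only [sq_nonneg D.R, sq_nonneg D.R])
    have h : ‖y.2‖ < D.ε ∨ D.R < ‖y‖ := hy.imp id fun a => hR.trans_le a
    refine ⟨h, 1, one_pos, ?_⟩
    have h1 : W (A.G y) = y.2 := by
      simp only [W, Ψ, A.G_back h]
      rw [D.Θ_id _ (h.symm.imp (fun a => by rw [norm_jj]; exact a.le) id)]; rfl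
    have h2 : χ (A.G y) * s y.2 = 0 := by
      rcases hy with hy | hy
      · rw [S.zero _ hy, mul_zero]
      · rw [A.G_far (hR.le.trans hy)]
        have h3 : 3 * D.R ^ 2 + 2 ≤ ‖y‖ ^ 2 := Real.sqrt_le_left (norm_nonneg _) |>.1 hy
        simp only [χ]
        rw [Real.smoothTransition.zero_of_nonpos (by linarith [N2 y]), zero_mul]
    simp only [F, h1, h2]; simp
  by_cases hN : N y < 3 * D.R ^ 2 + 1
  · have hz : D.Gh (Ψ (jj y)) = 0 := (D.Θ_zero _).1 ((A.zero _).1 rfl)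
    obtain ⟨v', h1, h2⟩ := D.Gh_fib _ hz (W0 y hy)
    obtain ⟨v, hv⟩ := onto_of (Ψ' := fun p => sp D.Ξ' (D.Θ' p)) (D.Gh_smooth.differentiable (by simp))
      (Ψs.differentiable (by simp)) ((A.s2.comp D.Θ'_smooth).differentiable (by simp))
      (fun p => by simp only [Ψ, A.right, D.Θ_right]) (fun p => by simp only [Ψ, D.Θ_left, A.left])
      (fun y => (D.Θ_zero _).1 ((A.zero _).1 rfl)) y (D.Gh_reg _ hz) v' h1
    refine ⟨v, ?_⟩
    have h3 : (fun y => χ y * s (W y)) =ᶠ[𝓝 y] fun y => s (W y) := by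
      filter_upwards [Ns.continuous.continuousAt.eventually (gt_mem_nhds hN)] with u hu
      simp only [χ]
      rw [Real.smoothTransition.one_of_one_le (by linarith only [hu]), one_mul]
    rw [dF y hy, h3.fderiv_eq, ← S.dlog (Ws.differentiable (by simp) y) (W0 y hy)]
    have h4 : ContDiff ℝ ∞ fun q : SLg m × ℝ => D.Λ q.1.2.2 := D.Λ_smooth.comp (by fun_prop)
    have h5 := ((h4.differentiable (by simp) _).hasFDerivAt.comp y
      ((Ψs.differentiable (by simp) _).hasFDerivAt.comp y (jj.hasFDerivAt (x := y)))).fderiv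
    rw [show (fun u => D.Λ (W u)) = (fun q : SLg m × ℝ => D.Λ q.1.2.2) ∘ Ψ ∘ jj from rfl, h5,
      ContinuousLinearMap.comp_apply, ContinuousLinearMap.comp_apply, hv]
    have h6 := dArg_div (fun q : SLg m × ℝ => D.Λ q.1.2.2) (Ψ (jj y)) v'
    refine fun a => div_ne_zero h2 ?_ (h6.trans a)
    exact pow_ne_zero 2 (norm_ne_zero_iff.2 fun a => W0 y hy (D.Λ_zero _ a))
  · have hR : D.R < ‖y‖ := by
      have := N1 y
      exact (le_abs_self _).trans_lt (abs_lt_of_sq_lt_sq (by linarith only [hN, this]) (norm_nonneg _))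
    have h1 : W =ᶠ[𝓝 y] Prod.snd := by
      filter_upwards [continuous_norm.continuousAt.eventually (lt_mem_nhds hR)] with u hu
        using Wf u hu.le
    have h0 : y.2 ≠ 0 := Wf y hR.le ▸ W0 y hy
    refine ⟨(0, Complex.I * y.2), ?_⟩
    have h2 : fderiv ℝ χ y (0, Complex.I * y.2) = 0 :=
      rot_deriv (χs.differentiable (by simp) y) fun u hu => by simp [χ, N, hu]
    have h3 : HasFDerivAt W (ContinuousLinearMap.snd ℝ _ _) y :=
      hasFDerivAt_snd.congr_of_eventuallyEq h1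
    have h4 := ((χs.differentiable (by simp) y).hasFDerivAt.mul
        ((S.ss.differentiable (by simp) _).hasFDerivAt.comp y h3)).fderiv
    rw [dF y hy, show (fun y => χ y * s (W y)) = χ * s ∘ W from rfl, h4, h3.fderiv]
    have h5 := S.ang _ h0
    have h6 : 0 ≤ χ y := Real.smoothTransition.nonneg _
    have h7 : χ y ≤ 1 := Real.smoothTransition.le_one _
    have h8 : 0 < 1 + χ y * fderiv ℝ s y.2 (Complex.I * y.2) := by
      rcases h6.eq_or_lt with h9 | h9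
      · rw [← h9]; simp
      · linarith only [h7, h9, h5, mul_pos h9 h5]
    simpa [h2, Wf y hR.le, h0] using h8.ne'

end Pool.Agent.Work.MP_e1e788_gt
end
end

-- merged part: Pool.Agent.Work.MP_e1e788_gt.Bridge
section
/-! The long knot is not weakly fibred; the final statement from `LongData`. -/

open scoped ContDiff Topology ComplexConjugate
open Set Filter Metric SpunKnot

noncomputable section
namespace Pool.Agent.Work.MP_e1e788_gt

theorem both_pos {E : Type*} [NormedAddCommGroup E] [NormedSpace ℝ E] (a c : E →L[ℝ] ℝ)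
    {e0 e1 : E} (h0 : c e0 = 0) (h1 : a e0 ≠ 0) (h2 : c e1 ≠ 0) : ∃ e, 0 < c e ∧ 0 < a e := by
  refine ⟨c e1 • e1 + ((1 - c e1 * a e1) / a e0) • e0, ?_, ?_⟩
  · simpa [h0] using h2
  · simp [h1]

theorem pos_of_ne {E : Type*} [NormedAddCommGroup E] [NormedSpace ℝ E] (a : E →L[ℝ] ℝ)
    {e0 : E} (h1 : a e0 ≠ 0) : ∃ e, 0 < a e := ⟨a e0 • e0, by simpa using h1⟩

/-- `dArg` as a linear map -/
def dArgL {V : Type*} [NormedAddCommGroup V] [NormedSpace ℝ V] (Φ : V → ℂ) (x : V) : V →L[ℝ] ℝ :=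
  Complex.imCLM.comp (conj (Φ x) • fderiv ℝ Φ x)

theorem dArgL_apply {V : Type*} [NormedAddCommGroup V] [NormedSpace ℝ V] (Φ : V → ℂ) (x v : V) :
    dArgL Φ x v = dArg Φ x v := rfl

theorem two_le : (2 : WithTop ℕ∞) ≤ ∞ := ENat.LEInfty.out

theorem jjd {T U : Type} [NormedAddCommGroup T] [NormedSpace ℝ T] [NormedAddCommGroup U]
    [NormedSpace ℝ U] (y : (T × U) × ℂ) : HasFDerivAt (jj : (T × U) × ℂ → _) jj y :=
  ContinuousLinearMap.hasFDerivAt _

theorem prd {T U : Type} [NormedAddCommGroup T] [NormedSpace ℝ T] [NormedAddCommGroup U]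
    [NormedSpace ℝ U] (y : (T × U × ℂ) × ℝ) : HasFDerivAt (pr : (T × U × ℂ) × ℝ → _) pr y :=
  ContinuousLinearMap.hasFDerivAt _

variable {m : ℕ}

/-- the quadratic form on the ambient space -/
def NA (p : Lg m × ℝ) : ℝ := p.1.1 ^ 2 + ‖p.1.2.1‖ ^ 2 + ‖p.1.2.2‖ ^ 2 + p.2 ^ 2

/-- the function cutting out the exterior -/
def TA (ρ : ℝ) (p : Lg m × ℝ) : ℝ := ‖p.1.2.2‖ ^ 2 - ρ * (1 + NA p) ^ 2

theorem NA_smooth : ContDiff ℝ ∞ (NA (m := m)) :=
  (((contDiff_fst.fst.pow 2).add (contDiff_fst.snd.fst.norm_sq ℝ)).add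
    (contDiff_fst.snd.snd.norm_sq ℝ)).add (contDiff_snd.pow 2)

theorem TA_smooth (ρ : ℝ) : ContDiff ℝ ∞ (TA (m := m) ρ) :=
  (contDiff_fst.snd.snd.norm_sq ℝ).sub (contDiff_const.mul ((contDiff_const.add NA_smooth).pow 2))

theorem NA_nonneg (p : Lg m × ℝ) : 0 ≤ NA p := by unfold NA; positivity

theorem z_le_NA (p : Lg m × ℝ) : ‖p.1.2.2‖ ^ 2 ≤ NA p := by
  unfold NA; linarith only [sq_nonneg p.1.1, sq_nonneg ‖p.1.2.1‖, sq_nonneg p.2, sq_nonneg p.2, sq_nonneg ‖p.1.2.1‖, sq_nonneg p.1.1]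

theorem NA_le (p : Lg m × ℝ) : NA p ≤ 4 * ‖p‖ ^ 2 := by
  have a := pow_le_pow_left₀ (norm_nonneg _) ((norm_fst_le p.1).trans (norm_fst_le p)) 2
  have b := pow_le_pow_left₀ (norm_nonneg _)
    (((norm_fst_le p.1.2).trans (norm_snd_le p.1)).trans (norm_fst_le p)) 2
  have c := pow_le_pow_left₀ (norm_nonneg _)
    (((norm_snd_le p.1.2).trans (norm_snd_le p.1)).trans (norm_fst_le p)) 2
  have d := pow_le_pow_left₀ (norm_nonneg _) (norm_snd_le p) 2
  rw [Real.norm_eq_abs, sq_abs] at a d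
  unfold NA; linarith

theorem le_NA (p : Lg m × ℝ) : ‖p‖ ^ 2 ≤ NA p := by
  have a := sq_nonneg p.1.1; have b := sq_nonneg ‖p.1.2.1‖; have c := sq_nonneg ‖p.1.2.2‖
  have d := sq_nonneg p.2
  have e : ∀ x : ℝ, x ^ 2 ≤ NA p → |x| ≤ √(NA p) := fun x => Real.abs_le_sqrt
  have f : ∀ x : ℝ, x ^ 2 ≤ NA p → x ≤ √(NA p) := fun x => Real.le_sqrt_of_sq_le
  refine (Real.le_sqrt (norm_nonneg _) (NA_nonneg p)).1 ?_
  refine max_le (max_le (e _ ?_) (max_le (f _ ?_) (f _ ?_))) (e _ ?_) <;> unfold NA <;> linarith only [b, c, d, a]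

theorem TA_reg {ρ : ℝ} (hρ : 0 < ρ) (hρ1 : ρ < 1 / 4) {y : (ℝ × Ax m) × ℂ} (h : TA ρ (jj y) = 0) :
    ∃ v, fderiv ℝ (TA ρ) (jj y) (jj v) ≠ 0 := by
  by_contra hc
  push Not at hc
  have d := ((TA_smooth ρ).differentiable (by simp) (jj y)).hasFDerivAt
  have hl : ∀ v : (ℝ × Ax m) × ℂ, HasDerivAt (fun t : ℝ => TA ρ (jj (y + t • v))) 0 0 := fun v => by
    have a1 : HasDerivAt (fun t : ℝ => y + t • v) v 0 := by
      simpa using ((hasDerivAt_id (0 : ℝ)).smul_const v).const_add y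
    have a2 := HasFDerivAt.comp_hasDerivAt_of_eq 0 (d.comp y (jjd y)) a1 (by simp)
    rw [ContinuousLinearMap.comp_apply, hc v] at a2
    exact a2
  set a := ‖y.2‖ ^ 2 with ha
  set N := NA (jj y) with hN
  have h0 : a = ρ * (1 + N) ^ 2 := sub_eq_zero.1 h
  have n1 : ∀ (t : ℝ) (z : ℂ), ‖z + t • z‖ ^ 2 = (1 + t) ^ 2 * ‖z‖ ^ 2 := fun t z => by
    rw [← mul_pow, ← sq_abs ((1 + t) * _), abs_mul, abs_norm, ← Real.norm_eq_abs, ← norm_smul,
      add_smul, one_smul]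
  have n2 : ∀ (t : ℝ) (z : Ax m), ‖z + t • z‖ ^ 2 = (1 + t) ^ 2 * ‖z‖ ^ 2 := fun t z => by
    rw [← mul_pow, ← sq_abs ((1 + t) * _), abs_mul, abs_norm, ← Real.norm_eq_abs, ← norm_smul,
      add_smul, one_smul]
  have p1 : HasDerivAt (fun t : ℝ => (1 + t) ^ 2) 2 0 := by
    simpa using ((hasDerivAt_id (0 : ℝ)).const_add 1).fun_pow 2
  have e1 := (hl (0, y.2)).unique ((((p1.mul_const a).sub
    (((((p1.sub_const 1).mul_const a).const_add N).const_add 1).pow 2 |>.const_mul ρ))).congr_of_eventuallyEq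
      (Eventually.of_forall fun t => by
        simp only [TA, NA, jj_apply, hN, ha, Prod.fst_add, Prod.snd_add, Prod.smul_mk, n1,
          smul_zero, add_zero, Pi.sub_apply, Pi.pow_apply]
        ring))
  have e2 := (hl y).unique ((((p1.mul_const a).sub
    (((p1.mul_const N).const_add 1).pow 2 |>.const_mul ρ))).congr_of_eventuallyEq
      (Eventually.of_forall fun t => by
        simp only [TA, NA, jj_apply, hN, ha, Prod.fst_add, Prod.snd_add, Prod.smul_fst,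
          Prod.smul_snd, n1, n2, smul_eq_mul, Pi.sub_apply, Pi.pow_apply]
        ring))
  have h1 : 0 ≤ N := NA_nonneg _
  have h2 : 0 < a := by rw [h0]; positivity
  norm_num at e1 e2
  have h3 : 2 * ρ * (1 + N) = 1 := by
    have : a * (2 * ρ * (1 + N) - 1) = 0 := by linarith only [e1]
    linarith only [this, h2, (mul_eq_zero.1 this).resolve_left h2.ne']
  have h4 : a = N := by nlinarith
  linarith only [hρ1, h0, e2, h3, hρ, h4, mul_nonneg_of_nonpos_of_nonpos (Mathlib.Tactic.Linarith.sub_nonpos_of_le (sq_nonneg ‖y.2‖)) (le_of_lt (Mathlib.Tactic.Linarith.sub_neg_of_lt hρ1)), Mathlib.Tactic.Linarith.mul_zero_eq (Mathlib.Tactic.Linarith.sub_neg_of_lt hρ) (sub_eq_zero_of_eq h4)]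

theorem not_weak (D : LongData m) : ¬ WeakFib (amb1 D).G fun y => (D.Ξ (jj y)).1.2.2 := by
  rintro ⟨g, gs, hg, δ, hδ, R, hang⟩
  obtain ⟨s, c, S⟩ := exists_shear D
  obtain ⟨C, hC, hC1, hno⟩ := D.noFib
  have A := amb1 D
  have cN := (NA_smooth (m := m)).continuous
  obtain ⟨ρ0, hρ0, h0⟩ := hC.exists_forall_le' (f := fun p => ‖p.1.2.2‖ ^ 2 / (1 + NA p) ^ 2)
    (a := 0) (Continuous.continuousOn (Continuous.div (by fun_prop) (by fun_prop) fun p => by
      have := NA_nonneg p; positivity)) fun p hp => by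
      have := NA_nonneg p; have := norm_pos_iff.2 (hC1 p hp).2; positivity
  set R1 := max |R| |D.R| with hR1
  set δ1 := min δ D.ε with hδ1
  have δ10 : 0 < δ1 := lt_min hδ D.ε_pos
  obtain ⟨ρ, hρ, r1, r2, r3⟩ : ∃ ρ > 0, ρ < ρ0 ∧ ρ < 1 / 4 ∧ ρ < δ1 ^ 2 / (1 + 4 * R1 ^ 2) ^ 2 := by
    obtain ⟨ρ, a, b⟩ := exists_between (lt_min hρ0 (lt_min (by norm_num : (0 : ℝ) < 1 / 4)
      (by positivity : 0 < δ1 ^ 2 / (1 + 4 * R1 ^ 2) ^ 2)))
    exact ⟨ρ, a, b.trans_le (min_le_left _ _), (lt_min_iff.1 (lt_min_iff.1 b).2).1,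
      (lt_min_iff.1 (lt_min_iff.1 b).2).2⟩
  have Ts := TA_smooth (m := m) ρ
  have z0 : ∀ p : Lg m × ℝ, 0 ≤ TA ρ p → p.1.2.2 ≠ 0 := fun p hp h => by
    have := NA_nonneg p
    have : 0 < ρ * (1 + NA p) ^ 2 := by positivity
    simp only [TA, h, norm_zero] at hp
    linarith only [this, hp]
  let β : Lg m × ℝ → ℝ := fun p => g (pr (D.Ξ' p)) - s p.1.2.2
  have nk : ∀ p, D.G p = 0 → 0 ≤ TA ρ p → pr (D.Ξ' p) ∉ knotL A.G := fun p a b h => by
    rw [A.mem_knot, A.back a] at h; exact z0 p b h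
  have βs : ∀ p, D.G p = 0 → 0 ≤ TA ρ p → ContDiffAt ℝ ∞ β p := fun p a b =>
    (ContDiffAt.comp (f := fun p => pr (D.Ξ' p)) p (gs _ (nk p a b))
      (by have := A.s2; fun_prop)).sub (S.ss.comp (by fun_prop)).contDiffAt
  refine hno {p | D.G p = 0 ∧ 0 ≤ TA ρ p} β ⟨?_, fun p hp => ⟨hp.1, fun h => z0 p hp.2 (D.Λ_zero _ h)⟩,
    fun p hp => ?_, fun p hp => (βs p hp.1 hp.2).continuousAt.continuousWithinAt, fun ξ hξ => ?_⟩
  · refine Metric.isCompact_of_isClosed_isBounded ((isClosed_eq D.G_smooth.continuous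
      continuous_const).inter (isClosed_le continuous_const Ts.continuous))
      ((isBounded_closedBall (x := 0) (r := √(1 / ρ))).subset fun p hp => ?_)
    have a1 := NA_nonneg p
    have a2 := z_le_NA p
    have a3 : ρ * (1 + NA p) ^ 2 ≤ ‖p.1.2.2‖ ^ 2 := sub_nonneg.1 hp.2
    have a4 : ρ * (1 + NA p) ≤ 1 := by
      refine le_of_mul_le_mul_right (a := 1 + NA p) (by linarith only [hρ, r2, a2, a3]) (by linarith only [hρ, r2, a1])
    rw [mem_closedBall_zero_iff]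
    refine Real.le_sqrt_of_sq_le ((le_NA p).trans ?_)
    rw [le_div_iff₀ hρ]; linarith only [hρ, a4]
  · have a1 := NA_nonneg p
    have a2 : 0 < TA ρ p := by
      have := r1.trans_le (h0 p hp)
      rw [lt_div_iff₀ (by positivity)] at this
      exact sub_pos.2 this
    filter_upwards [self_mem_nhdsWithin, mem_nhdsWithin_of_mem_nhds
      (Ts.continuous.continuousAt.eventually (lt_mem_nhds a2))] with q a b using ⟨a, b.le⟩
  let B : (Ax (m + 1) × ℂ) ≃L[ℝ] ((ℝ × Ax m) × ℂ) :=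
    ContinuousLinearEquiv.ofFinrankEq (by simp [add_comm])
  set y0 := pr (D.Ξ' ξ) with hy0
  have hξ0 : D.Ξ (jj y0) = ξ := A.back hξ.1
  let χ : Ax (m + 1) × ℂ → Lg m × ℝ := fun u => D.Ξ (jj (y0 + B u))
  have χ0 : χ 0 = ξ := by simp [χ, hξ0]
  have χs : ContDiff ℝ ∞ χ := A.s1.comp (jj.contDiff.comp (contDiff_const.add B.contDiff))
  have χG : ∀ u, D.G (χ u) = 0 := fun u => (A.zero _).1 rfl
  have dΞ := (A.s1.differentiable (by simp) (jj y0)).hasFDerivAt
  have dχ : HasFDerivAt χ ((fderiv ℝ D.Ξ (jj y0)).comp (jj.comp (B : _ →L[ℝ] _))) 0 :=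
    HasFDerivAt.comp (f := fun u => jj (y0 + B u)) 0 (by simpa using dΞ)
      ((jjd _).comp 0 (B.hasFDerivAt.const_add y0))
  have dχ' : ∀ v, fderiv ℝ χ 0 (B.symm v) = fderiv ℝ D.Ξ (jj y0) (jj v) := fun v => by
    rw [dχ.fderiv]; simp
  have li : Function.LeftInverse (fun p => B.symm (pr (D.Ξ' p) - y0)) χ := fun u => by
    simp [χ, A.left, pr_jj]
  have lis : ContDiff ℝ ∞ fun p => B.symm (pr (D.Ξ' p) - y0) :=
    B.symm.contDiff.comp ((pr.contDiff.comp A.s2).sub contDiff_const)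
  have onto : ∀ v, fderiv ℝ D.G ξ v = 0 → ∃ e, fderiv ℝ χ 0 e = v := fun v hv => by
    rw [← hξ0] at hv
    obtain ⟨e, he⟩ := onto_of (D.G_smooth.differentiable (by simp)) (A.s1.differentiable (by simp))
      (A.s2.differentiable (by simp)) A.right A.left (fun y => (A.zero _).1 rfl) y0
      (D.G_reg _ ((A.zero _).1 rfl)) v hv
    exact ⟨B.symm e, (dχ' e).trans he⟩
  have chart : IsChart (Ax (m + 1) × ℂ) D.G χ ξ := by
    refine ⟨χs.contDiffAt.of_le two_le, χ0, ?_, ?_, onto⟩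
    · have a1 := (lis.differentiable (by simp) (χ 0)).hasFDerivAt.comp 0 dχ.differentiableAt.hasFDerivAt
      rw [show (fun p => B.symm (pr (D.Ξ' p) - y0)) ∘ χ = id from funext li] at a1
      have a2 := a1.unique (hasFDerivAt_id _)
      exact Function.LeftInverse.injective fun e => congrArg (fun L => L e) a2
    · rw [(li.isEmbedding lis.continuous χs.continuous).map_nhds_eq, χ0]
      congr 1
      refine Subset.antisymm (range_subset_iff.2 χG) fun p hp => ⟨B.symm (pr (D.Ξ' p) - y0), ?_⟩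
      simp only [χ, B.apply_symm_apply, add_sub_cancel]
      exact A.back hp
  have dβ := ((βs ξ hξ.1 hξ.2).differentiableAt (by simp)).hasFDerivAt
  have dT := (Ts.differentiable (by simp) ξ).hasFDerivAt
  have hz := z0 ξ hξ.2
  have dβχ : fderiv ℝ (β ∘ χ) 0 = (fderiv ℝ β ξ).comp (fderiv ℝ χ 0) :=
    (HasFDerivAt.comp 0 (by rwa [χ0]) dχ.differentiableAt.hasFDerivAt).fderiv
  have dTχ : fderiv ℝ (fun u => -TA ρ (χ u)) 0 = -(fderiv ℝ (TA ρ) ξ).comp (fderiv ℝ χ 0) :=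
    (HasFDerivAt.comp 0 (by rwa [χ0]) dχ.differentiableAt.hasFDerivAt).neg.fderiv
  let zz : Lg m × ℝ →L[ℝ] ℂ := (ContinuousLinearMap.snd ℝ _ _).comp
    ((ContinuousLinearMap.snd ℝ _ _).comp (ContinuousLinearMap.fst ℝ _ _))
  have dA : ∀ v, dArg (fun q : Lg m × ℝ => D.Λ q.1.2.2) ξ v / ‖D.Λ ξ.1.2.2‖ ^ 2 =
      (v.1.2.2 / ξ.1.2.2).im + fderiv ℝ s ξ.1.2.2 v.1.2.2 := fun v => by
    have a1 := S.dlog (W := zz) zz.differentiableAt (y := ξ) hz v
    have a2 := ((S.ss.differentiable (by simp) (zz ξ)).hasFDerivAt.comp ξ zz.hasFDerivAt).fderiv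
    rw [show (fun u => s (zz u)) = s ∘ zz from rfl, a2, zz.fderiv] at a1
    exact (dArg_div _ _ _).trans a1
  have dβ' : ∀ v, fderiv ℝ β ξ v = fderiv ℝ g y0 (pr (fderiv ℝ D.Ξ' ξ v)) -
      fderiv ℝ s ξ.1.2.2 v.1.2.2 := fun v => by
    have a1 := ((gs _ (nk ξ hξ.1 hξ.2)).differentiableAt (by simp)).hasFDerivAt.comp ξ
      ((prd _).comp ξ (A.s2.differentiable (by simp) ξ).hasFDerivAt)
    have a2 := (S.ss.differentiable (by simp) (zz ξ)).hasFDerivAt.comp ξ zz.hasFDerivAt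
    have a3 : HasFDerivAt β _ ξ := a1.sub a2
    rw [a3.fderiv]; rfl
  let a := (dArgL (fun q : Lg m × ℝ => D.Λ q.1.2.2) ξ).comp (fderiv ℝ χ 0)
  let b := (‖D.Λ ξ.1.2.2‖ ^ 2)⁻¹ • a + fderiv ℝ (β ∘ χ) 0
  have hb : ∀ e, b e = dArg (fun q : Lg m × ℝ => D.Λ q.1.2.2) ξ (fderiv ℝ χ 0 e) /
      ‖D.Λ ξ.1.2.2‖ ^ 2 + fderiv ℝ (β ∘ χ) 0 e := fun e => by
    rw [div_eq_inv_mul]; rfl
  have hb' : ∀ e, b e = ((fderiv ℝ χ 0 e).1.2.2 / ξ.1.2.2).im +
      fderiv ℝ g y0 (pr (fderiv ℝ D.Ξ' ξ (fderiv ℝ χ 0 e))) := fun e => by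
    rw [hb, dA, dβχ, ContinuousLinearMap.comp_apply, dβ']; ring
  refine ⟨χ, fun u => -TA ρ (χ u), chart,
    (Ts.comp χs).neg.contDiffAt.of_le two_le,
    (ContDiffAt.comp 0 (by rw [χ0]; exact βs ξ hξ.1 hξ.2) χs.contDiffAt).of_le
      two_le, Eventually.of_forall fun u => by simp [χG], ?_⟩
  by_cases hT : -TA ρ (χ 0) = 0
  swap
  · refine ⟨fun h => absurd h hT, ?_⟩
    obtain ⟨v, hv⟩ := hg y0 (nk ξ hξ.1 hξ.2)
    obtain ⟨e, he⟩ := pos_of_ne b (e0 := B.symm v) (by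
      rw [hb', dχ']
      have a1 := (zz.hasFDerivAt.comp y0 (dΞ.comp y0 (jjd _))).fderiv
      have a2 := HasFDerivAt.comp (jj y0)
        (by rw [hξ0]; exact (A.s2.differentiable (by simp) ξ).hasFDerivAt) dΞ
      rw [show D.Ξ' ∘ D.Ξ = id from funext A.left] at a2
      have a3 : fderiv ℝ D.Ξ' ξ (fderiv ℝ D.Ξ (jj y0) (jj v)) = jj v :=
        congrArg (fun L => L (jj v)) (a2.unique (hasFDerivAt_id _))
      rw [show (fun y => (D.Ξ (jj y)).1.2.2) = zz ∘ D.Ξ ∘ jj from rfl, a1] at hv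
      rw [a3, pr_jj, ← hξ0]
      exact hv)
    exact ⟨e, by rwa [hb] at he, fun h => absurd h hT⟩
  rw [χ0, neg_eq_zero] at hT
  have reg : ‖ξ.1.2.2‖ < δ1 ∨ R1 < ‖ξ‖ := by
    refine or_iff_not_imp_right.2 fun h => ?_
    have a1 := (NA_le ξ).trans (mul_le_mul_of_nonneg_left
      (pow_le_pow_left₀ (norm_nonneg _) (not_lt.1 h) 2) (by norm_num))
    have a2 := NA_nonneg ξ
    have a3 : ‖ξ.1.2.2‖ ^ 2 = ρ * (1 + NA ξ) ^ 2 := sub_eq_zero.1 hT
    rw [lt_div_iff₀ (by positivity)] at r3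
    refine lt_of_pow_lt_pow_left₀ 2 δ10.le (lt_of_le_of_lt ?_ r3)
    rw [a3]; gcongr
  have hR : R ≤ R1 := (le_abs_self _).trans (le_max_left _ _)
  have hR' : D.R ≤ R1 := (le_abs_self _).trans (le_max_right _ _)
  have ξ2 : ξ.2 = 0 := (A.std ξ (reg.imp (fun a => a.trans_le (min_le_right _ _))
    fun a => hR'.trans a.le)).1 hξ.1
  obtain ⟨y, rfl⟩ : ∃ y, jj y = ξ := ⟨_, jj_pr ξ2⟩
  rw [norm_jj] at reg
  have src : ‖y.2‖ < D.ε ∨ D.R < ‖y‖ :=
    reg.imp (fun a => a.trans_le (min_le_right _ _)) fun a => hR'.trans_lt a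
  have tan : ∀ v, fderiv ℝ D.G (jj y) (jj v) = 0 := fun v => by
    have a1 := (D.G_smooth.differentiable (by simp) (jj y)).hasFDerivAt.comp y (jjd _)
    have a2 := (hasFDerivAt_const (𝕜 := ℝ) (0 : ℝ) y).congr_of_eventuallyEq (f₁ := D.G ∘ jj) (by
      filter_upwards [(isOpen_src D.R D.ε).mem_nhds src] with u hu using A.on_src hu)
    exact congrArg (fun L => L v) (a1.unique a2)
  obtain ⟨e0, he0⟩ := onto _ (tan (0, Complex.I * y.2))
  obtain ⟨v1, hv1⟩ := TA_reg hρ r2 hT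
  obtain ⟨e1, he1⟩ := onto _ (tan v1)
  have c0 : fderiv ℝ (fun u => -TA ρ (χ u)) 0 e0 = 0 := by
    have a1 := (dT.comp y (jjd _))
    have a2 := rot_deriv a1.differentiableAt fun u hu => by simp [TA, NA, jj_apply, hu]
    rw [a1.fderiv] at a2
    rw [dTχ, neg_apply, ContinuousLinearMap.comp_apply, he0, neg_eq_zero]
    exact a2
  have c1 : fderiv ℝ (fun u => -TA ρ (χ u)) 0 e1 ≠ 0 := by
    rw [dTχ, neg_apply, ContinuousLinearMap.comp_apply, he1]
    exact neg_ne_zero.2 hv1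
  have hz' : y.2 ≠ 0 := hz
  refine ⟨fun _ => both_pos a _ c0 ?_ c1, ?_⟩
  · change dArg (fun q : Lg m × ℝ => D.Λ q.1.2.2) (jj y) (fderiv ℝ χ 0 e0) ≠ 0
    rw [he0]
    intro h
    have a1 := dA (jj (0, Complex.I * y.2))
    rw [h, zero_div] at a1
    have a2 := S.ang _ hz'
    simp [jj_apply, hz'] at a1
    linarith only [a2, a1]
  · obtain ⟨e, a1, a2⟩ := both_pos b _ c0 (by
      have a3 := (hang y hz' (reg.imp (fun a => a.trans_le (min_le_left _ _))
        fun a => hR.trans a.le)).2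
      have a4 := ((gs _ (nk _ hξ.1 hξ.2)).differentiableAt (by simp)).hasFDerivAt.comp y
        ((prd _).comp y ((A.s2.differentiable (by simp) _).hasFDerivAt.comp y (jjd _)))
      rw [show (fun u => g ((amb1 D).G u)) = g ∘ pr ∘ D.Ξ' ∘ jj from rfl, a4.fderiv] at a3
      rw [hb', he0]
      have a5 : ((jj ((0 : ℝ × Ax m), Complex.I * y.2)).1.2.2 / (jj y).1.2.2).im = 1 := by
        simp [jj_apply, hz']
      rw [a5]
      exact a3) c1
    exact ⟨e, by rwa [hb] at a2, fun _ => a1⟩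

/-- The final statement from the Euclidean data. -/
theorem of_longData (hm : 5 ≤ m) (D : LongData m) :
    ∃ n : ℕ, 6 ≤ n ∧ ∃ (K : Sph n → Sph (n + 2)) (K' : Sph (n + 1) → Sph (n + 1 + 2)),
      IsKnot K ∧ IsKnot K' ∧ IsSpin K K' ∧ MN K' = 0 ∧ 0 < MN K :=
  transfer (by simpa using hm) _ _ (amb1 D).isLong (amb2 D).isLong (longSpin D) (longFib D) _
    (amb1 D).stdArg (not_weak D)

end Pool.Agent.Work.MP_e1e788_gt
end
end

-- merged part: Pool.Agent.Work.MP_e1e788_gt.MorseB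
section
/-! The Morse-Novikov number of a compactified long knot is finite. -/

open scoped Manifold ContDiff Topology
open Set Filter Metric

noncomputable section
namespace Pool.Agent.Work.MP_e1e788_gt

attribute [local instance] factEuc

theorem hess_comp {E W : Type} [NormedAddCommGroup E] [NormedSpace ℝ E] [NormedAddCommGroup W]
    [NormedSpace ℝ W] {h : W → ℝ} {w : W → W →L[ℝ] ℝ} {ψ : E → W} {u : E}
    (hψ : ContDiffAt ℝ ∞ ψ u) (hb : Function.Bijective (fderiv ℝ ψ u))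
    (hh : ∀ᶠ y in 𝓝 (ψ u), HasFDerivAt h (w y) y) (hw : DifferentiableAt ℝ w (ψ u))
    (h0 : w (ψ u) = 0) (hi : Function.Injective (fderiv ℝ w (ψ u))) (v : E)
    (hv : fderiv ℝ (fderiv ℝ (h ∘ ψ)) u v = 0) : v = 0 := by
  have two : ContDiffAt ℝ 2 ψ u :=
    hψ.of_le (WithTop.coe_le_coe.2 (le_top : ((2 : ℕ) : ℕ∞) ≤ ⊤))
  have d1 : ∀ᶠ z in 𝓝 u, DifferentiableAt ℝ ψ z :=
    (two.eventually (by simp)).mono fun z hz => hz.differentiableAt (by simp)
  have d2 : DifferentiableAt ℝ (fderiv ℝ ψ) u :=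
    (two.fderiv_right (m := 1) (by norm_num)).differentiableAt (by simp)
  have e : fderiv ℝ (h ∘ ψ) =ᶠ[𝓝 u] fun z => (w (ψ z)).comp (fderiv ℝ ψ z) := by
    filter_upwards [d1, hψ.continuousAt.eventually hh] with z a b
    exact (b.comp z a.hasFDerivAt).fderiv
  have d3 := (hw.hasFDerivAt.comp u d1.self_of_nhds.hasFDerivAt).clm_comp d2.hasFDerivAt
  rw [e.fderiv_eq, show (fun z => (w (ψ z)).comp (fderiv ℝ ψ z)) =
    fun z => ((w ∘ ψ) z).comp (fderiv ℝ ψ z) from rfl, d3.fderiv] at hv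
  apply hb.1
  apply hi
  rw [map_zero, map_zero]
  refine ContinuousLinearMap.ext fun x => ?_
  obtain ⟨x', rfl⟩ := hb.2 x
  have := congrArg (fun L : E →L[ℝ] ℝ => L x') hv
  simpa [h0] using this

theorem log_lift {W : Type} [NormedAddCommGroup W] [NormedSpace ℝ W] {F : W → ℂ} {y : W}
    (hF : ContDiffAt ℝ ∞ F y) (h0 : F y ≠ 0) :
    ∃ h : W → ℝ, ContDiffAt ℝ ∞ h y ∧ (∀ᶠ z in 𝓝 y, HasFDerivAt h (om F z) z) ∧
      ∀ᶠ z in 𝓝 y, Circle.exp (F z).arg = Circle.exp (h z) := by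
  have one : F y / F y ∈ Complex.slitPlane := by rw [div_self h0]; exact Complex.one_mem_slitPlane
  have sq : ContDiffAt ℝ ∞ (fun z => F z / F y) y := hF.div_const _
  have sl : ContDiffAt ℝ ∞ (fun z => Complex.log (F z / F y)) y :=
    ContDiffAt.comp (g := Complex.log) y ((Complex.contDiffAt_log one).restrict_scalars ℝ) sq
  have ev := sq.continuousAt.eventually (Complex.isOpen_slitPlane.mem_nhds one)
  have en := hF.continuousAt.eventually_ne h0
  have ed : ∀ᶠ z in 𝓝 y, DifferentiableAt ℝ F z :=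
    ((hF.of_le (m := 1) (by exact_mod_cast le_top)).eventually (by simp)).mono
      fun z hz => hz.differentiableAt (by simp)
  refine ⟨fun z => (F y).arg + (Complex.log (F z / F y)).im,
    contDiffAt_const.add (Complex.imCLM.contDiff.contDiffAt.comp y sl), ?_, ?_⟩
  · filter_upwards [ev, en, ed] with z a b c
    have d := (Complex.imCLM.hasFDerivAt.comp z
      (((Complex.hasDerivAt_log a).hasFDerivAt.restrictScalars ℝ).comp z
        (c.hasFDerivAt.mul_const (F y)⁻¹))).const_add (F y).arg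
    refine HasFDerivAt.congr_fderiv d (ContinuousLinearMap.ext fun v => ?_)
    rw [om_apply]
    simp only [ContinuousLinearMap.comp_apply, Complex.imCLM_apply]
    congr 1
    simp
    field_simp
  · filter_upwards [en] with z b
    apply Circle.ext
    rw [Circle.exp_add, Circle.coe_mul, Complex.log_im, exp_arg_coe b, exp_arg_coe h0,
      exp_arg_coe (div_ne_zero b h0), norm_div]
    have : (‖F y‖ : ℂ) ≠ 0 := by simpa using h0
    have : (‖F z‖ : ℂ) ≠ 0 := by simpa using b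
    push_cast
    field_simp

namespace Frame
variable {n : ℕ} {V : Type} [NormedAddCommGroup V] [NormedSpace ℝ V] (Fr : Frame n V)

theorem regular_arg {G : OpenPartialHomeomorph (V × ℂ) (V × ℂ)} (hG : IsLong G) {F : V × ℂ → ℂ}
    (hF : StdArg G F) :
    IsRegular (Fr.knot G) (fun s => Circle.exp (F (Fr.P₂.σ s)).arg) ∧
      ∀ s ∈ crit (Fr.knot G) (fun s => Circle.exp (F (Fr.P₂.σ s)).arg), om F (Fr.P₂.σ s) = 0 := by
  obtain ⟨δ, hδ, R, h⟩ := hF.std
  obtain ⟨ε, hε, ν, h1, h2, h3, h4⟩ := Fr.exists_tube hG hδ fun y a b => (h y a b).1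
  set f : Sph (n + 2) → Circle := fun s => Circle.exp (F (Fr.P₂.σ s)).arg with hf
  have hn : ∀ y ∉ knotL G, ContDiffAt ℝ ∞ (fun u => ‖F u‖) y := fun y hy =>
    (hF.smooth y hy).norm ℝ (hF.ne_zero y hy)
  have hs : ∀ s ∉ range (Fr.knot G), ContMDiffAt (𝓡 (n + 2)) (𝓡 1) ∞ f s := by
    intro s hs
    obtain ⟨a, b⟩ := Fr.not_mem_knot hs
    apply cmdAt_circle
    have h5 : ContDiffAt ℝ ∞ (fun u => F u / (‖F u‖ : ℂ)) (Fr.P₂.σ s) := by
      have := ((hn _ b).inv (norm_ne_zero_iff.2 (hF.ne_zero _ b))).smul (hF.smooth _ b)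
      refine this.congr_of_eventuallyEq (Eventually.of_forall fun u => ?_)
      simp [div_eq_inv_mul]
    refine (h5.comp_contMDiffAt (Fr.P₂.cmdAt_σ a)).congr_of_eventuallyEq ?_
    have h6 := ((hF.smooth _ b).continuousAt.comp (Fr.P₂.cmdAt_σ a).continuousAt).eventually_ne
      (hF.ne_zero _ b)
    filter_upwards [h6] with u hu using exp_arg_coe hu
  constructor
  · refine ⟨fun s h => (hs s h).contMDiffWithinAt, ν, h1, h3, fun x z hz hz1 => ?_⟩
    have a := Fr.tube_ne hε (q := (x, z)) hz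
    obtain ⟨c, hc, b⟩ := Fr.σ_tube hε a
    have b' : (Fr.P₂.σ (Fr.tube ε (x, z))).2 ≠ 0 := by
      rw [b]; exact mul_ne_zero (Complex.ofReal_ne_zero.2 hc.ne') hz
    obtain ⟨-, d, hd, e⟩ := h _ b' (h4 (x, z) hz1 a)
    have e' : F (Fr.P₂.σ (ν (x, z))) = ((d * c : ℝ) : ℂ) * z := by
      rw [h2, Fr.P₂.hat_ne _ a, Pole.σ_τ, e, b]; push_cast; ring
    have := mul_pos hd hc
    simp only [f]
    rw [e', exp_arg_coe (mul_ne_zero (Complex.ofReal_ne_zero.2 this.ne') hz),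
      div_norm_pos_mul this]
  · rintro s ⟨hs1, hs2⟩
    obtain ⟨a, b⟩ := Fr.not_mem_knot hs1
    refine ContinuousLinearMap.ext fun v => ?_
    set y := Fr.P₂.σ s with hy
    have e : Fr.P₂.τ y = s := Fr.P₂.τ_σ a
    have d1 : MDifferentiableAt (𝓡 (n + 2)) (𝓡 1) f (Fr.P₂.τ y) := by
      rw [e]; exact (hs s hs1).mdifferentiableAt (by simp)
    have d2 := (Fr.P₂.cmd_τ y).mdifferentiableAt (by simp)
    have d3 := (cmd_coe_circle (f (Fr.P₂.τ y))).mdifferentiableAt (by simp)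
    have d4 := d1.hasMFDerivAt
    rw [← e] at hs2
    rw [hs2] at d4
    have d5 := (d3.hasMFDerivAt.comp y (d4.comp y d2.hasMFDerivAt)).hasFDerivAt
    have d6 : HasFDerivAt (fun u => (f (Fr.P₂.τ u) : ℂ)) (0 : V × ℂ →L[ℝ] ℂ) y := by
      refine d5.congr_fderiv (ContinuousLinearMap.ext fun u => ?_)
      change mfderiv (𝓡 1) 𝓘(ℝ, ℂ) (fun z : Circle => (z : ℂ)) (f (Fr.P₂.τ y)) 0 = 0
      exact map_zero _
    have d7 := dlog (A := F) (c := fun u => ‖F u‖) (g := fun _ => 0) d6.differentiableAt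
      ((hn _ b).differentiableAt (by simp)) (differentiableAt_const _)
      (norm_ne_zero_iff.2 (hF.ne_zero _ b)) (Circle.coe_ne_zero _) (by
        filter_upwards with u
        simp only [f, Pole.σ_τ, Circle.coe_exp, Complex.norm_mul_exp_arg_mul_I]
        simp) v
    rw [d6.fderiv] at d7
    rw [om_apply]
    simpa using d7

theorem chart_σ {k : ℕ} {W : Type} [NormedAddCommGroup W] [NormedSpace ℝ W] (P : Pole k W)
    {s : Sph k} (hs : s ≠ P.pole) :
    ContDiffAt ℝ ∞ (P.σ ∘ (chartAt (Euc k) s).symm) (chartAt (Euc k) s s) ∧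
      Function.Bijective (fderiv ℝ (P.σ ∘ (chartAt (Euc k) s).symm) (chartAt (Euc k) s s)) := by
  set c := chartAt (Euc k) s with hc
  have hm : s ∈ c.source := mem_chart_source _ s
  have hl : c.symm (c s) = s := c.left_inv hm
  have c1 : ContMDiffAt (𝓡 k) (𝓡 k) ∞ c.symm (c s) :=
    (contMDiffOn_chart_symm (I := 𝓡 k) (x := s)).contMDiffAt
      (c.open_target.mem_nhds (c.map_source hm))
  have c2 : ContMDiffAt (𝓡 k) (𝓡 k) ∞ c s :=
    (contMDiffOn_chart (I := 𝓡 k) (x := s)).contMDiffAt (c.open_source.mem_nhds hm)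
  have s1 : ContDiffAt ℝ ∞ (P.σ ∘ c.symm) (c s) :=
    (ContMDiffAt.comp (c s) (by rw [hl]; exact P.cmdAt_σ hs) c1).contDiffAt
  have s2 : ContDiffAt ℝ ∞ (c ∘ P.τ) (P.σ s) :=
    (ContMDiffAt.comp (P.σ s) (by rw [P.τ_σ hs]; exact c2) (P.cmd_τ _)).contDiffAt
  have p1 : (P.σ ∘ c.symm) (c s) = P.σ s := by simp [hl]
  have p2 : (c ∘ P.τ) (P.σ s) = c s := by simp [P.τ_σ hs]
  have d1 := (s1.differentiableAt (by simp)).hasFDerivAt
  have d2 := (s2.differentiableAt (by simp)).hasFDerivAt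
  have e1 : (c ∘ P.τ) ∘ (P.σ ∘ c.symm) =ᶠ[𝓝 (c s)] id := by
    have : ∀ᶠ u in 𝓝 (c s), c.symm u ≠ P.pole :=
      c1.continuousAt.eventually_ne (by rw [hl]; exact hs)
    filter_upwards [this, c.open_target.mem_nhds (c.map_source hm)] with u a b
    simp [P.τ_σ a, c.right_inv b]
  have e2 : (P.σ ∘ c.symm) ∘ (c ∘ P.τ) =ᶠ[𝓝 (P.σ s)] id := by
    have : ∀ᶠ y in 𝓝 (P.σ s), P.τ y ∈ c.source :=
      (P.cmd_τ _).continuousAt.eventually (c.open_source.mem_nhds (by rw [P.τ_σ hs]; exact hm))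
    filter_upwards [this] with y a
    simp [c.left_inv a, P.σ_τ]
  have f1 := ((HasFDerivAt.comp (c s) (by rw [p1]; exact d2) d1).congr_of_eventuallyEq
    e1.symm).unique (hasFDerivAt_id _)
  have f2 := ((HasFDerivAt.comp (P.σ s) (by rw [p2]; exact d1) d2).congr_of_eventuallyEq
    e2.symm).unique (hasFDerivAt_id _)
  refine ⟨s1, Function.LeftInverse.injective (g := fderiv ℝ (c ∘ P.τ) (P.σ s))
    fun v => congrArg (fun L : Euc k →L[ℝ] Euc k => L v) f1,
    Function.RightInverse.surjective (g := fderiv ℝ (c ∘ P.τ) (P.σ s))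
    fun v => congrArg (fun L : W →L[ℝ] W => L v) f2⟩

theorem MN_lt_top [FiniteDimensional ℝ V] {G : OpenPartialHomeomorph (V × ℂ) (V × ℂ)}
    (hG : IsLong G) {F₀ : V × ℂ → ℂ} (hF₀ : StdArg G F₀) : MN (Fr.knot G) < ⊤ := by
  obtain ⟨F, hF, fin, inj⟩ := exists_morse hG hF₀
  obtain ⟨hreg, hc⟩ := Fr.regular_arg hG hF
  refine lt_of_le_of_lt (iInf_le_of_le ⟨_, hreg, fun s hs => ?_⟩ le_rfl) ?_
  · obtain ⟨a, b⟩ := Fr.not_mem_knot hs.1
    obtain ⟨h, h1, h2, h3⟩ := log_lift (hF.smooth _ b) (hF.ne_zero _ b)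
    obtain ⟨s1, s2⟩ := chart_σ Fr.P₂ a
    have p : (Fr.P₂.σ ∘ (chartAt (Euc (n + 2)) s).symm) (chartAt (Euc (n + 2)) s s) =
        Fr.P₂.σ s := by
      rw [Function.comp_apply, (chartAt (Euc (n + 2)) s).left_inv (mem_chart_source _ s)]
    refine ⟨h ∘ (Fr.P₂.σ ∘ (chartAt (Euc (n + 2)) s).symm),
      ContDiffAt.comp _ (by rw [p]; exact h1) s1,
      s1.continuousAt.eventually (p := fun z => Circle.exp (F z).arg = Circle.exp (h z))
        (by rw [p]; exact h3), ?_⟩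
    exact hess_comp (w := om F) s1 s2 (by rw [p]; exact h2)
      (by rw [p]; exact (om_smooth (hF.smooth _ b) (hF.ne_zero _ b)).differentiableAt (by simp))
      (by rw [p]; exact hc s hs) (by rw [p]; exact inj _ b (hc s hs))
  · refine ((fin.image Fr.P₂.τ).subset fun s hs => ?_).encard_lt_top
    obtain ⟨a, b⟩ := Fr.not_mem_knot hs.1
    exact ⟨_, ⟨b, hc s hs⟩, Fr.P₂.τ_σ a⟩

end Frame

theorem transfer' {U : Type} [NormedAddCommGroup U] [NormedSpace ℝ U] [FiniteDimensional ℝ U]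
    (hU : 5 ≤ Module.finrank ℝ U)
    (G : OpenPartialHomeomorph ((ℝ × U) × ℂ) ((ℝ × U) × ℂ))
    (G' : OpenPartialHomeomorph ((ℂ × U) × ℂ) ((ℂ × U) × ℂ))
    (hG : IsLong G) (hG' : IsLong G') (hs : LongSpin G G') (hf : LongFib G')
    (Φ : (ℝ × U) × ℂ → ℂ) (hΦ : StdArg G Φ) (hn : ¬ WeakFib G Φ) :
    ∃ n : ℕ, 6 ≤ n ∧ ∃ (K : Sph n → Sph (n + 2)) (K' : Sph (n + 1) → Sph (n + 1 + 2)),
      IsKnot K ∧ IsKnot K' ∧ IsSpin K K' ∧ MN K' = 0 ∧ 0 < MN K ∧ MN K < ⊤ := by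
  let e : U ≃L[ℝ] Euc (Module.finrank ℝ U) := ContinuousLinearEquiv.ofFinrankEq (by simp)
  obtain ⟨F, hF, -⟩ := id hf
  exact ⟨_, by omega, (fr e).knot G, (fr' e).knot G', (fr e).isKnot_knot hG hΦ,
    (fr' e).isKnot_knot hG' hF, isSpin_knot e hG hs, (fr' e).MN_knot hG' hf,
    pos_iff_ne_zero.2 fun h => hn ((fr e).weak_of_MN (by omega) hG hΦ h),
    (fr e).MN_lt_top hG hΦ⟩

theorem of_longData' {m : ℕ} (hm : 5 ≤ m) (D : SpunKnot.LongData m) :
    ∃ n : ℕ, 6 ≤ n ∧ ∃ (K : Sph n → Sph (n + 2)) (K' : Sph (n + 1) → Sph (n + 1 + 2)),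
      IsKnot K ∧ IsKnot K' ∧ IsSpin K K' ∧ MN K' = 0 ∧ 0 < MN K ∧ MN K < ⊤ :=
  transfer' (by simpa using hm) _ _ (amb1 D).isLong (amb2 D).isLong (longSpin D) (longFib D) _
    (amb1 D).stdArg (not_weak D)

end Pool.Agent.Work.MP_e1e788_gt
end
end
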