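import Mathlib

/-! Smooth flows of compactly supported time-dependent vector fields. -/

open Set Filter Topology

noncomputable section
namespace SpunKnot

namespace FlowAAux

universe u

section Post
variable {I : Type} [TopologicalSpace I] [CompactSpace I] {F E T : Type u}
  [NormedAddCommGroup F] [NormedSpace ℝ F] [NormedAddCommGroup E] [NormedSpace ℝ E]
  [NormedAddCommGroup T] [NormedSpace ℝ T]

/-- Pointwise application of a continuous bilinear map. -/
def lam (I : Type) [TopologicalSpace I] [CompactSpace I] (B : F →L[ℝ] E →L[ℝ] T) :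
    C(I, F) →L[ℝ] C(I, E) →L[ℝ] C(I, T) :=
  LinearMap.mkContinuous₂
    (LinearMap.mk₂ ℝ (fun (A : C(I, F)) (η : C(I, E)) =>
        (⟨fun t => B (A t) (η t), (B.continuous.comp A.continuous).clm_apply η.continuous⟩ :
          C(I, T)))
      (fun A B η => by ext t; simp) (fun c A η => by ext t; simp)
      (fun A η ζ => by ext t; simp) (fun c A η => by ext t; simp)) ‖B‖
    (fun A η => by
      refine (ContinuousMap.norm_le _ (by positivity)).2 fun t => ?_
      have h1 := A.norm_coe_le_norm t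
      have h2 := η.norm_coe_le_norm t
      refine (B.le_opNorm₂ (A t) (η t)).trans ?_
      gcongr)

theorem lam_apply (B : F →L[ℝ] E →L[ℝ] T) (A : C(I, F)) (η : C(I, E)) (t : I) :
    lam I B A η t = B (A t) (η t) := rfl

theorem hasFDerivAt_post (B : F →L[ℝ] E →L[ℝ] T) (hB : ∀ y, ‖B y‖ ≤ ‖y‖)
    (g : C(E, T)) (g' : C(E, F)) (h : ∀ x, HasFDerivAt g (B (g' x)) x) (γ : C(I, E)) :
    HasFDerivAt (fun γ : C(I, E) => g.comp γ) (lam I B (g'.comp γ)) γ := by
  rw [hasFDerivAt_iff_isLittleO_nhds_zero, Asymptotics.isLittleO_iff]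
  intro ε hε
  have hc : ContinuousAt (fun γ : C(I, E) => g'.comp γ) γ :=
    (ContinuousMap.continuous_postcomp g').continuousAt
  obtain ⟨δ, hδ, hδ'⟩ := (Metric.continuousAt_iff (α := C(I, E)) (β := C(I, F))).1 hc ε hε
  filter_upwards [Metric.ball_mem_nhds (0 : C(I, E)) hδ] with η hη
  rw [mem_ball_zero_iff] at hη
  refine (ContinuousMap.norm_le _ (by positivity)).2 fun t => ?_
  have hb : ∀ y ∈ Metric.ball (γ t) δ, ‖B (g' y) - B (g' (γ t))‖ ≤ ε := by
    intro y hy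
    have h1 : dist (γ + ContinuousMap.const I (y - γ t)) γ < δ := by
      rw [dist_eq_norm, add_sub_cancel_left]
      refine lt_of_le_of_lt ((ContinuousMap.norm_le _ (norm_nonneg (y - γ t))).2 fun s => ?_) ?_
      · simp
      · rwa [← dist_eq_norm]
    have h2 := hδ' h1
    rw [dist_eq_norm] at h2
    have h3 := (ContinuousMap.norm_coe_le_norm _ t).trans h2.le
    rw [← map_sub]
    refine (hB _).trans ?_
    simpa using h3
  have hm : γ t + η t ∈ Metric.ball (γ t) δ := by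
    rw [mem_ball_iff_norm, add_sub_cancel_left]
    exact (η.norm_coe_le_norm t).trans_lt hη
  have key := (convex_ball (γ t) δ).norm_image_sub_le_of_norm_hasFDerivWithin_le'
    (f := g) (f' := fun y => B (g' y)) (φ := B (g' (γ t))) (fun x _ => (h x).hasFDerivWithinAt) hb
    (Metric.mem_ball_self hδ) hm
  rw [add_sub_cancel_left] at key
  refine le_trans ?_ (key.trans (mul_le_mul_of_nonneg_left (η.norm_coe_le_norm t) hε.le))
  simp [lam_apply]

theorem contDiff_post_succ {n : ℕ} (B : F →L[ℝ] E →L[ℝ] T) (hB : ∀ y, ‖B y‖ ≤ ‖y‖)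
    (g : C(E, T)) (g' : E → F) (hg' : Continuous g') (h : ∀ x, HasFDerivAt g (B (g' x)) x)
    (h1 : ContDiff ℝ n (fun γ : C(I, E) => (⟨g', hg'⟩ : C(E, F)).comp γ)) :
    ContDiff ℝ (n + 1) (fun γ : C(I, E) => g.comp γ) :=
  contDiff_succ_iff_hasFDerivAt.2 ⟨fun γ => lam I B ((⟨g', hg'⟩ : C(E, F)).comp γ),
    (lam I B).contDiff.comp h1, fun γ => hasFDerivAt_post B hB g ⟨g', hg'⟩ h γ⟩

end Post

theorem contDiff_post_nat {I : Type} [TopologicalSpace I] [CompactSpace I] {E : Type u}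
    [NormedAddCommGroup E] [NormedSpace ℝ E] (n : ℕ) :
    ∀ {T : Type u} [NormedAddCommGroup T] [NormedSpace ℝ T] (g : C(E, T)),
      ContDiff ℝ n g → ContDiff ℝ n (fun γ : C(I, E) => g.comp γ) := by
  induction n with
  | zero =>
    intro T _ _ g _
    simpa using ContinuousMap.continuous_postcomp g
  | succ n ih =>
    intro T _ _ g hg
    obtain ⟨g', hg', hd⟩ := contDiff_succ_iff_hasFDerivAt.1 (by exact_mod_cast hg)
    have h2 := contDiff_post_succ (I := I) (F := E →L[ℝ] T) (n := n)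
      (ContinuousLinearMap.id ℝ (E →L[ℝ] T)) (fun y => le_rfl) g g' hg'.continuous hd
      (ih (T := E →L[ℝ] T) ⟨g', hg'.continuous⟩ hg')
    exact_mod_cast h2

theorem contDiff_post {I : Type} [TopologicalSpace I] [CompactSpace I] {E T : Type u}
    [NormedAddCommGroup E] [NormedSpace ℝ E] [NormedAddCommGroup T] [NormedSpace ℝ T]
    (g : C(E, T)) (hg : ContDiff ℝ (⊤ : ℕ∞) g) :
    ContDiff ℝ (⊤ : ℕ∞) (fun γ : C(I, E) => g.comp γ) :=
  contDiff_infty.2 fun n => contDiff_post_nat n g (contDiff_infty.1 hg n)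

/-- A smooth contraction has a smooth family of perturbed fixed points. -/
theorem smooth_fixed {X : Type u} [NormedAddCommGroup X] [NormedSpace ℝ X] [CompleteSpace X]
    {T : X → X} (hT : ContDiff ℝ (⊤ : ℕ∞) T) (hL : LipschitzWith (1 / 2) T) :
    ∃ Γ : X → X, ContDiff ℝ (⊤ : ℕ∞) Γ ∧ ∀ y, Γ y = y + T (Γ y) := by
  have hA : ApproximatesLinearOn (fun x => x - T x)
      ((ContinuousLinearEquiv.refl ℝ X : X ≃L[ℝ] X) : X →L[ℝ] X) univ (1 / 2) := by
    intro x _ y _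
    have := hL.norm_sub_le y x
    rw [norm_sub_rev y x] at this
    have h2 : x - T x - (y - T y) - (x - y) = T y - T x := by abel
    simpa [h2] using this
  have hc : Subsingleton X ∨ (1 / 2 : NNReal) <
      ‖((ContinuousLinearEquiv.refl ℝ X).symm : X →L[ℝ] X)‖₊⁻¹ := by
    rcases subsingleton_or_nontrivial X with h | h
    · exact Or.inl h
    · right
      simp only [ContinuousLinearEquiv.refl_symm, ContinuousLinearEquiv.coe_refl,
        ContinuousLinearMap.nnnorm_id, inv_one]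
      norm_num
  let Ψ := hA.toHomeomorph _ hc
  have hΨ : (Ψ : X → X) = fun x => x - T x := rfl
  have hn : ∀ a, ‖fderiv ℝ T a‖ < 1 := fun a =>
    (norm_fderiv_le_of_lipschitz ℝ hL).trans_lt (by norm_num)
  refine ⟨Ψ.symm, Ψ.contDiff_symm
    (f₀' := fun a => ContinuousLinearEquiv.ofUnit (Units.oneSub (fderiv ℝ T a) (hn a)))
    (fun a => ?_) (by rw [hΨ]; exact contDiff_id.sub hT), fun y => ?_⟩
  · rw [hΨ]
    have h1 : HasFDerivAt T (fderiv ℝ T a) a :=
      (hT.differentiable (by simp)).differentiableAt.hasFDerivAt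
    exact (hasFDerivAt_id a).sub h1
  · have : Ψ (Ψ.symm y) = y := Ψ.apply_symm_apply y
    rw [hΨ] at this
    simp only at this
    rw [← sub_eq_iff_eq_add]
    exact this

variable {S : Type u} [NormedAddCommGroup S] [NormedSpace ℝ S]

/-- The weighted integrand. -/
def wt (l : ℝ) (ζ : C(Icc (0 : ℝ) 1, S)) (s : ℝ) : S :=
  Real.exp (l * s) • ζ (projIcc 0 1 zero_le_one s)

theorem continuous_wt (l : ℝ) (ζ : C(Icc (0 : ℝ) 1, S)) : Continuous (wt l ζ) := by
  unfold wt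
  exact (by fun_prop : Continuous fun s : ℝ => Real.exp (l * s)).smul
    (ζ.continuous.comp continuous_projIcc)

/-- The weighted Volterra operator. -/
def volt [CompleteSpace S] (l : ℝ) (hl : 0 < l) : C(Icc (0 : ℝ) 1, S) →L[ℝ] C(Icc (0 : ℝ) 1, S) :=
  LinearMap.mkContinuous
    { toFun := fun ζ => ⟨fun t => Real.exp (-(l * t)) • ∫ s in (0 : ℝ)..t, wt l ζ s, by
        refine (by fun_prop : Continuous fun t : Icc (0 : ℝ) 1 => Real.exp (-(l * t))).smul ?_
        exact (intervalIntegral.continuous_primitive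
          (fun a b => (continuous_wt l ζ).intervalIntegrable a b) 0).comp continuous_subtype_val⟩
      map_add' := fun ζ η => by
        ext t
        have : wt l (ζ + η) = fun s => wt l ζ s + wt l η s := by
          funext s; simp [wt]
        simp only [ContinuousMap.coe_mk, ContinuousMap.add_apply, this]
        rw [intervalIntegral.integral_add ((continuous_wt l ζ).intervalIntegrable _ _)
          ((continuous_wt l η).intervalIntegrable _ _), smul_add]
      map_smul' := fun c ζ => by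
        ext t
        have : wt l (c • ζ) = fun s => c • wt l ζ s := by
          funext s; simp [wt, smul_comm c]
        simp only [ContinuousMap.coe_mk, ContinuousMap.smul_apply, this, RingHom.id_apply]
        rw [intervalIntegral.integral_smul, smul_comm] } (1 / l)
    (fun ζ => by
      refine (ContinuousMap.norm_le _ (by positivity)).2 fun t => ?_
      simp only [LinearMap.coe_mk, AddHom.coe_mk, ContinuousMap.coe_mk]
      have h1 : ‖∫ s in (0 : ℝ)..t, wt l ζ s‖ ≤ ∫ s in (0 : ℝ)..t, Real.exp (l * s) * ‖ζ‖ := by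
        refine intervalIntegral.norm_integral_le_of_norm_le t.2.1 (Eventually.of_forall ?_) ?_
        · intro s _
          rw [wt, norm_smul, Real.norm_eq_abs, abs_of_pos (Real.exp_pos _)]
          exact mul_le_mul_of_nonneg_left (ζ.norm_coe_le_norm _) (Real.exp_pos _).le
        · exact (by fun_prop : Continuous fun s : ℝ =>
            Real.exp (l * s) * ‖ζ‖).intervalIntegrable _ _
      have h2 : ∫ s in (0 : ℝ)..t, Real.exp (l * s) * ‖ζ‖
          = (Real.exp (l * t) - 1) / l * ‖ζ‖ := by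
        rw [intervalIntegral.integral_mul_const]
        congr 1
        rw [intervalIntegral.integral_comp_mul_left (fun x => Real.exp x) hl.ne', integral_exp]
        simp [div_eq_inv_mul]
      rw [norm_smul, Real.norm_eq_abs, abs_of_pos (Real.exp_pos _)]
      refine (mul_le_mul_of_nonneg_left (h1.trans h2.le) (Real.exp_pos _).le).trans ?_
      rw [← mul_assoc]
      refine mul_le_mul_of_nonneg_right ?_ (norm_nonneg _)
      have h3 : Real.exp (-(l * t)) * Real.exp (l * t) = 1 := by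
        rw [← Real.exp_add]; simp
      have h4 := Real.exp_pos (-(l * t))
      rw [← mul_div_assoc, mul_sub, h3]
      gcongr
      linarith)

theorem volt_apply [CompleteSpace S] (l : ℝ) (hl : 0 < l) (ζ : C(Icc (0 : ℝ) 1, S))
    (t : Icc (0 : ℝ) 1) :
    volt l hl ζ t = Real.exp (-(l * t)) • ∫ s in (0 : ℝ)..t, wt l ζ s := rfl

theorem norm_volt_le [CompleteSpace S] (l : ℝ) (hl : 0 < l) (ζ : C(Icc (0 : ℝ) 1, S)) :
    ‖volt (S := S) l hl ζ‖ ≤ 1 / l * ‖ζ‖ :=
  ContinuousLinearMap.le_of_opNorm_le (E := C(Icc (0 : ℝ) 1, S)) (F := C(Icc (0 : ℝ) 1, S)) _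
    (LinearMap.mkContinuous_norm_le _ (by positivity) _) ζ

/-- The rescaled field along a path. -/
def nem {v : ℝ × S → S} (hv : Continuous v) (l : ℝ) (η : C(Icc (0 : ℝ) 1, S)) :
    C(Icc (0 : ℝ) 1, S) :=
  ⟨fun t => Real.exp (-(l * t)) • v (t, Real.exp (l * t) • η t), by fun_prop⟩

theorem nem_apply {v : ℝ × S → S} (hv : Continuous v) (l : ℝ) (η : C(Icc (0 : ℝ) 1, S))
    (t : Icc (0 : ℝ) 1) :
    nem hv l η t = Real.exp (-(l * t)) • v (t, Real.exp (l * t) • η t) := rfl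

theorem contDiff_nem {v : ℝ × S → S} (hv : ContDiff ℝ (⊤ : ℕ∞) v) (l : ℝ) :
    ContDiff ℝ (⊤ : ℕ∞) (nem hv.continuous l) := by
  have hf : ContDiff ℝ (⊤ : ℕ∞) fun p : ℝ × S =>
      Real.exp (-(l * p.1)) • v (p.1, Real.exp (l * p.1) • p.2) := by
    refine ContDiff.smul (by fun_prop) (hv.comp (contDiff_fst.prodMk ?_))
    exact ContDiff.smul (by fun_prop) contDiff_snd
  have h1 := contDiff_post (I := Icc (0 : ℝ) 1) (E := ℝ × S) (T := S) ⟨_, hf.continuous⟩ hf
  have h2 : ContDiff ℝ (⊤ : ℕ∞) fun η : C(Icc (0 : ℝ) 1, S) =>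
      (⟨fun t => ((t : ℝ), 0), by fun_prop⟩ : C(Icc (0 : ℝ) 1, ℝ × S)) +
        (ContinuousLinearMap.inr ℝ ℝ S).compLeftContinuous ℝ (Icc (0 : ℝ) 1) η :=
    contDiff_const.add (ContinuousLinearMap.contDiff (E := C(Icc (0 : ℝ) 1, S))
      (F := C(Icc (0 : ℝ) 1, ℝ × S)) _)
  convert h1.comp h2 using 1
  funext η
  ext t
  simp [nem_apply]

theorem lip_nem {v : ℝ × S → S} (hv : Continuous v) (l : ℝ) {K : NNReal}
    (hK : ∀ s ∈ Icc (0 : ℝ) 1, LipschitzWith K fun x => v (s, x)) (η ζ : C(Icc (0 : ℝ) 1, S)) :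
    ‖nem hv l η - nem hv l ζ‖ ≤ K * ‖η - ζ‖ := by
  refine (ContinuousMap.norm_le _ (by positivity)).2 fun t => ?_
  rw [ContinuousMap.sub_apply, nem_apply, nem_apply, ← smul_sub, norm_smul, Real.norm_eq_abs,
    abs_of_pos (Real.exp_pos _)]
  have h1 := (hK t t.2).norm_sub_le (Real.exp (l * t) • η t) (Real.exp (l * t) • ζ t)
  rw [← smul_sub, norm_smul, Real.norm_eq_abs, abs_of_pos (Real.exp_pos _)] at h1
  refine (mul_le_mul_of_nonneg_left h1 (Real.exp_pos _).le).trans ?_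
  have h3 : Real.exp (-(l * t)) * Real.exp (l * t) = 1 := by
    rw [← Real.exp_add]; simp
  have h4 : ‖η t - ζ t‖ ≤ ‖η - ζ‖ := (η - ζ).norm_coe_le_norm t
  calc Real.exp (-(l * t)) * (K * (Real.exp (l * t) * ‖η t - ζ t‖))
      = (Real.exp (-(l * t)) * Real.exp (l * t)) * (K * ‖η t - ζ t‖) := by ring
    _ ≤ K * ‖η - ζ‖ := by rw [h3, one_mul]; gcongr

/-- The free evolution of an initial value. -/
def free (l : ℝ) : S →L[ℝ] C(Icc (0 : ℝ) 1, S) :=
  LinearMap.mkContinuous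
    { toFun := fun x => ⟨fun t => Real.exp (-(l * t)) • x, by fun_prop⟩
      map_add' := fun x y => by ext t; simp
      map_smul' := fun c x => by ext t; simp [smul_comm c] } (Real.exp |l|)
    (fun x => by
      refine (ContinuousMap.norm_le _ (by positivity)).2 fun t => ?_
      simp only [LinearMap.coe_mk, AddHom.coe_mk, ContinuousMap.coe_mk]
      rw [norm_smul, Real.norm_eq_abs, abs_of_pos (Real.exp_pos _)]
      gcongr
      have h1 := t.2.1
      have h2 := t.2.2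
      have h3 := neg_abs_le l
      have h4 := abs_nonneg l
      nlinarith)

theorem free_apply (l : ℝ) (x : S) (t : Icc (0 : ℝ) 1) :
    free l x t = Real.exp (-(l * t)) • x := rfl

theorem exists_fix [CompleteSpace S] {v : ℝ × S → S} (hv : ContDiff ℝ (⊤ : ℕ∞) v) {K : NNReal}
    (hK : ∀ s ∈ Icc (0 : ℝ) 1, LipschitzWith K fun x => v (s, x)) {l : ℝ} (hl : 0 < l)
    (hlK : 2 * (K : ℝ) ≤ l) :
    ∃ Γ : C(Icc (0 : ℝ) 1, S) → C(Icc (0 : ℝ) 1, S), ContDiff ℝ (⊤ : ℕ∞) Γ ∧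
      ∀ y, Γ y = y + volt (S := S) l hl (nem hv.continuous l (Γ y)) := by
  refine smooth_fixed (X := C(Icc (0 : ℝ) 1, S))
    (T := fun η => volt (S := S) l hl (nem hv.continuous l η))
    ((ContinuousLinearMap.contDiff (E := C(Icc (0 : ℝ) 1, S))
      (F := C(Icc (0 : ℝ) 1, S)) (volt (S := S) l hl)).comp (contDiff_nem hv l)) ?_
  refine LipschitzWith.of_dist_le_mul fun η ζ => ?_
  rw [dist_eq_norm, dist_eq_norm, ← map_sub]
  refine (norm_volt_le l hl _).trans ?_
  have h1 := lip_nem hv.continuous l hK η ζ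
  have h2 : (1 / l) * K ≤ 1 / 2 := by
    rw [div_mul_eq_mul_div, div_le_div_iff₀ hl (by norm_num)]
    linarith
  calc (1 / l) * ‖nem hv.continuous l η - nem hv.continuous l ζ‖ ≤ (1 / l) * (K * ‖η - ζ‖) := by
        gcongr
    _ = ((1 / l) * K) * ‖η - ζ‖ := by ring
    _ ≤ (1 / 2) * ‖η - ζ‖ := by gcongr
    _ = _ := by simp

/-- Time-one map of a smooth field that is uniformly Lipschitz in space. -/
theorem core [CompleteSpace S] {v : ℝ × S → S} (hv : ContDiff ℝ (⊤ : ℕ∞) v) {K : NNReal}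
    (hK : ∀ s ∈ Icc (0 : ℝ) 1, LipschitzWith K fun x => v (s, x)) :
    ∃ Ξ : S → S, ContDiff ℝ (⊤ : ℕ∞) Ξ ∧ ∀ x, ∃ γ : ℝ → S, γ 0 = x ∧ γ 1 = Ξ x ∧
      ∀ s ∈ Icc (0 : ℝ) 1, HasDerivAt γ (v (s, γ s)) s := by
  obtain ⟨l, hl, hlK⟩ : ∃ l : ℝ, 0 < l ∧ 2 * (K : ℝ) ≤ l :=
    ⟨2 * K + 1, by positivity, by linarith⟩
  obtain ⟨Γ, hΓ, hfix⟩ := exists_fix hv hK hl hlK
  refine ⟨fun x => Real.exp l • Γ (free l x) ⟨1, zero_le_one, le_rfl⟩, ?_, fun x => ?_⟩
  · have h1 : ContDiff ℝ (⊤ : ℕ∞) fun η : C(Icc (0 : ℝ) 1, S) => η ⟨1, zero_le_one, le_rfl⟩ :=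
      ContinuousLinearMap.contDiff (E := C(Icc (0 : ℝ) 1, S)) (F := S)
        (ContinuousMap.evalCLM ℝ (⟨1, zero_le_one, le_rfl⟩ : Icc (0 : ℝ) 1))
    have h2 : ContDiff ℝ (⊤ : ℕ∞) fun x : S => free l x :=
      ContinuousLinearMap.contDiff (E := S) (F := C(Icc (0 : ℝ) 1, S)) (free l)
    exact ContDiff.const_smul _ (h1.comp (hΓ.comp h2))
  · obtain ⟨η, hη⟩ : ∃ η, η = Γ (free l x) := ⟨_, rfl⟩
    have hf := hfix (free l x)
    simp only [← hη] at hf ⊢
    have hγ : ∀ t : Icc (0 : ℝ) 1,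
        x + ∫ s in (0 : ℝ)..t, wt l (nem hv.continuous l η) s = Real.exp (l * t) • η t := by
      intro t
      have h1 : η t = free l x t + volt (S := S) l hl (nem hv.continuous l η) t := by
        rw [← ContinuousMap.add_apply, ← hf]
      rw [h1, free_apply, volt_apply, ← smul_add, smul_smul, ← Real.exp_add]
      simp
    refine ⟨fun t => x + ∫ s in (0 : ℝ)..t, wt l (nem hv.continuous l η) s, by simp, ?_,
      fun s hs => ?_⟩
    · have := hγ ⟨1, zero_le_one, le_rfl⟩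
      simpa using this
    · have h1 := ((continuous_wt l (nem hv.continuous l η)).integral_hasStrictDerivAt
        0 s).hasDerivAt.const_add x
      have h2 := hγ ⟨s, hs⟩
      have h3 : wt l (nem hv.continuous l η) s =
          v (s, x + ∫ s in (0 : ℝ)..s, wt l (nem hv.continuous l η) s) := by
        rw [h2, wt, projIcc_of_mem _ hs, nem_apply, smul_smul, ← Real.exp_add]
        simp
      rw [h3] at h1
      exact h1

theorem unique {v : ℝ × S → S} {K : NNReal}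
    (hK : ∀ s ∈ Icc (0 : ℝ) 1, LipschitzWith K fun x => v (s, x)) {γ δ : ℝ → S}
    (hγ : ∀ s ∈ Icc (0 : ℝ) 1, HasDerivAt γ (v (s, γ s)) s)
    (hδ : ∀ s ∈ Icc (0 : ℝ) 1, HasDerivAt δ (v (s, δ s)) s) (h : γ 0 = δ 0) : γ 1 = δ 1 :=
  ODE_solution_unique_of_mem_Icc_right (v := fun s x => v (s, x)) (s := fun _ => univ) (K := K)
    (fun t ht => (hK t (Ico_subset_Icc_self ht)).lipschitzOnWith)
    (fun t ht => (hγ t ht).continuousAt.continuousWithinAt)
    (fun t ht => (hγ t (Ico_subset_Icc_self ht)).hasDerivWithinAt) (fun _ _ => mem_univ _)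
    (fun t ht => (hδ t ht).continuousAt.continuousWithinAt)
    (fun t ht => (hδ t (Ico_subset_Icc_self ht)).hasDerivWithinAt) (fun _ _ => mem_univ _) h
    ⟨zero_le_one, le_rfl⟩

theorem left_inv {v w : ℝ × S → S} (hvw : ∀ s x, w (s, x) = -v (1 - s, x)) {K : NNReal}
    (hK : ∀ s ∈ Icc (0 : ℝ) 1, LipschitzWith K fun x => w (s, x)) {Ξ Ξ' : S → S}
    (h1 : ∀ x, ∃ γ : ℝ → S, γ 0 = x ∧ γ 1 = Ξ x ∧
      ∀ s ∈ Icc (0 : ℝ) 1, HasDerivAt γ (v (s, γ s)) s)
    (h2 : ∀ x, ∃ γ : ℝ → S, γ 0 = x ∧ γ 1 = Ξ' x ∧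
      ∀ s ∈ Icc (0 : ℝ) 1, HasDerivAt γ (w (s, γ s)) s) (x : S) : Ξ' (Ξ x) = x := by
  obtain ⟨γ, g0, g1, hγ⟩ := h1 x
  obtain ⟨δ, d0, d1, hδ⟩ := h2 (Ξ x)
  have hr : ∀ s ∈ Icc (0 : ℝ) 1,
      HasDerivAt (fun t => γ (1 - t)) (w (s, (fun t => γ (1 - t)) s)) s := by
    intro s hs
    have h3 := hγ (1 - s) ⟨by linarith [hs.2], by linarith [hs.1]⟩
    have h4 : HasDerivAt (fun t : ℝ => 1 - t) (-1) s := by
      simpa using (hasDerivAt_id s).const_sub 1
    have h5 := h3.scomp s h4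
    rw [hvw]
    simpa [Function.comp_def] using h5
  have := unique hK hδ hr (by simp [d0, g1])
  simpa [d1, g0] using this

theorem exists_lip {v : ℝ × S → S} (hv : ContDiff ℝ (⊤ : ℕ∞) v) {C : Set S}
    (hC : IsCompact C) (h0 : ∀ s, ∀ x ∉ C, v (s, x) = 0) :
    ∃ K : NNReal, ∀ s ∈ Icc (0 : ℝ) 1, LipschitzWith K fun x => v (s, x) := by
  have hd : Differentiable ℝ v := hv.differentiable (by simp)
  have hc : Continuous (fderiv ℝ v) := hv.continuous_fderiv (by simp)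
  obtain ⟨M, hM⟩ := ((isCompact_Icc (a := (0 : ℝ)) (b := 1)).prod hC).exists_bound_of_continuousOn
    hc.continuousOn
  refine ⟨⟨max M 0, le_max_right _ _⟩, fun s hs => ?_⟩
  have hds : ∀ x, HasFDerivAt (fun x => v (s, x))
      ((fderiv ℝ v (s, x)).comp (ContinuousLinearMap.inr ℝ ℝ S)) x := fun x =>
    (hd (s, x)).hasFDerivAt.comp x (hasFDerivAt_prodMk_right s x)
  refine lipschitzWith_of_nnnorm_fderiv_le (𝕜 := ℝ) (fun x => (hds x).differentiableAt) fun x => ?_
  change ‖fderiv ℝ (fun x => v (s, x)) x‖ ≤ max M 0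
  by_cases hx : x ∈ C
  · rw [(hds x).fderiv]
    refine (ContinuousLinearMap.opNorm_le_bound _ (le_max_right _ _) fun y => ?_)
    rw [ContinuousLinearMap.comp_apply]
    refine ((fderiv ℝ v (s, x)).le_opNorm _).trans ?_
    have h1 : ‖(ContinuousLinearMap.inr ℝ ℝ S) y‖ = ‖y‖ := by simp [Prod.norm_def]
    rw [h1]
    exact mul_le_mul_of_nonneg_right ((hM (s, x) ⟨hs, hx⟩).trans (le_max_left _ _)) (norm_nonneg _)
  · have : (fun x => v (s, x)) =ᶠ[𝓝 x] fun _ => 0 := by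
      filter_upwards [hC.isClosed.isOpen_compl.mem_nhds hx] with y hy using h0 s y hy
    rw [this.fderiv_eq]
    simp

end FlowAAux

variable {S : Type*} [NormedAddCommGroup S] [NormedSpace ℝ S] [FiniteDimensional ℝ S]

theorem exists_smooth_flow {v : ℝ × S → S} (hv : ContDiff ℝ (⊤ : ℕ∞) v) {C : Set S}
    (hC : IsCompact C) (h0 : ∀ s, ∀ x ∉ C, v (s, x) = 0) :
    ∃ Ξ Ξ' : S → S, ContDiff ℝ (⊤ : ℕ∞) Ξ ∧ ContDiff ℝ (⊤ : ℕ∞) Ξ' ∧ (∀ x, Ξ' (Ξ x) = x) ∧
      (∀ x, Ξ (Ξ' x) = x) ∧ (∀ x ∉ C, Ξ x = x) ∧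
      ∀ x, ∃ γ : ℝ → S, γ 0 = x ∧ γ 1 = Ξ x ∧
        ∀ s ∈ Icc (0 : ℝ) 1, HasDerivWithinAt γ (v (s, γ s)) (Icc 0 1) s := by
  have : CompleteSpace S := FiniteDimensional.complete ℝ S
  obtain ⟨K, hK⟩ := FlowAAux.exists_lip hv hC h0
  let w : ℝ × S → S := fun p => -v (1 - p.1, p.2)
  have hw : ContDiff ℝ (⊤ : ℕ∞) w :=
    (hv.comp ((contDiff_const.sub contDiff_fst).prodMk contDiff_snd)).neg
  have hKw : ∀ s ∈ Icc (0 : ℝ) 1, LipschitzWith K fun x => w (s, x) := fun s hs =>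
    (hK (1 - s) ⟨by linarith [hs.2], by linarith [hs.1]⟩).neg
  obtain ⟨Ξ, hΞ, h1⟩ := FlowAAux.core hv hK
  obtain ⟨Ξ', hΞ', h2⟩ := FlowAAux.core hw hKw
  refine ⟨Ξ, Ξ', hΞ, hΞ', FlowAAux.left_inv (v := v) (w := w) (fun _ _ => rfl) hKw h1 h2,
    FlowAAux.left_inv (v := w) (w := v) (fun s x => by simp [w]) hK h2 h1, fun x hx => ?_,
    fun x => ?_⟩
  · obtain ⟨γ, g0, g1, hγ⟩ := h1 x
    have := FlowAAux.unique hK hγ (δ := fun _ => x)
      (fun s _ => by rw [h0 s x hx]; exact hasDerivAt_const s x) g0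
    rw [← g1, this]
  · obtain ⟨γ, g0, g1, hγ⟩ := h1 x
    exact ⟨γ, g0, g1, fun s hs => (hγ s hs).hasDerivWithinAt⟩

end SpunKnot
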