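import Pool.Agent.Work.MP_e1e788_gt.Flag

-- merged part: Pool.Agent.Work.MP_e1e788_gt.AlgA
section
/-! Torsion norm: uniqueness, unit form, base change, transport. -/

open Set Matrix
open scoped Classical

noncomputable section
namespace SpunKnot

namespace AlgAAux
variable {R : Type*} [CommRing R] {β : Type*} [Fintype β] [DecidableEq β]

theorem mul_ne {l m n : Type*} [Fintype m] {X : Matrix l m R} {Y : Matrix m n R} {a : l} {b : n}
    (h : (X * Y) a b ≠ 0) : ∃ c, X a c ≠ 0 ∧ Y c b ≠ 0 := by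
  rw [Matrix.mul_apply] at h
  obtain ⟨c, -, hc⟩ := Finset.exists_ne_zero_of_sum_ne_zero h
  exact ⟨c, left_ne_zero_of_mul hc, right_ne_zero_of_mul hc⟩

/-- supported on `S`, homogeneous of degree `n` -/
def Dg (deg : β → ℕ) (S : Set β) (n : ℤ) (X : Matrix β β R) : Prop :=
  ∀ a b, X a b ≠ 0 → a ∈ S ∧ b ∈ S ∧ (deg a : ℤ) = deg b + n

/-- strictly raising the degree -/
def Up (deg : β → ℕ) (X : Matrix β β R) : Prop := ∀ a b, X a b ≠ 0 → deg b < deg a

/-- supported on `S`, changing the parity -/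
def Par (deg : β → ℕ) (S : Set β) (X : Matrix β β R) : Prop :=
  ∀ a b, X a b ≠ 0 → a ∈ S ∧ b ∈ S ∧ (Odd (deg a) ↔ ¬ Odd (deg b))

variable {deg : β → ℕ} {S : Set β} {X Y : Matrix β β R} {m n : ℤ}

omit [DecidableEq β] in
theorem Dg.mul (hX : Dg deg S m X) (hY : Dg deg S n Y) : Dg deg S (m + n) (X * Y) := by
  intro a b h
  obtain ⟨c, h1, h2⟩ := mul_ne h
  obtain ⟨h3, -, h4⟩ := hX _ _ h1
  obtain ⟨-, h5, h6⟩ := hY _ _ h2
  exact ⟨h3, h5, by omega⟩

omit [Fintype β] [DecidableEq β] in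
theorem Dg.sub (hX : Dg deg S m X) (hY : Dg deg S m Y) : Dg deg S m (X - Y) := by
  intro a b h
  by_cases h1 : X a b = 0
  · exact hY a b fun h2 => h (by rw [Matrix.sub_apply, h1, h2, sub_zero])
  · exact hX a b h1

omit [Fintype β] [DecidableEq β] in
theorem Dg.up (hX : Dg deg S m X) (hm : 0 < m) : Up deg X := fun a b h => by
  have := (hX a b h).2.2
  omega

omit [Fintype β] [DecidableEq β] in
theorem Up.add (hX : Up deg X) (hY : Up deg Y) : Up deg (X + Y) := by
  intro a b h
  by_cases h1 : X a b = 0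
  · exact hY a b fun h2 => h (by rw [Matrix.add_apply, h1, h2, add_zero])
  · exact hX a b h1

omit [Fintype β] [DecidableEq β] in
theorem par_add (hX : Dg deg S (-1) X) (hY : Dg deg S 1 Y) : Par deg S (X + Y) := by
  intro a b h
  by_cases h1 : X a b = 0
  · obtain ⟨h2, h3, h4⟩ := hY a b fun h2 => h (by rw [Matrix.add_apply, h1, h2, add_zero])
    refine ⟨h2, h3, ?_⟩
    rw [Nat.odd_iff, Nat.odd_iff]
    omega
  · obtain ⟨h2, h3, h4⟩ := hX a b h1
    refine ⟨h2, h3, ?_⟩
    rw [Nat.odd_iff, Nat.odd_iff]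
    omega

omit [Fintype β] [DecidableEq β] in
theorem res_ne {d : Matrix β β R} {a b : β} (h : res d S a b ≠ 0) :
    a ∈ S ∧ b ∈ S ∧ d a b ≠ 0 := by
  unfold res at h
  split_ifs at h with h1
  · exact ⟨h1.1, h1.2, h⟩
  · exact absurd rfl h

theorem dg_res {d : Matrix β β R} (h : IsCx d deg S) : Dg deg S (-1) (res d S) := by
  intro a b hab
  obtain ⟨h1, h2, h3⟩ := res_ne hab
  have := h.dg a h1 b h2 h3
  exact ⟨h1, h2, by omega⟩

theorem prj_mul {n : Type*} {X : Matrix β n R} (h : ∀ a b, X a b ≠ 0 → a ∈ S) :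
    prj R S * X = X := by
  ext a b
  rw [prj, Matrix.diagonal_mul]
  split_ifs with h1
  · exact one_mul _
  · rw [zero_mul]
    by_contra h2
    exact h1 (h a b (Ne.symm h2))

theorem mul_prj {n : Type*} {X : Matrix n β R} (h : ∀ a b, X a b ≠ 0 → b ∈ S) :
    X * prj R S = X := by
  ext a b
  rw [prj, Matrix.mul_diagonal]
  split_ifs with h1
  · exact mul_one _
  · rw [mul_zero]
    by_contra h2
    exact h1 (h a b (Ne.symm h2))

omit [Fintype β] in
theorem prj_ne {a b : β} (h : prj R S a b ≠ 0) : a = b ∧ a ∈ S := by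
  rw [prj, Matrix.diagonal_apply] at h
  split_ifs at h with h1 h2
  · exact ⟨h1, h2⟩
  · exact absurd rfl h
  · exact absurd rfl h

theorem det_prj (T : Set β) (X : Matrix β β R) :
    (prj R T * X * prj R T + (1 - prj R T)).det = (X.toBlock (· ∈ T) (· ∈ T)).det := by
  have key : ∀ a b, (prj R T * X * prj R T + (1 - prj R T)) a b =
      if a ∈ T ∧ b ∈ T then X a b else if a = b then 1 else 0 := by
    intro a b
    rw [Matrix.add_apply, Matrix.sub_apply, prj, Matrix.mul_diagonal, Matrix.diagonal_mul,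
      Matrix.one_apply, Matrix.diagonal_apply]
    by_cases hab : a = b
    · subst hab
      by_cases ha : a ∈ T <;> simp [ha]
    · by_cases ha : a ∈ T <;> by_cases hb : b ∈ T <;> simp [ha, hb, hab]
  rw [Matrix.twoBlockTriangular_det _ (· ∈ T)]
  · have h1 : (prj R T * X * prj R T + (1 - prj R T)).toSquareBlockProp (· ∈ T) =
        X.toBlock (· ∈ T) (· ∈ T) := by
      ext a b
      rw [Matrix.toSquareBlockProp_def, Matrix.of_apply, key, if_pos ⟨a.2, b.2⟩]
      rfl
    have h2 : (prj R T * X * prj R T + (1 - prj R T)).toSquareBlockProp (fun i => ¬ i ∈ T) =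
        1 := by
      ext a b
      rw [Matrix.toSquareBlockProp_def, Matrix.of_apply, key, if_neg fun h => a.2 h.1,
        Matrix.one_apply]
      simp [Subtype.ext_iff]
    rw [h1, h2, Matrix.det_one, mul_one]
  · intro i hi j hj
    rw [key, if_neg fun h => hi h.1, if_neg fun (h : i = j) => hi (h ▸ hj)]

theorem det_up {ι : Type*} [Fintype ι] [DecidableEq ι] (deg : ι → ℕ) (N : Matrix ι ι R)
    (h : ∀ a b, N a b ≠ 0 → deg b < deg a) : (1 + N).det = 1 := by
  rw [← Matrix.det_transpose]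
  have hb : (1 + N)ᵀ.BlockTriangular deg := by
    intro i j hij
    rw [Matrix.transpose_apply, Matrix.add_apply, Matrix.one_apply_ne, zero_add]
    · by_contra h1
      have := h j i h1
      omega
    · rintro rfl
      exact lt_irrefl _ hij
  rw [hb.det]
  refine Finset.prod_eq_one fun a _ => ?_
  have : (1 + N)ᵀ.toSquareBlock deg a = 1 := by
    ext i j
    have h0 : N j i = 0 := by
      by_contra h1
      have h2 := h j i h1
      rw [i.2, j.2] at h2
      exact lt_irrefl _ h2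
    rw [Matrix.toSquareBlock_def, Matrix.of_apply, Matrix.transpose_apply, Matrix.add_apply, h0,
      add_zero, Matrix.one_apply, Matrix.one_apply]
    simp [Subtype.ext_iff, eq_comm]
  rw [this, Matrix.det_one]

theorem det_blk_prj {p : β → Prop} [DecidablePred p] (hp : ∀ a, p a → a ∈ S) (hX : Up deg X) :
    ((prj R S + X).toBlock p p).det = 1 := by
  have : (prj R S + X).toBlock p p = 1 + X.toBlock p p := by
    ext a b
    rw [Matrix.toBlock_apply, Matrix.add_apply, Matrix.add_apply, Matrix.toBlock_apply, prj,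
      Matrix.diagonal_apply, Matrix.one_apply, if_pos (hp a a.2)]
    simp [Subtype.ext_iff]
  rw [this]
  exact det_up (fun a => deg a.1) _ fun a b h => hX a.1 b.1 h

theorem det_blk_one {p : β → Prop} [DecidablePred p] (hX : Up deg X) :
    ((1 + X).toBlock p p).det = 1 := by
  have : (1 + X).toBlock p p = 1 + X.toBlock p p := by
    ext a b
    rw [Matrix.toBlock_apply, Matrix.add_apply, Matrix.add_apply, Matrix.toBlock_apply,
      Matrix.one_apply, Matrix.one_apply]
    simp [Subtype.ext_iff]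
  rw [this]
  exact det_up (fun a => deg a.1) _ fun a b h => hX a.1 b.1 h

omit [DecidableEq β] in
theorem blk_left (p q r : β → Prop) [DecidablePred q] (h : ∀ a b, p a → X a b ≠ 0 → q b) :
    (X * Y).toBlock p r = X.toBlock p q * Y.toBlock q r := by
  rw [Matrix.toBlock_mul_eq_add p q r]
  have : X.toBlock p (fun i => ¬ q i) = 0 := by
    ext a b
    by_contra h1
    exact b.2 (h a b a.2 h1)
  rw [this, Matrix.zero_mul, add_zero]

omit [DecidableEq β] in
theorem blk_right (p q r : β → Prop) [DecidablePred q] (h : ∀ a b, r b → Y a b ≠ 0 → q a) :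
    (X * Y).toBlock p r = X.toBlock p q * Y.toBlock q r := by
  rw [Matrix.toBlock_mul_eq_add p q r]
  have : Y.toBlock (fun i => ¬ q i) r = 0 := by
    ext a b
    by_contra h1
    exact a.2 (h a b b.2 h1)
  rw [this, Matrix.mul_zero, add_zero]

theorem ring_key {A : Type*} [Ring A] (D g e P : A) (hD : D * D = 0) (hg : D * g + g * D = P)
    (he : D * e + e * D = P) (hP : D * P = D) :
    (D + g) * ((1 + (g - e) * e) * (D + e)) = P + (g * e + D * ((g - e) * e) * e +
      g * ((g - e) * e) * D + g * ((g - e) * e) * e) := by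
  have h1 : D * (g - e) = -((g - e) * D) := by
    have : D * g + g * D = D * e + e * D := hg.trans he.symm
    calc D * (g - e) = (D * g + g * D) - (D * e + e * D) - (g - e) * D := by noncomm_ring
      _ = -((g - e) * D) := by rw [this, sub_self, zero_sub]
  have h2 : D * e * D = D := by
    calc D * e * D = D * (D * e + e * D) - (D * D) * e := by noncomm_ring
      _ = D := by rw [he, hP, hD, zero_mul, sub_zero]
  have h3 : D * ((g - e) * e) * D = -((g - e) * D) := by
    calc D * ((g - e) * e) * D = (D * (g - e)) * e * D := by noncomm_ring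
      _ = -((g - e) * (D * e * D)) := by rw [h1]; noncomm_ring
      _ = -((g - e) * D) := by rw [h2]
  calc (D + g) * ((1 + (g - e) * e) * (D + e))
      = D * D + (D * e + g * D + D * ((g - e) * e) * D) + (g * e + D * ((g - e) * e) * e +
        g * ((g - e) * e) * D + g * ((g - e) * e) * e) := by noncomm_ring
    _ = _ := by
      rw [hD, h3, ← he]
      noncomm_ring

/-- odd basis elements -/
def Od (deg : β → ℕ) (S : Set β) (a : β) : Prop := a ∈ S ∧ Odd (deg a)

/-- even basis elements -/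
def Ev (deg : β → ℕ) (S : Set β) (a : β) : Prop := a ∈ S ∧ ¬ Odd (deg a)

/-- a contraction -/
structure Ctr (D : Matrix β β R) (deg : β → ℕ) (S : Set β) (g : Matrix β β R) : Prop where
  sq : D * D = 0
  dD : Dg deg S (-1) D
  dg : Dg deg S 1 g
  eq : D * g + g * D = prj R S

variable {D g e : Matrix β β R}

theorem Ctr.par (h : Ctr D deg S g) : Par deg S (D + g) := par_add h.dD h.dg

theorem Ctr.prod (h : Ctr D deg S g) (h' : Ctr D deg S e) : ∃ N, Up deg N ∧
    (D + g) * ((1 + (g - e) * e) * (D + e)) = prj R S + N := by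
  refine ⟨_, ?_, ring_key D g e _ h.sq h.eq h'.eq (mul_prj fun a b hab => (h.dD a b hab).2.1)⟩
  have hμ := (h.dg.sub h'.dg).mul h'.dg
  exact ((((h.dg.mul h'.dg).up (by norm_num)).add
    (((h.dD.mul hμ).mul h'.dg).up (by norm_num))).add
    (((h.dg.mul hμ).mul h.dD).up (by norm_num))).add
    (((h.dg.mul hμ).mul h'.dg).up (by norm_num))

theorem Ctr.even (h : Ctr D deg S g) (h' : Ctr D deg S e) :
    ((D + g).toBlock (Ev deg S) (Od deg S) * ((1 + (g - e) * e).toBlock (Od deg S) (Od deg S) *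
      (D + e).toBlock (Od deg S) (Ev deg S))).det = 1 := by
  obtain ⟨N, hN, hE⟩ := h.prod h'
  rw [← blk_right (Od deg S) (Od deg S) (Ev deg S), ← blk_left (Ev deg S) (Od deg S) (Ev deg S),
    hE]
  · exact det_blk_prj (fun a ha => ha.1) hN
  · intro a b ha hab
    obtain ⟨-, h2, h3⟩ := h.par a b hab
    exact ⟨h2, by_contra fun h4 => ha.2 (h3.2 h4)⟩
  · intro a b hb hab
    obtain ⟨h1, -, h3⟩ := h'.par a b hab
    exact ⟨h1, h3.2 hb.2⟩

theorem Ctr.even' (h : Ctr D deg S g) :
    ((D + g).toBlock (Ev deg S) (Od deg S) * (D + g).toBlock (Od deg S) (Ev deg S)).det = 1 := by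
  have := h.even h
  rw [sub_self, zero_mul, add_zero] at this
  have h1 : (1 : Matrix β β R).toBlock (Od deg S) (Od deg S) = 1 := Matrix.toBlock_one_self _
  rwa [h1, Matrix.one_mul] at this

theorem Ctr.odd' (h : Ctr D deg S g) :
    ((D + g).toBlock (Od deg S) (Ev deg S) * (D + g).toBlock (Ev deg S) (Od deg S)).det = 1 := by
  obtain ⟨N, hN, hE⟩ := h.prod h
  rw [sub_self, zero_mul, add_zero, one_mul] at hE
  rw [← blk_left (Od deg S) (Ev deg S) (Od deg S), hE]
  · exact det_blk_prj (fun a ha => ha.1) hN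
  · intro a b ha hab
    obtain ⟨-, h2, h3⟩ := h.par a b hab
    exact ⟨h2, h3.1 ha.2⟩

theorem card_eq [Nontrivial R] {m n : Type*} [Fintype m] [Fintype n] [DecidableEq m]
    [DecidableEq n] (A : Matrix m n R) (B : Matrix n m R) (h : (A * B).det = 1)
    (h' : (B * A).det = 1) : Fintype.card m = Fintype.card n := by
  have h1 : A * (B * (A * B)⁻¹) = 1 := by
    rw [← Matrix.mul_assoc, Matrix.mul_nonsing_inv _ (by rw [h]; exact isUnit_one)]
  have h2 : ((B * A)⁻¹ * B) * A = 1 := by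
    rw [Matrix.mul_assoc, Matrix.nonsing_inv_mul _ (by rw [h']; exact isUnit_one)]
  have h3 : B * (A * B)⁻¹ = (B * A)⁻¹ * B := by
    calc B * (A * B)⁻¹ = (((B * A)⁻¹ * B) * A) * (B * (A * B)⁻¹) := by rw [h2, Matrix.one_mul]
      _ = ((B * A)⁻¹ * B) * (A * (B * (A * B)⁻¹)) := by rw [Matrix.mul_assoc]
      _ = (B * A)⁻¹ * B := by rw [h1, Matrix.mul_one]
  exact Matrix.square_of_invertible A (B * (A * B)⁻¹) h1 (by rw [h3, h2])

theorem det_three {m n : Type*} [Fintype m] [Fintype n] [DecidableEq m] [DecidableEq n]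
    (σ : n ≃ m) (A : Matrix m n R) (U : Matrix n n R) (B : Matrix n m R) :
    (A * (U * B)).det = (A.submatrix σ id).det * (U.det * (B.submatrix id σ).det) := by
  rw [← Matrix.det_mul, ← Matrix.det_mul, ← Matrix.det_submatrix_equiv_self σ]
  congr 1

theorem Ctr.det_eq (h : Ctr D deg S g) (h' : Ctr D deg S e)
    (σ : {a // Od deg S a} ≃ {a // Ev deg S a}) :
    (((D + g).toBlock (Ev deg S) (Od deg S)).submatrix σ id).det *
      (((D + e).toBlock (Od deg S) (Ev deg S)).submatrix id σ).det = 1 := by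
  have h1 := h.even h'
  rwa [det_three σ, det_blk_one (deg := deg)
    (((h.dg.sub h'.dg).mul h'.dg).up (by norm_num)), one_mul] at h1

theorem Ctr.nu [StarRing R] (h : Ctr D deg S g) (σ : {a // Od deg S a} ≃ {a // Ev deg S a}) :
    (prj R {a | a ∈ S ∧ Odd (deg a)} * (D + g)ᴴ * (D + g) *
        prj R {a | a ∈ S ∧ Odd (deg a)} + (1 - prj R {a | a ∈ S ∧ Odd (deg a)})).det =
      (((D + g).toBlock (Ev deg S) (Od deg S)).submatrix σ id).det *
        star (((D + g).toBlock (Ev deg S) (Od deg S)).submatrix σ id).det := by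
  rw [Matrix.mul_assoc (prj R _) (D + g)ᴴ, det_prj]
  have h1 : ((D + g)ᴴ * (D + g)).toBlock (Od deg S) (Od deg S) =
      (D + g)ᴴ.toBlock (Od deg S) (Ev deg S) * (D + g).toBlock (Ev deg S) (Od deg S) := by
    refine blk_right _ _ _ fun a b hb hab => ?_
    obtain ⟨h1, -, h3⟩ := h.par a b hab
    exact ⟨h1, fun h4 => h3.1 h4 hb.2⟩
  have h2 : (D + g)ᴴ.toBlock (Od deg S) (Ev deg S) * (D + g).toBlock (Ev deg S) (Od deg S) =
      (((D + g).toBlock (Ev deg S) (Od deg S)).submatrix σ id)ᴴ *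
        ((D + g).toBlock (Ev deg S) (Od deg S)).submatrix σ id := by
    rw [Matrix.conjTranspose_submatrix, Matrix.submatrix_mul_equiv]
    rfl
  rw [mul_comm, ← Matrix.det_conjTranspose, ← Matrix.det_mul, ← h2, ← h1]
  have key : ∀ (M : Matrix {a // Od deg S a} {a // Od deg S a} R)
      (i i' : DecidableEq {a // Od deg S a}) (j j' : Fintype {a // Od deg S a}),
      @Matrix.det _ i j _ _ M = @Matrix.det _ i' j' _ _ M := fun M i i' j j' => by
    rw [Subsingleton.elim i i', Subsingleton.elim j j']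
  exact key _ _ _ _ _

theorem Ctr.equiv [Nontrivial R] (h : Ctr D deg S g) :
    Nonempty ({a // Od deg S a} ≃ {a // Ev deg S a}) :=
  ⟨Fintype.equivOfCardEq (card_eq _ _ h.odd' h.even')⟩

theorem ctr_of {d : Matrix β β R} (h : IsCx d deg S)
    (h1 : ∀ a b, g a b ≠ 0 → a ∈ S ∧ b ∈ S ∧ deg a = deg b + 1)
    (h2 : res d S * g + g * res d S = prj R S) : Ctr (res d S) deg S g :=
  ⟨h.sq, dg_res h, fun a b hab => by
    obtain ⟨h3, h4, h5⟩ := h1 a b hab
    exact ⟨h3, h4, by omega⟩, h2⟩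

theorem conj [StarRing R] {β' : Type*} [Fintype β'] [DecidableEq β'] {d : Matrix β β R}
    {d' : Matrix β' β' R} {deg' : β' → ℕ} {S' : Set β'} (J : Matrix β' β R)
    (h1 : Jᴴ * J = prj R S) (h2 : J * Jᴴ = prj R S') (h3 : res d' S' = J * res d S * Jᴴ)
    (h4 : ∀ x a, J x a ≠ 0 → x ∈ S' ∧ a ∈ S ∧ deg' x = deg a) {W : R} (h : HasNu d deg S W) :
    HasNu d' deg' S' W := by
  obtain ⟨hc, g, hg1, hg2, hW⟩ := h
  have C := ctr_of hc hg1 hg2
  have h4' : ∀ a x, Jᴴ a x ≠ 0 → x ∈ S' ∧ a ∈ S ∧ deg' x = deg a := fun a x h =>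
    h4 x a fun h0 => h (by rw [Matrix.conjTranspose_apply, h0, star_zero])
  have hmul : ∀ X Y : Matrix β β R, prj R S * Y = Y →
      J * X * Jᴴ * (J * Y * Jᴴ) = J * (X * Y) * Jᴴ := by
    intro X Y hY
    calc J * X * Jᴴ * (J * Y * Jᴴ) = J * X * ((Jᴴ * J) * Y) * Jᴴ := by
          simp only [Matrix.mul_assoc]
      _ = J * (X * Y) * Jᴴ := by rw [h1, hY]; simp only [Matrix.mul_assoc]
  have hne : ∀ (X : Matrix β β R) x y, (J * X * Jᴴ) x y ≠ 0 → ∃ a b, X a b ≠ 0 ∧ x ∈ S' ∧
      y ∈ S' ∧ deg' x = deg a ∧ deg' y = deg b := by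
    intro X x y hxy
    obtain ⟨b, h5, h6⟩ := mul_ne hxy
    obtain ⟨a, h7, h8⟩ := mul_ne h5
    exact ⟨a, b, h8, (h4 _ _ h7).1, (h4' _ _ h6).1, (h4 _ _ h7).2.2, (h4' _ _ h6).2.2⟩
  have hPD : prj R S * res d S = res d S := prj_mul fun a b hab => (C.dD a b hab).1
  have hPg : prj R S * g = g := prj_mul fun a b hab => (C.dg a b hab).1
  have hJP : J * prj R S = J := mul_prj fun x a h => (h4 x a h).2.1
  refine ⟨⟨?_, ?_⟩, J * g * Jᴴ, ?_, ?_, ?_⟩
  · rw [h3, hmul _ _ hPD, hc.sq, Matrix.mul_zero, Matrix.zero_mul]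
  · intro x hx y hy hxy
    have h5 : res d' S' x y ≠ 0 := by
      unfold res
      rwa [if_pos ⟨hx, hy⟩]
    rw [h3] at h5
    obtain ⟨a, b, h6, -, -, h7, h8⟩ := hne _ _ _ h5
    have := (C.dD a b h6).2.2
    omega
  · intro x y hxy
    obtain ⟨a, b, h6, hx, hy, h7, h8⟩ := hne _ _ _ hxy
    have := (hg1 a b h6).2.2
    exact ⟨hx, hy, by omega⟩
  · rw [h3, hmul _ _ hPg, hmul _ _ hPD, ← Matrix.add_mul, ← Matrix.mul_add, hg2, hJP, h2]
  · set Q := prj R {a | a ∈ S ∧ Odd (deg a)} with hQ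
    set Q' := prj R {a | a ∈ S' ∧ Odd (deg' a)} with hQ'
    have hQJ : Q' * J = J * Q := by
      ext x a
      rw [hQ, hQ', prj, prj, Matrix.diagonal_mul, Matrix.mul_diagonal]
      by_cases h0 : J x a = 0
      · rw [h0, mul_zero, zero_mul]
      · obtain ⟨h5, h6, h7⟩ := h4 x a h0
        by_cases h8 : Odd (deg a) <;> simp [h5, h6, h7, h8]
    have hJQ : Jᴴ * Q' = Q * Jᴴ := by
      ext a x
      rw [hQ, hQ', prj, prj, Matrix.diagonal_mul, Matrix.mul_diagonal]
      by_cases h0 : Jᴴ a x = 0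
      · rw [h0, mul_zero, zero_mul]
      · obtain ⟨h5, h6, h7⟩ := h4' a x h0
        by_cases h8 : Odd (deg a) <;> simp [h5, h6, h7, h8]
    have hQP : Q * prj R S = Q := mul_prj fun a b h => by
      obtain ⟨rfl, h5⟩ := prj_ne h
      exact h5.1
    have hQP' : Q' * prj R S' = Q' := mul_prj fun a b h => by
      obtain ⟨rfl, h5⟩ := prj_ne h
      exact h5.1
    have hT : res d' S' + J * g * Jᴴ = J * (res d S + g) * Jᴴ := by
      rw [h3, Matrix.mul_add, Matrix.add_mul]
    have hTH : (J * (res d S + g) * Jᴴ)ᴴ = J * (res d S + g)ᴴ * Jᴴ := by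
      rw [Matrix.conjTranspose_mul, Matrix.conjTranspose_mul, Matrix.conjTranspose_conjTranspose,
        Matrix.mul_assoc]
    have hPT : prj R S * (res d S + g) = res d S + g := by rw [Matrix.mul_add, hPD, hPg]
    have hQQ : Q' = J * (Q * Jᴴ) := by
      rw [← Matrix.mul_assoc, ← hQJ, Matrix.mul_assoc, h2, hQP']
    rw [hT, hTH, Matrix.mul_assoc Q', hmul _ _ hPT]
    set Z := (res d S + g)ᴴ * (res d S + g) with hZ
    have e1 : Q' * (J * Z * Jᴴ) * Q' + (1 - Q') = 1 + J * ((Q * Z * Q - Q) * Jᴴ) := by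
      have : Q' * (J * Z * Jᴴ) * Q' = J * (Q * Z * Q * Jᴴ) := by
        calc Q' * (J * Z * Jᴴ) * Q' = (Q' * J) * Z * (Jᴴ * Q') := by
              simp only [Matrix.mul_assoc]
          _ = J * (Q * Z * Q * Jᴴ) := by rw [hQJ, hJQ]; simp only [Matrix.mul_assoc]
      rw [this, Matrix.sub_mul, Matrix.mul_sub, ← hQQ]
      abel
    rw [e1, Matrix.det_one_add_mul_comm, Matrix.mul_assoc, h1, Matrix.sub_mul, hQP,
      Matrix.mul_assoc _ Q, hQP, ← hW, Matrix.mul_assoc Q (res d S + g)ᴴ]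
    congr 1
    abel

end AlgAAux

open AlgAAux

variable {R : Type*} [CommRing R] [StarRing R] {β : Type*} [Fintype β] [DecidableEq β]

theorem HasNu.unique {d : Matrix β β R} {deg : β → ℕ} {S : Set β} {W W' : R}
    (h : HasNu d deg S W) (h' : HasNu d deg S W') : W = W' := by
  rcases subsingleton_or_nontrivial R with hR | hR
  · exact Subsingleton.elim _ _
  obtain ⟨hc, g, hg1, hg2, rfl⟩ := h
  obtain ⟨-, e, he1, he2, rfl⟩ := h'
  have C := ctr_of hc hg1 hg2
  have C' := ctr_of hc he1 he2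
  obtain ⟨σ⟩ := C.equiv
  have h1 := C.det_eq C' σ
  have h2 := C'.det_eq C' σ
  have h3 := (IsUnit.of_mul_eq_one_right _ h2).mul_right_cancel (h1.trans h2.symm)
  rw [C.nu σ, C'.nu σ, h3]

theorem HasNu.unit {d : Matrix β β R} {deg : β → ℕ} {S : Set β} {W : R}
    (h : HasNu d deg S W) : ∃ w : R, IsUnit w ∧ W = w * star w := by
  rcases subsingleton_or_nontrivial R with hR | hR
  · exact ⟨1, isUnit_one, Subsingleton.elim _ _⟩
  obtain ⟨hc, g, hg1, hg2, rfl⟩ := h
  have C := ctr_of hc hg1 hg2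
  obtain ⟨σ⟩ := C.equiv
  exact ⟨_, IsUnit.of_mul_eq_one _ (C.det_eq C σ), C.nu σ⟩

theorem HasNu.map {R' : Type*} [CommRing R'] [StarRing R'] (φ : R →+* R')
    (hφ : ∀ x, φ (star x) = star (φ x)) {d : Matrix β β R} {deg : β → ℕ} {S : Set β} {W : R}
    (h : HasNu d deg S W) : HasNu (d.map φ) deg S (φ W) := by
  obtain ⟨hc, g, hg1, hg2, rfl⟩ := h
  have h1 : res (d.map φ) S = φ.mapMatrix (res d S) := by
    ext a b
    simp only [res, RingHom.mapMatrix_apply, Matrix.map_apply]
    split_ifs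
    · rfl
    · exact (map_zero φ).symm
  have h2 : ∀ T : Set β, prj R' T = φ.mapMatrix (prj R T) := by
    intro T
    ext a b
    simp only [prj, RingHom.mapMatrix_apply, Matrix.map_apply, Matrix.diagonal_apply]
    split_ifs
    · exact (map_one φ).symm
    · exact (map_zero φ).symm
    · exact (map_zero φ).symm
  have h3 : ∀ X : Matrix β β R, (φ.mapMatrix X)ᴴ = φ.mapMatrix Xᴴ := by
    intro X
    ext a b
    simp only [RingHom.mapMatrix_apply, Matrix.map_apply, Matrix.conjTranspose_apply, hφ]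
  refine ⟨⟨?_, fun a ha b hb hab => hc.dg a ha b hb fun h0 => hab ?_⟩, φ.mapMatrix g,
    fun a b hab => hg1 a b fun h0 => hab ?_, ?_, ?_⟩
  · rw [h1, ← map_mul, hc.sq, map_zero]
  · rw [Matrix.map_apply, h0, map_zero]
  · rw [RingHom.mapMatrix_apply, Matrix.map_apply, h0, map_zero]
  · rw [h1, h2, ← map_mul, ← map_mul, ← map_add, hg2]
  · rw [RingHom.map_det, h1, h2, ← map_add, h3]
    simp only [map_add, map_mul, map_sub, map_one]

theorem hasNu_empty (d : Matrix β β R) (deg : β → ℕ) : HasNu d deg (∅ : Set β) 1 := by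
  have h1 : res d (∅ : Set β) = 0 := by
    ext a b
    simp [res]
  have h2 : ∀ T : Set β, (∀ a, a ∉ T) → prj R T = 0 := by
    intro T hT
    ext a b
    simp [prj, hT]
  refine ⟨⟨by rw [h1, mul_zero], fun a ha => ha.elim⟩, 0, fun a b h => absurd rfl h, ?_, ?_⟩
  · rw [h1, h2 ∅ fun a ha => ha, mul_zero, add_zero]
  · rw [h2 _ fun a ha => ha.1, mul_zero, zero_add, sub_zero, Matrix.det_one]

/-- reindexing and rescaling the basis by unitary scalars -/
theorem hasNu_transport {β' : Type*} [Fintype β'] [DecidableEq β'] {d : Matrix β β R}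
    {d' : Matrix β' β' R} {deg : β → ℕ} {deg' : β' → ℕ} {S : Set β} (e : β → β')
    (he : InjOn e S) (u : β → R) (hu : ∀ a ∈ S, u a * star (u a) = 1)
    (hd : ∀ a ∈ S, ∀ b ∈ S, d' (e a) (e b) = star (u a) * d a b * u b)
    (hdeg : ∀ a ∈ S, deg' (e a) = deg a) (W : R) :
    HasNu d deg S W ↔ HasNu d' deg' (e '' S) W := by
  let J : Matrix β' β R := Matrix.of fun x a => if a ∈ S ∧ x = e a then star (u a) else 0
  have h4 : ∀ x a, J x a ≠ 0 → a ∈ S ∧ x = e a := by
    intro x a h
    by_contra h0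
    exact h (if_neg h0)
  have hJ : ∀ a ∈ S, J (e a) a = star (u a) := fun a ha => if_pos ⟨ha, rfl⟩
  have hL : ∀ (v : β → R), ∀ a ∈ S, ∑ c, J (e a) c * v c = star (u a) * v a := by
    intro v a ha
    rw [Finset.sum_eq_single a, hJ a ha]
    · intro c _ hc
      have : J (e a) c = 0 := by
        by_contra h0
        obtain ⟨h5, h6⟩ := h4 _ _ h0
        exact hc (he ha h5 h6).symm
      rw [this, zero_mul]
    · simp
  have hL0 : ∀ (v : β → R), ∀ x ∉ e '' S, ∑ c, J x c * v c = 0 := by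
    intro v x hx
    refine Finset.sum_eq_zero fun c _ => ?_
    by_contra h0
    obtain ⟨h6, h7⟩ := h4 _ _ (left_ne_zero_of_mul h0)
    exact hx ⟨c, h6, h7.symm⟩
  have h1 : Jᴴ * J = prj R S := by
    ext a b
    by_cases ha : a ∈ S
    · rw [Matrix.mul_apply, Finset.sum_eq_single (e a), Matrix.conjTranspose_apply, hJ a ha,
        star_star, prj, Matrix.diagonal_apply, if_pos ha]
      · split_ifs with hab
        · subst hab
          rw [hJ a ha, hu a ha]
        · have : J (e a) b = 0 := by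
            by_contra h0
            obtain ⟨h5, h6⟩ := h4 _ _ h0
            exact hab (he ha h5 h6)
          rw [this, mul_zero]
      · intro x _ hx
        have : J x a = 0 := by
          by_contra h0
          exact hx (h4 _ _ h0).2
        rw [Matrix.conjTranspose_apply, this, star_zero, zero_mul]
      · simp
    · rw [prj, Matrix.diagonal_apply, if_neg ha, ite_self]
      by_contra h0
      obtain ⟨x, h5, -⟩ := mul_ne h0
      refine ha (h4 x a fun h6 => h5 ?_).1
      rw [Matrix.conjTranspose_apply, h6, star_zero]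
  have h2 : J * Jᴴ = prj R (e '' S) := by
    ext x y
    by_cases hx : x ∈ e '' S
    · rw [prj, Matrix.diagonal_apply, if_pos hx]
      obtain ⟨a, ha, rfl⟩ := hx
      rw [Matrix.mul_apply, hL _ a ha, Matrix.conjTranspose_apply]
      split_ifs with hy
      · subst hy
        rw [hJ a ha, star_star, mul_comm, hu a ha]
      · have : J y a = 0 := by
          by_contra h0
          exact hy (h4 _ _ h0).2.symm
        rw [this, star_zero, mul_zero]
    · rw [prj, Matrix.diagonal_apply, if_neg hx, ite_self]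
      exact hL0 (fun c => Jᴴ c y) x hx
  have h3 : res d' (e '' S) = J * res d S * Jᴴ := by
    ext x y
    rw [Matrix.mul_assoc]
    by_cases hx : x ∈ e '' S
    · obtain ⟨a, ha, rfl⟩ := hx
      rw [Matrix.mul_apply, hL _ a ha]
      have h5 : (res d S * Jᴴ) a y = star ((J * (res d S)ᴴ) y a) := by
        rw [← Matrix.conjTranspose_apply, Matrix.conjTranspose_mul,
          Matrix.conjTranspose_conjTranspose]
      rw [h5, Matrix.mul_apply]
      by_cases hy : y ∈ e '' S
      · obtain ⟨b, hb, rfl⟩ := hy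
        rw [hL _ b hb, Matrix.conjTranspose_apply, star_mul', star_star, star_star]
        unfold res
        rw [if_pos ⟨⟨a, ha, rfl⟩, ⟨b, hb, rfl⟩⟩, if_pos ⟨ha, hb⟩, hd a ha b hb]
        ring
      · rw [hL0 _ y hy, star_zero, mul_zero]
        exact if_neg fun h => hy h.2
    · rw [Matrix.mul_apply, hL0 _ x hx]
      exact if_neg fun h => hx h.1
  have h5 : ∀ x a, J x a ≠ 0 → x ∈ e '' S ∧ a ∈ S ∧ deg' x = deg a := by
    intro x a h
    obtain ⟨h6, rfl⟩ := h4 x a h
    exact ⟨⟨a, h6, rfl⟩, h6, hdeg a h6⟩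
  refine ⟨conj J h1 h2 h3 h5, conj Jᴴ ?_ ?_ ?_ ?_⟩
  · rw [Matrix.conjTranspose_conjTranspose, h2]
  · rw [Matrix.conjTranspose_conjTranspose, h1]
  · rw [Matrix.conjTranspose_conjTranspose, h3]
    calc res d S = prj R S * res d S * prj R S := by
          rw [prj_mul fun a b h => (res_ne h).1, mul_prj fun a b h => (res_ne h).2.1]
      _ = _ := by rw [← h1]; simp only [Matrix.mul_assoc]
  · intro a x h
    obtain ⟨h6, h7, h8⟩ := h5 x a fun h0 => h (by rw [Matrix.conjTranspose_apply, h0, star_zero])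
    exact ⟨h7, h6, h8.symm⟩

end SpunKnot
end
end

-- merged part: Pool.Agent.Work.MP_e1e788_gt.AlgB
section
/-! Acyclicity: two out of three, transport, existence of contractions. -/

open Set Matrix
open scoped Classical

noncomputable section
namespace SpunKnot

namespace AlgBAux
variable {R : Type*} [CommRing R] {β : Type*} [Fintype β] [DecidableEq β]

theorem prj_mul_apply {γ : Type*} (S : Set β) (M : Matrix β γ R) (a : β) (b : γ) :
    (prj R S * M) a b = if a ∈ S then M a b else 0 := by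
  unfold prj; rw [Matrix.diagonal_mul]; split_ifs <;> simp

theorem mul_prj_apply {γ : Type*} (S : Set β) (M : Matrix γ β R) (a : γ) (b : β) :
    (M * prj R S) a b = if b ∈ S then M a b else 0 := by
  unfold prj; rw [Matrix.mul_diagonal]; split_ifs <;> simp

theorem prj_mulVec (S : Set β) (z : β → R) (a : β) :
    (prj R S *ᵥ z) a = if a ∈ S then z a else 0 := by
  unfold prj; rw [Matrix.mulVec_diagonal]; split_ifs <;> simp

theorem res_eq (d : Matrix β β R) (S : Set β) : res d S = prj R S * d * prj R S := by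
  ext a b
  rw [mul_prj_apply, prj_mul_apply]; unfold res
  by_cases ha : a ∈ S <;> by_cases hb : b ∈ S <;> simp [ha, hb]

theorem res_sub (d : Matrix β β R) {S T : Set β} (h : S ⊆ T) :
    res d S = prj R S * res d T * prj R S := by
  ext a b
  rw [mul_prj_apply, prj_mul_apply]; unfold res
  by_cases ha : a ∈ S <;> by_cases hb : b ∈ S <;> simp [ha, hb]
  simp [h ha, h hb]

theorem prj_apply (S : Set β) (a b : β) :
    prj R S a b = if a = b ∧ a ∈ S then 1 else 0 := by
  unfold prj; rw [Matrix.diagonal_apply]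
  by_cases h : a = b <;> by_cases ha : a ∈ S <;> simp [h, ha]

theorem prj_mul_prj (S T : Set β) : prj R S * prj R T = prj R (S ∩ T) := by
  ext a b
  rw [prj_mul_apply, prj_apply, prj_apply]
  by_cases h : a = b <;> by_cases ha : a ∈ S <;> by_cases hb : a ∈ T <;> simp [h, ha, hb] <;>
    simp_all

theorem prj_empty : prj R (∅ : Set β) = 0 := by
  ext a b; rw [prj_apply]; simp

theorem prj_idem (S : Set β) : prj R S * prj R S = prj R S := by rw [prj_mul_prj, inter_self]

theorem prj_disj {S T : Set β} (h : Disjoint S T) : prj R S * prj R T = 0 := by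
  rw [prj_mul_prj, h.inter_eq, prj_empty]

theorem prj_union {S T : Set β} (h : Disjoint S T) : prj R (S ∪ T) = prj R S + prj R T := by
  ext a b
  rw [Matrix.add_apply, prj_apply, prj_apply, prj_apply]
  have := Set.disjoint_left.1 h
  by_cases hab : a = b <;> by_cases ha : a ∈ S <;> by_cases hb : a ∈ T <;> simp [hab, ha, hb] <;>
    simp_all

theorem supp_iff (S : Set β) (z : β → R) : (∀ a, a ∉ S → z a = 0) ↔ prj R S *ᵥ z = z := by
  constructor
  · intro h; ext a; rw [prj_mulVec]; split_ifs with ha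
    · rfl
    · exact (h a ha).symm
  · intro h a ha; rw [← h, prj_mulVec, if_neg ha]

theorem block_zero {d : Matrix β β R} {S₁ S₂ : Set β} (T : Set β)
    (hc : ∀ a ∈ S₂, ∀ b ∈ S₁, d a b = 0) : prj R S₂ * res d T * prj R S₁ = 0 := by
  ext a b
  rw [mul_prj_apply, prj_mul_apply]; unfold res
  by_cases ha : a ∈ S₂ <;> by_cases hb : b ∈ S₁ <;> simp [ha, hb]
  intro _ _; exact hc a ha b hb

theorem prj_res (d : Matrix β β R) (S : Set β) : prj R S * res d S = res d S := by
  rw [res_eq, ← Matrix.mul_assoc, ← Matrix.mul_assoc, prj_idem]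

theorem res_prj (d : Matrix β β R) (S : Set β) : res d S * prj R S = res d S := by
  rw [res_eq, Matrix.mul_assoc, prj_idem]

section Abs
variable {A : Type*} [Ring A] {V : Type*} [AddCommGroup V] [Module A V]

/-- abstract acyclicity of the corner `p D p` -/
def AC (V : Type*) [AddCommGroup V] [Module A V] (p D : A) : Prop :=
  ∀ z : V, p • z = z → p • D • z = 0 → ∃ y : V, p • y = y ∧ p • D • y = z

theorem ac_union {p q D : A} (_hp : p * p = p) (hq : q * q = q) (hpq : p * q = 0) (hqp : q * p = 0)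
    (hl : (p + q) * D = D) (hz : q * D * p = 0) (hD : D * D = 0)
    (h₁ : AC V p D) (h₂ : AC V q D) : AC V (p + q) D := by
  intro z hs hc
  have e0 : ∀ v : V, (p + q) • D • v = D • v := fun v => by rw [← mul_smul, hl]
  have ez : ∀ v : V, q • D • p • v = 0 := fun v => by rw [← mul_smul, ← mul_smul, hz, zero_smul]
  have eD : ∀ v : V, D • D • v = 0 := fun v => by rw [← mul_smul, hD, zero_smul]
  rw [e0] at hc
  have hs' : p • z + q • z = z := by rw [← add_smul, hs]
  have c2 : q • D • q • z = 0 := by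
    have : q • D • (p • z + q • z) = 0 := by rw [hs', hc, smul_zero]
    rwa [smul_add, smul_add, ez, zero_add] at this
  obtain ⟨y₂, hy₂, hy₂'⟩ := h₂ (q • z) (by rw [← mul_smul, hq]) c2
  have w1 : p • (z - D • y₂) = z - D • y₂ := by
    have a1 : (p + q) • (z - D • y₂) = z - D • y₂ := by rw [smul_sub, hs, e0]
    have a2 : q • (z - D • y₂) = 0 := by rw [smul_sub, hy₂', sub_self]
    rwa [add_smul, a2, add_zero] at a1
  obtain ⟨y₁, hy₁, hy₁'⟩ := h₁ _ w1 (by rw [smul_sub, hc, eD, sub_zero, smul_zero])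
  refine ⟨y₁ + y₂, ?_, ?_⟩
  · have a1 : q • y₁ = 0 := by rw [← hy₁, ← mul_smul, hqp, zero_smul]
    have a2 : p • y₂ = 0 := by rw [← hy₂, ← mul_smul, hpq, zero_smul]
    rw [add_smul, smul_add, smul_add, hy₁, hy₂, a1, a2]; abel
  · have a1 : D • y₁ = z - D • y₂ := by
      rw [← e0, add_smul, hy₁']
      have : q • D • y₁ = 0 := by rw [← hy₁, ez]
      rw [this, add_zero]
    rw [e0, smul_add, a1]; abel

theorem ac_quot {p q D : A} (_hp : p * p = p) (hq : q * q = q) (hpq : p * q = 0) (hqp : q * p = 0)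
    (hl : (p + q) * D = D) (hz : q * D * p = 0) (hD : D * D = 0)
    (h₁ : AC V p D) (h₁₂ : AC V (p + q) D) : AC V q D := by
  intro z hs hc
  have e0 : ∀ v : V, (p + q) • D • v = D • v := fun v => by rw [← mul_smul, hl]
  have ez : ∀ v : V, q • D • p • v = 0 := fun v => by rw [← mul_smul, ← mul_smul, hz, zero_smul]
  have eD : ∀ v : V, D • D • v = 0 := fun v => by rw [← mul_smul, hD, zero_smul]
  have w1 : p • D • z = D • z := by
    have := e0 z
    rwa [add_smul, hc, add_zero] at this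
  obtain ⟨y₁, hy₁, hy₁'⟩ := h₁ (D • z) w1 (by rw [eD, smul_zero])
  have a1 : D • y₁ = D • z := by
    rw [← e0, add_smul, hy₁']
    have : q • D • y₁ = 0 := by rw [← hy₁, ez]
    rw [this, add_zero]
  have b1 : q • y₁ = 0 := by rw [← hy₁, ← mul_smul, hqp, zero_smul]
  have b2 : p • z = 0 := by rw [← hs, ← mul_smul, hpq, zero_smul]
  obtain ⟨y, hy, hy'⟩ := h₁₂ (z - y₁)
    (by rw [add_smul, smul_sub, smul_sub, hy₁, hs, b1, b2]; abel)
    (by rw [e0, smul_sub, a1, sub_self])
  refine ⟨q • y, by rw [← mul_smul, hq], ?_⟩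
  rw [e0] at hy'
  have hs' : p • y + q • y = y := by rw [← add_smul, hy]
  have : q • D • (p • y + q • y) = z := by rw [hs', hy', smul_sub, hs, b1, sub_zero]
  rwa [smul_add, smul_add, ez, zero_add] at this

theorem ac_six {p q r D : A} (hq : q * q = q) (hqp : q * p = 0)
    (hrp : r * p = 0) (hrq : r * q = 0)
    (hl : (p + q + r) * D = D) (z21 : q * D * p = 0) (z31 : r * D * p = 0) (z32 : r * D * q = 0)
    (hD : D * D = 0) (h₁₂ : AC V (p + q) D) (h₂₃ : AC V (q + r) D) : AC V p D := by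
  intro z hs hc
  have e0 : ∀ v : V, (p + q + r) • D • v = D • v := fun v => by rw [← mul_smul, hl]
  have e21 : ∀ v : V, q • D • p • v = 0 := fun v => by rw [← mul_smul, ← mul_smul, z21, zero_smul]
  have e31 : ∀ v : V, r • D • p • v = 0 := fun v => by rw [← mul_smul, ← mul_smul, z31, zero_smul]
  have e32 : ∀ v : V, r • D • q • v = 0 := fun v => by rw [← mul_smul, ← mul_smul, z32, zero_smul]
  have eD : ∀ v : V, D • D • v = 0 := fun v => by rw [← mul_smul, hD, zero_smul]
  have b1 : q • z = 0 := by rw [← hs, ← mul_smul, hqp, zero_smul]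
  have b2 : r • z = 0 := by rw [← hs, ← mul_smul, hrp, zero_smul]
  obtain ⟨y, hy, hy'⟩ := h₁₂ z (by rw [add_smul, hs, b1, add_zero])
    (by rw [add_smul, hc, zero_add, ← hs, e21])
  have hs' : p • y + q • y = y := by rw [← add_smul, hy]
  have c1 : r • D • y = 0 := by rw [← hs', smul_add, smul_add, e31, e32, add_zero]
  have c2 : D • y = z := by rw [← e0, add_smul, hy', c1, add_zero]
  have c3 : r • y = 0 := by
    rw [← hs', smul_add, ← mul_smul, ← mul_smul, hrp, hrq, zero_smul, add_zero]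
  obtain ⟨u, hu, hu'⟩ := h₂₃ (q • y)
    (by rw [add_smul, ← mul_smul, ← mul_smul, hq, hrq, zero_smul, add_zero])
    (by
      have : q • D • (p • y + q • y) = 0 := by rw [hs', c2, b1]
      rw [smul_add, smul_add, e21, zero_add] at this
      rw [add_smul, this, e32, add_zero])
  refine ⟨y - D • u, ?_, ?_⟩
  · have a1 : (p + q + r) • (y - D • u) = y - D • u := by
      rw [smul_sub, e0, add_smul, hy, c3, add_zero]
    have a2 : (q + r) • (y - D • u) = 0 := by
      rw [smul_sub, hu', add_smul, c3, add_zero, sub_self]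
    rwa [add_assoc, add_smul, a2, add_zero] at a1
  · rw [smul_sub, eD, sub_zero, c2, hs]

end Abs

theorem acyc_iff (d : Matrix β β R) {S T : Set β} (h : S ⊆ T) :
    Acyc d S ↔ AC (β → R) (prj R S) (res d T) := by
  unfold Acyc AC
  simp only [Matrix.smul_eq_mulVec, supp_iff]
  have key : ∀ z : β → R, prj R S *ᵥ z = z → res d S *ᵥ z = prj R S *ᵥ res d T *ᵥ z := by
    intro z hz
    rw [res_sub d h, ← Matrix.mulVec_mulVec, hz, Matrix.mulVec_mulVec]
  constructor
  · intro H z hz hc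
    obtain ⟨y, hy, hy'⟩ := H z hz (by rw [key z hz, hc])
    exact ⟨y, hy, by rw [← key y hy, hy']⟩
  · intro H z hz hc
    obtain ⟨y, hy, hy'⟩ := H z hz (by rw [← key z hz, hc])
    exact ⟨y, hy, by rw [key y hy, hy']⟩

theorem acyc_of_conj {β' : Type*} [Fintype β'] [DecidableEq β'] {d : Matrix β β R}
    {d' : Matrix β' β' R} {S : Set β} {S' : Set β'} (E : Matrix β' β R) (F : Matrix β β' R)
    (hFE : F * E = prj R S) (hEF : E * F = prj R S') (hF : prj R S * F = F)
    (hE : prj R S' * E = E) (hd : res d' S' = E * res d S * F) (h : Acyc d S) : Acyc d' S' := by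
  intro z hz hc
  rw [supp_iff] at hz
  have c1 : res d S *ᵥ (F *ᵥ z) = 0 := by
    have : F *ᵥ (res d' S' *ᵥ z) = 0 := by rw [hc, Matrix.mulVec_zero]
    rw [hd, Matrix.mulVec_mulVec, ← Matrix.mul_assoc, ← Matrix.mul_assoc, hFE, prj_res] at this
    rw [Matrix.mulVec_mulVec, this]
  obtain ⟨y, -, hy'⟩ := h (F *ᵥ z) ((supp_iff _ _).2 (by rw [Matrix.mulVec_mulVec, hF])) c1
  refine ⟨E *ᵥ y, (supp_iff _ _).2 (by rw [Matrix.mulVec_mulVec, hE]), ?_⟩
  rw [hd, Matrix.mulVec_mulVec, Matrix.mul_assoc, hFE, Matrix.mul_assoc, res_prj,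
    ← Matrix.mulVec_mulVec, hy', Matrix.mulVec_mulVec, hEF, hz]

theorem prj_mul_eq {γ : Type*} {S : Set β} {M : Matrix β γ R} (h : ∀ a b, M a b ≠ 0 → a ∈ S) :
    prj R S * M = M := by
  ext a b; rw [prj_mul_apply]; split_ifs with ha
  · rfl
  · by_contra hne; exact ha (h a b (Ne.symm hne))

theorem mul_ne {M N : Matrix β β R} {a b : β} (h : (M * N) a b ≠ 0) :
    ∃ c, M a c ≠ 0 ∧ N c b ≠ 0 := by
  rw [Matrix.mul_apply] at h
  obtain ⟨c, -, hc⟩ := Finset.exists_ne_zero_of_sum_ne_zero h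
  exact ⟨c, left_ne_zero_of_mul hc, right_ne_zero_of_mul hc⟩

theorem res_ne {d : Matrix β β R} {deg : β → ℕ} {S : Set β} (h : IsCx d deg S) {a b : β}
    (hab : res d S a b ≠ 0) : a ∈ S ∧ b ∈ S ∧ deg b = deg a + 1 := by
  unfold res at hab
  split_ifs at hab with hh
  · exact ⟨hh.1, hh.2, h.dg a hh.1 b hh.2 hab⟩
  · exact absurd rfl hab

theorem prj_ne {S : Set β} {a b : β} (h : prj R S a b ≠ 0) : a = b ∧ a ∈ S := by
  rw [prj_apply] at h
  split_ifs at h with hh
  · exact hh
  · exact absurd rfl h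

theorem exists_contr {d : Matrix β β R} {deg : β → ℕ} {S : Set β} (h : IsCx d deg S)
    (ha : Acyc d S) (n : ℕ) : ∃ γ : Matrix β β R,
      (∀ a b, γ a b ≠ 0 → a ∈ S ∧ b ∈ S ∧ deg a = deg b + 1 ∧ deg b < n) ∧
      (res d S * γ + γ * res d S) * prj R {a | a ∈ S ∧ deg a < n} =
        prj R {a | a ∈ S ∧ deg a < n} := by
  induction n with
  | zero => exact ⟨0, by simp, by simp [prj_empty]⟩
  | succ n ih =>
    obtain ⟨γ, hγ, hQ⟩ := ih
    set D := res d S with hDdef
    set Q := prj R {a | a ∈ S ∧ deg a < n} with hQdef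
    set P := prj R {a | a ∈ S ∧ deg a = n} with hPdef
    set P' := prj R {a | a ∈ S ∧ deg a = n + 1} with hP'def
    have hPP : P * P = P := prj_idem _
    have hPQ : P * Q = 0 := prj_disj (Set.disjoint_left.2 fun a h1 h2 => by
      simp only [mem_ofPred_eq] at h1 h2; omega)
    have hP'Q : P' * Q = 0 := prj_disj (Set.disjoint_left.2 fun a h1 h2 => by
      simp only [mem_ofPred_eq] at h1 h2; omega)
    have hP'P : P' * P = 0 := prj_disj (Set.disjoint_left.2 fun a h1 h2 => by
      simp only [mem_ofPred_eq] at h1 h2; omega)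
    have hsum : prj R {a | a ∈ S ∧ deg a < n + 1} = Q + P := by
      rw [hQdef, hPdef, ← prj_union (Set.disjoint_left.2 fun a h1 h2 => by
        simp only [mem_ofPred_eq] at h1 h2; omega)]
      congr 1; ext a; simp only [mem_ofPred_eq, mem_union]
      constructor
      · rintro ⟨h1, h2⟩
        rcases Nat.lt_succ_iff_lt_or_eq.1 h2 with h3 | h3
        · exact Or.inl ⟨h1, h3⟩
        · exact Or.inr ⟨h1, h3⟩
      · rintro (⟨h1, h2⟩ | ⟨h1, h2⟩)
        · exact ⟨h1, by omega⟩
        · exact ⟨h1, by omega⟩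
    have hPD : P * D = D * P' := by
      ext a b
      rw [hPdef, hP'def, prj_mul_apply, mul_prj_apply]
      by_cases hab : D a b = 0
      · simp [hab]
      · obtain ⟨h1, h2, h3⟩ := res_ne h hab
        by_cases h4 : deg a = n
        · rw [if_pos ⟨h1, h4⟩, if_pos ⟨h2, by omega⟩]
        · rw [if_neg (fun hh => h4 hh.2), if_neg (fun hh => h4 (by have := hh.2; omega))]
    have hQD : Q * (D * P) = D * P := prj_mul_eq fun a b hab => by
      obtain ⟨c, h1, h2⟩ := mul_ne hab
      obtain ⟨h3, -, h5⟩ := res_ne h h1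
      obtain ⟨-, h7⟩ := prj_ne h2
      exact ⟨h3, by have := h7.2; omega⟩
    have hγP : γ * P = 0 := by
      ext a b
      rw [hPdef, mul_prj_apply]
      split_ifs with hb
      · by_contra hne
        have := (hγ a b hne).2.2.2
        have := hb.2
        omega
      · rfl
    have hPγ : P * (γ * (D * P)) = γ * (D * P) := prj_mul_eq fun a b hab => by
      obtain ⟨c, h1, h2⟩ := mul_ne hab
      obtain ⟨e, h3, h4⟩ := mul_ne h2
      obtain ⟨h5, -, h6, -⟩ := hγ a c h1
      obtain ⟨-, -, h7⟩ := res_ne h h3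
      obtain ⟨-, h8⟩ := prj_ne h4
      exact ⟨h5, by have := h8.2; omega⟩
    set Z := P - γ * (D * P) with hZ
    have hDD : D * D = 0 := h.sq
    have hDZ : D * Z = 0 := by
      have e1 : (D * γ + γ * D) * Q * (D * P) = Q * (D * P) := by rw [hQ]
      rw [Matrix.mul_assoc, hQD, Matrix.add_mul, Matrix.mul_assoc γ, ← Matrix.mul_assoc D D, hDD,
        Matrix.zero_mul, Matrix.mul_zero, add_zero, Matrix.mul_assoc] at e1
      rw [hZ, Matrix.mul_sub, e1, sub_self]
    have hPZ : P * Z = Z := by rw [hZ, Matrix.mul_sub, hPP, hPγ]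
    have hZP : Z * P = Z := by
      rw [hZ, Matrix.sub_mul, hPP, Matrix.mul_assoc, Matrix.mul_assoc, hPP]
    have hcol : ∀ b, ∃ y : β → R, D *ᵥ y = fun a => Z a b := by
      intro b
      obtain ⟨y, -, hy⟩ := ha (fun a => Z a b) (fun a haS => by
        show Z a b = 0
        rw [← hPZ, hPdef, prj_mul_apply, if_neg (fun hh => haS hh.1)]) (by
        ext a
        have := congrFun (congrFun hDZ a) b
        rw [Matrix.mul_apply] at this
        exact this)
      exact ⟨y, hy⟩
    choose y hy using hcol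
    set Y₀ : Matrix β β R := fun a b => y b a with hY₀
    have hDY₀ : D * Y₀ = Z := by
      ext a b
      exact congrFun (hy b) a
    set Y := P' * Y₀ * P with hY
    have hDY : D * Y = Z := by
      rw [hY, ← Matrix.mul_assoc, ← Matrix.mul_assoc, ← hPD, Matrix.mul_assoc P, hDY₀, hPZ, hZP]
    have hYD : Y * D = P' * Y₀ * D * P' := by
      rw [hY, Matrix.mul_assoc, hPD, ← Matrix.mul_assoc]
    refine ⟨γ + Y, ?_, ?_⟩
    · intro a b hab
      by_cases h1 : γ a b = 0
      · rw [Matrix.add_apply, h1, zero_add, hY, hPdef, mul_prj_apply, hP'def, prj_mul_apply] at hab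
        split_ifs at hab with h2 h3
        · exact ⟨h3.1, h2.1, by have := h2.2; have := h3.2; omega, by have := h2.2; omega⟩
        · exact absurd rfl hab
        · exact absurd rfl hab
      · obtain ⟨h2, h3, h4, h5⟩ := hγ a b h1
        exact ⟨h2, h3, h4, by omega⟩
    · rw [hsum]
      have e1 : Z * Q = 0 := by rw [← hZP, Matrix.mul_assoc, hPQ, Matrix.mul_zero]
      have e2 : Y * D * Q = 0 := by rw [hYD, Matrix.mul_assoc, hP'Q, Matrix.mul_zero]
      have e3 : Y * D * P = 0 := by rw [hYD, Matrix.mul_assoc, hP'P, Matrix.mul_zero]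
      have e4 : D * γ * P = 0 := by rw [Matrix.mul_assoc, hγP, Matrix.mul_zero]
      have e5 : (D * (γ + Y) + (γ + Y) * D) * (Q + P) =
          (D * γ + γ * D) * Q + D * Y * Q + Y * D * Q + D * γ * P + γ * (D * P) + D * Y * P +
            Y * D * P := by noncomm_ring
      rw [e5, hQ, hDY, e1, e2, e3, e4, hZP, hZ]; abel

end AlgBAux
open AlgBAux

variable {R : Type*} [CommRing R] {β : Type*} [Fintype β] [DecidableEq β]
variable {d : Matrix β β R} {deg : β → ℕ}

theorem acyc_empty (d : Matrix β β R) : Acyc d (∅ : Set β) := by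
  intro z hz _
  refine ⟨0, fun _ _ => rfl, ?_⟩
  ext a
  rw [Matrix.mulVec_zero, hz a (by simp)]; rfl

theorem IsCx.sub {S₁ S₂ : Set β} (h : IsCx d deg (S₁ ∪ S₂)) (hdj : Disjoint S₁ S₂)
    (hc : ∀ a ∈ S₂, ∀ b ∈ S₁, d a b = 0) : IsCx d deg S₁ := by
  refine ⟨?_, fun a ha b hb => h.dg a (Or.inl ha) b (Or.inl hb)⟩
  have e1 := prj_res d (S₁ ∪ S₂)
  rw [prj_union hdj] at e1
  have e2 := block_zero (S₁ ∪ S₂) hc
  have e3 := h.sq
  have e4 := prj_idem (R := R) S₁
  rw [res_sub d (subset_union_left : S₁ ⊆ S₁ ∪ S₂)]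
  generalize res d (S₁ ∪ S₂) = D at *
  generalize prj R S₁ = p at *
  generalize prj R S₂ = q at *
  have e5 : p * D * p = D * p := by
    have : (p + q) * D * p = D * p := by rw [e1]
    rwa [add_mul, add_mul, e2, add_zero] at this
  calc p * D * p * (p * D * p) = p * D * (p * p * D * p) := by noncomm_ring
    _ = p * (D * D) * p := by rw [e4, e5]; noncomm_ring
    _ = 0 := by rw [e3]; simp

theorem IsCx.quot {S₁ S₂ : Set β} (h : IsCx d deg (S₁ ∪ S₂)) (hdj : Disjoint S₁ S₂)
    (hc : ∀ a ∈ S₂, ∀ b ∈ S₁, d a b = 0) : IsCx d deg S₂ := by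
  refine ⟨?_, fun a ha b hb => h.dg a (Or.inr ha) b (Or.inr hb)⟩
  have e1 := res_prj d (S₁ ∪ S₂)
  rw [prj_union hdj] at e1
  have e2 := block_zero (S₁ ∪ S₂) hc
  have e3 := h.sq
  have e4 := prj_idem (R := R) S₂
  rw [res_sub d (subset_union_right : S₂ ⊆ S₁ ∪ S₂)]
  generalize res d (S₁ ∪ S₂) = D at *
  generalize prj R S₁ = p at *
  generalize prj R S₂ = q at *
  have e5 : q * D * q = q * D := by
    have : q * (D * (p + q)) = q * D := by rw [e1]
    rwa [← mul_assoc, mul_add, e2, zero_add] at this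
  calc q * D * q * (q * D * q) = (q * D * (q * q)) * D * q := by noncomm_ring
    _ = q * (D * D) * q := by rw [e4, e5]; noncomm_ring
    _ = 0 := by rw [e3]; simp

theorem acyc_union {S₁ S₂ : Set β} (h : IsCx d deg (S₁ ∪ S₂)) (hdj : Disjoint S₁ S₂)
    (hc : ∀ a ∈ S₂, ∀ b ∈ S₁, d a b = 0) (h₁ : Acyc d S₁) (h₂ : Acyc d S₂) :
    Acyc d (S₁ ∪ S₂) := by
  rw [acyc_iff d (subset_union_left : S₁ ⊆ S₁ ∪ S₂)] at h₁
  rw [acyc_iff d (subset_union_right : S₂ ⊆ S₁ ∪ S₂)] at h₂
  rw [acyc_iff d (subset_refl _), prj_union hdj]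
  exact ac_union (prj_idem _) (prj_idem _) (prj_disj hdj) (prj_disj hdj.symm)
    (by rw [← prj_union hdj, prj_res]) (block_zero _ hc) h.sq h₁ h₂

theorem acyc_quot {S₁ S₂ : Set β} (h : IsCx d deg (S₁ ∪ S₂)) (hdj : Disjoint S₁ S₂)
    (hc : ∀ a ∈ S₂, ∀ b ∈ S₁, d a b = 0) (h₁ : Acyc d S₁) (h₁₂ : Acyc d (S₁ ∪ S₂)) :
    Acyc d S₂ := by
  rw [acyc_iff d (subset_union_left : S₁ ⊆ S₁ ∪ S₂)] at h₁
  rw [acyc_iff d (subset_refl _), prj_union hdj] at h₁₂
  rw [acyc_iff d (subset_union_right : S₂ ⊆ S₁ ∪ S₂)]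
  exact ac_quot (prj_idem _) (prj_idem _) (prj_disj hdj) (prj_disj hdj.symm)
    (by rw [← prj_union hdj, prj_res]) (block_zero _ hc) h.sq h₁ h₁₂

/-- two out of six for a three-step filtration -/
theorem acyc_six {S₁ S₂ S₃ : Set β} (h : IsCx d deg (S₁ ∪ S₂ ∪ S₃)) (h12 : Disjoint S₁ S₂)
    (h13 : Disjoint S₁ S₃) (h23 : Disjoint S₂ S₃)
    (c21 : ∀ a ∈ S₂, ∀ b ∈ S₁, d a b = 0) (c31 : ∀ a ∈ S₃, ∀ b ∈ S₁, d a b = 0)
    (c32 : ∀ a ∈ S₃, ∀ b ∈ S₂, d a b = 0)
    (a12 : Acyc d (S₁ ∪ S₂)) (a23 : Acyc d (S₂ ∪ S₃)) : Acyc d S₁ := by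
  rw [acyc_iff d (subset_union_left : S₁ ∪ S₂ ⊆ S₁ ∪ S₂ ∪ S₃), prj_union h12] at a12
  rw [acyc_iff d (union_subset_union_left S₃ subset_union_right : S₂ ∪ S₃ ⊆ S₁ ∪ S₂ ∪ S₃),
    prj_union h23] at a23
  rw [acyc_iff d (subset_union_left.trans subset_union_left : S₁ ⊆ S₁ ∪ S₂ ∪ S₃)]
  exact ac_six (prj_idem _) (prj_disj h12.symm) (prj_disj h13.symm) (prj_disj h23.symm)
    (by rw [← prj_union h12, ← prj_union (Set.disjoint_union_left.2 ⟨h13, h23⟩), prj_res])
    (block_zero _ c21) (block_zero _ c31) (block_zero _ c32) h.sq a12 a23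

theorem acyc_sub {S₁ S₂ : Set β} (h : IsCx d deg (S₁ ∪ S₂)) (hdj : Disjoint S₁ S₂)
    (hc : ∀ a ∈ S₂, ∀ b ∈ S₁, d a b = 0) (h₂ : Acyc d S₂) (h₁₂ : Acyc d (S₁ ∪ S₂)) :
    Acyc d S₁ :=
  acyc_six (deg := deg) (S₂ := S₂) (S₃ := ∅) (by rwa [union_empty]) hdj (by simp) (by simp) hc
    (by simp) (by simp) h₁₂ (by rwa [union_empty])

/-- reindexing and rescaling the basis by units -/
theorem acyc_transport {β' : Type*} [Fintype β'] [DecidableEq β'] {d' : Matrix β' β' R}
    {S : Set β} (e : β → β') (he : InjOn e S) (u v : β → R) (hu : ∀ a ∈ S, u a * v a = 1)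
    (hd : ∀ a ∈ S, ∀ b ∈ S, d' (e a) (e b) = v a * d a b * u b) :
    Acyc d S ↔ Acyc d' (e '' S) := by
  set E : Matrix β' β R := fun b' a => if a ∈ S ∧ b' = e a then v a else 0 with hE
  set F : Matrix β β' R := fun a b' => if a ∈ S ∧ b' = e a then u a else 0 with hF
  have EM : ∀ (w : β → R) (a : β), a ∈ S → ∑ b, E (e a) b * w b = v a * w a := by
    intro w a ha
    rw [Finset.sum_eq_single a]
    · simp [hE, ha]
    · intro b _ hb
      have : ¬ (b ∈ S ∧ e a = e b) := fun hh => hb (he ha hh.1 hh.2).symm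
      simp [hE, this]
    · simp
  have EM0 : ∀ (w : β → R) (a' : β'), a' ∉ e '' S → ∑ b, E a' b * w b = 0 := by
    intro w a' ha
    refine Finset.sum_eq_zero fun b _ => ?_
    have : ¬ (b ∈ S ∧ a' = e b) := fun hh => ha ⟨b, hh.1, hh.2.symm⟩
    simp [hE, this]
  have MF : ∀ (M : Matrix β' β R) (a : β) (c : β'), a ∈ S →
      (M * F) c (e a) = M c a * u a := by
    intro M a c ha
    rw [Matrix.mul_apply, Finset.sum_eq_single a]
    · simp [hF, ha]
    · intro b _ hb
      have : ¬ (b ∈ S ∧ e a = e b) := fun hh => hb (he ha hh.1 hh.2).symm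
      simp [hF, this]
    · simp
  have MF0 : ∀ (M : Matrix β' β R) (a' c : β'), a' ∉ e '' S → (M * F) c a' = 0 := by
    intro M a' c ha
    rw [Matrix.mul_apply]
    refine Finset.sum_eq_zero fun b _ => ?_
    have : ¬ (b ∈ S ∧ a' = e b) := fun hh => ha ⟨b, hh.1, hh.2.symm⟩
    simp [hF, this]
  have hFE : F * E = prj R S := by
    ext a b
    rw [Matrix.mul_apply, Finset.sum_eq_single (e a), prj_apply]
    · by_cases ha : a ∈ S
      · by_cases hab : a = b
        · subst hab; simp [hE, hF, ha, hu a ha]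
        · have : ¬ (b ∈ S ∧ e a = e b) := fun hh => hab (he ha hh.1 hh.2)
          simp [hE, hF, this, hab]
      · simp [hF, ha]
    · intro c _ hc
      simp [hF, hc]
    · simp
  have hEF : E * F = prj R (e '' S) := by
    ext a' b'
    rw [prj_apply]
    by_cases ha : a' ∈ e '' S
    · obtain ⟨a, haS, rfl⟩ := ha
      rw [Matrix.mul_apply, EM (fun b => F b b') a haS]
      by_cases hb : b' = e a
      · subst hb
        rw [if_pos ⟨rfl, mem_image_of_mem e haS⟩]
        simp [hF, haS, mul_comm (v a), hu a haS]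
      · rw [if_neg (fun hh => hb hh.1.symm)]
        simp [hF, hb]
    · rw [Matrix.mul_apply, EM0 (fun b => F b b') a' ha, if_neg (fun hh => ha hh.2)]
  have hF' : prj R S * F = F := prj_mul_eq fun a b hab => by
    by_contra ha; simp [hF, ha] at hab
  have hE' : prj R (e '' S) * E = E := prj_mul_eq fun a b hab => by
    by_contra ha
    have : ¬ (b ∈ S ∧ a = e b) := fun hh => ha ⟨b, hh.1, hh.2.symm⟩
    simp [hE, this] at hab
  have hres : res d' (e '' S) = E * res d S * F := by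
    ext a' b'
    by_cases hb : b' ∈ e '' S
    · obtain ⟨b, hbS, rfl⟩ := hb
      rw [MF _ b a' hbS]
      by_cases ha : a' ∈ e '' S
      · obtain ⟨a, haS, rfl⟩ := ha
        rw [Matrix.mul_apply, EM (fun c => res d S c b) a haS]
        unfold res
        rw [if_pos ⟨mem_image_of_mem e haS, mem_image_of_mem e hbS⟩, if_pos ⟨haS, hbS⟩,
          hd a haS b hbS]
      · rw [Matrix.mul_apply, EM0 (fun c => res d S c b) a' ha, zero_mul]
        unfold res
        rw [if_neg (fun hh => ha hh.1)]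
    · rw [MF0 _ b' a' hb]
      unfold res
      rw [if_neg (fun hh => hb hh.2)]
  refine ⟨acyc_of_conj E F hFE hEF hF' hE' hres, acyc_of_conj F E hEF hFE hE' hF' ?_⟩
  rw [hres, ← Matrix.mul_assoc, ← Matrix.mul_assoc, hFE, prj_res, Matrix.mul_assoc, hFE, res_prj]

theorem HasNu.acyc [StarRing R] {S : Set β} {W : R} (h : HasNu d deg S W) : Acyc d S := by
  obtain ⟨-, γ, h1, h2, -⟩ := h
  intro z hz hc
  rw [supp_iff] at hz
  refine ⟨γ *ᵥ z, (supp_iff _ _).2 ?_, ?_⟩
  · rw [Matrix.mulVec_mulVec, prj_mul_eq fun a b hab => (h1 a b hab).1]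
  · have : (res d S * γ + γ * res d S) *ᵥ z = z := by rw [h2, hz]
    rwa [Matrix.add_mulVec, ← Matrix.mulVec_mulVec z γ, hc, Matrix.mulVec_zero, add_zero,
      ← Matrix.mulVec_mulVec] at this

theorem exists_hasNu [StarRing R] {S : Set β} (h : IsCx d deg S) (ha : Acyc d S) :
    ∃ W, HasNu d deg S W := by
  obtain ⟨γ, h1, h2⟩ := exists_contr h ha (Finset.univ.sup deg + 1)
  have e : {a | a ∈ S ∧ deg a < Finset.univ.sup deg + 1} = S := by
    ext a
    exact ⟨fun hh => hh.1, fun hh =>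
      ⟨hh, Nat.lt_succ_of_le (Finset.le_sup (f := deg) (Finset.mem_univ a))⟩⟩
  rw [e] at h2
  refine ⟨_, h, γ, fun a b hab => ⟨(h1 a b hab).1, (h1 a b hab).2.1, (h1 a b hab).2.2.1⟩, ?_, rfl⟩
  have e2 : γ * prj R S = γ := by
    ext a b
    rw [mul_prj_apply]
    split_ifs with hb
    · rfl
    · by_contra hne; exact hb (h1 a b (Ne.symm hne)).2.1
  rwa [Matrix.add_mul, Matrix.mul_assoc, Matrix.mul_assoc, e2, res_prj] at h2

end SpunKnot
end
end

-- merged part: Pool.Agent.Work.MP_e1e788_gt.AlgC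
section
/-! Multiplicativity of the torsion norm; integral complexes have norm one. -/

open Set Matrix
open scoped Classical

noncomputable section
namespace SpunKnot
variable {R : Type*} [CommRing R] [StarRing R] {β : Type*} [Fintype β] [DecidableEq β]

namespace AlgCAux
omit [StarRing R]

/-- `M` maps the span of `B` to the span of `A` and shifts the degree by `k` -/
def Hm (deg : β → ℕ) (A B : Set β) (k : ℤ) (M : Matrix β β R) : Prop :=
  ∀ a b, M a b ≠ 0 → a ∈ A ∧ b ∈ B ∧ (deg a : ℤ) = deg b + k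

omit [Fintype β] [DecidableEq β] in
theorem Hm.add {deg : β → ℕ} {A B : Set β} {k : ℤ} {M N : Matrix β β R}
    (hM : Hm deg A B k M) (hN : Hm deg A B k N) : Hm deg A B k (M + N) := by
  intro a b h
  by_cases h1 : M a b = 0
  · apply hN
    intro h2
    apply h
    simp [h1, h2]
  · exact hM a b h1

omit [Fintype β] [DecidableEq β] in
theorem Hm.neg {deg : β → ℕ} {A B : Set β} {k : ℤ} {M : Matrix β β R}
    (hM : Hm deg A B k M) : Hm deg A B k (-M) := by
  intro a b h
  apply hM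
  intro h2
  apply h
  simp [h2]

omit [Fintype β] [DecidableEq β] in
theorem Hm.mono {deg : β → ℕ} {A B A' B' : Set β} {k : ℤ} {M : Matrix β β R}
    (hM : Hm deg A B k M) (hA : A ⊆ A') (hB : B ⊆ B') : Hm deg A' B' k M := by
  intro a b h
  obtain ⟨h1, h2, h3⟩ := hM a b h
  exact ⟨hA h1, hB h2, h3⟩

omit [DecidableEq β] in
theorem Hm.mul {deg : β → ℕ} {A B B' C : Set β} {k l : ℤ} {M N : Matrix β β R}
    (hM : Hm deg A B k M) (hN : Hm deg B' C l N) : Hm deg A C (k + l) (M * N) := by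
  intro a c h
  rw [Matrix.mul_apply] at h
  obtain ⟨b, -, hb⟩ := Finset.exists_ne_zero_of_sum_ne_zero h
  have h1 : M a b ≠ 0 := left_ne_zero_of_mul hb
  have h2 : N b c ≠ 0 := right_ne_zero_of_mul hb
  obtain ⟨p1, -, p3⟩ := hM a b h1
  obtain ⟨-, q2, q3⟩ := hN b c h2
  exact ⟨p1, q2, by omega⟩

omit [DecidableEq β] in
theorem Hm.mul_zero' {deg : β → ℕ} {A B B' C : Set β} {k l : ℤ} {M N : Matrix β β R}
    (hM : Hm deg A B k M) (hN : Hm deg B' C l N) (hd : Disjoint B B') : M * N = 0 := by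
  ext a c
  rw [Matrix.mul_apply]
  apply Finset.sum_eq_zero
  intro b _
  by_contra hb
  have h1 : M a b ≠ 0 := left_ne_zero_of_mul hb
  have h2 : N b c ≠ 0 := right_ne_zero_of_mul hb
  exact Set.disjoint_left.1 hd (hM a b h1).2.1 (hN b c h2).1

theorem Hm.prj_mul {deg : β → ℕ} {A B A' : Set β} {k : ℤ} {M : Matrix β β R}
    (hM : Hm deg A B k M) (hA : A ⊆ A') : prj R A' * M = M := by
  ext a b
  unfold prj
  rw [Matrix.diagonal_mul]
  by_cases h : M a b = 0
  · simp [h]
  · simp [hA (hM a b h).1]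

theorem Hm.mul_prj {deg : β → ℕ} {A B B' : Set β} {k : ℤ} {M : Matrix β β R}
    (hM : Hm deg A B k M) (hB : B ⊆ B') : M * prj R B' = M := by
  ext a b
  unfold prj
  rw [Matrix.mul_diagonal]
  by_cases h : M a b = 0
  · simp [h]
  · simp [hB (hM a b h).2.1]

omit [Fintype β] in
theorem hm_prj (deg : β → ℕ) (A : Set β) : Hm deg A A 0 (prj R A) := by
  intro a b h
  unfold prj at h
  rw [Matrix.diagonal_apply] at h
  by_cases hab : a = b
  · subst hab
    by_cases ha : a ∈ A
    · exact ⟨ha, ha, by simp⟩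
    · simp [ha] at h
  · simp [hab] at h

omit [DecidableEq β] in
theorem hm_res {d : Matrix β β R} {deg : β → ℕ} {S : Set β} (h : IsCx d deg S) :
    Hm deg S S (-1) (res d S) := by
  intro a b hab
  unfold res at hab
  by_cases h1 : a ∈ S ∧ b ∈ S
  · rw [if_pos h1] at hab
    have := h.dg a h1.1 b h1.2 hab
    exact ⟨h1.1, h1.2, by omega⟩
  · rw [if_neg h1] at hab
    exact absurd rfl hab

omit [Fintype β] in
theorem prj_union {A B : Set β} (h : Disjoint A B) : prj R (A ∪ B) = prj R A + prj R B := by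
  ext a b
  unfold prj
  simp only [Matrix.add_apply, Matrix.diagonal_apply]
  by_cases hab : a = b
  · subst hab
    by_cases ha : a ∈ A
    · have : a ∉ B := Set.disjoint_left.1 h ha
      simp [ha, this]
    · by_cases hb : a ∈ B <;> simp [ha, hb]
  · simp [hab]

theorem Hm.nilp {deg : β → ℕ} {A B : Set β} {M : Matrix β β R} (hM : Hm deg A B 1 M) :
    IsNilpotent M := by
  have key : ∀ n : ℕ, Hm deg univ univ (n : ℤ) (M ^ n) := by
    intro n
    induction n with
    | zero =>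
      intro a b h
      rw [pow_zero, Matrix.one_apply] at h
      by_cases hab : a = b
      · subst hab
        simp
      · simp [hab] at h
    | succ n ih =>
      rw [pow_succ]
      have := ih.mul (hM.mono (subset_univ _) (subset_univ _))
      simpa using this
  refine ⟨Finset.univ.sup deg + 1, ?_⟩
  ext a b
  by_contra h
  have h1 := (key _ a b h).2.2
  have h2 : deg a ≤ Finset.univ.sup deg := Finset.le_sup (Finset.mem_univ a)
  push_cast at h1
  omega

/-- a matrix of odd degree exchanges parities -/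
theorem Hm.parity {deg : β → ℕ} {A B : Set β} {k : ℤ} {M : Matrix β β R} (hM : Hm deg A B k M)
    (hk : k = 1 ∨ k = -1) :
    M * prj R {a | a ∈ B ∧ Odd (deg a)} = M - prj R {a | a ∈ A ∧ Odd (deg a)} * M := by
  ext a b
  unfold prj
  rw [Matrix.sub_apply, Matrix.diagonal_mul, Matrix.mul_diagonal]
  by_cases h : M a b = 0
  · simp [h]
  · obtain ⟨h1, h2, h3⟩ := hM a b h
    by_cases ho : Odd (deg a)
    · have : ¬ Odd (deg b) := by
        rw [Nat.odd_iff] at ho ⊢
        omega
      simp [h1, h2, ho, this]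
    · have : Odd (deg b) := by
        rw [Nat.odd_iff] at ho ⊢
        omega
      simp [h1, h2, ho, this]

theorem prj_mul_prj (A : Set β) : prj R A * prj R A = prj R A :=
  (hm_prj (fun _ => 0) A).prj_mul subset_rfl

/-- the contraction identity in an abstract ring -/
theorem contr {A : Type*} [Ring A] (p1 p2 d1 d2 x g1 g2 : A)
    (e1 : d1 * g1 + g1 * d1 = p1) (e2 : d2 * g2 + g2 * d2 = p2)
    (hx : d1 * x + x * d2 = 0) (px : p1 * x = x) (xp : x * p2 = x) (pg : p1 * g1 = g1)
    (z1 : d1 * g2 = 0) (z2 : d2 * g1 = 0) (z3 : x * g1 = 0) (z4 : g1 * d2 = 0) (z5 : g2 * d1 = 0)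
    (z6 : g2 * x = 0) (z7 : x * d1 = 0) (z8 : x * x = 0) :
    (d1 + d2 + x) * (g1 + g2 + -(g1 * (x * g2 + g1 * x))) +
      (g1 + g2 + -(g1 * (x * g2 + g1 * x))) * (d1 + d2 + x) = p1 + p2 := by
  have hx' : x * d2 = -(d1 * x) := by rw [eq_neg_iff_add_eq_zero, add_comm]; exact hx
  have a1 : d1 * g1 = p1 - g1 * d1 := by rw [← e1]; abel
  have a2 : g2 * d2 = p2 - d2 * g2 := by rw [← e2]; abel
  obtain ⟨n, hn⟩ : ∃ n, n = x * g2 + g1 * x := ⟨_, rfl⟩
  have n1 : n * d2 = d1 * n := by
    have t1 : x * g2 * d2 = x + d1 * x * g2 := by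
      rw [mul_assoc, a2, mul_sub, xp, ← mul_assoc, hx']; noncomm_ring
    have t2 : d1 * (g1 * x) = x - g1 * (d1 * x) := by
      rw [← mul_assoc, a1, sub_mul, px, mul_assoc]
    rw [hn, add_mul, mul_add, t1, t2, mul_assoc g1 x, hx']; noncomm_ring
  have n2 : p1 * n = n := by rw [hn, mul_add, ← mul_assoc, ← mul_assoc, px, pg]
  have n3 : n * d1 = 0 := by rw [hn, add_mul, mul_assoc, mul_assoc, z5, z7]; simp
  have n4 : n * x = 0 := by rw [hn, add_mul, mul_assoc, mul_assoc, z6, z8]; simp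
  have y1 : (d1 + d2 + x) * (g1 * n) = d1 * g1 * n := by
    rw [← mul_assoc, add_mul (d1 + d2), add_mul d1, z2, z3]; simp
  have y2 : (g1 * n) * (d1 + d2 + x) = g1 * d1 * n := by
    rw [mul_assoc, mul_add n, mul_add n, n3, n4, n1]; simp [mul_assoc]
  have y3 : d1 * g1 * n + g1 * d1 * n = n := by rw [← add_mul, e1, n2]
  have y4 : (d1 + d2 + x) * (g1 + g2) + (g1 + g2) * (d1 + d2 + x) = p1 + p2 + n := by
    rw [← e1, ← e2, hn]
    simp only [add_mul, mul_add, z1, z2, z3, z4, z5, z6]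
    abel
  rw [← hn, mul_add _ (g1 + g2), add_mul (g1 + g2), mul_neg, neg_mul, y1, y2]
  have : (d1 + d2 + x) * (g1 + g2) + -(d1 * g1 * n) +
      ((g1 + g2) * (d1 + d2 + x) + -(g1 * d1 * n)) =
      ((d1 + d2 + x) * (g1 + g2) + (g1 + g2) * (d1 + d2 + x)) - (d1 * g1 * n + g1 * d1 * n) := by
    abel
  rw [this, y4, y3]
  abel

/-- the product of two block norm matrices in an abstract star ring -/
theorem blocks {A : Type*} [Ring A] [StarRing A] (o1 o2 t1 t2 u z : A)
    (s1 : star o1 = o1) (s2 : star o2 = o2)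
    (o12 : o1 * o2 = 0) (o21 : o2 * o1 = 0) (t12 : star t1 * t2 = 0)
    (t1o2 : t1 * o2 = 0) (t2o1 : t2 * o1 = 0) (uo1 : u * o1 = 0)
    (hz : t1 * o1 * z = u * o2) (oz : o1 * z = z) :
    (o1 + o2) * star (t1 + t2 + u) * (t1 + t2 + u) * (o1 + o2) + (1 - (o1 + o2)) =
      star (1 + z) * ((o1 * star t1 * t1 * o1 + (1 - o1)) * (o2 * star t2 * t2 * o2 + (1 - o2))) *
        (1 + z) := by
  have t21 : star t2 * t1 = 0 := by
    have := congrArg star t12
    simpa using this
  have o2z : o2 * z = 0 := by rw [← oz, ← mul_assoc, o21, zero_mul]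
  obtain ⟨a, ha⟩ : ∃ a, a = t1 * o1 + t2 * o2 := ⟨_, rfl⟩
  have hsa : star a = o1 * star t1 + o2 * star t2 := by rw [ha]; simp [s1, s2]
  have hB : (t1 + t2 + u) * (o1 + o2) = a * (1 + z) := by
    rw [ha]
    simp only [add_mul, mul_add, t1o2, t2o1, uo1, mul_one, hz, mul_assoc t2 o2 z, o2z, mul_zero]
    abel
  have hsB : (o1 + o2) * star (t1 + t2 + u) = star (1 + z) * star a := by
    have := congrArg star hB
    rw [star_mul, star_mul, star_add o1, s1, s2] at this
    exact this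
  have hM : (o1 * star t1 * t1 * o1 + (1 - o1)) * (o2 * star t2 * t2 * o2 + (1 - o2)) =
      star a * a + (1 - (o1 + o2)) := by
    have k1 : o1 * star t1 * t1 * o1 * (o2 * star t2 * t2 * o2) = 0 := by
      have : o1 * star t1 * t1 * o1 * (o2 * star t2 * t2 * o2) =
          o1 * star t1 * t1 * (o1 * o2) * star t2 * t2 * o2 := by noncomm_ring
      rw [this, o12]; simp
    have k2 : o1 * star t1 * t1 * o1 * (1 - o2) = o1 * star t1 * t1 * o1 := by
      rw [mul_sub, mul_one, mul_assoc _ o1 o2, o12]; simp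
    have k3 : (1 - o1) * (o2 * star t2 * t2 * o2) = o2 * star t2 * t2 * o2 := by
      have : o1 * (o2 * star t2 * t2 * o2) = (o1 * o2) * star t2 * t2 * o2 := by noncomm_ring
      rw [sub_mul, one_mul, this, o12]; simp
    have k4 : (1 - o1) * (1 - o2) = 1 - (o1 + o2) := by
      rw [sub_mul, one_mul, mul_sub, mul_one, o12]; abel
    have k5 : star a * a = o1 * star t1 * t1 * o1 + o2 * star t2 * t2 * o2 := by
      have m1 : o1 * star t1 * (t2 * o2) = 0 := by
        rw [mul_assoc, ← mul_assoc (star t1), t12]; simp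
      have m2 : o2 * star t2 * (t1 * o1) = 0 := by
        rw [mul_assoc, ← mul_assoc (star t2), t21]; simp
      rw [hsa, ha, add_mul, mul_add, mul_add, m1, m2]; noncomm_ring
    rw [add_mul, mul_add, mul_add, k1, k2, k3, k4, k5]; abel
  have q1 : (1 - (o1 + o2)) * (1 + z) = 1 - (o1 + o2) := by
    rw [mul_add, mul_one, sub_mul, one_mul, add_mul, oz, o2z]; abel
  have q2 : star (1 + z) * (1 - (o1 + o2)) = 1 - (o1 + o2) := by
    have := congrArg star q1
    rw [star_mul, star_sub, star_add o1, s1, s2, star_one] at this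
    exact this
  rw [hM, mul_add (star (1 + z)), add_mul (star (1 + z) * _), q2, q1, mul_assoc ((o1 + o2) * _),
    hB, hsB]
  noncomm_ring

end AlgCAux

open AlgCAux in
theorem hasNu_union {d : Matrix β β R} {deg : β → ℕ} {S₁ S₂ : Set β} {W₁ W₂ : R}
    (h : IsCx d deg (S₁ ∪ S₂)) (hdj : Disjoint S₁ S₂) (hc : ∀ a ∈ S₂, ∀ b ∈ S₁, d a b = 0)
    (h₁ : HasNu d deg S₁ W₁) (h₂ : HasNu d deg S₂ W₂) : HasNu d deg (S₁ ∪ S₂) (W₁ * W₂) := by
  obtain ⟨c1, g1, hg1, e1, w1⟩ := h₁
  obtain ⟨c2, g2, hg2, e2, w2⟩ := h₂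
  have G1 : Hm deg S₁ S₁ 1 g1 := fun a b hab => by
    obtain ⟨p, q, r⟩ := hg1 a b hab
    exact ⟨p, q, by omega⟩
  have G2 : Hm deg S₂ S₂ 1 g2 := fun a b hab => by
    obtain ⟨p, q, r⟩ := hg2 a b hab
    exact ⟨p, q, by omega⟩
  have D1 := hm_res c1
  have D2 := hm_res c2
  obtain ⟨x, hx⟩ : ∃ x : Matrix β β R,
      x = fun a b => if a ∈ S₁ ∧ b ∈ S₂ then d a b else 0 := ⟨_, rfl⟩
  have X : Hm deg S₁ S₂ (-1) x := by
    intro a b hab
    rw [hx] at hab
    by_cases h1 : a ∈ S₁ ∧ b ∈ S₂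
    · simp only [if_pos h1] at hab
      have := h.dg a (Or.inl h1.1) b (Or.inr h1.2) hab
      exact ⟨h1.1, h1.2, by omega⟩
    · simp only [if_neg h1] at hab
      exact absurd rfl hab
  have hD : res d (S₁ ∪ S₂) = res d S₁ + res d S₂ + x := by
    ext a b
    have ha : a ∈ S₁ → a ∉ S₂ := fun t => Set.disjoint_left.1 hdj t
    have hb : b ∈ S₁ → b ∉ S₂ := fun t => Set.disjoint_left.1 hdj t
    have hab : a ∈ S₂ → b ∈ S₁ → d a b = 0 := fun t1 t2 => hc a t1 b t2
    rw [hx]
    simp only [res, Matrix.add_apply, mem_union]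
    by_cases a1 : a ∈ S₁ <;> by_cases a2 : a ∈ S₂ <;> by_cases b1 : b ∈ S₁ <;>
      by_cases b2 : b ∈ S₂ <;> (clear * - a1 a2 b1 b2 ha hb hc; simp_all)
  have hdj' := hdj.symm
  have z8 : x * x = 0 := X.mul_zero' X hdj'
  have z7 : x * res d S₁ = 0 := X.mul_zero' D1 hdj'
  have hxx : res d S₁ * x + x * res d S₂ = 0 := by
    have := h.sq
    rw [hD] at this
    simp only [add_mul, mul_add, c1.sq, c2.sq, z7, z8, D1.mul_zero' D2 hdj,
      D2.mul_zero' D1 hdj', D2.mul_zero' X hdj', zero_add, add_zero] at this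
    rw [add_comm]
    exact this
  have Y : Hm deg S₁ S₂ 1 (-(g1 * (x * g2 + g1 * x))) := by
    have t1 : Hm deg S₁ S₂ 0 (x * g2) := by simpa using X.mul G2
    have t2 : Hm deg S₁ S₂ 0 (g1 * x) := by simpa using G1.mul X
    simpa using (G1.mul (t1.add t2)).neg
  obtain ⟨y, hy⟩ : ∃ y, y = -(g1 * (x * g2 + g1 * x)) := ⟨_, rfl⟩
  have hcontr := contr (prj R S₁) (prj R S₂) (res d S₁) (res d S₂) x g1 g2 e1 e2 hxx
    (X.prj_mul subset_rfl) (X.mul_prj subset_rfl) (G1.prj_mul subset_rfl)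
    (D1.mul_zero' G2 hdj) (D2.mul_zero' G1 hdj') (X.mul_zero' G1 hdj') (G1.mul_zero' D2 hdj)
    (G2.mul_zero' D1 hdj') (G2.mul_zero' X hdj') z7 z8
  rw [← hy] at hcontr Y
  refine ⟨h, g1 + g2 + y, ?_, ?_, ?_⟩
  · intro a b hab
    have := (((G1.mono subset_union_left subset_union_left).add
      (G2.mono subset_union_right subset_union_right)).add
      (Y.mono subset_union_left subset_union_right)) a b hab
    exact ⟨this.1, this.2.1, by omega⟩
  · rw [hD, prj_union hdj]
    exact hcontr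
  · have hset : {a | a ∈ S₁ ∪ S₂ ∧ Odd (deg a)} =
        {a | a ∈ S₁ ∧ Odd (deg a)} ∪ {a | a ∈ S₂ ∧ Odd (deg a)} := by
      ext a
      simp only [mem_ofPred_eq, mem_union]
      tauto
    have sub1 : {a | a ∈ S₁ ∧ Odd (deg a)} ⊆ S₁ := fun a ha => ha.1
    have sub2 : {a | a ∈ S₂ ∧ Odd (deg a)} ⊆ S₂ := fun a ha => ha.1
    have hdo : Disjoint {a | a ∈ S₁ ∧ Odd (deg a)} {a | a ∈ S₂ ∧ Odd (deg a)} :=
      hdj.mono sub1 sub2
    have O1 := hm_prj (R := R) deg {a | a ∈ S₁ ∧ Odd (deg a)}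
    have O2 := hm_prj (R := R) deg {a | a ∈ S₂ ∧ Odd (deg a)}
    have pX := X.parity (Or.inr rfl)
    have pY := Y.parity (Or.inl rfl)
    have pD := D1.parity (Or.inr rfl)
    have pG := G1.parity (Or.inl rfl)
    have i1 := prj_mul_prj (R := R) {a | a ∈ S₁ ∧ Odd (deg a)}
    have hst : ∀ A : Set β, star (prj R A) = prj R A := by
      intro A
      ext a b
      unfold prj
      rw [Matrix.star_apply, Matrix.diagonal_apply, Matrix.diagonal_apply]
      by_cases hab : a = b
      · subst hab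
        by_cases ha : a ∈ A <;> simp [ha]
      · simp [hab, Ne.symm hab]
    have s1 := hst {a | a ∈ S₁ ∧ Odd (deg a)}
    have s2 := hst {a | a ∈ S₂ ∧ Odd (deg a)}
    have o12 := O1.mul_zero' O2 hdo
    have o21 := O2.mul_zero' O1 hdo.symm
    have d1o2 := D1.mul_zero' O2 (hdj.mono_right sub2)
    have g1o2 := G1.mul_zero' O2 (hdj.mono_right sub2)
    have d2o1 := D2.mul_zero' O1 (hdj'.mono_right sub1)
    have g2o1 := G2.mul_zero' O1 (hdj'.mono_right sub1)
    have xo1 := X.mul_zero' O1 (hdj'.mono_right sub1)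
    have yo1 := Y.mul_zero' O1 (hdj'.mono_right sub1)
    rw [hset, prj_union hdo, hD]
    generalize prj R {a | a ∈ S₁ ∧ Odd (deg a)} = o1 at *
    generalize prj R {a | a ∈ S₂ ∧ Odd (deg a)} = o2 at *
    have p1t1 : prj R S₁ * (res d S₁ + g1) = res d S₁ + g1 := by
      rw [mul_add, D1.prj_mul subset_rfl, G1.prj_mul subset_rfl]
    have p2t2 : prj R S₂ * (res d S₂ + g2) = res d S₂ + g2 := by
      rw [mul_add, D2.prj_mul subset_rfl, G2.prj_mul subset_rfl]
    have t12 : star (res d S₁ + g1) * (res d S₂ + g2) = 0 := by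
      rw [← p1t1, ← p2t2, star_mul, hst, mul_assoc, ← mul_assoc (prj R S₁),
        (hm_prj deg S₁).mul_zero' (hm_prj deg S₂) hdj]
      simp
    obtain ⟨J, hJ⟩ : ∃ J : Matrix β β R, (1 + g1 * g1) * J = 1 := by
      have hn : IsNilpotent (g1 * g1) := (Commute.refl g1).isNilpotent_mul_right G1.nilp
      obtain ⟨v, hv⟩ := hn.isUnit_one_add
      exact ⟨↑v⁻¹, by rw [← hv]; simp⟩
    have hK : (res d S₁ + g1) * ((res d S₁ + g1) * J) = prj R S₁ := by
      have : (res d S₁ + g1) * (res d S₁ + g1) = prj R S₁ * (1 + g1 * g1) := by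
        rw [mul_add (prj R S₁), mul_one, ← mul_assoc, G1.prj_mul subset_rfl, ← e1]
        simp only [add_mul, mul_add, c1.sq]
        abel
      rw [← mul_assoc, this, mul_assoc, hJ, mul_one]
    have pU : (x + y) * o2 = (x + y) - o1 * (x + y) := by
      rw [add_mul, pX, pY, mul_add]; abel
    have pT : (res d S₁ + g1) * o1 = (res d S₁ + g1) - o1 * (res d S₁ + g1) := by
      rw [add_mul, pD, pG, mul_add]; abel
    have p1u : prj R S₁ * (x + y) = x + y := by
      rw [mul_add, X.prj_mul subset_rfl, Y.prj_mul subset_rfl]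
    have ouo : o1 * ((x + y) * o2) = 0 := by
      rw [pU, mul_sub, ← mul_assoc, i1, sub_self]
    obtain ⟨t1, ht1⟩ : ∃ t1, t1 = res d S₁ + g1 := ⟨_, rfl⟩
    obtain ⟨t2, ht2⟩ : ∃ t2, t2 = res d S₂ + g2 := ⟨_, rfl⟩
    obtain ⟨u, hu⟩ : ∃ u, u = x + y := ⟨_, rfl⟩
    have hT : res d S₁ + res d S₂ + x + (g1 + g2 + y) = t1 + t2 + u := by
      rw [ht1, ht2, hu]; abel
    have t1o2 : t1 * o2 = 0 := by rw [ht1, add_mul, d1o2, g1o2, add_zero]
    have t2o1 : t2 * o1 = 0 := by rw [ht2, add_mul, d2o1, g2o1, add_zero]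
    have uo1 : u * o1 = 0 := by rw [hu, add_mul, xo1, yo1, add_zero]
    rw [← ht1] at hK pT t12 w1
    rw [← ht2] at t12 w2
    rw [← hu] at p1u ouo
    have hz : t1 * o1 * (o1 * (t1 * J * (u * o2))) = u * o2 := by
      have m1 : t1 * (t1 * J * (u * o2)) = u * o2 := by
        rw [← mul_assoc, hK, ← mul_assoc, p1u]
      rw [mul_assoc t1 o1, ← mul_assoc o1 o1, i1, ← mul_assoc t1 o1, pT, sub_mul, mul_assoc o1,
        m1, ouo, sub_zero]
    have oz : o1 * (o1 * (t1 * J * (u * o2))) = o1 * (t1 * J * (u * o2)) := by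
      rw [← mul_assoc, i1]
    have hdet : (1 + o1 * (t1 * J * (u * o2))).det = 1 := by
      rw [Matrix.det_one_add_mul_comm, mul_assoc, mul_assoc u, o21]
      simp
    have key := blocks o1 o2 t1 t2 u _ s1 s2 o12 o21 t12 t1o2 t2o1 uo1 hz oz
    rw [hT]
    simp only [Matrix.star_eq_conjTranspose] at key
    rw [key, Matrix.det_mul, Matrix.det_mul, Matrix.det_mul, Matrix.det_conjTranspose, hdet, w1, w2]
    simp

theorem hasNu_int {d : Matrix β β ℤ} {deg : β → ℕ} {S : Set β} (h : IsCx d deg S)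
    (ha : Acyc d S) : HasNu (d.map (Int.castRingHom R)) deg S 1 := by
  obtain ⟨W, hW⟩ := exists_hasNu h ha
  obtain ⟨w, hw, rfl⟩ := hW.unit
  have h1 : w * star w = 1 := by
    rcases Int.isUnit_iff.1 hw with rfl | rfl <;> simp
  have := hW.map (Int.castRingHom R) (by intro x; simp)
  rwa [h1, map_one] at this

end SpunKnot
end
end

-- merged part: Pool.Agent.Work.MP_e1e788_gt.NerveA
section
/-! Simplicial facts about `bd`. -/

open Set Matrix
open scoped Classical

noncomputable section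
namespace SpunKnot
variable {R : Type*} [CommRing R] {ι : Type*} [Fintype ι] [LinearOrder ι]

namespace NerveAAux

/-- the sign of the face opposite to `i` -/
def sg (R : Type*) [CommRing R] (σ : Finset ι) (i : ι) : R := (-1) ^ (σ.filter (· < i)).card

omit [Fintype ι] in
theorem sg_sq (σ : Finset ι) (i : ι) : sg R σ i * sg R σ i = 1 := by
  rw [sg, ← mul_pow, neg_one_mul, neg_neg, one_pow]

omit [Fintype ι] in
theorem sg_erase_lt {σ : Finset ι} {i j : ι} (hi : i ∈ σ) (h : i < j) :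
    sg R σ j = -sg R (σ.erase i) j := by
  have h1 : (σ.filter (· < j)).card = ((σ.erase i).filter (· < j)).card + 1 := by
    rw [Finset.filter_erase, Finset.card_erase_add_one (Finset.mem_filter.2 ⟨hi, h⟩)]
  rw [sg, sg, h1, pow_succ, mul_neg_one]

omit [Fintype ι] in
theorem sg_erase_ge (σ : Finset ι) {i j : ι} (h : ¬ i < j) : sg R (σ.erase i) j = sg R σ j := by
  have h1 : i ∉ σ.filter (· < j) := fun h' => h (Finset.mem_filter.1 h').2
  rw [sg, sg, Finset.filter_erase, Finset.erase_eq_of_notMem h1]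

omit [Fintype ι] in
theorem sg_anti {σ : Finset ι} {i j : ι} (hi : i ∈ σ) (hj : j ∈ σ) (h : i ≠ j) :
    sg R σ i * sg R (σ.erase i) j = -(sg R σ j * sg R (σ.erase j) i) := by
  rcases lt_or_gt_of_ne h with h | h
  · rw [sg_erase_lt hi h, sg_erase_ge σ h.not_gt]
    ring
  · rw [sg_erase_lt hj h, sg_erase_ge σ h.not_gt]
    ring

omit [Fintype ι] in
theorem bd_apply (g : ι → ι → R) (τ σ : Finset ι) :
    bd g τ σ = ∑ i ∈ σ, if τ = σ.erase i then sg R σ i * tw g σ τ else 0 := rfl

theorem sum_bd (g : ι → ι → R) (F : Finset ι → R) (σ : Finset ι) :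
    ∑ τ, F τ * bd g τ σ = ∑ i ∈ σ, F (σ.erase i) * (sg R σ i * tw g σ (σ.erase i)) := by
  simp only [bd_apply, Finset.mul_sum]
  rw [Finset.sum_comm]
  refine Finset.sum_congr rfl fun i _ => ?_
  simp only [mul_ite, mul_zero]
  rw [Finset.sum_ite_eq', if_pos (Finset.mem_univ _)]

omit [Fintype ι] in
theorem exists_of_bd {g : ι → ι → R} {τ σ : Finset ι} (h : bd g τ σ ≠ 0) :
    ∃ i ∈ σ, τ = σ.erase i := by
  obtain ⟨i, hi, h1⟩ := Finset.exists_ne_zero_of_sum_ne_zero h
  exact ⟨i, hi, by_contra fun h2 => h1 (if_neg h2)⟩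

omit [Fintype ι] in
theorem tw_one {g : ι → ι → R} (h : ∀ i j, g i j = 1) (σ τ : Finset ι) : tw g σ τ = 1 := by
  unfold tw
  split_ifs
  · exact h _ _
  · rfl

theorem bd_bd (g : ι → ι → R) (ρ σ : Finset ι)
    (h : ∀ τ, ρ ⊆ τ → τ ⊆ σ → tw g σ τ * tw g τ ρ = tw g σ ρ) :
    ∑ τ, bd g ρ τ * bd g τ σ = 0 := by
  let F : ι × ι → R := fun p => if p.2 ≠ p.1 ∧ ρ = (σ.erase p.1).erase p.2 then
    sg R σ p.1 * sg R (σ.erase p.1) p.2 * tw g σ ρ else 0
  have h1 : ∑ τ, bd g ρ τ * bd g τ σ = ∑ p ∈ σ ×ˢ σ, F p := by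
    rw [sum_bd, Finset.sum_product]
    refine Finset.sum_congr rfl fun i hi => ?_
    rw [bd_apply, Finset.sum_mul, ← Finset.sum_erase (f := fun j => F (i, j)) (a := i) σ
      (if_neg fun h => h.1 rfl)]
    refine Finset.sum_congr rfl fun j hj => ?_
    by_cases e : ρ = (σ.erase i).erase j
    · have h2 := h (σ.erase i) (e ▸ Finset.erase_subset _ _) (Finset.erase_subset _ _)
      simp only [F]
      rw [if_pos e, if_pos ⟨Finset.ne_of_mem_erase hj, e⟩, ← h2]
      ring
    · simp only [F]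
      rw [if_neg e, if_neg fun h => e h.2, zero_mul]
  rw [h1]
  refine Finset.sum_involution (fun p _ => p.swap) ?_ ?_ ?_ ?_
  · rintro ⟨i, j⟩ hp
    obtain ⟨hi, hj⟩ := Finset.mem_product.1 hp
    simp only [F, Prod.swap]
    by_cases e : j ≠ i ∧ ρ = (σ.erase i).erase j
    · rw [if_pos e, if_pos ⟨e.1.symm, e.2.trans Finset.erase_right_comm⟩, sg_anti hi hj e.1.symm]
      ring
    · rw [if_neg e, if_neg fun h => e ⟨h.1.symm, h.2.trans Finset.erase_right_comm⟩, add_zero]
  · rintro ⟨i, j⟩ _ hF e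
    exact hF (if_neg fun h => h.1 (congrArg Prod.fst e))
  · rintro ⟨i, j⟩ hp
    obtain ⟨hi, hj⟩ := Finset.mem_product.1 hp
    exact Finset.mem_product.2 ⟨hj, hi⟩
  · rintro ⟨i, j⟩ _
    rfl

/-- the cone operator -/
def cn (v : ι) : Matrix (Finset ι) (Finset ι) ℤ := fun σ ρ =>
  if v ∉ ρ ∧ σ = insert v ρ then sg ℤ ρ v else 0

theorem cn_eq (v : ι) : bdZ ι * cn v + cn v * bdZ ι = 1 := by
  ext τ ρ
  have t1 := tw_one (ι := ι) (g := fun _ _ => (1 : ℤ)) fun _ _ => rfl
  rw [Matrix.add_apply, Matrix.mul_apply, Matrix.mul_apply, sum_bd, Matrix.one_apply]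
  simp only [t1, mul_one]
  by_cases hv : v ∈ ρ
  · rw [Finset.sum_eq_zero fun σ _ => by rw [cn, if_neg fun h => h.1 hv, mul_zero], zero_add,
      Finset.sum_eq_single_of_mem v hv fun i _ hi => by
        rw [cn, if_neg fun h => h.1 (Finset.mem_erase.2 ⟨hi.symm, hv⟩), zero_mul],
      cn, Finset.insert_erase hv, sg_erase_ge ρ (lt_irrefl v)]
    by_cases e : τ = ρ
    · rw [if_pos ⟨Finset.notMem_erase _ _, e⟩, if_pos e, sg_sq]
    · rw [if_neg fun h => e h.2, if_neg e, zero_mul]
  · have e0 : (insert v ρ).erase v = ρ := Finset.erase_insert hv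
    have e1 : sg ℤ (insert v ρ) v = sg ℤ ρ v := by
      rw [← sg_erase_ge (insert v ρ) (lt_irrefl v), e0]
    rw [Finset.sum_eq_single (insert v ρ) (fun σ _ hσ => by
        rw [cn, if_neg fun h => hσ h.2, mul_zero]) (fun h => (h (Finset.mem_univ _)).elim),
      cn, if_pos ⟨hv, rfl⟩, bdZ, bd_apply, Finset.sum_insert hv, e0, add_mul, add_assoc,
      Finset.sum_mul,
      ← Finset.sum_add_distrib, Finset.sum_eq_zero, add_zero, e1, t1, mul_one]
    · by_cases e : τ = ρ
      · rw [if_pos e, if_pos e, sg_sq]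
      · rw [if_neg e, if_neg e, zero_mul]
    · intro i hi
      have hne : v ≠ i := fun e => hv (e ▸ hi)
      have e2 : (insert v ρ).erase i = insert v (ρ.erase i) := Finset.erase_insert_of_ne hne
      have hv' : v ∉ ρ.erase i := fun h => hv (Finset.mem_of_mem_erase h)
      rw [cn, t1, mul_one, e2]
      by_cases e : τ = insert v (ρ.erase i)
      · have h2 := sg_anti (R := ℤ) (Finset.mem_insert_of_mem hi : i ∈ insert v ρ)
          (Finset.mem_insert_self v ρ) hne.symm
        have e3 : sg ℤ (insert v (ρ.erase i)) v = sg ℤ (ρ.erase i) v := by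
          rw [← sg_erase_ge (insert v (ρ.erase i)) (lt_irrefl v), Finset.erase_insert hv']
        rw [e0, e1, e2, e3] at h2
        rw [if_pos e, if_pos ⟨hv', e⟩]
        have s1 := sg_sq (R := ℤ) ρ v
        have s2 := sg_sq (R := ℤ) (ρ.erase i) v
        linear_combination (sg ℤ ρ v * sg ℤ (ρ.erase i) v) * h2 -
          (sg ℤ (insert v ρ) i * sg ℤ ρ v) * s2 - (sg ℤ ρ i * sg ℤ (ρ.erase i) v) * s1
      · rw [if_neg e, if_neg fun h => e h.2, zero_mul, zero_mul, add_zero]

omit [Fintype ι] in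
theorem bd_map {ι' : Type*} [LinearOrder ι'] (f : ι ↪o ι') (g : ι' → ι' → R) (τ σ : Finset ι) :
    bd g (τ.map f.toEmbedding) (σ.map f.toEmbedding) = bd (fun i j => g (f i) (f j)) τ σ := by
  have hm : ∀ (s : Finset ι) (h : s.Nonempty) (h' : (s.map f.toEmbedding).Nonempty),
      (s.map f.toEmbedding).min' h' = f (s.min' h) := fun s h h' => by
    refine le_antisymm (Finset.min'_le _ _ (Finset.mem_map_of_mem _ (s.min'_mem h))) ?_
    refine Finset.le_min' _ _ _ fun y hy => ?_
    obtain ⟨x, hx, rfl⟩ := Finset.mem_map.1 hy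
    exact f.monotone (s.min'_le x hx)
  have ht : tw g (σ.map f.toEmbedding) (τ.map f.toEmbedding) =
      tw (fun i j => g (f i) (f j)) σ τ := by
    unfold tw
    by_cases h : σ.Nonempty ∧ τ.Nonempty
    · rw [dif_pos h, dif_pos ⟨h.1.map, h.2.map⟩, hm σ h.1, hm τ h.2]
    · rw [dif_neg h, dif_neg fun h' => h ⟨Finset.map_nonempty.1 h'.1, Finset.map_nonempty.1 h'.2⟩]
  rw [bd_apply, bd_apply, Finset.sum_map, ht]
  refine Finset.sum_congr rfl fun i _ => ?_
  have hs : sg R (σ.map f.toEmbedding) (f.toEmbedding i) = sg R σ i := by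
    rw [sg, sg, Finset.filter_map, Finset.card_map]
    congr 2
    exact Finset.filter_congr fun x _ => f.lt_iff_lt
  rw [hs, ← Finset.map_erase]
  simp only [Finset.map_inj]

end NerveAAux

open NerveAAux

theorem bd_eq_zero_of_not_subset (g : ι → ι → R) {τ σ : Finset ι} (h : ¬ τ ⊆ σ) :
    bd g τ σ = 0 := by
  by_contra h1
  obtain ⟨i, -, rfl⟩ := exists_of_bd h1
  exact h (Finset.erase_subset _ _)

theorem isCx_bd {g : ι → ι → R} {N N' : Set (Finset ι)} (hN : IsLowerSet N)
    (hN' : IsLowerSet N') (hc : Coc g (N' \ N)) (h0 : ∅ ∈ N ∨ ∀ i j, g i j = 1) :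
    IsCx (bd g) Finset.card (N' \ N) := by
  refine ⟨?_, fun a _ b _ h => ?_⟩
  · ext ρ σ
    rw [Matrix.mul_apply, Matrix.zero_apply]
    by_cases hρ : ρ ∈ N' \ N
    swap
    · exact Finset.sum_eq_zero fun τ _ => by rw [res, if_neg fun h => hρ h.1, zero_mul]
    by_cases hσ : σ ∈ N' \ N
    swap
    · exact Finset.sum_eq_zero fun τ _ => by
        rw [res, res, if_neg (c := τ ∈ N' \ N ∧ σ ∈ N' \ N) fun h => hσ h.2, mul_zero]
    rw [← bd_bd g ρ σ fun τ h1 h2 => ?_]
    · refine Finset.sum_congr rfl fun τ _ => ?_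
      by_cases h1 : ρ ⊆ τ
      swap
      · rw [res, bd_eq_zero_of_not_subset g h1, ite_self, zero_mul, zero_mul]
      by_cases h2 : τ ⊆ σ
      swap
      · rw [res, res, bd_eq_zero_of_not_subset g h2, ite_self, mul_zero, mul_zero]
      have hτ : τ ∈ N' \ N := ⟨hN' h2 hσ.1, fun h => hρ.2 (hN h1 h)⟩
      rw [res, res, if_pos ⟨hρ, hτ⟩, if_pos ⟨hτ, hσ⟩]
    · rcases h0 with h0 | h0
      · have a1 : ρ.Nonempty := Finset.nonempty_iff_ne_empty.2 fun e => hρ.2 (e ▸ h0)
        have a2 := a1.mono h1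
        have a3 := a2.mono h2
        unfold tw
        rw [dif_pos ⟨a3, a2⟩, dif_pos ⟨a2, a1⟩, dif_pos ⟨a3, a1⟩]
        exact hc σ hσ _ (σ.min'_mem _) _ (h2 (τ.min'_mem _)) _ (h2 (h1 (ρ.min'_mem _)))
      · rw [tw_one h0, tw_one h0, tw_one h0, one_mul]
  · obtain ⟨i, hi, rfl⟩ := exists_of_bd h
    exact (Finset.card_erase_add_one hi).symm

theorem NerveAAux.isCx_low {N : Set (Finset ι)} (hN : IsLowerSet N) :
    IsCx (bdZ ι) Finset.card N := by
  have h := isCx_bd (g := fun _ _ : ι => (1 : ℤ)) isLowerSet_empty hN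
    (fun _ _ _ _ _ _ _ _ => one_mul _) (Or.inr fun _ _ => rfl)
  rwa [Set.sdiff_empty] at h

theorem NerveAAux.res_low {N : Set (Finset ι)} (hN : IsLowerSet N) {z : Finset ι → ℤ}
    (hz : ∀ a, a ∉ N → z a = 0) : res (bdZ ι) N *ᵥ z = bdZ ι *ᵥ z := by
  funext τ
  refine Finset.sum_congr rfl fun σ _ => ?_
  change res (bdZ ι) N τ σ * z σ = bdZ ι τ σ * z σ
  by_cases h1 : σ ∈ N
  · by_cases h2 : τ ⊆ σ
    · rw [res, if_pos ⟨hN h2 h1, h1⟩]
    · rw [res, bdZ, bd_eq_zero_of_not_subset _ h2, ite_self]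
  · rw [hz σ h1, mul_zero, mul_zero]

theorem acyc_cone {N : Set (Finset ι)} (hN : IsLowerSet N) (v : ι)
    (hv : ∀ σ ∈ N, insert v σ ∈ N) : Acyc (bdZ ι) N := by
  intro z hz h
  have hy : ∀ a, a ∉ N → (cn v *ᵥ z) a = 0 := fun a ha =>
    Finset.sum_eq_zero fun ρ _ => by
      change cn v a ρ * z ρ = 0
      by_cases h1 : ρ ∈ N
      · have h2 : ¬ (v ∉ ρ ∧ a = insert v ρ) := fun h => ha (h.2 ▸ hv ρ h1)
        rw [cn, if_neg h2, zero_mul]
      · rw [hz ρ h1, mul_zero]
  refine ⟨cn v *ᵥ z, hy, ?_⟩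
  rw [res_low hN hz] at h
  have h1 := congrArg (· *ᵥ z) (cn_eq v)
  simp only [Matrix.add_mulVec, ← Matrix.mulVec_mulVec, h, Matrix.mulVec_zero, add_zero,
    Matrix.one_mulVec] at h1
  rw [res_low hN hy, h1]

theorem acyc_rel {N N' : Set (Finset ι)} (hN : IsLowerSet N) (hN' : IsLowerSet N') (h : N ⊆ N')
    (a : Acyc (bdZ ι) N) (a' : Acyc (bdZ ι) N') : Acyc (bdZ ι) (N' \ N) := by
  have e : N ∪ N' \ N = N' := Set.union_sdiff_cancel h
  exact acyc_quot (deg := Finset.card) (S₁ := N) (e.symm ▸ isCx_low hN') disjoint_sdiff_right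
    (fun x hx y hy => bd_eq_zero_of_not_subset _ fun h => hx.2 (hN h hy)) a (e.symm ▸ a')

theorem acyc_mv {N₁ N₂ : Set (Finset ι)} (h₁ : IsLowerSet N₁) (h₂ : IsLowerSet N₂)
    (a₁ : Acyc (bdZ ι) N₁) (a₂ : Acyc (bdZ ι) N₂) (a₁₂ : Acyc (bdZ ι) (N₁ ∩ N₂)) :
    Acyc (bdZ ι) (N₁ ∪ N₂) := by
  have a := acyc_rel (h₁.inter h₂) h₁ inter_subset_left a₁₂ a₁
  rw [Set.sdiff_self_inter] at a
  have e : N₂ ∪ N₁ \ N₂ = N₁ ∪ N₂ := by rw [Set.union_sdiff_self, union_comm]
  exact e ▸ acyc_union (deg := Finset.card) (e.symm ▸ isCx_low (h₁.union h₂)) disjoint_sdiff_right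
    (fun x hx y hy => bd_eq_zero_of_not_subset _ fun h => hx.2 (h₂ h hy)) a₂ a

/-- reindexing along an order embedding -/
theorem hasNu_reindex [StarRing R] {ι' : Type*} [Fintype ι'] [LinearOrder ι'] (f : ι ↪o ι')
    (g : ι' → ι' → R) (S : Set (Finset ι)) (W : R) :
    HasNu (bd fun i j => g (f i) (f j)) Finset.card S W ↔
      HasNu (bd g) Finset.card ((fun σ => σ.map f.toEmbedding) '' S) W :=
  hasNu_transport _ (Finset.map_injective _).injOn (fun _ => 1)
    (fun _ _ => by rw [star_one, one_mul])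
    (fun a _ b _ => by rw [star_one, one_mul, mul_one, bd_map]) (fun _ _ => Finset.card_map _) W

theorem acyc_reindex {ι' : Type*} [Fintype ι'] [LinearOrder ι'] (f : ι ↪o ι')
    (S : Set (Finset ι)) :
    Acyc (bdZ ι) S ↔ Acyc (bdZ ι') ((fun σ => σ.map f.toEmbedding) '' S) :=
  acyc_transport _ (Finset.map_injective _).injOn (fun _ => 1) (fun _ => 1) (fun _ _ => one_mul _)
    fun a _ b _ => by rw [one_mul, mul_one]; exact bd_map f _ a b

end SpunKnot
end
end

-- merged part: Pool.Agent.Work.MP_e1e788_gt.NerveC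
section
/-! The nerve of a cover of a compact convex set by convex sets is acyclic. -/

open Set Matrix Filter Topology
open scoped Classical

noncomputable section
namespace SpunKnot

namespace NerveCAux

variable {E : Type*} {ι : Type*}

theorem lower (C : ι → Set E) (W : Set E) : IsLowerSet (nerve C W) := by
  rintro σ τ h ⟨x, hx, hσ⟩
  exact ⟨x, hx, fun i hi => hσ i (h hi)⟩

theorem acyc_small [Fintype ι] [LinearOrder ι] (C : ι → Set E) (W : Set E)
    (h : W.Nonempty → ∃ i, W ⊆ C i) : Acyc (bdZ ι) (nerve C W) := by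
  rcases W.eq_empty_or_nonempty with rfl | hW
  · intro z hz _
    refine ⟨0, fun _ _ => rfl, ?_⟩
    rw [Matrix.mulVec_zero]
    funext σ
    refine (hz σ ?_).symm
    rintro ⟨x, hx, -⟩
    exact hx
  · obtain ⟨v, hv⟩ := h hW
    refine acyc_cone (lower C W) v ?_
    rintro σ ⟨x, hx, hσ⟩
    refine ⟨x, hx, fun i hi => ?_⟩
    rcases Finset.mem_insert.1 hi with rfl | hi
    · exact hv hx
    · exact hσ i hi

variable [AddCommGroup E] [Module ℝ E]

theorem acyc_cut [Fintype ι] [LinearOrder ι] (C : ι → Set E) {W : Set E} (hW : Convex ℝ W)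
    (hC : ∀ i, Convex ℝ (W ∩ C i)) (f : E →ₗ[ℝ] ℝ) (c : ℝ)
    (a₁ : Acyc (bdZ ι) (nerve C (W ∩ {x | f x ≤ c})))
    (a₂ : Acyc (bdZ ι) (nerve C (W ∩ {x | c ≤ f x})))
    (a₁₂ : Acyc (bdZ ι) (nerve C (W ∩ {x | f x = c}))) : Acyc (bdZ ι) (nerve C W) := by
  have e1 : nerve C W = nerve C (W ∩ {x | f x ≤ c}) ∪ nerve C (W ∩ {x | c ≤ f x}) := by
    ext σ
    constructor
    · rintro ⟨x, hx, hσ⟩
      rcases le_total (f x) c with h | h
      · exact Or.inl ⟨x, ⟨hx, h⟩, hσ⟩
      · exact Or.inr ⟨x, ⟨hx, h⟩, hσ⟩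
    · rintro (⟨x, hx, hσ⟩ | ⟨x, hx, hσ⟩) <;> exact ⟨x, hx.1, hσ⟩
  have e2 : nerve C (W ∩ {x | f x ≤ c}) ∩ nerve C (W ∩ {x | c ≤ f x}) =
      nerve C (W ∩ {x | f x = c}) := by
    ext σ
    constructor
    · rintro ⟨⟨x, ⟨hx, hx'⟩, hσ⟩, ⟨y, ⟨hy, hy'⟩, hτ⟩⟩
      have hx'' : f x ≤ c := hx'
      have hy'' : c ≤ f y := hy'
      by_cases h : f x = c
      · exact ⟨x, ⟨hx, h⟩, hσ⟩
      have h1 : f x < c := lt_of_le_of_ne hx'' h
      have h2 : 0 < f y - f x := by linarith
      have ht0 : 0 ≤ (c - f x) / (f y - f x) := div_nonneg (by linarith) h2.le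
      have ht1 : 0 ≤ 1 - (c - f x) / (f y - f x) := by
        rw [sub_nonneg, div_le_one h2]
        linarith
      have hs : (1 - (c - f x) / (f y - f x)) + (c - f x) / (f y - f x) = 1 := by ring
      refine ⟨(1 - (c - f x) / (f y - f x)) • x + ((c - f x) / (f y - f x)) • y,
        ⟨hW hx hy ht1 ht0 hs, ?_⟩, fun i hi => (hC i ⟨hx, hσ i hi⟩ ⟨hy, hτ i hi⟩ ht1 ht0 hs).2⟩
      show f _ = c
      rw [map_add, map_smul, map_smul, smul_eq_mul, smul_eq_mul]
      field_simp
      ring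
    · rintro ⟨x, ⟨hx, hx'⟩, hσ⟩
      have h : f x = c := hx'
      exact ⟨⟨x, ⟨hx, h.le⟩, hσ⟩, ⟨x, ⟨hx, h.ge⟩, hσ⟩⟩
  rw [e1]
  exact acyc_mv (lower _ _) (lower _ _) a₁ a₂ (e2 ▸ a₁₂)

theorem acyc_box [Fintype ι] [LinearOrder ι] {κ : Type*} [Fintype κ] {V : Set E} (C : ι → Set E)
    (hC : ∀ i, Convex ℝ (V ∩ C i)) (f : κ → E →ₗ[ℝ] ℝ) {ε : ℝ} (hε : 0 < ε)
    (hs : ∀ x ∈ V, ∃ i, ∀ y ∈ V, (∀ j, |f j y - f j x| ≤ ε) → y ∈ C i) (N : ℕ) :
    ∀ (n : κ → ℕ) (a : κ → ℝ) (W : Set E), ∑ j, n j = N → W ⊆ V → Convex ℝ W →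
      (∀ x ∈ W, ∀ j, a j ≤ f j x ∧ f j x ≤ a j + n j * ε) → Acyc (bdZ ι) (nerve C W) := by
  induction N using Nat.strong_induction_on with
  | _ N ih =>
    intro n a W hN hWV hW hb
    by_cases h : ∀ j, n j ≤ 1
    · refine acyc_small C W ?_
      rintro ⟨x, hx⟩
      obtain ⟨i, hi⟩ := hs x (hWV hx)
      refine ⟨i, fun y hy => hi y (hWV hy) fun j => ?_⟩
      have h1 : (n j : ℝ) * ε ≤ 1 * ε :=
        mul_le_mul_of_nonneg_right (by exact_mod_cast h j) hε.le
      have h2 := hb x hx j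
      have h3 := hb y hy j
      rw [abs_le]
      constructor <;> linarith [h2.1, h2.2, h3.1, h3.2]
    push Not at h
    obtain ⟨j, hj⟩ := h
    have hsum : ∀ m, m < n j → ∑ l, Function.update n j m l < N := by
      intro m hm
      rw [← hN]
      refine Finset.sum_lt_sum (fun l _ => ?_) ⟨j, Finset.mem_univ j, by simpa using hm⟩
      by_cases hl : l = j
      · subst hl
        simpa using hm.le
      · simp [hl]
    have hlow : ∀ W' : Set E, W' ⊆ W → Convex ℝ W' → (∀ x ∈ W', f j x ≤ a j + ε) →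
        Acyc (bdZ ι) (nerve C W') := by
      intro W' h1 h2 h3
      refine ih _ (hsum 1 hj) (Function.update n j 1) a W' rfl (h1.trans hWV) h2 ?_
      intro x hx l
      by_cases hl : l = j
      · subst hl
        refine ⟨(hb x (h1 hx) l).1, ?_⟩
        simpa using h3 x hx
      · simpa [hl] using hb x (h1 hx) l
    have hCW : ∀ i, Convex ℝ (W ∩ C i) := by
      intro i
      have : W ∩ C i = W ∩ (V ∩ C i) := by
        rw [← inter_assoc, inter_eq_left.2 hWV]
      rw [this]
      exact hW.inter (hC i)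
    refine acyc_cut C hW hCW (f j) (a j + ε) ?_ ?_ ?_
    · exact hlow _ inter_subset_left
        (hW.inter (convex_halfSpace_le (f j).isLinear _)) fun x hx => hx.2
    · refine ih _ (hsum (n j - 1) (by omega)) (Function.update n j (n j - 1))
        (Function.update a j (a j + ε)) _ rfl (inter_subset_left.trans hWV)
        (hW.inter (convex_halfSpace_ge (f j).isLinear _)) ?_
      intro x hx l
      by_cases hl : l = j
      · subst hl
        have h1 := (hb x hx.1 l).2
        have h2 : a l + ε ≤ f l x := hx.2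
        have h3 : ((n l - 1 : ℕ) : ℝ) = n l - 1 := by
          rw [Nat.cast_sub hj.le, Nat.cast_one]
        simp only [Function.update_self, h3]
        constructor <;> linarith
      · simpa [hl] using hb x hx.1 l
    · exact hlow _ inter_subset_left
        (hW.inter (convex_hyperplane (f j).isLinear _)) fun x hx => le_of_eq hx.2

end NerveCAux

theorem acyc_nerve_convex {E : Type*} [NormedAddCommGroup E] [NormedSpace ℝ E]
    [FiniteDimensional ℝ E] {ι : Type*} [Fintype ι] [LinearOrder ι] {V : Set E}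
    (hV : IsCompact V) (hVc : Convex ℝ V) (C : ι → Set E) (hC : ∀ i, Convex ℝ (V ∩ C i))
    (hcov : ∀ x ∈ V, ∃ i, C i ∈ 𝓝[V] x) : Acyc (bdZ ι) (nerve C V) := by
  let φ : E ≃L[ℝ] (Fin (Module.finrank ℝ E) → ℝ) := (Module.finBasis ℝ E).equivFunL
  obtain ⟨δ, hδ, hL⟩ := lebesgue_number_lemma_of_metric_sUnion
    (c := {t : Set E | IsOpen t ∧ ∃ i, t ∩ V ⊆ C i}) hV (fun t ht => ht.1) (by
      intro x hx
      obtain ⟨i, hi⟩ := hcov x hx
      obtain ⟨t, ht, hxt, h⟩ := mem_nhdsWithin.1 hi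
      exact ⟨t, ⟨ht, i, h⟩, hxt⟩)
  obtain ⟨R, hR⟩ := (hV.image φ.continuous).isBounded.exists_norm_le
  let K : ℝ := ‖(φ.symm : (Fin (Module.finrank ℝ E) → ℝ) →L[ℝ] E)‖ + 1
  have hK : 0 < K := by positivity
  have hε : 0 < δ / (2 * K) := by positivity
  refine NerveCAux.acyc_box C hC
    (fun j => (LinearMap.proj j).comp (φ : E →ₗ[ℝ] (Fin (Module.finrank ℝ E) → ℝ))) hε ?_ _
    (fun _ => ⌈2 * R / (δ / (2 * K))⌉₊) (fun _ => -R) V rfl subset_rfl hVc ?_
  · intro x hx
    obtain ⟨t, ⟨-, i, hi⟩, ht⟩ := hL x hx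
    refine ⟨i, fun y hy h => hi ⟨ht ?_, hy⟩⟩
    have h1 : ‖φ (y - x)‖ ≤ δ / (2 * K) := by
      refine (pi_norm_le_iff_of_nonneg hε.le).2 fun j => ?_
      rw [map_sub]
      exact h j
    have h2 : ‖y - x‖ ≤ K * ‖φ (y - x)‖ := by
      have h3 := (φ.symm : (Fin (Module.finrank ℝ E) → ℝ) →L[ℝ] E).le_opNorm (φ (y - x))
      rw [ContinuousLinearEquiv.coe_coe, φ.symm_apply_apply] at h3
      exact h3.trans (mul_le_mul_of_nonneg_right (by simp [K]) (norm_nonneg _))
    rw [Metric.mem_ball, dist_eq_norm]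
    have h4 : K * (δ / (2 * K)) = δ / 2 := by field_simp
    have h5 := mul_le_mul_of_nonneg_left h1 hK.le
    linarith
  · intro x hx j
    have h1 : |φ x j| ≤ R := (norm_le_pi_norm (φ x) j).trans (hR _ ⟨x, hx, rfl⟩)
    have h2 := Nat.le_ceil (2 * R / (δ / (2 * K)))
    rw [div_le_iff₀ hε] at h2
    rw [abs_le] at h1
    show -R ≤ φ x j ∧ φ x j ≤ -R + _
    constructor <;> linarith [h1.1, h1.2]

end SpunKnot
end
end

-- merged part: Pool.Agent.Work.MP_e1e788_gt.AlgMAux
section
/-! Auxiliary lemmas for the torsion of a triangular matching: two-cell complexes, complexes made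
of pairs, elementary base change. -/

open Set Matrix
open scoped Classical

noncomputable section
namespace SpunKnot.AlgMAux
variable {R : Type*} [CommRing R] {β : Type*} [Fintype β] [DecidableEq β]

theorem det_single_add (a : β) (w : R) :
    (Matrix.single a a w + (1 - Matrix.single a a (1 : R))).det = w := by
  have : Matrix.single a a w + (1 - Matrix.single a a (1 : R)) =
      Matrix.diagonal fun x => if x = a then w else 1 := by
    ext x y
    by_cases hx : x = a <;> by_cases hy : y = a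
    · subst hx; subst hy; simp
    · subst hx; simp [Matrix.single, Matrix.one_apply, Matrix.diagonal_apply, Ne.symm hy]
    · subst hy; simp [Matrix.single, Matrix.one_apply, Matrix.diagonal_apply, hx, Ne.symm hx]
    · simp [Matrix.single, Matrix.one_apply, Matrix.diagonal_apply, hx, Ne.symm hx]
  rw [this, Matrix.det_diagonal]
  simp

theorem prj_single (T : Set β) (a : β) (h : ∀ x, x ∈ T ↔ x = a) :
    prj R T = Matrix.single a a (1 : R) := by
  ext x y
  by_cases hx : x = a <;> by_cases hy : y = a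
  · subst hx; subst hy; simp [prj, h]
  · subst hx; simp [prj, Matrix.single, Matrix.diagonal_apply, Ne.symm hy]
  · subst hy; simp [prj, Matrix.single, Matrix.diagonal_apply, hx, Ne.symm hx]
  · simp [prj, Matrix.single, Matrix.diagonal_apply, h, hx, Ne.symm hx]

theorem hasNu_two [StarRing R] {d : Matrix β β R} {deg : β → ℕ} {a b : β} (v : R)
    (hdeg : deg b = deg a + 1)
    (hdg : ∀ x ∈ ({a, b} : Set β), ∀ y ∈ ({a, b} : Set β), d x y ≠ 0 → deg y = deg x + 1)
    (huv : d a b * v = 1) :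
    HasNu d deg {a, b} (if Odd (deg a) then v * star v else d a b * star (d a b)) := by
  have hab : a ≠ b := by rintro rfl; omega
  have hres : res d {a, b} = Matrix.single a b (d a b) := by
    ext x y
    unfold res
    by_cases hxy : a = x ∧ b = y
    · obtain ⟨rfl, rfl⟩ := hxy
      simp
    · rw [Matrix.single_apply_of_ne _ _ _ _ _ hxy]
      split_ifs with h
      · by_contra hne
        have := hdg x h.1 y h.2 hne
        rcases h.1 with rfl | rfl <;> rcases h.2 with rfl | rfl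
        · omega
        · exact hxy ⟨rfl, rfl⟩
        · omega
        · omega
      · rfl
  refine ⟨⟨?_, hdg⟩, Matrix.single b a v, ?_, ?_, ?_⟩
  · rw [hres, Matrix.single_mul_single_of_ne _ _ _ _ hab.symm]
  · intro x y hxy
    by_cases h : b = x ∧ a = y
    · obtain ⟨rfl, rfl⟩ := h
      simp [hdeg]
    · exact absurd (Matrix.single_apply_of_ne _ _ _ _ _ h) hxy
  · rw [hres, Matrix.single_mul_single_same, Matrix.single_mul_single_same, huv, mul_comm v, huv]
    ext x y
    by_cases hxy : x = y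
    · subst hxy
      by_cases hxa : x = a
      · subst hxa; simp [prj, Matrix.single, hab.symm]
      · by_cases hxb : x = b
        · subst hxb; simp [prj, Matrix.single, hab]
        · simp [prj, Matrix.single, hxa, hxb, Ne.symm hxa, Ne.symm hxb]
    · have h1 : ¬ (a = x ∧ a = y) := fun h => hxy (h.1.symm.trans h.2)
      have h2 : ¬ (b = x ∧ b = y) := fun h => hxy (h.1.symm.trans h.2)
      simp [prj, Matrix.single, h1, h2, Matrix.diagonal_apply, hxy]
  · rw [hres]
    by_cases ho : Odd (deg a)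
    · have hP : prj R {x | x ∈ ({a, b} : Set β) ∧ Odd (deg x)} = Matrix.single a a (1 : R) := by
        apply prj_single
        intro x
        constructor
        · rintro ⟨rfl | rfl, h⟩
          · rfl
          · rw [hdeg] at h; exfalso; rw [Nat.odd_iff] at h ho; omega
        · rintro rfl; exact ⟨Or.inl rfl, ho⟩
      rw [hP, if_pos ho]
      have : Matrix.single a a (1 : R) * (Matrix.single a b (d a b) + Matrix.single b a v)ᴴ *
          (Matrix.single a b (d a b) + Matrix.single b a v) * Matrix.single a a (1 : R) =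
          Matrix.single a a (v * star v) := by
        simp only [Matrix.conjTranspose_add, Matrix.conjTranspose_single, Matrix.mul_add,
          Matrix.add_mul, Matrix.single_mul_single_same,
          Matrix.single_mul_single_of_ne _ _ _ _ hab, Matrix.single_mul_single_of_ne _ _ _ _ hab.symm,
          Matrix.zero_mul, zero_add, add_zero, one_mul, mul_one]
        rw [mul_comm]
      rw [this, det_single_add]
    · have hP : prj R {x | x ∈ ({a, b} : Set β) ∧ Odd (deg x)} = Matrix.single b b (1 : R) := by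
        apply prj_single
        intro x
        constructor
        · rintro ⟨rfl | rfl, h⟩
          · exact absurd h ho
          · rfl
        · rintro rfl
          refine ⟨Or.inr rfl, ?_⟩
          rw [hdeg]; rw [Nat.odd_iff] at ho ⊢; omega
      rw [hP, if_neg ho]
      have : Matrix.single b b (1 : R) * (Matrix.single a b (d a b) + Matrix.single b a v)ᴴ *
          (Matrix.single a b (d a b) + Matrix.single b a v) * Matrix.single b b (1 : R) =
          Matrix.single b b (d a b * star (d a b)) := by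
        simp only [Matrix.conjTranspose_add, Matrix.conjTranspose_single, Matrix.mul_add,
          Matrix.add_mul, Matrix.single_mul_single_same,
          Matrix.single_mul_single_of_ne _ _ _ _ hab, Matrix.single_mul_single_of_ne _ _ _ _ hab.symm,
          Matrix.zero_mul, zero_add, add_zero, one_mul, mul_one]
        rw [mul_comm]
      rw [this, det_single_add]

theorem hasNu_pairs [StarRing R] {d : Matrix β β R} {deg : β → ℕ} (up : β → β) (t : β → ℕ)
    (w : β → R) (L : Finset β) :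
    ∀ S : Set β, (∀ x, x ∈ S ↔ x ∈ L ∨ ∃ a ∈ L, x = up a) → IsCx d deg S →
      (∀ a ∈ L, t (up a) = t a ∧ HasNu d deg {a, up a} (w a)) →
      (∀ a ∈ L, ∀ a' ∈ L, t a = t a' → a = a') →
      (∀ x ∈ S, ∀ y ∈ S, d x y ≠ 0 → t x ≤ t y) → HasNu d deg S (∏ a ∈ L, w a) := by
  induction L using Finset.induction_on_max_value t with
  | empty =>
    intro S hS _ _ _ _
    have : S = ∅ := by ext x; simp [hS]
    subst this
    simpa using hasNu_empty d deg
  | insert a s has hmax ih =>
    intro S hS hc hp hinj htri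
    have hlt : ∀ x ∈ s, t x < t a := by
      intro x hx
      refine lt_of_le_of_ne (hmax x hx) fun h => has ?_
      have := hinj x (Finset.mem_insert_of_mem hx) a (Finset.mem_insert_self _ _) h
      exact this ▸ hx
    set S₁ : Set β := {x | x ∈ s ∨ ∃ a' ∈ s, x = up a'} with hS₁
    have ht1 : ∀ x ∈ S₁, t x < t a := by
      rintro x (hx | ⟨a', ha', rfl⟩)
      · exact hlt x hx
      · rw [(hp a' (Finset.mem_insert_of_mem ha')).1]; exact hlt a' ha'
    have ht2 : ∀ x ∈ ({a, up a} : Set β), t x = t a := by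
      rintro x (rfl | rfl)
      · rfl
      · exact (hp a (Finset.mem_insert_self _ _)).1
    have hU : S = S₁ ∪ {a, up a} := by
      ext x
      simp only [hS, hS₁, Finset.mem_insert, mem_union, mem_setOf_eq, mem_insert_iff,
        mem_singleton_iff, exists_eq_or_imp]
      constructor
      · rintro ((h | h) | h | h)
        exacts [Or.inr (Or.inl h), Or.inl (Or.inl h), Or.inr (Or.inr h), Or.inl (Or.inr h)]
      · rintro ((h | h) | h | h)
        exacts [Or.inl (Or.inr h), Or.inr (Or.inr h), Or.inl (Or.inl h), Or.inr (Or.inl h)]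
    have hdj : Disjoint S₁ {a, up a} := by
      rw [Set.disjoint_left]
      intro x h1 h2
      have := ht1 x h1
      have := ht2 x h2
      omega
    have hz : ∀ x ∈ ({a, up a} : Set β), ∀ y ∈ S₁, d x y = 0 := by
      intro x hx y hy
      by_contra hne
      have := htri x (hU ▸ Or.inr hx) y (hU ▸ Or.inl hy) hne
      have := ht1 y hy
      have := ht2 x hx
      omega
    rw [Finset.prod_insert has, mul_comm, hU]
    rw [hU] at hc htri
    refine hasNu_union hc hdj hz ?_ (hp a (Finset.mem_insert_self _ _)).2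
    exact ih S₁ (fun x => Iff.rfl) (hc.sub hdj hz)
      (fun a' ha' => hp a' (Finset.mem_insert_of_mem ha'))
      (fun x hx y hy => hinj x (Finset.mem_insert_of_mem hx) y (Finset.mem_insert_of_mem hy))
      (fun x hx y hy => htri x (Or.inl hx) y (Or.inl hy))

theorem exists_swap {deg : β → ℕ} (up : β → β) (t : β → ℕ) (L : Finset β) (S : Set β)
    (hS : ∀ x, x ∈ S ↔ x ∈ L ∨ ∃ a ∈ L, x = up a)
    (hp : ∀ a ∈ L, t (up a) = t a ∧ deg (up a) = deg a + 1)
    (hinj : ∀ a ∈ L, ∀ a' ∈ L, t a = t a' → a = a') :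
    ∃ π : β ≃ β, ∀ x, π x ∈ S → Even (deg (π x)) → x ∈ S ∧ Odd (deg x) := by
  let f : β → β := fun x => if x ∈ L then up x else if h : ∃ a ∈ L, x = up a then h.choose else x
  have hf : Function.Involutive f := by
    intro x
    by_cases hx : x ∈ L
    · have h1 : up x ∉ L := by
        intro h
        have := hinj _ h _ hx (hp x hx).1
        have h2 := (hp x hx).2
        rw [this] at h2; omega
      have h2 : ∃ a ∈ L, up x = up a := ⟨x, hx, rfl⟩
      have e1 : f x = up x := if_pos hx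
      have e2 : f (up x) = h2.choose := by
        simp only [f]; rw [if_neg h1, dif_pos h2]
      rw [e1, e2]
      obtain ⟨h3, h4⟩ := h2.choose_spec
      apply hinj _ h3 _ hx
      rw [← (hp _ h3).1, ← h4, (hp x hx).1]
    · by_cases h2 : ∃ a ∈ L, x = up a
      · have e1 : f x = h2.choose := by simp only [f]; rw [if_neg hx, dif_pos h2]
        obtain ⟨h3, h4⟩ := h2.choose_spec
        rw [e1]
        have e2 : f h2.choose = up h2.choose := if_pos h3
        rw [e2, ← h4]
      · have e1 : f x = x := by simp only [f]; rw [if_neg hx, dif_neg h2]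
        rw [e1, e1]
  refine ⟨hf.toPerm f, fun x h1 h2 => ?_⟩
  change f x ∈ S at h1
  change Even (deg (f x)) at h2
  by_cases hx : x ∈ L
  · have e1 : f x = up x := if_pos hx
    rw [e1, (hp x hx).2] at h2
    exact ⟨(hS x).2 (Or.inl hx), by rw [Nat.even_iff] at h2; rw [Nat.odd_iff]; omega⟩
  · by_cases h3 : ∃ a ∈ L, x = up a
    · have e1 : f x = h3.choose := by simp only [f]; rw [if_neg hx, dif_pos h3]
      obtain ⟨h4, h5⟩ := h3.choose_spec
      rw [e1] at h2
      refine ⟨(hS x).2 (Or.inr h3), ?_⟩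
      have := (hp _ h4).2
      rw [← h5] at this
      rw [this]; rw [Nat.even_iff] at h2; rw [Nat.odd_iff]; omega
    · have e1 : f x = x := by simp only [f]; rw [if_neg hx, dif_neg h3]
      rw [e1, hS] at h1
      exact (h1.elim hx h3).elim

theorem det_cmp [StarRing R] (P Q X E : Matrix β β R) (hQ : Qᴴ * Q = 1) (hP : Pᴴ = P)
    (hPP : P * P = P) (h1 : (1 - P) * (Q * X) = 0) (h2 : (1 - P) * (Q * E) = 0)
    (h3 : (1 - P) * (Q * Eᴴ) = 0) (hE : (1 - E).det = 1) :
    (((1 - E) * X)ᴴ * ((1 - E) * X) + (1 - P)).det = (Xᴴ * X + (1 - P)).det := by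
  have key : ∀ Y : Matrix β β R, (1 - P) * (Q * Y) = 0 →
      Yᴴ * Y + (1 - P) = (Q * Y + (1 - P))ᴴ * (Q * Y + (1 - P)) := by
    intro Y hY
    have hY' : (Q * Y)ᴴ * (1 - P) = 0 := by
      have := congrArg Matrix.conjTranspose hY
      rwa [Matrix.conjTranspose_mul, Matrix.conjTranspose_sub, Matrix.conjTranspose_one, hP,
        Matrix.conjTranspose_zero] at this
    have hPP' : (1 - P) * (1 - P) = 1 - P := by
      rw [Matrix.sub_mul, Matrix.mul_sub, Matrix.mul_sub, hPP]; simp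
    rw [Matrix.conjTranspose_add, Matrix.conjTranspose_sub, Matrix.conjTranspose_one, hP,
      Matrix.add_mul, Matrix.mul_add, Matrix.mul_add, hY, hY', hPP', Matrix.conjTranspose_mul,
      Matrix.mul_assoc, ← Matrix.mul_assoc Qᴴ, hQ]
    simp
  have h4 : (1 - P) * (Q * ((1 - E) * X)) = 0 := by
    rw [Matrix.sub_mul 1 E, Matrix.one_mul, Matrix.mul_sub Q, Matrix.mul_sub (1 - P), h1,
      ← Matrix.mul_assoc Q, ← Matrix.mul_assoc (1 - P), h2]
    simp
  have h5 : E * Qᴴ * (1 - P) = 0 := by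
    have := congrArg Matrix.conjTranspose h3
    rwa [Matrix.conjTranspose_mul, Matrix.conjTranspose_sub, Matrix.conjTranspose_one, hP,
      Matrix.conjTranspose_zero, Matrix.conjTranspose_mul,
      Matrix.conjTranspose_conjTranspose] at this
  have h6 : Q * ((1 - E) * X) + (1 - P) = (1 - Q * (E * Qᴴ)) * (Q * X + (1 - P)) := by
    have e1 : Q * (E * Qᴴ) * (Q * X) = Q * (E * X) := by
      rw [Matrix.mul_assoc, Matrix.mul_assoc, ← Matrix.mul_assoc Qᴴ, hQ, Matrix.one_mul]
    have e2 : Q * (E * Qᴴ) * (1 - P) = 0 := by rw [Matrix.mul_assoc, h5, Matrix.mul_zero]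
    rw [Matrix.sub_mul 1 (Q * (E * Qᴴ)), Matrix.one_mul, Matrix.mul_add, e1, e2,
      Matrix.sub_mul 1 E, Matrix.one_mul, Matrix.mul_sub Q]
    abel
  have h7 : (1 - Q * (E * Qᴴ)).det = 1 := by
    rw [Matrix.det_one_sub_mul_comm, Matrix.mul_assoc, hQ, Matrix.mul_one, hE]
  rw [key _ h4, key _ h1, Matrix.det_mul, Matrix.det_mul, Matrix.det_conjTranspose,
    Matrix.det_conjTranspose, h6, Matrix.det_mul, h7, one_mul]

/-- supported on `S × S` and of degree `k` -/
def Sup (deg : β → ℕ) (S : Set β) (k : ℤ) (M : Matrix β β R) : Prop :=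
  ∀ a b, M a b ≠ 0 → a ∈ S ∧ b ∈ S ∧ (deg a : ℤ) = deg b + k

theorem Sup.mul {deg : β → ℕ} {S : Set β} {j k : ℤ} {M N : Matrix β β R} (hM : Sup deg S j M)
    (hN : Sup deg S k N) : Sup deg S (j + k) (M * N) := by
  intro a b h
  rw [Matrix.mul_apply] at h
  obtain ⟨c, -, hc⟩ := Finset.exists_ne_zero_of_sum_ne_zero h
  have h1 := hM a c (left_ne_zero_of_mul hc)
  have h2 := hN c b (right_ne_zero_of_mul hc)
  exact ⟨h1.1, h2.2.1, by omega⟩

theorem Sup.add {deg : β → ℕ} {S : Set β} {k : ℤ} {M N : Matrix β β R} (hM : Sup deg S k M)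
    (hN : Sup deg S k N) : Sup deg S k (M + N) := by
  intro a b h
  by_cases h1 : M a b = 0
  · apply hN; intro h2; apply h; simp [h1, h2]
  · exact hM a b h1

theorem Sup.sub {deg : β → ℕ} {S : Set β} {k : ℤ} {M N : Matrix β β R} (hM : Sup deg S k M)
    (hN : Sup deg S k N) : Sup deg S k (M - N) := by
  intro a b h
  by_cases h1 : M a b = 0
  · apply hN; intro h2; apply h; simp [h1, h2]
  · exact hM a b h1

theorem Sup.conj {deg : β → ℕ} {S : Set β} {k : ℤ} {M E F : Matrix β β R} (hM : Sup deg S k M)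
    (hE : Sup deg S 0 E) (hF : Sup deg S 0 F) : Sup deg S k ((1 - E) * M * (1 - F)) := by
  have e : (1 - E) * M * (1 - F) = M - E * M - (M * F - E * M * F) := by
    simp only [Matrix.sub_mul, Matrix.mul_sub, Matrix.one_mul, Matrix.mul_one]
  rw [e]
  have h1 := hE.mul hM
  have h2 := hM.mul hF
  have h3 := h1.mul hF
  simp only [zero_add, add_zero] at h1 h2 h3
  exact (hM.sub h1).sub (h2.sub h3)

theorem Sup.res_eq {deg : β → ℕ} {S : Set β} {k : ℤ} {M : Matrix β β R} (hM : Sup deg S k M) :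
    res M S = M := by
  ext a b
  unfold res
  split_ifs with h
  · rfl
  · by_contra hne
    have := hM a b (Ne.symm hne)
    exact h ⟨this.1, this.2.1⟩

theorem sup_res {d : Matrix β β R} {deg : β → ℕ} {S : Set β} (hc : IsCx d deg S) :
    Sup deg S (-1) (res d S) := by
  intro a b h
  unfold res at h
  split_ifs at h with h1
  · have := hc.dg a h1.1 b h1.2 h
    exact ⟨h1.1, h1.2, by omega⟩
  · exact absurd rfl h

/-- base change by `1 - E`, `E` of square zero, of degree zero and living on even cells -/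
theorem isCx_change {d : Matrix β β R} {deg : β → ℕ} {S : Set β} (hc : IsCx d deg S)
    (E : Matrix β β R) (hE : Sup deg S 0 E) (hEE : E * E = 0) :
    IsCx ((1 + E) * res d S * (1 - E)) deg S := by
  have hnE : Sup deg S 0 (-E) := fun a b h => hE a b (by simpa using h)
  have hs : Sup deg S (-1) ((1 + E) * res d S * (1 - E)) := by
    simpa using (sup_res hc).conj hnE hE
  have hV : (1 - E) * (1 + E) = 1 := by
    simp only [Matrix.sub_mul, Matrix.mul_add, Matrix.one_mul, Matrix.mul_one, hEE]; abel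
  refine ⟨?_, fun a _ b _ h => ?_⟩
  · rw [hs.res_eq]
    calc (1 + E) * res d S * (1 - E) * ((1 + E) * res d S * (1 - E))
        = (1 + E) * (res d S * ((1 - E) * (1 + E)) * res d S) * (1 - E) := by
          simp only [Matrix.mul_assoc]
      _ = 0 := by rw [hV, Matrix.mul_one, hc.sq]; simp
  · have := (hs a b h).2.2
    omega

theorem hasNu_change [StarRing R] {d : Matrix β β R} {deg : β → ℕ} {S : Set β} {W : R}
    (hc : IsCx d deg S) (E : Matrix β β R) (hE : Sup deg S 0 E) (hEE : E * E = 0)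
    (hev : ∀ a b, E a b ≠ 0 → Even (deg a)) (hdet : (1 - E).det = 1) (π : β ≃ β)
    (hπ : ∀ x, π x ∈ S → Even (deg (π x)) → x ∈ S ∧ Odd (deg x))
    (h : HasNu ((1 + E) * res d S * (1 - E)) deg S W) : HasNu d deg S W := by
  obtain ⟨-, γ, hγ, hcon, hW⟩ := h
  have hnE : Sup deg S 0 (-E) := fun a b h => hE a b (by simpa using h)
  have hs : Sup deg S (-1) ((1 + E) * res d S * (1 - E)) := by
    simpa using (sup_res hc).conj hnE hE
  have hV : (1 - E) * (1 + E) = 1 := by
    simp only [Matrix.sub_mul, Matrix.mul_add, Matrix.one_mul, Matrix.mul_one, hEE]; abel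
  have hV' : (1 + E) * (1 - E) = 1 := by
    simp only [Matrix.add_mul, Matrix.mul_sub, Matrix.one_mul, Matrix.mul_one, hEE]; abel
  rw [hs.res_eq] at hcon hW
  have hγs : Sup deg S 1 γ := fun a b h => ⟨(hγ a b h).1, (hγ a b h).2.1, by
    have := (hγ a b h).2.2; omega⟩
  have hγ' : Sup deg S 1 ((1 - E) * γ * (1 + E)) := by simpa using hγs.conj hE hnE
  set D := res d S with hD
  set P := prj R {a | a ∈ S ∧ Odd (deg a)} with hPdef
  refine ⟨hc, (1 - E) * γ * (1 + E), fun a b h => ⟨(hγ' a b h).1, (hγ' a b h).2.1, by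
    have := (hγ' a b h).2.2; omega⟩, ?_, ?_⟩
  · have e1 : prj R S * E = E := by
      ext a b
      rw [prj, Matrix.diagonal_mul]
      split_ifs with h
      · simp
      · by_contra hne
        exact h (hE a b (by intro h0; apply hne; simp [h0])).1
    have e2 : E * prj R S = E := by
      ext a b
      rw [prj, Matrix.mul_diagonal]
      split_ifs with h
      · simp
      · by_contra hne
        exact h (hE a b (by intro h0; apply hne; simp [h0])).2.1
    calc D * ((1 - E) * γ * (1 + E)) + (1 - E) * γ * (1 + E) * D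
        = ((1 - E) * (1 + E)) * D * ((1 - E) * γ * (1 + E)) +
            (1 - E) * γ * (1 + E) * D * ((1 - E) * (1 + E)) := by rw [hV]; simp
      _ = (1 - E) * ((1 + E) * D * (1 - E) * γ + γ * ((1 + E) * D * (1 - E))) * (1 + E) := by
          generalize (1 - E) = V
          generalize (1 + E) = V'
          simp only [Matrix.mul_add, Matrix.add_mul, Matrix.mul_assoc]
      _ = prj R S := by
          rw [hcon]
          simp only [Matrix.sub_mul, Matrix.mul_add, Matrix.one_mul, Matrix.mul_one, e1, e2, hEE]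
          abel
  · have hP : Pᴴ = P := by
      rw [hPdef, prj, Matrix.diagonal_conjTranspose]
      congr 1; funext a; simp only [Pi.star_apply]; split_ifs <;> simp
    have hPP : P * P = P := by
      rw [hPdef, prj, Matrix.diagonal_mul_diagonal]
      congr 1; funext a; split_ifs <;> simp
    have hEP : E * P = 0 := by
      ext a b
      rw [hPdef, prj, Matrix.mul_diagonal]
      split_ifs with h
      · by_contra hne
        have h0 : E a b ≠ 0 := by intro h0; apply hne; simp [h0]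
        have h1 := hev a b h0
        have h2 := (hE a b h0).2.2
        have h3 := h.2
        rw [Nat.even_iff] at h1; rw [Nat.odd_iff] at h3; omega
      · simp
    set A := (1 + E) * D * (1 - E) + γ with hA
    have hAP : (D + (1 - E) * γ * (1 + E)) * P = (1 - E) * (A * P) := by
      have e1 : (1 + E) * P = P := by rw [Matrix.add_mul, hEP]; simp
      have e2 : (1 - E) * P = P := by rw [Matrix.sub_mul, hEP]; simp
      rw [hA, Matrix.add_mul, Matrix.add_mul, Matrix.mul_add (1 - E), Matrix.mul_assoc _ (1 + E),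
        e1, Matrix.mul_assoc _ (1 - E) P, e2, Matrix.mul_assoc (1 + E), ← Matrix.mul_assoc (1 - E),
        hV, Matrix.one_mul, Matrix.mul_assoc]
    have hform : ∀ B : Matrix β β R, P * Bᴴ * B * P = (B * P)ᴴ * (B * P) := by
      intro B; rw [Matrix.conjTranspose_mul, hP]; simp only [Matrix.mul_assoc]
    rw [hform] at hW ⊢
    rw [hAP, ← hW]
    let Q : Matrix β β R := (1 : Matrix β β R).submatrix π id
    have hQm : ∀ Y : Matrix β β R, Q * Y = Y.submatrix π id := by
      intro Y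
      have := Matrix.submatrix_mul_equiv (1 : Matrix β β R) Y π (Equiv.refl β) id
      simpa [Q] using this
    have hQ : Qᴴ * Q = 1 := by
      have := Matrix.submatrix_mul_equiv (1 : Matrix β β R) (1 : Matrix β β R) id π id
      simpa [Q, Matrix.conjTranspose_submatrix] using this
    have hkill : ∀ Y : Matrix β β R, (∀ a b, Y a b ≠ 0 → a ∈ S ∧ Even (deg a)) →
        (1 - P) * (Q * Y) = 0 := by
      intro Y hY
      rw [hQm, Matrix.sub_mul, Matrix.one_mul, sub_eq_zero]
      ext a b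
      rw [hPdef, prj, Matrix.diagonal_mul]
      split_ifs with h
      · simp
      · by_contra hne
        have h0 : Y (π a) b ≠ 0 := by intro h0; apply hne; simp [h0]
        exact h (hπ a (hY _ _ h0).1 (hY _ _ h0).2)
    refine det_cmp P Q _ E hQ hP hPP (hkill _ ?_) (hkill _ ?_) (hkill _ ?_) hdet
    · intro a b h
      rw [hPdef, prj, Matrix.mul_diagonal] at h
      split_ifs at h with hb
      · have h3 := hb.2
        rw [Nat.odd_iff] at h3
        rw [mul_one, hA, Matrix.add_apply] at h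
        by_cases h1 : γ a b = 0
        · rw [h1, add_zero] at h
          have := hs a b h
          exact ⟨this.1, by rw [Nat.even_iff]; omega⟩
        · have := hγs a b h1
          exact ⟨this.1, by rw [Nat.even_iff]; omega⟩
      · simp at h
    · exact fun a b h => ⟨(hE a b h).1, hev a b h⟩
    · intro a b h
      have h0 : E b a ≠ 0 := by intro h0; apply h; simp [h0]
      have h1 := hev b a h0
      have h2 := hE b a h0
      refine ⟨h2.2.1, ?_⟩
      have := h2.2.2
      rw [Nat.even_iff] at h1 ⊢; omega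

end SpunKnot.AlgMAux
end
end

-- merged part: Pool.Agent.Work.MP_e1e788_gt.AlgM
section
/-! Torsion of a complex with a triangular (discrete Morse) matching and two critical cells. -/

open Set Matrix
open scoped Classical

noncomputable section
namespace SpunKnot
variable {R : Type*} [CommRing R] [StarRing R] {β : Type*} [Fintype β] [DecidableEq β]

namespace AlgMAux

/-- triangular elimination -/
theorem exists_elim (D : Matrix β β R) (deg : β → ℕ) (lo : Set β) (up : β → β) (t : β → ℕ)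
    (n : ℕ) (hdg : ∀ x y, D x y ≠ 0 → deg y = deg x + 1)
    (hpair : ∀ a ∈ lo, D a (up a) * star (D a (up a)) = 1 ∧ t (up a) = t a ∧
      deg (up a) = deg a + 1)
    (hinj : ∀ a ∈ lo, ∀ a' ∈ lo, t a = t a' → a = a')
    (htri : ∀ x y, D x y ≠ 0 → t x ≤ t y) (k : ℕ) :
    ∀ r : β → R, (∀ x, r x ≠ 0 → deg x = n) → ∃ c : β → R,
      (∀ y, c y ≠ 0 → ∃ a ∈ lo, y = up a ∧ t a < k ∧ deg a = n) ∧
      ∀ a ∈ lo, t a < k → (D *ᵥ c) a = r a := by
  induction k with
  | zero => intro r _; exact ⟨0, by simp, by simp⟩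
  | succ k ih =>
    intro r hr
    by_cases hex : ∃ a ∈ lo, t a = k
    · obtain ⟨a, ha, hta⟩ := hex
      let c₁ : β → R := Pi.single (up a) (star (D a (up a)) * r a)
      have hc₁ : ∀ x, (D *ᵥ c₁) x = D x (up a) * (star (D a (up a)) * r a) := by
        intro x; simp [c₁, Matrix.mulVec_single]
      obtain ⟨c, hc, hc'⟩ := ih (r - D *ᵥ c₁) (by
        intro x hx
        by_cases h1 : r x = 0
        · have h2 : D x (up a) * (star (D a (up a)) * r a) ≠ 0 := by
            intro h; apply hx; rw [Pi.sub_apply, hc₁, h, h1, sub_zero]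
          have h3 := hdg _ _ (left_ne_zero_of_mul h2)
          have h4 := hr a (right_ne_zero_of_mul (right_ne_zero_of_mul h2))
          have h5 := (hpair a ha).2.2
          omega
        · exact hr x h1)
      refine ⟨c + c₁, fun y hy => ?_, fun a' ha' hlt => ?_⟩
      · by_cases h1 : c y = 0
        · have h2 : c₁ y ≠ 0 := by intro h; apply hy; rw [Pi.add_apply, h1, h, add_zero]
          have h3 : y = up a := by
            by_contra h; exact h2 (Pi.single_eq_of_ne h _)
          subst h3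
          simp only [c₁, Pi.single_eq_same] at h2
          exact ⟨a, ha, rfl, by omega, hr a (right_ne_zero_of_mul h2)⟩
        · obtain ⟨a', h2, h3, h4, h5⟩ := hc y h1
          exact ⟨a', h2, h3, by omega, h5⟩
      · rw [Matrix.mulVec_add, Pi.add_apply]
        by_cases h1 : t a' < k
        · rw [hc' a' ha' h1, Pi.sub_apply, sub_add_cancel]
        · have h2 : a' = a := hinj _ ha' _ ha (by omega)
          subst h2
          have h3 : (D *ᵥ c) a' = 0 := by
            simp only [Matrix.mulVec, dotProduct]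
            refine Finset.sum_eq_zero fun y _ => ?_
            by_contra hne
            obtain ⟨a'', h4, h5, h6, -⟩ := hc y (right_ne_zero_of_mul hne)
            have h7 := htri _ _ (left_ne_zero_of_mul hne)
            rw [h5, (hpair a'' h4).2.1] at h7
            omega
          rw [h3, zero_add, hc₁, ← mul_assoc, (hpair a' ha').1, one_mul]
    · obtain ⟨c, hc, hc'⟩ := ih r hr
      refine ⟨c, fun y hy => ?_, fun a ha hlt => hc' a ha ?_⟩
      · obtain ⟨a', h2, h3, h4, h5⟩ := hc y hy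
        exact ⟨a', h2, h3, by omega, h5⟩
      · have : t a ≠ k := fun h => hex ⟨a, ha, h⟩
        omega

end AlgMAux

open AlgMAux in
theorem hasNu_morse {d : Matrix β β R} {deg : β → ℕ} {S : Set β} (hc : IsCx d deg S)
    (a₀ b₀ : β) (lo : Set β) (up : β → β) (t : β → ℕ) (φ : β → R) (u v : R)
    (hS : ∀ x, x ∈ S ↔ x = a₀ ∨ x = b₀ ∨ x ∈ lo ∨ ∃ a ∈ lo, x = up a)
    (hdeg : deg b₀ = deg a₀ + 1) (hev : Even (deg b₀))
    (hpair : ∀ a ∈ lo, d a (up a) * star (d a (up a)) = 1 ∧ t (up a) = t a ∧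
      deg (up a) = deg a + 1 ∧ t a ≠ t a₀ ∧ t a ≠ t b₀)
    (hinj : ∀ a ∈ lo, ∀ a' ∈ lo, t a = t a' → a = a')
    (htri : ∀ x ∈ S, ∀ y ∈ S, d x y ≠ 0 → t x < t y ∨ (x ∈ lo ∧ y = up x))
    (hab : t a₀ < t b₀) (hφ0 : φ a₀ = 1) (hφS : ∀ x, φ x ≠ 0 → x ∈ S ∧ deg x = deg a₀)
    (hφ : ∀ a ∈ lo, t a < t b₀ → ∑ x, φ x * d x (up a) = 0)
    (hu : ∑ x, φ x * d x b₀ = u) (huv : u * v = 1)
    (hlow : (∀ a ∈ lo, t a < t a₀ → φ (up a) = 0) ∨ (∀ x ∈ S, d x a₀ = 0)) :
    HasNu d deg S (v * star v) := by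
  set D := res d S with hD
  have ha₀ : a₀ ∈ S := (hS _).2 (Or.inl rfl)
  have hb₀ : b₀ ∈ S := (hS _).2 (Or.inr (Or.inl rfl))
  have hlo : ∀ a ∈ lo, a ∈ S := fun a ha => (hS _).2 (Or.inr (Or.inr (Or.inl ha)))
  have hup : ∀ a ∈ lo, up a ∈ S := fun a ha => (hS _).2 (Or.inr (Or.inr (Or.inr ⟨a, ha, rfl⟩)))
  have hDd : ∀ x ∈ S, ∀ y ∈ S, D x y = d x y := fun x hx y hy => if_pos ⟨hx, hy⟩
  have hDS : ∀ x y, D x y ≠ 0 → x ∈ S ∧ y ∈ S ∧ d x y ≠ 0 := by
    intro x y h
    have := sup_res hc x y h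
    exact ⟨this.1, this.2.1, hDd x this.1 y this.2.1 ▸ h⟩
  have hDt : ∀ x y, D x y ≠ 0 → t x < t y ∨ (x ∈ lo ∧ y = up x) := fun x y h =>
    htri x (hDS x y h).1 y (hDS x y h).2.1 (hDS x y h).2.2
  have hDle : ∀ x y, D x y ≠ 0 → t x ≤ t y := by
    intro x y h
    rcases hDt x y h with h1 | ⟨h1, rfl⟩
    · exact h1.le
    · exact (hpair x h1).2.1.ge
  have hDdeg : ∀ x y, D x y ≠ 0 → deg y = deg x + 1 := fun x y h =>
    hc.dg x (hDS x y h).1 y (hDS x y h).2.1 (hDS x y h).2.2
  have hb₀lo : b₀ ∉ lo := fun h => (hpair _ h).2.2.2.2 rfl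
  have ha₀lo : a₀ ∉ lo := fun h => (hpair _ h).2.2.2.1 rfl
  have hupb : ∀ a ∈ lo, up a ≠ b₀ := fun a ha h =>
    (hpair a ha).2.2.2.2 (by rw [← h, (hpair a ha).2.1])
  have hupa : ∀ a ∈ lo, up a ≠ a₀ := fun a ha h =>
    (hpair a ha).2.2.2.1 (by rw [← h, (hpair a ha).2.1])
  have huplo : ∀ a ∈ lo, up a ∉ lo := by
    intro a ha h
    have h1 := hinj _ h _ ha (hpair a ha).2.1
    have h2 := (hpair a ha).2.2.1
    rw [h1] at h2; omega
  have hne : a₀ ≠ b₀ := by rintro rfl; omega
  obtain ⟨c, hc1, hc2⟩ := exists_elim D deg lo up t (deg a₀) hDdeg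
    (fun a ha => ⟨by rw [hDd a (hlo a ha) _ (hup a ha)]; exact (hpair a ha).1, (hpair a ha).2.1,
      (hpair a ha).2.2.1⟩) hinj hDle (t b₀) (fun x => D x b₀)
    (fun x hx => by have := hDdeg x b₀ hx; omega)
  have hcb : c b₀ = 0 := by
    by_contra h
    obtain ⟨a, ha, h1, -⟩ := hc1 _ h
    exact hupb a ha h1.symm
  have hct : ∀ y, c y ≠ 0 → t y < t b₀ := by
    intro y hy
    obtain ⟨a, ha, rfl, h1, -⟩ := hc1 _ hy
    rw [(hpair a ha).2.1]; exact h1
  have hclo : ∀ a ∈ lo, c a = 0 := by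
    intro a ha
    by_contra h
    obtain ⟨a', ha', h1, -⟩ := hc1 _ h
    exact huplo a' ha' (h1 ▸ ha)
  have hca : c a₀ = 0 := by
    by_contra h
    obtain ⟨a, ha, h1, -⟩ := hc1 _ h
    exact hupa a ha h1.symm
  set z : β → R := fun x => D x b₀ - (D *ᵥ c) x with hz
  have hzs : ∀ x, z x ≠ 0 → x ∈ S ∧ t x < t b₀ := by
    intro x hx
    by_cases h1 : D x b₀ = 0
    · have h2 : (D *ᵥ c) x ≠ 0 := by intro h; apply hx; simp only [hz, h1, h, sub_zero]
      simp only [Matrix.mulVec, dotProduct] at h2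
      obtain ⟨y, -, hy⟩ := Finset.exists_ne_zero_of_sum_ne_zero h2
      have h3 := hDle _ _ (left_ne_zero_of_mul hy)
      have h4 := hct _ (right_ne_zero_of_mul hy)
      exact ⟨(hDS _ _ (left_ne_zero_of_mul hy)).1, by omega⟩
    · refine ⟨(hDS _ _ h1).1, ?_⟩
      rcases hDt _ _ h1 with h2 | ⟨h2, h3⟩
      · exact h2
      · exact absurd h3.symm (hupb x h2)
  have hzlo : ∀ a ∈ lo, z a = 0 := by
    intro a ha
    by_contra h
    apply h
    simp only [hz, hc2 a ha (hzs a h).2, sub_self]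
  have hzb : z b₀ = 0 := by
    by_contra h; exact lt_irrefl _ (hzs _ h).2
  have hDz : D *ᵥ z = 0 := by
    have e : z = D *ᵥ (Pi.single b₀ 1 - c) := by
      funext x; simp [hz, Matrix.mulVec_sub, Matrix.mulVec_single]
    rw [e, Matrix.mulVec_mulVec, hc.sq, Matrix.zero_mulVec]
  have hzup : ∀ n, ∀ a ∈ lo, (t a₀ < t a ∨ ∀ x ∈ S, d x a₀ = 0) → t b₀ ≤ t a + n →
      z (up a) = 0 := by
    intro n
    induction n with
    | zero =>
      intro a ha _ h
      by_contra h1
      have := (hzs _ h1).2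
      rw [(hpair a ha).2.1] at this
      omega
    | succ n ih =>
      intro a ha hg h
      have h1 : (D *ᵥ z) a = 0 := by rw [hDz]; rfl
      simp only [Matrix.mulVec, dotProduct] at h1
      rw [Finset.sum_eq_single (up a)] at h1
      · rw [hDd a (hlo a ha) _ (hup a ha)] at h1
        calc z (up a) = d a (up a) * star (d a (up a)) * z (up a) := by
              rw [(hpair a ha).1, one_mul]
          _ = star (d a (up a)) * (d a (up a) * z (up a)) := by ring
          _ = 0 := by rw [h1, mul_zero]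
      · intro y _ hy
        by_contra hne'
        have h2 := left_ne_zero_of_mul hne'
        have h3 := right_ne_zero_of_mul hne'
        have h4 : t a < t y := by
          rcases hDt _ _ h2 with h5 | ⟨-, h5⟩
          · exact h5
          · exact absurd h5 hy
        rcases (hS y).1 (hzs y h3).1 with rfl | rfl | h5 | ⟨a', ha', rfl⟩
        · rcases hg with hg | hg
          · omega
          · exact (hDS _ _ h2).2.2 (hg a (hlo a ha))
        · exact h3 hzb
        · exact h3 (hzlo y h5)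
        · rw [(hpair a' ha').2.1] at h4
          refine h3 (ih a' ha' ?_ (by omega))
          rcases hg with hg | hg
          · exact Or.inl (by omega)
          · exact Or.inr hg
      · simp
  have hzup' : ∀ a ∈ lo, z (up a) ≠ 0 → t a < t a₀ ∧ φ (up a) = 0 := by
    intro a ha h
    have h1 : ¬ (t a₀ < t a ∨ ∀ x ∈ S, d x a₀ = 0) := fun hg =>
      h (hzup (t b₀) a ha hg (by omega))
    have h2 := (hpair a ha).2.2.2.1
    have h3 : t a < t a₀ := by
      have : ¬ t a₀ < t a := fun h => h1 (Or.inl h)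
      omega
    rcases hlow with h4 | h4
    · exact ⟨h3, h4 a ha h3⟩
    · exact absurd (Or.inr h4) h1
  have hza : z a₀ = u := by
    have hφD : ∀ y ∈ S, ∑ x, φ x * D x y = ∑ x, φ x * d x y := by
      intro y hy
      refine Finset.sum_congr rfl fun x _ => ?_
      by_cases h : φ x = 0
      · simp [h]
      · rw [hDd x (hφS x h).1 y hy]
    have h1 : ∑ x, φ x * z x = z a₀ := by
      rw [Finset.sum_eq_single a₀, hφ0, one_mul]
      · intro x _ hx
        by_contra hne'
        have h3 := right_ne_zero_of_mul hne'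
        rcases (hS x).1 (hzs x h3).1 with rfl | rfl | h5 | ⟨a', ha', rfl⟩
        · exact hx rfl
        · exact h3 hzb
        · exact h3 (hzlo x h5)
        · exact left_ne_zero_of_mul hne' (hzup' a' ha' h3).2
      · simp
    have h2 : ∑ x, φ x * (D *ᵥ c) x = 0 := by
      simp only [Matrix.mulVec, dotProduct, Finset.mul_sum]
      rw [Finset.sum_comm]
      refine Finset.sum_eq_zero fun y _ => ?_
      by_cases h : c y = 0
      · simp [h]
      · obtain ⟨a, ha, rfl, h3, -⟩ := hc1 y h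
        simp only [← mul_assoc]
        rw [← Finset.sum_mul, hφD _ (hup a ha), hφ a ha h3, zero_mul]
    rw [← h1]
    simp only [hz, mul_sub, Finset.sum_sub_distrib]
    rw [h2, sub_zero, hφD _ hb₀, hu]
  -- the base change
  let E : Matrix β β R := Matrix.vecMulVec c (Pi.single b₀ 1)
  have hEa : ∀ x y, E x y = if y = b₀ then c x else 0 := by
    intro x y
    simp only [E, Matrix.vecMulVec_apply, Pi.single_apply]
    split_ifs <;> simp
  have hEs : ∀ x y, E x y ≠ 0 → y = b₀ ∧ c x ≠ 0 := by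
    intro x y h
    rw [hEa] at h
    split_ifs at h with h1
    · exact ⟨h1, h⟩
    · exact absurd rfl h
  have hcdeg : ∀ x, c x ≠ 0 → x ∈ S ∧ deg x = deg b₀ := by
    intro x hx
    obtain ⟨a, ha, rfl, -, h2⟩ := hc1 x hx
    exact ⟨hup a ha, by rw [(hpair a ha).2.2.1, h2, hdeg]⟩
  have hE : Sup deg S 0 E := by
    intro x y h
    obtain ⟨rfl, h1⟩ := hEs x y h
    exact ⟨(hcdeg x h1).1, hb₀, by rw [(hcdeg x h1).2]; simp⟩
  have hmulE : ∀ (M : Matrix β β R) x y, (M * E) x y = if y = b₀ then (M *ᵥ c) x else 0 := by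
    intro M x y
    simp only [Matrix.mul_apply, hEa, Matrix.mulVec, dotProduct]
    split_ifs <;> simp
  have hEmul : ∀ (M : Matrix β β R) x y, (E * M) x y = c x * M b₀ y := by
    intro M x y
    simp only [Matrix.mul_apply, hEa]
    rw [Finset.sum_eq_single b₀] <;> simp +contextual
  have hEE : E * E = 0 := by
    ext x y
    rw [hEmul, hEa, hcb]; simp
  have hdet : (1 - E).det = 1 := by
    have e : 1 - E = 1 + Matrix.vecMulVec (-c) (Pi.single b₀ 1) := by
      ext x y; simp [E, Matrix.vecMulVec_apply, sub_eq_add_neg]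
    rw [e, Matrix.vecMulVec_eq Unit, Matrix.det_one_add_replicateCol_mul_replicateRow]
    simp [hcb]
  set D' := (1 + E) * D * (1 - E) with hD'
  have hD1 : ∀ x y, (D * (1 - E)) x y = if y = b₀ then z x else D x y := by
    intro x y
    rw [Matrix.mul_sub, Matrix.mul_one, Matrix.sub_apply, hmulE]
    split_ifs with h
    · rw [h]
    · simp
  have hD'b : ∀ x, D' x b₀ = z x := by
    intro x
    rw [hD', Matrix.mul_assoc, Matrix.add_mul, Matrix.one_mul, Matrix.add_apply, hEmul, hD1, hD1]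
    simp [hzb]
  have hD'n : ∀ x y, y ≠ b₀ → D' x y = D x y + c x * D b₀ y := by
    intro x y hy
    rw [hD', Matrix.mul_assoc, Matrix.add_mul, Matrix.one_mul, Matrix.add_apply, hEmul, hD1, hD1]
    simp [hy]
  have hc' : IsCx D' deg S := isCx_change hc E hE hEE
  let L : Finset β := insert a₀ lo.toFinset
  let up' : β → β := Function.update up a₀ b₀
  let t' : β → ℕ := Function.update t b₀ (t a₀)
  have hup'a : up' a₀ = b₀ := Function.update_self _ _ _
  have hup' : ∀ a ∈ lo, up' a = up a := fun a ha =>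
    Function.update_of_ne (by rintro rfl; exact ha₀lo ha) _ _
  have ht'b : t' b₀ = t a₀ := Function.update_self _ _ _
  have ht' : ∀ x, x ≠ b₀ → t' x = t x := fun x hx => Function.update_of_ne hx _ _
  have hlob : ∀ a ∈ lo, a ≠ b₀ := fun a ha h => hb₀lo (h ▸ ha)
  have hL : ∀ x, x ∈ L ↔ x = a₀ ∨ x ∈ lo := by intro x; simp [L]
  have hS' : ∀ x, x ∈ S ↔ x ∈ L ∨ ∃ a ∈ L, x = up' a := by
    intro x
    rw [hS, hL]
    constructor
    · rintro (h | h | h | ⟨a, ha, h⟩)
      · exact Or.inl (Or.inl h)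
      · exact Or.inr ⟨a₀, (hL _).2 (Or.inl rfl), by rw [hup'a, h]⟩
      · exact Or.inl (Or.inr h)
      · exact Or.inr ⟨a, (hL _).2 (Or.inr ha), by rw [hup' a ha, h]⟩
    · rintro ((h | h) | ⟨a, ha, h⟩)
      · exact Or.inl h
      · exact Or.inr (Or.inr (Or.inl h))
      · rcases (hL a).1 ha with rfl | ha'
        · exact Or.inr (Or.inl (by rw [h, hup'a]))
        · exact Or.inr (Or.inr (Or.inr ⟨a, ha', by rw [h, hup' a ha']⟩))
  have hp' : ∀ a ∈ L, t' (up' a) = t' a ∧ deg (up' a) = deg a + 1 := by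
    intro a ha
    rcases (hL a).1 ha with rfl | ha'
    · rw [hup'a, ht'b, ht' _ hne]; exact ⟨rfl, hdeg⟩
    · rw [hup' a ha', ht' _ (hupb a ha'), ht' _ (hlob a ha')]
      exact ⟨(hpair a ha').2.1, (hpair a ha').2.2.1⟩
  have hinj' : ∀ a ∈ L, ∀ a' ∈ L, t' a = t' a' → a = a' := by
    intro a ha a' ha' h
    rcases (hL a).1 ha with rfl | h1 <;> rcases (hL a').1 ha' with rfl | h2
    · rfl
    · rw [ht' _ hne, ht' _ (hlob _ h2)] at h
      exact absurd h.symm (hpair _ h2).2.2.2.1
    · rw [ht' _ hne, ht' _ (hlob _ h1)] at h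
      exact absurd h (hpair _ h1).2.2.2.1
    · rw [ht' _ (hlob _ h1), ht' _ (hlob _ h2)] at h
      exact hinj _ h1 _ h2 h
  obtain ⟨π, hπ⟩ := exists_swap (deg := deg) up' t' L S hS' hp' hinj'
  refine hasNu_change hc E hE hEE (fun x y h => ?_) hdet π hπ ?_
  · rw [(hcdeg x (hEs x y h).2).2]; exact hev
  have hmem : ∀ a ∈ L, ∀ x ∈ ({a, up' a} : Set β), x ∈ S := by
    rintro a ha x (rfl | rfl)
    · exact (hS' _).2 (Or.inl ha)
    · exact (hS' _).2 (Or.inr ⟨a, ha, rfl⟩)
  have key := hasNu_pairs (d := D') (deg := deg) up' t'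
    (fun a => if a = a₀ then v * star v else 1) L S hS' hc' (fun a ha => ⟨(hp' a ha).1, ?_⟩) hinj' ?_
  · rw [Finset.prod_ite_eq' L a₀, if_pos ((hL _).2 (Or.inl rfl))] at key
    exact key
  · have hdg : ∀ x ∈ ({a, up' a} : Set β), ∀ y ∈ ({a, up' a} : Set β), D' x y ≠ 0 →
        deg y = deg x + 1 := fun x hx y hy h => hc'.dg x (hmem a ha x hx) y (hmem a ha y hy) h
    rcases (hL a).1 ha with rfl | ha'
    · have h1 := hasNu_two v (hp' a ha).2 hdg (by rw [hup'a, hD'b, hza, huv])
      have h2 : Odd (deg a) := by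
        rw [hdeg, Nat.even_iff] at hev; rw [Nat.odd_iff]; omega
      rw [if_pos h2] at h1
      simpa using h1
    · have h0 : D' a (up' a) = d a (up a) := by
        rw [hup' a ha', hD'n _ _ (hupb a ha'), hclo a ha', zero_mul, add_zero,
          hDd a (hlo a ha') _ (hup a ha')]
      have h1 := hasNu_two (star (d a (up a))) (hp' a ha).2 hdg (by rw [h0]; exact (hpair a ha').1)
      have h2 : a ≠ a₀ := by rintro rfl; exact ha₀lo ha'
      rw [h0, star_star, mul_comm (star _), (hpair a ha').1, ite_self] at h1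
      simpa [h2] using h1
  · intro x _ y _ h
    have hle : t' x ≤ t x := by
      by_cases hx : x = b₀
      · rw [hx, ht'b]; exact hab.le
      · rw [ht' x hx]
    by_cases hy : y = b₀
    · subst hy
      rw [hD'b] at h
      rw [ht'b]
      rcases (hS x).1 (hzs x h).1 with rfl | rfl | h5 | ⟨a', ha', rfl⟩
      · exact hle
      · exact absurd hzb h
      · exact absurd (hzlo x h5) h
      · have := (hzup' a' ha' h).1
        rw [(hpair a' ha').2.1] at hle
        omega
    · rw [hD'n x y hy] at h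
      rw [ht' y hy]
      by_cases h1 : D x y = 0
      · rw [h1, zero_add] at h
        have h2 := hct x (left_ne_zero_of_mul h)
        have h3 := hDle _ _ (right_ne_zero_of_mul h)
        omega
      · exact hle.trans (hDle _ _ h1)

end SpunKnot
end
end
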