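import Mathlib

-- merged part: Pool.Agent.Work.MP_e1e788_gt.GridDefs
section
/-! Cubical complexes in the unit grid of `ℝ^κ` and their smooth neighbourhood functions.
A cell is a function `c : κ → ℤ`; `c j = 2 i` is the vertex `i`, `c j = 2 i + 1` the edge
`(i, i + 1)`. -/

open Set Filter Topology
open scoped Classical

noncomputable section
namespace SpunKnot

/-- equals `t` on `[-3/4, 3/4]`, vanishes off `[-5/4, 5/4]` -/
def psi0 (t : ℝ) : ℝ :=
  t * (Real.smoothTransition (2 * t + 5 / 2) * Real.smoothTransition (5 / 2 - 2 * t))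

/-- width of the vertex zones -/
def eta : ℝ := min (1 / 100) (1 / (16 * (abs (⨆ t, abs (deriv psi0 t)) + 1)))

theorem eta_pos : 0 < eta := by
  unfold eta; refine lt_min (by norm_num) ?_; positivity

theorem eta_le : eta ≤ 1 / 100 := min_le_left _ _

/-- smooth step: `0` on `(-∞, η]`, `1` on `[2η, ∞)` -/
def stp (s : ℝ) : ℝ := Real.smoothTransition ((s - eta) / eta)

abbrev Sp (κ : Type*) := EuclideanSpace ℝ κ

/-- direction away from the nearest integer -/
def sg (s : ℝ) : ℤ := if ((round s : ℤ) : ℝ) ≤ s then 1 else -1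

/-- weight of the adjacent edge -/
def tt (s : ℝ) : ℝ := stp |s - (round s : ℤ)|

variable {κ : Type*} [Fintype κ] [DecidableEq κ]

/-- the cell at `x` that is an edge exactly in the directions `S` -/
def acell (x : Sp κ) (S : Finset κ) : κ → ℤ :=
  fun j => 2 * round (x j) + if j ∈ S then sg (x j) else 0

/-- `acell x S` has positive weight at `x` -/
def Active (x : Sp κ) (S : Finset κ) : Prop :=
  (∀ j ∈ S, 0 < tt (x j)) ∧ ∀ j ∉ S, tt (x j) < 1

/-- the smallest cell of positive weight -/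
def mcell (x : Sp κ) : κ → ℤ := acell x (Finset.univ.filter fun j => tt (x j) = 1)

/-- multilinear extension -/
def ML (w : Finset κ → ℝ) (t : κ → ℝ) : ℝ :=
  ∑ S : Finset κ, ((∏ j ∈ S, t j) * ∏ j ∈ Sᶜ, (1 - t j)) * w S

/-- probability that the random cell at `x` is not in `Y` -/
def hY (Y : Set (κ → ℤ)) (x : Sp κ) : ℝ :=
  ML (fun S => if acell x S ∈ Y then 0 else 1) fun j => tt (x j)

/-- closed under faces -/
def Closed (Y : Set (κ → ℤ)) : Prop :=
  ∀ c ∈ Y, ∀ j, Odd (c j) →
    Function.update c j (c j + 1) ∈ Y ∧ Function.update c j (c j - 1) ∈ Y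

/-- `Y'` collapses to `Y` in the direction `j`, from the free vertex `i` along the edge `2i + ε` -/
def PCol (Y Y' : Set (κ → ℤ)) : Prop :=
  Closed Y ∧ Closed Y' ∧ Y ⊆ Y' ∧ ∃ (j : κ) (i ε : ℤ), (ε = 1 ∨ ε = -1) ∧
    ∀ c ∈ Y' \ Y, (c j = 2 * i ∨ c j = 2 * i + ε) ∧ Function.update c j (2 * i) ∈ Y' \ Y ∧
      Function.update c j (2 * i + ε) ∈ Y' \ Y ∧ Function.update c j (2 * i - ε) ∉ Y'

/-- `Y'` collapses to `Y` -/
def Col : Set (κ → ℤ) → Set (κ → ℤ) → Prop := Relation.ReflTransGen PCol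

/-- complex in one more direction with prescribed fibres -/
def stack (F : ℤ → Set (κ → ℤ)) : Set (Option κ → ℤ) := {c | (fun j => c (some j)) ∈ F (c none)}

/-- forget the new coordinate -/
def tlL (κ : Type*) [Fintype κ] : Sp (Option κ) →L[ℝ] Sp κ :=
  LinearMap.toContinuousLinearMap
    { toFun := fun x => WithLp.toLp 2 fun j => x (some j)
      map_add' := fun _ _ => rfl
      map_smul' := fun _ _ => rfl }

omit [DecidableEq κ] in
@[simp] theorem tlL_apply (x : Sp (Option κ)) (j : κ) : tlL κ x j = x (some j) := rfl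

section
variable {S : Type*} [NormedAddCommGroup S] [NormedSpace ℝ S]

/-- a smooth decreasing path from `p` to `q`, all of whose levels in `(0,1)` are regular -/
structure IsMPath (H : ℝ × S → ℝ) (p q : S → ℝ) : Prop where
  smooth : ContDiff ℝ (⊤ : ℕ∞) H
  start : ∀ s ≤ 0, ∀ y, H (s, y) = p y
  stop : ∀ s, 1 ≤ s → ∀ y, H (s, y) = q y
  anti : ∀ y, Antitone fun s => H (s, y)
  range : ∀ z, 0 ≤ H z ∧ H z ≤ 1
  reg : ∀ s y, 0 < H (s, y) → H (s, y) < 1 → fderiv ℝ (fun y' => H (s, y')) y ≠ 0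

/-- a diffeomorphism supported in `C` carries `{G₀ = 0}` to `{G₁ = 0}` -/
def Iso (C : Set S) (G₀ G₁ : S → ℝ) : Prop :=
  ∃ Ξ Ξ' : S → S, ContDiff ℝ (⊤ : ℕ∞) Ξ ∧ ContDiff ℝ (⊤ : ℕ∞) Ξ' ∧ (∀ x, Ξ' (Ξ x) = x) ∧
    (∀ x, Ξ (Ξ' x) = x) ∧ (∀ x ∉ C, Ξ x = x) ∧ ∀ x, G₀ x = 0 ↔ G₁ (Ξ x) = 0
end

end SpunKnot
end
end

-- merged part: Pool.Agent.Work.MP_e1e788_gt.SDDefs
section
/-! Abstract slice data and the functions built from them. -/

open Set Filter Topology

noncomputable section
namespace SpunKnot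

/-- `0` on `(-∞, -3η]`, `1` on `[-η/2, ∞)` -/
def upS (t : ℝ) : ℝ := Real.smoothTransition ((t + 3 * eta) / (5 * eta / 2))

/-- the level shift: two bumps of height `1/4` around `1` and `2` -/
def muS (τ : ℝ) : ℝ :=
  (upS (τ - 1) + upS (1 - τ) - 1) / 4 + (upS (τ - 2) + upS (2 - τ) - 1) / 4

/-- `1` on `[1 - 3η, 1 - η/2]`, `0` off `(1 - 4η, 1)` -/
def sigS (τ : ℝ) : ℝ :=
  Real.smoothTransition ((τ - (1 - 4 * eta)) / eta) * Real.smoothTransition ((1 - τ) / (eta / 2))

def tau1 : ℝ := 1 - 5 / 2 * eta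
def tau2 : ℝ := 1 - 3 / 4 * eta

variable {S : Type*} [NormedAddCommGroup S] [NormedSpace ℝ S]

/-- slice data -/
structure SD (S : Type*) [NormedAddCommGroup S] [NormedSpace ℝ S] where
  l0 : S →L[ℝ] ℝ
  e0 : S
  p0 : S → ℝ
  p1 : S → ℝ
  p2 : S → ℝ
  p3 : S → ℝ
  pN : S → ℝ
  pC : S → ℝ
  κ : S → ℝ
  Q : ℝ × S → ℝ
  R : ℝ × S → ℝ
  H2 : ℝ × S → ℝ
  H3 : ℝ × S → ℝ
  H4 : ℝ × S → ℝ
  l0e0 : l0 e0 = 1
  hQ : IsMPath Q p0 p2
  hR : IsMPath R p1 p3
  h2 : IsMPath H2 pN p3
  h3 : IsMPath H3 pN pC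
  h4 : IsMPath H4 p0 pC
  le10 : ∀ y, p1 y ≤ p0 y
  le21 : ∀ y, p2 y ≤ p1 y
  le32 : ∀ y, p3 y ≤ p2 y
  κ_smooth : ContDiff ℝ (⊤ : ℕ∞) κ
  κ_range : ∀ y, 0 ≤ κ y ∧ κ y ≤ 1
  κ_cpt : HasCompactSupport κ
  tri : ∀ y, (∀ᶠ y' in 𝓝 y, κ y' = 1) ∨
    ((∀ᶠ y' in 𝓝 y, p0 y' = stp (l0 y') ∧ p3 y' = stp (l0 y') ∧ pN y' = stp (l0 y') ∧
        pC y' = stp (l0 y')) ∧ (fderiv ℝ κ y e0 = 0 ∨ stp (l0 y) = 0 ∨ stp (l0 y) = 1)) ∨
    ∀ᶠ y' in 𝓝 y, κ y' = 0 ∧ p3 y' = p0 y' ∧ pN y' = p0 y' ∧ pC y' = p0 y'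
  ne : ∃ y, κ y = 1 ∧ p0 y = 1 / 2

/-- a function on the spun slice without critical points between the levels `0` and `1` -/
structure IsF (p0 p3 : S → ℝ) (F : ℝ × S → ℝ) : Prop where
  smooth : ContDiff ℝ (⊤ : ℕ∞) F
  per : ∃ ε > 0, ∀ θ, |θ + Real.pi| < ε → ∀ y, F (θ + 2 * Real.pi, y) = F (θ, y)
  reg : ∀ θ ∈ Icc (-Real.pi) Real.pi, ∀ y, 0 ≤ F (θ, y) → F (θ, y) ≤ 1 → fderiv ℝ F (θ, y) ≠ 0
  lo : ∀ θ ∈ Icc (-Real.pi) Real.pi, ∀ y, (p0 y < 1 / 2 → F (θ, y) < 0) ∧
    (1 / 2 < p0 y → 0 < F (θ, y)) ∧ (p0 y = 1 / 2 → F (θ, y) = 0 ∧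
      ∃ c : ℝ, 0 < c ∧ fderiv ℝ (fun y' => F (θ, y')) y = c • fderiv ℝ p0 y)
  hi : ∀ θ ∈ Icc (-Real.pi) Real.pi, ∀ y, (p3 y < 3 / 4 → F (θ, y) < 1) ∧
    (3 / 4 < p3 y → 1 < F (θ, y)) ∧ (p3 y = 3 / 4 → F (θ, y) = 1 ∧
      ∃ c : ℝ, 0 < c ∧ fderiv ℝ (fun y' => F (θ, y')) y = c • fderiv ℝ p3 y)
  mid : ∀ θ ∈ Icc (-Real.pi) Real.pi, ∀ y e, (∀ᶠ y' in 𝓝 y, p3 y' = p0 y') →
    0 ≤ fderiv ℝ p0 y e → 0 ≤ fderiv ℝ (fun y' => F (θ, y')) y e

namespace SD
variable (D : SD S)

/-- the neighbourhood function of the ring, on the top strip -/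
def hcan (q : ℝ × S) : ℝ :=
  D.p0 q.2 + (1 - stp (1 - q.1)) * (D.p3 q.2 - D.p0 q.2) + stp (q.1 - 1) * (D.pN q.2 - D.p3 q.2) +
    (1 - stp (2 - q.1)) * (D.pC q.2 - D.pN q.2) + stp (q.1 - 2) * (D.p0 q.2 - D.pC q.2)

/-- the last three transitions replaced by regular paths -/
def hK (q : ℝ × S) : ℝ :=
  D.p0 q.2 + (1 - stp (1 - q.1)) * (D.p3 q.2 - D.p0 q.2) +
    (D.H2 ((1 + 2 * eta - q.1) / eta, q.2) - D.p3 q.2) +
    (D.H3 ((q.1 - (2 - 2 * eta)) / eta, q.2) - D.pN q.2) +
    (D.H4 ((2 + 2 * eta - q.1) / eta, q.2) - D.pC q.2)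

def gK (q : ℝ × S) : ℝ := D.hK q - 1 / 2 - D.κ q.2 * muS q.1

/-- the family from `hcan - 1/2` to `gK` -/
def gI (s : ℝ) (q : ℝ × S) : ℝ :=
  (1 - s) * D.hcan q + s * D.hK q - 1 / 2 - s * (D.κ q.2 * muS q.1)

/-- the spun family, from `gK` to the fibred model -/
def gS (F : ℝ × S → ℝ) (s θ : ℝ) (q : ℝ × S) : ℝ :=
  D.gK q + s * (D.κ q.2 * sigS q.1) * (F (θ, q.2) - upS (q.1 - 1) - D.gK q)

/-- `1` where `κ ≥ 3/4`, `0` where `κ ≤ 1/2` -/
def kp (y : S) : ℝ := Real.smoothTransition (4 * D.κ y - 2)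

def tauF (y : S) : ℝ := tau1 + D.kp y * (tau2 - tau1)

def D1 : Set S := {y | D.gK (tau1, y) ≤ 0}
def DF : Set S := {y | D.gK (D.tauF y, y) ≤ 0}
def U2 : Set S :=
  {y | 1 / 4 < D.κ y ∧ D.gK (1 - eta / 2, y) < 0 ∧ 0 < D.gK (1 - 3 * eta, y)}

/-- outside the region where the functions differ from the plain ring -/
def Off (q : ℝ × S) : Prop :=
  q.1 < 1 - 4 * eta ∨ 2 + 4 * eta < q.1 ∨ q.2 ∉ tsupport D.κ
end SD

end SpunKnot
end
end

-- merged part: Pool.Agent.Work.MP_e1e788_gt.GridA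
section
/-! The step function, values of `hY`, smoothness. -/

open Set Filter Topology
open scoped Classical

noncomputable section
namespace SpunKnot
variable {κ : Type*} [Fintype κ] [DecidableEq κ]

namespace GridAAux

theorem glue_hasDerivAt {s : ℝ} (h : 0 < s) :
    HasDerivAt expNegInvGlue (expNegInvGlue s * (s ^ 2)⁻¹) s := by
  have h1 : HasDerivAt (fun x : ℝ => Real.exp (-x⁻¹)) (Real.exp (-s⁻¹) * (s ^ 2)⁻¹) s := by
    have := ((hasDerivAt_inv h.ne').neg).exp
    simpa using this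
  have h2 : expNegInvGlue =ᶠ[𝓝 s] fun x : ℝ => Real.exp (-x⁻¹) := by
    filter_upwards [lt_mem_nhds h] with x hx
    simp [expNegInvGlue, not_le.2 hx]
  have h3 : expNegInvGlue s = Real.exp (-s⁻¹) := by simp [expNegInvGlue, not_le.2 h]
  rw [h3]
  exact h1.congr_of_eventuallyEq h2

end GridAAux

theorem smoothTransition_deriv_pos {s : ℝ} (h0 : 0 < s) (h1 : s < 1) :
    0 < deriv Real.smoothTransition s := by
  have ha := GridAAux.glue_hasDerivAt h0
  have h1' : 0 < 1 - s := by linarith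
  have hb : HasDerivAt (fun x : ℝ => expNegInvGlue (1 - x))
      (expNegInvGlue (1 - s) * ((1 - s) ^ 2)⁻¹ * (-1)) s := by
    have hc : HasDerivAt (fun x : ℝ => 1 - x) (-1) s := by
      simpa using (hasDerivAt_id s).const_sub 1
    exact (GridAAux.glue_hasDerivAt h1').comp s hc
  have hd := ha.div (ha.add hb) (Real.smoothTransition.pos_denom s).ne'
  have he : deriv Real.smoothTransition s = _ := hd.deriv
  rw [he]
  have pa := expNegInvGlue.pos_of_pos h0
  have pb := expNegInvGlue.pos_of_pos h1'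
  have qa : 0 < (s ^ 2)⁻¹ := by positivity
  have qb : 0 < ((1 - s) ^ 2)⁻¹ := by positivity
  apply div_pos
  · simp only [Pi.add_apply]
    have e1 := mul_pos (mul_pos pa qa) pb
    have e2 := mul_pos pa (mul_pos pb qb)
    linarith only [e1, e2]
  · simp only [Pi.add_apply]
    positivity

theorem smoothTransition_deriv_nonneg (s : ℝ) : 0 ≤ deriv Real.smoothTransition s :=
  Real.smoothTransition.monotone.deriv_nonneg

theorem smoothTransition_deriv_zero {s : ℝ} (h : s ≤ 0 ∨ 1 ≤ s) :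
    deriv Real.smoothTransition s = 0 := by
  rcases h with h | h
  · apply IsLocalMin.deriv_eq_zero
    refine Filter.Eventually.of_forall fun y => ?_
    rw [Real.smoothTransition.zero_of_nonpos h]
    exact Real.smoothTransition.nonneg y
  · apply IsLocalMax.deriv_eq_zero
    refine Filter.Eventually.of_forall fun y => ?_
    rw [Real.smoothTransition.one_of_one_le h]
    exact Real.smoothTransition.le_one y

theorem smoothTransition_strictMonoOn : StrictMonoOn Real.smoothTransition (Icc 0 1) := by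
  apply strictMonoOn_of_deriv_pos (convex_Icc 0 1) Real.smoothTransition.continuous.continuousOn
  intro x hx
  rw [interior_Icc] at hx
  exact smoothTransition_deriv_pos hx.1 hx.2

theorem stp_smooth : ContDiff ℝ (⊤ : ℕ∞) stp := by
  unfold stp
  exact Real.smoothTransition.contDiff.comp ((contDiff_id.sub contDiff_const).div_const _)

theorem stp_mono : Monotone stp := by
  intro a b hab
  apply Real.smoothTransition.monotone
  have := eta_pos
  gcongr

theorem stp_range (s : ℝ) : 0 ≤ stp s ∧ stp s ≤ 1 :=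
  ⟨Real.smoothTransition.nonneg _, Real.smoothTransition.le_one _⟩

theorem stp_eq_zero_iff {s : ℝ} : stp s = 0 ↔ s ≤ eta := by
  unfold stp
  rw [Real.smoothTransition.zero_iff_nonpos, div_nonpos_iff]
  have := eta_pos
  constructor
  · rintro (⟨_, h⟩ | ⟨h, _⟩) <;> linarith
  · intro h
    exact Or.inr ⟨by linarith, this.le⟩

theorem stp_eq_one_iff {s : ℝ} : stp s = 1 ↔ 2 * eta ≤ s := by
  unfold stp
  rw [Real.smoothTransition.eq_one_iff_one_le, le_div_iff₀ eta_pos]
  constructor <;> intro h <;> linarith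

namespace GridAAux

theorem st_half : Real.smoothTransition (1 / 2) = 1 / 2 := by
  unfold Real.smoothTransition
  have h : (1 : ℝ) - 1 / 2 = 1 / 2 := by norm_num
  rw [h]
  have := expNegInvGlue.pos_of_pos (show (0 : ℝ) < 1 / 2 by norm_num)
  field_simp
  ring

theorem st_eq_half_iff {u : ℝ} : Real.smoothTransition u = 1 / 2 ↔ u = 1 / 2 := by
  constructor
  · intro h
    have h0 : 0 < u := by
      by_contra hc
      rw [Real.smoothTransition.zero_of_nonpos (not_lt.1 hc)] at h
      norm_num at h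
    have h1 : u < 1 := by
      by_contra hc
      rw [Real.smoothTransition.one_of_one_le (not_lt.1 hc)] at h
      norm_num at h
    apply smoothTransition_strictMonoOn.injOn ⟨h0.le, h1.le⟩ ⟨by norm_num, by norm_num⟩
    rw [h, st_half]
  · rintro rfl
    exact st_half

theorem stp_hasDerivAt (s : ℝ) :
    HasDerivAt stp (deriv Real.smoothTransition ((s - eta) / eta) * (1 / eta)) s := by
  have h1 : HasDerivAt (fun x : ℝ => (x - eta) / eta) (1 / eta) s :=
    ((hasDerivAt_id s).sub_const eta).div_const eta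
  have h2 : HasDerivAt Real.smoothTransition (deriv Real.smoothTransition ((s - eta) / eta))
      ((s - eta) / eta) :=
    ((Real.smoothTransition.contDiff (n := 1)).differentiable (by simp) _).hasDerivAt
  exact h2.comp s h1

end GridAAux

theorem stp_eq_half_iff {s : ℝ} : stp s = 1 / 2 ↔ s = 3 / 2 * eta := by
  unfold stp
  rw [GridAAux.st_eq_half_iff, div_eq_iff eta_pos.ne']
  constructor <;> intro h <;> linarith only [h]

theorem stp_deriv_pos {s : ℝ} (h0 : 0 < stp s) (h1 : stp s < 1) : 0 < deriv stp s := by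
  rw [(GridAAux.stp_hasDerivAt s).deriv]
  have he := eta_pos
  have a0 : eta < s := by
    by_contra hc
    rw [stp_eq_zero_iff.2 (not_lt.1 hc)] at h0
    exact lt_irrefl _ h0
  have a1 : s < 2 * eta := by
    by_contra hc
    rw [stp_eq_one_iff.2 (not_lt.1 hc)] at h1
    exact lt_irrefl _ h1
  apply mul_pos _ (by positivity)
  apply smoothTransition_deriv_pos
  · exact div_pos (by linarith) he
  · rw [div_lt_one he]; linarith

theorem stp_deriv_nonneg (s : ℝ) : 0 ≤ deriv stp s := stp_mono.deriv_nonneg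

theorem stp_deriv_zero {s : ℝ} (h : stp s = 0 ∨ stp s = 1) : deriv stp s = 0 := by
  rcases h with h | h
  · apply IsLocalMin.deriv_eq_zero
    refine Filter.Eventually.of_forall fun y => ?_
    rw [h]
    exact (stp_range y).1
  · apply IsLocalMax.deriv_eq_zero
    refine Filter.Eventually.of_forall fun y => ?_
    rw [h]
    exact (stp_range y).2

namespace GridAAux

theorem tt_range (s : ℝ) : 0 ≤ tt s ∧ tt s ≤ 1 := stp_range _

theorem round_eq_of {s : ℝ} {i : ℤ} (h1 : (i : ℝ) - 1 / 2 ≤ s) (h2 : s < i + 1 / 2) :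
    round s = i := by
  rw [round_eq, Int.floor_eq_iff]
  constructor <;> linarith only [h1, h2]

theorem round_bounds (s : ℝ) :
    ((round s : ℤ) : ℝ) - 1 / 2 ≤ s ∧ s < (round s : ℤ) + 1 / 2 := by
  rw [round_eq]
  have h1 := Int.floor_le (s + 1 / 2)
  have h2 := Int.lt_floor_add_one (s + 1 / 2)
  constructor <;> linarith only [h1, h2]

theorem sg_of_le {s : ℝ} (h : ((round s : ℤ) : ℝ) ≤ s) : sg s = 1 := by simp [sg, h]

theorem sg_of_lt {s : ℝ} (h : s < ((round s : ℤ) : ℝ)) : sg s = -1 := by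
  simp [sg, not_le.2 h]

theorem sg_cases (s : ℝ) : sg s = 1 ∨ sg s = -1 := by
  rcases le_or_gt ((round s : ℤ) : ℝ) s with h | h
  · exact Or.inl (sg_of_le h)
  · exact Or.inr (sg_of_lt h)

theorem abs_eq_sg (s : ℝ) : |s - (round s : ℤ)| = (sg s : ℝ) * (s - (round s : ℤ)) := by
  rcases le_or_gt ((round s : ℤ) : ℝ) s with h | h
  · rw [sg_of_le h, abs_of_nonneg (by linarith)]; simp
  · rw [sg_of_lt h, abs_of_neg (by linarith)]; simp

theorem tt_eq (s : ℝ) : tt s = stp ((sg s : ℝ) * (s - (round s : ℤ))) := by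
  rw [tt, abs_eq_sg]

theorem local1 (s₀ : ℝ) : ∀ᶠ s in 𝓝 s₀,
    tt s = stp ((sg s₀ : ℝ) * (s - (round s₀ : ℤ))) ∧
      (tt s ≠ 0 → 2 * round s + sg s = 2 * round s₀ + sg s₀) ∧
      (tt s ≠ 1 → round s = round s₀) := by
  obtain ⟨b1, b2⟩ := round_bounds s₀
  have he := eta_pos
  have he' := eta_le
  rcases lt_trichotomy s₀ ((round s₀ : ℤ) : ℝ) with h | h | h
  · have hs := sg_of_lt h
    rcases b1.eq_or_lt with h' | h'
    · have n1 : Ioo (s₀ - 1 / 4) (s₀ + 1 / 4) ∈ 𝓝 s₀ :=
        Ioo_mem_nhds (by linarith only [he, he']) (by linarith only [he, he'])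
      filter_upwards [n1] with s hs'
      obtain ⟨c1, c2⟩ := hs'
      rcases le_or_gt s₀ s with c | c
      · have r : round s = round s₀ := round_eq_of (by linarith only [b1, c]) (by linarith only [he, he', h', c2])
        have g : sg s = -1 := sg_of_lt (by rw [r]; linarith only [he, he', h', c2])
        refine ⟨?_, fun _ => by rw [r, g, hs], fun _ => r⟩
        rw [tt_eq, r, g, hs]
      · have r : round s = round s₀ - 1 :=
          round_eq_of (by push_cast; linarith only [b1, he, he', c1]) (by push_cast; linarith only [h', c])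
        have g : sg s = 1 := sg_of_le (by rw [r]; push_cast; linarith only [b1, he, he', c1])
        have t1 : tt s = 1 := by
          rw [tt_eq, r, g, stp_eq_one_iff]; push_cast; linarith only [b1, he, he', c1]
        refine ⟨?_, fun _ => by rw [r, g, hs]; ring, fun hc => absurd t1 hc⟩
        rw [t1, hs, eq_comm, stp_eq_one_iff]; push_cast; linarith only [he, he', h', c2]
    · filter_upwards [Ioo_mem_nhds h' h] with s hs'
      obtain ⟨c1, c2⟩ := hs'
      have r : round s = round s₀ := round_eq_of (by linarith only [c1]) (by linarith only [he, he', c2])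
      have g : sg s = -1 := sg_of_lt (by rw [r]; linarith only [c2])
      refine ⟨?_, fun _ => by rw [r, g, hs], fun _ => r⟩
      rw [tt_eq, r, g, hs]
  · have hs := sg_of_le h.ge
    have n1 : Ioo (s₀ - eta) (s₀ + eta) ∈ 𝓝 s₀ := Ioo_mem_nhds (by linarith only [he]) (by linarith only [he])
    filter_upwards [n1] with s hs'
    obtain ⟨c1, c2⟩ := hs'
    have r : round s = round s₀ := round_eq_of (by linarith only [he, he', h, c1]) (by linarith only [he, he', h, c2])
    have t0 : tt s = 0 := by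
      rw [tt, r, stp_eq_zero_iff, abs_le]; constructor <;> linarith only [h, c1, c2]
    refine ⟨?_, fun hc => absurd t0 hc, fun _ => r⟩
    rw [t0, hs, eq_comm, stp_eq_zero_iff]; push_cast; linarith only [h, c2]
  · have hs := sg_of_le h.le
    filter_upwards [Ioo_mem_nhds h b2] with s hs'
    obtain ⟨c1, c2⟩ := hs'
    have r : round s = round s₀ := round_eq_of (by linarith only [he, he', c1]) (by linarith only [c2])
    have g : sg s = 1 := sg_of_le (by rw [r]; linarith only [c1])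
    refine ⟨?_, fun _ => by rw [r, g, hs], fun _ => r⟩
    rw [tt_eq, r, g, hs]

/-- product weight of a subset -/
def wt (t : κ → ℝ) (S : Finset κ) : ℝ := (∏ j ∈ S, t j) * ∏ j ∈ Sᶜ, (1 - t j)

theorem ML_eq (w : Finset κ → ℝ) (t : κ → ℝ) : ML w t = ∑ S : Finset κ, wt t S * w S := rfl

theorem sum_wt (t : κ → ℝ) : ∑ S : Finset κ, wt t S = 1 := by
  have h := Finset.prod_add t (fun j => 1 - t j) (Finset.univ : Finset κ)
  simp only [add_sub_cancel, Finset.prod_const_one, Finset.powerset_univ] at h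
  rw [h]
  refine Finset.sum_congr rfl fun S _ => ?_
  rw [wt, Finset.compl_eq_univ_sdiff]

theorem wt_nonneg {t : κ → ℝ} (h : ∀ j, 0 ≤ t j ∧ t j ≤ 1) (S : Finset κ) : 0 ≤ wt t S :=
  mul_nonneg (Finset.prod_nonneg fun j _ => (h j).1)
    (Finset.prod_nonneg fun j _ => sub_nonneg.2 (h j).2)

theorem wt_ne_zero_iff {t : κ → ℝ} {S : Finset κ} :
    wt t S ≠ 0 ↔ (∀ j ∈ S, t j ≠ 0) ∧ ∀ j ∉ S, t j ≠ 1 := by
  rw [wt, mul_ne_zero_iff, Finset.prod_ne_zero_iff, Finset.prod_ne_zero_iff]
  refine and_congr Iff.rfl (forall_congr' fun j => ?_)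
  rw [Finset.mem_compl, sub_ne_zero, ne_comm]

theorem active_iff {x : Sp κ} {S : Finset κ} :
    Active x S ↔ wt (fun j => tt (x j)) S ≠ 0 := by
  rw [wt_ne_zero_iff, Active]
  refine and_congr (forall₂_congr fun j _ => ?_) (forall₂_congr fun j _ => ?_)
  · exact ⟨fun h => h.ne', fun h => lt_of_le_of_ne (tt_range _).1 (Ne.symm h)⟩
  · exact ⟨fun h => h.ne, fun h => lt_of_le_of_ne (tt_range _).2 h⟩

theorem ML_congr {w w' : Finset κ → ℝ} {t : κ → ℝ} (h : ∀ S, wt t S ≠ 0 → w S = w' S) :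
    ML w t = ML w' t := by
  rw [ML_eq, ML_eq]
  refine Finset.sum_congr rfl fun S _ => ?_
  by_cases h0 : wt t S = 0
  · rw [h0, zero_mul, zero_mul]
  · rw [h S h0]

theorem ML_mono {w w' : Finset κ → ℝ} {t : κ → ℝ} (ht : ∀ j, 0 ≤ t j ∧ t j ≤ 1)
    (h : ∀ S, w S ≤ w' S) : ML w t ≤ ML w' t :=
  Finset.sum_le_sum fun S _ => mul_le_mul_of_nonneg_left (h S) (wt_nonneg ht S)

theorem ML_const (c : ℝ) (t : κ → ℝ) : ML (fun _ => c) t = c := by
  rw [ML_eq, ← Finset.sum_mul, sum_wt, one_mul]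

theorem ML_one_sub (w : Finset κ → ℝ) (t : κ → ℝ) : ML (fun S => 1 - w S) t = 1 - ML w t := by
  rw [ML_eq, ML_eq]
  simp only [mul_sub, mul_one, Finset.sum_sub_distrib, sum_wt]

theorem ML_eq_zero_iff {w : Finset κ → ℝ} {t : κ → ℝ} (ht : ∀ j, 0 ≤ t j ∧ t j ≤ 1)
    (hw : ∀ S, 0 ≤ w S) : ML w t = 0 ↔ ∀ S, wt t S ≠ 0 → w S = 0 := by
  rw [ML_eq, Finset.sum_eq_zero_iff_of_nonneg fun S _ => mul_nonneg (wt_nonneg ht S) (hw S)]
  simp only [Finset.mem_univ, true_imp_iff, mul_eq_zero]
  exact forall_congr' fun S => or_iff_not_imp_left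

theorem ML_smooth {E : Type*} [NormedAddCommGroup E] [NormedSpace ℝ E] (w : Finset κ → ℝ)
    {t : E → κ → ℝ} (ht : ∀ j, ContDiff ℝ (⊤ : ℕ∞) fun x => t x j) :
    ContDiff ℝ (⊤ : ℕ∞) fun x => ML w (t x) := by
  unfold ML
  refine ContDiff.sum fun S _ => ContDiff.mul (ContDiff.mul ?_ ?_) contDiff_const
  · exact contDiff_prod fun j _ => ht j
  · exact contDiff_prod fun j _ => contDiff_const.sub (ht j)

/-- weight of a subset of the coordinates other than `j` -/
def pw (t : κ → ℝ) (j : κ) (S : Finset κ) : ℝ :=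
  (∏ k ∈ S, t k) * ∏ k ∈ Finset.univ.erase j \ S, (1 - t k)

theorem wt_of_not_mem (t : κ → ℝ) {j : κ} {S : Finset κ} (h : j ∉ S) :
    wt t S = pw t j S * (1 - t j) := by
  have : Sᶜ = insert j (Finset.univ.erase j \ S) := by
    ext k
    by_cases hk : k = j
    · subst hk; simp [h]
    · simp [hk]
  rw [wt, pw, this, Finset.prod_insert (by simp)]
  ring

theorem wt_insert (t : κ → ℝ) {j : κ} {S : Finset κ} (h : j ∉ S) :
    wt t (insert j S) = pw t j S * t j := by
  have : (insert j S)ᶜ = Finset.univ.erase j \ S := by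
    ext k
    simp [not_or]
  rw [wt, pw, this, Finset.prod_insert h]
  ring

theorem ML_split (w : Finset κ → ℝ) (t : κ → ℝ) (j : κ) :
    ML w t = ∑ S ∈ (Finset.univ.erase j).powerset,
      pw t j S * ((1 - t j) * w S + t j * w (insert j S)) := by
  have h1 : (Finset.univ : Finset (Finset κ)) = (insert j (Finset.univ.erase j)).powerset := by
    rw [Finset.insert_erase (Finset.mem_univ j), Finset.powerset_univ]
  rw [ML_eq, h1, Finset.sum_powerset_insert (Finset.notMem_erase j _), ← Finset.sum_add_distrib]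
  refine Finset.sum_congr rfl fun S hS => ?_
  have hj : j ∉ S := fun hj => Finset.notMem_erase j _ (Finset.mem_powerset.1 hS hj)
  rw [wt_of_not_mem t hj, wt_insert t hj]
  ring

theorem sum_pw (t : κ → ℝ) (j : κ) : ∑ S ∈ (Finset.univ.erase j).powerset, pw t j S = 1 := by
  have h := ML_split (fun _ => (1 : ℝ)) t j
  rw [ML_const] at h
  rw [h]
  refine Finset.sum_congr rfl fun S _ => ?_
  ring

theorem ML_single (a b : ℝ) (t : κ → ℝ) (j : κ) :
    ML (fun S => if j ∈ S then a else b) t = (1 - t j) * b + t j * a := by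
  rw [ML_split _ t j]
  have : ∀ S ∈ (Finset.univ.erase j).powerset,
      pw t j S * ((1 - t j) * (if j ∈ S then a else b) + t j * if j ∈ insert j S then a else b) =
      pw t j S * ((1 - t j) * b + t j * a) := by
    intro S hS
    have hj : j ∉ S := fun hj => Finset.notMem_erase j _ (Finset.mem_powerset.1 hS hj)
    rw [if_neg hj, if_pos (Finset.mem_insert_self j S)]
  rw [Finset.sum_congr rfl this, ← Finset.sum_mul, sum_pw, one_mul]

theorem acell_erase {Y : Set (κ → ℤ)} (hc : Closed Y) (x : Sp κ) {S : Finset κ} (j : κ)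
    (h : acell x S ∈ Y) : acell x (S.erase j) ∈ Y := by
  by_cases hj : j ∈ S
  · have hv : acell x S j = 2 * round (x j) + sg (x j) := by simp [acell, hj]
    have hu : acell x (S.erase j) = Function.update (acell x S) j (2 * round (x j)) := by
      funext k
      by_cases hk : k = j
      · subst hk; simp [acell]
      · simp [acell, hk]
    rw [hu]
    rcases sg_cases (x j) with g | g
    · have ho : Odd (acell x S j) := ⟨round (x j), by rw [hv, g]⟩
      have := (hc _ h j ho).2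
      rwa [hv, g, add_sub_cancel_right] at this
    · have ho : Odd (acell x S j) := ⟨round (x j) - 1, by rw [hv, g]; ring⟩
      have := (hc _ h j ho).1
      rwa [hv, g, show 2 * round (x j) + -1 + 1 = 2 * round (x j) by ring] at this
  · rwa [Finset.erase_eq_of_notMem hj]

theorem acell_subset {Y : Set (κ → ℤ)} (hc : Closed Y) (x : Sp κ) {S T : Finset κ}
    (hT : T ⊆ S) (h : acell x S ∈ Y) : acell x T ∈ Y := by
  have key : ∀ D : Finset κ, acell x (S \ D) ∈ Y := by
    intro D
    induction D using Finset.induction_on with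
    | empty => simpa using h
    | insert j D _ ih =>
      rw [Finset.sdiff_insert]
      exact acell_erase hc x j ih
  have := key (S \ T)
  rwa [Finset.sdiff_sdiff_eq_self hT] at this

end GridAAux

open GridAAux

/-- local formula with the cells frozen at `x₀` -/
theorem hY_local (Y : Set (κ → ℤ)) (x₀ : Sp κ) :
    ∀ᶠ x in 𝓝 x₀, hY Y x = ML (fun S => if acell x₀ S ∈ Y then 0 else 1)
      fun j => stp (sg (x₀ j) * (x j - (round (x₀ j) : ℤ))) := by
  have h1 : ∀ j, ∀ᶠ x : Sp κ in 𝓝 x₀,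
      tt (x j) = stp ((sg (x₀ j) : ℝ) * (x j - (round (x₀ j) : ℤ))) ∧
      (tt (x j) ≠ 0 → 2 * round (x j) + sg (x j) = 2 * round (x₀ j) + sg (x₀ j)) ∧
      (tt (x j) ≠ 1 → round (x j) = round (x₀ j)) := by
    intro j
    have hc : Continuous fun x : Sp κ => x j := by fun_prop
    exact (hc.tendsto x₀).eventually (local1 (x₀ j))
  filter_upwards [Filter.eventually_all.2 h1] with x hx
  have e : (fun j => stp (sg (x₀ j) * (x j - (round (x₀ j) : ℤ)))) = fun j => tt (x j) :=
    funext fun j => (hx j).1.symm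
  rw [e, hY]
  refine ML_congr fun S hS => ?_
  rw [wt_ne_zero_iff] at hS
  have : acell x S = acell x₀ S := by
    funext j
    by_cases hj : j ∈ S
    · simpa [acell, hj] using (hx j).2.1 (hS.1 j hj)
    · simpa [acell, hj] using (hx j).2.2 (hS.2 j hj)
  rw [this]

theorem hY_smooth (Y : Set (κ → ℤ)) : ContDiff ℝ (⊤ : ℕ∞) (hY Y) := by
  rw [contDiff_iff_contDiffAt]
  intro x₀
  refine ContDiffAt.congr_of_eventuallyEq ?_ (hY_local Y x₀)
  apply ContDiff.contDiffAt
  apply ML_smooth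
  intro j
  apply stp_smooth.comp
  have hc : ContDiff ℝ (⊤ : ℕ∞) fun x : Sp κ => x j := by fun_prop
  exact contDiff_const.mul (hc.sub contDiff_const)

theorem hY_range (Y : Set (κ → ℤ)) (x : Sp κ) : 0 ≤ hY Y x ∧ hY Y x ≤ 1 := by
  constructor
  · rw [← ML_const (0 : ℝ) fun j => tt (x j)]
    refine ML_mono (fun j => tt_range _) fun S => ?_
    split_ifs <;> norm_num
  · rw [← ML_const (1 : ℝ) fun j => tt (x j)]
    refine ML_mono (fun j => tt_range _) fun S => ?_
    split_ifs <;> norm_num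

theorem hY_anti {Y Y' : Set (κ → ℤ)} (h : Y ⊆ Y') (x : Sp κ) : hY Y' x ≤ hY Y x := by
  refine ML_mono (fun j => tt_range _) fun S => ?_
  by_cases h1 : acell x S ∈ Y
  · rw [if_pos h1, if_pos (h h1)]
  · rw [if_neg h1]
    split_ifs <;> norm_num

theorem hY_congr {Y Y' : Set (κ → ℤ)} {x : Sp κ}
    (h : ∀ S, Active x S → (acell x S ∈ Y ↔ acell x S ∈ Y')) : hY Y x = hY Y' x := by
  refine ML_congr fun S hS => ?_
  have := h S (active_iff.2 hS)
  simp only [this]

theorem hY_eq_zero_iff {Y : Set (κ → ℤ)} {x : Sp κ} :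
    hY Y x = 0 ↔ ∀ S, Active x S → acell x S ∈ Y := by
  rw [hY, ML_eq_zero_iff (fun j => tt_range _) fun S => by split_ifs <;> norm_num]
  refine forall_congr' fun S => ?_
  rw [active_iff]
  refine imp_congr_right fun _ => ?_
  by_cases h1 : acell x S ∈ Y <;> simp [h1]

theorem hY_eq_one_iff {Y : Set (κ → ℤ)} {x : Sp κ} :
    hY Y x = 1 ↔ ∀ S, Active x S → acell x S ∉ Y := by
  rw [eq_comm, ← sub_eq_zero, hY, ← ML_one_sub,
    ML_eq_zero_iff (fun j => tt_range _) fun S => by split_ifs <;> norm_num]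
  refine forall_congr' fun S => ?_
  rw [active_iff]
  refine imp_congr_right fun _ => ?_
  by_cases h1 : acell x S ∈ Y <;> simp [h1]

theorem active_mcell (x : Sp κ) : Active x (Finset.univ.filter fun j => tt (x j) = 1) := by
  constructor
  · intro j hj
    rw [(Finset.mem_filter.1 hj).2]
    exact one_pos
  · intro j hj
    refine lt_of_le_of_ne (tt_range _).2 fun h => hj ?_
    exact Finset.mem_filter.2 ⟨Finset.mem_univ j, h⟩

theorem hY_lt_one_iff {Y : Set (κ → ℤ)} (hc : Closed Y) {x : Sp κ} :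
    hY Y x < 1 ↔ mcell x ∈ Y := by
  constructor
  · intro h
    have h1 := mt hY_eq_one_iff.2 h.ne
    simp only [not_forall, not_not] at h1
    obtain ⟨S, hS, hY'⟩ := h1
    refine acell_subset hc x (fun j hj => ?_) hY'
    by_contra hj'
    exact (hS.2 j hj').ne (Finset.mem_filter.1 hj).2
  · intro h
    refine lt_of_le_of_ne (hY_range Y x).2 fun h1 => ?_
    exact hY_eq_one_iff.1 h1 _ (active_mcell x) h

/-- an active cell is within `2η` of the point -/
theorem Active.near {x : Sp κ} {S : Finset κ} (h : Active x S) (j : κ) :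
    (j ∉ S → |x j - (acell x S j : ℝ) / 2| < 2 * eta) ∧
    (j ∈ S → |x j - (acell x S j : ℝ) / 2| < 1 / 2 - eta) := by
  constructor
  · intro hj
    have h1 := (h.2 j hj).ne
    rw [tt, Ne, stp_eq_one_iff, not_le] at h1
    have e : (acell x S j : ℝ) / 2 = (round (x j) : ℤ) := by
      simp [acell, hj]
    rwa [e]
  · intro hj
    have h1 := (h.1 j hj).ne'
    rw [tt, Ne, stp_eq_zero_iff, not_le] at h1
    have e : (acell x S j : ℝ) / 2 = (round (x j) : ℤ) + (sg (x j) : ℝ) / 2 := by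
      simp only [acell, hj, if_true]
      push_cast
      ring
    rw [e]
    obtain ⟨b1, b2⟩ := round_bounds (x j)
    have he := eta_le
    rcases le_or_gt ((round (x j) : ℤ) : ℝ) (x j) with g | g
    · rw [abs_of_nonneg (by linarith only [g])] at h1
      rw [sg_of_le g, abs_lt]
      push_cast
      constructor <;> linarith only [h1, b2]
    · rw [abs_of_neg (by linarith only [g])] at h1
      rw [sg_of_lt g, abs_lt]
      push_cast
      constructor <;> linarith only [h1, b1]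

theorem hY_base (j₀ : κ) (x : Sp κ) : hY {c | c j₀ ≤ 0} x = stp (x j₀) := by
  have e : hY {c | c j₀ ≤ 0} x = ML
      (fun S => if j₀ ∈ S then (if 2 * round (x j₀) + sg (x j₀) ≤ 0 then 0 else 1)
        else (if 2 * round (x j₀) ≤ 0 then 0 else 1)) fun j => tt (x j) := by
    refine ML_congr fun S _ => ?_
    by_cases hj : j₀ ∈ S <;> simp [acell, hj]
  rw [e, ML_single]
  obtain ⟨b1, b2⟩ := round_bounds (x j₀)
  have he := eta_le
  have he0 := eta_pos
  have hs := sg_cases (x j₀)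
  rcases lt_trichotomy (round (x j₀)) 0 with h | h | h
  · have h' : ((round (x j₀) : ℤ) : ℝ) ≤ -1 := by exact_mod_cast (by omega : round (x j₀) ≤ -1)
    rw [if_pos (by omega), if_pos (by omega), stp_eq_zero_iff.2 (by linarith only [b2, he, he0, h'])]
    ring
  · rw [if_pos (by omega)]
    have h' : ((round (x j₀) : ℤ) : ℝ) = 0 := by exact_mod_cast h
    rcases le_or_gt ((round (x j₀) : ℤ) : ℝ) (x j₀) with g | g
    · have g' := sg_of_le g
      rw [if_neg (by omega), tt_eq, g', h']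
      simp
    · have g' := sg_of_lt g
      rw [if_pos (by omega), stp_eq_zero_iff.2 (by linarith only [he0, h', g])]
      ring
  · have h' : (1 : ℝ) ≤ ((round (x j₀) : ℤ) : ℝ) := by
      exact_mod_cast (by omega : 1 ≤ round (x j₀))
    rw [if_neg (by omega), if_neg (by omega), stp_eq_one_iff.2 (by linarith only [b1, he, he0, h'])]
    ring

namespace GridAAux

theorem ML_option (w : Finset (Option κ) → ℝ) (t : Option κ → ℝ) :
    ML w t = (1 - t none) * ML (fun S => w (S.map Function.Embedding.some)) (fun j => t (some j)) +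
      t none * ML (fun S => w (insert none (S.map Function.Embedding.some)))
        (fun j => t (some j)) := by
  rw [ML_split w t none, ML_eq, ML_eq, Finset.mul_sum, Finset.mul_sum, ← Finset.sum_add_distrib]
  symm
  refine Finset.sum_bij (fun S _ => S.map Function.Embedding.some) ?_ ?_ ?_ ?_
  · intro S _
    rw [Finset.mem_powerset]
    intro k hk
    obtain ⟨a, _, rfl⟩ := Finset.mem_map.1 hk
    simp
  · intro S _ T _ h
    exact Finset.map_injective _ h
  · intro T hT
    refine ⟨T.eraseNone, Finset.mem_univ _, ?_⟩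
    rw [Finset.map_some_eraseNone]
    apply Finset.erase_eq_of_notMem
    intro hn
    exact Finset.notMem_erase _ _ (Finset.mem_powerset.1 hT hn)
  · intro S _
    have e : (Finset.univ.erase none \ S.map Function.Embedding.some : Finset (Option κ)) =
        Sᶜ.map Function.Embedding.some := by
      ext k
      cases k <;> simp
    have e2 : pw t none (S.map Function.Embedding.some) = wt (fun j => t (some j)) S := by
      rw [pw, e, Finset.prod_map, Finset.prod_map, wt]
      rfl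
    rw [e2]
    ring

end GridAAux

theorem hY_stack (F : ℤ → Set (κ → ℤ)) (x : Sp (Option κ)) :
    hY (stack F) x = (1 - tt (x none)) * hY (F (2 * round (x none))) (tlL κ x) +
      tt (x none) * hY (F (2 * round (x none) + sg (x none))) (tlL κ x) := by
  have a1 : ∀ S : Finset κ, acell x (S.map Function.Embedding.some) ∈ stack F ↔
      acell (tlL κ x) S ∈ F (2 * round (x none)) := by
    intro S
    have e1 : acell x (S.map Function.Embedding.some) none = 2 * round (x none) := by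
      simp [acell]
    have e2 : (fun j => acell x (S.map Function.Embedding.some) (some j)) =
        acell (tlL κ x) S := by
      funext j
      simp [acell]
    simp only [stack, mem_ofPred_eq, e1, e2]
  have a2 : ∀ S : Finset κ, acell x (insert none (S.map Function.Embedding.some)) ∈ stack F ↔
      acell (tlL κ x) S ∈ F (2 * round (x none) + sg (x none)) := by
    intro S
    have e1 : acell x (insert none (S.map Function.Embedding.some)) none =
        2 * round (x none) + sg (x none) := by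
      simp [acell]
    have e2 : (fun j => acell x (insert none (S.map Function.Embedding.some)) (some j)) =
        acell (tlL κ x) S := by
      funext j
      simp [acell]
    simp only [stack, mem_ofPred_eq, e1, e2]
  rw [hY, ML_option]
  simp only [a1, a2]
  rfl

end SpunKnot
end
end
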