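import Mathlib
import Pool.Agent.Work.MP_e1e788_gt.GridA

-- merged part: Pool.Agent.Work.MP_e1e788_gt.AlgDefs
section
/-! Based chain complexes as matrices, acyclicity, the torsion norm `ν = det (A* A)`, twisted
simplicial boundary matrices, nerves. -/

open Set Matrix
open scoped Classical

noncomputable section
namespace SpunKnot

section Alg
variable {R : Type*} [CommRing R] {β : Type*} [Fintype β] [DecidableEq β]

/-- the matrix `d` cut down to the basis elements in `S` -/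
def res (d : Matrix β β R) (S : Set β) : Matrix β β R :=
  fun a b => if a ∈ S ∧ b ∈ S then d a b else 0

/-- projection onto the span of `S` -/
def prj (R : Type*) [CommRing R] (S : Set β) : Matrix β β R :=
  Matrix.diagonal fun a => if a ∈ S then 1 else 0

/-- `d a b` is the coefficient of `a` in the boundary of `b`. -/
structure IsCx (d : Matrix β β R) (deg : β → ℕ) (S : Set β) : Prop where
  sq : res d S * res d S = 0
  dg : ∀ a ∈ S, ∀ b ∈ S, d a b ≠ 0 → deg b = deg a + 1

def Acyc (d : Matrix β β R) (S : Set β) : Prop :=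
  ∀ z : β → R, (∀ a, a ∉ S → z a = 0) → res d S *ᵥ z = 0 →
    ∃ y : β → R, (∀ a, a ∉ S → y a = 0) ∧ res d S *ᵥ y = z

/-- The complex on `S` is contractible and `τ · τ̄ = W`, `τ` its torsion. -/
def HasNu [StarRing R] (d : Matrix β β R) (deg : β → ℕ) (S : Set β) (W : R) : Prop :=
  IsCx d deg S ∧ ∃ γ : Matrix β β R,
    (∀ a b, γ a b ≠ 0 → a ∈ S ∧ b ∈ S ∧ deg a = deg b + 1) ∧
    res d S * γ + γ * res d S = prj R S ∧
    (prj R {a | a ∈ S ∧ Odd (deg a)} * (res d S + γ)ᴴ * (res d S + γ) *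
        prj R {a | a ∈ S ∧ Odd (deg a)} + (1 - prj R {a | a ∈ S ∧ Odd (deg a)})).det = W
end Alg

section Simp
variable {R : Type*} [CommRing R] {ι : Type*} [Fintype ι] [LinearOrder ι]

/-- transport from the first vertex of `σ` to the first vertex of `τ` -/
def tw (g : ι → ι → R) (σ τ : Finset ι) : R :=
  if h : σ.Nonempty ∧ τ.Nonempty then g (σ.min' h.1) (τ.min' h.2) else 1

/-- twisted (augmented) simplicial boundary matrix -/
def bd (g : ι → ι → R) : Matrix (Finset ι) (Finset ι) R := fun τ σ =>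
  ∑ i ∈ σ, if τ = σ.erase i then (-1) ^ (σ.filter (· < i)).card * tw g σ τ else 0

/-- untwisted integral boundary matrix -/
abbrev bdZ (ι : Type*) [Fintype ι] [LinearOrder ι] : Matrix (Finset ι) (Finset ι) ℤ :=
  bd fun _ _ => (1 : ℤ)

/-- cocycle condition on the simplices of `S` -/
def Coc (g : ι → ι → R) (S : Set (Finset ι)) : Prop :=
  ∀ σ ∈ S, ∀ i ∈ σ, ∀ j ∈ σ, ∀ k ∈ σ, g i j * g j k = g i k

/-- nerve of the family `B` on the set `A` (contains `∅` iff `A` is nonempty) -/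
def nerve {Ω : Type*} (B : ι → Set Ω) (A : Set Ω) : Set (Finset ι) :=
  {σ | ∃ x ∈ A, ∀ i ∈ σ, x ∈ B i}
end Simp

end SpunKnot
end
end

-- merged part: Pool.Agent.Work.MP_e1e788_gt.R5
section
/-! The ring `ℤ[ℤ/5]` in coordinates. -/

namespace SpunKnot

/-- `ℤ[x]/(x⁵ - 1)`, coefficients of `1, x, x², x³, x⁴`. -/
@[ext] structure R5 where
  c0 : ℤ
  c1 : ℤ
  c2 : ℤ
  c3 : ℤ
  c4 : ℤ
deriving DecidableEq

namespace R5
instance : Zero R5 := ⟨⟨0, 0, 0, 0, 0⟩⟩
instance : One R5 := ⟨⟨1, 0, 0, 0, 0⟩⟩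
instance : Add R5 := ⟨fun a b => ⟨a.c0 + b.c0, a.c1 + b.c1, a.c2 + b.c2, a.c3 + b.c3, a.c4 + b.c4⟩⟩
instance : Neg R5 := ⟨fun a => ⟨-a.c0, -a.c1, -a.c2, -a.c3, -a.c4⟩⟩
instance : Mul R5 := ⟨fun a b =>
  ⟨a.c0 * b.c0 + a.c1 * b.c4 + a.c2 * b.c3 + a.c3 * b.c2 + a.c4 * b.c1,
   a.c0 * b.c1 + a.c1 * b.c0 + a.c2 * b.c4 + a.c3 * b.c3 + a.c4 * b.c2,
   a.c0 * b.c2 + a.c1 * b.c1 + a.c2 * b.c0 + a.c3 * b.c4 + a.c4 * b.c3,
   a.c0 * b.c3 + a.c1 * b.c2 + a.c2 * b.c1 + a.c3 * b.c0 + a.c4 * b.c4,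
   a.c0 * b.c4 + a.c1 * b.c3 + a.c2 * b.c2 + a.c3 * b.c1 + a.c4 * b.c0⟩⟩
instance : Star R5 := ⟨fun a => ⟨a.c0, a.c4, a.c3, a.c2, a.c1⟩⟩

@[simp] theorem zero_c0 : (0 : R5).c0 = 0 := rfl
@[simp] theorem zero_c1 : (0 : R5).c1 = 0 := rfl
@[simp] theorem zero_c2 : (0 : R5).c2 = 0 := rfl
@[simp] theorem zero_c3 : (0 : R5).c3 = 0 := rfl
@[simp] theorem zero_c4 : (0 : R5).c4 = 0 := rfl
@[simp] theorem one_c0 : (1 : R5).c0 = 1 := rfl
@[simp] theorem one_c1 : (1 : R5).c1 = 0 := rfl
@[simp] theorem one_c2 : (1 : R5).c2 = 0 := rfl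
@[simp] theorem one_c3 : (1 : R5).c3 = 0 := rfl
@[simp] theorem one_c4 : (1 : R5).c4 = 0 := rfl
@[simp] theorem add_c0 (a b : R5) : (a + b).c0 = a.c0 + b.c0 := rfl
@[simp] theorem add_c1 (a b : R5) : (a + b).c1 = a.c1 + b.c1 := rfl
@[simp] theorem add_c2 (a b : R5) : (a + b).c2 = a.c2 + b.c2 := rfl
@[simp] theorem add_c3 (a b : R5) : (a + b).c3 = a.c3 + b.c3 := rfl
@[simp] theorem add_c4 (a b : R5) : (a + b).c4 = a.c4 + b.c4 := rfl
@[simp] theorem neg_c0 (a : R5) : (-a).c0 = -a.c0 := rfl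
@[simp] theorem neg_c1 (a : R5) : (-a).c1 = -a.c1 := rfl
@[simp] theorem neg_c2 (a : R5) : (-a).c2 = -a.c2 := rfl
@[simp] theorem neg_c3 (a : R5) : (-a).c3 = -a.c3 := rfl
@[simp] theorem neg_c4 (a : R5) : (-a).c4 = -a.c4 := rfl
@[simp] theorem mul_c0 (a b : R5) :
    (a * b).c0 = a.c0 * b.c0 + a.c1 * b.c4 + a.c2 * b.c3 + a.c3 * b.c2 + a.c4 * b.c1 := rfl
@[simp] theorem mul_c1 (a b : R5) :
    (a * b).c1 = a.c0 * b.c1 + a.c1 * b.c0 + a.c2 * b.c4 + a.c3 * b.c3 + a.c4 * b.c2 := rfl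
@[simp] theorem mul_c2 (a b : R5) :
    (a * b).c2 = a.c0 * b.c2 + a.c1 * b.c1 + a.c2 * b.c0 + a.c3 * b.c4 + a.c4 * b.c3 := rfl
@[simp] theorem mul_c3 (a b : R5) :
    (a * b).c3 = a.c0 * b.c3 + a.c1 * b.c2 + a.c2 * b.c1 + a.c3 * b.c0 + a.c4 * b.c4 := rfl
@[simp] theorem mul_c4 (a b : R5) :
    (a * b).c4 = a.c0 * b.c4 + a.c1 * b.c3 + a.c2 * b.c2 + a.c3 * b.c1 + a.c4 * b.c0 := rfl
@[simp] theorem star_c0 (a : R5) : (star a).c0 = a.c0 := rfl
@[simp] theorem star_c1 (a : R5) : (star a).c1 = a.c4 := rfl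
@[simp] theorem star_c2 (a : R5) : (star a).c2 = a.c3 := rfl
@[simp] theorem star_c3 (a : R5) : (star a).c3 = a.c2 := rfl
@[simp] theorem star_c4 (a : R5) : (star a).c4 = a.c1 := rfl

instance : CommRing R5 :=
  CommRing.ofMinimalAxioms
    (by intros; ext <;> simp <;> ring) (by intros; ext <;> simp) (by intros; ext <;> simp)
    (by intros; ext <;> simp <;> ring) (by intros; ext <;> simp <;> ring)
    (by intros; ext <;> simp) (by intros; ext <;> simp <;> ring)

instance : StarRing R5 where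
  star_involutive a := by ext <;> simp
  star_mul a b := by ext <;> simp <;> ring
  star_add a b := by ext <;> simp

/-- the monomial `x ^ k` -/
def xp (k : ZMod 5) : R5 :=
  if k = 0 then ⟨1, 0, 0, 0, 0⟩ else if k = 1 then ⟨0, 1, 0, 0, 0⟩ else
  if k = 2 then ⟨0, 0, 1, 0, 0⟩ else if k = 3 then ⟨0, 0, 0, 1, 0⟩ else ⟨0, 0, 0, 0, 1⟩

/-- the automorphism `x ↦ x³` -/
def ph : R5 →+* R5 where
  toFun a := ⟨a.c0, a.c2, a.c4, a.c1, a.c3⟩
  map_one' := rfl
  map_zero' := rfl
  map_add' a b := rfl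
  map_mul' a b := by ext <;> simp <;> ring

theorem xp_zero : xp 0 = 1 := rfl
theorem xp_add (a b : ZMod 5) : xp (a + b) = xp a * xp b := by revert a b; decide
theorem xp_unit (a : ZMod 5) : xp a * star (xp a) = 1 := by revert a; decide
theorem ph_xp (a : ZMod 5) : ph (xp a) = xp (3 * a) := by revert a; decide
theorem ph_star (a : R5) : ph (star a) = star (ph a) := rfl

/-- `x + x⁴ - 1` -/
def g1 : R5 := ⟨-1, 1, 0, 0, 1⟩
/-- `x² + x³ - 1` -/
def g2 : R5 := ⟨-1, 0, 1, 1, 0⟩
end R5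

end SpunKnot
end

-- merged part: Pool.Agent.Work.MP_e1e788_gt.CubDefs
section
/-! Simplicial complexes inside the grid, the ring complex, and the combinatorial data. -/

open Set
open scoped Classical

noncomputable section
namespace SpunKnot

/-- coordinates `y_v` and `z` (`none`) -/
abbrev KZ (V : Type) := Option V
/-- one more coordinate `y₀` (`none`), the height -/
abbrev KY (V : Type) := Option (KZ V)
/-- one more coordinate `w₂` (`none`): the slice -/
abbrev KS (V : Type) := Option (KY V)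
/-- one more coordinate `w₁` (`none`): the ambient space -/
abbrev KA (V : Type) := Option (KS V)

section Zig
variable {κ : Type*} [Fintype κ] [DecidableEq κ]

/-- a bounded set of cells on the nonnegative side of the coordinate `j₁` -/
def InBox (j₁ : κ) (D : Set (κ → ℤ)) : Prop := ∃ N : ℤ, ∀ c ∈ D, (∀ j, |c j| ≤ N) ∧ 0 ≤ c j₁

/-- zigzags of bounded parallel collapses -/
def Zig (j₁ : κ) : Set (κ → ℤ) → Set (κ → ℤ) → Prop :=
  Relation.EqvGen fun Y Y' => PCol Y Y' ∧ InBox j₁ (Y' \ Y)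
end Zig

variable {V : Type} [Fintype V] [LinearOrder V]

/-- the cubical subdivision of a simplicial complex, inside the unit cube -/
def cub (L : Set (Finset V)) : Set (V → ℤ) :=
  {a | (∀ v, a v = 0 ∨ a v = 1 ∨ a v = 2) ∧ (∃ v, a v = 2) ∧
    (Finset.univ.filter fun v => a v ≠ 0) ∈ L}

/-- a tower of simplicial complexes in the direction `z` -/
def zcx (P : ℤ → Set (Finset V)) : Set (KZ V → ℤ) := stack fun n => cub (P n)

/-- the tower with one storey -/
def at0 (L : Set (Finset V)) : ℤ → Set (Finset V) := fun n => if n = 0 then L else ∅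

/-- storeys are complexes, and a storey over an edge lies in both neighbours -/
def Tower (P : ℤ → Set (Finset V)) : Prop :=
  (∀ n, IsLowerSet (P n)) ∧ ∀ n, Odd n → P n ⊆ P (n + 1) ∧ P n ⊆ P (n - 1)

/-- the base vertex -/
def ptb (b : V) : KZ V → ℤ := fun j => if j = some b then 2 else 0

def baseY (V : Type) : Set (KY V → ℤ) := {c | c none ≤ 0}
def baseS (V : Type) : Set (KS V → ℤ) := {c | c (some none) ≤ 0}
def baseA (V : Type) : Set (KA V → ℤ) := {c | c (some (some none)) ≤ 0}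

/-- half space, a vertical edge at the base vertex, and the tower at height one -/
def ycx (b : V) (P : ℤ → Set (Finset V)) : Set (KY V → ℤ) :=
  stack fun n => if n ≤ 0 then univ else if n = 1 then {ptb b} else if n = 2 then zcx P else ∅

/-- `P` over the top side, `N` over the bottom side -/
def slice (b : V) (P : ℤ → Set (Finset V)) (N : Set (Finset V)) : Set (KS V → ℤ) :=
  stack fun m => if m = 2 then ycx b P else if m = 0 then ycx b (at0 N) else baseY V

/-- a vertical side -/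
def side (b : V) (N : Set (Finset V)) : Set (KS V → ℤ) :=
  stack fun m => if 0 ≤ m ∧ m ≤ 2 then ycx b (at0 N) else baseY V

/-- the boundary of `[0,3] × [0,1]`, carrying `T m` over the inner cells of the top side -/
def ringOf (b : V) (T : ℤ → ℤ → Set (Finset V)) (N : Set (Finset V)) : Set (KA V → ℤ) :=
  stack fun m => if m = 0 ∨ m = 6 then side b N else
    if 1 ≤ m ∧ m ≤ 5 then slice b (T m) N else baseS V

/-- complexes over the line `w₂ = 1` only -/
def line (T : ℤ → Set (KY V → ℤ)) : Set (KA V → ℤ) :=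
  stack fun m₁ => stack fun m₂ => if m₂ = 2 then T m₁ else baseY V

/-- remove all simplices containing `a`, whose star is a cone with apex `v` -/
def SCol (L L' : Set (Finset V)) : Prop :=
  IsLowerSet L' ∧ ∃ (a : Finset V) (v : V), a.Nonempty ∧ v ∉ a ∧
    (∀ σ ∈ L', a ⊆ σ → insert v σ ∈ L') ∧ L = {σ | σ ∈ L' ∧ ¬ a ⊆ σ}

/-- `L'` collapses to `L` -/
def SCols : Set (Finset V) → Set (Finset V) → Prop := Relation.ReflTransGen SCol

/-- zigzags relative to `N` -/
def RZig (N : Set (Finset V)) : Set (Finset V) → Set (Finset V) → Prop :=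
  Relation.ReflTransGen fun L L' => (SCol L L' ∨ SCol L' L) ∧ N ⊆ L ∧ N ⊆ L'

def Flat (c : V → V → ZMod 5) (L : Set (Finset V)) : Prop :=
  ∀ σ ∈ L, ∀ i ∈ σ, ∀ j ∈ σ, ∀ k ∈ σ, c i j + c j k = c i k

def Agree (c c' : V → V → ZMod 5) (L : Set (Finset V)) : Prop :=
  ∀ σ ∈ L, ∀ i ∈ σ, ∀ j ∈ σ, c i j = c' i j

/-- data common to the raw and the telescoped form -/
structure CombCore (V : Type) [Fintype V] [LinearOrder V] where
  b : V
  N₀ : Set (Finset V)
  N₁ : Set (Finset V)
  Z₁ : Set (Finset V)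
  Cy : Set (Finset V)
  c₀ : V → V → ZMod 5
  cR : V → V → ZMod 5
  Gv : R5
  low₀ : IsLowerSet N₀
  low₁ : IsLowerSet N₁
  lowZ : IsLowerSet Z₁
  lowC : IsLowerSet Cy
  inter : N₀ ∩ N₁ = {∅, {b}}
  inter' : Z₁ ∩ Cy = N₀ ∪ N₁
  colZ : SCols N₁ Z₁
  colC₀ : SCols N₀ Cy
  colC₁ : SCols N₁ Cy
  zigT : RZig {∅, {b}} (Z₁ ∪ Cy) {∅, {b}}
  flatR : Flat cR Cy
  agree₁ : Agree cR c₀ N₁
  agree₀ : Agree cR (fun i j => 3 * c₀ i j) N₀
  tor : HasNu (bd fun i j => R5.xp (c₀ i j)) Finset.card (Z₁ \ N₀) Gv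
  Gv_eq : Gv = R5.g1 * R5.g1 ∨ Gv = R5.g2 * R5.g2

/-- the raw data, checked by certificates -/
structure Comb0 (V : Type) [Fintype V] [LinearOrder V] extends CombCore V where
  Z₁₂ : Set (Finset V)
  Z₁₂₃ : Set (Finset V)
  low₁₂ : IsLowerSet Z₁₂
  low₁₂₃ : IsLowerSet Z₁₂₃
  sub₁ : Z₁ ⊆ Z₁₂
  sub₂ : Z₁₂ ⊆ Z₁₂₃
  zigQ : RZig N₀ Z₁₂ N₀
  zigR : RZig Z₁ Z₁₂₃ Z₁
  flat₀ : Flat c₀ Z₁₂₃

/-- the data after building the two telescopes -/
structure Comb (V : Type) [Fintype V] [LinearOrder V] extends CombCore V where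
  P₂ : ℤ → Set (Finset V)
  P₃ : ℤ → Set (Finset V)
  cL : ℤ → V → V → ZMod 5
  tow₂ : Tower P₂
  tow₃ : Tower P₃
  sub₁ : Z₁ ⊆ P₂ 0
  sub₂ : ∀ n, P₂ n ⊆ P₃ n
  bdd : ∃ N : ℤ, ∀ n, N ≤ |n| → P₃ n = ∅
  col₂ : Col (zcx (at0 N₀)) (zcx P₂)
  col₃ : Col (zcx (at0 Z₁)) (zcx P₃)
  cL_zero : cL 0 = c₀
  flatL : ∀ i, Flat (cL i) (P₃ (2 * i))
  agreeL : ∀ i, Agree (cL i) (cL (i + 1)) (P₃ (2 * i + 1))

namespace Comb
variable (K : Comb V)

/-- the towers over the top side -/
def top (P : ℤ → Set (Finset V)) (m : ℤ) : ℤ → Set (Finset V) :=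
  if m = 2 then P else if m = 3 then at0 K.N₁ else if m = 4 then at0 K.Cy else at0 K.N₀

def ring : Set (KA V → ℤ) := ringOf K.b (K.top K.P₃) K.N₀
def plain : Set (KA V → ℤ) := ringOf K.b (fun _ => at0 K.N₀) K.N₀

/-- the ring after filling the rectangle and collapsing it to the top side -/
def line7 : Set (KA V → ℤ) :=
  line fun m => if m = 2 then ycx K.b (at0 K.Z₁) else if m = 3 then ycx K.b (at0 (K.N₀ ∪ K.N₁))
    else if m = 4 then ycx K.b (at0 K.Cy) else if 0 ≤ m ∧ m ≤ 6 then ycx K.b (at0 K.N₀)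
    else baseY V

def sl (P : ℤ → Set (Finset V)) : Set (KS V → ℤ) := slice K.b P K.N₀
end Comb

/-- the ambient coordinate `y_v` -/
abbrev jA (v : V) : KA V := some (some (some (some v)))
/-- the slice coordinate `y_v` -/
abbrev jS (v : V) : KS V := some (some (some v))

end SpunKnot
end
end

-- merged part: Pool.Agent.Work.MP_e1e788_gt.GridB
section
/-! Partial derivatives of `hY`; collapses give regular paths. -/

open Set Filter Topology
open scoped Classical

noncomputable section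
namespace SpunKnot
variable {κ : Type*} [Fintype κ] [DecidableEq κ]

open GridAAux

namespace GridBAux

theorem pw_congr {t t' : κ → ℝ} {j : κ} (h : ∀ k, k ≠ j → t k = t' k) {S : Finset κ}
    (hS : S ∈ (Finset.univ.erase j).powerset) : pw t j S = pw t' j S := by
  unfold pw
  congr 1
  · refine Finset.prod_congr rfl fun k hk => h k ?_
    exact Finset.ne_of_mem_erase (Finset.mem_powerset.1 hS hk)
  · refine Finset.prod_congr rfl fun k hk => ?_
    rw [h k (Finset.ne_of_mem_erase (Finset.mem_sdiff.1 hk).1)]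

theorem pw_nonneg {t : κ → ℝ} (h : ∀ j, 0 ≤ t j ∧ t j ≤ 1) (j : κ) (S : Finset κ) :
    0 ≤ pw t j S :=
  mul_nonneg (Finset.prod_nonneg fun k _ => (h k).1)
    (Finset.prod_nonneg fun k _ => sub_nonneg.2 (h k).2)

/-- indicator of the cells at `x` outside `Y` -/
def wY (Y : Set (κ → ℤ)) (x : Sp κ) (S : Finset κ) : ℝ := if acell x S ∈ Y then 0 else 1

/-- derivative of the multilinear extension in the direction `j` -/
def dML (Y : Set (κ → ℤ)) (x : Sp κ) (j : κ) : ℝ :=
  ∑ S ∈ (Finset.univ.erase j).powerset,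
    pw (fun k => tt (x k)) j S * (wY Y x (insert j S) - wY Y x S)

theorem formula (Y : Set (κ → ℤ)) (x : Sp κ) (j : κ) :
    fderiv ℝ (hY Y) x (EuclideanSpace.single j 1) =
      deriv stp |x j - (round (x j) : ℤ)| * (sg (x j) : ℝ) * dML Y x j := by
  set e : Sp κ := EuclideanSpace.single j 1 with he
  have hl : HasDerivAt (fun s : ℝ => x + s • e) e 0 := by
    simpa using ((hasDerivAt_id (0 : ℝ)).smul_const e).const_add x
  have hd : HasFDerivAt (hY Y) (fderiv ℝ (hY Y) x) ((fun s : ℝ => x + s • e) 0) := by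
    have := ((hY_smooth Y).differentiable (by simp) x).hasFDerivAt
    simpa using this
  have h1 : HasDerivAt (fun s : ℝ => hY Y (x + s • e)) (fderiv ℝ (hY Y) x e) 0 := by
    have := HasFDerivAt.comp_hasDerivAt (l := hY Y) (f := fun s : ℝ => x + s • e) 0 hd hl
    exact this
  set g : ℝ → ℝ := fun s => stp (sg (x j) * (x j + s - (round (x j) : ℤ))) with hg
  have hg' : HasDerivAt g (deriv stp |x j - (round (x j) : ℤ)| * (sg (x j) : ℝ)) 0 := by
    have a1 : HasDerivAt (fun s : ℝ => (sg (x j) : ℝ) * (x j + s - (round (x j) : ℤ)))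
        (sg (x j) : ℝ) 0 := by
      simpa using ((((hasDerivAt_id (0 : ℝ)).const_add (x j)).sub_const
        ((round (x j) : ℤ) : ℝ)).const_mul (sg (x j) : ℝ))
    have a2 : HasDerivAt stp (deriv stp |x j - (round (x j) : ℤ)|)
        ((fun s : ℝ => (sg (x j) : ℝ) * (x j + s - (round (x j) : ℤ))) 0) := by
      have := (stp_smooth.differentiable (by simp) |x j - (round (x j) : ℤ)|).hasDerivAt
      simpa [abs_eq_sg] using this
    have := HasDerivAt.comp (h₂ := stp)
      (h := fun s : ℝ => (sg (x j) : ℝ) * (x j + s - (round (x j) : ℤ))) 0 a2 a1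
    exact this
  have ht : Tendsto (fun s : ℝ => x + s • e) (𝓝 0) (𝓝 x) := by
    have := hl.continuousAt.tendsto
    simpa using this
  have h2 : (fun s : ℝ => hY Y (x + s • e)) =ᶠ[𝓝 0] fun s =>
      ∑ S ∈ (Finset.univ.erase j).powerset, pw (fun k => tt (x k)) j S *
        ((1 - g s) * wY Y x S + g s * wY Y x (insert j S)) := by
    filter_upwards [ht.eventually (hY_local Y x)] with s hs
    rw [hs, ML_split _ _ j]
    refine Finset.sum_congr rfl fun S hS => ?_
    have e1 : (x + s • e) j = x j + s := by simp [he]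
    rw [e1]
    congr 1
    refine pw_congr (fun k hk => ?_) hS
    have e2 : (x + s • e) k = x k := by simp [he, hk]
    rw [e2, tt_eq]
  have h3 : HasDerivAt (fun s => ∑ S ∈ (Finset.univ.erase j).powerset,
      pw (fun k => tt (x k)) j S * ((1 - g s) * wY Y x S + g s * wY Y x (insert j S)))
      (∑ S ∈ (Finset.univ.erase j).powerset, pw (fun k => tt (x k)) j S *
        (-(deriv stp |x j - (round (x j) : ℤ)| * (sg (x j) : ℝ)) * wY Y x S +
          deriv stp |x j - (round (x j) : ℤ)| * (sg (x j) : ℝ) * wY Y x (insert j S))) 0 :=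
    HasDerivAt.fun_sum fun S _ =>
      (((hg'.const_sub 1).mul_const _).add (hg'.mul_const _)).const_mul _
  rw [h1.unique (h3.congr_of_eventuallyEq h2), dML, Finset.mul_sum]
  refine Finset.sum_congr rfl fun S _ => ?_
  ring

theorem term_nonneg {Y : Set (κ → ℤ)} (hc : Closed Y) (x : Sp κ) (j : κ) (S : Finset κ) :
    0 ≤ pw (fun k => tt (x k)) j S * (wY Y x (insert j S) - wY Y x S) := by
  refine mul_nonneg (pw_nonneg (fun k => tt_range _) j S) ?_
  unfold wY
  by_cases h : acell x (insert j S) ∈ Y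
  · rw [if_pos h, if_pos (acell_subset hc x (Finset.subset_insert j S) h), sub_zero]
  · rw [if_neg h]
    split_ifs <;> norm_num

theorem sg_sq (s : ℝ) : (sg s : ℝ) * (sg s : ℝ) = 1 := by
  rcases sg_cases s with g | g <;> rw [g] <;> norm_num

end GridBAux

open GridBAux

theorem hY_partial_nonneg {Y : Set (κ → ℤ)} (hc : Closed Y) (x : Sp κ) (j : κ) :
    0 ≤ (sg (x j) : ℝ) * fderiv ℝ (hY Y) x (EuclideanSpace.single j 1) := by
  rw [formula]
  have h1 : 0 ≤ dML Y x j := Finset.sum_nonneg fun S _ => term_nonneg hc x j S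
  have h2 := stp_deriv_nonneg |x j - (round (x j) : ℤ)|
  have h3 := sg_sq (x j)
  calc 0 ≤ deriv stp |x j - (round (x j) : ℤ)| * ((sg (x j) : ℝ) * (sg (x j) : ℝ)) *
        dML Y x j := by rw [h3]; positivity
    _ = _ := by ring

theorem hY_partial_ne {Y : Set (κ → ℤ)} (hc : Closed Y) {x : Sp κ} (h0 : 0 < hY Y x)
    (h1 : hY Y x < 1) : ∃ j, fderiv ℝ (hY Y) x (EuclideanSpace.single j 1) ≠ 0 := by
  have hm := (hY_lt_one_iff hc).1 h1
  have hex : ∃ S, Active x S ∧ acell x S ∉ Y := by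
    have := mt hY_eq_zero_iff.2 h0.ne'
    simpa only [not_forall, exists_prop] using this
  obtain ⟨S, ⟨hS, hSY⟩, hmin⟩ := exists_minimalFor_of_wellFoundedLT
    (fun S : Finset κ => Active x S ∧ acell x S ∉ Y) Finset.card hex
  have hj : ∃ j ∈ S, tt (x j) ≠ 1 := by
    by_contra hcon
    apply hSY
    refine acell_subset hc x (fun j hj => ?_) hm
    refine Finset.mem_filter.2 ⟨Finset.mem_univ j, ?_⟩
    by_contra h
    exact hcon ⟨j, hj, h⟩
  obtain ⟨j, hjS, hj1⟩ := hj
  have hlt : tt (x j) < 1 := lt_of_le_of_ne (tt_range _).2 hj1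
  have hact : Active x (S.erase j) := by
    refine ⟨fun k hk => hS.1 k (Finset.mem_of_mem_erase hk), fun k hk => ?_⟩
    by_cases hkj : k = j
    · rw [hkj]; exact hlt
    · exact hS.2 k fun h => hk (Finset.mem_erase.2 ⟨hkj, h⟩)
  have hin : acell x (S.erase j) ∈ Y := by
    by_contra h
    have h2 := Finset.card_erase_lt_of_mem hjS
    exact absurd (hmin ⟨hact, h⟩ h2.le) (not_le.2 h2)
  refine ⟨j, ?_⟩
  rw [formula]
  have p1 : 0 < deriv stp |x j - (round (x j) : ℤ)| := stp_deriv_pos (hS.1 j hjS) hlt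
  have p2 : (sg (x j) : ℝ) ≠ 0 := by
    intro h
    have := sg_sq (x j)
    rw [h] at this
    norm_num at this
  have p3 : 0 < dML Y x j := by
    refine Finset.sum_pos' (fun T _ => term_nonneg hc x j T) ⟨S.erase j, ?_, ?_⟩
    · exact Finset.mem_powerset.2 (Finset.erase_subset_erase j (Finset.subset_univ S))
    · have q1 := active_iff.1 hact
      rw [wt_of_not_mem _ (Finset.notMem_erase j S)] at q1
      have q2 : 0 < pw (fun k => tt (x k)) j (S.erase j) :=
        lt_of_le_of_ne (pw_nonneg (fun k => tt_range _) j _) (left_ne_zero_of_mul q1).symm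
      rw [Finset.insert_erase hjS, wY, wY, if_neg hSY, if_pos hin]
      simpa using q2
  exact mul_ne_zero (mul_ne_zero p1.ne' p2) p3.ne'

theorem hY_partial_zero_of_pure (Y : Set (κ → ℤ)) {x : Sp κ} {j : κ}
    (h : tt (x j) = 0 ∨ tt (x j) = 1) :
    fderiv ℝ (hY Y) x (EuclideanSpace.single j 1) = 0 := by
  rw [formula, stp_deriv_zero h, zero_mul, zero_mul]

theorem hY_partial_zero_of_indep (Y : Set (κ → ℤ)) {x : Sp κ} {j : κ}
    (h : ∀ S, Active x S → (acell x (insert j S) ∈ Y ↔ acell x (S.erase j) ∈ Y)) :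
    fderiv ℝ (hY Y) x (EuclideanSpace.single j 1) = 0 := by
  by_cases h1 : tt (x j) = 1
  · exact hY_partial_zero_of_pure Y (Or.inr h1)
  have : dML Y x j = 0 := by
    refine Finset.sum_eq_zero fun S hS => ?_
    have hj : j ∉ S := fun hj => Finset.notMem_erase j _ (Finset.mem_powerset.1 hS hj)
    by_cases h0 : pw (fun k => tt (x k)) j S = 0
    · rw [h0, zero_mul]
    · have hact : Active x S := by
        rw [active_iff, wt_of_not_mem _ hj]
        exact mul_ne_zero h0 (sub_ne_zero.2 (Ne.symm h1))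
      have h2 := h S hact
      rw [Finset.erase_eq_of_notMem hj] at h2
      simp only [wY, h2, sub_self, mul_zero]
  rw [formula, this, mul_zero]

theorem mpath_refl {Y : Set (κ → ℤ)} (hc : Closed Y) :
    IsMPath (fun z : ℝ × Sp κ => hY Y z.2) (hY Y) (hY Y) where
  smooth := (hY_smooth Y).comp contDiff_snd
  start := fun _ _ _ => rfl
  stop := fun _ _ _ => rfl
  anti := fun _ _ _ _ => le_rfl
  range := fun z => hY_range Y z.2
  reg := by
    intro s y h0 h1 h
    obtain ⟨j, hj⟩ := hY_partial_ne hc h0 h1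
    apply hj
    have : fderiv ℝ (hY Y) y = 0 := h
    rw [this]
    rfl

theorem IsMPath.trans {S : Type*} [NormedAddCommGroup S] [NormedSpace ℝ S] {H₁ H₂ : ℝ × S → ℝ}
    {p q r : S → ℝ} (h₁ : IsMPath H₁ p q) (h₂ : IsMPath H₂ q r) : ∃ H, IsMPath H p r := by
  have e1 : ∀ s : ℝ, s ≤ 2 / 3 → ∀ y,
      H₁ (3 * s, y) + H₂ (3 * s - 2, y) - H₁ (1, y) = H₁ (3 * s, y) := by
    intro s hs y
    rw [h₂.start _ (by linarith), h₁.stop 1 le_rfl]
    ring
  have e2 : ∀ s : ℝ, 1 / 3 ≤ s → ∀ y,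
      H₁ (3 * s, y) + H₂ (3 * s - 2, y) - H₁ (1, y) = H₂ (3 * s - 2, y) := by
    intro s hs y
    rw [h₁.stop _ (by linarith), h₁.stop 1 le_rfl]
    ring
  refine ⟨fun z => H₁ (3 * z.1, z.2) + H₂ (3 * z.1 - 2, z.2) - H₁ (1, z.2), ?_, ?_, ?_, ?_, ?_, ?_⟩
  · refine ((h₁.smooth.comp ?_).add (h₂.smooth.comp ?_)).sub (h₁.smooth.comp ?_)
    · exact (contDiff_const.mul contDiff_fst).prodMk contDiff_snd
    · exact ((contDiff_const.mul contDiff_fst).sub contDiff_const).prodMk contDiff_snd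
    · exact contDiff_const.prodMk contDiff_snd
  · intro s hs y
    exact (e1 s (by linarith) y).trans (h₁.start _ (by linarith) y)
  · intro s hs y
    exact (e2 s (by linarith) y).trans (h₂.stop _ (by linarith) y)
  · intro y a b hab
    have a1 := h₁.anti y (show 3 * a ≤ 3 * b by linarith)
    have a2 := h₂.anti y (show 3 * a - 2 ≤ 3 * b - 2 by linarith)
    simp only at a1 a2 ⊢
    linarith
  · rintro ⟨s, y⟩
    rcases le_total s (1 / 2) with hs | hs
    · simp only [e1 s (by linarith) y]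
      exact h₁.range _
    · simp only [e2 s (by linarith) y]
      exact h₂.range _
  · intro s y
    rcases le_total s (1 / 2) with hs | hs
    · simp only [e1 s (by linarith)]
      exact h₁.reg _ _
    · simp only [e2 s (by linarith)]
      exact h₂.reg _ _

end SpunKnot
end
end

-- merged part: Pool.Agent.Work.MP_e1e788_gt.R5U
section
/-! The generator of `Wh(ℤ/5)` is not a twisted coboundary. -/

namespace SpunKnot

namespace R5UAux

/-- augmentation -/
def aug (a : R5) : ℤ := a.c0 + a.c1 + a.c2 + a.c3 + a.c4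

/-- the norm form of the real quadratic subfield, on star-fixed elements -/
def nrm (a : R5) : ℤ := a.c0 ^ 2 - a.c0 * (a.c1 + a.c2) - (a.c1 ^ 2 + a.c2 ^ 2) + 3 * a.c1 * a.c2

theorem aug_mul (a b : R5) : aug (a * b) = aug a * aug b := by
  simp only [aug, R5.mul_c0, R5.mul_c1, R5.mul_c2, R5.mul_c3, R5.mul_c4]; ring

theorem aug_star (a : R5) : aug (star a) = aug a := by
  simp only [aug, R5.star_c0, R5.star_c1, R5.star_c2, R5.star_c3, R5.star_c4]; ring

theorem nrm_mul (a b : R5) (ha3 : a.c3 = a.c2) (ha4 : a.c4 = a.c1) (hb3 : b.c3 = b.c2)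
    (hb4 : b.c4 = b.c1) : nrm (a * b) = nrm a * nrm b := by
  simp only [nrm, R5.mul_c0, R5.mul_c1, R5.mul_c2, ha3, ha4, hb3, hb4]; ring

theorem sym3 (w : R5) : (w * star w).c3 = (w * star w).c2 := by
  simp only [R5.mul_c2, R5.mul_c3, R5.star_c0, R5.star_c1, R5.star_c2, R5.star_c3, R5.star_c4]
  ring

theorem sym4 (w : R5) : (w * star w).c4 = (w * star w).c1 := by
  simp only [R5.mul_c1, R5.mul_c4, R5.star_c0, R5.star_c1, R5.star_c2, R5.star_c3, R5.star_c4]
  ring

theorem c0_nonneg (w : R5) : 0 ≤ (w * star w).c0 := by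
  simp only [R5.mul_c0, R5.star_c0, R5.star_c1, R5.star_c2, R5.star_c3, R5.star_c4]
  nlinarith [mul_self_nonneg w.c0, mul_self_nonneg w.c1, mul_self_nonneg w.c2,
    mul_self_nonneg w.c3, mul_self_nonneg w.c4]

theorem aug_eq_one {w : R5} (hw : IsUnit w) : aug (w * star w) = 1 := by
  obtain ⟨v, hv⟩ := hw.exists_right_inv
  have h1 : aug w * aug v = 1 := by rw [← aug_mul, hv]; rfl
  rw [aug_mul, aug_star]
  rcases Int.eq_one_or_neg_one_of_mul_eq_one h1 with h | h <;> rw [h] <;> rfl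

theorem nrm_unit {w : R5} (hw : IsUnit w) : nrm (w * star w) = 1 ∨ nrm (w * star w) = -1 := by
  obtain ⟨v, hv⟩ := hw.exists_right_inv
  have h1 : (w * star w) * (v * star v) = 1 := by
    have : (w * star w) * (v * star v) = (w * v) * star (w * v) := by
      rw [star_mul]; ring
    rw [this, hv, star_one, one_mul]
  have h2 : nrm (w * star w) * nrm (v * star v) = 1 := by
    rw [← nrm_mul _ _ (sym3 w) (sym4 w) (sym3 v) (sym4 v), h1]; rfl
  exact Int.eq_one_or_neg_one_of_mul_eq_one h2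

theorem arith {a b c : ℤ} (h0 : 0 ≤ a) (h1 : a + b + c + c + b = 1) (h2 : a + b = 2 * c)
    (h3 : a ^ 2 - a * (b + c) - (b ^ 2 + c ^ 2) + 3 * b * c = 1 ∨
      a ^ 2 - a * (b + c) - (b ^ 2 + c ^ 2) + 3 * b * c = -1) : False := by
  have ha : a = -1 + 6 * c := by omega
  have hb : b = 1 - 4 * c := by omega
  have hc : 1 ≤ c := by omega
  subst ha hb
  rcases h3 with h | h <;> nlinarith

end R5UAux

open R5UAux in
theorem R5.not_coboundary {W₀ : R5} (h : W₀ = R5.g1 * R5.g1 ∨ W₀ = R5.g2 * R5.g2) :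
    ¬ ∃ w : R5, IsUnit w ∧ w * star w = W₀ * R5.ph (w * star w) := by
  rintro ⟨w, hw, he⟩
  have h0 := c0_nonneg w
  have h1 := aug_eq_one hw
  have h3 := nrm_unit hw
  have s3 := sym3 w
  have s4 := sym4 w
  generalize w * star w = W at he h0 h1 h3 s3 s4
  obtain ⟨a, b, c, d, e⟩ := W
  simp only at s3 s4 h0
  subst s3 s4
  simp only [aug] at h1
  simp only [nrm] at h3
  have e0 := congrArg R5.c0 he
  rcases h with h | h
  · subst h
    simp [R5.g1, R5.ph] at e0
    exact arith h0 h1 (by omega) h3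
  · subst h
    simp [R5.g2, R5.ph] at e0
    refine arith (a := a) (b := d) (c := e) h0 (by omega) (by omega) ?_
    rcases h3 with h | h
    · left; linarith
    · right; linarith

end SpunKnot
end

-- merged part: Pool.Agent.Work.MP_e1e788_gt.FlagDefs
section
/-! Flag complexes coded by bit matrices: the checking functions.  Row `x` of the matrix starts at
bit `640 * (x + 1)`; the lowest 640 bits carry no information. -/

namespace SpunKnot.Cert

/-- evaluate `n` first -/
noncomputable def force {α : Type} (n : ℕ) (k : ℕ → α) : α :=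
  Nat.rec (k 0) (fun p _ => k (Nat.succ p)) n

def off (x : ℕ) : ℕ := Nat.mul 640 (Nat.succ x)
def bt (M x y : ℕ) : Bool := Nat.testBit M (Nat.add (off x) y)
def full : ℕ := Nat.sub (Nat.pow 2 640) 1
def row (M x : ℕ) : ℕ := Nat.land (Nat.shiftRight M (off x)) full
def sub (a b : ℕ) : Bool := Nat.beq (Nat.land a b) a
noncomputable def onesR (k : ℕ) : ℕ :=
  Nat.rec 0 (fun j a => Nat.lor a (Nat.shiftLeft 1 (off j))) k
def onesK : ℕ := Nat.shiftLeft (Nat.div (Nat.pow 2 408960) (Nat.sub (Nat.pow 2 639) 1)) 640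
/-- matrix from its rows -/
noncomputable def mat (l : List ℕ) : ℕ :=
  List.rec 0 (fun r _ a => Nat.shiftLeft (Nat.lor r a) 640) l

def okV (W M x v : ℕ) : Bool :=
  Nat.ble x 634 && Nat.ble v 634 && !Nat.beq x v && bt M v v && sub (row M x) (row M v) &&
    sub (Nat.land (Nat.shiftRight M x) W) (Nat.shiftRight M v)
def rmV (W M x : ℕ) : ℕ :=
  Nat.xor M (Nat.land M (Nat.lor (Nat.shiftLeft W x) (Nat.shiftLeft full (off x))))
def addV (W K M x z : ℕ) : ℕ :=
  Nat.lor M (Nat.lor (Nat.shiftLeft z (off x)) (Nat.shiftLeft (Nat.land (Nat.mul z K) W) x))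
def okE (W M x y v : ℕ) : Bool :=
  Nat.ble x 634 && Nat.ble y 634 && Nat.ble v 634 && !Nat.beq x v && !Nat.beq y v &&
    bt M v v && sub (Nat.land (row M x) (row M y)) (row M v) &&
    sub (Nat.land (Nat.land (Nat.shiftRight M x) (Nat.shiftRight M y)) W) (Nat.shiftRight M v)
def mk2 (x y : ℕ) : ℕ :=
  Nat.lor (Nat.shiftLeft 1 (Nat.add (off x) y)) (Nat.shiftLeft 1 (Nat.add (off y) x))
def rmE (M x y : ℕ) : ℕ := Nat.xor M (Nat.land M (mk2 x y))

/-- one move; `k` is the continuation -/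
noncomputable def step (W K P : ℕ) (rem : Bool) (c M : ℕ) (k : ℕ → Bool) : Bool :=
  force (Nat.land (Nat.shiftRight c 2) 1023) fun x =>
  force (Nat.land (Nat.shiftRight c 12) 1023) fun v =>
  force (Nat.shiftRight c 22) fun z =>
  cond (Nat.beq (Nat.land c 3) 0)
    (okV W M x v && !Nat.testBit P x && k (rmV W M x))
    (cond (Nat.beq (Nat.land c 3) 1)
      (okE W M x z v && !(Nat.testBit P x && Nat.testBit P z) && k (rmE M x z))
      (cond rem false
        (cond (Nat.beq (Nat.land c 3) 2)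
          (force (addV W K M x z) fun M' => okV W M' x v && Nat.beq (rmV W M' x) M && k M')
          (force (Nat.lor M (mk2 x z)) fun M' => okE W M' x z v && Nat.beq (rmE M' x z) M && k M'))))

noncomputable def run (W K P : ℕ) (rem : Bool) (F : ℕ) (l : List ℕ) : ℕ → Bool :=
  List.rec (fun M => Nat.beq (Nat.shiftRight M 640) (Nat.shiftRight F 640))
    (fun c _ ih M => step W K P rem c M fun M' => force (Nat.xor M' (Nat.land c full)) ih) l

noncomputable def chk (P : ℕ) (rem : Bool) (l : List ℕ) (M F : ℕ) : Bool :=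
  force (onesR 639) fun W => force onesK fun K => force M fun M => force F fun F =>
    force P fun P => run W K P rem F l M

end SpunKnot.Cert
end

-- merged part: Pool.Agent.Work.MP_e1e788_gt.Flag
section
/-! Soundness of the flag complex checks. -/

open Set

namespace SpunKnot.Cert

theorem force_eq {α : Type} (n : ℕ) (k : ℕ → α) : force n k = k n := by cases n <;> rfl

theorem tb_land (a b k : ℕ) : (Nat.land a b).testBit k = (a.testBit k && b.testBit k) :=
  Nat.testBit_and a b k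
theorem tb_lor (a b k : ℕ) : (Nat.lor a b).testBit k = (a.testBit k || b.testBit k) :=
  Nat.testBit_or a b k
theorem tb_xor (a b k : ℕ) : (Nat.xor a b).testBit k = ((a.testBit k) ^^ (b.testBit k)) :=
  Nat.testBit_xor a b k
theorem tb_shr (a b k : ℕ) : (Nat.shiftRight a b).testBit k = a.testBit (b + k) :=
  Nat.testBit_shiftRight a
theorem tb_shl (a b k : ℕ) :
    (Nat.shiftLeft a b).testBit k = (decide (k ≥ b) && a.testBit (k - b)) :=
  Nat.testBit_shiftLeft a
theorem tb_one (b k : ℕ) : (Nat.shiftLeft 1 b).testBit k = decide (b = k) := by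
  rw [show Nat.shiftLeft 1 b = 1 <<< b from rfl, Nat.one_shiftLeft, Nat.testBit_two_pow]
theorem tb_full' (n k : ℕ) : (Nat.sub (Nat.pow 2 n) 1).testBit k = decide (k < n) :=
  Nat.testBit_two_pow_sub_one n k
set_option exponentiation.threshold 1000 in
theorem tb_full (k : ℕ) : full.testBit k = decide (k < 640) := tb_full' 640 k
theorem beq_false {a b : ℕ} : Nat.beq a b = false ↔ a ≠ b := by
  rw [← Bool.not_eq_true, Nat.beq_eq]
theorem off_eq (x : ℕ) : off x = 640 * (x + 1) := rfl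
theorem bt_eq (M x y : ℕ) : bt M x y = M.testBit (640 * (x + 1) + y) := rfl
theorem tb_row (M x y : ℕ) : (row M x).testBit y = (bt M x y && decide (y < 640)) := by
  rw [row, tb_land, tb_shr, tb_full]; rfl

theorem sub_spec {a b : ℕ} (h : sub a b = true) {k : ℕ} (hk : a.testBit k = true) :
    b.testBit k = true := by
  have h1 : Nat.land a b = a := Nat.eq_of_beq_eq_true h
  rw [← h1, tb_land, Bool.and_eq_true] at hk
  exact hk.2

theorem tb_ones (k i : ℕ) : (onesR k).testBit i = true ↔ ∃ j < k, i = 640 * (j + 1) := by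
  induction k with
  | zero => simp [onesR]
  | succ k ih =>
    change (Nat.lor (onesR k) (Nat.shiftLeft 1 (off k))).testBit i = true ↔ _
    rw [tb_lor, Bool.or_eq_true, ih, tb_one, off_eq, decide_eq_true_eq]
    constructor
    · rintro (⟨j, h1, h2⟩ | h)
      · exact ⟨j, by omega, h2⟩
      · exact ⟨k, by omega, h.symm⟩
    · rintro ⟨j, h1, h2⟩
      by_cases h : j = k
      · exact Or.inr (h ▸ h2.symm)
      · exact Or.inl ⟨j, by omega, h2⟩

/-- the flag complex of a bit matrix -/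
def flag (M : ℕ) : Set (Finset (Fin 635)) := {σ | ∀ x ∈ σ, ∀ y ∈ σ, bt M x y = true}

theorem flag_lower (M : ℕ) : IsLowerSet (flag M) :=
  fun _ _ h hb x hx y hy => hb x (h hx) y (h hy)

theorem flag_congr {M M' : ℕ} (h : Nat.shiftRight M 640 = Nat.shiftRight M' 640) :
    flag M = flag M' := by
  have : ∀ x y, bt M x y = bt M' x y := fun x y => by
    have h1 := congrArg (fun a => a.testBit (640 * x + y)) h
    simp only [tb_shr] at h1
    rw [bt_eq, bt_eq, show 640 * (x + 1) + y = 640 + (640 * x + y) by ring, h1]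
  simp only [flag, this]

theorem flag_salt (M c : ℕ) : flag (Nat.xor M (Nat.land c full)) = flag M := by
  have : ∀ x y, bt (Nat.xor M (Nat.land c full)) x y = bt M x y := fun x y => by
    rw [bt_eq, bt_eq, tb_xor, tb_land, tb_full, decide_eq_false (by omega)]; simp
  simp only [flag, this]

theorem flag_mono {M M' : ℕ} (h : sub M M' = true) : flag M ⊆ flag M' :=
  fun _ hσ x hx y hy => sub_spec h (hσ x hx y hy)

theorem flag_land (M M' : ℕ) : flag (Nat.land M M') = flag M ∩ flag M' := by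
  ext σ
  simp only [flag, bt_eq, tb_land, Bool.and_eq_true, mem_ofPred_eq, mem_inter_iff]
  exact ⟨fun h => ⟨fun x a y b => (h x a y b).1, fun x a y b => (h x a y b).2⟩,
    fun h x a y b => ⟨h.1 x a y b, h.2 x a y b⟩⟩

theorem bt_rmV (M : ℕ) (x a b : Fin 635) :
    bt (rmV (onesR 639) M x) a b = true ↔ bt M a b = true ∧ a ≠ x ∧ b ≠ x := by
  have h1 := tb_ones 639 (640 * (a + 1) + b - x)
  have h2 : (Nat.lor (Nat.shiftLeft (onesR 639) x) (Nat.shiftLeft full (off x))).testBit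
      (640 * (a + 1) + b) = true ↔ a = x ∨ b = x := by
    rw [tb_lor, tb_shl, tb_shl, tb_full, off_eq]
    simp only [Bool.or_eq_true, Bool.and_eq_true, decide_eq_true_eq, h1, Fin.ext_iff]
    have := a.2; have := b.2; have := x.2
    constructor
    · rintro (⟨_, j, _, _⟩ | ⟨_, _⟩) <;> omega
    · rintro (h | h)
      · right; omega
      · left; exact ⟨by omega, a, by omega, by omega⟩
  rw [bt_eq, bt_eq, rmV, tb_xor, tb_land, ← not_or, ← h2]
  generalize (Nat.lor _ _).testBit _ = u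
  cases M.testBit (640 * (a + 1) + b) <;> simp

theorem bt_rmE (M : ℕ) (x y a b : Fin 635) :
    bt (rmE M x y) a b = true ↔ bt M a b = true ∧ ¬ (a = x ∧ b = y ∨ a = y ∧ b = x) := by
  have h2 : (mk2 x y).testBit (640 * (a + 1) + b) = true ↔ a = x ∧ b = y ∨ a = y ∧ b = x := by
    rw [mk2, tb_lor, tb_one, tb_one]
    simp only [Bool.or_eq_true, decide_eq_true_eq, Fin.ext_iff, off_eq, Nat.add_eq]
    have := a.2; have := b.2; have := x.2; have := y.2
    omega
  rw [bt_eq, bt_eq, rmE, tb_xor, tb_land, ← h2]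
  cases M.testBit (640 * (a + 1) + b) <;> simp

theorem tb_col (M : ℕ) (x y : ℕ) : (Nat.shiftRight M x).testBit (640 * (y + 1)) = bt M y x := by
  rw [tb_shr, bt_eq, add_comm]

theorem tb_W (y : Fin 635) : (onesR 639).testBit (640 * (y + 1)) = true :=
  (tb_ones _ _).2 ⟨y, by omega, rfl⟩

theorem ins_mem {M : ℕ} {σ : Finset (Fin 635)} (hσ : σ ∈ flag M) {v : Fin 635}
    (h0 : bt M v v = true) (h1 : ∀ y ∈ σ, bt M v y = true) (h2 : ∀ y ∈ σ, bt M y v = true) :
    insert v σ ∈ flag M := by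
  intro a ha b hb
  rcases Finset.mem_insert.1 ha with ha | ha <;> rcases Finset.mem_insert.1 hb with hb | hb
  · rw [ha, hb]; exact h0
  · rw [ha]; exact h1 b hb
  · rw [hb]; exact h2 a ha
  · exact hσ a ha b hb

/-- a collapse which removes no simplex with all vertices in `P` -/
def PStep (P : ℕ) (L L' : Set (Finset (Fin 635))) : Prop :=
  SCol L L' ∧ ∀ σ ∈ L', (∀ x ∈ σ, P.testBit x = true) → σ ∈ L

theorem scolV {M x v : ℕ} (h : okV (onesR 639) M x v = true) :
    SCol (flag (rmV (onesR 639) M x)) (flag M) ∧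
      ∀ P : ℕ, P.testBit x = false → PStep P (flag (rmV (onesR 639) M x)) (flag M) := by
  simp only [okV, Bool.and_eq_true, Nat.ble_eq, Bool.not_eq_true', beq_false] at h
  obtain ⟨⟨⟨⟨⟨h1, h2⟩, h3⟩, h4⟩, h5⟩, h6⟩ := h
  obtain ⟨x, rfl⟩ : ∃ x' : Fin 635, (x' : ℕ) = x := ⟨⟨x, by omega⟩, rfl⟩
  obtain ⟨v, rfl⟩ : ∃ x' : Fin 635, (x' : ℕ) = v := ⟨⟨v, by omega⟩, rfl⟩
  have e : flag (rmV (onesR 639) M x) = {σ | σ ∈ flag M ∧ ¬ {x} ⊆ σ} := by
    ext σ
    simp only [flag, mem_ofPred_eq, bt_rmV, Finset.singleton_subset_iff]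
    exact ⟨fun h => ⟨fun a ha b hb => (h a ha b hb).1, fun hx => (h x hx x hx).2.1 rfl⟩,
      fun h a ha b hb => ⟨h.1 a ha b hb, fun e => h.2 (e ▸ ha), fun e => h.2 (e ▸ hb)⟩⟩
  have s : SCol (flag (rmV (onesR 639) M x)) (flag M) := by
    refine ⟨flag_lower M, {x}, v, Finset.singleton_nonempty x,
      fun a => h3 (congrArg Fin.val (Finset.mem_singleton.1 a)).symm, fun σ hσ hx => ?_, e⟩
    rw [Finset.singleton_subset_iff] at hx
    refine ins_mem hσ h4 (fun y hy => ?_) fun y hy => ?_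
    · have := sub_spec h5 (k := y) (by rw [tb_row, hσ x hx y hy]; simp; omega)
      rw [tb_row, Bool.and_eq_true] at this
      exact this.1
    · rw [← tb_col]
      exact sub_spec h6 (by rw [tb_land, tb_col, hσ y hy x hx, tb_W]; rfl)
  refine ⟨s, fun P hP => ⟨s, fun σ hσ hs => ?_⟩⟩
  rw [e]
  exact ⟨hσ, fun a => by simp [hs x (Finset.singleton_subset_iff.1 a)] at hP⟩

theorem scolE {M x y v : ℕ} (h : okE (onesR 639) M x y v = true) :
    SCol (flag (rmE M x y)) (flag M) ∧
      ∀ P : ℕ, (P.testBit x && P.testBit y) = false → PStep P (flag (rmE M x y)) (flag M) := by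
  simp only [okE, Bool.and_eq_true, Nat.ble_eq, Bool.not_eq_true', beq_false] at h
  obtain ⟨⟨⟨⟨⟨⟨⟨h1, h1'⟩, h2⟩, h3⟩, h3'⟩, h4⟩, h5⟩, h6⟩ := h
  obtain ⟨x, rfl⟩ : ∃ x' : Fin 635, (x' : ℕ) = x := ⟨⟨x, by omega⟩, rfl⟩
  obtain ⟨y, rfl⟩ : ∃ x' : Fin 635, (x' : ℕ) = y := ⟨⟨y, by omega⟩, rfl⟩
  obtain ⟨v, rfl⟩ : ∃ x' : Fin 635, (x' : ℕ) = v := ⟨⟨v, by omega⟩, rfl⟩
  have e0 : ∀ σ : Finset (Fin 635), {x, y} ⊆ σ ↔ x ∈ σ ∧ y ∈ σ := fun σ => by
    simp [Finset.insert_subset_iff]
  have e : flag (rmE M x y) = {σ | σ ∈ flag M ∧ ¬ {x, y} ⊆ σ} := by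
    ext σ
    simp only [flag, mem_ofPred_eq, bt_rmE, e0]
    refine ⟨fun h => ⟨fun a ha b hb => (h a ha b hb).1,
      fun hx => (h x hx.1 y hx.2).2 (Or.inl ⟨rfl, rfl⟩)⟩, fun h a ha b hb => ⟨h.1 a ha b hb, ?_⟩⟩
    rintro (⟨rfl, rfl⟩ | ⟨rfl, rfl⟩)
    exacts [h.2 ⟨ha, hb⟩, h.2 ⟨hb, ha⟩]
  have s : SCol (flag (rmE M x y)) (flag M) := by
    refine ⟨flag_lower M, {x, y}, v, Finset.insert_nonempty _ _, fun a => ?_, fun σ hσ hx => ?_, e⟩
    · rcases Finset.mem_insert.1 a with a | a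
      exacts [h3 (congrArg Fin.val a).symm, h3' (congrArg Fin.val (Finset.mem_singleton.1 a)).symm]
    rw [e0] at hx
    refine ins_mem hσ h4 (fun z hz => ?_) fun z hz => ?_
    · have := sub_spec h5 (k := z) (by
        rw [tb_land, tb_row, tb_row, hσ x hx.1 z hz, hσ y hx.2 z hz]; simp; omega)
      rw [tb_row, Bool.and_eq_true] at this
      exact this.1
    · rw [← tb_col]
      exact sub_spec h6 (by
        rw [tb_land, tb_land, tb_col, tb_col, hσ z hz x hx.1, hσ z hz y hx.2, tb_W]; rfl)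
  refine ⟨s, fun P hP => ⟨s, fun σ hσ hs => ?_⟩⟩
  rw [e]
  exact ⟨hσ, fun a => by simp [hs x ((e0 σ).1 a).1, hs y ((e0 σ).1 a).2] at hP⟩

theorem step_spec {K P c M : ℕ} {rem : Bool} {k : ℕ → Bool}
    (h : step (onesR 639) K P rem c M k = true) : ∃ M', k M' = true ∧
      (PStep P (flag M') (flag M) ∨ rem = false ∧ SCol (flag M) (flag M')) := by
  simp only [step, force_eq, Bool.cond_eq_ite] at h
  split_ifs at h with h1 h2 h3 h4
  · simp only [Bool.and_eq_true, Bool.not_eq_true'] at h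
    exact ⟨_, h.2, Or.inl ((scolV h.1.1).2 P h.1.2)⟩
  · simp only [Bool.and_eq_true, Bool.not_eq_true'] at h
    exact ⟨_, h.2, Or.inl ((scolE h.1.1).2 P h.1.2)⟩
  · simp only [Bool.and_eq_true] at h
    refine ⟨_, h.2, Or.inr ⟨by simpa using h3, ?_⟩⟩
    have := (scolV h.1.1).1
    rwa [Nat.eq_of_beq_eq_true h.1.2] at this
  · simp only [Bool.and_eq_true] at h
    refine ⟨_, h.2, Or.inr ⟨by simpa using h3, ?_⟩⟩
    have := (scolE h.1.1).1
    rwa [Nat.eq_of_beq_eq_true h.1.2] at this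

theorem scol_sub {L L' : Set (Finset (Fin 635))} (h : SCol L L') : L ⊆ L' := by
  obtain ⟨-, a, v, -, -, -, rfl⟩ := h
  exact fun _ h => h.1

/-- the zigzag relation together with the invariant -/
def ZigN (N L L' : Set (Finset (Fin 635))) : Prop := N ⊆ L → RZig N L L' ∧ N ⊆ L'

theorem ZigN.trans {N L L' L'' : Set (Finset (Fin 635))} (h : ZigN N L L') (h' : ZigN N L' L'') :
    ZigN N L L'' := fun a => ⟨(h a).1.trans (h' (h a).2).1, (h' (h a).2).2⟩

theorem chk_zig {P M F : ℕ} {l : List ℕ} {N : Set (Finset (Fin 635))}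
    (hN : ∀ σ ∈ N, ∀ x ∈ σ, P.testBit x = true) (h : chk P false l M F = true) :
    ZigN N (flag M) (flag F) := by
  simp only [chk, force_eq] at h
  induction l generalizing M with
  | nil => rw [flag_congr (Nat.eq_of_beq_eq_true h)]; exact fun a => ⟨.refl, a⟩
  | cons c l ih =>
    obtain ⟨M', h1, h2⟩ := step_spec h
    rw [force_eq] at h1
    have h3 := ih h1
    rw [flag_salt] at h3
    refine ZigN.trans (fun a => ?_) h3
    rcases h2 with h2 | ⟨-, h2⟩
    · have b : N ⊆ flag M' := fun σ hσ => h2.2 σ (a hσ) (hN σ hσ)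
      exact ⟨.single ⟨Or.inr h2.1, a, b⟩, b⟩
    · exact ⟨.single ⟨Or.inl h2, a, a.trans (scol_sub h2)⟩, a.trans (scol_sub h2)⟩

theorem chk_col {P M F : ℕ} {l : List ℕ} (h : chk P true l M F = true) :
    SCols (flag F) (flag M) := by
  simp only [chk, force_eq] at h
  induction l generalizing M with
  | nil => rw [flag_congr (Nat.eq_of_beq_eq_true h)]; exact .refl
  | cons c l ih =>
    obtain ⟨M', h1, h2⟩ := step_spec h
    rw [force_eq] at h1
    have h3 := ih h1
    rw [flag_salt] at h3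
    rcases h2 with h2 | ⟨h2, -⟩
    · exact h3.tail h2.1
    · cases h2

end SpunKnot.Cert
end

-- merged part: Pool.Agent.Work.MP_e1e788_gt.FlagB
section
/-! Induced subcomplexes, unions and cocycles of flag complexes, by computation. -/

open Set

namespace SpunKnot.Cert

def tag (_ n : ℕ) : ℕ := n

/-- evaluate `n` first and mark the value by a residue -/
noncomputable def frc {α : Type} (n : ℕ) (k : ℕ → α) : α :=
  force (Nat.mod n 1000000007) fun h => force n fun m => k (tag h m)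

theorem frc_eq {α : Type} (n : ℕ) (k : ℕ → α) : frc n k = k n := by
  rw [frc, force_eq, force_eq, tag]

def sh (n : ℕ) : ℕ := Nat.shiftRight n 16

noncomputable def allLt (f : ℕ → Bool) (k : ℕ) : Bool := Nat.rec true (fun j a => f j && a) k

theorem allLt_spec {f : ℕ → Bool} {k : ℕ} (h : allLt f k = true) {j : ℕ} (hj : j < k) :
    f j = true := by
  induction k with
  | zero => omega
  | succ k ih =>
    have h1 : (f k && allLt f k) = true := h
    rw [Bool.and_eq_true] at h1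
    by_cases e : j = k
    · exact e ▸ h1.1
    · exact ih h1.2 (by omega)

noncomputable def allBits (f : ℕ → Bool) (fuel : ℕ) : ℕ → Bool :=
  Nat.rec (fun C => Nat.beq C 0) (fun _ ih C => cond (Nat.beq C 0) true
    (frc (Nat.log2 C) fun v => f v && frc (Nat.xor C (Nat.shiftLeft 1 v)) ih)) fuel

theorem allBits_spec {f : ℕ → Bool} {fuel C : ℕ} (h : allBits f fuel C = true) {j : ℕ}
    (hj : C.testBit j = true) : f j = true := by
  induction fuel generalizing C with
  | zero => rw [Nat.eq_of_beq_eq_true h] at hj; simp at hj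
  | succ k ih =>
    have h1 : cond (Nat.beq C 0) true (frc (Nat.log2 C) fun v => f v &&
      frc (Nat.xor C (Nat.shiftLeft 1 v)) (allBits f k)) = true := h
    simp only [frc_eq, Bool.cond_eq_ite] at h1
    split_ifs at h1 with h2
    · rw [Nat.eq_of_beq_eq_true h2] at hj; simp at hj
    rw [Bool.and_eq_true] at h1
    by_cases e : Nat.log2 C = j
    · exact e ▸ h1.1
    · exact ih h1.2 (by rw [tb_xor, tb_one, hj, decide_eq_false e]; rfl)

noncomputable def chkInd (M A N : ℕ) : Bool :=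
  frc M fun M => frc N fun N => frc A fun A =>
    allLt (fun x => Nat.beq (row N x) (cond (Nat.testBit A x) (Nat.land (row M x) A) 0)) 635

theorem ind_spec {M A N : ℕ} (h : chkInd M A N = true) (σ : Finset (Fin 635)) :
    σ ∈ flag N ↔ σ ∈ flag M ∧ ∀ x ∈ σ, A.testBit x = true := by
  simp only [chkInd, frc_eq] at h
  have key : ∀ x y : Fin 635, bt N x y = true ↔
      A.testBit x = true ∧ bt M x y = true ∧ A.testBit y = true := by
    intro x y
    have h1 := congrArg (fun a => a.testBit y) (Nat.eq_of_beq_eq_true (allLt_spec h x.2))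
    have h2 : decide ((y : ℕ) < 640) = true := decide_eq_true (by omega)
    simp only [tb_row, h2, Bool.and_true] at h1
    rw [h1]
    cases A.testBit x <;> simp [tb_row, h2]
  simp only [flag, mem_ofPred_eq, key]
  exact ⟨fun h => ⟨fun x a y b => (h x a y b).2.1, fun x a => (h x a x a).1⟩,
    fun h x a y b => ⟨h.2 x a, h.1 x a y b, h.2 y b⟩⟩

noncomputable def chkSep (M A B : ℕ) : Bool :=
  frc M fun M => frc A fun A => frc B fun B =>
    allLt (fun x => Nat.testBit B x || sub (row M x) A) 635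

theorem tb_row' {M : ℕ} {x y : Fin 635} (h : bt M x y = true) : (row M x).testBit y = true := by
  rw [tb_row, h, decide_eq_true (by omega : (y : ℕ) < 640)]; rfl

theorem flag_union {M A B NA NB : ℕ} (hA : chkInd M A NA = true) (hB : chkInd M B NB = true)
    (h : chkSep M A B = true) : flag M = flag NA ∪ flag NB := by
  simp only [chkSep, frc_eq] at h
  ext σ
  rw [mem_union, ind_spec hA, ind_spec hB]
  refine ⟨fun hσ => ?_, fun a => a.elim (·.1) (·.1)⟩
  by_cases h1 : ∀ x ∈ σ, B.testBit x = true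
  · exact Or.inr ⟨hσ, h1⟩
  · push Not at h1
    obtain ⟨x, hx, h2⟩ := h1
    have h3 := allLt_spec h x.2
    rw [Bool.or_eq_true] at h3
    exact Or.inl ⟨hσ, fun y hy => sub_spec (h3.resolve_left h2) (tb_row' (hσ x hx y hy))⟩

/-- five masks: the columns where the cocycle takes each value -/
structure Row5 where
  r0 : ℕ
  r1 : ℕ
  r2 : ℕ
  r3 : ℕ
  r4 : ℕ

noncomputable def nth (L : List Row5) : ℕ → Row5 :=
  List.rec (fun _ => ⟨0, 0, 0, 0, 0⟩) (fun a _ ih i => Nat.rec a (fun p _ => ih p) i) L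

def val (r : Row5) (j : ℕ) : ℕ :=
  cond (r.r1.testBit j) 1 (cond (r.r2.testBit j) 2 (cond (r.r3.testBit j) 3
    (cond (r.r4.testBit j) 4 0)))

def sel (r : Row5) (b : ℕ) : ℕ :=
  cond (Nat.beq b 0) r.r0 (cond (Nat.beq b 1) r.r1 (cond (Nat.beq b 2) r.r2
    (cond (Nat.beq b 3) r.r3 r.r4)))

def un (r : Row5) : ℕ := Nat.lor r.r0 (Nat.lor r.r1 (Nat.lor r.r2 (Nat.lor r.r3 r.r4)))

def dis (r : Row5) : Bool :=
  Nat.beq (Nat.land r.r1 (Nat.lor r.r2 (Nat.lor r.r3 (Nat.lor r.r4 r.r0)))) 0 &&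
    Nat.beq (Nat.land r.r2 (Nat.lor r.r3 (Nat.lor r.r4 r.r0))) 0 &&
    Nat.beq (Nat.land r.r3 (Nat.lor r.r4 r.r0)) 0 && Nat.beq (Nat.land r.r4 r.r0) 0

/-- the cocycle -/
noncomputable def coc (L : List Row5) (i j : Fin 635) : ZMod 5 := (val (nth L i) j : ℕ)

theorem val_lt (r : Row5) (j : ℕ) : val r j < 5 := by
  unfold val
  cases r.r1.testBit j <;> cases r.r2.testBit j <;> cases r.r3.testBit j <;>
    cases r.r4.testBit j <;> simp

theorem sel_val {r : Row5} {j : ℕ} (h : (un r).testBit j = true) :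
    (sel r (val r j)).testBit j = true := by
  simp only [un, tb_lor] at h
  unfold val
  cases h1 : r.r1.testBit j <;> cases h2 : r.r2.testBit j <;> cases h3 : r.r3.testBit j <;>
    cases h4 : r.r4.testBit j <;> simp_all [sel, Nat.beq]

theorem val_sel {r : Row5} (h : dis r = true) {b j : ℕ} (hb : b < 5)
    (hj : (sel r b).testBit j = true) : val r j = b := by
  simp only [dis, Bool.and_eq_true, Nat.beq_eq] at h
  obtain ⟨⟨⟨a1, a2⟩, a3⟩, a4⟩ := h
  have b1 := congrArg (fun a => a.testBit j) a1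
  have b2 := congrArg (fun a => a.testBit j) a2
  have b3 := congrArg (fun a => a.testBit j) a3
  have b4 := congrArg (fun a => a.testBit j) a4
  simp only [tb_land, tb_lor, Nat.zero_testBit] at b1 b2 b3 b4
  unfold val
  interval_cases b <;> cases h1 : r.r1.testBit j <;> cases h2 : r.r2.testBit j <;>
    cases h3 : r.r3.testBit j <;> cases h4 : r.r4.testBit j <;> simp_all [sel, Nat.beq]

noncomputable def chkFlat (M : ℕ) (L : List Row5) : Bool :=
  frc M fun M => allLt (fun i => frc (row M i) fun R => dis (nth L i) && sub R (un (nth L i)) &&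
    allBits (fun j => frc (val (nth L i) j) fun a => allLt (fun b =>
      sub (Nat.land R (sel (nth L j) b)) (sel (nth L i) (Nat.mod (Nat.add a b) 5))) 5) 640 R) 635

theorem flat_spec {M : ℕ} {L : List Row5} (h : chkFlat M L = true) : Flat (coc L) (flag M) := by
  simp only [chkFlat, frc_eq] at h
  intro σ hσ i hi j hj k hk
  have h1 := allLt_spec h i.2
  have h2 := allLt_spec h j.2
  simp only [Bool.and_eq_true] at h1 h2
  have h3 := allLt_spec (allBits_spec h1.2 (tb_row' (hσ i hi j hj))) (val_lt (nth L j) k)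
  have h4 := sub_spec h3 (k := k) (by
    rw [tb_land, tb_row' (hσ i hi k hk), sel_val (sub_spec h2.1.2 (tb_row' (hσ j hj k hk)))]; rfl)
  have h5 := val_sel h1.1.1 (Nat.mod_lt _ (by norm_num)) h4
  simp only [coc, h5]
  exact ((ZMod.natCast_mod _ 5).trans (Nat.cast_add _ _)).symm

noncomputable def chkAgree (m N : ℕ) (L L' : List Row5) : Bool :=
  frc N fun N => allLt (fun i => frc (row N i) fun R => dis (nth L' i) && sub R (un (nth L i)) &&
    allLt (fun b => sub (Nat.land R (sel (nth L i) b)) (sel (nth L' i) (Nat.mod (Nat.mul m b) 5))) 5)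
    635

theorem agree_spec {m N : ℕ} {L L' : List Row5} (h : chkAgree m N L L' = true) :
    Agree (coc L') (fun i j => (m : ZMod 5) * coc L i j) (flag N) := by
  simp only [chkAgree, frc_eq] at h
  intro σ hσ i hi j hj
  have h1 := allLt_spec h i.2
  simp only [Bool.and_eq_true] at h1
  have h2 := tb_row' (hσ i hi j hj)
  have h4 := sub_spec (allLt_spec h1.2 (val_lt (nth L i) j)) (k := j) (by
    rw [tb_land, h2, sel_val (sub_spec h1.1.2 h2)]; rfl)
  have h5 := val_sel h1.1.1 (Nat.mod_lt _ (by norm_num)) h4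
  simp only [coc, h5]
  exact (ZMod.natCast_mod _ 5).trans (Nat.cast_mul _ _)

end SpunKnot.Cert
end
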