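import Pool.Agent.Work.MP_e1e788_gt.SDA

/-! The product of the cobordism with a circle is trivial: an explicit regular function. -/

open Set Filter Topology

noncomputable section
namespace SpunKnot
variable {S : Type*} [NormedAddCommGroup S] [NormedSpace ℝ S]

namespace SDFAux

abbrev T : ℝ → ℝ := Real.smoothTransition

theorem T_smooth : ContDiff ℝ (⊤ : ℕ∞) T := Real.smoothTransition.contDiff
theorem T_der (x : ℝ) : HasDerivAt T (deriv T x) x :=
  (T_smooth.differentiable (by simp) x).hasDerivAt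
theorem T0 {x : ℝ} (h : x ≤ 0) : T x = 0 := Real.smoothTransition.zero_of_nonpos h
theorem T1 {x : ℝ} (h : 1 ≤ x) : T x = 1 := Real.smoothTransition.one_of_one_le h
theorem D0 {x : ℝ} (h : x ≤ 0) : deriv T x = 0 := smoothTransition_deriv_zero (Or.inl h)
theorem D1 {x : ℝ} (h : 1 ≤ x) : deriv T x = 0 := smoothTransition_deriv_zero (Or.inr h)
theorem Dn (x : ℝ) : 0 ≤ deriv T x := smoothTransition_deriv_nonneg x
theorem Dp {x : ℝ} (h0 : 0 < x) (h1 : x < 1) : 0 < deriv T x := smoothTransition_deriv_pos h0 h1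
theorem Dne {x : ℝ} (h : deriv T x ≠ 0) : 0 < x ∧ x < 1 :=
  ⟨lt_of_not_ge fun h' => h (D0 h'), lt_of_not_ge fun h' => h (D1 h')⟩
theorem Tn (x : ℝ) : 0 ≤ T x := Real.smoothTransition.nonneg x
theorem Tl (x : ℝ) : T x ≤ 1 := Real.smoothTransition.le_one x
theorem Tm {x y : ℝ} (h : x ≤ y) : T x ≤ T y := Real.smoothTransition.monotone h
theorem Th : T (1 / 2) = 1 / 2 := by
  have h := (stp_eq_half_iff (s := 3 / 2 * eta)).2 rfl
  have e : (3 / 2 * eta - eta) / eta = 1 / 2 := by field_simp [eta_pos.ne']; ring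
  unfold stp at h
  rwa [e] at h
theorem Tlt {x : ℝ} (h : x < 1 / 2) : T x < 1 / 2 := by
  rcases le_or_gt x 0 with h0 | h0
  · rw [T0 h0]; norm_num
  · rw [← Th]
    exact smoothTransition_strictMonoOn ⟨h0.le, by linarith⟩ ⟨by norm_num, by norm_num⟩ h
theorem Tgt {x : ℝ} (h : 1 / 2 < x) : 1 / 2 < T x := by
  rcases le_or_gt 1 x with h0 | h0
  · rw [T1 h0]; norm_num
  · rw [← Th]
    exact smoothTransition_strictMonoOn ⟨by norm_num, by norm_num⟩ ⟨by linarith, h0.le⟩ h

def b0 (θ : ℝ) : ℝ := 1 / 4 + θ / (20 * Real.pi) - T (θ + 3) / 10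
def w2 (θ : ℝ) : ℝ := (T (θ + 3) - T (θ + 1)) / 10
def w1 (θ : ℝ) : ℝ := (T (θ + 1) - T (θ - 1)) / 10
def b3 (θ : ℝ) : ℝ := 1 / 4 - θ / (20 * Real.pi) + T (θ - 1) / 10
def a2 (θ : ℝ) : ℝ := 101 / 2 + 19 / 2 * T (2 * θ + 4)
def a1 (θ : ℝ) : ℝ := 55 + 37 / 2 * T (2 * θ - 1)

theorem w2n (θ : ℝ) : 0 ≤ w2 θ := by
  have := Tm (show θ + 1 ≤ θ + 3 by linarith); unfold w2; linarith
theorem w1n (θ : ℝ) : 0 ≤ w1 θ := by
  have := Tm (show θ - 1 ≤ θ + 1 by linarith); unfold w1; linarith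
theorem frac {θ : ℝ} (h : θ ∈ Icc (-Real.pi) Real.pi) :
    -(1 / 20) ≤ θ / (20 * Real.pi) ∧ θ / (20 * Real.pi) ≤ 1 / 20 := by
  have hp := Real.pi_pos
  constructor
  · rw [le_div_iff₀ (by positivity)]; linarith [h.1]
  · rw [div_le_iff₀ (by positivity)]; linarith [h.2]
theorem b0p {θ : ℝ} (h : θ ∈ Icc (-Real.pi) Real.pi) : 0 < b0 θ := by
  have := frac h; have := Tl (θ + 3); unfold b0; linarith
theorem b3p {θ : ℝ} (h : θ ∈ Icc (-Real.pi) Real.pi) : 0 < b3 θ := by
  have := frac h; have := Tn (θ - 1); unfold b3; linarith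
theorem wsum (θ : ℝ) : b0 θ + w2 θ + w1 θ + b3 θ = 1 / 2 := by unfold b0 w2 w1 b3; ring
theorem a2r (θ : ℝ) : 101 / 2 ≤ a2 θ ∧ a2 θ ≤ 60 := by
  have := Tn (2 * θ + 4); have := Tl (2 * θ + 4); unfold a2; constructor <;> linarith
theorem a1r (θ : ℝ) : 55 ≤ a1 θ ∧ a1 θ ≤ 147 / 2 := by
  have := Tn (2 * θ - 1); have := Tl (2 * θ - 1); unfold a1; constructor <;> linarith
theorem a2hi {θ : ℝ} (h : -(3 / 2) ≤ θ) : a2 θ = 60 := by
  unfold a2; rw [T1 (by linarith)]; norm_num
theorem a2lo {θ : ℝ} (h : θ ≤ -2) : a2 θ = 101 / 2 := by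
  unfold a2; rw [T0 (by linarith)]; norm_num
theorem a1lo {θ : ℝ} (h : θ ≤ 1 / 2) : a1 θ = 55 := by
  unfold a1; rw [T0 (by linarith)]; norm_num
theorem a1hi {θ : ℝ} (h : 1 ≤ θ) : a1 θ = 147 / 2 := by
  unfold a1; rw [T1 (by linarith)]; norm_num
theorem w2ne {θ : ℝ} (h : w2 θ ≠ 0) : θ < 0 := by
  by_contra h'
  apply h; unfold w2; rw [T1 (by linarith), T1 (by linarith)]; norm_num
theorem w1ne {θ : ℝ} (h : w1 θ ≠ 0) : -1 < θ := by
  by_contra h'
  apply h; unfold w1; rw [T0 (by linarith), T0 (by linarith)]; norm_num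

theorem b0s : ContDiff ℝ (⊤ : ℕ∞) b0 := by
  have := T_smooth; unfold b0; fun_prop
theorem b3s : ContDiff ℝ (⊤ : ℕ∞) b3 := by
  have := T_smooth; unfold b3; fun_prop
theorem w2s : ContDiff ℝ (⊤ : ℕ∞) w2 := by
  have := T_smooth; unfold w2; fun_prop
theorem w1s : ContDiff ℝ (⊤ : ℕ∞) w1 := by
  have := T_smooth; unfold w1; fun_prop
theorem a2s : ContDiff ℝ (⊤ : ℕ∞) a2 := by
  have := T_smooth; unfold a2; fun_prop
theorem a1s : ContDiff ℝ (⊤ : ℕ∞) a1 := by
  have := T_smooth; unfold a1; fun_prop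

theorem Tsh (c θ : ℝ) : HasDerivAt (fun t => T (t + c)) (deriv T (θ + c)) θ := by
  exact (T_der (θ + c)).comp_add_const θ c
theorem Tsh' (c θ : ℝ) : HasDerivAt (fun t => T (t - c)) (deriv T (θ - c)) θ := by
  exact (T_der (θ - c)).comp_sub_const θ c

theorem b0d (θ : ℝ) : HasDerivAt b0 (1 / (20 * Real.pi) - deriv T (θ + 3) / 10) θ :=
  (((hasDerivAt_id θ).div_const _).const_add _).sub ((Tsh 3 θ).div_const _)
theorem w2d (θ : ℝ) : HasDerivAt w2 ((deriv T (θ + 3) - deriv T (θ + 1)) / 10) θ :=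
  ((Tsh 3 θ).sub (Tsh 1 θ)).div_const _
theorem w1d (θ : ℝ) : HasDerivAt w1 ((deriv T (θ + 1) - deriv T (θ - 1)) / 10) θ :=
  ((Tsh 1 θ).sub (Tsh' 1 θ)).div_const _

variable (p0 p3 : S → ℝ) (Q R : ℝ × S → ℝ)

def FF (z : ℝ × S) : ℝ :=
  (T (50 * p0 z.2 - 49 / 2) - 1 / 2) / 2 + b0 z.1 * T (100 * p0 z.2 - 101 / 2) +
    w2 z.1 * T (100 * Q (2 * z.1 + 3, z.2) - a2 z.1) +
    w1 z.1 * T (100 * R (2 * z.1, z.2) - a1 z.1) + b3 z.1 * T (100 * p3 z.2 - 147 / 2) +
    T (50 * p3 z.2 - 37) / 2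

variable {p0 p3 Q R}

theorem FF_smooth (h0 : ContDiff ℝ (⊤ : ℕ∞) p0) (h3 : ContDiff ℝ (⊤ : ℕ∞) p3)
    (hQ : ContDiff ℝ (⊤ : ℕ∞) Q) (hR : ContDiff ℝ (⊤ : ℕ∞) R) :
    ContDiff ℝ (⊤ : ℕ∞) (FF p0 p3 Q R) := by
  have := T_smooth; have := b0s; have := b3s; have := w1s; have := w2s; have := a1s
  have := a2s
  unfold FF; fun_prop

theorem step {h : S → ℝ} {y : S} (hd : DifferentiableAt ℝ h y) (W c a : ℝ) :
    HasFDerivAt (fun y' => W * T (c * h y' - a))
      ((W * c * deriv T (c * h y - a)) • fderiv ℝ h y) y := by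
  have h1 := ((T_der (c * h y - a)).comp_hasFDerivAt y
    ((hd.hasFDerivAt.const_mul c).sub_const a)).const_mul W
  refine HasFDerivAt.congr_fderiv h1 ?_
  ext v; simp only [smul_apply, smul_eq_mul]; ring

theorem slice_diff {H : ℝ × S → ℝ} (hH : ContDiff ℝ (⊤ : ℕ∞) H) (s : ℝ) (y : S) :
    DifferentiableAt ℝ (fun y' => H (s, y')) y :=
  (hH.differentiable (by simp) (s, y)).comp y (by fun_prop)

theorem FF_dy (h0 : ContDiff ℝ (⊤ : ℕ∞) p0) (h3 : ContDiff ℝ (⊤ : ℕ∞) p3)
    (hQ : ContDiff ℝ (⊤ : ℕ∞) Q) (hR : ContDiff ℝ (⊤ : ℕ∞) R) (θ : ℝ) (y : S) :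
    fderiv ℝ (fun y' => FF p0 p3 Q R (θ, y')) y =
      (25 * deriv T (50 * p0 y - 49 / 2) + 100 * (b0 θ * deriv T (100 * p0 y - 101 / 2))) •
          fderiv ℝ p0 y +
        (100 * (w2 θ * deriv T (100 * Q (2 * θ + 3, y) - a2 θ))) •
          fderiv ℝ (fun y' => Q (2 * θ + 3, y')) y +
        (100 * (w1 θ * deriv T (100 * R (2 * θ, y) - a1 θ))) •
          fderiv ℝ (fun y' => R (2 * θ, y')) y +
        (100 * (b3 θ * deriv T (100 * p3 y - 147 / 2)) + 25 * deriv T (50 * p3 y - 37)) •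
          fderiv ℝ p3 y := by
  have d0 := h0.differentiable (by simp) y
  have d3 := h3.differentiable (by simp) y
  have e := ((((((step d0 (1 / 2) 50 (49 / 2)).sub_const (1 / 4)).add
    (step d0 (b0 θ) 100 (101 / 2))).add (step (slice_diff hQ (2 * θ + 3) y) (w2 θ) 100 (a2 θ))).add
    (step (slice_diff hR (2 * θ) y) (w1 θ) 100 (a1 θ))).add (step d3 (b3 θ) 100 (147 / 2))).add
    (step d3 (1 / 2) 50 37)
  refine (HasFDerivAt.congr_fderiv (e.congr_of_eventuallyEq (Eventually.of_forall fun y' => ?_))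
    ?_).fderiv
  · simp only [FF, Pi.add_apply]; ring
  · ext v; simp only [add_apply, smul_apply, smul_eq_mul]; ring

theorem FF_dθ (hQ : ContDiff ℝ (⊤ : ℕ∞) Q) (hR : ContDiff ℝ (⊤ : ℕ∞) R) (θ : ℝ) (y : S)
    (h4 : T (100 * p3 y - 147 / 2) = 0)
    (hA : w2 θ * deriv T (100 * Q (2 * θ + 3, y) - a2 θ) = 0)
    (hB : w1 θ * deriv T (100 * R (2 * θ, y) - a1 θ) = 0) :
    HasDerivAt (fun t => FF p0 p3 Q R (t, y))
      ((1 / (20 * Real.pi) - deriv T (θ + 3) / 10) * T (100 * p0 y - 101 / 2) +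
        (deriv T (θ + 3) - deriv T (θ + 1)) / 10 * T (100 * Q (2 * θ + 3, y) - a2 θ) +
        (deriv T (θ + 1) - deriv T (θ - 1)) / 10 * T (100 * R (2 * θ, y) - a1 θ)) θ := by
  have q : DifferentiableAt ℝ (fun t => 100 * Q (2 * t + 3, y) - a2 t) θ := by
    have := hQ.differentiable (by simp); have := a2s.differentiable (by simp); fun_prop
  have r : DifferentiableAt ℝ (fun t => 100 * R (2 * t, y) - a1 t) θ := by
    have := hR.differentiable (by simp); have := a1s.differentiable (by simp); fun_prop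
  have e2 := (w2d θ).mul ((T_der _).comp θ q.hasDerivAt)
  have e3 := (w1d θ).mul ((T_der _).comp θ r.hasDerivAt)
  have e := ((((((b0d θ).mul_const (T (100 * p0 y - 101 / 2))).const_add
    ((T (50 * p0 y - 49 / 2) - 1 / 2) / 2)).add e2).add e3).add_const
    (T (50 * p3 y - 37) / 2))
  refine HasDerivAt.congr_deriv (e.congr_of_eventuallyEq (Eventually.of_forall fun t => ?_)) ?_
  · simp [FF, h4]
  · simp only [Function.comp]
    rw [← mul_assoc (w2 θ), ← mul_assoc (w1 θ), hA, hB]; ring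

end SDFAux

open SDFAux in
theorem exists_isF {p0 p1 p2 p3 : S → ℝ} {Q R : ℝ × S → ℝ} (hQ : IsMPath Q p0 p2)
    (hR : IsMPath R p1 p3) (h10 : ∀ y, p1 y ≤ p0 y) (h21 : ∀ y, p2 y ≤ p1 y)
    (h32 : ∀ y, p3 y ≤ p2 y) : ∃ F, IsF p0 p3 F := by
  obtain ⟨s0, -, bQ, -, r0, -⟩ := hQ.ends
  obtain ⟨-, s3, bR, -, -, r3⟩ := hR.ends
  have sF := FF_smooth s0 s3 hQ.smooth hR.smooth
  have dy := FF_dy s0 s3 hQ.smooth hR.smooth
  have qb : ∀ s y, p3 y ≤ Q (s, y) ∧ Q (s, y) ≤ p0 y := fun s y =>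
    ⟨(h32 y).trans (bQ s y).1, (bQ s y).2⟩
  have rb : ∀ s y, p3 y ≤ R (s, y) ∧ R (s, y) ≤ p0 y := fun s y =>
    ⟨(bR s y).1, (bR s y).2.trans (h10 y)⟩
  have h30 : ∀ y, p3 y ≤ p0 y := fun y => (h32 y).trans ((h21 y).trans (h10 y))
  obtain lo : ∀ θ ∈ Icc (-Real.pi) Real.pi, ∀ y, (p0 y < 1 / 2 → FF p0 p3 Q R (θ, y) < 0) ∧
      (1 / 2 < p0 y → 0 < FF p0 p3 Q R (θ, y)) ∧ (p0 y = 1 / 2 → FF p0 p3 Q R (θ, y) = 0 ∧
      ∃ c : ℝ, 0 < c ∧ fderiv ℝ (fun y' => FF p0 p3 Q R (θ, y')) y = c • fderiv ℝ p0 y) := by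
    intro θ hθ y
    have q := qb (2 * θ + 3) y; have r := rb (2 * θ) y; have g := h30 y
    have A1 := a1r θ; have A2 := a2r θ
    obtain low : p0 y ≤ 1 / 2 → FF p0 p3 Q R (θ, y) = (T (50 * p0 y - 49 / 2) - 1 / 2) / 2 := by
      intro h
      simp only [FF]
      rw [T0 (x := 100 * p0 y - 101 / 2) (by linarith only [h]),
        T0 (x := 100 * Q (2 * θ + 3, y) - a2 θ) (by linarith only [h, q.2, A2.1]),
        T0 (x := 100 * R (2 * θ, y) - a1 θ) (by linarith only [h, r.2, A1.1]),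
        T0 (x := 100 * p3 y - 147 / 2) (by linarith only [h, g]),
        T0 (x := 50 * p3 y - 37) (by linarith only [h, g])]
      ring
    refine ⟨fun h => ?_, fun h => ?_, fun h => ⟨?_, 25 * deriv T (50 * p0 y - 49 / 2), ?_, ?_⟩⟩
    · rw [low h.le]
      have u := Tlt (x := 50 * p0 y - 49 / 2) (by linarith only [h])
      linarith only [u]
    · have u1 := Tgt (x := 50 * p0 y - 49 / 2) (by linarith only [h])
      have u2 := mul_nonneg (b0p hθ).le (Tn (100 * p0 y - 101 / 2))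
      have u3 := mul_nonneg (w2n θ) (Tn (100 * Q (2 * θ + 3, y) - a2 θ))
      have u4 := mul_nonneg (w1n θ) (Tn (100 * R (2 * θ, y) - a1 θ))
      have u5 := mul_nonneg (b3p hθ).le (Tn (100 * p3 y - 147 / 2))
      have u6 := Tn (50 * p3 y - 37)
      simp only [FF]; linarith only [u1, u2, u3, u4, u5, u6]
    · rw [low h.le, show 50 * p0 y - 49 / 2 = 1 / 2 by linarith only [h], Th]; ring
    · have u := Dp (x := 50 * p0 y - 49 / 2) (by linarith only [h]) (by linarith only [h])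
      linarith only [u]
    · rw [dy, D0 (x := 100 * p0 y - 101 / 2) (by linarith only [h]),
        D0 (x := 100 * Q (2 * θ + 3, y) - a2 θ) (by linarith only [h, q.2, A2.1]),
        D0 (x := 100 * R (2 * θ, y) - a1 θ) (by linarith only [h, r.2, A1.1]),
        D0 (x := 100 * p3 y - 147 / 2) (by linarith only [h, g]),
        D0 (x := 50 * p3 y - 37) (by linarith only [h, g])]
      simp
  obtain hi : ∀ θ ∈ Icc (-Real.pi) Real.pi, ∀ y, (p3 y < 3 / 4 → FF p0 p3 Q R (θ, y) < 1) ∧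
      (3 / 4 < p3 y → 1 < FF p0 p3 Q R (θ, y)) ∧ (p3 y = 3 / 4 → FF p0 p3 Q R (θ, y) = 1 ∧
      ∃ c : ℝ, 0 < c ∧ fderiv ℝ (fun y' => FF p0 p3 Q R (θ, y')) y = c • fderiv ℝ p3 y) := by
    intro θ hθ y
    have q := qb (2 * θ + 3) y; have r := rb (2 * θ) y; have g := h30 y
    have A1 := a1r θ; have A2 := a2r θ; have hs := wsum θ
    obtain high : 3 / 4 ≤ p3 y → FF p0 p3 Q R (θ, y) = 3 / 4 + T (50 * p3 y - 37) / 2 := by
      intro h
      simp only [FF]
      rw [T1 (x := 100 * p0 y - 101 / 2) (by linarith only [h, g]),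
        T1 (x := 100 * Q (2 * θ + 3, y) - a2 θ) (by linarith only [h, q.1, A2.2]),
        T1 (x := 100 * R (2 * θ, y) - a1 θ) (by linarith only [h, r.1, A1.2]),
        T1 (x := 100 * p3 y - 147 / 2) (by linarith only [h]),
        T1 (x := 50 * p0 y - 49 / 2) (by linarith only [h, g])]
      linarith only [hs]
    refine ⟨fun h => ?_, fun h => ?_, fun h => ⟨?_, 25 * deriv T (50 * p3 y - 37), ?_, ?_⟩⟩
    · have u1 := Tlt (x := 50 * p3 y - 37) (by linarith only [h])
      have u2 := mul_le_of_le_one_right (b0p hθ).le (Tl (100 * p0 y - 101 / 2))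
      have u3 := mul_le_of_le_one_right (w2n θ) (Tl (100 * Q (2 * θ + 3, y) - a2 θ))
      have u4 := mul_le_of_le_one_right (w1n θ) (Tl (100 * R (2 * θ, y) - a1 θ))
      have u5 := mul_le_of_le_one_right (b3p hθ).le (Tl (100 * p3 y - 147 / 2))
      have u6 := Tl (50 * p0 y - 49 / 2)
      simp only [FF]; linarith only [u1, u2, u3, u4, u5, u6, hs]
    · rw [high h.le]
      have u := Tgt (x := 50 * p3 y - 37) (by linarith only [h])
      linarith only [u]
    · rw [high h.ge, show 50 * p3 y - 37 = 1 / 2 by linarith only [h], Th]; norm_num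
    · have u := Dp (x := 50 * p3 y - 37) (by linarith only [h]) (by linarith only [h])
      linarith only [u]
    · rw [dy, D1 (x := 100 * p0 y - 101 / 2) (by linarith only [h, g]),
        D1 (x := 100 * Q (2 * θ + 3, y) - a2 θ) (by linarith only [h, q.1, A2.2]),
        D1 (x := 100 * R (2 * θ, y) - a1 θ) (by linarith only [h, r.1, A1.2]),
        D1 (x := 100 * p3 y - 147 / 2) (by linarith only [h]),
        D1 (x := 50 * p0 y - 49 / 2) (by linarith only [h, g])]
      simp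
  refine ⟨FF p0 p3 Q R, sF, ⟨1 / 10, by norm_num, fun θ hθ y => ?_⟩, ?_, lo, hi, ?_⟩
  · have hp := Real.pi_gt_d2
    have h1 := (abs_lt.1 hθ).1
    have h2 := (abs_lt.1 hθ).2
    have e : (θ + 2 * Real.pi) / (20 * Real.pi) = θ / (20 * Real.pi) + 1 / 10 := by
      field_simp; ring
    have v1 : θ + 3 ≤ 0 := by linarith only [hp, h1, h2]
    have v2 : 1 ≤ θ + 2 * Real.pi - 1 := by linarith only [hp, h1, h2]
    simp only [FF, b0, w2, w1, b3]
    rw [T0 (x := θ + 3) v1, T0 (x := θ + 1) (by linarith only [v1]),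
      T0 (x := θ - 1) (by linarith only [v1]),
      T1 (x := θ + 2 * Real.pi + 3) (by linarith only [v2]),
      T1 (x := θ + 2 * Real.pi + 1) (by linarith only [v2]), T1 (x := θ + 2 * Real.pi - 1) v2, e]
    ring
  · intro θ hθ y hF0 hF1 hz
    have hd := (sF.differentiable (by simp) (θ, y)).hasFDerivAt
    rw [hz] at hd
    obtain zy : fderiv ℝ (fun y' => FF p0 p3 Q R (θ, y')) y = 0 := by
      have := hd.comp y ((hasFDerivAt_const θ y).prodMk (hasFDerivAt_id y))
      exact this.fderiv.trans (by simp)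
    obtain zθ : HasDerivAt (fun t => FF p0 p3 Q R (t, y)) 0 θ := by
      have := hd.comp_hasDerivAt θ ((hasDerivAt_id θ).prodMk (hasDerivAt_const θ y))
      exact this
    obtain l0 : 1 / 2 ≤ p0 y := le_of_not_gt fun h => absurd ((lo θ hθ y).1 h) (not_lt.2 hF0)
    obtain l3 : p3 y ≤ 3 / 4 := le_of_not_gt fun h => absurd ((hi θ hθ y).2.1 h) (not_lt.2 hF1)
    have q := qb (2 * θ + 3) y; have r := rb (2 * θ) y; have g := h30 y
    have A1 := a1r θ; have A2 := a2r θ
    rw [dy] at zy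
    have nA := mul_nonneg (w2n θ) (Dn (100 * Q (2 * θ + 3, y) - a2 θ))
    have nB := mul_nonneg (w1n θ) (Dn (100 * R (2 * θ, y) - a1 θ))
    by_cases hα : p0 y < 103 / 200
    · obtain hc : 0 < 25 * deriv T (50 * p0 y - 49 / 2) +
          100 * (b0 θ * deriv T (100 * p0 y - 101 / 2)) := by
        have n1 := Dn (50 * p0 y - 49 / 2)
        have n2 := mul_nonneg (b0p hθ).le (Dn (100 * p0 y - 101 / 2))
        by_cases h : p0 y < 51 / 100
        · have u := Dp (x := 50 * p0 y - 49 / 2) (by linarith only [l0]) (by linarith only [h])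
          linarith only [u, n2]
        · have u := mul_pos (b0p hθ)
            (Dp (x := 100 * p0 y - 101 / 2) (by linarith only [not_lt.1 h]) (by linarith only [hα]))
          linarith only [u, n1]
      rw [D0 (x := 100 * R (2 * θ, y) - a1 θ) (by linarith only [hα, r.2, A1.1]),
        D0 (x := 100 * p3 y - 147 / 2) (by linarith only [hα, g]),
        D0 (x := 50 * p3 y - 37) (by linarith only [hα, g])] at zy
      have ne := r0 y (by linarith only [l0, hα]) (by linarith only [l0, hα])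
      by_cases hθ' : θ ≤ -(3 / 2)
      · have e : (fun y' => Q (2 * θ + 3, y')) = p0 :=
          funext fun y' => hQ.start _ (by linarith only [hθ']) y'
        rw [e, ← add_smul] at zy
        simp only [mul_zero, zero_smul, add_zero, smul_eq_zero] at zy
        rcases zy with h | h
        · linarith only [h, hc, nA]
        · exact ne h
      · rw [D0 (x := 100 * Q (2 * θ + 3, y) - a2 θ)
          (by rw [a2hi (not_le.1 hθ').le]; linarith only [hα, q.2])] at zy
        simp only [mul_zero, zero_smul, add_zero, smul_eq_zero] at zy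
        rcases zy with h | h
        · linarith only [h, hc]
        · exact ne h
    by_cases hβ : 147 / 200 < p3 y
    · obtain hc : 0 < 100 * (b3 θ * deriv T (100 * p3 y - 147 / 2)) +
          25 * deriv T (50 * p3 y - 37) := by
        have n1 := Dn (50 * p3 y - 37)
        have n2 := mul_nonneg (b3p hθ).le (Dn (100 * p3 y - 147 / 2))
        by_cases h : p3 y < 149 / 200
        · have u := mul_pos (b3p hθ)
            (Dp (x := 100 * p3 y - 147 / 2) (by linarith only [hβ]) (by linarith only [h]))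
          linarith only [u, n1]
        · have u := Dp (x := 50 * p3 y - 37) (by linarith only [not_lt.1 h]) (by linarith only [l3])
          linarith only [u, n2]
      rw [D1 (x := 100 * Q (2 * θ + 3, y) - a2 θ) (by linarith only [hβ, q.1, A2.2]),
        D1 (x := 100 * p0 y - 101 / 2) (by linarith only [hβ, g]),
        D1 (x := 50 * p0 y - 49 / 2) (by linarith only [hβ, g])] at zy
      have ne := r3 y (by linarith only [l3, hβ]) (by linarith only [l3, hβ])
      by_cases hθ' : 1 / 2 ≤ θ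
      · have e : (fun y' => R (2 * θ, y')) = p3 :=
          funext fun y' => hR.stop _ (by linarith only [hθ']) y'
        rw [e, add_assoc, ← add_smul] at zy
        simp only [mul_zero, zero_smul, add_zero, zero_add, smul_eq_zero] at zy
        rcases zy with h | h
        · linarith only [h, hc, nB]
        · exact ne h
      · rw [D1 (x := 100 * R (2 * θ, y) - a1 θ)
          (by rw [a1lo (not_le.1 hθ').le]; linarith only [hβ, r.1])] at zy
        simp only [mul_zero, zero_smul, add_zero, zero_add, smul_eq_zero] at zy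
        rcases zy with h | h
        · linarith only [h, hc]
        · exact ne h
    push Not at hα hβ
    rw [D1 (x := 100 * p0 y - 101 / 2) (by linarith only [hα]),
      D1 (x := 50 * p0 y - 49 / 2) (by linarith only [hα]),
      D0 (x := 100 * p3 y - 147 / 2) (by linarith only [hβ]),
      D0 (x := 50 * p3 y - 37) (by linarith only [hβ])] at zy
    simp only [mul_zero, zero_smul, add_zero, zero_add] at zy
    obtain mid : -1 ≤ θ → θ ≤ 0 → Q (2 * θ + 3, y) = p2 y ∧ R (2 * θ, y) = p1 y ∧ a2 θ = 60 ∧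
        a1 θ = 55 := fun h1 h2 =>
      ⟨hQ.stop _ (by linarith only [h1]) y, hR.start _ (by linarith only [h2]) y,
        a2hi (by linarith only [h1]), a1lo (by linarith only [h2])⟩
    obtain one : w2 θ * deriv T (100 * Q (2 * θ + 3, y) - a2 θ) = 0 ∨
        w1 θ * deriv T (100 * R (2 * θ, y) - a1 θ) = 0 := by
      by_contra h
      push Not at h
      obtain ⟨e1, e2, e3, e4⟩ := mid (w1ne (left_ne_zero_of_mul h.2)).le
        (w2ne (left_ne_zero_of_mul h.1)).le
      have k1 := Dne (right_ne_zero_of_mul h.1)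
      have k2 := Dne (right_ne_zero_of_mul h.2)
      rw [e1, e3] at k1; rw [e2, e4] at k2
      linarith only [h21 y, k1.1, k2.2]
    obtain hA : w2 θ * deriv T (100 * Q (2 * θ + 3, y) - a2 θ) = 0 := by
      by_contra h
      have hB := one.resolve_left h
      have k := Dne (right_ne_zero_of_mul h)
      rw [hB] at zy
      simp only [mul_zero, zero_smul, add_zero, smul_eq_zero] at zy
      rcases zy with h' | h'
      · exact h (by linarith only [h'])
      · exact hQ.reg _ y (by linarith only [k.1, A2.1]) (by linarith only [k.2, A2.2]) h'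
    obtain hB : w1 θ * deriv T (100 * R (2 * θ, y) - a1 θ) = 0 := by
      by_contra h
      have k := Dne (right_ne_zero_of_mul h)
      rw [hA] at zy
      simp only [mul_zero, zero_smul, zero_add, smul_eq_zero] at zy
      rcases zy with h' | h'
      · exact h (by linarith only [h'])
      · exact hR.reg _ y (by linarith only [k.1, A1.1]) (by linarith only [k.2, A1.2]) h'
    have e := (FF_dθ (p0 := p0) hQ.smooth hR.smooth θ y
      (T0 (by linarith only [hβ])) hA hB).unique zθ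
    rw [T1 (x := 100 * p0 y - 101 / 2) (by linarith only [hα])] at e
    obtain k1 : deriv T (θ + 3) * (1 - T (100 * Q (2 * θ + 3, y) - a2 θ)) = 0 := by
      by_cases h : deriv T (θ + 3) = 0
      · rw [h, zero_mul]
      · have k := Dne h
        rw [hQ.start _ (by linarith only [k.2]) y, a2lo (by linarith only [k.2]),
          T1 (by linarith only [hα])]; ring
    obtain k2 : 0 ≤ deriv T (θ + 1) *
        (T (100 * R (2 * θ, y) - a1 θ) - T (100 * Q (2 * θ + 3, y) - a2 θ)) := by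
      by_cases h : deriv T (θ + 1) = 0
      · rw [h, zero_mul]
      · have k := Dne h
        obtain ⟨e1, e2, e3, e4⟩ := mid (by linarith only [k.1]) (by linarith only [k.2])
        rw [e1, e2, e3, e4]
        exact mul_nonneg (Dn _) (sub_nonneg.2 (Tm (by linarith only [h21 y])))
    obtain k3 : deriv T (θ - 1) * T (100 * R (2 * θ, y) - a1 θ) = 0 := by
      by_cases h : deriv T (θ - 1) = 0
      · rw [h, zero_mul]
      · have k := Dne h
        rw [hR.stop _ (by linarith only [k.1]) y, a1hi (by linarith only [k.1]),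
          T0 (by linarith only [hβ])]; ring
    have hp : 0 < 1 / (20 * Real.pi) := by have := Real.pi_pos; positivity
    linarith only [e, k1, k2, k3, hp]
  · intro θ hθ y e hev he
    have e3 : fderiv ℝ p3 y = fderiv ℝ p0 y := Filter.EventuallyEq.fderiv_eq hev
    have eq : fderiv ℝ (fun y' => Q (2 * θ + 3, y')) y = fderiv ℝ p0 y := by
      refine Filter.EventuallyEq.fderiv_eq ?_
      filter_upwards [hev] with y' h
      exact le_antisymm (qb _ y').2 (h ▸ (qb _ y').1)
    have er : fderiv ℝ (fun y' => R (2 * θ, y')) y = fderiv ℝ p0 y := by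
      refine Filter.EventuallyEq.fderiv_eq ?_
      filter_upwards [hev] with y' h
      exact le_antisymm (rb _ y').2 (h ▸ (rb _ y').1)
    rw [dy, e3, eq, er, ← add_smul, ← add_smul, ← add_smul, smul_apply,
      smul_eq_mul]
    refine mul_nonneg ?_ he
    have u1 := mul_nonneg (w2n θ) (Dn (100 * Q (2 * θ + 3, y) - a2 θ))
    have u2 := mul_nonneg (w1n θ) (Dn (100 * R (2 * θ, y) - a1 θ))
    have u3 := mul_nonneg (b0p hθ).le (Dn (100 * p0 y - 101 / 2))
    have u4 := mul_nonneg (b3p hθ).le (Dn (100 * p3 y - 147 / 2))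
    have u5 := Dn (50 * p0 y - 49 / 2)
    have u6 := Dn (50 * p3 y - 37)
    linarith only [u1, u2, u3, u4, u5, u6]

end SpunKnot
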