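import Pool.Agent.Work.MP_e1e788_gt.SDA

/-! Regularity of the spun family. -/

open Set Filter Topology

noncomputable section
namespace SpunKnot
variable {S : Type*} [NormedAddCommGroup S] [NormedSpace ℝ S]

namespace SDBAux

theorem neg_comb {c A B : ℝ} (h0 : 0 ≤ c) (h1 : c ≤ 1) (hA : A < 0) (hB : B < 0) :
    A + c * (B - A) < 0 := by
  rcases h0.eq_or_lt with rfl | h
  · simpa using hA
  · nlinarith [mul_pos h (neg_pos.2 hB), mul_nonneg (sub_nonneg.2 h1) (neg_pos.2 hA).le]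

theorem pos_comb {c A B : ℝ} (h0 : 0 ≤ c) (h1 : c ≤ 1) (hA : 0 < A) (hB : 0 < B) :
    0 < A + c * (B - A) := by
  have := neg_comb h0 h1 (neg_neg_of_pos hA) (neg_neg_of_pos hB)
  linarith

theorem dif {E : Type*} [NormedAddCommGroup E] [NormedSpace ℝ E] {f : E → ℝ}
    (h : ContDiff ℝ (⊤ : ℕ∞) f) (x : E) : HasFDerivAt f (fderiv ℝ f x) x :=
  (h.differentiable (by simp) x).hasFDerivAt

/-- derivative of a slice -/
theorem slice {f : ℝ × S → ℝ} (h : ContDiff ℝ (⊤ : ℕ∞) f) (t : ℝ) (y e : S) :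
    fderiv ℝ (fun y' => f (t, y')) y e = fderiv ℝ f (t, y) (0, e) := by
  have := ((dif h (t, y)).comp y (hasFDerivAt_prodMk_right t y)).fderiv
  rw [show (fun y' => f (t, y')) = f ∘ fun y' => (t, y') from rfl, this]
  simp

theorem ex_ne {L : S →L[ℝ] ℝ} (h : L ≠ 0) : ∃ e, L e ≠ 0 := by
  by_contra hn
  push Not at hn
  exact h (ContinuousLinearMap.ext hn)

end SDBAux

open SDBAux

namespace SD
variable (D : SD S) {F : ℝ × S → ℝ}

theorem gS_smooth (hF : IsF D.p0 D.p3 F) :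
    ContDiff ℝ (⊤ : ℕ∞) fun z : ℝ × ℝ × ℝ × S => D.gS F z.1 z.2.1 z.2.2 := by
  have h1 := D.gK_smooth
  have h2 := D.κ_smooth
  have h3 := sigS_smooth
  have h4 := upS_smooth
  have h5 := hF.smooth
  unfold gS
  fun_prop

theorem gS_zero (θ : ℝ) (q : ℝ × S) : D.gS F 0 θ q = D.gK q := by simp [gS]

theorem gS_off {q : ℝ × S} (h : D.Off q) (s θ : ℝ) : D.gS F s θ q = D.p0 q.2 - 1 / 2 := by
  have h0 : D.κ q.2 * sigS q.1 = 0 := by
    have := eta_pos
    rcases h with h | h | h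
    · rw [sigS_zero (Or.inl h.le), mul_zero]
    · rw [sigS_zero (Or.inr (by linarith)), mul_zero]
    · rw [image_eq_zero_of_notMem_tsupport h, zero_mul]
  rw [gS, h0, (D.off h s).2.1]
  ring

/-- the derivative of the spun family -/
theorem gS_fderiv (hF : IsF D.p0 D.p3 F) (s θ τ : ℝ) (y : S) (a t : ℝ) (e : S) :
    fderiv ℝ (fun z : ℝ × ℝ × S => D.gS F s z.1 z.2) (θ, τ, y) (a, t, e) =
      (1 - s * (D.κ y * sigS τ)) * fderiv ℝ D.gK (τ, y) (t, e) +
        s * (D.κ y * sigS τ) * (fderiv ℝ F (θ, y) (a, e) - deriv upS (τ - 1) * t) +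
        s * (fderiv ℝ D.κ y e * sigS τ + D.κ y * (deriv sigS τ * t)) *
          (F (θ, y) - upS (τ - 1) - D.gK (τ, y)) := by
  have p2 : HasFDerivAt (fun z : ℝ × ℝ × S => z.2) (ContinuousLinearMap.snd ℝ ℝ (ℝ × S))
      (θ, τ, y) := hasFDerivAt_snd
  have p1 : HasFDerivAt (fun z : ℝ × ℝ × S => z.1) (ContinuousLinearMap.fst ℝ ℝ (ℝ × S))
      (θ, τ, y) := hasFDerivAt_fst
  have h1 := (dif D.gK_smooth (τ, y)).comp (θ, τ, y) p2
  have h2 := (dif D.κ_smooth y).comp (θ, τ, y) p2.snd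
  have h3 := (sigS_smooth.differentiable (by simp) τ).hasDerivAt.comp_hasFDerivAt (θ, τ, y) p2.fst
  have h4 := (upS_smooth.differentiable (by simp) (τ - 1)).hasDerivAt.comp_hasFDerivAt (θ, τ, y)
    (p2.fst.sub_const 1)
  have h5 := (dif hF.smooth (θ, y)).comp (θ, τ, y) (p1.prodMk p2.snd)
  have h := (h1.add (((h2.mul h3).const_mul s).mul ((h5.sub h4).sub h1))).fderiv
  have e1 : fderiv ℝ (fun z : ℝ × ℝ × S => D.gS F s z.1 z.2) (θ, τ, y) = _ := h
  rw [e1]
  simp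
  ring

theorem gS_main (hF : IsF D.p0 D.p3 F) {s θ τ : ℝ} {y : S} (hs : s ∈ Icc (0 : ℝ) 1)
    (hθ : θ ∈ Icc (-Real.pi) Real.pi) (h : D.gS F s θ (τ, y) = 0) :
    (∃ a e, fderiv ℝ (fun z : ℝ × ℝ × S => D.gS F s z.1 z.2) (θ, τ, y) (a, 0, e) ≠ 0) ∨
      (s < 1 ∧ fderiv ℝ (fun z : ℝ × ℝ × S => D.gS F s z.1 z.2) (θ, τ, y) (0, 1, 0) ≠ 0) := by
  have he := eta_pos
  simp only [D.gS_fderiv hF, mul_zero, sub_zero, add_zero]
  simp only [gS] at h
  obtain ⟨k0, k1⟩ := D.κ_range y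
  obtain ⟨g0, g1⟩ := sigS_range τ
  obtain ⟨u0, u1⟩ := upS_range (τ - 1)
  have c0 : 0 ≤ s * (D.κ y * sigS τ) := mul_nonneg hs.1 (mul_nonneg k0 g0)
  have ck : s * (D.κ y * sigS τ) ≤ D.κ y :=
    (mul_le_of_le_one_left (mul_nonneg k0 g0) hs.2).trans (mul_le_of_le_one_right k0 g1)
  have c1 := ck.trans k1
  obtain ⟨sm0, -, -, -, r0, -⟩ := D.hQ.ends
  obtain ⟨-, sm3, -, -, -, r3⟩ := D.hR.ends
  rcases le_or_gt τ (1 - 3 * eta) with t1 | t1
  · have hu : upS (τ - 1) = 0 := upS_zero (by linarith)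
    have hA : ∀ y', D.gK (τ, y') = D.p0 y' - 1 / 2 := fun y' => by
      rw [(D.first (by linarith) y').2, stp_eq_one_iff.2 (by linarith), hu]
      ring
    have dA : ∀ e, fderiv ℝ D.gK (τ, y) (0, e) = fderiv ℝ D.p0 y e := fun e => by
      rw [← slice D.gK_smooth, funext hA, fderiv_sub_const]
    obtain ⟨l1, l2, l3⟩ := hF.lo θ hθ y
    rw [hA, hu, sub_zero] at h
    rcases lt_trichotomy (D.p0 y) (1 / 2) with p | p | p
    · exact absurd h (neg_comb c0 c1 (sub_neg.2 p) (l1 p)).ne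
    · obtain ⟨f0, c, hc, f1⟩ := l3 p
      obtain ⟨e, he⟩ := ex_ne (r0 y (by rw [p]; norm_num) (by rw [p]; norm_num))
      refine Or.inl ⟨0, e, ?_⟩
      rw [dA, ← slice hF.smooth, f1, hA, hu, f0, p]
      have := pos_comb c0 c1 one_pos hc
      intro h0
      refine mul_ne_zero this.ne' he ?_
      rw [← h0]
      simp
      ring
    · exact absurd h (pos_comb c0 c1 (sub_pos.2 p) (l2 p)).ne'
  rcases le_or_gt 1 τ with t2 | t2
  · have hg : sigS τ = 0 := sigS_zero (Or.inr t2)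
    rw [hg] at h ⊢
    obtain ⟨e, he, -⟩ := D.gK_slice (τ := τ) (y := y) (by simpa using h)
      (Or.inr (Or.inl (by linarith)))
    exact Or.inl ⟨0, e, by simpa using he⟩
  have hA : ∀ y', D.gK (τ, y') = _ := fun y' => (D.first (τ := τ) (by linarith) y').2
  rcases k1.eq_or_lt with k | k
  · have dk : fderiv ℝ D.κ y = 0 :=
      IsLocalMax.fderiv_eq_zero (.of_forall fun y' => (D.κ_range y').2.trans k.ge)
    rcases le_or_gt (1 - eta / 2) τ with t3 | t3
    · have hu : upS (τ - 1) = 1 := upS_one (by linarith)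
      have hA' : ∀ y', D.gK (τ, y') = D.p3 y' - 1 / 2 - D.κ y' * (1 / 4) := fun y' => by
        rw [hA, stp_eq_zero_iff.2 (by linarith), hu]
        ring
      have dA : ∀ e, fderiv ℝ D.gK (τ, y) (0, e) = fderiv ℝ D.p3 y e := fun e => by
        rw [← slice D.gK_smooth, funext hA',
          (((dif sm3 y).sub_const _).fun_sub ((dif D.κ_smooth y).mul_const _)).fderiv, dk]
        simp
      obtain ⟨l1, l2, l3⟩ := hF.hi θ hθ y
      have hA1 : D.gK (τ, y) = D.p3 y - 3 / 4 := by rw [hA', k]; ring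
      rw [hA1, hu] at h
      rcases lt_trichotomy (D.p3 y) (3 / 4) with p | p | p
      · exact absurd h (neg_comb c0 c1 (sub_neg.2 p) (sub_neg.2 (l1 p))).ne
      · obtain ⟨f0, c, hc, f1⟩ := l3 p
        obtain ⟨e, he⟩ := ex_ne (r3 y (by rw [p]; norm_num) (by rw [p]; norm_num))
        refine Or.inl ⟨0, e, ?_⟩
        rw [dA, ← slice hF.smooth, f1, dk]
        have := pos_comb c0 c1 one_pos hc
        intro h0
        refine mul_ne_zero this.ne' he ?_
        rw [← h0]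
        simp
        ring
      · exact absurd h (pos_comb c0 c1 (sub_pos.2 p) (sub_pos.2 (l2 p))).ne'
    · have hg : sigS τ = 1 := sigS_one t1.le t3.le
      rcases hs.2.eq_or_lt with rfl | s1
      · rw [hg, k] at h ⊢
        have f0 : F (θ, y) = upS (τ - 1) := by linarith
        have := hF.reg θ hθ y (f0 ▸ u0) (f0 ▸ u1)
        obtain ⟨⟨a, e⟩, he⟩ := ex_ne this
        exact Or.inl ⟨a, e, by rw [dk]; simpa using he⟩
      · refine Or.inr ⟨s1, ?_⟩
        have dg : deriv sigS τ = 0 :=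
          IsLocalMax.deriv_eq_zero (.of_forall fun t => (sigS_range t).2.trans hg.ge)
        have a1 := D.gK_dec (y := y) t1 t3 (by rw [k]; exact one_pos)
        have a2 := upS_deriv_pos (t := τ - 1) (by linarith) (by linarith)
        rw [hg, k, dg, show ((0 : ℝ), (0 : S)) = 0 from rfl, map_zero, map_zero]
        have a3 := mul_pos (sub_pos.2 s1) (neg_pos.2 a1)
        have a4 := mul_nonneg hs.1 a2.le
        apply ne_of_lt
        nlinarith
  rcases D.tri y with m | ⟨m, m'⟩ | m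
  · exact absurd m.self_of_nhds k.ne
  · obtain ⟨q0, q3, -⟩ := m.self_of_nhds
    have hA1 : D.gK (τ, y) = stp (D.l0 y) - 1 / 2 - D.κ y * (upS (τ - 1) / 4) := by
      rw [hA, q0, q3]; ring
    have b0 := mul_nonneg k0 u0
    have b1 := mul_le_one₀ k1 u0 u1
    obtain ⟨z0, z1⟩ := stp_range (D.l0 y)
    rcases z0.eq_or_lt with z | z0
    · have := (hF.lo θ hθ y).1 (by rw [q0, ← z]; norm_num)
      exact absurd h (neg_comb c0 c1 (by rw [hA1]; linarith) (by linarith)).ne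
    rcases z1.eq_or_lt with z | z1
    · have := (hF.hi θ hθ y).2.1 (by rw [q3, z]; norm_num)
      exact absurd h (pos_comb c0 c1 (by rw [hA1]; linarith) (by linarith)).ne'
    have dk : fderiv ℝ D.κ y D.e0 = 0 :=
      m'.resolve_right fun x => by rcases x with x | x <;> linarith
    have ds := (stp_smooth.differentiable (by simp) (D.l0 y)).hasDerivAt.comp_hasFDerivAt y
      D.l0.hasFDerivAt
    have d0 : fderiv ℝ D.p0 y D.e0 = deriv stp (D.l0 y) := by
      rw [(ds.congr_of_eventuallyEq (m.mono fun y' hy => hy.1)).fderiv]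
      simp [D.l0e0]
    have dA : fderiv ℝ D.gK (τ, y) (0, D.e0) = deriv stp (D.l0 y) := by
      have : (fun y' => D.gK (τ, y')) =ᶠ[𝓝 y]
          fun y' => D.p0 y' - 1 / 2 - D.κ y' * (upS (τ - 1) / 4) :=
        m.mono fun y' hy => by
          beta_reduce
          rw [hA, hy.1, hy.2.1]; ring
      rw [← slice D.gK_smooth, this.fderiv_eq,
        (((dif sm0 y).sub_const _).fun_sub ((dif D.κ_smooth y).mul_const _)).fderiv, ← d0]
      simp [dk]
    have a1 := stp_deriv_pos z0 z1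
    have a2 := hF.mid θ hθ y D.e0 (m.mono fun y' hy => hy.2.1.trans hy.1.symm) (d0 ▸ a1.le)
    rw [slice hF.smooth] at a2
    refine Or.inl ⟨0, D.e0, ne_of_gt ?_⟩
    rw [dA, dk]
    have a3 := mul_pos (sub_pos.2 (ck.trans_lt k)) a1
    have a4 := mul_nonneg c0 a2
    simp only [zero_mul, mul_zero, add_zero]
    linarith
  · have k' : D.κ y = 0 := m.self_of_nhds.1
    rw [k'] at h ⊢
    obtain ⟨e, he, he'⟩ := D.gK_slice (τ := τ) (y := y) (by simpa using h) (Or.inr (Or.inr k))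
    exact Or.inl ⟨0, e, by rw [he']; simpa using he⟩

theorem gS_reg (hF : IsF D.p0 D.p3 F) {s θ : ℝ} (hs : s ∈ Icc (0 : ℝ) 1)
    (hθ : θ ∈ Icc (-Real.pi) Real.pi) {q : ℝ × S} (h : D.gS F s θ q = 0) :
    fderiv ℝ (fun z : ℝ × ℝ × S => D.gS F s z.1 z.2) (θ, q) ≠ 0 := by
  obtain ⟨τ, y⟩ := q
  intro h0
  rcases D.gS_main hF hs hθ h with ⟨a, e, h1⟩ | ⟨-, h1⟩ <;> exact h1 (by rw [h0]; rfl)

theorem gS_fib (hF : IsF D.p0 D.p3 F) {θ : ℝ} (hθ : θ ∈ Icc (-Real.pi) Real.pi) {q : ℝ × S}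
    (h : D.gS F 1 θ q = 0) :
    ∃ a e, fderiv ℝ (fun z : ℝ × ℝ × S => D.gS F 1 z.1 z.2) (θ, q) (a, 0, e) ≠ 0 :=
  (D.gS_main hF (τ := q.1) (y := q.2) ⟨zero_le_one, le_rfl⟩ hθ h).resolve_right
    fun x => lt_irrefl _ x.1
end SD

end SpunKnot
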