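import Pool.Agent.Work.MP_e1e788_gt.Flag
import Pool.Agent.Work.MP_e1e788_gt.FlowA
import Pool.Agent.Work.MP_e1e788_gt.GridA

-- merged part: Pool.Agent.Work.MP_e1e788_gt.CubA
section
/-! Closedness, lifting of collapses through `stack`, simplicial collapses. -/

open Set
open scoped Classical

noncomputable section
namespace SpunKnot

section
variable {κ : Type*} [Fintype κ] [DecidableEq κ]

namespace CubAAux

omit [Fintype κ] in
theorem upd_none {F : ℤ → Set (κ → ℤ)} {c : Option κ → ℤ} {x : ℤ} :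
    Function.update c none x ∈ stack F ↔ (fun j => c (some j)) ∈ F x := by
  have : (fun j => Function.update c none x (some j)) = fun j => c (some j) := by
    funext j; simp
  simp only [stack, mem_setOf_eq, this, Function.update_self]

omit [Fintype κ] in
theorem upd_some {F : ℤ → Set (κ → ℤ)} {c : Option κ → ℤ} {j : κ} {x : ℤ} :
    Function.update c (some j) x ∈ stack F ↔
      Function.update (fun k => c (some k)) j x ∈ F (c none) := by
  have : (fun k => Function.update c (some j) x (some k)) =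
      Function.update (fun k => c (some k)) j x := by
    funext k; simp [Function.update_apply]
  have h : Function.update c (some j) x none = c none := by simp
  simp only [stack, mem_setOf_eq, this, h]

omit [Fintype κ] [DecidableEq κ] in
theorem stack_mono {F F' : ℤ → Set (κ → ℤ)} (h : ∀ n, F n ⊆ F' n) : stack F ⊆ stack F' :=
  fun _ hc => h _ hc

omit [Fintype κ] in
theorem closed_half (j₀ : κ) : Closed {c : κ → ℤ | c j₀ ≤ 0} := by
  intro c hc j hj
  simp only [mem_setOf_eq, Function.update_apply] at hc ⊢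
  obtain ⟨k, hk⟩ := hj
  split_ifs with h
  · subst h; omega
  · exact ⟨hc, hc⟩

omit [Fintype κ] in
theorem pcol_all {F F' : ℤ → Set (κ → ℤ)} (hF : Closed (stack F)) (hF' : Closed (stack F'))
    (j : κ) (i ε : ℤ) (hε : ε = 1 ∨ ε = -1) (hsub : ∀ n, F n ⊆ F' n)
    (h : ∀ n, ∀ c ∈ F' n \ F n, (c j = 2 * i ∨ c j = 2 * i + ε) ∧
      Function.update c j (2 * i) ∈ F' n \ F n ∧ Function.update c j (2 * i + ε) ∈ F' n \ F n ∧
      Function.update c j (2 * i - ε) ∉ F' n) : PCol (stack F) (stack F') := by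
  refine ⟨hF, hF', stack_mono hsub, some j, i, ε, hε, fun c hc => ?_⟩
  simp only [mem_diff, upd_some]
  exact h (c none) (fun k => c (some k)) hc

end CubAAux

theorem closed_stack {F : ℤ → Set (κ → ℤ)} :
    Closed (stack F) ↔ (∀ n, Closed (F n)) ∧ ∀ n, Odd n → F n ⊆ F (n + 1) ∧ F n ⊆ F (n - 1) := by
  constructor
  · intro h
    refine ⟨fun n d hd j hj => ?_, fun n hn => ⟨fun d hd => ?_, fun d hd => ?_⟩⟩
    · have := h (fun o => o.elim n d) hd (some j) hj
      rwa [CubAAux.upd_some, CubAAux.upd_some] at this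
    · have := (h (fun o => o.elim n d) hd none hn).1
      rwa [CubAAux.upd_none] at this
    · have := (h (fun o => o.elim n d) hd none hn).2
      rwa [CubAAux.upd_none] at this
  · rintro ⟨h₁, h₂⟩ c hc j hj
    cases j with
    | none =>
      rw [CubAAux.upd_none, CubAAux.upd_none]
      exact ⟨(h₂ _ hj).1 hc, (h₂ _ hj).2 hc⟩
    | some j =>
      rw [CubAAux.upd_some, CubAAux.upd_some]
      exact h₁ _ _ hc j hj

theorem Col.subset {Y Y' : Set (κ → ℤ)} (h : Col Y Y') : Y ⊆ Y' := by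
  induction h with
  | refl => exact subset_rfl
  | tail _ h ih => exact ih.trans h.2.2.1
theorem Col.closed {Y Y' : Set (κ → ℤ)} (h : Col Y Y') (hc : Closed Y) : Closed Y' := by
  induction h with
  | refl => exact hc
  | tail _ h _ => exact h.2.1
theorem Col.closed' {Y Y' : Set (κ → ℤ)} (h : Col Y Y') (hc : Closed Y') : Closed Y := by
  rcases Relation.ReflTransGen.cases_head h with rfl | ⟨_, h, _⟩
  · exact hc
  · exact h.1

/-- a collapse of one fibre -/
theorem Col.lift {F F' : ℤ → Set (κ → ℤ)} (hF : Closed (stack F)) (hF' : Closed (stack F'))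
    (n₀ : ℤ) (hn : ∀ n, n ≠ n₀ → F n = F' n) (h : Col (F n₀) (F' n₀)) :
    Col (stack F) (stack F') := by
  obtain ⟨c₁, c₂⟩ := closed_stack.1 hF
  obtain ⟨-, c₂'⟩ := closed_stack.1 hF'
  have cl : ∀ Y, Closed Y → F n₀ ⊆ Y → Y ⊆ F' n₀ → Closed (stack (Function.update F n₀ Y)) := by
    intro Y hY s₁ s₂
    have m : ∀ n, F n ⊆ Function.update F n₀ Y n := by
      intro n
      by_cases e : n = n₀
      · rw [e, Function.update_self]; exact s₁
      · rw [Function.update_of_ne e]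
    refine closed_stack.2 ⟨fun n => ?_, fun n ho => ?_⟩
    · by_cases e : n = n₀
      · rw [e, Function.update_self]; exact hY
      · rw [Function.update_of_ne e]; exact c₁ n
    · by_cases e : n = n₀
      · subst e
        rw [Function.update_self, Function.update_of_ne (by omega),
          Function.update_of_ne (by omega), hn _ (by omega), hn _ (by omega)]
        exact ⟨s₂.trans (c₂' n ho).1, s₂.trans (c₂' n ho).2⟩
      · rw [Function.update_of_ne e]
        exact ⟨(c₂ n ho).1.trans (m _), (c₂ n ho).2.trans (m _)⟩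
  have key : ∀ Y, Col (F n₀) Y → Y ⊆ F' n₀ → Col (stack F) (stack (Function.update F n₀ Y)) := by
    intro Y hY
    induction hY with
    | refl => intro _; rw [Function.update_eq_self]; exact Relation.ReflTransGen.refl
    | @tail Y₁ Y₂ h₁ h₂ ih =>
      intro s
      have s₀ := Col.subset h₁
      obtain ⟨a₁, a₂, a₃, j, i, ε, hε, a₄⟩ := h₂
      refine (ih (a₃.trans s)).tail (CubAAux.pcol_all (cl _ a₁ s₀ (a₃.trans s))
        (cl _ a₂ (s₀.trans a₃) s) j i ε hε (fun n => ?_) (fun n => ?_))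
      · by_cases e : n = n₀
        · rw [e, Function.update_self, Function.update_self]; exact a₃
        · rw [Function.update_of_ne e, Function.update_of_ne e]
      · by_cases e : n = n₀
        · rw [e, Function.update_self, Function.update_self]; exact a₄
        · rw [Function.update_of_ne e, Function.update_of_ne e]
          exact fun c hc => absurd hc.1 hc.2
  have e : Function.update F n₀ (F' n₀) = F' := by
    funext n
    by_cases e : n = n₀
    · rw [e, Function.update_self]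
    · rw [Function.update_of_ne e, hn n e]
  simpa only [e] using key _ h subset_rfl

/-- a collapse in the new direction -/
theorem pcol_stack {F F' : ℤ → Set (κ → ℤ)} (hF : Closed (stack F)) (hF' : Closed (stack F'))
    (i ε : ℤ) (hε : ε = 1 ∨ ε = -1) (hsub : ∀ n, F n ⊆ F' n)
    (hn : ∀ n, n ≠ 2 * i → n ≠ 2 * i + ε → F n = F' n)
    (hd : F' (2 * i) \ F (2 * i) = F' (2 * i + ε) \ F (2 * i + ε))
    (hb : Disjoint (F' (2 * i) \ F (2 * i)) (F' (2 * i - ε))) : PCol (stack F) (stack F') := by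
  refine ⟨hF, hF', CubAAux.stack_mono hsub, none, i, ε, hε, fun c hc => ?_⟩
  have hc' : (fun j => c (some j)) ∈ F' (c none) \ F (c none) := hc
  have h₁ : c none = 2 * i ∨ c none = 2 * i + ε := by
    by_contra hne
    rw [not_or] at hne
    rw [hn _ hne.1 hne.2] at hc'
    exact hc'.2 hc'.1
  have h₂ : (fun j => c (some j)) ∈ F' (2 * i) \ F (2 * i) := by
    rcases h₁ with e | e
    · rwa [e] at hc'
    · rwa [e, ← hd] at hc'
  simp only [mem_diff, CubAAux.upd_none]
  exact ⟨h₁, h₂, (hd ▸ h₂ : _ ∈ F' (2 * i + ε) \ F (2 * i + ε)), disjoint_left.1 hb h₂⟩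

/-- the same parallel collapse in all fibres -/
theorem pcol_stack_all {F F' : ℤ → Set (κ → ℤ)} (hF : Closed (stack F)) (hF' : Closed (stack F'))
    (j : κ) (i ε : ℤ) (hε : ε = 1 ∨ ε = -1) (hsub : ∀ n, F n ⊆ F' n)
    (h : ∀ n, ∀ c ∈ F' n \ F n, (c j = 2 * i ∨ c j = 2 * i + ε) ∧
      Function.update c j (2 * i) ∈ F' n \ F n ∧ Function.update c j (2 * i + ε) ∈ F' n \ F n ∧
      Function.update c j (2 * i - ε) ∉ F' n) : PCol (stack F) (stack F') := CubAAux.pcol_all hF hF' j i ε hε hsub h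

theorem Col.zig {j₁ : κ} {Y Y' : Set (κ → ℤ)} (h : Col Y Y') (hb : InBox j₁ (Y' \ Y)) :
    Zig j₁ Y Y' := by
  obtain ⟨N, hN⟩ := hb
  have key : ∀ Z, Col Y Z → Z ⊆ Y' → Zig j₁ Y Z := by
    intro Z hZ
    induction hZ with
    | refl => intro _; exact Relation.EqvGen.refl _
    | @tail Y₁ Y₂ h₁ h₂ ih =>
      intro s
      refine Relation.EqvGen.trans _ _ _ (ih (h₂.2.2.1.trans s))
        (Relation.EqvGen.rel _ _ ⟨h₂, N, fun c hc => hN c ⟨s hc.1, fun h' => hc.2 ?_⟩⟩)
      exact Col.subset h₁ h'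
  exact key _ h subset_rfl
end

variable {V : Type} [Fintype V] [LinearOrder V]

namespace CubAAux

theorem supp_upd {c : V → ℤ} {j : V} {x : ℤ} (h : c j ≠ 0 ∨ x = 0) :
    (Finset.univ.filter fun v => Function.update c j x v ≠ 0) ⊆
      Finset.univ.filter fun v => c v ≠ 0 := by
  intro v hv
  simp only [Finset.mem_filter, Finset.mem_univ, true_and, Function.update_apply] at hv ⊢
  split_ifs at hv with e
  · rcases h with h | h
    · rwa [e]
    · exact absurd h hv
  · exact hv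

theorem supp_upd' (c : V → ℤ) (j : V) (x : ℤ) :
    (Finset.univ.filter fun v => Function.update c j x v ≠ 0) ⊆
      insert j (Finset.univ.filter fun v => c v ≠ 0) := by
  intro v hv
  simp only [Finset.mem_insert, Finset.mem_filter, Finset.mem_univ, true_and,
    Function.update_apply] at hv ⊢
  split_ifs at hv with e
  · exact Or.inl e
  · exact Or.inr hv

theorem upd_cub {L : Set (Finset V)} (h : IsLowerSet L) {c : V → ℤ} (hc : c ∈ cub L) {j w : V}
    {x : ℤ} (hx : x = 0 ∨ x = 1 ∨ x = 2) (hwj : w ≠ j) (hw : c w = 2) {σ : Finset V} (hσ : σ ∈ L)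
    (hs : (Finset.univ.filter fun v => Function.update c j x v ≠ 0) ⊆ σ) :
    Function.update c j x ∈ cub L := by
  refine ⟨fun v => ?_, ⟨w, by rw [Function.update_of_ne hwj, hw]⟩, h hs hσ⟩
  rw [Function.update_apply]
  split_ifs
  · exact hx
  · exact hc.1 v

end CubAAux

theorem closed_cub {L : Set (Finset V)} (h : IsLowerSet L) : Closed (cub L) := by
  intro c hc j hj
  obtain ⟨w, hw⟩ := hc.2.1
  obtain ⟨k, hk⟩ := hj
  have h1 : c j = 1 := by rcases hc.1 j with e | e | e <;> omega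
  have hwj : w ≠ j := by rintro rfl; omega
  exact ⟨CubAAux.upd_cub h hc (by omega) hwj hw hc.2.2 (CubAAux.supp_upd (Or.inl (by omega))),
    CubAAux.upd_cub h hc (by omega) hwj hw hc.2.2 (CubAAux.supp_upd (Or.inl (by omega)))⟩
theorem cub_mono {L L' : Set (Finset V)} (h : L ⊆ L') : cub L ⊆ cub L' := fun _ hc => ⟨hc.1, hc.2.1, h hc.2.2⟩
theorem cub_empty : cub (∅ : Set (Finset V)) = ∅ := by
  ext c; simp [cub]
theorem cub_union (L L' : Set (Finset V)) : cub (L ∪ L') = cub L ∪ cub L' := by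
  ext c; simp only [cub, mem_setOf_eq, mem_union]; tauto
theorem cub_inter (L L' : Set (Finset V)) : cub (L ∩ L') = cub L ∩ cub L' := by
  ext c; simp only [cub, mem_setOf_eq, mem_inter_iff]; tauto
theorem CubAAux.ptb_mem {b : V} {P : ℤ → Set (Finset V)} (hb : {b} ∈ P 0) : ptb b ∈ zcx P := by
  have h0 : ptb b none = 0 := by simp [ptb]
  change (fun v => ptb b (some v)) ∈ cub (P (ptb b none))
  rw [h0]
  refine ⟨fun v => ?_, ⟨b, by simp [ptb]⟩, ?_⟩
  · simp only [ptb]; split_ifs <;> simp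
  · have : (Finset.univ.filter fun v => ptb b (some v) ≠ 0) = {b} := by
      ext v; simp [ptb]
    rwa [this]

theorem zcx_point (b : V) : zcx (at0 ({∅, {b}} : Set (Finset V))) = {ptb b} := by
  ext c
  rw [mem_singleton_iff]
  constructor
  · intro hc
    have hc' : (fun v => c (some v)) ∈ cub (at0 ({∅, {b}} : Set (Finset V)) (c none)) := hc
    obtain ⟨-, ⟨w, hw⟩, h⟩ := hc'
    have h0 : c none = 0 := by
      by_contra h0
      simp [at0, h0] at h
    have hwm : w ∈ Finset.univ.filter fun v => c (some v) ≠ 0 := by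
      have hw' : c (some w) = 2 := hw
      simp only [Finset.mem_filter, Finset.mem_univ, true_and]
      omega
    have h1 : (Finset.univ.filter fun v => c (some v) ≠ 0) = {b} := by
      simp only [at0, h0, if_true, mem_insert_iff, mem_singleton_iff] at h
      rcases h with h | h
      · rw [h] at hwm; simp at hwm
      · exact h
    have hwb : w = b := by rw [h1] at hwm; exact Finset.mem_singleton.1 hwm
    subst hwb
    funext j
    cases j with
    | none => simp [ptb, h0]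
    | some v =>
      by_cases e : v = w
      · subst e; simpa [ptb] using hw
      · have : v ∉ Finset.univ.filter fun v => c (some v) ≠ 0 := by
          rw [h1]; simpa using e
        simpa [ptb, e] using this
  · rintro rfl
    exact CubAAux.ptb_mem (by simp [at0])
theorem tower_at0 {L : Set (Finset V)} (h : IsLowerSet L) : Tower (at0 L) := by
  refine ⟨fun n => ?_, fun n ⟨k, hk⟩ => ?_⟩
  · unfold at0
    split_ifs
    · exact h
    · exact isLowerSet_empty
  · have : at0 L n = ∅ := if_neg (by omega)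
    rw [this]
    exact ⟨empty_subset _, empty_subset _⟩
theorem closed_zcx {P : ℤ → Set (Finset V)} (h : Tower P) : Closed (zcx P) := closed_stack.2 ⟨fun n => closed_cub (h.1 n),
    fun n hn => ⟨cub_mono (h.2 n hn).1, cub_mono (h.2 n hn).2⟩⟩
theorem closed_baseY : Closed (baseY V) := CubAAux.closed_half _
theorem closed_baseS : Closed (baseS V) := CubAAux.closed_half _
theorem closed_baseA : Closed (baseA V) := CubAAux.closed_half _
theorem baseY_subset (b : V) (P : ℤ → Set (Finset V)) : baseY V ⊆ ycx b P := by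
  intro c hc
  have hc' : c none ≤ 0 := hc
  simp only [ycx, stack, mem_setOf_eq, if_pos hc', mem_univ]
theorem ycx_mono (b : V) {P P' : ℤ → Set (Finset V)} (h : ∀ n, P n ⊆ P' n) :
    ycx b P ⊆ ycx b P' := by
  refine CubAAux.stack_mono (fun n => ?_)
  split_ifs
  · exact subset_rfl
  · exact subset_rfl
  · exact CubAAux.stack_mono (fun n => cub_mono (h n))
  · exact subset_rfl
theorem closed_ycx {b : V} {P : ℤ → Set (Finset V)} (h : Tower P) (hb : {b} ∈ P 0) :
    Closed (ycx b P) := by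
  refine closed_stack.2 ⟨fun n => ?_, fun n ⟨k, hk⟩ => ?_⟩
  · split_ifs
    · exact fun _ _ _ _ => ⟨mem_univ _, mem_univ _⟩
    · rintro c rfl j ⟨k, hk⟩
      simp only [ptb] at hk
      split_ifs at hk <;> omega
    · exact closed_zcx h
    · exact fun _ hc => absurd hc (notMem_empty _)
  · by_cases h₀ : n ≤ 0
    · rw [if_pos (by omega : n + 1 ≤ 0), if_pos (by omega : n - 1 ≤ 0)]
      exact ⟨subset_univ _, subset_univ _⟩
    · by_cases h₁ : n = 1
      · subst h₁
        norm_num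
        exact CubAAux.ptb_mem hb
      · rw [if_neg h₀, if_neg h₁, if_neg (by omega : ¬ n = 2)]
        exact ⟨empty_subset _, empty_subset _⟩
theorem slice_mono (b : V) {P P' : ℤ → Set (Finset V)} (h : ∀ n, P n ⊆ P' n)
    (N : Set (Finset V)) : slice b P N ⊆ slice b P' N := by
  refine CubAAux.stack_mono (fun n => ?_)
  split_ifs
  · exact ycx_mono b h
  · exact subset_rfl
  · exact subset_rfl
theorem closed_slice {b : V} {P : ℤ → Set (Finset V)} {N : Set (Finset V)} (h : Tower P)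
    (hb : {b} ∈ P 0) (hN : IsLowerSet N) (hbN : {b} ∈ N) : Closed (slice b P N) := by
  refine closed_stack.2 ⟨fun n => ?_, fun n ⟨k, hk⟩ => ?_⟩
  · split_ifs
    · exact closed_ycx h hb
    · exact closed_ycx (tower_at0 hN) (by simpa [at0] using hbN)
    · exact closed_baseY
  · rw [if_neg (by omega : ¬ n = 2), if_neg (by omega : ¬ n = 0)]
    constructor <;> split_ifs <;> first | exact baseY_subset _ _ | exact subset_rfl

theorem SCol.lower {L L' : Set (Finset V)} (h : SCol L L') : IsLowerSet L ∧ L ⊆ L' := by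
  obtain ⟨hl, a, v, -, -, -, rfl⟩ := h
  exact ⟨fun σ τ hτ hσ => ⟨hl hτ hσ.1, fun ha => hσ.2 (ha.trans hτ)⟩, fun σ hσ => hσ.1⟩
theorem SCol.col {L L' : Set (Finset V)} (h : SCol L L') : Col (cub L) (cub L') := by
  have hL := h.lower.1
  obtain ⟨hl, a, v, ⟨u, hu⟩, hv, hins, hLe⟩ := h
  have sup : ∀ c : V → ℤ, a ⊆ (Finset.univ.filter fun v => c v ≠ 0) ↔ ∀ w ∈ a, c w ≠ 0 := by
    intro c
    simp only [Finset.subset_iff, Finset.mem_filter, Finset.mem_univ, true_and]
  have memL : ∀ c : V → ℤ, c ∈ cub L ↔ c ∈ cub L' ∧ ¬ ∀ w ∈ a, c w ≠ 0 := by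
    intro c
    rw [← sup, hLe]
    simp only [cub, mem_setOf_eq, and_assoc]
  have huv : v ≠ u := by rintro rfl; exact hv hu
  have updv : ∀ (c : V → ℤ) (x : ℤ), (∀ w ∈ a, c w ≠ 0) → ∀ w ∈ a, Function.update c v x w ≠ 0 := by
    intro c x hc w hw
    rw [Function.update_of_ne (by rintro rfl; exact hv hw)]
    exact hc w hw
  have updu : ∀ (c : V → ℤ) (j : V) (x : ℤ), x ≠ 0 → (∀ w ∈ a, c w ≠ 0) →
      ∀ w ∈ a, Function.update c j x w ≠ 0 := by
    intro c j x hx hc w hw
    rw [Function.update_apply]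
    split_ifs
    · exact hx
    · exact hc w hw
  let Y₁ : Set (V → ℤ) := {c | c ∈ cub L' ∧ (c v = 2 ∨ ¬ ∀ w ∈ a, c w ≠ 0)}
  have cY : Closed Y₁ := by
    intro c hc j hj
    have h₁ := closed_cub hl c hc.1 j hj
    rcases hc.2 with h₂ | h₂
    · have hjv : v ≠ j := by
        rintro rfl
        obtain ⟨k, hk⟩ := hj
        omega
      exact ⟨⟨h₁.1, Or.inl (by rw [Function.update_of_ne hjv, h₂])⟩,
        ⟨h₁.2, Or.inl (by rw [Function.update_of_ne hjv, h₂])⟩⟩
    · have h₃ := closed_cub hL c ((memL c).2 ⟨hc.1, h₂⟩) j hj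
      exact ⟨⟨h₁.1, Or.inr ((memL _).1 h₃.1).2⟩, ⟨h₁.2, Or.inr ((memL _).1 h₃.2).2⟩⟩
  have p₁ : PCol (cub L) Y₁ := by
    refine ⟨closed_cub hL, cY, fun c hc => ⟨((memL c).1 hc).1, Or.inr ((memL c).1 hc).2⟩,
      u, 1, -1, Or.inr rfl, fun c hc => ?_⟩
    obtain ⟨⟨h₁, h₂⟩, h₃⟩ := hc
    have h₄ : ∀ w ∈ a, c w ≠ 0 := by
      by_contra h₄
      exact h₃ ((memL c).2 ⟨h₁, h₄⟩)
    have h₅ : c v = 2 := h₂.resolve_right (not_not.2 h₄)
    have h₆ := h₄ u hu
    have h₇ : ∀ x : ℤ, x = 1 ∨ x = 2 → Function.update c u x ∈ Y₁ \ cub L := by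
      intro x hx
      exact ⟨⟨CubAAux.upd_cub hl h₁ (Or.inr hx) huv h₅ h₁.2.2 (CubAAux.supp_upd (Or.inl h₆)),
        Or.inl (by rw [Function.update_of_ne huv, h₅])⟩,
        fun h' => ((memL _).1 h').2 (updu c u x (by omega) h₄)⟩
    refine ⟨by rcases h₁.1 u with e | e | e <;> omega, h₇ _ (by omega), h₇ _ (by omega),
      fun h' => ?_⟩
    have := h'.1.1 u
    rw [Function.update_self] at this
    omega
  have p₂ : PCol Y₁ (cub L') := by
    refine ⟨cY, closed_cub hl, fun c hc => hc.1, v, 0, 1, Or.inl rfl, fun c hc => ?_⟩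
    obtain ⟨h₁, h₂⟩ := hc
    have h₃ : c v ≠ 2 := fun e => h₂ ⟨h₁, Or.inl e⟩
    have h₄ : ∀ w ∈ a, c w ≠ 0 := by
      by_contra h₄
      exact h₂ ⟨h₁, Or.inr h₄⟩
    obtain ⟨w, hw⟩ := h₁.2.1
    have hwv : w ≠ v := by rintro rfl; exact h₃ hw
    have h₇ : ∀ x : ℤ, x = 0 ∨ x = 1 → Function.update c v x ∈ cub L' \ Y₁ := by
      intro x hx
      refine ⟨CubAAux.upd_cub hl h₁ (by omega) hwv hw (hins _ h₁.2.2 ((sup c).2 h₄))
        (CubAAux.supp_upd' c v x), fun h' => ?_⟩
      rcases h'.2 with e | e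
      · rw [Function.update_self] at e; omega
      · exact e (updv c x h₄)
    refine ⟨by rcases h₁.1 v with e | e | e <;> omega, h₇ _ (by omega), h₇ _ (by omega),
      fun h' => ?_⟩
    have := h'.1 v
    rw [Function.update_self] at this
    omega
  exact (Relation.ReflTransGen.single p₁).tail p₂
theorem SCols.col {L L' : Set (Finset V)} (h : SCols L L') : Col (cub L) (cub L') := by
  induction h with
  | refl => exact Relation.ReflTransGen.refl
  | tail _ h ih => exact Relation.ReflTransGen.trans ih (SCol.col h)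
theorem SCols.col_at0 {L L' : Set (Finset V)} (hL : IsLowerSet L) (h : SCols L L') :
    Col (zcx (at0 L)) (zcx (at0 L')) := by
  have hL' : IsLowerSet L' := by
    induction h with
    | refl => exact hL
    | tail _ h _ => exact h.1
  refine Col.lift (closed_zcx (tower_at0 hL)) (closed_zcx (tower_at0 hL')) 0 (fun n hn => ?_) ?_
  · simp only [at0, if_neg hn]
  · simpa only [at0, if_true] using h.col

theorem Col.toYcx {b : V} {P P' : ℤ → Set (Finset V)} (hP : Tower P) (hP' : Tower P')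
    (hb : {b} ∈ P 0) (hb' : {b} ∈ P' 0) (h : Col (zcx P) (zcx P')) : Col (ycx b P) (ycx b P') := by
  refine Col.lift (closed_ycx hP hb) (closed_ycx hP' hb') 2 (fun n hn => ?_) ?_
  · simp only [if_neg hn]
  · simpa using h

theorem Col.toSlice {b : V} {P P' : ℤ → Set (Finset V)} {N : Set (Finset V)} (hP : Tower P)
    (hP' : Tower P') (hb : {b} ∈ P 0) (hb' : {b} ∈ P' 0) (hN : IsLowerSet N) (hbN : {b} ∈ N)
    (h : Col (zcx P) (zcx P')) : Col (slice b P N) (slice b P' N) := by
  refine Col.lift (closed_slice hP hb hN hbN) (closed_slice hP' hb' hN hbN) 2 (fun n hn => ?_) ?_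
  · simp only [if_neg hn]
  · simpa using Col.toYcx hP hP' hb hb' h

namespace CombCore
variable (K : CombCore V)
theorem b_mem : {K.b} ∈ K.N₀ ∧ {K.b} ∈ K.N₁ := by
  have : {K.b} ∈ K.N₀ ∩ K.N₁ := by rw [K.inter]; simp
  exact this
theorem subs : K.N₀ ⊆ K.Z₁ ∧ K.N₁ ⊆ K.Z₁ ∧ K.N₀ ⊆ K.Cy ∧ K.N₁ ⊆ K.Cy := by
  have h₀ : K.N₀ ⊆ K.Z₁ ∩ K.Cy := by rw [K.inter']; exact subset_union_left
  have h₁ : K.N₁ ⊆ K.Z₁ ∩ K.Cy := by rw [K.inter']; exact subset_union_right
  exact ⟨h₀.trans inter_subset_left, h₁.trans inter_subset_left, h₀.trans inter_subset_right,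
    h₁.trans inter_subset_right⟩
end CombCore

namespace CubAAux

omit [Fintype V] [LinearOrder V] in
theorem at0_sub {L : Set (Finset V)} {P : ℤ → Set (Finset V)} (h : L ⊆ P 0) (n : ℤ) :
    at0 L n ⊆ P n := by
  unfold at0
  split_ifs with e
  · rwa [e]
  · exact empty_subset _

omit [Fintype V] [LinearOrder V] in
theorem baseS_sub {G : ℤ → Set (KY V → ℤ)} (h : ∀ m, baseY V ⊆ G m) : baseS V ⊆ stack G :=
  fun _ hc => h _ hc

theorem closed_side {b : V} {N : Set (Finset V)} (hN : IsLowerSet N) (hb : {b} ∈ N) :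
    Closed (side b N) := by
  refine closed_stack.2 ⟨fun n => ?_, fun n ⟨k, hk⟩ => ?_⟩
  · split_ifs
    · exact closed_ycx (tower_at0 hN) hb
    · exact closed_baseY
  · by_cases h₁ : n = 1
    · subst h₁
      norm_num
    · rw [if_neg (by omega : ¬ (0 ≤ n ∧ n ≤ 2))]
      constructor <;> split_ifs <;> first | exact baseY_subset _ _ | exact subset_rfl

theorem slice_sub_side {b : V} {N : Set (Finset V)} {P : ℤ → Set (Finset V)}
    (h : ∀ n, P n ⊆ at0 N n) : slice b P N ⊆ side b N := by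
  refine stack_mono (fun m => ?_)
  by_cases h₂ : m = 2
  · subst h₂
    norm_num
    exact ycx_mono b h
  by_cases h₀ : m = 0
  · subst h₀
    norm_num
  rw [if_neg h₂, if_neg h₀]
  split_ifs <;> first | exact baseY_subset _ _ | exact subset_rfl

theorem closed_ringOf {b : V} {T : ℤ → ℤ → Set (Finset V)} {N : Set (Finset V)}
    (hT : ∀ m, Tower (T m)) (hbT : ∀ m, {b} ∈ T m 0) (hN : IsLowerSet N) (hb : {b} ∈ N)
    (h₁₀ : ∀ n, T 1 n ⊆ at0 N n) (h₅₆ : ∀ n, T 5 n ⊆ at0 N n) (h₁₂ : ∀ n, T 1 n ⊆ T 2 n)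
    (h₃₂ : ∀ n, T 3 n ⊆ T 2 n) (h₃₄ : ∀ n, T 3 n ⊆ T 4 n) (h₅₄ : ∀ n, T 5 n ⊆ T 4 n) :
    Closed (ringOf b T N) := by
  refine closed_stack.2 ⟨fun m => ?_, fun m ⟨k, hk⟩ => ?_⟩
  · split_ifs
    · exact closed_side hN hb
    · exact closed_slice (hT m) (hbT m) hN hb
    · exact closed_baseS
  · by_cases h₁ : m = 1
    · subst h₁
      norm_num
      exact ⟨slice_mono b h₁₂ N, slice_sub_side h₁₀⟩
    by_cases h₃ : m = 3
    · subst h₃
      norm_num
      exact ⟨slice_mono b h₃₄ N, slice_mono b h₃₂ N⟩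
    by_cases h₅ : m = 5
    · subst h₅
      norm_num
      exact ⟨slice_sub_side h₅₆, slice_mono b h₅₄ N⟩
    have s₁ : baseS V ⊆ side b N := baseS_sub (fun m => by
      split_ifs <;> first | exact baseY_subset _ _ | exact subset_rfl)
    have s₂ : ∀ P, baseS V ⊆ slice b P N := fun P => baseS_sub (fun m => by
      split_ifs <;> first | exact baseY_subset _ _ | exact subset_rfl)
    rw [if_neg (by omega : ¬ (m = 0 ∨ m = 6)), if_neg (by omega : ¬ (1 ≤ m ∧ m ≤ 5))]
    constructor <;> split_ifs <;> first | exact s₁ | exact s₂ _ | exact subset_rfl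

theorem closed_line {T : ℤ → Set (KY V → ℤ)} (h₁ : ∀ m, Closed (T m)) (h₂ : ∀ m, baseY V ⊆ T m)
    (h₃ : ∀ m, Odd m → T m ⊆ T (m + 1) ∧ T m ⊆ T (m - 1)) : Closed (line T) := by
  have mono : ∀ m m', T m ⊆ T m' → (stack fun m₂ => if m₂ = 2 then T m else baseY V) ⊆
      stack fun m₂ => if m₂ = 2 then T m' else baseY V := by
    intro m m' h
    refine stack_mono (fun n => ?_)
    split_ifs
    · exact h
    · exact subset_rfl
  refine closed_stack.2 ⟨fun m => closed_stack.2 ⟨fun n => ?_, fun n ⟨k, hk⟩ => ?_⟩,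
    fun m hm => ⟨mono _ _ (h₃ m hm).1, mono _ _ (h₃ m hm).2⟩⟩
  · split_ifs
    · exact h₁ m
    · exact closed_baseY
  · rw [if_neg (by omega : ¬ n = 2)]
    constructor <;> split_ifs <;> first | exact h₂ _ | exact subset_rfl

end CubAAux

namespace Comb
variable (K : Comb V)
theorem closed_ring : Closed K.ring := by
  obtain ⟨b₀, b₁⟩ := K.toCombCore.b_mem
  obtain ⟨s₀, s₁, s₂, s₃⟩ := K.toCombCore.subs
  have hZ : K.Z₁ ⊆ K.P₃ 0 := K.sub₁.trans (K.sub₂ 0)
  refine CubAAux.closed_ringOf (fun m => ?_) (fun m => ?_) K.low₀ b₀ ?_ ?_ ?_ ?_ ?_ ?_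
  · unfold top
    split_ifs
    · exact K.tow₃
    · exact tower_at0 K.low₁
    · exact tower_at0 K.lowC
    · exact tower_at0 K.low₀
  · unfold top
    split_ifs
    · exact hZ (s₀ b₀)
    · exact b₁
    · exact s₂ b₀
    · exact b₀
  · exact fun n => subset_rfl
  · exact fun n => subset_rfl
  · exact CubAAux.at0_sub (s₀.trans hZ)
  · exact CubAAux.at0_sub (s₁.trans hZ)
  · exact CubAAux.at0_sub s₃
  · exact CubAAux.at0_sub s₂
theorem closed_plain : Closed K.plain := CubAAux.closed_ringOf (fun _ => tower_at0 K.low₀) (fun _ => K.toCombCore.b_mem.1) K.low₀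
    K.toCombCore.b_mem.1 (fun _ => subset_rfl) (fun _ => subset_rfl) (fun _ => subset_rfl)
    (fun _ => subset_rfl) (fun _ => subset_rfl) (fun _ => subset_rfl)
theorem closed_line7 : Closed K.line7 := by
  obtain ⟨b₀, b₁⟩ := K.toCombCore.b_mem
  obtain ⟨s₀, s₁, s₂, s₃⟩ := K.toCombCore.subs
  refine CubAAux.closed_line (fun m => ?_) (fun m => ?_) ?_
  · split_ifs
    · exact closed_ycx (tower_at0 K.lowZ) (s₀ b₀)
    · exact closed_ycx (tower_at0 (K.low₀.union K.low₁)) (Or.inl b₀)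
    · exact closed_ycx (tower_at0 K.lowC) (s₂ b₀)
    · exact closed_ycx (tower_at0 K.low₀) b₀
    · exact closed_baseY
  · split_ifs <;> first | exact baseY_subset _ _ | exact subset_rfl
  · rintro m ⟨k, hk⟩
    by_cases h₁ : m = 1
    · subst h₁
      norm_num
      exact ycx_mono _ (CubAAux.at0_sub s₀)
    by_cases h₃ : m = 3
    · subst h₃
      norm_num
      exact ⟨ycx_mono _ (CubAAux.at0_sub (union_subset s₂ s₃)),
        ycx_mono _ (CubAAux.at0_sub (union_subset s₀ s₁))⟩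
    by_cases h₅ : m = 5
    · subst h₅
      norm_num
      exact ycx_mono _ (CubAAux.at0_sub s₂)
    rw [if_neg (by omega : ¬ m = 2), if_neg h₃, if_neg (by omega : ¬ m = 4),
      if_neg (by omega : ¬ (0 ≤ m ∧ m ≤ 6))]
    constructor <;> split_ifs <;> first | exact baseY_subset _ _ | exact subset_rfl
end Comb

end SpunKnot
end
end

-- merged part: Pool.Agent.Work.MP_e1e788_gt.GridC
section
/-! A parallel collapse gives a regular path of neighbourhood functions. -/

open Set Filter Topology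
open scoped Classical

noncomputable section
namespace SpunKnot
variable {κ : Type*} [Fintype κ] [DecidableEq κ]

namespace GridCAux

theorem ML_split (w : Finset κ → ℝ) (t : κ → ℝ) (j : κ) :
    ML w t = (1 - t j) * ML (fun S => w (S.erase j)) t + t j * ML (fun S => w (insert j S)) t := by
  have hu : (Finset.univ : Finset (Finset κ)) =
      Finset.powerset (insert j (Finset.univ.erase j)) := by
    rw [Finset.insert_erase (Finset.mem_univ j), Finset.powerset_univ]
  have hj : j ∉ (Finset.univ : Finset κ).erase j := by simp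
  unfold ML
  rw [hu, Finset.sum_powerset_insert hj, Finset.sum_powerset_insert hj,
    Finset.sum_powerset_insert hj, mul_add, mul_add, Finset.mul_sum, Finset.mul_sum,
    Finset.mul_sum, Finset.mul_sum, ← Finset.sum_add_distrib, ← Finset.sum_add_distrib,
    ← Finset.sum_add_distrib, ← Finset.sum_add_distrib]
  refine Finset.sum_congr rfl fun T hT => ?_
  have hjT : j ∉ T := fun h => hj (Finset.mem_powerset.1 hT h)
  have h1 : Tᶜ = insert j (insert j T)ᶜ := by
    ext k; by_cases hk : k = j <;> simp [hk, hjT]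
  have h2 : j ∉ (insert j T)ᶜ := by simp
  beta_reduce
  rw [Finset.erase_eq_of_notMem hjT, Finset.erase_insert hjT, Finset.insert_idem,
    Finset.prod_insert hjT, h1, Finset.prod_insert h2]
  ring

/-- the fibre of `Y` over the value `a` of the coordinate `j` -/
def fib (Y : Set (κ → ℤ)) (j : κ) (a : ℤ) : Set (κ → ℤ) := {c | Function.update c j a ∈ Y}

omit [Fintype κ] in
theorem acell_erase (x : Sp κ) (S : Finset κ) (j : κ) :
    acell x (S.erase j) = Function.update (acell x S) j (2 * round (x j)) := by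
  funext k
  by_cases hk : k = j
  · subst hk; simp [acell]
  · simp [acell, hk]

omit [Fintype κ] in
theorem acell_insert (x : Sp κ) (S : Finset κ) (j : κ) :
    acell x (insert j S) = Function.update (acell x S) j (2 * round (x j) + sg (x j)) := by
  funext k
  by_cases hk : k = j
  · subst hk; simp [acell]
  · simp [acell, hk]

theorem hY_split (Y : Set (κ → ℤ)) (x : Sp κ) (j : κ) :
    hY Y x = (1 - tt (x j)) * hY (fib Y j (2 * round (x j))) x +
      tt (x j) * hY (fib Y j (2 * round (x j) + sg (x j))) x := by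
  unfold hY
  rw [ML_split _ _ j]
  simp only [acell_erase, acell_insert]
  rfl

omit [Fintype κ] in
theorem fib_closed {Y : Set (κ → ℤ)} (hc : Closed Y) (j : κ) (a : ℤ) : Closed (fib Y j a) := by
  intro c hcY k hk
  by_cases hkj : k = j
  · subst hkj
    simpa [fib] using hcY
  · have := hc _ hcY k (by simpa [hkj] using hk)
    simp only [fib, mem_ofPred_eq]
    rw [Function.update_comm hkj, Function.update_comm hkj]
    simpa [hkj] using this

theorem fib_partial (Y : Set (κ → ℤ)) (j : κ) (a : ℤ) (x : Sp κ) :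
    fderiv ℝ (hY (fib Y j a)) x (EuclideanSpace.single j 1) = 0 := by
  refine hY_partial_zero_of_indep _ fun S _ => ?_
  simp [fib, acell_erase, acell_insert]

theorem sg_cases (u : ℝ) : sg u = 1 ∨ sg u = -1 := by
  unfold sg; split_ifs <;> simp

theorem sg_mul_abs (u : ℝ) : u - (round u : ℤ) = (sg u : ℝ) * |u - (round u : ℤ)| := by
  unfold sg
  split_ifs with h
  · rw [abs_of_nonneg (by linarith)]; simp
  · rw [abs_of_neg (by linarith [not_le.1 h])]; simp

theorem stp_zero {s : ℝ} (h : s ≤ 0) : stp s = 0 :=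
  stp_eq_zero_iff.2 (h.trans eta_pos.le)

theorem stp_one {s : ℝ} (h : 1 / 2 ≤ s) : stp s = 1 :=
  stp_eq_one_iff.2 (by linarith [eta_le])

theorem oneD (u : ℝ) (i ε : ℤ) (hε : ε = 1 ∨ ε = -1) :
    (1 - tt u) * (if 2 * round u = 2 * i ∨ 2 * round u = 2 * i + ε then 1 else 0) +
      tt u * (if 2 * round u + sg u = 2 * i ∨ 2 * round u + sg u = 2 * i + ε then 1 else 0) =
      stp ((ε : ℝ) * (i - u) + 1) - stp ((ε : ℝ) * (i - u)) := by
  have hd := abs_sub_round u
  have hd0 := abs_nonneg (u - (round u : ℤ))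
  have hs := sg_mul_abs u
  have hsg := sg_cases u
  unfold tt
  generalize round u = ρ at *
  generalize sg u = σ at *
  generalize |u - (ρ : ℝ)| = d at *
  obtain ⟨m, hm⟩ : ∃ m : ℤ, m = ε * (i - ρ) := ⟨_, rfl⟩
  have hz : (ε : ℝ) * (i - u) = m - (ε * σ : ℤ) * d := by
    rw [hm]; push_cast; linear_combination (-(ε : ℝ)) * hs
  rw [hz]
  have hes : ε * σ = 1 ∨ ε * σ = -1 := by
    rcases hε with rfl | rfl <;> rcases hsg with rfl | rfl <;> simp
  have c1 : (2 * ρ = 2 * i ∨ 2 * ρ = 2 * i + ε) ↔ m = 0 := by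
    rcases hε with rfl | rfl <;> omega
  have c2 : (2 * ρ + σ = 2 * i ∨ 2 * ρ + σ = 2 * i + ε) ↔ ε * σ - 1 = 2 * m := by
    rcases hε with rfl | rfl <;> rcases hsg with rfl | rfl <;> omega
  simp only [c1, c2]
  generalize ε * σ = τ at *
  rcases lt_trichotomy m 0 with h | h | h
  · have hm1 : (m : ℝ) ≤ -1 := by exact_mod_cast (show m ≤ -1 by omega)
    rw [if_neg h.ne]
    rcases hes with rfl | rfl
    · rw [if_neg (by omega), stp_zero (s := _ + 1) (by push_cast; linarith),
        stp_zero (s := _ - _) (by push_cast; linarith)]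
      ring
    · rw [stp_zero (s := _ - _) (by push_cast; linarith)]
      by_cases h1 : m = -1
      · subst h1
        rw [if_pos (by omega)]
        have : ((-1 : ℤ) : ℝ) - ((-1 : ℤ) : ℝ) * d + 1 = d := by push_cast; ring
        rw [this]; ring
      · have hm2 : (m : ℝ) ≤ -2 := by exact_mod_cast (show m ≤ -2 by omega)
        rw [if_neg (by omega), stp_zero (s := _ + 1) (by push_cast; linarith)]
        ring
  · subst h
    rw [if_pos rfl, stp_one (s := _ + 1) (by rcases hes with rfl | rfl <;> push_cast <;> linarith)]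
    rcases hes with rfl | rfl
    · rw [if_pos (by omega), stp_zero (s := _ - _) (by push_cast; linarith)]
      ring
    · rw [if_neg (by omega)]
      have : ((0 : ℤ) : ℝ) - ((-1 : ℤ) : ℝ) * d = d := by push_cast; ring
      rw [this]; ring
  · have hm1 : (1 : ℝ) ≤ m := by exact_mod_cast (show 1 ≤ m by omega)
    rw [if_neg h.ne', if_neg (by omega),
      stp_one (s := _ + 1) (by rcases hes with rfl | rfl <;> push_cast <;> linarith),
      stp_one (s := _ - _) (by rcases hes with rfl | rfl <;> push_cast <;> linarith)]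
    ring

/-- the data of a parallel collapse -/
structure Dat (Y Y' : Set (κ → ℤ)) (j : κ) (i ε : ℤ) : Prop where
  cl : Closed Y
  cl' : Closed Y'
  sub : Y ⊆ Y'
  he : ε = 1 ∨ ε = -1
  col : ∀ c ∈ Y' \ Y, (c j = 2 * i ∨ c j = 2 * i + ε) ∧ Function.update c j (2 * i) ∈ Y' \ Y ∧
      Function.update c j (2 * i + ε) ∈ Y' \ Y

/-- probability that the rest cell is collapsed -/
def PP (Y Y' : Set (κ → ℤ)) (j : κ) (i : ℤ) : Sp κ → ℝ := hY (fib (Y' \ Y)ᶜ j (2 * i))

/-- the moving front -/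
def GG (Y Y' : Set (κ → ℤ)) (j : κ) (i ε : ℤ) (σ : ℝ) (x : Sp κ) : ℝ :=
  hY Y' x + PP Y Y' j i x * (stp ((ε : ℝ) * (i - x j) + σ) - stp ((ε : ℝ) * (i - x j)))

variable {Y Y' : Set (κ → ℤ)} {j : κ} {i ε : ℤ}

omit [Fintype κ] in
theorem Dat.mem_iff (h : Dat Y Y' j i ε) (c : κ → ℤ) (a : ℤ) :
    Function.update c j a ∈ Y' \ Y ↔
      (a = 2 * i ∨ a = 2 * i + ε) ∧ Function.update c j (2 * i) ∈ Y' \ Y := by
  constructor
  · intro hc
    have := h.col _ hc
    simp only [Function.update_self, Function.update_idem] at this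
    exact ⟨this.1, this.2.1⟩
  · rintro ⟨rfl | rfl, hc⟩
    · exact hc
    · have := h.col _ hc
      simp only [Function.update_self, Function.update_idem] at this
      exact this.2.2

theorem Dat.fib_diff (h : Dat Y Y' j i ε) (a : ℤ) (x : Sp κ) :
    hY (fib Y j a) x = hY (fib Y' j a) x +
      PP Y Y' j i x * (if a = 2 * i ∨ a = 2 * i + ε then 1 else 0) := by
  unfold PP hY ML
  rw [Finset.sum_mul, ← Finset.sum_add_distrib]
  refine Finset.sum_congr rfl fun S _ => ?_
  have h1 : (acell x S ∈ fib Y' j a ∧ acell x S ∉ fib Y j a) ↔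
      (a = 2 * i ∨ a = 2 * i + ε) ∧ acell x S ∉ fib (Y' \ Y)ᶜ j (2 * i) := by
    have := h.mem_iff (acell x S) a
    simpa [fib] using this
  have h2 : acell x S ∈ fib Y j a → acell x S ∈ fib Y' j a := fun h3 => h.sub h3
  by_cases hA : acell x S ∈ fib (Y' \ Y)ᶜ j (2 * i) <;>
    by_cases hD : (a = 2 * i ∨ a = 2 * i + ε) <;>
    by_cases hB : acell x S ∈ fib Y' j a <;> by_cases hC : acell x S ∈ fib Y j a <;>
    first
    | (exfalso; tauto)
    | (simp only [hA, hB, hC, hD, if_true, if_false]; ring)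

theorem Dat.GG_one (h : Dat Y Y' j i ε) : GG Y Y' j i ε 1 = hY Y := by
  funext x
  unfold GG
  rw [hY_split Y x j, hY_split Y' x j, h.fib_diff, h.fib_diff, ← oneD (x j) i ε h.he]
  ring

theorem PP_nonneg (x : Sp κ) : 0 ≤ PP Y Y' j i x := (hY_range _ x).1

theorem GG_mono (x : Sp κ) : Monotone fun σ => GG Y Y' j i ε σ x := by
  intro a b hab
  have := stp_mono (show (ε : ℝ) * (i - x j) + a ≤ (ε : ℝ) * (i - x j) + b by linarith)
  have h2 := PP_nonneg (Y := Y) (Y' := Y') (j := j) (i := i) x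
  simp only [GG]
  nlinarith

theorem GG_zero : GG Y Y' j i ε 0 = hY Y' := by
  funext x; simp [GG]

theorem hY_diff (Y : Set (κ → ℤ)) (x : Sp κ) : DifferentiableAt ℝ (hY Y) x :=
  ((hY_smooth Y).differentiable (by simp)).differentiableAt

theorem stp_diff (s : ℝ) : DifferentiableAt ℝ stp s :=
  (stp_smooth.differentiable (by simp)).differentiableAt

omit [DecidableEq κ] in
theorem comp_proj {g : ℝ → ℝ} {g' : ℝ} {x : Sp κ} (h : HasDerivAt g g' (x j)) :
    HasFDerivAt (fun y : Sp κ => g (y j)) (g' • (EuclideanSpace.proj j : Sp κ →L[ℝ] ℝ)) x :=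
  HasDerivAt.comp_hasFDerivAt (h₂ := g) (f := fun y : Sp κ => y j) x h
    (EuclideanSpace.proj j : Sp κ →L[ℝ] ℝ).hasFDerivAt

omit [DecidableEq κ] in
theorem front_hasFDeriv (σ : ℝ) (x : Sp κ) :
    HasFDerivAt (fun y : Sp κ => stp ((ε : ℝ) * (i - y j) + σ))
      ((deriv stp ((ε : ℝ) * (i - x j) + σ) * (-ε)) • (EuclideanSpace.proj j : Sp κ →L[ℝ] ℝ)) x := by
  have h1 : HasDerivAt (fun u : ℝ => stp ((ε : ℝ) * (i - u) + σ))
      (deriv stp ((ε : ℝ) * (i - x j) + σ) * (-ε)) (x j) := by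
    have h0 : HasDerivAt (fun u : ℝ => (ε : ℝ) * (i - u) + σ) (-ε) (x j) := by
      simpa using (((hasDerivAt_id (x j)).const_sub (i : ℝ)).const_mul (ε : ℝ)).add_const σ
    exact (stp_diff _).hasDerivAt.comp (x j) h0
  exact comp_proj h1

theorem GG_diff (σ : ℝ) (x : Sp κ) : DifferentiableAt ℝ (GG Y Y' j i ε σ) x := by
  have h0 := front_hasFDeriv (j := j) (i := i) (ε := ε) 0 x
  simp only [add_zero] at h0
  exact (hY_diff Y' x).add ((hY_diff _ x).mul
    ((front_hasFDeriv σ x).differentiableAt.sub h0.differentiableAt))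

theorem GG_fderiv (σ : ℝ) (x v : Sp κ) :
    fderiv ℝ (GG Y Y' j i ε σ) x v = fderiv ℝ (hY Y') x v +
      fderiv ℝ (PP Y Y' j i) x v *
        (stp ((ε : ℝ) * (i - x j) + σ) - stp ((ε : ℝ) * (i - x j))) +
      PP Y Y' j i x * ((deriv stp ((ε : ℝ) * (i - x j) + σ) - deriv stp ((ε : ℝ) * (i - x j))) *
        (-ε * v j)) := by
  have h0 := front_hasFDeriv (j := j) (i := i) (ε := ε) 0 x
  simp only [add_zero] at h0
  have hP : HasFDerivAt (PP Y Y' j i) (fderiv ℝ (PP Y Y' j i) x) x := (hY_diff _ x).hasFDerivAt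
  have := ((hY_diff Y' x).hasFDerivAt.add 
    (hP.mul ((front_hasFDeriv (j := j) (i := i) (ε := ε) σ x).sub h0))).fderiv
  have h2 : fderiv ℝ (GG Y Y' j i ε σ) x = _ := this
  rw [h2]
  simp
  ring

theorem tt_diff {u : ℝ} (h0 : 0 < tt u) (h1 : tt u < 1) :
    (∀ᶠ w in 𝓝 u, round w = round u ∧ sg w = sg u) ∧ DifferentiableAt ℝ tt u := by
  have a0 : eta < |u - (round u : ℤ)| := by
    by_contra hc
    exact h0.ne' (stp_eq_zero_iff.2 (not_lt.1 hc))
  have a1 : |u - (round u : ℤ)| < 2 * eta := by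
    by_contra hc
    exact h1.ne (stp_eq_one_iff.2 (not_lt.1 hc))
  have he := eta_pos
  have he' := eta_le
  have hA : ∀ᶠ w in 𝓝 u, round w = round u ∧ sg w = sg u := by
    filter_upwards [Metric.ball_mem_nhds u he] with w hw
    rw [Metric.mem_ball, Real.dist_eq, abs_lt] at hw
    have hr : round w = round u := by
      rw [round_eq, Int.floor_eq_iff]
      rw [abs_lt] at a1
      constructor <;> linarith
    refine ⟨hr, ?_⟩
    unfold sg
    rw [hr]
    rcases le_or_gt ((round u : ℤ) : ℝ) u with h | h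
    · rw [abs_of_nonneg (by linarith)] at a0
      rw [if_pos h, if_pos (by linarith)]
    · rw [abs_of_neg (by linarith)] at a0
      rw [if_neg (not_le.2 h), if_neg (not_le.2 (by linarith))]
  refine ⟨hA, ?_⟩
  have hB : tt =ᶠ[𝓝 u] fun w => stp |w - (round u : ℤ)| := by
    filter_upwards [hA] with w hw
    unfold tt; rw [hw.1]
  refine DifferentiableAt.congr_of_eventuallyEq ?_ hB
  refine (stp_diff _).comp u ?_
  refine DifferentiableAt.abs (by fun_prop) ?_
  intro h; rw [h, abs_zero] at a0; linarith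

theorem hY_partial_split (Y : Set (κ → ℤ)) {x : Sp κ} {k : κ} (hk : k ≠ j) (h0 : 0 < tt (x j))
    (h1 : tt (x j) < 1) :
    fderiv ℝ (hY Y) x (EuclideanSpace.single k 1) =
      (1 - tt (x j)) * fderiv ℝ (hY (fib Y j (2 * round (x j)))) x (EuclideanSpace.single k 1) +
      tt (x j) * fderiv ℝ (hY (fib Y j (2 * round (x j) + sg (x j)))) x
        (EuclideanSpace.single k 1) := by
  obtain ⟨hA, hB⟩ := tt_diff h0 h1
  have hc : ContinuousAt (fun y : Sp κ => y j) x :=
    (EuclideanSpace.proj j : Sp κ →L[ℝ] ℝ).continuous.continuousAt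
  have hE : hY Y =ᶠ[𝓝 x] fun y => (1 - tt (y j)) * hY (fib Y j (2 * round (x j))) y +
      tt (y j) * hY (fib Y j (2 * round (x j) + sg (x j))) y := by
    filter_upwards [hc.eventually hA] with y hy
    rw [hY_split Y y j, hy.1, hy.2]
  have hT : HasFDerivAt (fun y : Sp κ => tt (y j))
      (deriv tt (x j) • (EuclideanSpace.proj j : Sp κ →L[ℝ] ℝ)) x :=
    comp_proj hB.hasDerivAt
  have := (((hT.const_sub 1).mul (hY_diff (fib Y j (2 * round (x j))) x).hasFDerivAt).add
    (hT.mul (hY_diff (fib Y j (2 * round (x j) + sg (x j))) x).hasFDerivAt)).fderiv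
  rw [hE.fderiv_eq]
  have h2 : fderiv ℝ (fun y : Sp κ => (1 - tt (y j)) * hY (fib Y j (2 * round (x j))) y +
      tt (y j) * hY (fib Y j (2 * round (x j) + sg (x j))) y) x = _ := this
  rw [h2]
  simp [hk.symm]

theorem Dat.reg (h : Dat Y Y' j i ε) {σ : ℝ} (hs0 : 0 ≤ σ) (hs1 : σ ≤ 1) (x : Sp κ)
    (h0 : 0 < GG Y Y' j i ε σ x) (h1 : GG Y Y' j i ε σ x < 1) :
    fderiv ℝ (GG Y Y' j i ε σ) x ≠ 0 := by
  intro hD
  have hlo : ∀ y, hY Y' y ≤ GG Y Y' j i ε σ y := fun y => by
    rw [← GG_zero (Y := Y) (j := j) (i := i) (ε := ε)]; exact GG_mono y hs0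
  have hhi : ∀ y, GG Y Y' j i ε σ y ≤ hY Y y := fun y => by
    rw [← h.GG_one]; exact GG_mono y hs1
  rcases (hlo x).eq_or_lt with e | hlo'
  · have hm : IsLocalMin (fun y => GG Y Y' j i ε σ y - hY Y' y) x :=
      Eventually.of_forall fun y => by simp only [e, sub_self]; linarith [hlo y]
    have hz := hm.fderiv_eq_zero
    rw [fderiv_fun_sub (GG_diff σ x) (hY_diff Y' x), hD, zero_sub, neg_eq_zero] at hz
    obtain ⟨k, hk⟩ := hY_partial_ne h.cl' (e ▸ h0) (e ▸ h1)
    exact hk (by rw [hz]; rfl)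
  rcases (hhi x).eq_or_lt with e | hhi'
  · have hm : IsLocalMin (fun y => hY Y y - GG Y Y' j i ε σ y) x :=
      Eventually.of_forall fun y => by simp only [e, sub_self]; linarith [hhi y]
    have hz := hm.fderiv_eq_zero
    rw [fderiv_fun_sub (hY_diff Y x) (GG_diff σ x), hD, sub_zero] at hz
    obtain ⟨k, hk⟩ := hY_partial_ne h.cl (e ▸ h0) (e ▸ h1)
    exact hk (by rw [hz]; rfl)
  have dS := fun v => GG_fderiv (Y := Y) (Y' := Y') (j := j) (i := i) (ε := ε) σ x v
  have d1 := fun v => GG_fderiv (Y := Y) (Y' := Y') (j := j) (i := i) (ε := ε) 1 x v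
  rw [h.GG_one] at d1
  rw [← h.GG_one] at hhi'
  simp only [hD, zero_apply] at dS
  have hP0 := PP_nonneg (Y := Y) (Y' := Y') (j := j) (i := i) x
  simp only [GG] at hlo' hhi'
  have hPj : fderiv ℝ (PP Y Y' j i) x (EuclideanSpace.single j 1) = 0 := fib_partial _ j _ x
  obtain ⟨z, hz⟩ : ∃ z : ℝ, z = (ε : ℝ) * (i - x j) := ⟨_, rfl⟩
  rw [← hz] at hlo' hhi' dS d1
  have hP : 0 < PP Y Y' j i x := by
    rcases hP0.eq_or_lt with e | e
    · rw [← e] at hlo'; simp at hlo'
    · exact e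
  have c0 : stp z < stp (z + σ) := by
    by_contra hc; nlinarith [not_lt.1 hc]
  have c1 : stp (z + σ) < stp (z + 1) := by
    by_contra hc; nlinarith [not_lt.1 hc]
  have hpos : 0 < deriv stp (z + σ) :=
    stp_deriv_pos (by linarith [(stp_range z).1]) (by linarith [(stp_range (z + 1)).2])
  have he := eta_pos
  have he' := eta_le
  have hε2 : (ε : ℝ) * ε = 1 := by rcases h.he with e | e <;> simp [e]
  have dSj := dS (EuclideanSpace.single j 1)
  have d1j := d1 (EuclideanSpace.single j 1)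
  simp only [hPj, PiLp.single_apply, if_true, zero_mul, add_zero, mul_one] at dSj d1j
  have hPd := mul_pos hP hpos
  -- the easy case
  have easy : 0 ≤ -(ε : ℝ) * fderiv ℝ (hY Y') x (EuclideanSpace.single j 1) →
      0 ≤ -(ε : ℝ) * fderiv ℝ (hY Y) x (EuclideanSpace.single j 1) → False := by
    intro a b
    rcases le_total z 0 with hz0 | hz0
    · rw [stp_deriv_zero (Or.inl (stp_zero hz0))] at dSj
      have : -(ε : ℝ) * fderiv ℝ (hY Y') x (EuclideanSpace.single j 1) =
          -(PP Y Y' j i x * deriv stp (z + σ)) := by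
        linear_combination (ε : ℝ) * dSj + (-(PP Y Y' j i x * deriv stp (z + σ))) * hε2
      linarith
    · rw [stp_deriv_zero (s := z + 1) (Or.inr (stp_one (by linarith)))] at d1j
      have : -(ε : ℝ) * fderiv ℝ (hY Y) x (EuclideanSpace.single j 1) =
          -(PP Y Y' j i x * deriv stp (z + σ)) := by
        linear_combination (ε : ℝ) * dSj - (ε : ℝ) * d1j +
          (-(PP Y Y' j i x * deriv stp (z + σ))) * hε2
      linarith
  by_cases hpure : tt (x j) = 0 ∨ tt (x j) = 1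
  · refine easy ?_ ?_ <;> rw [hY_partial_zero_of_pure _ hpure] <;> simp
  by_cases hsg : sg (x j) = -ε
  · have a := hY_partial_nonneg h.cl' x j
    have b := hY_partial_nonneg h.cl x j
    rw [hsg] at a b
    push_cast at a b
    exact easy a b
  have hsg' : sg (x j) = ε := by
    rcases sg_cases (x j) with e | e <;> rcases h.he with e' | e' <;> omega
  push Not at hpure
  have t0 : 0 < tt (x j) := lt_of_le_of_ne (stp_range _).1 hpure.1.symm
  have t1 : tt (x j) < 1 := lt_of_le_of_ne (stp_range _).2 hpure.2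
  have a0 : eta < |x j - (round (x j) : ℤ)| := by
    by_contra hc
    exact t0.ne' (stp_eq_zero_iff.2 (not_lt.1 hc))
  have a1 : |x j - (round (x j) : ℤ)| < 2 * eta := by
    by_contra hc
    exact t1.ne (stp_eq_one_iff.2 (not_lt.1 hc))
  have z0 : eta < z + 1 := by
    by_contra hc
    have := stp_eq_zero_iff.2 (not_lt.1 hc)
    linarith [(stp_range (z + σ)).1]
  have z1 : z < 2 * eta := by
    by_contra hc
    have := stp_eq_one_iff.2 (not_lt.1 hc)
    linarith [(stp_range (z + σ)).2]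
  have hround : round (x j) = i := by
    have hs := sg_mul_abs (x j)
    rw [hsg'] at hs
    have hz' : z = ((ε * (i - round (x j)) : ℤ) : ℝ) - |x j - (round (x j) : ℤ)| := by
      push_cast
      linear_combination hz - (ε : ℝ) * hs - |x j - (round (x j) : ℤ)| * hε2
    have m0 : (-1 : ℝ) < ((ε * (i - round (x j)) : ℤ) : ℝ) := by linarith
    have m1 : ((ε * (i - round (x j)) : ℤ) : ℝ) < 1 := by linarith
    have m0' : -1 < ε * (i - round (x j)) := by exact_mod_cast m0
    have m1' : ε * (i - round (x j)) < 1 := by exact_mod_cast m1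
    rcases h.he with e | e <;> rw [e] at m0' m1' <;> omega
  -- the other partial derivatives vanish
  have hk0 : ∀ k, k ≠ j → fderiv ℝ (hY Y) x (EuclideanSpace.single k 1) = 0 := by
    intro k hk
    have a := hY_partial_nonneg h.cl' x k
    have b := hY_partial_nonneg h.cl x k
    have e1 := dS (EuclideanSpace.single k 1)
    have e2 := d1 (EuclideanSpace.single k 1)
    simp only [PiLp.single_apply, if_neg hk.symm, mul_zero, add_zero] at e1 e2
    generalize fderiv ℝ (hY Y) x (EuclideanSpace.single k 1) = A at *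
    generalize fderiv ℝ (hY Y') x (EuclideanSpace.single k 1) = B at *
    generalize fderiv ℝ (PP Y Y' j i) x (EuclideanSpace.single k 1) = C at *
    have key : (stp (z + 1) - stp (z + σ)) * ((sg (x k) : ℝ) * B) +
        (stp (z + σ) - stp z) * ((sg (x k) : ℝ) * A) = 0 := by
      linear_combination (-(sg (x k) : ℝ) * (stp (z + 1) - stp z)) * e1 +
        ((sg (x k) : ℝ) * (stp (z + σ) - stp z)) * e2
    have k1 := mul_nonneg (sub_pos.2 c1).le a
    have k2 : (stp (z + σ) - stp z) * ((sg (x k) : ℝ) * A) = 0 :=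
      le_antisymm (by linarith) (mul_nonneg (sub_pos.2 c0).le b)
    rcases mul_eq_zero.1 k2 with e | e
    · linarith
    · rcases sg_cases (x k) with e' | e' <;> simpa [e'] using e
  -- an active cell over the vertex lies in `Y`
  have hin : hY (fib Y j (2 * i)) x < 1 := by
    refine lt_of_le_of_ne (hY_range _ x).2 fun e => ?_
    rw [hY_eq_one_iff] at e
    have hz1 : fderiv ℝ (hY Y) x (EuclideanSpace.single j 1) = 0 := by
      refine hY_partial_zero_of_indep _ fun S hS => ?_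
      have h3 := e S hS
      simp only [fib, mem_ofPred_eq] at h3
      rw [acell_erase, acell_insert, hround, hsg']
      refine iff_of_false (fun h4 => h3 ?_) h3
      have h5 := h.cl _ h4 j (by
        simp only [Function.update_self]
        rcases h.he with e' | e' <;> rw [e']
        · exact odd_two_mul_add_one i
        · exact ⟨i - 1, by ring⟩)
      simp only [Function.update_self, Function.update_idem] at h5
      rcases h.he with e' | e' <;> rw [e'] at h5
      · simpa using h5.2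
      · simpa using h5.1
    have hz2 : fderiv ℝ (hY Y') x (EuclideanSpace.single j 1) = 0 := by
      have hzz : z ≤ 0 ∧ 1 / 2 ≤ z + 1 := by
        have hs := sg_mul_abs (x j)
        rw [hsg', hround] at hs
        rw [hround] at a0 a1
        have hz' : z = -|x j - (i : ℝ)| := by
          linear_combination hz - (ε : ℝ) * hs - |x j - (i : ℝ)| * hε2
        constructor <;> linarith
      rw [stp_deriv_zero (Or.inl (stp_zero hzz.1)),
        stp_deriv_zero (s := z + 1) (Or.inr (stp_one hzz.2)), hz1] at d1j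
      linarith
    exact easy (by rw [hz2]; simp) (by rw [hz1]; simp)
  have hout : 0 < hY (fib Y j (2 * i)) x := by
    have := h.fib_diff (2 * i) x
    rw [if_pos (Or.inl rfl)] at this
    linarith [(hY_range (fib Y' j (2 * i)) x).1]
  obtain ⟨k, hk⟩ := hY_partial_ne (fib_closed h.cl j (2 * i)) hout hin
  have hkj : k ≠ j := by
    rintro rfl; exact hk (fib_partial _ _ _ _)
  have e := hY_partial_split Y hkj t0 t1
  rw [hk0 k hkj, hround] at e
  have a := hY_partial_nonneg (fib_closed h.cl j (2 * i)) x k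
  have b := hY_partial_nonneg (fib_closed h.cl j (2 * i + sg (x j))) x k
  generalize fderiv ℝ (hY (fib Y j (2 * i))) x (EuclideanSpace.single k 1) = A at *
  generalize fderiv ℝ (hY (fib Y j (2 * i + sg (x j)))) x (EuclideanSpace.single k 1) = B at *
  have key : (1 - tt (x j)) * ((sg (x k) : ℝ) * A) + tt (x j) * ((sg (x k) : ℝ) * B) = 0 := by
    linear_combination (-(sg (x k) : ℝ)) * e
  have k1 := mul_nonneg t0.le b
  have k2 : (1 - tt (x j)) * ((sg (x k) : ℝ) * A) = 0 :=
    le_antisymm (by linarith) (mul_nonneg (sub_pos.2 t1).le a)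
  rcases mul_eq_zero.1 k2 with e | e
  · linarith
  · rcases sg_cases (x k) with e' | e' <;> exact hk (by simpa [e'] using e)

end GridCAux

open GridCAux in
theorem PCol.mpath {Y Y' : Set (κ → ℤ)} (h : PCol Y Y') : ∃ H, IsMPath H (hY Y) (hY Y') := by
  obtain ⟨hc, hc', hs, j, i, ε, he, hcol⟩ := h
  have hD : Dat Y Y' j i ε :=
    ⟨hc, hc', hs, he, fun c hc => ⟨(hcol c hc).1, (hcol c hc).2.1, (hcol c hc).2.2.1⟩⟩
  have s0 : ∀ s, 0 ≤ 1 - Real.smoothTransition s := fun s => by
    linarith [Real.smoothTransition.le_one s]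
  have s1 : ∀ s, 1 - Real.smoothTransition s ≤ 1 := fun s => by
    linarith [Real.smoothTransition.nonneg s]
  refine ⟨fun z => GG Y Y' j i ε (1 - Real.smoothTransition z.1) z.2, ?_, ?_, ?_, ?_, ?_, ?_⟩
  · have hj : ContDiff ℝ (⊤ : ℕ∞) fun z : ℝ × Sp κ => (ε : ℝ) * (i - z.2 j) :=
      contDiff_const.mul (contDiff_const.sub
        ((EuclideanSpace.proj j : Sp κ →L[ℝ] ℝ).contDiff.comp contDiff_snd))
    exact ((hY_smooth Y').comp contDiff_snd).add (((hY_smooth _).comp contDiff_snd).mul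
      ((stp_smooth.comp (hj.add (contDiff_const.sub
        (Real.smoothTransition.contDiff.comp contDiff_fst)))).sub (stp_smooth.comp hj)))
  · intro s hs y
    simp only [Real.smoothTransition.zero_of_nonpos hs, sub_zero, hD.GG_one]
  · intro s hs y
    simp only [Real.smoothTransition.one_of_one_le hs, sub_self, GG_zero]
  · intro y a b hab
    exact GG_mono y (by linarith [Real.smoothTransition.monotone hab])
  · intro z
    constructor
    · refine (hY_range Y' z.2).1.trans ?_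
      rw [← GG_zero (Y := Y) (j := j) (i := i) (ε := ε)]; exact GG_mono z.2 (s0 _)
    · refine le_trans ?_ (hY_range Y z.2).2
      rw [← hD.GG_one]; exact GG_mono z.2 (s1 _)
  · intro s y h0 h1
    exact hD.reg (s0 s) (s1 s) y h0 h1

theorem Col.mpath {Y Y' : Set (κ → ℤ)} (hc : Closed Y) (h : Col Y Y') :
    ∃ H, IsMPath H (hY Y) (hY Y') := by
  induction h with
  | refl => exact ⟨_, mpath_refl hc⟩
  | tail _ h2 ih =>
    obtain ⟨H₁, h₁⟩ := ih
    obtain ⟨H₂, h₂⟩ := h2.mpath
    exact h₁.trans h₂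

end SpunKnot
end
end

-- merged part: Pool.Agent.Work.MP_e1e788_gt.FlowB
section
/-! Regular families of hypersurfaces are ambient isotopic. -/

open Set Filter Topology

noncomputable section
namespace SpunKnot
variable {S : Type*} [NormedAddCommGroup S] [NormedSpace ℝ S] [FiniteDimensional ℝ S]

namespace FlowBAux

lemma fwd {u u' : ℝ → ℝ} {K : ℝ}
    (hd : ∀ s ∈ Icc (0 : ℝ) 1, HasDerivWithinAt u (u' s) (Icc 0 1) s)
    (hb : ∀ s ∈ Icc (0 : ℝ) 1, ‖u' s‖ ≤ K * ‖u s‖) (h0 : u 0 = 0) : u 1 = 0 :=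
  eq_zero_of_abs_deriv_le_mul_abs_self_of_eq_zero_right (f' := u') (K := K) (a := 0) (b := 1)
    (fun s hs => (hd s hs).continuousWithinAt)
    (fun s hs => (hd s (Ico_subset_Icc_self hs)).mono_of_mem_nhdsWithin (Icc_mem_nhdsGE_of_mem hs))
    h0 (fun s hs => hb s (Ico_subset_Icc_self hs)) 1 ⟨zero_le_one, le_rfl⟩

lemma zero_iff {u u' : ℝ → ℝ} {K : ℝ}
    (hd : ∀ s ∈ Icc (0 : ℝ) 1, HasDerivWithinAt u (u' s) (Icc 0 1) s)
    (hb : ∀ s ∈ Icc (0 : ℝ) 1, ‖u' s‖ ≤ K * ‖u s‖) : u 0 = 0 ↔ u 1 = 0 := by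
  refine ⟨fwd hd hb, fun h => ?_⟩
  have m : ∀ s ∈ Icc (0 : ℝ) 1, 1 - s ∈ Icc (0 : ℝ) 1 := fun s hs =>
    ⟨by linarith [hs.2], by linarith [hs.1]⟩
  have := fwd (u := fun s => u (1 - s)) (u' := fun s => u' (1 - s) * -1) (K := K)
    (fun s hs => (hd _ (m s hs)).comp s
      (((hasDerivAt_id s).const_sub 1).hasDerivWithinAt (s := Icc 0 1)) m)
    (fun s hs => by simpa using hb _ (m s hs)) (by simpa using h)
  simpa using this

/-- The case of a family which is good for all times. -/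
lemma iso_all {G : ℝ × S → ℝ} (hG : ContDiff ℝ (⊤ : ℕ∞) G) {C : Set S}
    (hC : IsCompact C) (hout : ∀ s, ∀ x ∉ C, G (s, x) = G (0, x))
    (hreg : ∀ s, ∀ x ∈ C, G (s, x) = 0 → fderiv ℝ (fun y => G (s, y)) x ≠ 0) :
    Iso C (fun x => G (0, x)) fun x => G (1, x) := by
  obtain ⟨b, -⟩ : ∃ b : Module.Basis (Fin (Module.finrank ℝ S)) ℝ S, True :=
    ⟨Module.finBasis ℝ S, trivial⟩
  have hd : ∀ z, HasFDerivAt G (fderiv ℝ G z) z := fun z =>
    (hG.differentiable (by simp) z).hasFDerivAt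
  have hD : ∀ w : ℝ × S, ContDiff ℝ (⊤ : ℕ∞) fun z => fderiv ℝ G z w := fun w =>
    (hG.fderiv_right (m := (⊤ : ℕ∞)) (by simp)).clm_apply contDiff_const
  obtain ⟨a, ha⟩ : ∃ a : ℝ × S → ℝ, a = fun z => fderiv ℝ G z (1, 0) := ⟨_, rfl⟩
  obtain ⟨g, hg⟩ : ∃ g : Fin (Module.finrank ℝ S) → ℝ × S → ℝ,
      g = fun i z => fderiv ℝ G z (0, b i) := ⟨_, rfl⟩
  obtain ⟨d, hd'⟩ : ∃ d : ℝ × S → ℝ, d = fun z => ∑ i, g i z ^ 2 + G z ^ 2 := ⟨_, rfl⟩
  have sa : ContDiff ℝ (⊤ : ℕ∞) a := ha ▸ hD _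
  have sg : ∀ i, ContDiff ℝ (⊤ : ℕ∞) (g i) := fun i => hg ▸ hD _
  have sd : ContDiff ℝ (⊤ : ℕ∞) d := hd' ▸ (ContDiff.sum fun i _ => (sg i).pow 2).add (hG.pow 2)
  have a0 : ∀ z : ℝ × S, z.2 ∉ C → a z = 0 := by
    rintro ⟨s, x⟩ hx
    have h1 : HasDerivAt (fun s => G (s, x)) (fderiv ℝ G (s, x) (1, 0)) s :=
      (hd (s, x)).comp_hasDerivAt s ((hasDerivAt_id s).prodMk (hasDerivAt_const s x))
    rw [funext fun s => hout s x hx] at h1
    rw [ha]
    exact h1.unique (hasDerivAt_const s _)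
  have d0 : ∀ z : ℝ × S, z.2 ∈ C → d z ≠ 0 := by
    rintro ⟨s, x⟩ hx h
    rw [hd'] at h
    have h1 : 0 ≤ ∑ i, g i (s, x) ^ 2 := by positivity
    have h2 := sq_nonneg (G (s, x))
    have h3 : ∑ i, g i (s, x) ^ 2 = 0 := by linarith
    rw [Finset.sum_eq_zero_iff_of_nonneg fun _ _ => sq_nonneg _] at h3
    refine hreg s x hx (pow_eq_zero_iff two_ne_zero |>.1 (by linarith)) ?_
    have h4 : HasFDerivAt (fun y => G (s, y))
        ((fderiv ℝ G (s, x)).comp (ContinuousLinearMap.inr ℝ ℝ S)) x :=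
      (hd (s, x)).comp x (hasFDerivAt_prodMk_right s x)
    rw [h4.fderiv]
    refine ContinuousLinearMap.coe_injective (b.ext fun i => ?_)
    have h5 := pow_eq_zero_iff two_ne_zero |>.1 (h3 i (Finset.mem_univ i))
    rw [hg] at h5
    exact h5
  obtain ⟨v, hv⟩ : ∃ v : ℝ × S → S, v = fun z => (-a z / d z) • ∑ i, g i z • b i := ⟨_, rfl⟩
  have v0 : ∀ z : ℝ × S, z.2 ∉ C → v z = 0 := fun z hz => by simp [hv, a0 z hz]
  have sv : ContDiff ℝ (⊤ : ℕ∞) v := by
    refine contDiff_iff_contDiffAt.2 fun z => ?_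
    by_cases hz : z.2 ∈ C
    · rw [hv]
      exact (sa.neg.contDiffAt.div sd.contDiffAt (d0 z hz)).smul
        (ContDiff.sum fun i _ => (sg i).smul contDiff_const).contDiffAt
    · refine (contDiffAt_const (c := (0 : S))).congr_of_eventuallyEq ?_
      filter_upwards [continuous_snd.continuousAt.preimage_mem_nhds
        (hC.isClosed.isOpen_compl.mem_nhds hz)] with w hw using v0 w hw
  obtain ⟨K, hK⟩ := (isCompact_Icc.prod hC).exists_bound_of_continuousOn
    (f := fun z : ℝ × S => a z * G z / d z) (s := Icc (0 : ℝ) 1 ×ˢ C)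
    ((sa.continuous.mul hG.continuous).continuousOn.div sd.continuous.continuousOn
      fun z hz => d0 z hz.2)
  obtain ⟨Ξ, Ξ', h1, h2, h3, h4, h5, h6⟩ := exists_smooth_flow sv hC fun s x hx => v0 (s, x) hx
  refine ⟨Ξ, Ξ', h1, h2, h3, h4, h5, fun x => ?_⟩
  obtain ⟨γ, γ0, γ1, hγ⟩ := h6 x
  rw [← γ1, ← γ0]
  refine zero_iff (u := fun s => G (s, γ s)) (K := max K 0)
    (u' := fun s => a (s, γ s) * G (s, γ s) / d (s, γ s) * G (s, γ s)) (fun s hs => ?_)
    fun s hs => ?_
  · refine ((hd (s, γ s)).comp_hasDerivWithinAt s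
      ((hasDerivWithinAt_id s _).prodMk (hγ s hs))).congr_deriv ?_
    generalize (s, γ s) = z
    have e1 : ((1 : ℝ), v z) = ((1 : ℝ), (0 : S)) +
        (-a z / d z) • ∑ i, g i z • ((0 : ℝ), b i) := by
      ext
      · simp [Prod.fst_sum]
      · simp [Prod.snd_sum, hv]
    have e2 : fderiv ℝ G z (1, v z) = a z + -a z / d z * ∑ i, g i z ^ 2 := by
      rw [e1, map_add, map_smul, map_sum]
      simp only [map_smul, smul_eq_mul, ha, hg, sq]
    rw [e2]
    by_cases hz : z.2 ∈ C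
    · have e3 := d0 z hz
      have e4 : ∑ i, g i z ^ 2 = d z - G z ^ 2 := by rw [hd']; ring
      rw [e4]
      field_simp
      ring
    · simp [a0 z hz]
  · rw [norm_mul]
    refine mul_le_mul_of_nonneg_right ?_ (norm_nonneg _)
    by_cases hz : γ s ∈ C
    · exact (hK (s, γ s) ⟨hs, hz⟩).trans (le_max_left _ _)
    · simp [a0 (s, γ s) hz]

end FlowBAux

theorem iso_of_family {G : ℝ × S → ℝ} (hG : ContDiff ℝ (⊤ : ℕ∞) G) {C : Set S}
    (hC : IsCompact C) (hout : ∀ s ∈ Icc (0 : ℝ) 1, ∀ x ∉ C, G (s, x) = G (0, x))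
    (hreg : ∀ s ∈ Icc (0 : ℝ) 1, ∀ x ∈ C, G (s, x) = 0 → fderiv ℝ (fun y => G (s, y)) x ≠ 0) :
    Iso C (fun x => G (0, x)) fun x => G (1, x) := by
  have m : ∀ s, Real.smoothTransition s ∈ Icc (0 : ℝ) 1 := fun s =>
    ⟨Real.smoothTransition.nonneg s, Real.smoothTransition.le_one s⟩
  have := FlowBAux.iso_all (G := fun z => G (Real.smoothTransition z.1, z.2))
    (hG.comp ((Real.smoothTransition.contDiff.comp contDiff_fst).prodMk contDiff_snd)) hC
    (fun s x hx => (hout _ (m s) x hx).trans (hout _ (m 0) x hx).symm)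
    fun s x hx h => hreg _ (m s) x hx h
  simpa only [Real.smoothTransition.zero, Real.smoothTransition.one] using this

omit [FiniteDimensional ℝ S] in
theorem Iso.refl (C : Set S) (G : S → ℝ) : Iso C G G :=
  ⟨id, id, contDiff_id, contDiff_id, fun _ => rfl, fun _ => rfl, fun _ _ => rfl, fun _ => Iff.rfl⟩
omit [FiniteDimensional ℝ S] in
theorem Iso.symm {C : Set S} {G₀ G₁ : S → ℝ} (h : Iso C G₀ G₁) : Iso C G₁ G₀ := by
  obtain ⟨Ξ, Ξ', h1, h2, h3, h4, h5, h6⟩ := h
  refine ⟨Ξ', Ξ, h2, h1, h4, h3, fun x hx => ?_, fun x => ?_⟩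
  · have := h3 x
    rwa [h5 x hx] at this
  · rw [h6, h4]
omit [FiniteDimensional ℝ S] in
theorem Iso.trans {C C' : Set S} {G₀ G₁ G₂ : S → ℝ} (h : Iso C G₀ G₁) (h' : Iso C' G₁ G₂) :
    Iso (C ∪ C') G₀ G₂ := by
  obtain ⟨Ξ, Ξ', h1, h2, h3, h4, h5, h6⟩ := h
  obtain ⟨Θ, Θ', k1, k2, k3, k4, k5, k6⟩ := h'
  refine ⟨Θ ∘ Ξ, Ξ' ∘ Θ', k1.comp h1, h2.comp k2, fun x => ?_, fun x => ?_, fun x hx => ?_,
    fun x => (h6 x).trans (k6 _)⟩
  · simp [k3, h3]
  · simp [h4, k4]
  · rw [Function.comp_apply, h5 x fun h => hx (Or.inl h), k5 x fun h => hx (Or.inr h)]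
omit [FiniteDimensional ℝ S] in
theorem Iso.mono {C C' : Set S} {G₀ G₁ : S → ℝ} (h : Iso C G₀ G₁) (hC : C ⊆ C') :
    Iso C' G₀ G₁ := by
  obtain ⟨Ξ, Ξ', h1, h2, h3, h4, h5, h6⟩ := h
  exact ⟨Ξ, Ξ', h1, h2, h3, h4, fun x hx => h5 x fun h => hx (hC h), h6⟩

theorem IsMPath.iso {H : ℝ × S → ℝ} {p q : S → ℝ} (h : IsMPath H p q) {C : Set S}
    (hC : IsCompact C) (hout : ∀ x ∉ C, p x = q x) :
    Iso C (fun x => p x - 1 / 2) fun x => q x - 1 / 2 := by
  have := iso_of_family (G := fun z => H z - 1 / 2) (h.smooth.sub contDiff_const) hC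
    (fun s hs x hx => by
      have h1 : H (s, x) ≤ H (0, x) := h.anti x hs.1
      have h2 : H (1, x) ≤ H (s, x) := h.anti x hs.2
      rw [h.stop 1 le_rfl, ← hout x hx, ← h.start 0 le_rfl] at h2
      rw [le_antisymm h1 h2])
    fun s _ x _ h0 => by
      rw [fderiv_sub_const]
      exact h.reg s x (by linarith) (by linarith)
  simpa only [h.start 0 le_rfl, h.stop 1 le_rfl] using this

end SpunKnot
end
end

-- merged part: Pool.Agent.Work.MP_e1e788_gt.ZigI
section
/-! A zigzag of bounded collapses gives a compactly supported diffeomorphism. -/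

open Set
open scoped Classical

noncomputable section
namespace SpunKnot
variable {κ : Type*} [Fintype κ] [DecidableEq κ]

namespace ZigIAux

omit [DecidableEq κ] in
theorem compact_box (j₁ : κ) (r : ℝ) :
    IsCompact {x : Sp κ | (∀ j, |x j| ≤ r) ∧ -1 / 2 ≤ x j₁} := by
  refine Metric.isCompact_of_isClosed_isBounded ?_ ?_
  · have h1 : IsClosed {x : Sp κ | ∀ j, |x j| ≤ r} := by
      rw [Set.ofPred_forall]
      exact isClosed_iInter fun j => isClosed_le (by fun_prop) continuous_const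
    exact h1.inter (isClosed_le continuous_const (by fun_prop : Continuous fun x : Sp κ => x j₁))
  · refine (Metric.isBounded_closedBall (x := (0 : Sp κ))
      (r := Real.sqrt (∑ _j : κ, r ^ 2))).subset fun x hx => ?_
    rw [mem_closedBall_zero_iff, EuclideanSpace.norm_eq]
    refine Real.sqrt_le_sqrt (Finset.sum_le_sum fun j _ => ?_)
    exact pow_le_pow_left₀ (norm_nonneg _) (hx.1 j) 2

theorem near {x : Sp κ} {S : Finset κ} (h : Active x S) (j : κ) :
    |x j - (acell x S j : ℝ) / 2| < 1 / 2 := by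
  have h1 := eta_pos
  have h2 := eta_le
  by_cases hj : j ∈ S
  · linarith [(h.near j).2 hj]
  · linarith [(h.near j).1 hj]

theorem step {j₁ : κ} {Y Y' : Set (κ → ℤ)} (h : PCol Y Y') (hb : InBox j₁ (Y' \ Y)) :
    ∃ C : Set (Sp κ), IsCompact C ∧ (∀ x ∈ C, -1 / 2 ≤ x j₁) ∧
      Iso C (fun x => hY Y x - 1 / 2) fun x => hY Y' x - 1 / 2 := by
  obtain ⟨N, hN⟩ := hb
  obtain ⟨H, hH⟩ := h.mpath
  refine ⟨_, compact_box j₁ ((N : ℝ) / 2 + 1 / 2), fun x hx => hx.2,
    hH.iso (compact_box j₁ _) fun x hx => hY_congr fun S hS => ⟨fun hc => h.2.2.1 hc, fun hc => ?_⟩⟩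
  by_contra hn
  obtain ⟨h1, h2⟩ := hN _ ⟨hc, hn⟩
  refine hx ⟨fun j => ?_, ?_⟩
  · have h3 := abs_lt.1 (near hS j)
    have h4 : |((acell x S j : ℤ) : ℝ)| ≤ N := by exact_mod_cast h1 j
    have h5 := abs_le.1 h4
    exact abs_le.2 ⟨by linarith, by linarith⟩
  · have h3 := abs_lt.1 (near hS j₁)
    have h4 : (0 : ℝ) ≤ ((acell x S j₁ : ℤ) : ℝ) := by exact_mod_cast h2
    linarith

end ZigIAux

theorem Zig.iso {j₁ : κ} {Y Y' : Set (κ → ℤ)} (h : Zig j₁ Y Y') :
    ∃ C : Set (Sp κ), IsCompact C ∧ (∀ x ∈ C, -1 / 2 ≤ x j₁) ∧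
      Iso C (fun x => hY Y x - 1 / 2) fun x => hY Y' x - 1 / 2 := by
  induction h with
  | rel Y Y' h => exact ZigIAux.step h.1 h.2
  | refl Y => exact ⟨∅, isCompact_empty, by simp, Iso.refl _ _⟩
  | symm Y Y' _ ih =>
    obtain ⟨C, h1, h2, h3⟩ := ih
    exact ⟨C, h1, h2, h3.symm⟩
  | trans Y Y' Y'' _ _ ih ih' =>
    obtain ⟨C, h1, h2, h3⟩ := ih
    obtain ⟨C', k1, k2, k3⟩ := ih'
    exact ⟨C ∪ C', h1.union k1, fun x hx => hx.elim (h2 x) (k2 x), h3.trans k3⟩

end SpunKnot
end
end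

-- merged part: Pool.Agent.Work.MP_e1e788_gt.Tele
section
/-! Telescopes of zigzags. -/

open Set
open scoped Classical

noncomputable section
namespace SpunKnot
variable {V : Type} [Fintype V] [LinearOrder V]

theorem SCol.extend {L L' : Set (Finset V)} (h : SCol L L') {c : V → V → ZMod 5}
    (hc : Flat c L) : ∃ c', Flat c' L' ∧ Agree c c' L := by
  obtain ⟨hl, a, v, ha, hv, h1, rfl⟩ := h
  let r : V → V := fun i => if {i} = a then v else i
  have h2 : ∀ {σ : Finset V} {i j}, ¬ a ⊆ σ → i ∈ σ → j ∈ σ → ¬ a ⊆ {i, j} := fun h hi hj h' =>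
    h (h'.trans (by simp [Finset.insert_subset_iff, hi, hj]))
  refine ⟨fun i j => if a ⊆ {i, j} then c (r i) v + c v (r j) else c i j, fun σ hσ => ?_,
    fun σ hσ i hi j hj => (if_neg (h2 hσ.2 hi hj)).symm⟩
  by_cases hs : a ⊆ σ
  swap
  · intro i hi j hj k hk
    simp only [if_neg (h2 hs hi hj), if_neg (h2 hs hj hk), if_neg (h2 hs hi hk)]
    exact hc σ ⟨hσ, hs⟩ i hi j hj k hk
  have h3 : ∀ i ∈ σ, ∀ j ∈ σ, ¬ a ⊆ {i, j} →
      insert v {i, j} ∈ {σ | σ ∈ L' ∧ ¬ a ⊆ σ} := fun i hi j hj h =>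
    ⟨hl (Finset.insert_subset_insert v (by simp [Finset.insert_subset_iff, hi, hj])) (h1 σ hσ hs),
      fun h' => h ((Finset.subset_insert_iff_of_notMem hv).1 h')⟩
  have h4 : ∀ i ∈ σ, ∀ j ∈ σ, (if a ⊆ {i, j} then c (r i) v + c v (r j) else c i j) =
      c (r i) v + c v (r j) := by
    intro i hi j hj
    split_ifs with h
    · rfl
    have e1 : r i = i := if_neg fun e : {i} = a => h (e ▸ by simp)
    have e2 : r j = j := if_neg fun e : {j} = a => h (e ▸ by simp)
    rw [e1, e2]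
    exact (hc _ (h3 i hi j hj h) i (by simp) v (by simp) j (by simp)).symm
  have h5 : c v v = 0 := by
    have : {v} ∈ {σ | σ ∈ L' ∧ ¬ a ⊆ σ} := ⟨hl (by simp) (h1 σ hσ hs), fun h => by
      obtain ⟨x, hx⟩ := ha
      exact hv (Finset.mem_singleton.1 (h hx) ▸ hx)⟩
    simpa using hc _ this v (by simp) v (by simp) v (by simp)
  intro i hi j hj k hk
  have h6 : c v (r j) + c (r j) v = 0 := by
    by_cases e : {j} = a
    · simp [r, e, h5]
    rw [show r j = j from if_neg e, hc _ (h3 j hj j hj fun h => e ?_) v (by simp) j (by simp) v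
      (by simp), h5]
    exact (ha.subset_singleton_iff.1 (by simpa using h)).symm
  simp only [h4 i hi j hj, h4 j hj k hk, h4 i hi k hk]
  linear_combination h6

namespace TeleAux

omit [Fintype V] [LinearOrder V] in
lemma tower_mul {P : ℤ → Set (Finset V)} (h : Tower P) {δ : ℤ} (hδ : δ = 1 ∨ δ = -1) :
    Tower fun n => P (δ * n) := by
  refine ⟨fun n => h.1 _, fun n hn => ?_⟩
  rcases hδ with rfl | rfl
  · simpa using h.2 n hn
  · have := h.2 (-n) hn.neg
    simp only [neg_mul, one_mul, neg_add, neg_sub]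
    exact ⟨this.2, by rw [show 1 - n = -n + 1 by ring]; exact this.1⟩

omit [LinearOrder V] in
lemma cub_diff (A B : Set (Finset V)) : cub A \ cub B = cub (A \ B) := by
  ext a
  simp only [cub, mem_diff, mem_ofPred_eq]
  tauto

/-- a tower read in the direction `δ` -/
def Z (δ : ℤ) (P : ℤ → Set (Finset V)) : Set (KZ V → ℤ) := zcx fun n => P (δ * n)

lemma fib {δ : ℤ} (hδ : δ = 1 ∨ δ = -1) {P P' : ℤ → Set (Finset V)} (hP : Tower P) (hP' : Tower P')
    (m : ℤ) (hn : ∀ n, n ≠ m → P n = P' n) (h : Col (cub (P m)) (cub (P' m))) :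
    Col (Z δ P) (Z δ P') := by
  refine Col.lift (closed_zcx (tower_mul hP hδ)) (closed_zcx (tower_mul hP' hδ)) (δ * m)
    (fun n h' => by rw [hn _ (by rcases hδ with rfl | rfl <;> omega)]) ?_
  rwa [show δ * (δ * m) = m by rcases hδ with rfl | rfl <;> ring]

lemma vert {δ : ℤ} (hδ : δ = 1 ∨ δ = -1) {P P' : ℤ → Set (Finset V)} (hP : Tower P)
    (hP' : Tower P') (i ε : ℤ) (hε : ε = 1 ∨ ε = -1) (hsub : ∀ n, P n ⊆ P' n)
    (hn : ∀ n, n ≠ 2 * i → n ≠ 2 * i + ε → P n = P' n)
    (hd : P' (2 * i) \ P (2 * i) = P' (2 * i + ε) \ P (2 * i + ε))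
    (hb : Disjoint (P' (2 * i) \ P (2 * i)) (P' (2 * i - ε))) : Col (Z δ P) (Z δ P') := by
  have e0 : δ * (2 * (δ * i)) = 2 * i := by rcases hδ with rfl | rfl <;> ring
  have e1 : δ * (2 * (δ * i) + δ * ε) = 2 * i + ε := by rcases hδ with rfl | rfl <;> ring
  have e2 : δ * (2 * (δ * i) - δ * ε) = 2 * i - ε := by rcases hδ with rfl | rfl <;> ring
  refine Relation.ReflTransGen.single (pcol_stack (closed_zcx (tower_mul hP hδ))
    (closed_zcx (tower_mul hP' hδ)) (δ * i) (δ * ε) (by rcases hδ with rfl | rfl <;> omega)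
    (fun n => cub_mono (hsub _)) (fun n h h' => by
      rw [hn _ (by rcases hδ with rfl | rfl <;> omega) (by rcases hδ with rfl | rfl <;> omega)])
    ?_ ?_)
  · rw [e0, e1, cub_diff, cub_diff, hd]
  · rw [e0, e2, cub_diff, disjoint_iff_inter_eq_empty, ← cub_inter, hb.inter_eq, cub_empty]

lemma col_to {δ : ℤ} {Y : Set (KZ V → ℤ)} {P P' : ℤ → Set (Finset V)} (h : Col Y (Z δ P))
    (e : ∀ n, P' n = P n) : Col Y (Z δ P') := funext e ▸ h

/-- one storey at level `2 k` -/
def one (k : ℤ) (A : Set (Finset V)) : ℤ → Set (Finset V) := fun m => if m = 2 * k then A else ∅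

/-- `M` below `2 k`, then `A`, `B`, then `P` -/
def glue (M : ℤ → Set (Finset V)) (k : ℤ) (A B : Set (Finset V)) (P : ℤ → Set (Finset V)) :
    ℤ → Set (Finset V) :=
  fun m => if m < 2 * k then M m else if m = 2 * k then A else if m = 2 * k + 1 then B else P m

omit [Fintype V] [LinearOrder V] in
lemma tower_one (k : ℤ) {A : Set (Finset V)} (h : IsLowerSet A) : Tower (one k A) := by
  refine ⟨fun n => ?_, ?_⟩
  · unfold one; split_ifs; exacts [h, isLowerSet_empty]
  · rintro _ ⟨r, rfl⟩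
    rw [one, if_neg (by omega)]
    simp

section
omit [Fintype V] [LinearOrder V]
variable {M P : ℤ → Set (Finset V)} {k m : ℤ} {A B : Set (Finset V)}

lemma glue_lt (h : m < 2 * k) : glue M k A B P m = M m := if_pos h
lemma glue_0 (h : m = 2 * k) : glue M k A B P m = A := by simp [glue, h]
lemma glue_1 (h : m = 2 * k + 1) : glue M k A B P m = B := by simp [glue, h]
lemma glue_gt (h : 2 * k + 1 < m) : glue M k A B P m = P m := by
  rw [glue, if_neg (by omega), if_neg (by omega), if_neg (by omega)]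
lemma one_0 (h : m = 2 * k) : one k A m = A := if_pos h
lemma one_ne (h : m ≠ 2 * k) : one k A m = ∅ := if_neg h
lemma cases4 (k m : ℤ) : m < 2 * k ∨ m = 2 * k ∨ m = 2 * k + 1 ∨ 2 * k + 1 < m := by omega
end

omit [Fintype V] [LinearOrder V] in
lemma tower_glue {M P : ℤ → Set (Finset V)} {k : ℤ} {A B : Set (Finset V)} (hM : Tower M)
    (hP : Tower P) (hA : IsLowerSet A) (hB : IsLowerSet B) (h1 : M (2 * k - 1) ⊆ A) (h2 : B ⊆ A)
    (h3 : B ⊆ P (2 * (k + 1))) : Tower (glue M k A B P) := by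
  refine ⟨fun n => ?_, ?_⟩
  · unfold glue; split_ifs; exacts [hM.1 n, hA, hB, hP.1 n]
  rintro _ ⟨r, rfl⟩
  rcases lt_trichotomy r k with h | rfl | h
  · rw [glue_lt (by omega), glue_lt (m := 2 * r + 1 - 1) (by omega)]
    refine ⟨?_, (hM.2 _ ⟨r, rfl⟩).2⟩
    rcases eq_or_ne (r + 1) k with rfl | h'
    · rw [glue_0 (by ring)]; convert h1 using 2; ring
    · rw [glue_lt (by omega)]; exact (hM.2 _ ⟨r, rfl⟩).1
  · rw [glue_1 rfl, glue_gt (by omega), glue_0 (by ring)]
    exact ⟨by convert h3 using 2; ring, h2⟩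
  · rw [glue_gt (by omega), glue_gt (by omega), glue_gt (by omega)]
    exact hP.2 _ ⟨r, rfl⟩

/-- adding a column on top of a tower -/
lemma col_top {δ : ℤ} (hδ : δ = 1 ∨ δ = -1) {M : ℤ → Set (Finset V)} {k : ℤ} {S : Set (Finset V)}
    (hM : Tower M) (h0 : ∀ m, 2 * k < m → M m = ∅) (hS : IsLowerSet S) (h : S ⊆ M (2 * k)) :
    Col (Z δ M) (Z δ (glue M k (M (2 * k)) S (one (k + 1) S))) := by
  have h1 := (hM.2 (2 * k - 1) ⟨k - 1, by ring⟩).1
  rw [sub_add_cancel] at h1
  refine vert hδ hM (tower_glue hM (tower_one _ hS) (hM.1 _) hS h1 h (one_0 rfl).ge) (k + 1) (-1)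
    (Or.inr rfl) (fun n => ?_) (fun n h1 h2 => ?_) ?_ ?_
  · rcases cases4 k n with h | h | h | h
    exacts [(glue_lt h).ge, by rw [glue_0 h, h], by simp [h0 n (by omega)], by simp [h0 n (by omega)]]
  · rcases cases4 k n with h | h | h | h
    exacts [(glue_lt h).symm, by rw [glue_0 h, h], by omega,
      by rw [glue_gt h, one_ne h1, h0 n (by omega)]]
  · rw [glue_gt (by omega), one_0 rfl, glue_1 (by ring), h0 _ (by omega), h0 _ (by omega)]
  · rw [glue_gt (m := 2 * (k + 1) - -1) (by omega), one_ne (by omega)]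
    exact disjoint_empty _

lemma main {N L : Set (Finset V)} (hN : IsLowerSet N) (h : RZig N L N) {δ : ℤ}
    (hδ : δ = 1 ∨ δ = -1) : IsLowerSet L → ∀ (k : ℤ) (c₀ : V → V → ZMod 5), Flat c₀ L →
    ∃ (P : ℤ → Set (Finset V)) (c : ℤ → V → V → ZMod 5), Tower P ∧ P (2 * k) = L ∧ c k = c₀ ∧
      (∀ n, n < 2 * k → P n = ∅) ∧ (∃ B : ℤ, ∀ n, B ≤ n → P n = ∅) ∧
      (∀ i, Flat (c i) (P (2 * i))) ∧ (∀ i, Agree (c i) (c (i + 1)) (P (2 * i + 1))) ∧
      (∀ M : ℤ → Set (Finset V), Tower M → (∀ n, 2 * k < n → M n = ∅) → M (2 * k) = N →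
        Col (Z δ M) (Z δ fun n => if n < 2 * k then M n else P n)) ∧
      ∀ M : ℤ → Set (Finset V), Tower M → (∀ n, 2 * k < n → M n = ∅) → L ⊆ M (2 * k) →
        Col (Z δ M) (Z δ fun n => if 2 * k < n then P n else M n) := by
  induction h using Relation.ReflTransGen.head_induction_on with
  | refl =>
    intro _ k c₀ hc
    refine ⟨one k N, fun _ => c₀, tower_one k hN, one_0 rfl, rfl, fun n h => one_ne h.ne,
      ⟨2 * k + 1, fun n h => one_ne (by omega)⟩, fun i => ?_, fun i _ _ _ _ _ _ => rfl,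
      fun M _ h0 h1 => ?_, fun M _ h0 _ => ?_⟩
    · unfold one; split_ifs; exacts [hc, fun _ h => h.elim]
    · refine col_to .refl fun n => ?_
      rcases lt_trichotomy n (2 * k) with h | h | h
      exacts [if_pos h, by rw [if_neg h.not_lt, one_0 h, h, h1],
        by rw [if_neg h.not_gt, one_ne h.ne', h0 n h]]
    · refine col_to .refl fun n => ?_
      split_ifs with h
      exacts [by rw [one_ne h.ne', h0 n h], rfl]
  | @head L L' hs _ ih =>
    intro hL k c₀ hc
    obtain ⟨S, c', hL', hS, s1, s2, s3, s4, s5, s6, s7⟩ : ∃ S c', IsLowerSet L' ∧ IsLowerSet S ∧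
        N ⊆ S ∧ S ⊆ L ∧ S ⊆ L' ∧ Col (cub S) (cub L) ∧ Col (cub S) (cub L') ∧ Flat c' L' ∧
        Agree c₀ c' S := by
      rcases hs.1 with h | h
      · obtain ⟨c', h1, h2⟩ := h.extend hc
        exact ⟨L, c', h.1, hL, hs.2.1, le_rfl, h.lower.2, .refl, h.col, h1, h2⟩
      · exact ⟨L', c₀, h.lower.1, h.lower.1, hs.2.2, h.lower.2, le_rfl, h.col, .refl,
          fun σ hσ => hc σ (h.lower.2 hσ), fun _ _ _ _ _ _ => rfl⟩
    obtain ⟨P, c, p1, p2, p3, p4, ⟨B, p5⟩, p6, p7, p8, p9⟩ := ih hL' (k + 1) c' s6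
    have t0 : Tower fun _ : ℤ => (∅ : Set (Finset V)) :=
      ⟨fun _ => isLowerSet_empty, fun _ _ => ⟨le_rfl, le_rfl⟩⟩
    refine ⟨glue (fun _ => ∅) k L S P, fun i => if i = k then c₀ else c i,
      tower_glue t0 p1 hL hS (empty_subset _) s2 (p2 ▸ s3), glue_0 rfl, if_pos rfl,
      fun n h => glue_lt h, ⟨max B (2 * k + 2), fun n h => ?_⟩, fun i => ?_, fun i => ?_,
      fun M m1 m2 m3 => ?_, fun M m1 m2 m3 => ?_⟩
    · rw [glue_gt (by omega), p5 n (by omega)]
    · rcases lt_trichotomy i k with h | rfl | h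
      · rw [glue_lt (by omega)]; exact fun _ h => h.elim
      · rw [glue_0 rfl]; simpa using hc
      · rw [glue_gt (by omega)]; simpa [h.ne'] using p6 i
    · rcases lt_trichotomy i k with h | rfl | h
      · rw [glue_lt (by omega)]; exact fun _ h => h.elim
      · rw [glue_1 rfl]; simpa [p3] using s7
      · rw [glue_gt (by omega)]
        simpa [h.ne', show i + 1 ≠ k by omega] using p7 i
    · have h1 := (m1.2 (2 * k - 1) ⟨k - 1, by ring⟩).1
      rw [sub_add_cancel, m3] at h1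
      have k1 := col_top hδ m1 m2 hN m3.ge
      rw [m3] at k1
      have k2 := p8 _ (tower_glue m1 (tower_one (k + 1) hN) hN hN h1 le_rfl (one_0 rfl).ge)
        (fun n h => by rw [glue_gt (by omega), one_ne h.ne']) (by rw [glue_gt (by omega), one_0 rfl])
      have q0 := tower_glue m1 p1 hN hN h1 le_rfl (p2 ▸ s1.trans s3)
      have q1 := tower_glue m1 p1 hS hS (h1.trans s1) le_rfl (p2 ▸ s3)
      have q2 := tower_glue m1 p1 hL hS (h1.trans (s1.trans s2)) s2 (p2 ▸ s3)
      have k3 := vert hδ q0 q1 k 1 (Or.inl rfl)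
        (fun n => by unfold glue; split_ifs; exacts [le_rfl, s1, s1, le_rfl])
        (fun n h h' => by simp [glue, h, h'])
        (by rw [glue_0 rfl, glue_0 rfl, glue_1 rfl, glue_1 rfl])
        (by rw [glue_0 rfl, glue_0 rfl, glue_lt (by omega)]; exact disjoint_sdiff_left.mono_right h1)
      have k4 := fib hδ q1 q2 (2 * k) (fun n h => by simp [glue, h])
        (by rwa [glue_0 rfl, glue_0 rfl])
      refine col_to ((col_to (k1.trans k2) fun n => ?_).trans (k3.trans k4)) fun n => ?_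
      · unfold glue; split_ifs <;> first | rfl | omega
      · unfold glue; split_ifs <;> rfl
    · have h1 := (m1.2 (2 * k - 1) ⟨k - 1, by ring⟩).1
      rw [sub_add_cancel] at h1
      have q0 := tower_glue m1 (tower_one (k + 1) hS) (m1.1 _) hS h1 (s2.trans m3) (one_0 rfl).ge
      have q1 := tower_glue m1 (tower_one (k + 1) hL') (m1.1 _) hS h1 (s2.trans m3)
        (s3.trans (one_0 rfl).ge)
      have k1 := col_top hδ m1 m2 hS (s2.trans m3)
      have k2 := fib hδ q0 q1 (2 * (k + 1)) (fun n h => by simp [glue, one, h])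
        (by rwa [glue_gt (by omega), glue_gt (by omega), one_0 rfl, one_0 rfl])
      have k3 := p9 _ q1 (fun n h => by rw [glue_gt (by omega), one_ne h.ne'])
        (by rw [glue_gt (by omega), one_0 rfl])
      refine col_to ((k1.trans k2).trans k3) fun n => ?_
      rcases cases4 k n with h | h | h | h
      · rw [if_neg (by omega), if_neg (by omega), glue_lt h]
      · rw [if_neg (by omega), if_neg (by omega), glue_0 h, h]
      · rw [if_pos (by omega), if_neg (by omega), glue_1 h, glue_1 h]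
      · rw [if_pos (by omega), glue_gt h]
        split_ifs with h'
        exacts [rfl, by rw [glue_gt h, one_0 (by omega), ← p2]; congr 1; omega]

end TeleAux
open TeleAux

theorem exists_telescope {N L₀ : Set (Finset V)} (hN : IsLowerSet N) (hL : IsLowerSet L₀)
    (hsub : N ⊆ L₀) (h : RZig N L₀ N) {c₀ : V → V → ZMod 5} (hc : Flat c₀ L₀) (δ : ℤ)
    (hδ : δ = 1 ∨ δ = -1) :
    ∃ (P : ℤ → Set (Finset V)) (c : ℤ → V → V → ZMod 5), Tower P ∧ P 0 = L₀ ∧ c 0 = c₀ ∧
      (∀ n, δ * n < 0 → P n = ∅) ∧ (∃ B : ℤ, ∀ n, B ≤ |n| → P n = ∅) ∧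
      (∀ i, Flat (c i) (P (2 * i))) ∧ (∀ i, Agree (c i) (c (i + 1)) (P (2 * i + 1))) ∧
      Col (zcx (at0 N)) (zcx P) ∧
      ∀ M : ℤ → Set (Finset V), Tower M → (∀ n, 0 < δ * n → M n = ∅) → L₀ ⊆ M 0 →
        Col (zcx M) (zcx fun n => if 0 < δ * n then P n else M n) := by
  obtain ⟨P, c, p1, p2, p3, p4, ⟨B, p5⟩, p6, p7, p8, p9⟩ := main hN h hδ hL 0 c₀ hc
  have hδδ : ∀ n, δ * (δ * n) = n := fun n => by rcases hδ with rfl | rfl <;> ring
  simp only [mul_zero] at p2 p4 p8 p9
  refine ⟨fun n => P (δ * n), fun i => c (δ * i), tower_mul p1 hδ, by simpa, by simpa,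
    fun n => p4 _, ⟨max B 1, fun n hn => ?_⟩, fun i => ?_, fun i => ?_, ?_, fun M m1 m2 m3 => ?_⟩
  · rcases lt_or_ge (δ * n) 0 with h | h
    · exact p4 _ h
    · exact p5 _ (by rcases hδ with rfl | rfl <;> rcases abs_cases n with h | h <;> omega)
  · simpa [mul_left_comm] using p6 (δ * i)
  · rcases hδ with rfl | rfl
    · simpa using p7 i
    · have := p7 (-1 * (i + 1))
      rw [show -1 * (i + 1) + 1 = -1 * i by ring,
        show 2 * (-1 * (i + 1)) + 1 = -1 * (2 * i + 1) by ring] at this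
      exact fun σ hσ a ha b hb => (this σ hσ a ha b hb).symm
  · have := p8 (at0 N) (tower_at0 hN) (fun n h => if_neg h.ne') (if_pos rfl)
    unfold Z at this
    convert this using 3 with n n
    · rcases hδ with rfl | rfl <;> simp [at0]
    · dsimp only
      split_ifs with h
      exacts [by rw [p4 _ h, at0, if_neg h.ne], rfl]
  · have := p9 _ (tower_mul m1 hδ) (fun n h => m2 _ (by rwa [hδδ])) (by simpa)
    simpa only [Z, hδδ] using this

theorem Comb0.comb (K : Comb0 V) : Nonempty (Comb V) := by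
  obtain ⟨P, c, p1, p2, p3, p4, ⟨B, p5⟩, p6, p7, p8, p9⟩ := exists_telescope K.low₀ K.low₁₂
    (K.toCombCore.subs.1.trans K.sub₁) K.zigQ (fun σ hσ => K.flat₀ σ (K.sub₂ hσ)) 1 (Or.inl rfl)
  obtain ⟨Q, d, q1, q2, q3, q4, ⟨B', q5⟩, q6, q7, q8, -⟩ := exists_telescope K.lowZ K.low₁₂₃
    (K.sub₁.trans K.sub₂) K.zigR K.flat₀ (-1) (Or.inr rfl)
  simp only [one_mul] at p4 p9
  have h0 : P 0 ⊆ Q 0 := p2 ▸ q2 ▸ K.sub₂
  refine ⟨⟨K.toCombCore, P, fun n => if 0 < n then P n else Q n, fun i => if 0 < i then c i else d i,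
    p1, ⟨fun n => ?_, ?_⟩, p2 ▸ K.sub₁, fun n => ?_, ⟨max B B', fun n hn => ?_⟩, p8,
    q8.trans (p9 Q q1 (fun n h => q4 n (by omega)) (p2 ▸ h0)), by simpa, fun i => ?_, fun i => ?_⟩⟩
  · dsimp only; split_ifs; exacts [p1.1 n, q1.1 n]
  · rintro _ ⟨r, rfl⟩
    have h1 := p1.2 _ ⟨r, rfl⟩
    dsimp only
    rcases lt_trichotomy r 0 with h | rfl | h
    · rw [if_neg (by omega), if_neg (by omega), if_neg (by omega)]; exact q1.2 _ ⟨r, rfl⟩
    · rw [if_pos (by omega), if_pos (by omega), if_neg (by omega)]; exact ⟨h1.1, h1.2.trans h0⟩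
    · rwa [if_pos (by omega), if_pos (by omega), if_pos (by omega)]
  · rcases lt_trichotomy n 0 with h | rfl | h
    exacts [by simp [p4 n h], by simpa, (if_pos h).ge]
  · split_ifs
    exacts [p5 n (le_of_max_le_left hn), q5 n (le_of_max_le_right hn)]
  · by_cases h : 0 < i
    · rw [if_pos h, if_pos (by omega)]; exact p6 i
    · rw [if_neg h, if_neg (by omega)]; exact q6 i
  · rcases lt_trichotomy i 0 with h | rfl | h
    · rw [if_neg (by omega), if_neg (by omega), if_neg (by omega)]; exact q7 i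
    · rw [if_neg (by omega), if_pos (by omega), if_pos (by omega), q3, ← p3]; exact p7 0
    · rw [if_pos (by omega), if_pos (by omega), if_pos (by omega)]; exact p7 i

end SpunKnot
end
end
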