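import Pool.Agent.Work.MP_e1e788_gt.Spin
import Pool.Agent.Work.MP_e1e788_gt.Tele
import Pool.Agent.Work.MP_e1e788_gt.Flag
import Pool.Agent.Work.MP_e1e788_gt.SDB

/-! Values of the neighbourhood functions of the ring; local forms of `G` and `Ψ`. -/

open Set Filter Topology

noncomputable section
namespace SpunKnot
variable {V : Type} [Fintype V] [LinearOrder V]

namespace RingAAux

/-- the fibres of the ring -/
def rf (b : V) (T : ℤ → ℤ → Set (Finset V)) (N : Set (Finset V)) (m : ℤ) : Set (KS V → ℤ) :=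
  if m = 0 ∨ m = 6 then side b N else if 1 ≤ m ∧ m ≤ 5 then slice b (T m) N else baseS V

theorem ringOf_eq (b : V) (T : ℤ → ℤ → Set (Finset V)) (N : Set (Finset V)) :
    ringOf b T N = stack (rf b T N) := rfl

theorem rf_mid (b : V) (T : ℤ → ℤ → Set (Finset V)) (N : Set (Finset V)) {m : ℤ} (h₁ : 1 ≤ m)
    (h₂ : m ≤ 5) : rf b T N m = slice b (T m) N := by
  unfold rf
  rw [if_neg (by omega), if_pos ⟨h₁, h₂⟩]

theorem rf_same (K : Comb V) {m : ℤ} (h : m ≤ 1 ∨ 5 ≤ m) :
    rf K.b (K.top K.P₃) K.N₀ m = rf K.b (fun _ => at0 K.N₀) K.N₀ m := by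
  unfold rf Comb.top
  rw [if_neg (show m ≠ 2 by omega), if_neg (show m ≠ 3 by omega), if_neg (show m ≠ 4 by omega)]

theorem stp0 {s : ℝ} (h : s ≤ 0) : stp s = 0 := stp_eq_zero_iff.2 (h.trans eta_pos.le)

theorem stp1 {s : ℝ} (h : 1 / 2 ≤ s) : stp s = 1 := stp_eq_one_iff.2 (by linarith [eta_le])

theorem norm_le {κ : Type*} [Fintype κ] (x : Sp (Option κ)) : ‖x‖ ≤ |x none| + ‖tlL κ x‖ := by
  have h1 : ‖x‖ ^ 2 = |x none| ^ 2 + ‖tlL κ x‖ ^ 2 := by
    rw [EuclideanSpace.norm_sq_eq, EuclideanSpace.norm_sq_eq, Fintype.sum_option]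
    simp
  have h2 := norm_nonneg (tlL κ x)
  have h3 := abs_nonneg (x none)
  refine (pow_le_pow_iff_left₀ (norm_nonneg x) (by positivity) two_ne_zero).1 ?_
  nlinarith [mul_nonneg h2 h3]

theorem ycx_mem {b : V} {N : Set (Finset V)} {c : KY V → ℤ} (h : c ∈ ycx b (at0 N)) :
    c none ≤ 0 ∨ (c none ≤ 2 ∧ c (some none) = 0 ∧
      ∀ v, 0 ≤ c (some (some v)) ∧ c (some (some v)) ≤ 2) := by
  by_cases h0 : c none ≤ 0
  · exact .inl h0
  right
  have h' : (fun j => c (some j)) ∈ (if c none ≤ 0 then univ else if c none = 1 then {ptb b} else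
      if c none = 2 then zcx (at0 N) else ∅ : Set (KZ V → ℤ)) := h
  rw [if_neg h0] at h'
  split_ifs at h' with h1 h2
  · have e : ∀ j, c (some j) = ptb b j := fun j => congrFun h' j
    refine ⟨by omega, by rw [e]; simp [ptb], fun v => ?_⟩
    rw [e]
    unfold ptb
    split_ifs <;> omega
  · have h'' : (fun v => c (some (some v))) ∈ cub (at0 N (c (some none))) := h'
    refine ⟨by omega, ?_, fun v => ?_⟩
    · by_contra hz
      have := h''.2.2
      unfold at0 at this
      rw [if_neg hz] at this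
      exact this
    · have := h''.1 v
      simp only at this
      omega
  · exact h'.elim

theorem base_sub (K : Comb V) : baseA V ⊆ K.plain := by
  intro c hc
  have h : (fun j => c (some j)) ∈ baseS V := hc
  change (fun j => c (some j)) ∈ rf K.b (fun _ => at0 K.N₀) K.N₀ (c none)
  unfold rf
  split_ifs
  · refine CubAAux.baseS_sub (fun m => ?_) h
    split_ifs
    exacts [baseY_subset _ _, subset_rfl]
  · refine CubAAux.baseS_sub (fun m => ?_) h
    split_ifs
    exacts [baseY_subset _ _, baseY_subset _ _, subset_rfl]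
  · exact h

theorem plain_mem (K : Comb V) {c : KA V → ℤ} (h : c ∈ K.plain) (h' : c ∉ baseA V) :
    (∀ j, 0 ≤ c j ∧ c j ≤ 6) ∧
      ((c none = 0 ∨ c none = 6) ∨ c (some none) = 0 ∨ c (some none) = 2) := by
  have h0 : ¬ c (some (some none)) ≤ 0 := h'
  have key : (fun j => c (some (some j))) ∈ ycx K.b (at0 K.N₀) → 0 ≤ c none → c none ≤ 6 →
      0 ≤ c (some none) → c (some none) ≤ 2 → ∀ j, 0 ≤ c j ∧ c j ≤ 6 := by
    intro a a1 a2 a3 a4 j
    rcases ycx_mem a with e | ⟨e1, e2, e3⟩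
    · exact (h0 e).elim
    rcases j with _ | _ | _ | _ | v
    · exact ⟨a1, a2⟩
    · omega
    · omega
    · omega
    · have := e3 v
      omega
  have h1 : (fun j => c (some j)) ∈ rf K.b (fun _ => at0 K.N₀) K.N₀ (c none) := h
  unfold rf at h1
  split_ifs at h1 with a b
  · have h2 : (fun j => c (some (some j))) ∈ (if 0 ≤ c (some none) ∧ c (some none) ≤ 2 then
        ycx K.b (at0 K.N₀) else baseY V) := h1
    split_ifs at h2 with d
    · exact ⟨key h2 (by omega) (by omega) d.1 d.2, .inl a⟩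
    · exact (h0 h2).elim
  · have h2 : (fun j => c (some (some j))) ∈ (if c (some none) = 2 then ycx K.b (at0 K.N₀) else
        if c (some none) = 0 then ycx K.b (at0 K.N₀) else baseY V) := h1
    split_ifs at h2 with d e
    · exact ⟨key h2 (by omega) (by omega) (by omega) (by omega), .inr (.inr d)⟩
    · exact ⟨key h2 (by omega) (by omega) (by omega) (by omega), .inr (.inl e)⟩
    · exact (h0 h2).elim
  · exact (h0 h1).elim

end RingAAux

open RingAAux GridAAux

theorem prA_smooth : ContDiff ℝ (⊤ : ℕ∞) (prA (V := V)) :=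
  (EuclideanSpace.proj (𝕜 := ℝ) (none : KA V)).contDiff.prodMk (tlL (KS V)).contDiff

theorem Comb.plain_core (K : Comb V) {x : Sp (KA V)} (h : x none ∈ Icc (2 * eta) (3 - 2 * eta)) :
    hY K.plain x = K.q0 (tlL (KS V) x) := by
  obtain ⟨h1, h2⟩ := h
  have he := eta_pos
  obtain ⟨b1, b2⟩ := round_bounds (x none)
  have r0 : 0 ≤ round (x none) := by
    have : (-1 : ℝ) < (round (x none) : ℤ) := by linarith
    have : (-1 : ℤ) < round (x none) := by exact_mod_cast this
    omega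
  have r3 : round (x none) ≤ 3 := by
    have : ((round (x none) : ℤ) : ℝ) < 4 := by linarith
    have : round (x none) < (4 : ℤ) := by exact_mod_cast this
    omega
  have mid : ∀ m : ℤ, 1 ≤ m → m ≤ 5 →
      hY (rf K.b (fun _ => at0 K.N₀) K.N₀ m) (tlL (KS V) x) = K.q0 (tlL (KS V) x) := by
    intro m a b
    rw [rf_mid _ _ _ a b]; rfl
  rw [Comb.plain, ringOf_eq, hY_stack]
  by_cases c0 : round (x none) = 0
  · have s : sg (x none) = 1 := sg_of_le (by rw [c0]; push_cast; linarith)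
    have t : tt (x none) = 1 := by
      rw [tt_eq, s, c0, stp_eq_one_iff]; push_cast; linarith
    rw [t, c0, s, mid (2 * 0 + 1) (by norm_num) (by norm_num)]; ring
  by_cases c3 : round (x none) = 3
  · have s : sg (x none) = -1 := sg_of_lt (by rw [c3]; push_cast; linarith)
    have t : tt (x none) = 1 := by
      rw [tt_eq, s, c3, stp_eq_one_iff]; push_cast; linarith
    rw [t, c3, s, mid (2 * 3 + -1) (by norm_num) (by norm_num)]; ring
  have := sg_cases (x none)
  rw [mid _ (by omega) (by omega), mid _ (by omega) (by omega)]; ring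

/-- near the axis, far away, and on the negative side of `y_v` the plain ring is the half space -/
theorem Comb.plain_std (K : Comb V) : ∃ R : ℝ, ∀ x : Sp (KA V),
    (|x none - 3 / 2| < 1 / 4 ∧ |x (some none) - 1 / 2| < 1 / 4) ∨ R ≤ ‖x‖ ∨
      (∃ v, x (jA v) ≤ -1) → hY K.plain x = stp (x (some (some none))) := by
  refine ⟨16 * (Fintype.card (KA V) : ℝ) + 1, fun x hx => ?_⟩
  rw [← hY_base (some (some none) : KA V) x]
  refine hY_congr fun S hS => ⟨fun a => ?_, fun a => base_sub K a⟩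
  by_contra b
  obtain ⟨c1, c2⟩ := plain_mem K a b
  have he := eta_pos
  have he' := eta_le
  have nr : ∀ j, |x j - (acell x S j : ℝ) / 2| < 1 / 2 := by
    intro j
    by_cases hj : j ∈ S
    · linarith [(hS.near j).2 hj]
    · linarith [(hS.near j).1 hj]
  have cr : ∀ j, (0 : ℝ) ≤ acell x S j ∧ (acell x S j : ℝ) ≤ 6 := fun j =>
    ⟨by exact_mod_cast (c1 j).1, by exact_mod_cast (c1 j).2⟩
  rcases hx with ⟨h1, h2⟩ | h1 | ⟨v, h1⟩
  · rw [abs_lt] at h1 h2
    rcases c2 with c2 | c2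
    · have := nr none
      rw [abs_lt] at this
      rcases c2 with c2 | c2 <;> rw [c2] at this <;> push_cast at this <;> linarith [this.1, this.2]
    · have hj : (some none : KA V) ∉ S := by
        intro hj
        have e : acell x S (some none) = 2 * round (x (some none)) + sg (x (some none)) := by
          simp [acell, hj]
        have := sg_cases (x (some none))
        omega
      have := (hS.near _).1 hj
      rw [abs_lt] at this
      rcases c2 with c2 | c2 <;> rw [c2] at this <;> push_cast at this <;> linarith [this.1, this.2]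
  · have e : ‖x‖ ^ 2 ≤ 16 * (Fintype.card (KA V) : ℝ) := by
      rw [EuclideanSpace.norm_sq_eq]
      calc ∑ j, ‖x j‖ ^ 2 ≤ ∑ _j : KA V, (16 : ℝ) := by
            refine Finset.sum_le_sum fun j _ => ?_
            have := nr j
            have h3 := cr j
            rw [abs_lt] at this
            rw [Real.norm_eq_abs, sq_abs]
            nlinarith [this.1, this.2, h3.1, h3.2]
        _ = 16 * (Fintype.card (KA V) : ℝ) := by
            rw [Finset.sum_const, Finset.card_univ, nsmul_eq_mul, mul_comm]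
    have : (0 : ℝ) ≤ Fintype.card (KA V) := Nat.cast_nonneg _
    nlinarith
  · have := nr (jA v)
    rw [abs_lt] at this
    linarith [this.1, (cr (jA v)).1]

namespace Geo
variable (Γ : Geo V)

theorem ring_eq (x : Sp (KA V)) : hY Γ.K.ring x - 1 / 2 = Γ.Gof (Γ.D.gI 0) x := by
  rw [Gof, SD.gI_zero, SD.hcan, Comb.ring, Comb.plain, ringOf_eq, ringOf_eq, hY_stack, hY_stack]
  have f2 : hY (rf Γ.K.b (Γ.K.top Γ.K.P₃) Γ.K.N₀ 2) = Γ.D.p3 := by
    rw [rf_mid _ _ _ (by norm_num) (by norm_num), Γ.e3]; rfl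
  have f3 : hY (rf Γ.K.b (Γ.K.top Γ.K.P₃) Γ.K.N₀ 3) = Γ.D.pN := by
    rw [rf_mid _ _ _ (by norm_num) (by norm_num), Γ.eN]; rfl
  have f4 : hY (rf Γ.K.b (Γ.K.top Γ.K.P₃) Γ.K.N₀ 4) = Γ.D.pC := by
    rw [rf_mid _ _ _ (by norm_num) (by norm_num), Γ.eC]; rfl
  have g : ∀ m : ℤ, 1 ≤ m → m ≤ 5 → hY (rf Γ.K.b (fun _ => at0 Γ.K.N₀) Γ.K.N₀ m) = Γ.D.p0 := by
    intro m a b
    rw [rf_mid _ _ _ a b, Γ.e0]; rfl
  obtain ⟨b1, b2⟩ := round_bounds (x none)
  have hs := sg_cases (x none)
  simp only [prA]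
  rcases lt_trichotomy (round (x none)) 1 with c | c | c
  · have : ((round (x none) : ℤ) : ℝ) ≤ 0 := by exact_mod_cast (show round (x none) ≤ 0 by omega)
    rw [rf_same _ (.inl (by omega)), rf_same _ (.inl (by omega)), stp1 (s := 1 - x none) (by linarith),
      stp0 (s := x none - 1) (by linarith), stp1 (s := 2 - x none) (by linarith),
      stp0 (s := x none - 2) (by linarith)]
    ring
  · rw [c] at b1 b2
    push_cast at b1 b2
    rw [stp1 (s := 2 - x none) (by linarith), stp0 (s := x none - 2) (by linarith), tt_eq, c]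
    rcases le_or_gt 1 (x none) with d | d
    · rw [sg_of_le (by rw [c, Int.cast_one]; exact d), stp0 (s := 1 - x none) (by linarith)]
      norm_num
      rw [f2, f3, g 2 (by norm_num) (by norm_num), g 3 (by norm_num) (by norm_num)]
      ring
    · rw [sg_of_lt (by rw [c, Int.cast_one]; exact d), stp0 (s := x none - 1) (by linarith)]
      norm_num
      rw [f2, rf_same _ (.inl le_rfl), g 2 (by norm_num) (by norm_num)]
      ring
  rcases lt_trichotomy (round (x none)) 2 with c' | c' | c'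
  · omega
  · rw [c'] at b1 b2
    push_cast at b1 b2
    rw [stp0 (s := 1 - x none) (by linarith), stp1 (s := x none - 1) (by linarith), tt_eq, c']
    rcases le_or_gt 2 (x none) with d | d
    · rw [sg_of_le (by rw [c']; exact_mod_cast d), stp0 (s := 2 - x none) (by linarith)]
      norm_num
      rw [f4, rf_same _ (.inr le_rfl), g 4 (by norm_num) (by norm_num)]
      ring
    · rw [sg_of_lt (by rw [c']; exact_mod_cast d), stp0 (s := x none - 2) (by linarith)]
      norm_num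
      rw [f4, f3, g 4 (by norm_num) (by norm_num), g 3 (by norm_num) (by norm_num)]
      ring
  · have : (3 : ℝ) ≤ ((round (x none) : ℤ) : ℝ) := by
      exact_mod_cast (show 3 ≤ round (x none) by omega)
    rw [rf_same _ (.inr (by omega)), rf_same _ (.inr (by omega)), stp0 (s := 1 - x none) (by linarith),
      stp1 (s := x none - 1) (by linarith), stp0 (s := 2 - x none) (by linarith),
      stp1 (s := x none - 2) (by linarith)]
    ring

theorem p0_smooth' : ContDiff ℝ (⊤ : ℕ∞) Γ.D.p0 := by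
  rw [Γ.e0]; exact hY_smooth _

theorem G_smooth : ContDiff ℝ (⊤ : ℕ∞) Γ.G :=
  ((hY_smooth _).sub (Γ.p0_smooth'.comp (tlL (KS V)).contDiff)).add
    (Γ.D.gK_smooth.comp prA_smooth)

theorem Ψ_smooth : ContDiff ℝ (⊤ : ℕ∞) Γ.Ψ := by
  have a : ContDiff ℝ (⊤ : ℕ∞) fun z : ℝ × ℝ × Sp (KA V) => (z.1, z.2.1, prA z.2.2) :=
    contDiff_fst.prodMk (contDiff_snd.fst.prodMk (prA_smooth.comp contDiff_snd.snd))
  have b := (Γ.D.gS_smooth Γ.hF).comp a
  have c := ((hY_smooth Γ.K.plain).sub (Γ.p0_smooth'.comp (tlL (KS V)).contDiff)).comp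
    (contDiff_snd.snd : ContDiff ℝ (⊤ : ℕ∞) fun z : ℝ × ℝ × Sp (KA V) => z.2.2)
  have d := c.add b
  exact d

theorem Ψ_zero (θ : ℝ) (x : Sp (KA V)) : Γ.Ψ (0, θ, x) = Γ.G x := by
  simp only [Ψ, G, Gof, SD.gS_zero]

theorem Gof_core' (g : ℝ × Sp (KS V) → ℝ) {x : Sp (KA V)}
    (h : x none ∈ Icc (2 * eta) (3 - 2 * eta)) : Γ.Gof g x = g (prA x) := by
  rw [Gof, Γ.K.plain_core h, Γ.e0]; ring

theorem Gof_core (g : ℝ × Sp (KS V) → ℝ) {x : Sp (KA V)}
    (h : x none ∈ Ioo (2 * eta) (3 - 2 * eta)) : ∀ᶠ x' in 𝓝 x, Γ.Gof g x' = g (prA x') := by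
  have c : Continuous fun x : Sp (KA V) => x none :=
    (EuclideanSpace.proj (𝕜 := ℝ) (none : KA V)).continuous
  filter_upwards [(isOpen_Ioo.preimage c).mem_nhds h] with x' hx
  exact Γ.Gof_core' g (Ioo_subset_Icc_self hx)

theorem off' {x : Sp (KA V)} (h : Γ.D.Off (prA x)) :
    Γ.G x = hY Γ.K.plain x - 1 / 2 ∧
      (∀ s, Γ.Gof (Γ.D.gI s) x = hY Γ.K.plain x - 1 / 2) ∧
      ∀ s θ, Γ.Ψ (s, θ, x) = hY Γ.K.plain x - 1 / 2 := by
  refine ⟨?_, fun s => ?_, fun s θ => ?_⟩
  · rw [G, Gof, (Γ.D.off h 0).2.1]; simp only [prA]; ring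
  · rw [Gof, (Γ.D.off h s).2.2]; simp only [prA]; ring
  · simp only [Ψ, Gof]
    rw [Γ.D.gS_off h]; simp only [prA]; ring

theorem off {x : Sp (KA V)} (h : Γ.D.Off (prA x)) :
    ∀ᶠ x' in 𝓝 x, Γ.G x' = hY Γ.K.plain x' - 1 / 2 ∧
      (∀ s, Γ.Gof (Γ.D.gI s) x' = hY Γ.K.plain x' - 1 / 2) ∧
      ∀ s θ, Γ.Ψ (s, θ, x') = hY Γ.K.plain x' - 1 / 2 := by
  filter_upwards [(Γ.D.isOpen_off.preimage prA_smooth.continuous).mem_nhds h] with x' hx
  exact Γ.off' hx

theorem supp_bdd : ∃ R : ℝ, ∀ y ∈ tsupport Γ.D.κ, ‖y‖ ≤ R :=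
  Γ.D.κ_cpt.isCompact.isBounded.exists_norm_le

theorem Ψ_std : ∃ R : ℝ, ∀ (s θ : ℝ) (x : Sp (KA V)),
    (|x none - 3 / 2| < 1 / 4 ∧ |x (some none) - 1 / 2| < 1 / 4) ∨ R ≤ ‖x‖ ∨
      (∃ v, x (jA v) ≤ -1) → Γ.Ψ (s, θ, x) = stp (x (some (some none))) - 1 / 2 := by
  obtain ⟨R, hR⟩ := Γ.K.plain_std
  obtain ⟨R', hR'⟩ := Γ.supp_bdd
  refine ⟨max R (R' + 4), fun s θ x hx => ?_⟩
  have he := eta_pos
  have he' := eta_le
  have o : Γ.D.Off (prA x) := by
    by_contra n
    simp only [SD.Off, prA, not_or, not_lt, not_not] at n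
    obtain ⟨n1, n2, n3⟩ := n
    obtain ⟨s1, s2⟩ := Γ.supp _ n3
    rcases hx with ⟨-, h2⟩ | h1 | ⟨v, h1⟩
    · rw [tlL_apply, abs_le] at s1
      rw [abs_lt] at h2
      linarith [s1.1, h2.2]
    · have a1 := norm_le x
      have a2 := hR' _ n3
      have a3 : |x none| ≤ 3 := abs_le.2 ⟨by linarith, by linarith⟩
      linarith [le_max_right R (R' + 4)]
    · have := s2 v
      rw [tlL_apply] at this
      linarith
  rw [(Γ.off' o).2.2, hR x (hx.imp_right (Or.imp_left fun a => (le_max_left _ _).trans a))]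

theorem ring_lt {x : Sp (KA V)} (h : Γ.G x = 0) : hY Γ.K.ring x < 1 := by
  have e := Γ.ring_eq x
  by_cases o : Γ.D.Off (prA x)
  · obtain ⟨a, b, -⟩ := Γ.off' o
    rw [b 0, ← a, h] at e
    linarith
  · simp only [SD.Off, prA, not_or, not_lt, not_not] at o
    have he := eta_pos
    have he' := eta_le
    have c : x none ∈ Icc (2 * eta) (3 - 2 * eta) := ⟨by linarith [o.1], by linarith [o.2.1]⟩
    rw [Γ.Gof_core' _ c, SD.gI_zero] at e
    rw [G, Γ.Gof_core' _ c] at h
    linarith [Γ.D.hcan_lt h]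

theorem q3_le_ring {x : Sp (KA V)} (h : x none ∈ Icc (3 / 4 : ℝ) 1) :
    Γ.K.q3 (tlL (KS V) x) ≤ hY Γ.K.ring x := by
  have he := eta_pos
  have he' := eta_le
  have e := Γ.ring_eq x
  rw [Γ.Gof_core' _ ⟨by linarith [h.1], by linarith [h.2]⟩, SD.gI_zero, prA,
    (Γ.D.first (by linarith [h.2]) _).1] at e
  rw [← Γ.e3]
  have a1 := Γ.D.le10 (tlL (KS V) x)
  have a2 := Γ.D.le21 (tlL (KS V) x)
  have a3 := Γ.D.le32 (tlL (KS V) x)
  have a4 := (stp_range (1 - x none)).1
  nlinarith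

theorem isCompact_C : IsCompact Γ.C := by
  have c : Continuous fun x : Sp (KA V) => x none :=
    (EuclideanSpace.proj (𝕜 := ℝ) (none : KA V)).continuous
  refine Metric.isCompact_of_isClosed_isBounded ?_ ?_
  · exact (isClosed_eq Γ.G_smooth.continuous continuous_const).inter
      (((isClosed_tsupport _).preimage (tlL (KS V)).continuous).inter (isClosed_Icc.preimage c))
  · obtain ⟨R, hR⟩ := Γ.supp_bdd
    refine isBounded_iff_forall_norm_le.2 ⟨R + 3, fun x hx => ?_⟩
    obtain ⟨-, h1, h2, h3⟩ := hx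
    have a1 := norm_le x
    have a2 := hR _ h1
    have a3 : |x none| ≤ 3 := abs_le.2 ⟨by linarith, by linarith⟩
    linarith

theorem C_nonempty : Γ.C.Nonempty := by
  obtain ⟨y, h1, h2⟩ := Γ.D.ne
  have he := eta_pos
  have he' := eta_le
  let x : Sp (KA V) := WithLp.toLp 2 fun j => Option.elim j (3 / 4) fun j => y j
  have e1 : x none = 3 / 4 := rfl
  have e2 : tlL (KS V) x = y := by
    ext j; rfl
  have o : Γ.D.Off (prA x) := .inl (by simp only [prA]; rw [e1]; linarith)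
  refine ⟨x, ?_, ?_, ?_⟩
  · rw [(Γ.off' o).1, Γ.K.plain_core ⟨by rw [e1]; linarith, by rw [e1]; linarith⟩, e2, ← Γ.e0, h2,
      sub_self]
  · rw [e2]
    exact subset_tsupport _ (by rw [Function.mem_support, h1]; exact one_ne_zero)
  · rw [e1]; constructor <;> norm_num

theorem C_ne {x : Sp (KA V)} (h : x ∈ Γ.C) : wC x ≠ 0 := by
  intro e
  have e' := congrArg Complex.re e
  have s1 := (Γ.supp _ h.2.1).1
  have he' := eta_le
  rw [tlL_apply, abs_le] at s1
  simp only [wC, Complex.add_re, Complex.ofReal_re, Complex.mul_re, Complex.I_re, mul_zero,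
    Complex.ofReal_im, Complex.I_im, mul_one, sub_self, add_zero, Complex.zero_re] at e'
  linarith [s1.1]
end Geo

end SpunKnot
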