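import Pool.Agent.Work.MP_e1e788_gt.Flag
import Pool.Agent.Work.MP_e1e788_gt.BrAmb
import Pool.Agent.Work.MP_e1e788_gt.GridA
import Pool.Agent.Work.MP_e1e788_gt.AlgM
import Pool.Agent.Work.MP_e1e788_gt.Tele

-- merged part: Pool.Agent.Work.MP_e1e788_gt.TorDefs
section
/-! Torsion norm of a pair of closed sets, via twisted nerves of families of small balls. -/

open Set Matrix Filter Topology Metric
open scoped Classical

noncomputable section
namespace SpunKnot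

/-- A local system on `Y`, given by a cover `O` and a cocycle `G`. -/
structure Lab (Ω : Type*) (R : Type*) where
  Λ : Type
  O : Λ → Set Ω
  G : Λ → Λ → R
  Y : Set Ω

/-- the trivial integral local system -/
def Lab.triv (Ω : Type*) : Lab Ω ℤ := ⟨Unit, fun _ => univ, fun _ _ => 1, univ⟩

section
variable {Ω : Type*} [MetricSpace Ω] {R : Type*} [CommRing R] [StarRing R]

structure Lab.Good (L : Lab Ω R) : Prop where
  unit : ∀ l l', L.G l l' * star (L.G l l') = 1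
  coc : ∀ l l' l'', ∀ x ∈ L.Y, x ∈ L.O l → x ∈ L.O l' → x ∈ L.O l'' →
    L.G l l' * L.G l' l'' = L.G l l''
  cover : ∀ x ∈ L.Y, ∃ l, L.O l ∈ 𝓝[L.Y] x

structure Pair (L : Lab Ω R) (A' A : Set Ω) : Prop where
  sub : A ⊆ A'
  cl : IsClosed A
  cl' : IsClosed A'
  cpt : IsCompact (closure (A' \ A))
  inY : closure (A' \ A) ⊆ L.Y
  ne : A.Nonempty ∨ ∀ l l', L.G l l' = 1

/-- admissible labelled finite family for the pair -/
structure Adm (L : Lab Ω R) (𝔅 : Set (Set Ω)) (A' A : Set Ω) {ι : Type} (B : ι → Set Ω)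
    (l : ι → L.Λ) : Prop where
  mem : ∀ i, B i ∈ 𝔅
  lab : ∀ i, B i ∩ L.Y ⊆ L.O (l i)
  cov : ∀ x ∈ closure (A' \ A), ∃ i, B i ∈ 𝓝 x

def TorC (L : Lab Ω R) (𝔅 : Set (Set Ω)) (A' A : Set Ω) (W : R) : Prop :=
  ∀ (ι : Type) [Fintype ι] [LinearOrder ι] (B : ι → Set Ω) (l : ι → L.Λ), Adm L 𝔅 A' A B l →
    HasNu (bd fun i j => L.G (l i) (l j)) Finset.card (nerve B A' \ nerve B A) W

/-- closed balls of radius at most `r` -/
def balls (Ω : Type*) [MetricSpace Ω] (r : ℝ) : Set (Set Ω) :=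
  {B | ∃ x ρ, 0 < ρ ∧ ρ ≤ r ∧ B = closedBall x ρ}

def Tor (L : Lab Ω R) (A' A : Set Ω) (W : R) : Prop := ∃ r > 0, TorC L (balls Ω r) A' A W

/-- local acyclicity of `B₀ ∩ A` for covers from the class `𝔅` -/
def LA (𝔅 : Set (Set Ω)) (A B₀ : Set Ω) : Prop :=
  ∀ (ι : Type) [Fintype ι] [LinearOrder ι] (B : ι → Set Ω), (∀ i, B i ∈ 𝔅) →
    (∀ x ∈ B₀ ∩ A, ∃ i, B i ∈ 𝓝 x) → Acyc (bdZ ι) (nerve B (B₀ ∩ A))
end

section
variable (E : Type*) [NormedAddCommGroup E] [NormedSpace ℝ E]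
variable {F F₂ : Type*} [NormedAddCommGroup F] [NormedSpace ℝ F] [NormedAddCommGroup F₂]
  [NormedSpace ℝ F₂]

/-- Near `p ∈ M` and the parameter `s₀`, the sets `A s ⊆ M` are cut out, in a `C²` chart `ψ` of
`M`, by `C²` inequalities whose active gradients are positive on a common vector; moreover
`e ∘ ψ` is a `C²` immersion. -/
def MFCQAt (M : Set F) (A : ℝ → Set F) (e : F → F₂) (p : F) (s₀ : ℝ) : Prop :=
  ∃ (ψ : E → F) (k : ℕ) (g : Fin k → E × ℝ → ℝ) (v : E),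
    ContDiffAt ℝ 2 ψ 0 ∧ ψ 0 = p ∧ Function.Injective (fderiv ℝ ψ 0) ∧
    map ψ (𝓝 0) = 𝓝[M] p ∧ ContDiffAt ℝ 2 (e ∘ ψ) 0 ∧
    Function.Injective (fderiv ℝ (e ∘ ψ) 0) ∧ (∀ j, ContDiffAt ℝ 2 (g j) (0, s₀)) ∧
    (∀ j, g j (0, s₀) = 0 → 0 < fderiv ℝ (g j) (0, s₀) (v, 0)) ∧
    ∀ᶠ q : E × ℝ in 𝓝 (0, s₀), ψ q.1 ∈ A q.2 ↔ ∀ j, g j q ≤ 0
end

end SpunKnot
end
end

-- merged part: Pool.Agent.Work.MP_e1e788_gt.CovDefs
section
/-! The infinite cyclic cover of `{G = 0, Φ ≠ 0}` as a subset of `V × ℝ`. -/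

open Set Filter Topology

noncomputable section
namespace SpunKnot
variable {V : Type*} [NormedAddCommGroup V] [InnerProductSpace ℝ V]

abbrev Lft (V : Type*) := WithLp 2 (V × ℝ)
abbrev Lft.pt (p : Lft V) : V := p.ofLp.1
abbrev Lft.ang (p : Lft V) : ℝ := p.ofLp.2

def cov (G : V → ℝ) (Φ : V → ℂ) : Set (Lft V) :=
  {p | G p.pt = 0 ∧ Φ p.pt ≠ 0 ∧ Φ p.pt = ‖Φ p.pt‖ * Complex.exp (p.ang * Complex.I)}

/-- the part of the cover over `X` below the graph of `γ` -/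
def below (G : V → ℝ) (Φ : V → ℂ) (X : Set V) (γ : V → ℝ) : Set (Lft V) :=
  {p | p ∈ cov G Φ ∧ p.pt ∈ X ∧ p.ang ≤ γ p.pt}

/-- the deck translation -/
def deck (V : Type*) [NormedAddCommGroup V] [InnerProductSpace ℝ V] : Lft V ≃ᵢ Lft V :=
  IsometryEquiv.addRight (WithLp.toLp 2 ((0 : V), 2 * Real.pi))

/-- the local system is invariant under the deck translation, up to `φ` -/
def Lab.Equivariant {R : Type*} [CommRing R] (L : Lab (Lft V) R) (φ : R →+* R) : Prop :=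
  ∃ tl : L.Λ ≃ L.Λ, deck V '' L.Y = L.Y ∧ (∀ l, L.O (tl l) = deck V '' L.O l) ∧
    ∀ l l', L.G (tl l) (tl l') = φ (L.G l l')

end SpunKnot
end
end

-- merged part: Pool.Agent.Work.MP_e1e788_gt.RingDefs
section
/-! The hypersurface, the angle function and the local systems. -/

open Set Filter Topology
open scoped Classical

noncomputable section
namespace SpunKnot

/-- `1` on `|r - 1/2| ≤ 4η`, `0` on `|r - 1/2| ≥ 5η` -/
def kap2 (r : ℝ) : ℝ :=
  Real.smoothTransition ((r - 1 / 2 + 5 * eta) / eta) *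
    Real.smoothTransition ((1 / 2 + 5 * eta - r) / eta)

/-- the shear making the levels of the angle vertical near the top side -/
def Lam (w : ℂ) : ℂ :=
  (w.re : ℂ) + ((w.im + kap2 w.re * (2 * w.re - 1) * psi0 w.im : ℝ) : ℂ) * Complex.I

/-- the angle on the top side -/
def ang (τ : ℝ) : ℝ := Real.arctan (2 * τ - 3)

/-- `3 ^ k` in `ℤ/5` -/
def pw3 (k : ℤ) : ZMod 5 := 3 ^ (k % 4).toNat

variable {V : Type} [Fintype V] [LinearOrder V]

/-- position relative to the axis -/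
def wC (x : Sp (KA V)) : ℂ :=
  ((x (some none) - 1 / 2 : ℝ) : ℂ) + ((x none - 3 / 2 : ℝ) : ℂ) * Complex.I

def PhiA (x : Sp (KA V)) : ℂ := Lam (wC x)

/-- (`w₁`, slice) -/
def prA (x : Sp (KA V)) : ℝ × Sp (KS V) := (x none, tlL (KS V) x)

namespace Comb
variable (K : Comb V)

def q0 : Sp (KS V) → ℝ := hY (K.sl (at0 K.N₀))
def q1 : Sp (KS V) → ℝ := hY (K.sl (at0 K.Z₁))
def q3 : Sp (KS V) → ℝ := hY (K.sl K.P₃)

/-- the local system on the slice -/
def labS : Lab (Sp (KS V)) R5 where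
  Λ := Option (V × ℤ)
  O l := match l with
    | none => {y | y (some none) ≤ 2 / 3}
    | some (v, i) => {y | 1 / 3 ≤ y (some none) ∧ 1 / 3 ≤ y (jS v) ∧
        |y (some (some none)) - i| ≤ 2 / 3}
  G l l' := match l, l' with
    | some (v, i), some (v', _) => R5.xp (K.cL i v v')
    | _, _ => 1
  Y := {y | K.q3 y < 1}

/-- the local system on the cyclic cover; the label `(v, i, s, k)` has side `s` and sheet `k` -/
def labA : Lab (Lft (Sp (KA V))) R5 where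
  Λ := Option (V × ℤ × Bool × ℤ)
  O l := match l with
    | none => {p | p.pt (some (some none)) ≤ 2 / 3}
    | some (v, i, s, k) => {p | 1 / 3 ≤ p.pt (some (some none)) ∧ 1 / 3 ≤ p.pt (jA v) ∧
        |p.pt (some (some (some none))) - i| ≤ 2 / 3 ∧
        if s then 4 / 3 ≤ p.pt none ∧
            p.ang - 2 * Real.pi * k ∈ Ioo (-(Real.pi / 2)) (3 * Real.pi / 2)
          else p.pt none ≤ 5 / 3 ∧
            p.ang - 2 * Real.pi * k ∈ Ioo (-(3 * Real.pi / 2)) (Real.pi / 2)}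
  G l l' := match l, l' with
    | some (v, i, s, k), some (v', _) => R5.xp (pw3 k * if s then K.cR v v' else K.cL i v v')
    | _, _ => 1
  Y := {p | hY K.ring p.pt < 1 ∧ PhiA p.pt ≠ 0 ∧
    PhiA p.pt = ‖PhiA p.pt‖ * Complex.exp (p.ang * Complex.I)}

/-- from slice labels to labels of the sheet `0`, left side -/
def tlab : K.labS.Λ → K.labA.Λ
  | none => none
  | some (v, i) => some (v, i, false, 0)

/-- the closed star of a vertex -/
def St (v : V) : Set (Sp (KS V)) :=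
  {y | 1 / 3 ≤ y (jS v) ∧ (∀ u, -1 / 3 ≤ y (jS u) ∧ y (jS u) ≤ 4 / 3) ∧ |y none - 1| ≤ 1 / 3 ∧
    |y (some none) - 1| ≤ 1 / 3 ∧ |y (some (some none))| ≤ 1 / 3}
end Comb

/-- combinatorial data, slice data and the spun function -/
structure Geo (V : Type) [Fintype V] [LinearOrder V] where
  K : Comb V
  D : SD (Sp (KS V))
  F : ℝ × Sp (KS V) → ℝ
  hF : IsF D.p0 D.p3 F
  e0 : D.p0 = K.q0
  e1 : D.p1 = K.q1
  e3 : D.p3 = K.q3
  eN : D.pN = hY (K.sl (at0 K.N₁))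
  eC : D.pC = hY (K.sl (at0 K.Cy))
  supp : ∀ y ∈ tsupport D.κ, |y none - 1| ≤ 3 * eta ∧ ∀ v, -1 / 2 ≤ y (jS v)

namespace Geo
variable (Γ : Geo V)

def Gof (g : ℝ × Sp (KS V) → ℝ) (x : Sp (KA V)) : ℝ :=
  hY Γ.K.plain x - Γ.D.p0 (tlL (KS V) x) + g (prA x)

/-- the hypersurface -/
def G : Sp (KA V) → ℝ := Γ.Gof Γ.D.gK
/-- the spun family in polar coordinates -/
def Ψ (z : ℝ × ℝ × Sp (KA V)) : ℝ := Γ.Gof (Γ.D.gS Γ.F z.1 z.2.1) z.2.2

/-- the compact core -/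
def C : Set (Sp (KA V)) :=
  {x | Γ.G x = 0 ∧ tlL (KS V) x ∈ tsupport Γ.D.κ ∧ x none ∈ Icc (3 / 4 : ℝ) (9 / 4)}

def A (X : Set (Sp (KA V))) (c : ℝ) : Set (Lft (Sp (KA V))) := below Γ.G PhiA X fun _ => c
def AF (X : Set (Sp (KA V))) : Set (Lft (Sp (KA V))) :=
  below Γ.G PhiA X fun x => ang (Γ.D.tauF (tlL (KS V) x))
end Geo

/-- The Euclidean data in polar coordinates. -/
structure PolData (m : ℕ) where
  G : Lg m × ℝ → ℝ
  Λ : ℂ → ℂ
  Ξ : Lg m × ℝ → Lg m × ℝ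
  Ξ' : Lg m × ℝ → Lg m × ℝ
  Ψ : ℝ × ℝ × (Lg m × ℝ) → ℝ
  g0 : ℝ → ℝ
  R : ℝ
  ε : ℝ
  ε_pos : 0 < ε
  G_smooth : ContDiff ℝ (⊤ : ℕ∞) G
  Λ_smooth : ContDiff ℝ (⊤ : ℕ∞) Λ
  Λ_std : ∀ w, ‖w‖ < ε → Λ w = w
  Λ_ang : ∀ w, w ≠ 0 → 0 < dArg Λ w (Complex.I * w)
  Λ_zero : ∀ w, Λ w = 0 → w = 0
  Ξ_smooth : ContDiff ℝ (⊤ : ℕ∞) Ξ
  Ξ'_smooth : ContDiff ℝ (⊤ : ℕ∞) Ξ'
  Ξ_left : ∀ p, Ξ' (Ξ p) = p
  Ξ_right : ∀ p, Ξ (Ξ' p) = p
  Ξ_id : ∀ p, R ≤ ‖p‖ ∨ p.1.1 ≤ 1 → Ξ p = p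
  Ξ_zero : ∀ p, p.2 = 0 ↔ G (Ξ p) = 0
  G_reg : ∀ p, G p = 0 → fderiv ℝ G p ≠ 0
  g0_smooth : ContDiff ℝ (⊤ : ℕ∞) g0
  g0_zero : ∀ t, g0 t = 0 ↔ t = 0
  g0_reg : deriv g0 0 ≠ 0
  Ψ_smooth : ContDiff ℝ (⊤ : ℕ∞) Ψ
  Ψ_zero : ∀ θ p, Ψ (0, θ, p) = G p
  Ψ_per : ∃ δ > 0, ∀ s θ, |θ + Real.pi| < δ → ∀ p, Ψ (s, θ + 2 * Real.pi, p) = Ψ (s, θ, p)
  Ψ_std : ∀ s θ (p : Lg m × ℝ), ‖p.1.2.2‖ < ε ∨ R ≤ ‖p‖ ∨ p.1.1 ≤ 1 → Ψ (s, θ, p) = g0 p.2
  Ψ_reg : ∀ s ∈ Icc (0 : ℝ) 1, ∀ θ ∈ Icc (-Real.pi) Real.pi, ∀ p, Ψ (s, θ, p) = 0 →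
    fderiv ℝ (fun q : ℝ × (Lg m × ℝ) => Ψ (s, q)) (θ, p) ≠ 0
  Ψ_fib : ∀ θ ∈ Icc (-Real.pi) Real.pi, ∀ p, Ψ (1, θ, p) = 0 → p.1.2.2 ≠ 0 →
    ∃ v : ℝ × (Lg m × ℝ), fderiv ℝ (fun q : ℝ × (Lg m × ℝ) => Ψ (1, q)) (θ, p) v = 0 ∧
      dArg (fun q : Lg m × ℝ => Λ q.1.2.2) p v.2 ≠ 0
  noFib : ∃ C : Set (Lg m × ℝ), IsCompact C ∧ (∀ p ∈ C, G p = 0 ∧ p.1.2.2 ≠ 0) ∧
    ∀ X β, ¬ FibExt (Ax (m + 1) × ℂ) G (fun q => Λ q.1.2.2) C X β

end SpunKnot
end
end

-- merged part: Pool.Agent.Work.MP_e1e788_gt.NerveB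
section
/-! Adding a vertex whose relative link is acyclic does not change the torsion norm. -/

open Set Matrix
open scoped Classical

noncomputable section
namespace SpunKnot

namespace NerveBAux
variable {R : Type*} [CommRing R] [StarRing R] {ι : Type*} [Fintype ι] [LinearOrder ι]

omit [Fintype ι] in
theorem link_lower {N : Set (Finset ι)} (hN : IsLowerSet N) (v : ι) :
    IsLowerSet {σ : Finset ι | v ∉ σ ∧ insert v σ ∈ N} := by
  intro a b hba ha
  exact ⟨fun h => ha.1 (hba h), hN (Finset.insert_subset_insert v hba) ha.2⟩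

/-- the sign `(-1)^{#{j ∈ σ, v < j}}` -/
def sg (R : Type*) [CommRing R] {ι : Type*} [LinearOrder ι] (v : ι) (σ : Finset ι) : R :=
  (-1) ^ (σ.filter (v < ·)).card

/-- the unitary rescaling of the simplex `insert v σ` -/
def uu (g : ι → ι → R) (v : ι) (σ : Finset ι) : R :=
  sg R v σ * g ((insert v σ).min' (Finset.insert_nonempty v σ)) v

omit [Fintype ι] in
theorem star_sg (v : ι) (σ : Finset ι) : star (sg R v σ) = sg R v σ := by
  simp [sg]

omit [Fintype ι] [StarRing R] in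
theorem sg_mul_self (v : ι) (σ : Finset ι) : sg R v σ * sg R v σ = 1 := by
  simp [sg, ← mul_pow]

omit [Fintype ι] [StarRing R] in
theorem sign_step (v i : ι) (b : Finset ι) (hv : v ∉ b) (hi : i ∈ b) :
    ((-1 : R)) ^ ((insert v b).filter (· < i)).card =
      sg R v (b.erase i) * (-1) ^ (b.filter (· < i)).card * sg R v b := by
  by_cases h : v < i
  · have e1 : ((insert v b).filter (· < i)).card = (b.filter (· < i)).card + 1 := by
      rw [Finset.filter_insert, if_pos h, Finset.card_insert_of_notMem]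
      intro hh
      exact hv (Finset.mem_filter.1 hh).1
    have e2 : (b.filter (v < ·)).card = ((b.erase i).filter (v < ·)).card + 1 := by
      rw [Finset.filter_erase, Finset.card_erase_add_one]
      exact Finset.mem_filter.2 ⟨hi, h⟩
    have := sg_mul_self (R := R) v (b.erase i)
    unfold sg at this ⊢
    rw [e1, e2, pow_succ, pow_succ]
    linear_combination ((-1 : R) ^ (b.filter (· < i)).card) * this
  · have e1 : ((insert v b).filter (· < i)) = (b.filter (· < i)) := by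
      rw [Finset.filter_insert, if_neg h]
    have e2 : (b.filter (v < ·)) = ((b.erase i).filter (v < ·)) := by
      rw [Finset.filter_erase, Finset.erase_eq_of_notMem]
      intro hh
      exact h (Finset.mem_filter.1 hh).2
    have := sg_mul_self (R := R) v (b.erase i)
    unfold sg at this ⊢
    rw [e1, e2]
    linear_combination (-(-1 : R) ^ (b.filter (· < i)).card) * this

omit [Fintype ι] [LinearOrder ι] in
theorem coc_star {g : ι → ι → R} (hg : ∀ i j, g i j * star (g i j) = 1) {i j : ι}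
    (h1 : g i j * g j i = g i i) (h2 : g i i * g i i = g i i) : star (g i j) = g j i := by
  have e : g i i = 1 := by
    have := hg i i
    linear_combination (star (g i i)) * h2 - g i i * this + this
  have := hg i j
  rw [e] at h1
  linear_combination g j i * this - star (g i j) * h1

omit [Fintype ι] [StarRing R] in
theorem tw_one (σ τ : Finset ι) : tw (fun _ _ => (1 : ℤ)) σ τ = 1 := by
  unfold tw
  split_ifs <;> rfl

theorem bd_insert {g : ι → ι → R} (hg : ∀ i j, g i j * star (g i j) = 1) (v : ι)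
    {a b : Finset ι} (ha : v ∉ a) (hb : v ∉ b)
    (hc : ∀ i ∈ insert v b, ∀ j ∈ insert v b, ∀ k ∈ insert v b, g i j * g j k = g i k) :
    bd g (insert v a) (insert v b) =
      star (uu g v a) * ((bdZ ι).map (Int.castRingHom R)) a b * uu g v b := by
  rw [Matrix.map_apply]
  unfold bdZ bd
  rw [map_sum, Finset.mul_sum, Finset.sum_mul, Finset.sum_insert hb, if_neg, zero_add]
  · refine Finset.sum_congr rfl fun i hi => ?_
    have hiv : v ≠ i := fun h => hb (h ▸ hi)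
    have key : insert v a = (insert v b).erase i ↔ a = b.erase i := by
      rw [Finset.erase_insert_of_ne hiv]
      constructor
      · intro h
        have h2 : (insert v a).erase v = (insert v (b.erase i)).erase v := by rw [h]
        rwa [Finset.erase_insert ha, Finset.erase_insert (fun hh => hb (Finset.mem_of_mem_erase hh))]
          at h2
      · intro h
        rw [h]
    by_cases h : a = b.erase i
    · rw [if_pos (key.2 h), if_pos h, tw_one, mul_one]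
      have hsub : insert v a ⊆ insert v b := by
        rw [h]
        exact Finset.insert_subset_insert v (Finset.erase_subset i b)
      have htw : tw g (insert v b) (insert v a) =
          g ((insert v b).min' (Finset.insert_nonempty v b))
            ((insert v a).min' (Finset.insert_nonempty v a)) := by
        unfold tw
        rw [dif_pos ⟨Finset.insert_nonempty v b, Finset.insert_nonempty v a⟩]
      have hma : (insert v a).min' (Finset.insert_nonempty v a) ∈ insert v b :=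
        hsub (Finset.min'_mem _ _)
      have hmb : (insert v b).min' (Finset.insert_nonempty v b) ∈ insert v b :=
        Finset.min'_mem _ _
      have hvv : v ∈ insert v b := Finset.mem_insert_self v b
      have hs := coc_star hg (hc _ hma _ hvv _ hma) (hc _ hma _ hma _ hma)
      have h3 := hc _ hmb _ hvv _ hma
      rw [htw, sign_step (R := R) v i b hb hi, ← h]
      unfold uu
      rw [star_mul', star_sg, hs, ← h3]
      simp only [eq_intCast, Int.cast_pow, Int.cast_neg, Int.cast_one]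
      ring
    · rw [if_neg (fun hh => h (key.1 hh)), if_neg h]
      simp
  · rw [Finset.erase_insert hb]
    intro h
    exact hb (h ▸ Finset.mem_insert_self v a)

theorem hasNu_star {g : ι → ι → R} (hg : ∀ i j, g i j * star (g i j) = 1)
    {N N' : Set (Finset ι)} (hN : IsLowerSet N) (hN' : IsLowerSet N')
    (hc : Coc g (N' \ N)) (v : ι)
    (hl : Acyc (bdZ ι) ({σ | v ∉ σ ∧ insert v σ ∈ N'} \ {σ | v ∉ σ ∧ insert v σ ∈ N})) :
    HasNu (bd g) Finset.card {σ | σ ∈ N' \ N ∧ v ∈ σ} 1 := by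
  set L : Set (Finset ι) := {σ | v ∉ σ ∧ insert v σ ∈ N'} \ {σ | v ∉ σ ∧ insert v σ ∈ N}
    with hL
  have c0 : IsCx (bdZ ι) Finset.card L :=
    isCx_bd (link_lower hN v) (link_lower hN' v) (fun _ _ _ _ _ _ _ _ => by simp)
      (Or.inr fun _ _ => rfl)
  have c1 : IsCx (bdZ ι) (fun σ => σ.card + 1) L :=
    ⟨c0.sq, fun a ha b hb h => by rw [c0.dg a ha b hb h]⟩
  have n1 : HasNu ((bdZ ι).map (Int.castRingHom R)) (fun σ => σ.card + 1) L 1 :=
    hasNu_int c1 hl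
  have hmem : ∀ a ∈ L, v ∉ a ∧ insert v a ∈ N' \ N := fun a ha =>
    ⟨ha.1.1, ha.1.2, fun h => ha.2 ⟨ha.1.1, h⟩⟩
  have himg : (fun σ => insert v σ) '' L = {σ | σ ∈ N' \ N ∧ v ∈ σ} := by
    ext σ
    constructor
    · rintro ⟨a, ha, rfl⟩
      exact ⟨(hmem a ha).2, Finset.mem_insert_self v a⟩
    · rintro ⟨h1, h2⟩
      refine ⟨σ.erase v, ⟨⟨Finset.notMem_erase v σ, ?_⟩, fun h => h1.2 ?_⟩, ?_⟩
      · rw [Finset.insert_erase h2]
        exact h1.1
      · have := h.2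
        rwa [Finset.insert_erase h2] at this
      · exact Finset.insert_erase h2
  rw [← himg]
  refine (hasNu_transport (d' := bd g) (deg' := Finset.card) (fun σ => insert v σ) ?_ (uu g v)
    ?_ ?_ ?_ 1).1 n1
  · intro a ha b hb h
    have h2 : (insert v a).erase v = (insert v b).erase v := by
      simp only at h
      rw [h]
    rwa [Finset.erase_insert (hmem a ha).1, Finset.erase_insert (hmem b hb).1] at h2
  · intro a _
    unfold uu
    rw [star_mul', star_sg]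
    have h1 := sg_mul_self (R := R) v a
    have h2 := hg ((insert v a).min' (Finset.insert_nonempty v a)) v
    linear_combination (g ((insert v a).min' (Finset.insert_nonempty v a)) v *
      star (g ((insert v a).min' (Finset.insert_nonempty v a)) v)) * h1 + h2
  · intro a ha b hb
    exact bd_insert hg v (hmem a ha).1 (hmem b hb).1 (hc _ (hmem b hb).2)
  · intro a ha
    exact Finset.card_insert_of_notMem (hmem a ha).1

omit [Fintype ι] in
theorem split (N N' : Set (Finset ι)) (v : ι) :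
    N' \ N = ({σ | σ ∈ N' ∧ v ∉ σ} \ N) ∪ {σ | σ ∈ N' \ N ∧ v ∈ σ} := by
  ext σ
  simp only [mem_sdiff, mem_union, mem_ofPred_eq]
  tauto

omit [Fintype ι] [LinearOrder ι] in
theorem split_disj (N N' : Set (Finset ι)) (v : ι) :
    Disjoint ({σ | σ ∈ N' ∧ v ∉ σ} \ N) {σ | σ ∈ N' \ N ∧ v ∈ σ} :=
  Set.disjoint_left.2 fun _ h1 h2 => h1.1.2 h2.2

omit [StarRing R] in
theorem split_tri (g : ι → ι → R) (N N' : Set (Finset ι)) (v : ι) :
    ∀ a ∈ {σ | σ ∈ N' \ N ∧ v ∈ σ}, ∀ b ∈ ({σ | σ ∈ N' ∧ v ∉ σ} \ N), bd g a b = 0 :=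
  fun _ ha _ hb => bd_eq_zero_of_not_subset g fun h => hb.1.2 (h ha.2)

omit [Fintype ι] in
theorem avoid_lower {N : Set (Finset ι)} (hN : IsLowerSet N) (J : Finset ι) :
    IsLowerSet {σ : Finset ι | σ ∈ N ∧ Disjoint σ J} := by
  intro a b hba ha
  exact ⟨hN hba ha.1, ha.2.mono_left hba⟩

end NerveBAux

open NerveBAux

variable {R : Type*} [CommRing R] [StarRing R] {ι : Type*} [Fintype ι] [LinearOrder ι]

theorem hasNu_add {g : ι → ι → R} (hg : ∀ i j, g i j * star (g i j) = 1)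
    {N N' : Set (Finset ι)} (hN : IsLowerSet N) (hN' : IsLowerSet N') (hsub : N ⊆ N')
    (hc : Coc g (N' \ N)) (h0 : ∅ ∈ N ∨ ∀ i j, g i j = 1) (v : ι)
    (hl : Acyc (bdZ ι) ({σ | v ∉ σ ∧ insert v σ ∈ N'} \ {σ | v ∉ σ ∧ insert v σ ∈ N})) (W : R) :
    HasNu (bd g) Finset.card (N' \ N) W ↔
      HasNu (bd g) Finset.card ({σ | σ ∈ N' ∧ v ∉ σ} \ N) W := by
  have _ := hsub
  have h2 := hasNu_star hg hN hN' hc v hl
  have hcx := isCx_bd hN hN' hc h0
  have hdj := split_disj N N' v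
  have htri := split_tri g N N' v
  rw [split N N' v] at hcx
  constructor
  · intro h
    rw [split N N' v] at h
    obtain ⟨W₁, hW₁⟩ := exists_hasNu (hcx.sub hdj htri) (acyc_sub hcx hdj htri h2.acyc h.acyc)
    have := (hasNu_union hcx hdj htri hW₁ h2).unique h
    rw [mul_one] at this
    rwa [← this]
  · intro h
    have := hasNu_union hcx hdj htri h h2
    rw [mul_one] at this
    rwa [split N N' v]

theorem acyc_add {N N' : Set (Finset ι)} (hN : IsLowerSet N) (hN' : IsLowerSet N')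
    (hsub : N ⊆ N') (v : ι)
    (hl : Acyc (bdZ ι) ({σ | v ∉ σ ∧ insert v σ ∈ N'} \ {σ | v ∉ σ ∧ insert v σ ∈ N})) :
    Acyc (bdZ ι) (N' \ N) ↔ Acyc (bdZ ι) ({σ | σ ∈ N' ∧ v ∉ σ} \ N) := by
  have _ := hsub
  have hc : Coc (fun _ _ : ι => (1 : ℤ)) (N' \ N) := fun _ _ _ _ _ _ _ _ => by simp
  have h2 := (hasNu_star (R := ℤ) (g := fun _ _ => 1) (fun _ _ => by simp) hN hN' hc v hl).acyc
  have hcx := isCx_bd hN hN' hc (Or.inr fun _ _ => rfl)
  have hdj := split_disj N N' v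
  have htri := split_tri (fun _ _ : ι => (1 : ℤ)) N N' v
  rw [split N N' v] at hcx
  constructor
  · intro h
    rw [split N N' v] at h
    exact acyc_sub hcx hdj htri h2 h
  · intro h
    rw [split N N' v]
    exact acyc_union hcx hdj htri h h2

/-- Removing a set `J` of vertices one at a time.  `hl` says that for each `v ∈ J` and each
`J' ⊆ J` not containing `v`, the relative link of `v` among simplices avoiding `J'` is acyclic. -/
theorem hasNu_add_many {g : ι → ι → R} (hg : ∀ i j, g i j * star (g i j) = 1)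
    {N N' : Set (Finset ι)} (hN : IsLowerSet N) (hN' : IsLowerSet N') (hsub : N ⊆ N')
    (hc : Coc g (N' \ N)) (h0 : ∅ ∈ N ∨ ∀ i j, g i j = 1) (J : Finset ι)
    (hl : ∀ v ∈ J, ∀ J' ⊆ J, v ∉ J' →
      Acyc (bdZ ι) ({σ | v ∉ σ ∧ Disjoint σ J' ∧ insert v σ ∈ N'} \
        {σ | v ∉ σ ∧ Disjoint σ J' ∧ insert v σ ∈ N})) (W : R) :
    HasNu (bd g) Finset.card (N' \ N) W ↔
      HasNu (bd g) Finset.card ({σ | σ ∈ N' ∧ Disjoint σ J} \ N) W := by
  have main : ∀ J' : Finset ι, J' ⊆ J → (HasNu (bd g) Finset.card (N' \ N) W ↔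
      HasNu (bd g) Finset.card ({σ | σ ∈ N' ∧ Disjoint σ J'} \ N) W) := by
    intro J'
    induction J' using Finset.induction_on with
    | empty =>
      intro _
      have : {σ : Finset ι | σ ∈ N' ∧ Disjoint σ ∅} = N' := by
        ext σ
        simp
      rw [this]
    | insert v J' hv ih =>
      intro hJ
      have hJ' : J' ⊆ J := (Finset.subset_insert v J').trans hJ
      rw [ih hJ']
      have e1 : {σ : Finset ι | σ ∈ N' ∧ Disjoint σ J'} \ {σ | σ ∈ N ∧ Disjoint σ J'} =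
          {σ | σ ∈ N' ∧ Disjoint σ J'} \ N := by
        ext σ
        simp only [mem_sdiff, mem_ofPred_eq]
        tauto
      have e2 : {σ : Finset ι | σ ∈ {σ : Finset ι | σ ∈ N' ∧ Disjoint σ J'} ∧ v ∉ σ} \
          {σ | σ ∈ N ∧ Disjoint σ J'} = {σ | σ ∈ N' ∧ Disjoint σ (insert v J')} \ N := by
        ext σ
        simp only [mem_sdiff, mem_ofPred_eq, Finset.disjoint_insert_right]
        tauto
      have e3 : ∀ M : Set (Finset ι),
          {σ : Finset ι | v ∉ σ ∧ insert v σ ∈ {σ : Finset ι | σ ∈ M ∧ Disjoint σ J'}} =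
          {σ | v ∉ σ ∧ Disjoint σ J' ∧ insert v σ ∈ M} := by
        intro M
        ext σ
        simp only [mem_ofPred_eq, Finset.disjoint_insert_left]
        tauto
      have := hasNu_add hg (avoid_lower hN J') (avoid_lower hN' J')
        (fun σ h => ⟨hsub h.1, h.2⟩) (by
          rw [e1]
          exact fun σ hσ => hc σ ⟨hσ.1.1, hσ.2⟩)
        (h0.imp_left fun h => ⟨h, Finset.disjoint_empty_left J'⟩) v (by
          rw [e3, e3]
          exact hl v (hJ (Finset.mem_insert_self v J')) J' hJ' hv) W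
      rwa [e1, e2] at this
  exact main J (Finset.Subset.refl J)

end SpunKnot
end
end

-- merged part: Pool.Agent.Work.MP_e1e788_gt.TorA
section
/-! Independence of the family; formal properties of `Tor`. -/

open Set Matrix Filter Topology Metric
open scoped Classical

noncomputable section
namespace SpunKnot
variable {Ω : Type*} [MetricSpace Ω] {R : Type*} [CommRing R] [StarRing R]

namespace TorAAux

theorem nerve_lower {Ω ι : Type*} (B : ι → Set Ω) (A : Set Ω) : IsLowerSet (nerve B A) := by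
  intro σ τ h hσ
  obtain ⟨x, hx, hσ⟩ := hσ
  exact ⟨x, hx, fun i hi => hσ i (h hi)⟩

theorem nerve_mono {Ω ι : Type*} (B : ι → Set Ω) {A A' : Set Ω} (h : A ⊆ A') :
    nerve B A ⊆ nerve B A' := by
  rintro σ ⟨x, hx, hσ⟩
  exact ⟨x, h hx, hσ⟩

theorem map_mem_nerve {Ω ι κ : Type*} (f : ι ↪ κ) (C : κ → Set Ω) (A : Set Ω) (σ : Finset ι) :
    σ.map f ∈ nerve C A ↔ σ ∈ nerve (fun i => C (f i)) A := by
  constructor
  · rintro ⟨x, hx, h⟩
    exact ⟨x, hx, fun i hi => h _ (Finset.mem_map_of_mem f hi)⟩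
  · rintro ⟨x, hx, h⟩
    refine ⟨x, hx, fun j hj => ?_⟩
    obtain ⟨i, hi, rfl⟩ := Finset.mem_map.1 hj
    exact h i hi

theorem exists_map {ι κ : Type*} (f : ι ↪ κ) (τ : Finset κ) (h : ∀ j ∈ τ, ∃ i, f i = j) :
    ∃ σ : Finset ι, σ.map f = τ := by
  refine ⟨τ.preimage f f.injective.injOn, ?_⟩
  ext j
  simp only [Finset.mem_map, Finset.mem_preimage]
  constructor
  · rintro ⟨i, hi, rfl⟩
    exact hi
  · intro hj
    obtain ⟨i, rfl⟩ := h j hj
    exact ⟨i, hj, rfl⟩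

/-- the reindexed difference of nerves -/
theorem image_diff {Ω ι κ : Type*} (f : ι ↪ κ) (C : κ → Set Ω) (A' A : Set Ω) :
    (fun σ : Finset ι => σ.map f) ''
        (nerve (fun i => C (f i)) A' \ nerve (fun i => C (f i)) A) =
      {τ | τ ∈ nerve C A' ∧ ∀ j ∈ τ, ∃ i, f i = j} \ nerve C A := by
  ext τ
  constructor
  · rintro ⟨σ, ⟨h₁, h₂⟩, rfl⟩
    refine ⟨⟨(map_mem_nerve f C A' σ).2 h₁, fun j hj => ?_⟩,
      fun h => h₂ ((map_mem_nerve f C A σ).1 h)⟩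
    obtain ⟨i, -, rfl⟩ := Finset.mem_map.1 hj
    exact ⟨i, rfl⟩
  · rintro ⟨⟨h₁, h₃⟩, h₂⟩
    obtain ⟨σ, rfl⟩ := exists_map f τ h₃
    exact ⟨σ, ⟨(map_mem_nerve f C A' σ).1 h₁, fun h => h₂ ((map_mem_nerve f C A σ).2 h)⟩, rfl⟩

/-- generic form: a bigger family whose new members miss `V' \ V` -/
theorem acyc_of_big {𝔅 : Set (Set Ω)} {V V' : Set Ω} (hsub : V ⊆ V')
    (a : LA 𝔅 V univ) (a' : LA 𝔅 V' univ)
    {ι : Type} [Fintype ι] [LinearOrder ι] {κ : Type} [Fintype κ] [LinearOrder κ] (f : ι ↪o κ)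
    (C : κ → Set Ω) (hC : ∀ i, C i ∈ 𝔅) (hcov : ∀ x ∈ V', ∃ j, C j ∈ 𝓝 x)
    (hnew : ∀ j, ∀ x ∈ C j, x ∈ V' \ V → ∃ i, f i = j) :
    Acyc (bdZ ι) (nerve (fun i => C (f i)) V' \ nerve (fun i => C (f i)) V) := by
  have h₁ := a κ C hC fun x hx => hcov x (hsub hx.2)
  have h₂ := a' κ C hC fun x hx => hcov x hx.2
  rw [univ_inter] at h₁ h₂
  have h₃ := acyc_rel (nerve_lower C V) (nerve_lower C V') (nerve_mono C hsub) h₁ h₂
  refine (acyc_reindex f _).2 ?_
  have e := image_diff f.toEmbedding C V' V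
  have e' : {τ | τ ∈ nerve C V' ∧ ∀ j ∈ τ, ∃ i, f.toEmbedding i = j} \ nerve C V =
      nerve C V' \ nerve C V := by
    ext τ
    constructor
    · rintro ⟨⟨h, -⟩, h'⟩
      exact ⟨h, h'⟩
    · rintro ⟨⟨x, hx, h⟩, h'⟩
      refine ⟨⟨⟨x, hx, h⟩, fun j hj => hnew j x (h j hj) ⟨hx, fun hV => h' ⟨x, hV, h⟩⟩⟩, h'⟩
  rw [e'] at e
  exact e ▸ h₃

/-- the left inclusion into the lexicographic sum -/
def inlO (ι κ : Type) [LinearOrder ι] [LinearOrder κ] : ι ↪o (ι ⊕ₗ κ) :=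
  OrderEmbedding.ofStrictMono _ Sum.Lex.inl_strictMono

/-- the right inclusion into the lexicographic sum -/
def inrO (ι κ : Type) [LinearOrder ι] [LinearOrder κ] : κ ↪o (ι ⊕ₗ κ) :=
  OrderEmbedding.ofStrictMono _ Sum.Lex.inr_strictMono

/-- a function on the lexicographic sum -/
def elimO {ι κ : Type} {α : Type*} (p : ι → α) (q : κ → α) : (ι ⊕ₗ κ) → α :=
  fun j => Sum.elim p q (ofLex j)

theorem cases_lex {ι κ : Type} [LinearOrder ι] [LinearOrder κ] (j : ι ⊕ₗ κ) :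
    (∃ i, inlO ι κ i = j) ∨ ∃ i, inrO ι κ i = j := by
  rcases h : ofLex j with i | i
  · exact Or.inl ⟨i, congrArg toLex h.symm⟩
  · exact Or.inr ⟨i, congrArg toLex h.symm⟩

end TorAAux

open TorAAux in
/-- relative acyclicity from absolute acyclicity (add small members missing `V' \ V`) -/
theorem acyc_rel_of_abs {𝔅 : Set (Set Ω)} {V V' : Set Ω} (hV : IsCompact V) (hV' : IsCompact V')
    (hsub : V ⊆ V') (hsm : ∀ x ∈ V', ∀ U ∈ 𝓝 x, ∃ B ∈ 𝔅, B ∈ 𝓝 x ∧ B ⊆ U)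
    (a : LA 𝔅 V univ) (a' : LA 𝔅 V' univ)
    {ι : Type} [Fintype ι] [LinearOrder ι] (B : ι → Set Ω) (hB : ∀ i, B i ∈ 𝔅)
    (hcov : ∀ x ∈ closure (V' \ V), ∃ i, B i ∈ 𝓝 x) :
    Acyc (bdZ ι) (nerve B V' \ nerve B V) := by
  have hK : IsCompact (V' \ ⋃ i, interior (B i)) :=
    hV'.diff (isOpen_iUnion fun _ => isOpen_interior)
  have hD : ∀ x : Ω, ∃ D : Set Ω, x ∈ V' \ ⋃ i, interior (B i) →
      D ∈ 𝔅 ∧ D ∈ 𝓝 x ∧ D ⊆ (closure (V' \ V))ᶜ := by
    intro x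
    by_cases hx : x ∈ V' \ ⋃ i, interior (B i)
    · have hc : x ∉ closure (V' \ V) := by
        intro hc
        obtain ⟨i, hi⟩ := hcov x hc
        exact hx.2 (mem_iUnion.2 ⟨i, mem_interior_iff_mem_nhds.2 hi⟩)
      obtain ⟨D, h₁, h₂, h₃⟩ := hsm x hx.1 _ (isClosed_closure.isOpen_compl.mem_nhds hc)
      exact ⟨D, fun _ => ⟨h₁, h₂, h₃⟩⟩
    · exact ⟨∅, fun h => absurd h hx⟩
  choose D hD using hD
  obtain ⟨t, ht, hcv⟩ := hK.elim_nhds_subcover (fun x => interior (D x))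
    fun x hx => interior_mem_nhds.2 (hD x hx).2.1
  let p : Fin t.card → Ω := fun k => (t.equivFin.symm k : Ω)
  have hp : ∀ k, p k ∈ V' \ ⋃ i, interior (B i) := fun k => ht _ (t.equivFin.symm k).2
  refine acyc_of_big hsub a a' (inlO ι (Fin t.card)) (elimO B fun k => D (p k)) ?_ ?_ ?_
  · intro j
    rcases cases_lex j with ⟨i, rfl⟩ | ⟨i, rfl⟩
    · exact hB i
    · exact (hD _ (hp i)).1
  · intro x hx
    by_cases h : x ∈ ⋃ i, interior (B i)
    · obtain ⟨i, hi⟩ := mem_iUnion.1 h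
      exact ⟨inlO ι _ i, mem_interior_iff_mem_nhds.1 hi⟩
    · obtain ⟨y, hy, hxy⟩ := mem_iUnion₂.1 (hcv ⟨hx, h⟩)
      refine ⟨inrO ι _ (t.equivFin ⟨y, hy⟩), ?_⟩
      have : p (t.equivFin ⟨y, hy⟩) = y := by simp [p]
      change D (p (t.equivFin ⟨y, hy⟩)) ∈ 𝓝 x
      rw [this]
      exact mem_interior_iff_mem_nhds.1 hxy
  · intro j x hx hxV
    rcases cases_lex j with ⟨i, rfl⟩ | ⟨i, rfl⟩
    · exact ⟨i, rfl⟩
    · exact absurd (subset_closure hxV) ((hD _ (hp i)).2.2 hx)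

namespace TorAAux

/-- the relative link of a vertex `v` among simplices avoiding `J'` -/
theorem link_acyc {𝔅 : Set (Set Ω)} {A' A : Set Ω} (hsub : A ⊆ A') (cl : IsClosed A)
    (cl' : IsClosed A') (hc : ∀ B ∈ 𝔅, IsCompact B)
    (hsm : ∀ B₀ ∈ 𝔅, ∀ x ∈ B₀, ∀ U ∈ 𝓝 x, ∃ B ∈ 𝔅, B ∈ 𝓝 x ∧ B ⊆ U)
    (hla : ∀ B₀ ∈ 𝔅, (B₀ ∩ closure (A' \ A)).Nonempty → LA 𝔅 A B₀ ∧ LA 𝔅 A' B₀)
    {κ : Type} [Fintype κ] [LinearOrder κ] (C : κ → Set Ω) (hC : ∀ j, C j ∈ 𝔅) (v : κ)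
    (J' : Finset κ) (hcov : ∀ x ∈ closure (A' \ A), ∃ j, j ≠ v ∧ j ∉ J' ∧ C j ∈ 𝓝 x) :
    Acyc (bdZ κ) ({σ | v ∉ σ ∧ Disjoint σ J' ∧ insert v σ ∈ nerve C A'} \
      {σ | v ∉ σ ∧ Disjoint σ J' ∧ insert v σ ∈ nerve C A}) := by
  have hins : ∀ (X : Set Ω) (σ : Finset κ), insert v σ ∈ nerve C X ↔ σ ∈ nerve C (C v ∩ X) := by
    intro X σ
    constructor
    · rintro ⟨x, hx, h⟩
      exact ⟨x, ⟨h v (Finset.mem_insert_self _ _), hx⟩,
        fun i hi => h i (Finset.mem_insert_of_mem hi)⟩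
    · rintro ⟨x, hx, h⟩
      refine ⟨x, hx.2, fun i hi => ?_⟩
      rcases Finset.mem_insert.1 hi with rfl | hi
      · exact hx.1
      · exact h i hi
  by_cases hne : (C v ∩ closure (A' \ A)).Nonempty
  · obtain ⟨la, la'⟩ := hla _ (hC v) hne
    let f : {j : κ // j ≠ v ∧ j ∉ J'} ↪o κ := OrderEmbedding.subtype _
    have hV : IsCompact (C v ∩ A) := (hc _ (hC v)).inter_right cl
    have hV' : IsCompact (C v ∩ A') := (hc _ (hC v)).inter_right cl'
    have h₁ : Acyc (bdZ {j : κ // j ≠ v ∧ j ∉ J'})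
        (nerve (fun i => C (f i)) (C v ∩ A') \ nerve (fun i => C (f i)) (C v ∩ A)) := by
      refine acyc_rel_of_abs (𝔅 := 𝔅) hV hV' (inter_subset_inter_right _ hsub)
        (fun x hx => hsm _ (hC v) x hx.1) ?_ ?_ _ (fun i => hC _) ?_
      · intro ι _ _ B hB hcv
        rw [univ_inter] at hcv ⊢
        exact la ι B hB hcv
      · intro ι _ _ B hB hcv
        rw [univ_inter] at hcv ⊢
        exact la' ι B hB hcv
      · intro x hx
        have hx' : x ∈ closure (A' \ A) :=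
          closure_mono (fun y hy => (⟨hy.1.2, fun h => hy.2 ⟨hy.1.1, h⟩⟩ : y ∈ A' \ A)) hx
        obtain ⟨j, h₁, h₂, h₃⟩ := hcov x hx'
        exact ⟨⟨j, h₁, h₂⟩, h₃⟩
    have h₂ := (acyc_reindex f _).1 h₁
    have e := image_diff f.toEmbedding C (C v ∩ A') (C v ∩ A)
    have e' : {τ | τ ∈ nerve C (C v ∩ A') ∧ ∀ j ∈ τ, ∃ i, f.toEmbedding i = j} \
        nerve C (C v ∩ A) = {σ | v ∉ σ ∧ Disjoint σ J' ∧ insert v σ ∈ nerve C A'} \
          {σ | v ∉ σ ∧ Disjoint σ J' ∧ insert v σ ∈ nerve C A} := by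
      ext τ
      constructor
      · rintro ⟨⟨h, hr⟩, h'⟩
        refine ⟨⟨fun hv => ?_, Finset.disjoint_left.2 fun j hj hJ => ?_, (hins _ _).2 h⟩,
          fun h'' => h' ((hins _ _).1 h''.2.2)⟩
        · obtain ⟨i, hi⟩ := hr v hv
          exact i.2.1 hi
        · obtain ⟨i, rfl⟩ := hr j hj
          exact i.2.2 hJ
      · rintro ⟨⟨hv, hd, h⟩, h'⟩
        refine ⟨⟨(hins _ _).1 h, fun j hj => ?_⟩, fun h'' => h' ⟨hv, hd, (hins _ _).2 h''⟩⟩
        exact ⟨⟨j, fun e => hv (e ▸ hj), Finset.disjoint_left.1 hd hj⟩, rfl⟩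
    rw [e'] at e
    exact e ▸ h₂
  · have e : {σ | v ∉ σ ∧ Disjoint σ J' ∧ insert v σ ∈ nerve C A'} \
        {σ | v ∉ σ ∧ Disjoint σ J' ∧ insert v σ ∈ nerve C A} = (∅ : Set (Finset κ)) := by
      refine sdiff_eq_empty.2 ?_
      rintro σ ⟨hv, hd, x, hx, h⟩
      refine ⟨hv, hd, x, ?_, h⟩
      by_contra hA
      exact hne ⟨x, h v (Finset.mem_insert_self _ _), subset_closure ⟨hx, hA⟩⟩
    rw [e]
    exact acyc_empty _

/-- enlarging an admissible family does not change the torsion norm -/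
theorem hasNu_enlarge {L : Lab Ω R} (hL : L.Good) {𝔅 : Set (Set Ω)} {A' A : Set Ω}
    (hp : Pair L A' A) (hc : ∀ B ∈ 𝔅, IsCompact B)
    (hsm : ∀ B₀ ∈ 𝔅, ∀ x ∈ B₀, ∀ U ∈ 𝓝 x, ∃ B ∈ 𝔅, B ∈ 𝓝 x ∧ B ⊆ U)
    (hla : ∀ B₀ ∈ 𝔅, (B₀ ∩ closure (A' \ A)).Nonempty → LA 𝔅 A B₀ ∧ LA 𝔅 A' B₀)
    {ι : Type} [Fintype ι] [LinearOrder ι] {κ : Type} [Fintype κ] [LinearOrder κ] (f : ι ↪o κ)
    (C : κ → Set Ω) (m : κ → L.Λ) (hC : ∀ j, C j ∈ 𝔅) (hm : ∀ j, C j ∩ L.Y ⊆ L.O (m j))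
    (hcov : ∀ x ∈ closure (A' \ A), ∃ i, C (f i) ∈ 𝓝 x) (W : R) :
    HasNu (bd fun i j => L.G (m i) (m j)) Finset.card (nerve C A' \ nerve C A) W ↔
      HasNu (bd fun i j => L.G (m (f i)) (m (f j))) Finset.card
        (nerve (fun i => C (f i)) A' \ nerve (fun i => C (f i)) A) W := by
  let J : Finset κ := Finset.univ.filter fun j => ¬ ∃ i, f i = j
  have hJ : ∀ j, j ∈ J ↔ ¬ ∃ i, f i = j := fun j => by simp [J]
  have hcoc : Coc (fun i j => L.G (m i) (m j)) (nerve C A' \ nerve C A) := by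
    rintro σ ⟨⟨x, hx, h⟩, h'⟩ i hi j hj k hk
    have hY : x ∈ L.Y := hp.inY (subset_closure ⟨hx, fun hA => h' ⟨x, hA, h⟩⟩)
    exact hL.coc _ _ _ x hY (hm i ⟨h i hi, hY⟩) (hm j ⟨h j hj, hY⟩) (hm k ⟨h k hk, hY⟩)
  have h0 : ∅ ∈ nerve C A ∨ ∀ i j, L.G (m i) (m j) = 1 := by
    rcases hp.ne with ⟨x, hx⟩ | h
    · exact Or.inl ⟨x, hx, fun i hi => absurd hi (Finset.notMem_empty i)⟩
    · exact Or.inr fun i j => h _ _
  have h₁ := hasNu_add_many (g := fun i j => L.G (m i) (m j)) (fun i j => hL.unit _ _)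
    (nerve_lower C A) (nerve_lower C A') (nerve_mono C hp.sub) hcoc h0 J ?_ W
  · rw [h₁]
    have h₂ := hasNu_reindex f (fun i j => L.G (m i) (m j))
      (nerve (fun i => C (f i)) A' \ nerve (fun i => C (f i)) A) W
    rw [h₂]
    have e := image_diff f.toEmbedding C A' A
    have e' : {τ | τ ∈ nerve C A' ∧ ∀ j ∈ τ, ∃ i, f.toEmbedding i = j} =
        {σ | σ ∈ nerve C A' ∧ Disjoint σ J} := by
      ext τ
      refine and_congr_right fun _ => ?_
      rw [Finset.disjoint_left]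
      refine forall₂_congr fun j _ => ?_
      rw [hJ, not_not]
      rfl
    rw [e'] at e
    exact e ▸ Iff.rfl
  · intro v hv J' hJ' _
    refine link_acyc hp.sub hp.cl hp.cl' hc hsm hla C hC v J' fun x hx => ?_
    obtain ⟨i, hi⟩ := hcov x hx
    exact ⟨f i, fun e => (hJ v).1 hv ⟨i, e⟩, fun h => (hJ _).1 (hJ' h) ⟨i, rfl⟩, hi⟩

end TorAAux

open TorAAux in
/-- one admissible family determines the torsion norm for all of them -/
theorem torC_of_one {L : Lab Ω R} (hL : L.Good) {𝔅 : Set (Set Ω)} {A' A : Set Ω}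
    (hp : Pair L A' A) (hc : ∀ B ∈ 𝔅, IsCompact B)
    (hsm : ∀ B₀ ∈ 𝔅, ∀ x ∈ B₀, ∀ U ∈ 𝓝 x, ∃ B ∈ 𝔅, B ∈ 𝓝 x ∧ B ⊆ U)
    (hla : ∀ B₀ ∈ 𝔅, (B₀ ∩ closure (A' \ A)).Nonempty → LA 𝔅 A B₀ ∧ LA 𝔅 A' B₀)
    {ι : Type} [Fintype ι] [LinearOrder ι] {B : ι → Set Ω} {l : ι → L.Λ}
    (hB : Adm L 𝔅 A' A B l) {W : R}
    (hW : HasNu (bd fun i j => L.G (l i) (l j)) Finset.card (nerve B A' \ nerve B A) W) :
    TorC L 𝔅 A' A W := by
  intro ι' _ _ B' l' hB'
  have hC : ∀ j, elimO B B' j ∈ 𝔅 := by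
    intro j
    rcases cases_lex j with ⟨i, rfl⟩ | ⟨i, rfl⟩
    · exact hB.mem i
    · exact hB'.mem i
  have hm : ∀ j, elimO B B' j ∩ L.Y ⊆ L.O (elimO l l' j) := by
    intro j
    rcases cases_lex j with ⟨i, rfl⟩ | ⟨i, rfl⟩
    · exact hB.lab i
    · exact hB'.lab i
  have h₁ := hasNu_enlarge hL hp hc hsm hla (inlO ι ι') (elimO B B') (elimO l l') hC hm hB.cov W
  have h₂ := hasNu_enlarge hL hp hc hsm hla (inrO ι ι') (elimO B B') (elimO l l') hC hm hB'.cov W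
  exact h₂.1 (h₁.2 hW)

end SpunKnot
end
end

-- merged part: Pool.Agent.Work.MP_e1e788_gt.TorB
section
/-! Formal properties of `Tor`. -/

open Set Matrix Filter Topology Metric
open scoped Classical

noncomputable section
namespace SpunKnot
variable {Ω : Type*} [MetricSpace Ω] {R : Type*} [CommRing R] [StarRing R]

namespace TorBAux

theorem balls_mono {r r' : ℝ} (h : r ≤ r') : balls Ω r ⊆ balls Ω r' := by
  rintro B ⟨x, ρ, h0, h1, rfl⟩
  exact ⟨x, ρ, h0, h1.trans h, rfl⟩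

omit [CommRing R] [StarRing R] in
theorem adm_mono {L : Lab Ω R} {𝔅 𝔅' : Set (Set Ω)} (h𝔅 : 𝔅 ⊆ 𝔅') {A' A C' C : Set Ω}
    (hs : C' \ C ⊆ A' \ A) {ι : Type} {B : ι → Set Ω} {l : ι → L.Λ}
    (h : Adm L 𝔅 A' A B l) : Adm L 𝔅' C' C B l :=
  ⟨fun i => h𝔅 (h.mem i), h.lab, fun x hx => h.cov x (closure_mono hs hx)⟩

omit [MetricSpace Ω] in
theorem nerve_lower {ι : Type*} (B : ι → Set Ω) (A : Set Ω) : IsLowerSet (nerve B A) := by
  rintro σ τ hτ ⟨x, hx, h⟩
  exact ⟨x, hx, fun i hi => h i (hτ hi)⟩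

omit [MetricSpace Ω] in
theorem nerve_mono {ι : Type*} (B : ι → Set Ω) {A A' : Set Ω} (h : A ⊆ A') :
    nerve B A ⊆ nerve B A' := by
  rintro σ ⟨x, hx, h'⟩
  exact ⟨x, h hx, h'⟩

omit [MetricSpace Ω] in
theorem nerve_empty {ι : Type*} (B : ι → Set Ω) : nerve B (∅ : Set Ω) = ∅ := by
  ext σ
  simp [nerve]

theorem isCx_adm {L : Lab Ω R} (hL : L.Good) {𝔅 : Set (Set Ω)} {A' A : Set Ω}
    (hp : Pair L A' A) {ι : Type} [Fintype ι] [LinearOrder ι] {B : ι → Set Ω} {l : ι → L.Λ}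
    (h : Adm L 𝔅 A' A B l) :
    IsCx (bd fun i j => L.G (l i) (l j)) Finset.card (nerve B A' \ nerve B A) := by
  refine isCx_bd (nerve_lower B A) (nerve_lower B A') ?_ ?_
  · rintro σ ⟨⟨x, hx, hxσ⟩, hn⟩ i hi j hj k hk
    have hxA : x ∉ A := fun hA => hn ⟨x, hA, hxσ⟩
    have hY : x ∈ L.Y := hp.inY (subset_closure ⟨hx, hxA⟩)
    exact hL.coc _ _ _ x hY (h.lab i ⟨hxσ i hi, hY⟩) (h.lab j ⟨hxσ j hj, hY⟩)
      (h.lab k ⟨hxσ k hk, hY⟩)
  · rcases hp.ne with ⟨x, hx⟩ | h1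
    · exact Or.inl ⟨x, hx, fun i hi => by simp at hi⟩
    · exact Or.inr fun i j => h1 _ _

omit [StarRing R] in
theorem bd_map {R' : Type*} [CommRing R'] (φ : R →+* R') {ι : Type*} [Fintype ι]
    [LinearOrder ι] (g : ι → ι → R) : (bd g).map φ = bd fun i j => φ (g i j) := by
  ext τ σ
  simp only [Matrix.map_apply, bd, map_sum]
  refine Finset.sum_congr rfl fun i _ => ?_
  split_ifs with h
  · rw [map_mul, map_pow, map_neg, map_one]
    congr 1
    unfold tw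
    split_ifs <;> simp
  · simp

theorem diff_sub {A₁' A₁ A₂' A₂ U K : Set Ω} {δ : ℝ} (hK : cthickening δ K ⊆ U)
    (hd : A₁' \ A₁ ⊆ A₂') (hK' : A₁' \ A₁ ⊆ K) (h : A₂ ∩ U ⊆ A₁) (n₁ : A₁.Nonempty)
    {ι : Type*} {B : ι → Set Ω} (hB : ∀ i, B i ∈ balls Ω (δ / 2)) :
    nerve B A₁' \ nerve B A₁ ⊆ nerve B A₂' \ nerve B A₂ := by
  rintro σ ⟨⟨x, hx, hxσ⟩, hn⟩
  have hxA : x ∉ A₁ := fun hA => hn ⟨x, hA, hxσ⟩
  refine ⟨⟨x, hd ⟨hx, hxA⟩, hxσ⟩, ?_⟩
  rintro ⟨y, hy, hyσ⟩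
  rcases σ.eq_empty_or_nonempty with rfl | ⟨i, hi⟩
  · obtain ⟨z, hz⟩ := n₁
    exact hn ⟨z, hz, fun i hi => by simp at hi⟩
  · obtain ⟨c, ρ, -, h1, hc⟩ := hB i
    have hx' := hxσ i hi
    have hy' := hyσ i hi
    rw [hc, mem_closedBall] at hx' hy'
    have hdist : dist y x ≤ δ := by
      have := dist_triangle_right y x c
      linarith
    have hU : y ∈ U := hK (mem_cthickening_of_dist_le y x δ K (hK' ⟨hx, hxA⟩) hdist)
    exact hn ⟨y, h ⟨hy, hU⟩, hyσ⟩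

end TorBAux
open TorBAux

theorem Lab.triv_good : (Lab.triv Ω).Good :=
  ⟨fun _ _ => by simp [Lab.triv], fun _ _ _ _ _ _ _ _ => by simp [Lab.triv],
    fun _ _ => ⟨(), univ_mem⟩⟩

theorem exists_adm {L : Lab Ω R} (hL : L.Good) {A' A : Set Ω}
    (hc : IsCompact (closure (A' \ A))) (hY : closure (A' \ A) ⊆ L.Y) {r : ℝ} (hr : 0 < r) :
    ∃ (k : ℕ) (B : Fin k → Set Ω) (l : Fin k → L.Λ), Adm L (balls Ω r) A' A B l := by
  have key : ∀ x : closure (A' \ A), ∃ (l : L.Λ) (ρ : ℝ), 0 < ρ ∧ ρ ≤ r ∧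
      closedBall (x : Ω) ρ ∩ L.Y ⊆ L.O l := by
    intro x
    obtain ⟨l, hl⟩ := hL.cover x (hY x.2)
    obtain ⟨ε, hε, hs⟩ := Metric.mem_nhdsWithin_iff.1 hl
    refine ⟨l, min r (ε / 2), lt_min hr (half_pos hε), min_le_left _ _, ?_⟩
    refine Subset.trans (inter_subset_inter_left _ ?_) hs
    exact closedBall_subset_ball ((min_le_right _ _).trans_lt (half_lt_self hε))
  choose l ρ h0 h1 h2 using key
  obtain ⟨t, ht⟩ := hc.elim_finite_subcover (fun x : closure (A' \ A) => ball (x : Ω) (ρ x))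
    (fun _ => isOpen_ball) (fun x hx => mem_iUnion.2 ⟨⟨x, hx⟩, mem_ball_self (h0 _)⟩)
  refine ⟨t.card, fun i => closedBall ((t.equivFin.symm i).1 : Ω) (ρ (t.equivFin.symm i).1),
    fun i => l (t.equivFin.symm i).1, fun i => ⟨_, _, h0 _, h1 _, rfl⟩, fun i => h2 _, ?_⟩
  intro x hx
  obtain ⟨c, hc', hxc⟩ := mem_iUnion₂.1 (ht hx)
  refine ⟨t.equivFin ⟨c, hc'⟩, ?_⟩
  simp only [Equiv.symm_apply_apply]
  exact mem_of_superset (isOpen_ball.mem_nhds hxc) ball_subset_closedBall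

theorem Tor.unique {L : Lab Ω R} (hL : L.Good) {A' A : Set Ω} (hp : Pair L A' A) {W W' : R}
    (h : Tor L A' A W) (h' : Tor L A' A W') : W = W' := by
  obtain ⟨r, hr, h⟩ := h
  obtain ⟨r', hr', h'⟩ := h'
  obtain ⟨k, B, l, hB⟩ := exists_adm hL hp.cpt hp.inY (lt_min hr hr')
  exact (h _ B l (adm_mono (balls_mono (min_le_left _ _)) Subset.rfl hB)).unique
    (h' _ B l (adm_mono (balls_mono (min_le_right _ _)) Subset.rfl hB))

theorem Tor.unit {L : Lab Ω R} (hL : L.Good) {A' A : Set Ω} (hp : Pair L A' A) {W : R}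
    (h : Tor L A' A W) : ∃ w : R, IsUnit w ∧ W = w * star w := by
  obtain ⟨r, hr, h⟩ := h
  obtain ⟨k, B, l, hB⟩ := exists_adm hL hp.cpt hp.inY hr
  exact (h _ B l hB).unit

theorem Pair.trans {L : Lab Ω R} {A'' A' A : Set Ω} (h₂ : Pair L A'' A') (h₁ : Pair L A' A) :
    Pair L A'' A := by
  have hs : closure (A'' \ A) ⊆ closure (A'' \ A') ∪ closure (A' \ A) := by
    rw [← closure_union]
    refine closure_mono fun x hx => ?_
    by_cases h : x ∈ A'
    · exact Or.inr ⟨h, hx.2⟩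
    · exact Or.inl ⟨hx.1, h⟩
  exact ⟨h₁.sub.trans h₂.sub, h₁.cl, h₂.cl',
    (h₂.cpt.union h₁.cpt).of_isClosed_subset isClosed_closure hs,
    hs.trans (union_subset h₂.inY h₁.inY), h₁.ne⟩

theorem Tor.trans {L : Lab Ω R} (hL : L.Good) {A'' A' A : Set Ω} (p₂ : Pair L A'' A')
    (p₁ : Pair L A' A) {W₂ W₁ : R} (h₂ : Tor L A'' A' W₂) (h₁ : Tor L A' A W₁) :
    Tor L A'' A (W₁ * W₂) := by
  obtain ⟨r₂, hr₂, h₂⟩ := h₂
  obtain ⟨r₁, hr₁, h₁⟩ := h₁
  refine ⟨min r₁ r₂, lt_min hr₁ hr₂, fun ι _ _ B l hB => ?_⟩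
  have a₁ := h₁ ι B l (adm_mono (balls_mono (min_le_left _ _))
    (diff_subset_diff_left p₂.sub) hB)
  have a₂ := h₂ ι B l (adm_mono (balls_mono (min_le_right _ _))
    (diff_subset_diff_right p₁.sub) hB)
  have hcx := isCx_adm hL (p₂.trans p₁) hB
  have he : nerve B A'' \ nerve B A =
      (nerve B A' \ nerve B A) ∪ (nerve B A'' \ nerve B A') := by
    ext σ
    constructor
    · intro h
      by_cases h' : σ ∈ nerve B A'
      · exact Or.inl ⟨h', h.2⟩
      · exact Or.inr ⟨h.1, h'⟩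
    · rintro (h | h)
      · exact ⟨nerve_mono B p₂.sub h.1, h.2⟩
      · exact ⟨h.1, fun h' => h.2 (nerve_mono B p₁.sub h')⟩
  rw [he] at hcx ⊢
  refine hasNu_union hcx ?_ ?_ a₁ a₂
  · exact Set.disjoint_left.2 fun σ h h' => h'.2 h.1
  · intro a ha b hb
    exact bd_eq_zero_of_not_subset _ fun hab => ha.2 (nerve_lower B A' hab hb.1)

theorem tor_refl (L : Lab Ω R) (A : Set Ω) : Tor L A A 1 := by
  refine ⟨1, one_pos, fun ι _ _ B l _ => ?_⟩
  rw [Set.diff_self]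
  exact hasNu_empty _ _

/-- invariance under an isometry covered by a map of labels and a ring endomorphism -/
theorem Tor.image {L : Lab Ω R} (T : Ω ≃ᵢ Ω) (tl : L.Λ ≃ L.Λ) (φ : R →+* R)
    (hφ : ∀ x, φ (star x) = star (φ x)) (hY : T '' L.Y = L.Y)
    (hO : ∀ l, L.O (tl l) = T '' L.O l) (hG : ∀ l l', L.G (tl l) (tl l') = φ (L.G l l'))
    {A' A : Set Ω} {W : R} (h : Tor L A' A W) : Tor L (T '' A') (T '' A) (φ W) := by
  obtain ⟨r, hr, h⟩ := h
  refine ⟨r, hr, fun ι _ _ B l hB => ?_⟩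
  have hadm : Adm L (balls Ω r) A' A (fun i => T ⁻¹' B i) (fun i => tl.symm (l i)) := by
    refine ⟨fun i => ?_, fun i y hy => ?_, fun x hx => ?_⟩
    · obtain ⟨c, ρ, h0, h1, hc⟩ := hB.mem i
      exact ⟨T.symm c, ρ, h0, h1, by rw [hc, T.preimage_closedBall]⟩
    · have h1 : T y ∈ L.Y := hY ▸ mem_image_of_mem T hy.2
      have h2 := hB.lab i ⟨hy.1, h1⟩
      have h3 := hO (tl.symm (l i))
      rw [Equiv.apply_symm_apply] at h3
      rw [h3] at h2
      obtain ⟨z, hz, hzy⟩ := h2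
      rwa [← T.injective hzy]
    · have h1 : T x ∈ closure (T '' A' \ T '' A) := by
        rw [← image_diff T.injective]
        exact image_closure_subset_closure_image T.continuous (mem_image_of_mem T hx)
      obtain ⟨i, hi⟩ := hB.cov _ h1
      exact ⟨i, T.continuous.continuousAt.preimage_mem_nhds hi⟩
  have h1 := (h ι _ _ hadm).map φ hφ
  have hn : ∀ C : Set Ω, nerve (fun i => T ⁻¹' B i) C = nerve B (T '' C) := by
    intro C
    ext σ
    constructor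
    · rintro ⟨x, hx, h'⟩
      exact ⟨T x, mem_image_of_mem T hx, h'⟩
    · rintro ⟨_, ⟨x, hx, rfl⟩, h'⟩
      exact ⟨x, hx, h'⟩
  rw [bd_map, hn, hn] at h1
  have hg : (fun i j => φ (L.G (tl.symm (l i)) (tl.symm (l j)))) =
      fun i j => L.G (l i) (l j) := by
    funext i j
    rw [← hG, Equiv.apply_symm_apply, Equiv.apply_symm_apply]
  rwa [hg] at h1

/-- excision -/
theorem Tor.congr {L : Lab Ω R} {A₁' A₁ A₂' A₂ U : Set Ω} (hU : IsOpen U)
    (c₁ : IsCompact (closure (A₁' \ A₁))) (hd : A₁' \ A₁ = A₂' \ A₂)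
    (hsub : closure (A₁' \ A₁) ⊆ U) (h : A₁ ∩ U = A₂ ∩ U) (h' : A₁' ∩ U = A₂' ∩ U)
    (n₁ : A₁.Nonempty) (n₂ : A₂.Nonempty) {W : R} (ht : Tor L A₁' A₁ W) : Tor L A₂' A₂ W := by
  obtain ⟨r, hr, ht⟩ := ht
  obtain ⟨δ, hδ, hK⟩ := c₁.exists_cthickening_subset_open hU hsub
  refine ⟨min r (δ / 2), lt_min hr (half_pos hδ), fun ι _ _ B l hB => ?_⟩
  have a := ht ι B l (adm_mono (balls_mono (min_le_left _ _)) hd.subset hB)
  have hB' : ∀ i, B i ∈ balls Ω (δ / 2) := fun i => balls_mono (min_le_right _ _) (hB.mem i)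
  have he : nerve B A₁' \ nerve B A₁ = nerve B A₂' \ nerve B A₂ := by
    apply Subset.antisymm
    · exact diff_sub hK (hd.subset.trans diff_subset) subset_closure
        (h.symm.subset.trans inter_subset_left) n₁ hB'
    · exact diff_sub hK (hd.symm.subset.trans diff_subset) (hd.symm.subset.trans subset_closure)
        (h.subset.trans inter_subset_left) n₂ hB'
  rwa [he] at a

theorem tor_convex {F : Type*} [NormedAddCommGroup F] [NormedSpace ℝ F] [FiniteDimensional ℝ F]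
    {V : Set F} (hV : IsCompact V) (hc : Convex ℝ V) : Tor (Lab.triv F) V ∅ 1 := by
  refine ⟨1, one_pos, fun ι _ _ B l hB => ?_⟩
  have hcx := isCx_adm (Lab.triv_good (Ω := F))
    (⟨empty_subset _, isClosed_empty, hV.isClosed, by
      rw [diff_empty, hV.isClosed.closure_eq]; exact hV, subset_univ _,
      Or.inr fun _ _ => rfl⟩ : Pair (Lab.triv F) V ∅) hB
  rw [nerve_empty, diff_empty] at hcx ⊢
  have ha : Acyc (bdZ ι) (nerve B V) := by
    refine acyc_nerve_convex hV hc B (fun i => ?_) fun x hx => ?_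
    · obtain ⟨c, ρ, -, -, h⟩ := hB.mem i
      rw [h]
      exact hc.inter (convex_closedBall c ρ)
    · obtain ⟨i, hi⟩ := hB.cov x (subset_closure ⟨hx, fun h => h⟩)
      exact ⟨i, mem_nhdsWithin_of_mem_nhds hi⟩
  have h1 := hasNu_int (R := ℤ) hcx ha
  rw [bd_map] at h1
  exact h1

/-- `Tor (V, ∅)` for the trivial system says that `V` is acyclic for small balls -/
theorem Tor.la {V : Set Ω} (hV : IsClosed V) {W : ℤ} (h : Tor (Lab.triv Ω) V ∅ W) :
    ∃ r > 0, ∀ r' ≤ r, LA (balls Ω r') V univ := by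
  obtain ⟨r, hr, h⟩ := h
  refine ⟨r, hr, fun r' hr' ι _ _ B hB hcov => ?_⟩
  rw [univ_inter] at hcov ⊢
  have hadm : Adm (Lab.triv Ω) (balls Ω r) V ∅ B (fun _ => ()) :=
    ⟨fun i => balls_mono hr' (hB i), fun i => subset_univ _, fun x hx => hcov x (by
      rwa [diff_empty, hV.closure_eq] at hx)⟩
  have h1 := (h ι B _ hadm).acyc
  rw [nerve_empty, diff_empty] at h1
  exact h1

end SpunKnot
end
end

-- merged part: Pool.Agent.Work.MP_e1e788_gt.Chart
section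
/-! Sets with the Mangasarian–Fromovitz property are convex in a bent chart, and small balls
are convex in every `C²` chart. -/

open Set Filter Topology Metric

noncomputable section
namespace SpunKnot
variable {E : Type*} [NormedAddCommGroup E] [NormedSpace ℝ E] [FiniteDimensional ℝ E]
variable {F F₂ : Type*} [NormedAddCommGroup F] [InnerProductSpace ℝ F] [NormedAddCommGroup F₂]
  [InnerProductSpace ℝ F₂]

namespace ChartAux

lemma two_deriv {X Y : Type*} [NormedAddCommGroup X] [NormedSpace ℝ X] [NormedAddCommGroup Y]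
    [NormedSpace ℝ Y] {G : X → Y} {γ γ' : ℝ → X} {a : X} {t : ℝ} (hG : ContDiffAt ℝ 2 G (γ t))
    (h1 : HasDerivAt γ (γ' t) t) (h2 : HasDerivAt γ' a t) :
    HasDerivAt (fun t => fderiv ℝ G (γ t) (γ' t))
      (fderiv ℝ (fderiv ℝ G) (γ t) (γ' t) (γ' t) + fderiv ℝ G (γ t) a) t :=
  (((hG.fderiv_right (m := 1) le_rfl).differentiableAt one_ne_zero).hasFDerivAt.comp_hasDerivAt
    t h1).clm_apply h2

lemma dd {X Y : Type*} [NormedAddCommGroup X] [NormedSpace ℝ X] [NormedAddCommGroup Y]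
    [NormedSpace ℝ Y] {G : X → Y} {γ γ' : ℝ → X} {a : X} (hG : ContDiffAt ℝ 2 G (γ 0))
    (h1 : ∀ t, HasDerivAt γ (γ' t) t) (h2 : HasDerivAt γ' a 0) :
    deriv (deriv fun t => G (γ t)) 0 =
      fderiv ℝ (fderiv ℝ G) (γ 0) (γ' 0) (γ' 0) + fderiv ℝ G (γ 0) a := by
  rw [← (two_deriv hG (h1 0) h2).deriv]
  refine Filter.EventuallyEq.deriv_eq ?_
  filter_upwards [(h1 0).continuousAt.eventually (hG.eventually (by simp))] with t ht
  exact ((ht.differentiableAt two_ne_zero).hasFDerivAt.comp_hasDerivAt t (h1 t)).deriv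

omit [FiniteDimensional ℝ E] [NormedSpace ℝ E] in
lemma prod_ball {P : Type*} [TopologicalSpace P] {s₀ : P} {Q : E × P → Prop}
    (h : ∀ᶠ x in 𝓝 ((0 : E), s₀), Q x) :
    ∃ ρ₀ > 0, ∀ᶠ s in 𝓝 s₀, ∀ u ∈ closedBall (0 : E) ρ₀, Q (u, s) := by
  rw [nhds_prod_eq, eventually_prod_iff] at h
  obtain ⟨p, hp, q, hq, h⟩ := h
  obtain ⟨ρ, h0, hρ⟩ := nhds_basis_closedBall.eventually_iff.1 hp
  exact ⟨ρ, h0, hq.mono fun s hs u hu => h (hρ hu) hs⟩

omit [FiniteDimensional ℝ E] in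
lemma line_deriv {P : Type*} [NormedAddCommGroup P] [NormedSpace ℝ P] (u h : E) (s : P) (t : ℝ) :
    HasDerivAt (fun t : ℝ => (u + t • h, s)) (h, (0 : P)) t := by
  simpa using (((hasDerivAt_id t).smul_const h).const_add u).prodMk (hasDerivAt_const t s)

lemma key {P : Type*} [NormedAddCommGroup P] [NormedSpace ℝ P] {s₀ : P} {G : E × P → ℝ}
    (hG : ContDiffAt ℝ 2 G (0, s₀))
    (hpos : ∀ h : E, h ≠ 0 → 0 < deriv (deriv fun t : ℝ => G (t • h, s₀)) 0) :
    ∃ ρ₀ > 0, ∀ᶠ s in 𝓝 s₀, ConvexOn ℝ (closedBall (0 : E) ρ₀) fun u => G (u, s) := by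
  have hc : ContinuousAt (fderiv ℝ (fderiv ℝ G)) (0, s₀) :=
    ((hG.fderiv_right (m := 1) le_rfl).fderiv_right (m := 0) le_rfl).continuousAt
  have h1 : ∀ᶠ x in 𝓝 ((0 : E), s₀), ∀ h ∈ sphere (0 : E) 1,
      0 < fderiv ℝ (fderiv ℝ G) x (h, 0) (h, 0) := by
    refine (isCompact_sphere (0 : E) 1).eventually_forall_of_forall_eventually fun h hh => ?_
    have h0 : ContinuousAt (fun z : (E × P) × E => (z.2, (0 : P))) ((0, s₀), h) := by fun_prop
    refine ContinuousAt.eventually_lt continuousAt_const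
      (((hc.comp_of_eq continuousAt_fst rfl).clm_apply h0).clm_apply h0) ?_
    have h3 := dd (G := G) (γ := fun t : ℝ => (0 + t • h, s₀)) (γ' := fun _ => (h, 0)) (a := 0)
      (by simpa using hG) (line_deriv 0 h s₀) (hasDerivAt_const _ _)
    have h4 := hpos h (by rintro rfl; simp at hh)
    simp only [zero_add, zero_smul, map_zero, add_zero] at h3
    rwa [h3] at h4
  obtain ⟨ρ, h0, hρ⟩ := prod_ball (h1.and (hG.eventually (by simp)))
  refine ⟨ρ, h0, hρ.mono fun s hs => ⟨convex_closedBall _ _, fun u hu w hw a b ha hb hab => ?_⟩⟩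
  have hm : ∀ t ∈ Icc (0 : ℝ) 1, u + t • (w - u) ∈ closedBall (0 : E) ρ := fun t ht =>
    (convex_closedBall _ _).add_smul_sub_mem hu hw ht
  have hd : ∀ t ∈ Icc (0 : ℝ) 1, HasDerivAt (fun t : ℝ => G (u + t • (w - u), s))
      (fderiv ℝ G (u + t • (w - u), s) (w - u, 0)) t := fun t ht =>
    ((hs _ (hm t ht)).2.differentiableAt two_ne_zero).hasFDerivAt.comp_hasDerivAt t
      (line_deriv u _ s t)
  have hcv := convexOn_of_hasDerivWithinAt2_nonneg (convex_Icc (0 : ℝ) 1)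
    (fun t ht => (hd t ht).continuousAt.continuousWithinAt)
    (fun t ht => (hd t (interior_subset ht)).hasDerivWithinAt)
    (fun t ht => (two_deriv (γ := fun t : ℝ => (u + t • (w - u), s)) (γ' := fun _ => (w - u, 0))
      (hs _ (hm t (interior_subset ht))).2 (line_deriv u _ s t)
      (hasDerivAt_const _ _)).hasDerivWithinAt)
    (fun t ht => by
      rcases eq_or_ne (w - u) 0 with h | h
      · simp [h, Prod.mk_zero_zero]
      have hn : ‖w - u‖ ≠ 0 := norm_ne_zero_iff.2 h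
      have h3 := (hs _ (hm t (interior_subset ht))).1 (‖w - u‖⁻¹ • (w - u))
        (by simp [norm_smul, hn])
      have e : (‖w - u‖⁻¹ • (w - u), (0 : P)) = ‖w - u‖⁻¹ • (w - u, 0) := by simp
      rw [e, map_smul, map_smul, ContinuousLinearMap.smul_apply, smul_eq_mul, smul_eq_mul] at h3
      have hp : 0 < ‖w - u‖⁻¹ := by positivity
      rw [map_zero, add_zero]
      exact ((mul_pos_iff_of_pos_left hp).1 ((mul_pos_iff_of_pos_left hp).1 h3)).le)
  have := hcv.2 (left_mem_Icc.2 zero_le_one) (right_mem_Icc.2 zero_le_one) ha hb hab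
  have e : u + b • (w - u) = a • u + b • w := by
    rw [show a = 1 - b by linarith]; module
  simpa [e] using this

end ChartAux
open ChartAux

theorem convex_preimage_ball {φ : E → F} (h : ContDiffAt ℝ 2 φ 0)
    (hi : Function.Injective (fderiv ℝ φ 0)) :
    ∃ ρ₀ > 0, ∃ r > 0, ∀ ρ ≤ ρ₀, ∀ (c : F) (t : ℝ), t ≤ r →
      Convex ℝ (closedBall (0 : E) ρ ∩ φ ⁻¹' closedBall c t) := by
  obtain ⟨ρ₁, h1, hc⟩ := key (G := fun x : E × F => ‖φ x.1 - x.2‖ ^ 2) (s₀ := φ 0)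
    (((h.comp (0, φ 0) contDiffAt_fst).sub contDiffAt_snd).norm_sq ℝ) (fun w hw => by
      have hl : ∀ t : ℝ, HasDerivAt (fun t : ℝ => t • w) w t := fun t => by
        simpa using (hasDerivAt_id t).smul_const w
      have h' : ContDiffAt ℝ 2 φ ((fun t : ℝ => t • w) 0) := by simpa using h
      have h2 := two_deriv (γ' := fun _ => w) h' (hl 0) (hasDerivAt_const _ _)
      have h3 : ∀ᶠ t : ℝ in 𝓝 0, HasDerivAt (fun t : ℝ => φ (t • w) - φ 0)
          (fderiv ℝ φ (t • w) w) t := by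
        filter_upwards [(hl 0).continuousAt.eventually (h'.eventually (by simp))] with t ht
        exact ((ht.differentiableAt two_ne_zero).hasFDerivAt.comp_hasDerivAt t (hl t)).sub_const _
      have h4 := ((h3.self_of_nhds.inner ℝ h2).const_mul 2).deriv
      rw [Filter.EventuallyEq.deriv_eq (h3.mono fun t ht => ht.norm_sq.deriv), h4]
      have : fderiv ℝ φ 0 w ≠ 0 := fun h0 => hw (hi (by rw [h0, map_zero]))
      simpa using pow_pos (norm_pos_iff.2 this) 2)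
  obtain ⟨δ, hδ, hc⟩ := nhds_basis_closedBall.eventually_iff.1 hc
  obtain ⟨ρ₂, h2, h3⟩ := nhds_basis_closedBall.eventually_iff.1
    (h.continuousAt.eventually (closedBall_mem_nhds (φ 0) (half_pos hδ)))
  refine ⟨min ρ₁ ρ₂, lt_min h1 h2, δ / 2, half_pos hδ, fun ρ hρ c t ht => ?_⟩
  rcases (closedBall (0 : E) ρ ∩ φ ⁻¹' closedBall c t).eq_empty_or_nonempty with h0 | ⟨u, hu, hu'⟩
  · rw [h0]; exact convex_empty
  have h4 := h3 (closedBall_subset_closedBall (hρ.trans (min_le_right _ _)) hu)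
  have h5 : dist (φ u) c ≤ t := hu'
  have h6 : c ∈ closedBall (φ 0) δ := by
    have := dist_triangle_left c (φ 0) (φ u)
    rw [mem_closedBall]
    linarith
  have := ((hc h6).subset (closedBall_subset_closedBall (hρ.trans (min_le_left _ _)))
    (convex_closedBall _ _)).convex_le (t ^ 2)
  convert this using 1
  ext x
  simp only [mem_inter_iff, mem_preimage, mem_closedBall, mem_ofPred_eq, dist_eq_norm (φ x)]
  rw [pow_le_pow_iff_left₀ (norm_nonneg _) (dist_nonneg.trans h5) two_ne_zero]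

theorem exists_bend {k : ℕ} {g : Fin k → E × ℝ → ℝ} {s₀ : ℝ} {v : E}
    (hg : ∀ j, ContDiffAt ℝ 2 (g j) (0, s₀))
    (hv : ∀ j, g j (0, s₀) = 0 → 0 < fderiv ℝ (g j) (0, s₀) (v, 0)) :
    ∃ b : E → E, ContDiff ℝ 2 b ∧ b 0 = 0 ∧ fderiv ℝ b 0 = ContinuousLinearMap.id ℝ E ∧
      ∃ ρ₀ > 0, ∀ᶠ s in 𝓝 s₀, ∀ ρ ≤ ρ₀,
        Convex ℝ {u ∈ closedBall (0 : E) ρ | ∀ j, g j (b u, s) ≤ 0} := by
  set L := toEuclidean (E := E)
  obtain ⟨K, hK⟩ : ∃ K : ℝ, ∀ j, g j (0, s₀) = 0 → ∀ h : E, h ≠ 0 →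
      0 < fderiv ℝ (fderiv ℝ (g j)) (0, s₀) (h, 0) (h, 0) +
        2 * K * ‖L h‖ ^ 2 * fderiv ℝ (g j) (0, s₀) (v, 0) := by
    refine (eventually_all.2 fun j => ?_ : ∀ᶠ K in atTop, _).exists
    by_cases hj : g j (0, s₀) = 0
    swap
    · exact Eventually.of_forall fun K h => absurd h hj
    set B := fderiv ℝ (fderiv ℝ (g j)) (0, s₀)
    set d := fderiv ℝ (g j) (0, s₀) (v, 0)
    have hd : 0 < d := hv j hj
    set C := ‖(L.symm : EuclideanSpace ℝ (Fin (Module.finrank ℝ E)) →L[ℝ] E)‖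
    filter_upwards [eventually_gt_atTop (‖B‖ * C ^ 2 / (2 * d))] with K hK _ h hh
    have h1 : ‖h‖ ≤ C * ‖L h‖ := by
      simpa using (L.symm : EuclideanSpace ℝ (Fin (Module.finrank ℝ E)) →L[ℝ] E).le_opNorm (L h)
    have h2 := (B.le_opNorm₂ (h, 0) (h, 0)).trans' (neg_le_abs _)
    have h3 : 0 < ‖L h‖ := by simpa using hh
    have h4 : ‖((h, 0) : E × ℝ)‖ = ‖h‖ := by simp
    rw [div_lt_iff₀ (by positivity)] at hK
    rw [h4, mul_assoc] at h2
    have h5 := mul_le_mul_of_nonneg_left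
      (mul_le_mul h1 h1 (norm_nonneg _) ((norm_nonneg _).trans h1)) (norm_nonneg B)
    nlinarith [mul_lt_mul_of_pos_right hK (pow_pos h3 2)]
  have hb : ContDiff ℝ 2 fun u : E => u + (K * ‖L u‖ ^ 2) • v :=
    contDiff_id.add ((contDiff_const.mul (L.contDiff.norm_sq ℝ)).smul contDiff_const)
  refine ⟨_, hb, by simp, ?_, ?_⟩
  · have := (hasFDerivAt_id (0 : E)).fun_add
      ((L.hasFDerivAt.norm_sq.const_mul K).smul_const v)
    simpa using this.fderiv
  have hG : ∀ j, ContDiffAt ℝ 2 (fun x : E × ℝ => g j (x.1 + (K * ‖L x.1‖ ^ 2) • v, x.2))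
      (0, s₀) := fun j =>
    ContDiffAt.comp (g := g j) _ (by simpa using hg j)
      ((hb.comp contDiff_fst).prodMk contDiff_snd).contDiffAt
  have h1 : ∀ j, ∃ ρ₀ > 0, ∀ᶠ s in 𝓝 s₀, ∀ ρ ≤ ρ₀,
      Convex ℝ {u ∈ closedBall (0 : E) ρ | g j (u + (K * ‖L u‖ ^ 2) • v, s) ≤ 0} := by
    intro j
    rcases lt_trichotomy (g j (0, s₀)) 0 with hj | hj | hj
    · obtain ⟨ρ₀, h0, h⟩ := prod_ball
        ((hG j).continuousAt.eventually_lt continuousAt_const (by simpa using hj))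
      refine ⟨ρ₀, h0, h.mono fun s hs ρ hρ => ?_⟩
      rw [sep_eq_self_iff_mem_true.2 fun u hu => (hs u (closedBall_subset_closedBall hρ hu)).le]
      exact convex_closedBall _ _
    · obtain ⟨ρ₀, h0, h⟩ := key (hG j) fun h hh => by
        have h3 := dd (G := g j) (γ := fun t : ℝ => (t • h + (K * (t ^ 2 * ‖L h‖ ^ 2)) • v, s₀))
          (γ' := fun t => (h + (K * (2 * t * ‖L h‖ ^ 2)) • v, 0))
          (a := (2 * K * ‖L h‖ ^ 2) • (v, 0)) (by simpa using hg j)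
          (fun t => by
            simpa using (((hasDerivAt_id t).smul_const h).add
              ((((hasDerivAt_pow 2 t).mul_const _).const_mul K).smul_const v)).prodMk
              (hasDerivAt_const t s₀))
          (by
            refine (((((((hasDerivAt_id (0 : ℝ)).const_mul 2).mul_const (‖L h‖ ^ 2)).const_mul
              K).smul_const v).const_add h).prodMk (hasDerivAt_const (0 : ℝ) (0 : ℝ))).congr_deriv ?_
            simp; ring_nf)
        have h4 := hK j hj h hh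
        simp only [map_smul, norm_smul, mul_pow, Real.norm_eq_abs, sq_abs]
        rw [h3, map_smul]
        simpa using h4
      exact ⟨ρ₀, h0, h.mono fun s hs ρ hρ =>
        (hs.subset (closedBall_subset_closedBall hρ) (convex_closedBall _ _)).convex_le 0⟩
    · obtain ⟨ρ₀, h0, h⟩ := prod_ball
        (continuousAt_const.eventually_lt (hG j).continuousAt (by simpa using hj))
      refine ⟨ρ₀, h0, h.mono fun s hs ρ hρ => ?_⟩
      rw [sep_eq_empty_iff_mem_false.2 fun u hu =>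
        not_le.2 (hs u (closedBall_subset_closedBall hρ hu))]
      exact convex_empty
  choose ρ h0 hρ using h1
  obtain ⟨ρ₀, h2, h3⟩ := ((eventually_all.2 fun j =>
    (eventually_le_nhds (h0 j)).filter_mono (nhdsWithin_le_nhds (s := Ioi 0))).and
    self_mem_nhdsWithin).exists
  refine ⟨ρ₀, h3, (eventually_all.2 hρ).mono fun s hs r hr => ?_⟩
  convert (convex_closedBall (0 : E) r).inter (convex_iInter fun j => hs j r (hr.trans (h2 j)))
    using 1
  ext u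
  simp only [mem_ofPred_eq, mem_inter_iff, mem_iInter]
  exact ⟨fun h => ⟨h.1, fun j => ⟨h.1, h.2 j⟩⟩, fun h => ⟨h.1, fun j => (h.2 j).2⟩⟩

/-- the local convex chart -/
theorem MFCQAt.chart {M : Set F} {A : ℝ → Set F} {e : F → F₂} {p : F} {s₀ : ℝ}
    (h : MFCQAt E M A e p s₀) :
    ∃ (ψ : E → F) (ρ r : ℝ), 0 < ρ ∧ 0 < r ∧ ContinuousOn ψ (closedBall 0 ρ) ∧
      ψ 0 = p ∧ map ψ (𝓝 0) = 𝓝[M] p ∧
      (∀ B ∈ balls F r, Convex ℝ (closedBall (0 : E) ρ ∩ ψ ⁻¹' B)) ∧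
      (∀ B ∈ balls F₂ r, Convex ℝ (closedBall (0 : E) ρ ∩ (e ∘ ψ) ⁻¹' B)) ∧
      ∀ᶠ s in 𝓝 s₀, Convex ℝ (closedBall (0 : E) ρ ∩ ψ ⁻¹' A s) := by
  obtain ⟨ψ, k, g, v, h1, h2, h3, h4, h5, h6, h7, h8, h9⟩ := h
  obtain ⟨b, b1, b2, b3, ρ₁, k1, b4⟩ := exists_bend h7 h8
  have := FiniteDimensional.complete ℝ E
  have hb : HasStrictFDerivAt b (ContinuousLinearEquiv.refl ℝ E : E →L[ℝ] E) 0 := by
    simpa [b3] using b1.contDiffAt.hasStrictFDerivAt (x := 0) two_ne_zero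
  have c1 : ContDiffAt ℝ 2 (ψ ∘ b) 0 := ContDiffAt.comp 0 (by rwa [b2]) b1.contDiffAt
  have c2 : ContDiffAt ℝ 2 ((e ∘ ψ) ∘ b) 0 := ContDiffAt.comp 0 (by rwa [b2]) b1.contDiffAt
  obtain ⟨ρ₂, k2, r₂, l2, c3⟩ := convex_preimage_ball c1 (by
    rw [fderiv_comp 0 (by rw [b2]; exact h1.differentiableAt two_ne_zero)
      (b1.differentiable two_ne_zero 0), b2, b3]
    exact h3)
  obtain ⟨ρ₃, k3, r₃, l3, c4⟩ := convex_preimage_ball c2 (by
    rw [fderiv_comp 0 (by rw [b2]; exact h5.differentiableAt two_ne_zero)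
      (b1.differentiable two_ne_zero 0), b2, b3]
    exact h6)
  obtain ⟨ρ₄, k4, c5⟩ := nhds_basis_closedBall.eventually_iff.1 (c1.eventually (by simp))
  have hc : ContinuousAt (fun q : E × ℝ => (b q.1, q.2)) (0, s₀) :=
    ((b1.continuous.comp continuous_fst).prodMk continuous_snd).continuousAt
  obtain ⟨ρ₅, k5, c6⟩ := prod_ball (hc.eventually (by simpa only [b2] using h9))
  refine ⟨ψ ∘ b, min (min ρ₁ ρ₂) (min ρ₃ (min ρ₄ ρ₅)), min r₂ r₃, by positivity, by positivity,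
    fun u hu => (c5 (closedBall_subset_closedBall (by simp) hu)).continuousAt.continuousWithinAt,
    by simp [b2, h2], by rw [← map_map, hb.map_nhds_eq_of_equiv, b2, h4], ?_, ?_, ?_⟩
  · rintro _ ⟨x, t, -, ht, rfl⟩
    exact c3 _ (by simp) x t (ht.trans (min_le_left _ _))
  · rintro _ ⟨x, t, -, ht, rfl⟩
    exact c4 _ (by simp) x t (ht.trans (min_le_right _ _))
  · filter_upwards [b4, c6] with s s1 s2
    convert s1 (min (min ρ₁ ρ₂) (min ρ₃ (min ρ₄ ρ₅))) (by simp) using 1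
    ext u
    exact and_congr_right fun hu => s2 u (closedBall_subset_closedBall (by simp) hu)

end SpunKnot
end
end

-- merged part: Pool.Agent.Work.MP_e1e788_gt.TorC
section
/-! Monotone MFCQ families have torsion norm one; existence of `Tor` by two-out-of-six. -/

open Set Matrix Filter Topology Metric
open scoped Classical

noncomputable section
namespace SpunKnot

namespace TorCAux

theorem balls_mono {Ω : Type*} [MetricSpace Ω] {r r' : ℝ} (h : r ≤ r') :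
    balls Ω r ⊆ balls Ω r' := by
  rintro B ⟨x, ρ, h0, h1, rfl⟩
  exact ⟨x, ρ, h0, h1.trans h, rfl⟩

theorem balls_compact {Ω : Type*} [MetricSpace Ω] [ProperSpace Ω] {r : ℝ} :
    ∀ B ∈ balls Ω r, IsCompact B := by
  rintro B ⟨x, ρ, -, -, rfl⟩
  exact isCompact_closedBall x ρ

theorem balls_small {Ω : Type*} [MetricSpace Ω] {r : ℝ} (hr : 0 < r) (x : Ω) :
    ∀ U ∈ 𝓝 x, ∃ B ∈ balls Ω r, B ∈ 𝓝 x ∧ B ⊆ U := by
  intro U hU
  obtain ⟨ε, hε, hsub⟩ := Metric.nhds_basis_closedBall.mem_iff.1 hU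
  refine ⟨closedBall x (min ε r), ⟨x, min ε r, lt_min hε hr, min_le_right _ _, rfl⟩,
    closedBall_mem_nhds x (lt_min hε hr), ?_⟩
  exact (closedBall_subset_closedBall (min_le_left _ _)).trans hsub

theorem nerve_lower {Ω ι : Type*} (B : ι → Set Ω) (A : Set Ω) : IsLowerSet (nerve B A) := by
  rintro σ τ h ⟨x, hx, hσ⟩
  exact ⟨x, hx, fun i hi => hσ i (h hi)⟩

theorem nerve_mono {Ω ι : Type*} (B : ι → Set Ω) {A A' : Set Ω} (h : A ⊆ A') :
    nerve B A ⊆ nerve B A' := by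
  rintro σ ⟨x, hx, hσ⟩
  exact ⟨x, h hx, hσ⟩

variable {E : Type*} [NormedAddCommGroup E] [NormedSpace ℝ E] [FiniteDimensional ℝ E]
variable {F : Type*} [NormedAddCommGroup F] [InnerProductSpace ℝ F] [FiniteDimensional ℝ F]
variable {R : Type*} [CommRing R] [StarRing R]

omit [FiniteDimensional ℝ F] in
theorem la_local {M : Set F} {A : ℝ → Set F} {p : F} {s₀ : ℝ} (h : MFCQAt E M A id p s₀) :
    ∃ ε > 0, ∀ᶠ s in 𝓝 s₀, A s ⊆ M → IsClosed (A s) → ∀ r' ≤ ε, ∀ B₀ ∈ balls F r',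
      (B₀ ∩ ball p ε).Nonempty → LA (balls F r') (A s) B₀ := by
  obtain ⟨ψ, ρ, r, hρ, hr, hcont, hψ0, hmap, hB, -, hA⟩ := h.chart
  have h1 : ψ '' closedBall 0 ρ ∈ 𝓝[M] p := by
    rw [← hmap]
    exact image_mem_map (closedBall_mem_nhds 0 hρ)
  obtain ⟨δ, hδ, hsub⟩ := Metric.mem_nhdsWithin_iff.1 h1
  refine ⟨min (δ / 3) r, lt_min (by linarith) hr, ?_⟩
  filter_upwards [hA] with s hs hM hcl r' hr' B₀ hB₀ hne
  have hr'r : r' ≤ r := hr'.trans (min_le_right _ _)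
  have hr'δ : r' ≤ δ / 3 := hr'.trans (min_le_left _ _)
  have hB₀sub : B₀ ⊆ ball p δ := by
    obtain ⟨x, t, ht0, ht, rfl⟩ := hB₀
    obtain ⟨z, hz1, hz2⟩ := hne
    intro y hy
    have e1 : dist y x ≤ t := hy
    have e2 : dist z x ≤ t := hz1
    have e3 : dist z p < min (δ / 3) r := hz2
    have e4 : dist z p < δ / 3 := e3.trans_le (min_le_left _ _)
    have e5 := dist_triangle4 y x z p
    rw [dist_comm x z] at e5
    show dist y p < δ
    linarith
  have hB₀cl : IsClosed B₀ := by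
    obtain ⟨x, t, -, -, rfl⟩ := hB₀
    exact isClosed_closedBall
  intro ι _ _ B hBm hcov
  set V : Set E := closedBall 0 ρ ∩ ψ ⁻¹' (B₀ ∩ A s) with hV
  have hVc : IsCompact V :=
    (isCompact_closedBall (0 : E) ρ).of_isClosed_subset
      (hcont.preimage_isClosed_of_isClosed isClosed_closedBall (hB₀cl.inter hcl))
      inter_subset_left
  have hVv : Convex ℝ V := by
    have : V = (closedBall 0 ρ ∩ ψ ⁻¹' B₀) ∩ (closedBall 0 ρ ∩ ψ ⁻¹' A s) := by
      ext u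
      simp only [hV, mem_inter_iff, mem_preimage]
      tauto
    rw [this]
    exact (hB B₀ (balls_mono hr'r hB₀)).inter hs
  have key : Acyc (bdZ ι) (nerve (fun i => ψ ⁻¹' B i) V) := by
    refine acyc_nerve_convex hVc hVv _ (fun i => ?_) (fun u hu => ?_)
    · have : V ∩ ψ ⁻¹' B i = V ∩ (closedBall 0 ρ ∩ ψ ⁻¹' B i) := by
        ext u
        simp only [hV, mem_inter_iff, mem_preimage]
        tauto
      rw [this]
      exact hVv.inter (hB _ (balls_mono hr'r (hBm i)))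
    · obtain ⟨i, hi⟩ := hcov (ψ u) hu.2
      exact ⟨i, ((hcont u hu.1).mono inter_subset_left).preimage_mem_nhdsWithin hi⟩
  have heq : nerve (fun i => ψ ⁻¹' B i) V = nerve B (B₀ ∩ A s) := by
    ext σ
    constructor
    · rintro ⟨u, hu, hσ⟩
      exact ⟨ψ u, hu.2, hσ⟩
    · rintro ⟨x, hx, hσ⟩
      obtain ⟨u, hu, rfl⟩ := hsub ⟨hB₀sub hx.1, hM hx.2⟩
      exact ⟨u, ⟨hu, hx⟩, hσ⟩
  rwa [heq] at key

omit [FiniteDimensional ℝ E] in
theorem neg_of_deriv {g : E × ℝ → ℝ} {s₀ : ℝ} {v : E} (hg : ContDiffAt ℝ 2 g (0, s₀))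
    (h0 : g (0, s₀) ≤ 0) (hv : g (0, s₀) = 0 → 0 < fderiv ℝ g (0, s₀) (v, 0)) :
    ∀ᶠ τ : ℝ in 𝓝[>] 0, g (-(τ • v), s₀) < 0 := by
  have hline : HasDerivAt (fun τ : ℝ => ((-(τ • v), s₀) : E × ℝ)) (-v, 0) 0 := by
    refine HasDerivAt.prodMk ?_ (hasDerivAt_const _ _)
    simpa using ((hasDerivAt_id (0 : ℝ)).smul_const v).fun_neg
  have hd : HasFDerivAt g (fderiv ℝ g (0, s₀)) ((fun τ : ℝ => ((-(τ • v), s₀) : E × ℝ)) 0) := by
    simpa using (hg.differentiableAt (by norm_num)).hasFDerivAt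
  have hc : HasDerivAt (fun τ : ℝ => g (-(τ • v), s₀)) (fderiv ℝ g (0, s₀) (-v, 0)) 0 :=
    hd.comp_hasDerivAt 0 hline
  rcases h0.lt_or_eq with hlt | heq
  · have : ∀ᶠ τ : ℝ in 𝓝 0, g (-(τ • v), s₀) < 0 :=
      hc.continuousAt.eventually_lt continuousAt_const (by simpa using hlt)
    exact this.filter_mono nhdsWithin_le_nhds
  · have hneg : fderiv ℝ g (0, s₀) (-v, 0) < 0 := by
      have : ((-v, 0) : E × ℝ) = -(v, 0) := by simp
      rw [this, map_neg]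
      linarith [hv heq]
    have ht := hc.tendsto_slope_zero_right
    filter_upwards [ht.eventually_lt_const hneg, self_mem_nhdsWithin] with τ hτ hpos
    have hpos' : (0 : ℝ) < τ := hpos
    simp only [zero_add, zero_smul, neg_zero, heq, sub_zero, smul_eq_mul] at hτ
    by_contra hcon
    have : 0 ≤ τ⁻¹ * g (-(τ • v), s₀) := mul_nonneg (inv_pos.2 hpos').le (not_lt.1 hcon)
    linarith

omit [FiniteDimensional ℝ E] [FiniteDimensional ℝ F] in
theorem push_local {M : Set F} {A : ℝ → Set F} {p : F} {s₀ : ℝ} (h : MFCQAt E M A id p s₀)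
    {η : ℝ} (hη : 0 < η) :
    ∀ᶠ z : (ℝ × ℝ) × F in 𝓝 ((s₀, s₀), p), A z.1.2 ⊆ M → z.2 ∈ A z.1.2 →
      ∃ y ∈ A z.1.1, dist z.2 y ≤ η := by
  obtain ⟨ψ, k, g, v, hψ, hψ0, -, hmap, -, -, hg, hv, hA⟩ := h
  by_cases hall : ∀ j, g j (0, s₀) ≤ 0
  · have hline : Tendsto (fun τ : ℝ => ((-(τ • v), s₀) : E × ℝ)) (𝓝[>] 0) (𝓝 (0, s₀)) := by
      have : Continuous fun τ : ℝ => ((-(τ • v), s₀) : E × ℝ) := by fun_prop
      simpa using (this.tendsto 0).mono_left nhdsWithin_le_nhds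
    have e1 : ∀ᶠ τ : ℝ in 𝓝[>] 0, ∀ j, g j (-(τ • v), s₀) < 0 :=
      eventually_all.2 fun j => neg_of_deriv (hg j) (hall j) (hv j)
    have e2 : ∀ᶠ q : E × ℝ in 𝓝 (0, s₀), ∀ j, ContinuousAt (g j) q :=
      eventually_all.2 fun j =>
        ((hg j).eventually (by simp)).mono fun q hq => hq.continuousAt
    have e3 : ∀ᶠ q : E × ℝ in 𝓝 (0, s₀), dist (ψ q.1) p < η / 2 := by
      have h1 : ContinuousAt (fun q : E × ℝ => dist (ψ q.1) p) (0, s₀) := by
        have : ContinuousAt (fun q : E × ℝ => ψ q.1) (0, s₀) :=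
          ContinuousAt.comp (f := Prod.fst) hψ.continuousAt continuousAt_fst
        exact this.dist continuousAt_const
      exact h1.eventually_lt continuousAt_const (by simp [hψ0, hη])
    obtain ⟨τ, h1, h2, h3, h4⟩ :=
      (e1.and ((hline.eventually e2).and ((hline.eventually e3).and
        (hline.eventually hA.eventually_nhds)))).exists
    have e4 : ∀ᶠ q : E × ℝ in 𝓝 (-(τ • v), s₀), ψ q.1 ∈ A q.2 := by
      have : ∀ᶠ q : E × ℝ in 𝓝 (-(τ • v), s₀), ∀ j, g j q < 0 :=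
        eventually_all.2 fun j => (h2 j).eventually_lt continuousAt_const (h1 j)
      filter_upwards [this, h4] with q hq hq'
      exact hq'.2 fun j => (hq j).le
    have e5 : Tendsto (fun z : (ℝ × ℝ) × F => ((-(τ • v), z.1.1) : E × ℝ)) (𝓝 ((s₀, s₀), p))
        (𝓝 (-(τ • v), s₀)) := by
      have : Continuous fun z : (ℝ × ℝ) × F => ((-(τ • v), z.1.1) : E × ℝ) := by fun_prop
      exact this.tendsto _
    have e6 : ∀ᶠ z : (ℝ × ℝ) × F in 𝓝 ((s₀, s₀), p), dist z.2 p < η / 2 := by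
      have : ContinuousAt (fun z : (ℝ × ℝ) × F => dist z.2 p) ((s₀, s₀), p) := by fun_prop
      exact this.eventually_lt continuousAt_const (by simp [hη])
    filter_upwards [e5.eventually e4, e6] with z hz hz' _ _
    refine ⟨_, hz, ?_⟩
    have := dist_triangle_right z.2 (ψ (-(τ • v))) p
    simp only at h3
    linarith
  · push Not at hall
    obtain ⟨j, hj⟩ := hall
    have e1 : ∀ᶠ q : E × ℝ in 𝓝 (0, s₀), ψ q.1 ∉ A q.2 := by
      have : ∀ᶠ q : E × ℝ in 𝓝 (0, s₀), 0 < g j q :=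
        continuousAt_const.eventually_lt (hg j).continuousAt hj
      filter_upwards [this, hA] with q hq hq' hmem
      exact absurd (hq'.1 hmem j) (not_le.2 hq)
    rw [nhds_prod_eq] at e1
    obtain ⟨pa, ha, pb, hb, hab⟩ := eventually_prod_iff.1 e1
    have h1 : ψ '' {u | pa u} ∈ 𝓝[M] p := by
      rw [← hmap]
      exact image_mem_map ha
    have h2 : ∀ᶠ x in 𝓝 p, x ∈ M → x ∈ ψ '' {u | pa u} := eventually_nhdsWithin_iff.1 h1
    have e5 : Tendsto (fun z : (ℝ × ℝ) × F => z.1.2) (𝓝 ((s₀, s₀), p)) (𝓝 s₀) := by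
      have : Continuous fun z : (ℝ × ℝ) × F => z.1.2 := by fun_prop
      exact this.tendsto _
    have e6 : Tendsto (fun z : (ℝ × ℝ) × F => z.2) (𝓝 ((s₀, s₀), p)) (𝓝 p) :=
      continuous_snd.tendsto _
    filter_upwards [e5.eventually hb, e6.eventually h2] with z hz hz' hM hmem
    obtain ⟨u, hu, hu'⟩ := hz' (hM hmem)
    have := hab (x := u) hu (y := z.1.2) hz
    exact absurd (hu' ▸ hmem) this

/-- a finite net with labels -/
theorem exists_net {Ω : Type*} [MetricSpace Ω] {L : Lab Ω R} (hL : L.Good) {Z : Set Ω}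
    (hZ : IsCompact Z) (hZY : Z ⊆ L.Y) {r : ℝ} (hr : 0 < r) :
    ∃ (k : ℕ) (x : Fin k → Ω) (l : Fin k → L.Λ) (ρ : ℝ), 0 < ρ ∧ 2 * ρ ≤ r ∧
      (∀ i, closedBall (x i) (2 * ρ) ∩ L.Y ⊆ L.O (l i)) ∧ ∀ z ∈ Z, ∃ i, z ∈ ball (x i) ρ := by
  have h1 : ∀ z : Z, ∃ (l : L.Λ) (ε : ℝ), 0 < ε ∧ ball (z : Ω) ε ∩ L.Y ⊆ L.O l := by
    intro z
    obtain ⟨l, hl⟩ := hL.cover z (hZY z.2)
    obtain ⟨ε, hε, hs⟩ := Metric.mem_nhdsWithin_iff.1 hl
    exact ⟨l, ε, hε, hs⟩
  choose l ε hε hl using h1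
  obtain ⟨δ, hδ, hleb⟩ := lebesgue_number_lemma_of_metric (c := fun z : Z => ball (z : Ω) (ε z))
    hZ (fun _ => isOpen_ball) (fun z hz => mem_iUnion.2 ⟨⟨z, hz⟩, mem_ball_self (hε _)⟩)
  set ρ := min (δ / 3) (r / 2) with hρ
  have hρ0 : 0 < ρ := lt_min (by linarith) (by linarith)
  have hρ1 : ρ ≤ δ / 3 := min_le_left _ _
  have hρ2 : ρ ≤ r / 2 := min_le_right _ _
  obtain ⟨t, htZ, htf, hcov⟩ := hZ.finite_cover_balls hρ0
  obtain ⟨k, ⟨e⟩⟩ := htf.to_subtype.exists_equiv_fin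
  have hne : ∀ i : Fin k, ∃ z : Z, ball ((e.symm i : t) : Ω) δ ⊆ ball (z : Ω) (ε z) := by
    intro i
    exact hleb _ (htZ (e.symm i).2)
  choose w hw using hne
  refine ⟨k, fun i => (e.symm i : t), fun i => l (w i), ρ, hρ0, by linarith, fun i => ?_,
    fun z hz => ?_⟩
  · refine Subset.trans (inter_subset_inter_left _ ?_) (hl (w i))
    exact (closedBall_subset_ball (by linarith)).trans (hw i)
  · obtain ⟨y, hy, hzy⟩ := mem_iUnion₂.1 (hcov hz)
    exact ⟨e ⟨y, hy⟩, by simpa using hzy⟩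

end TorCAux

open TorCAux

variable (E : Type*) [NormedAddCommGroup E] [NormedSpace ℝ E] [FiniteDimensional ℝ E]
variable {F : Type*} [NormedAddCommGroup F] [InnerProductSpace ℝ F] [FiniteDimensional ℝ F]
variable {R : Type*} [CommRing R] [StarRing R]

/-- uniform local acyclicity near a compact set -/
theorem la_of_mfcq {M Z : Set F} {A : ℝ → Set F} {a b : ℝ} (hZ : IsCompact Z)
    (hM : ∀ s ∈ Icc a b, A s ⊆ M) (hcl : ∀ s ∈ Icc a b, IsClosed (A s))
    (h : ∀ p ∈ Z, ∀ s ∈ Icc a b, MFCQAt E M A id p s) :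
    ∃ r > 0, ∀ r' ≤ r, ∀ s ∈ Icc a b, ∀ B₀ ∈ balls F r', (B₀ ∩ Z).Nonempty →
      LA (balls F r') (A s) B₀ := by
  have hK : IsCompact (Z ×ˢ Icc a b) := hZ.prod isCompact_Icc
  have key : ∃ r > 0, ∀ q ∈ Z ×ˢ Icc a b, ∀ r' ≤ r, q.2 ∈ Icc a b → ∀ B₀ ∈ balls F r',
      q.1 ∈ B₀ → LA (balls F r') (A q.2) B₀ := by
    refine hK.induction_on (p := fun S => ∃ r > 0, ∀ q ∈ S, ∀ r' ≤ r, q.2 ∈ Icc a b →
      ∀ B₀ ∈ balls F r', q.1 ∈ B₀ → LA (balls F r') (A q.2) B₀) ?_ ?_ ?_ ?_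
    · exact ⟨1, one_pos, fun q hq => absurd hq (notMem_empty q)⟩
    · rintro S T hST ⟨r, hr, hT⟩
      exact ⟨r, hr, fun q hq => hT q (hST hq)⟩
    · rintro S T ⟨r₁, hr₁, hS⟩ ⟨r₂, hr₂, hT⟩
      refine ⟨min r₁ r₂, lt_min hr₁ hr₂, fun q hq r' hr' => ?_⟩
      rcases hq with hq | hq
      · exact hS q hq r' (hr'.trans (min_le_left _ _))
      · exact hT q hq r' (hr'.trans (min_le_right _ _))
    · rintro ⟨p, s₀⟩ ⟨hp, hs₀⟩
      obtain ⟨ε, hε, hev⟩ := la_local (h p hp s₀ hs₀)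
      refine ⟨ball p ε ×ˢ _, mem_nhdsWithin_of_mem_nhds (prod_mem_nhds (ball_mem_nhds p hε) hev),
        ε, hε, fun q hq r' hr' hq2 B₀ hB₀ hq1 => ?_⟩
      exact hq.2 (hM _ hq2) (hcl _ hq2) r' hr' B₀ hB₀ ⟨q.1, hq1, hq.1⟩
  obtain ⟨r, hr, hkey⟩ := key
  refine ⟨r, hr, fun r' hr' s hs B₀ hB₀ ⟨z, hz1, hz2⟩ => ?_⟩
  exact hkey (z, s) ⟨hz2, hs⟩ r' hr' hs B₀ hB₀ hz1

theorem tor_mono {L : Lab F R} (hL : L.Good) {M Z : Set F} {A : ℝ → Set F} {a b : ℝ}
    (hab : a ≤ b) (hmono : MonotoneOn A (Icc a b)) (hM : ∀ s ∈ Icc a b, A s ⊆ M)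
    (hcl : ∀ s ∈ Icc a b, IsClosed (A s)) (hZ : IsCompact Z) (hZY : Z ⊆ L.Y)
    (hd : A b \ A a ⊆ Z) (hne : (A a).Nonempty ∨ ∀ l l', L.G l l' = 1)
    (h : ∀ p ∈ Z, ∀ s ∈ Icc a b, MFCQAt E M A id p s) : Tor L (A b) (A a) 1 := by
  have ha : a ∈ Icc a b := left_mem_Icc.2 hab
  have hb : b ∈ Icc a b := right_mem_Icc.2 hab
  have hdiff : ∀ s ∈ Icc a b, ∀ t ∈ Icc a b, A t \ A s ⊆ Z := fun s hs t ht x hx =>
    hd ⟨hmono ht hb ht.2 hx.1, fun hxa => hx.2 (hmono ha hs hs.1 hxa)⟩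
  have hclo : ∀ s ∈ Icc a b, ∀ t ∈ Icc a b, closure (A t \ A s) ⊆ Z := fun s hs t ht =>
    closure_minimal (hdiff s hs t ht) hZ.isClosed
  have hpair : ∀ s ∈ Icc a b, ∀ t ∈ Icc a b, s ≤ t → Pair L (A t) (A s) := by
    intro s hs t ht hst
    refine ⟨hmono hs ht hst, hcl s hs, hcl t ht,
      hZ.of_isClosed_subset isClosed_closure (hclo s hs t ht), (hclo s hs t ht).trans hZY, ?_⟩
    rcases hne with hne | hne
    · exact Or.inl (hne.mono (hmono ha hs hs.1))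
    · exact Or.inr hne
  obtain ⟨r, hr, hla⟩ := la_of_mfcq E hZ hM hcl h
  obtain ⟨k, x, l, ρ, hρ, hρr, hlab, hnet⟩ := exists_net hL hZ hZY hr
  have hloc : ∀ s₀ ∈ Icc a b, ∃ δ > 0, ∀ s ∈ Icc a b, ∀ t ∈ Icc a b, s ∈ ball s₀ δ →
      t ∈ ball s₀ δ → s ≤ t → Tor L (A t) (A s) 1 := by
    intro s₀ hs₀
    have hpig : ∃ ρ₁ ∈ Icc ρ (2 * ρ), ∃ ρ₂ ∈ Icc ρ (2 * ρ), ρ₁ < ρ₂ ∧
        nerve (fun i => closedBall (x i) ρ₁) (A s₀) =
          nerve (fun i => closedBall (x i) ρ₂) (A s₀) := by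
      obtain ⟨ρ₁, h₁, ρ₂, h₂, hn, he⟩ :=
        (Icc_infinite (show ρ < 2 * ρ by linarith)).exists_ne_map_eq_of_mapsTo
          (f := fun c => nerve (fun i => closedBall (x i) c) (A s₀)) (mapsTo_univ _ _)
          finite_univ
      rcases hn.lt_or_gt with hlt | hlt
      · exact ⟨ρ₁, h₁, ρ₂, h₂, hlt, he⟩
      · exact ⟨ρ₂, h₂, ρ₁, h₁, hlt, he.symm⟩
    obtain ⟨ρ₁, h₁, ρ₂, h₂, hlt, he⟩ := hpig
    have hη : 0 < (ρ₂ - ρ₁) / 2 := by linarith
    have hpush := hZ.eventually_forall_of_forall_eventually (x₀ := (s₀, s₀))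
      (P := fun (q : ℝ × ℝ) (z : F) => A q.2 ⊆ M → z ∈ A q.2 →
        ∃ y ∈ A q.1, dist z y ≤ (ρ₂ - ρ₁) / 2)
      (fun p hp => push_local (h p hp s₀ hs₀) hη)
    obtain ⟨δ, hδ, hball⟩ := Metric.eventually_nhds_iff_ball.1 hpush
    have hpush' : ∀ s ∈ Icc a b, ∀ t ∈ Icc a b, s ∈ ball s₀ δ → t ∈ ball s₀ δ →
        ∀ z ∈ A t, ∃ y ∈ A s, dist z y ≤ (ρ₂ - ρ₁) / 2 := by
      intro s hs t ht hsb htb z hz
      by_cases hzs : z ∈ A s
      · exact ⟨z, hzs, by simpa using hη.le⟩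
      · refine hball (s, t) ?_ z (hdiff s hs t ht ⟨hz, hzs⟩) (hM t ht) hz
        rw [← ball_prod_same]
        exact ⟨hsb, htb⟩
    refine ⟨δ, hδ, fun s hs t ht hsb htb hst => ⟨r, hr, ?_⟩⟩
    have hadm : Adm L (balls F r) (A t) (A s) (fun i => closedBall (x i) ((ρ₁ + ρ₂) / 2)) l := by
      refine ⟨fun i => ⟨x i, _, by linarith [h₁.1], by linarith [h₂.2], rfl⟩, fun i => ?_,
        fun z hz => ?_⟩
      · exact (inter_subset_inter_left _
          (closedBall_subset_closedBall (by linarith [h₂.2]))).trans (hlab i)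
      · obtain ⟨i, hi⟩ := hnet z (hclo s hs t ht hz)
        refine ⟨i, mem_of_superset (isOpen_ball.mem_nhds hi) ?_⟩
        exact ball_subset_closedBall.trans (closedBall_subset_closedBall (by linarith [h₁.1]))
    have hemp : nerve (fun i => closedBall (x i) ((ρ₁ + ρ₂) / 2)) (A t) \
        nerve (fun i => closedBall (x i) ((ρ₁ + ρ₂) / 2)) (A s) = ∅ := by
      rw [sdiff_eq_empty]
      rintro σ ⟨z, hz, hσ⟩
      obtain ⟨y, hy, hzy⟩ := hpush' s₀ hs₀ t ht (mem_ball_self hδ) htb z hz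
      have m2 : σ ∈ nerve (fun i => closedBall (x i) ρ₂) (A s₀) := by
        refine ⟨y, hy, fun i hi => ?_⟩
        have e1 : dist z (x i) ≤ (ρ₁ + ρ₂) / 2 := hσ i hi
        have e2 := dist_triangle_left y (x i) z
        show dist y (x i) ≤ ρ₂
        linarith
      rw [← he] at m2
      obtain ⟨y', hy', hσ'⟩ := m2
      obtain ⟨w, hw, hyw⟩ := hpush' s hs s₀ hs₀ hsb (mem_ball_self hδ) y' hy'
      refine ⟨w, hw, fun i hi => ?_⟩
      have e1 : dist y' (x i) ≤ ρ₁ := hσ' i hi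
      have e2 := dist_triangle_left w (x i) y'
      show dist w (x i) ≤ (ρ₁ + ρ₂) / 2
      linarith
    refine torC_of_one hL (hpair s hs t ht hst) balls_compact
      (fun _ _ z _ => balls_small hr z) (fun B₀ hB₀ hB₀ne => ?_) hadm ?_
    · have : (B₀ ∩ Z).Nonempty := hB₀ne.mono (inter_subset_inter_right _ (hclo s hs t ht))
      exact ⟨hla r le_rfl s hs B₀ hB₀ this, hla r le_rfl t ht B₀ hB₀ this⟩
    · rw [hemp]
      exact hasNu_empty _ _
  choose! δ hδ hloc using hloc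
  obtain ⟨d, hd0, hleb⟩ := lebesgue_number_lemma_of_metric
    (c := fun s : Icc a b => ball (s : ℝ) (δ s)) (isCompact_Icc (a := a) (b := b))
    (fun _ => isOpen_ball) (fun z hz => mem_iUnion.2 ⟨⟨z, hz⟩, mem_ball_self (hδ _ hz)⟩)
  have hind : ∀ n : ℕ, ∀ t ∈ Icc a b, t ≤ a + n * (d / 2) → Tor L (A t) (A a) 1 := by
    intro n
    induction n with
    | zero =>
      intro t ht hle
      have : t = a := le_antisymm (by simpa using hle) ht.1
      rw [this]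
      exact tor_refl L _
    | succ n ih =>
      intro t ht hle
      have hn : (0 : ℝ) ≤ n * (d / 2) := by positivity
      have hs : max a (t - d / 2) ∈ Icc a b :=
        ⟨le_max_left _ _, max_le hab (by linarith [ht.2])⟩
      have hst : max a (t - d / 2) ≤ t := max_le ht.1 (by linarith)
      have hsn : max a (t - d / 2) ≤ a + n * (d / 2) := by
        push_cast at hle
        exact max_le (by linarith) (by linarith)
      obtain ⟨s₀, hs₀⟩ := hleb t ht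
      have h1 : Tor L (A t) (A (max a (t - d / 2))) 1 := by
        refine hloc s₀ s₀.2 _ hs t ht (hs₀ ?_) (hs₀ (mem_ball_self hd0)) hst
        rw [mem_ball, Real.dist_eq, abs_lt]
        have := le_max_right a (t - d / 2)
        constructor <;> linarith
      simpa using Tor.trans hL (hpair _ hs t ht hst) (hpair a ha _ hs hs.1) h1 (ih _ hs hsn)
  obtain ⟨n, hn⟩ := exists_nat_ge ((b - a) / (d / 2))
  refine hind n b hb ?_
  rw [div_le_iff₀ (by linarith)] at hn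
  linarith

theorem TorCAux.isCx_pair {Ω : Type*} [MetricSpace Ω] {L : Lab Ω R} (hL : L.Good)
    {𝔅 : Set (Set Ω)} {A' A : Set Ω} (hp : Pair L A' A) {ι : Type} [Fintype ι] [LinearOrder ι]
    {B : ι → Set Ω} {l : ι → L.Λ} (hB : Adm L 𝔅 A' A B l) :
    IsCx (bd fun i j => L.G (l i) (l j)) Finset.card (nerve B A' \ nerve B A) := by
  refine isCx_bd (nerve_lower _ _) (nerve_lower _ _) ?_ ?_
  · rintro σ ⟨⟨x, hx, hσ⟩, hnot⟩ i hi j hj k hk
    have hxA : x ∉ A := fun hxA => hnot ⟨x, hxA, hσ⟩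
    have hxY : x ∈ L.Y := hp.inY (subset_closure ⟨hx, hxA⟩)
    exact hL.coc _ _ _ x hxY (hB.lab i ⟨hσ i hi, hxY⟩) (hB.lab j ⟨hσ j hj, hxY⟩)
      (hB.lab k ⟨hσ k hk, hxY⟩)
  · rcases hp.ne with ⟨x, hx⟩ | hne
    · exact Or.inl ⟨x, hx, fun i hi => absurd hi (Finset.notMem_empty i)⟩
    · exact Or.inr fun i j => hne _ _

omit [CommRing R] [StarRing R] in
theorem TorCAux.adm_mono {Ω : Type*} [MetricSpace Ω] {L : Lab Ω R} {𝔅 𝔅' : Set (Set Ω)}
    {A' A C' C : Set Ω} {ι : Type} {B : ι → Set Ω} {l : ι → L.Λ} (hB : Adm L 𝔅 A' A B l)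
    (h𝔅 : 𝔅 ⊆ 𝔅') (hsub : C' \ C ⊆ A' \ A) : Adm L 𝔅' C' C B l :=
  ⟨fun i => h𝔅 (hB.mem i), hB.lab, fun x hx => hB.cov x (closure_mono hsub hx)⟩

theorem TorCAux.six_nerve {Ω : Type*} [MetricSpace Ω] {L : Lab Ω R} (hL : L.Good)
    {𝔅 : Set (Set Ω)} {A A' B B' : Set Ω} (p₁ : Pair L A' A) (p₂ : Pair L B A')
    (p₃ : Pair L B' B) {ι : Type} [Fintype ι] [LinearOrder ι] {C : ι → Set Ω} {l : ι → L.Λ}
    (hC : Adm L 𝔅 B' A C l) {W₁ W₂ : R} (t₁ : TorC L 𝔅 B A W₁) (t₂ : TorC L 𝔅 B' A' W₂) :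
    ∃ W, HasNu (bd fun i j => L.G (l i) (l j)) Finset.card (nerve C A' \ nerve C A) W := by
  have s₁ : nerve C A ⊆ nerve C A' := nerve_mono C p₁.sub
  have s₂ : nerve C A' ⊆ nerve C B := nerve_mono C p₂.sub
  have s₃ : nerve C B ⊆ nerve C B' := nerve_mono C p₃.sub
  have a₁ := (t₁ ι C l (adm_mono hC subset_rfl (sdiff_subset_sdiff_left p₃.sub))).acyc
  have a₂ := (t₂ ι C l (adm_mono hC subset_rfl (sdiff_subset_sdiff_right p₁.sub))).acyc
  have cx := isCx_pair hL (p₃.trans (p₂.trans p₁)) hC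
  have u12 : (nerve C A' \ nerve C A) ∪ (nerve C B \ nerve C A') = nerve C B \ nerve C A := by
    rw [union_comm]
    exact sdiff_union_sdiff_cancel s₂ s₁
  have u23 : (nerve C B \ nerve C A') ∪ (nerve C B' \ nerve C B) = nerve C B' \ nerve C A' := by
    rw [union_comm]
    exact sdiff_union_sdiff_cancel s₃ s₂
  have u123 : (nerve C A' \ nerve C A) ∪ (nerve C B \ nerve C A') ∪ (nerve C B' \ nerve C B) =
      nerve C B' \ nerve C A := by
    rw [u12, union_comm]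
    exact sdiff_union_sdiff_cancel s₃ (s₁.trans s₂)
  have z : ∀ (X : Set Ω) (σ τ : Finset ι), σ ∉ nerve C X → τ ∈ nerve C X →
      (bd fun i j => L.G (l i) (l j)) σ τ = 0 := fun X σ τ hσ hτ =>
    bd_eq_zero_of_not_subset _ fun hsub => hσ (nerve_lower C X hsub hτ)
  have ac : Acyc (bd fun i j => L.G (l i) (l j)) (nerve C A' \ nerve C A) := by
    refine acyc_six (deg := Finset.card) (S₂ := nerve C B \ nerve C A')
      (S₃ := nerve C B' \ nerve C B) (by rw [u123]; exact cx) ?_ ?_ ?_ ?_ ?_ ?_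
      (by rw [u12]; exact a₁) (by rw [u23]; exact a₂)
    · exact disjoint_left.2 fun σ h1 h2 => h2.2 h1.1
    · exact disjoint_left.2 fun σ h1 h2 => h2.2 (s₂ h1.1)
    · exact disjoint_left.2 fun σ h1 h2 => h2.2 h1.1
    · exact fun σ hσ τ hτ => z A' σ τ hσ.2 hτ.1
    · exact fun σ hσ τ hτ => z B σ τ hσ.2 (s₂ hτ.1)
    · exact fun σ hσ τ hτ => z B σ τ hσ.2 hτ.1
  exact exists_hasNu (isCx_pair hL p₁ (adm_mono hC subset_rfl
    (sdiff_subset_sdiff_left (p₂.sub.trans p₃.sub)))) ac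

theorem exists_tor_six {L : Lab F R} (hL : L.Good) {M A A' B B' : Set F} (p₁ : Pair L A' A)
    (p₂ : Pair L B A') (p₃ : Pair L B' B) (hM : A' ⊆ M)
    (h : ∀ p ∈ closure (A' \ A),
      MFCQAt E M (fun _ => A) id p 0 ∧ MFCQAt E M (fun _ => A') id p 0)
    {W₁ W₂ : R} (t₁ : Tor L B A W₁) (t₂ : Tor L B' A' W₂) : ∃ W, Tor L A' A W := by
  obtain ⟨r₁, hr₁, t₁⟩ := t₁
  obtain ⟨r₂, hr₂, t₂⟩ := t₂
  have h0 : ∀ s ∈ Icc (0 : ℝ) 0, s = 0 := fun s hs => le_antisymm hs.2 hs.1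
  obtain ⟨r₃, hr₃, la₃⟩ := la_of_mfcq E (M := M) (A := fun _ => A) (a := 0) (b := 0) p₁.cpt
    (fun _ _ => p₁.sub.trans hM) (fun _ _ => p₁.cl) (fun p hp s hs => h0 s hs ▸ (h p hp).1)
  obtain ⟨r₄, hr₄, la₄⟩ := la_of_mfcq E (M := M) (A := fun _ => A') (a := 0) (b := 0) p₁.cpt
    (fun _ _ => hM) (fun _ _ => p₁.cl') (fun p hp s hs => h0 s hs ▸ (h p hp).2)
  set r := min (min r₁ r₂) (min r₃ r₄) with hr
  have hr0 : 0 < r := lt_min (lt_min hr₁ hr₂) (lt_min hr₃ hr₄)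
  have l₁ : r ≤ r₁ := (min_le_left _ _).trans (min_le_left _ _)
  have l₂ : r ≤ r₂ := (min_le_left _ _).trans (min_le_right _ _)
  have l₃ : r ≤ r₃ := (min_le_right _ _).trans (min_le_left _ _)
  have l₄ : r ≤ r₄ := (min_le_right _ _).trans (min_le_right _ _)
  have p := p₃.trans (p₂.trans p₁)
  obtain ⟨k, C, l, hC⟩ := exists_adm hL p.cpt p.inY hr0
  have t₁' : TorC L (balls F r) B A W₁ := fun ι _ _ D m hD =>
    t₁ ι D m (adm_mono hD (balls_mono l₁) subset_rfl)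
  have t₂' : TorC L (balls F r) B' A' W₂ := fun ι _ _ D m hD =>
    t₂ ι D m (adm_mono hD (balls_mono l₂) subset_rfl)
  obtain ⟨W, hW⟩ := six_nerve hL p₁ p₂ p₃ hC t₁' t₂'
  refine ⟨W, r, hr0, torC_of_one hL p₁ balls_compact (fun _ _ z _ => balls_small hr0 z)
    (fun B₀ hB₀ hne => ?_)
    (adm_mono hC subset_rfl (sdiff_subset_sdiff_left (p₂.sub.trans p₃.sub))) hW⟩
  exact ⟨la₃ r l₃ 0 (left_mem_Icc.2 le_rfl) B₀ hB₀ hne,
    la₄ r l₄ 0 (left_mem_Icc.2 le_rfl) B₀ hB₀ hne⟩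

end SpunKnot
end
end

-- merged part: Pool.Agent.Work.MP_e1e788_gt.Box
section
/-! Families of sublevel sets in a vector space. -/

open Set Filter Topology

noncomputable section
namespace SpunKnot
variable {F : Type*} [NormedAddCommGroup F] [InnerProductSpace ℝ F] [FiniteDimensional ℝ F]
variable {R : Type*} [CommRing R] [StarRing R]

omit [FiniteDimensional ℝ F] in
theorem mfcqAt_univ {ι : Type*} [Fintype ι] {g : ι → F × ℝ → ℝ} (hg : ∀ i, ContDiff ℝ 2 (g i))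
    {p : F} {s₀ : ℝ} (h : (∀ i, g i (p, s₀) ≤ 0) →
      ∃ v, ∀ i, g i (p, s₀) = 0 → 0 < fderiv ℝ (g i) (p, s₀) (v, 0)) :
    MFCQAt F univ (fun s => {x | ∀ i, g i (x, s) ≤ 0}) id p s₀ := by
  have h1 : ContDiffAt ℝ 2 (fun u : F => p + u) 0 := contDiffAt_const.add contDiffAt_id
  have h2 : Function.Injective (fderiv ℝ (fun u : F => p + u) 0) := by
    rw [fderiv_const_add, fderiv_fun_id]
    exact Function.injective_id
  have h3 : map (fun u : F => p + u) (𝓝 0) = 𝓝[univ] p := by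
    rw [nhdsWithin_univ]
    exact map_add_left_nhds_zero p
  have h4 : ∀ q : F × ℝ, (p, (0 : ℝ)) + q = (p + q.1, q.2) := fun q => by ext <;> simp
  have h5 : (p, (0 : ℝ)) + ((0 : F), s₀) = (p, s₀) := by simp
  have h6 : ∀ i, ContDiff ℝ 2 fun q : F × ℝ => g i ((p, 0) + q) :=
    fun i => (hg i).comp (contDiff_const.add contDiff_id)
  by_cases h0 : ∀ i, g i (p, s₀) ≤ 0
  · obtain ⟨v, hv⟩ := h h0
    refine ⟨fun u => p + u, Fintype.card ι,
      fun j q => g ((Fintype.equivFin ι).symm j) ((p, 0) + q), v, h1, add_zero p, h2, h3, h1, h2,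
      fun j => (h6 _).contDiffAt, fun j hj => ?_, Eventually.of_forall fun q => ?_⟩
    · rw [fderiv_comp_add_left, h5]
      exact hv _ (by simpa only [h5] using hj)
    · simp only [h4]
      exact ⟨fun a j => a _, fun a i => by simpa using a (Fintype.equivFin ι i)⟩
  · push Not at h0
    obtain ⟨i, hi⟩ := h0
    refine ⟨fun u => p + u, 1, fun _ _ => 1, 0, h1, add_zero p, h2, h3, h1, h2,
      fun _ => contDiffAt_const, fun _ hj => absurd hj one_ne_zero, ?_⟩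
    have h7 : ∀ᶠ q : F × ℝ in 𝓝 (0, s₀), 0 < g i ((p, 0) + q) :=
      (h6 i).continuous.continuousAt.eventually (lt_mem_nhds (by simpa only [h5] using hi))
    filter_upwards [h7] with q hq
    rw [h4] at hq
    exact iff_of_false (fun a => (a i).not_gt hq) fun a => (a 0).not_gt one_pos

omit [FiniteDimensional ℝ F] in
theorem BoxAux.fderiv_left {g : F × ℝ → ℝ} (hg : ContDiff ℝ 2 g) (x : F) (s : ℝ) (v : F) :
    fderiv ℝ g (x, s) (v, 0) = fderiv ℝ (fun y => g (y, s)) x v := by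
  have h1 : HasFDerivAt g (fderiv ℝ g (x, s)) (x, s) :=
    (hg.differentiable two_ne_zero (x, s)).hasFDerivAt
  have h2 := (h1.comp x (hasFDerivAt_prodMk_left (𝕜 := ℝ) x s)).fderiv
  change fderiv ℝ (fun y => g (y, s)) x = _ at h2
  rw [h2]
  rfl

theorem tor_sublevel {L : Lab F R} (hL : L.Good) {g : F × ℝ → ℝ} (hg : ContDiff ℝ 2 g)
    (hanti : ∀ x, AntitoneOn (fun s => g (x, s)) (Icc 0 1)) {Z : Set F} (hZ : IsCompact Z)
    (hZY : Z ⊆ L.Y) (hd : ∀ x, g (x, 1) ≤ 0 → 0 < g (x, 0) → x ∈ Z) (hne : ∃ x, g (x, 0) ≤ 0)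
    (hreg : ∀ x ∈ Z, ∀ s ∈ Icc (0 : ℝ) 1, g (x, s) = 0 → fderiv ℝ (fun y => g (y, s)) x ≠ 0) :
    Pair L {x | g (x, 1) ≤ 0} {x | g (x, 0) ≤ 0} ∧
      Tor L {x | g (x, 1) ≤ 0} {x | g (x, 0) ≤ 0} 1 := by
  have hmono : MonotoneOn (fun s => {x | g (x, s) ≤ 0}) (Icc (0 : ℝ) 1) :=
    fun s hs t ht hst x hx => (hanti x hs ht hst).trans hx
  have hcl : ∀ s : ℝ, IsClosed {x | g (x, s) ≤ 0} := fun s =>
    isClosed_le (hg.continuous.comp (Continuous.prodMk_left s)) continuous_const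
  have hd' : {x | g (x, 1) ≤ 0} \ {x | g (x, 0) ≤ 0} ⊆ Z :=
    fun x hx => hd x hx.1 (not_le.1 hx.2)
  have hc := closure_minimal hd' hZ.isClosed
  refine ⟨⟨hmono (left_mem_Icc.2 zero_le_one) (right_mem_Icc.2 zero_le_one) zero_le_one, hcl 0,
    hcl 1, hZ.of_isClosed_subset isClosed_closure hc, hc.trans hZY, Or.inl hne⟩, ?_⟩
  refine tor_mono F hL (M := univ) (A := fun s => {x | g (x, s) ≤ 0}) zero_le_one hmono
    (fun _ _ => subset_univ _) (fun s _ => hcl s) hZ hZY hd' (Or.inl hne) fun x hx s hs => ?_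
  have h1 := mfcqAt_univ (ι := Unit) (g := fun _ => g) (fun _ => hg) (p := x) (s₀ := s) (by
    intro _
    by_cases h0 : g (x, s) = 0
    · obtain ⟨v, hv⟩ := ContinuousLinearMap.exists_ne_zero (hreg x hx s hs h0)
      rcases lt_or_gt_of_ne hv with h2 | h2
      · refine ⟨-v, fun _ _ => ?_⟩
        rw [BoxAux.fderiv_left hg, map_neg]
        linarith
      · exact ⟨v, fun _ _ => by rwa [BoxAux.fderiv_left hg]⟩
    · exact ⟨0, fun _ a => absurd a h0⟩)
  simpa only [forall_const] using h1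

variable {κ : Type} [Fintype κ] [DecidableEq κ]

/-- a box -/
def box (lo hi : κ → ℝ) : Set (Sp κ) := {x | ∀ j, lo j ≤ x j ∧ x j ≤ hi j}

namespace BoxAux

omit [DecidableEq κ] in
theorem compact (lo hi : κ → ℝ) : IsCompact (box lo hi) := by
  have : box lo hi = WithLp.toLp 2 '' Icc lo hi := by
    ext x
    constructor
    · intro h
      exact ⟨x.ofLp, ⟨fun j => (h j).1, fun j => (h j).2⟩, rfl⟩
    · rintro ⟨y, h, rfl⟩ j
      exact ⟨h.1 j, h.2 j⟩
  rw [this]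
  exact isCompact_Icc.image (PiLp.continuous_toLp 2 _)

theorem expand (T : Sp κ →L[ℝ] ℝ) (v : Sp κ) :
    T v = ∑ j, v j * T (EuclideanSpace.single j 1) := by
  have : v = ∑ j, v j • EuclideanSpace.single j (1 : ℝ) := by
    ext i
    simp [Finset.sum_apply, Pi.single_apply]
  conv_lhs => rw [this]
  simp only [map_sum, map_smul, smul_eq_mul]

theorem pos (T : Sp κ →L[ℝ] ℝ) (hT : T ≠ 0) (v : Sp κ)
    (h : ∀ j, v j * T (EuclideanSpace.single j 1) = |T (EuclideanSpace.single j 1)|) : 0 < T v := by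
  rw [expand]
  simp only [h]
  refine Finset.sum_pos' (fun j _ => abs_nonneg _) ?_
  by_contra h0
  refine hT (ContinuousLinearMap.ext fun w => ?_)
  rw [expand]
  refine Finset.sum_eq_zero fun j _ => ?_
  have : T (EuclideanSpace.single j 1) = 0 := by
    by_contra h1
    exact h0 ⟨j, Finset.mem_univ _, abs_pos.2 h1⟩
  rw [this, mul_zero]

/-- the constraints of the moving box -/
def con (p : Sp κ → ℝ) (ℓ : ℝ) (lo hi lo' hi' : κ → ℝ) : Option (κ ⊕ κ) → Sp κ × ℝ → ℝ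
  | none, q => p q.1 - ℓ
  | some (Sum.inl j), q => lo j + q.2 * (lo' j - lo j) - q.1 j
  | some (Sum.inr j), q => q.1 j - (hi j + q.2 * (hi' j - hi j))

omit [DecidableEq κ] in
theorem con_smooth {p : Sp κ → ℝ} (hp : ContDiff ℝ 2 p) (ℓ : ℝ) (lo hi lo' hi' : κ → ℝ) :
    ∀ i, ContDiff ℝ 2 (con p ℓ lo hi lo' hi' i) := by
  have h : ∀ j, ContDiff ℝ 2 fun q : Sp κ × ℝ => q.1 j := fun j =>
    (EuclideanSpace.proj (𝕜 := ℝ) j).contDiff.comp contDiff_fst
  rintro (_ | j | j)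
  · exact (hp.comp contDiff_fst).sub contDiff_const
  · exact (contDiff_const.add (contDiff_snd.mul contDiff_const)).sub (h j)
  · exact (h j).sub (contDiff_const.add (contDiff_snd.mul contDiff_const))

omit [Fintype κ] [DecidableEq κ] in
theorem con_iff {p : Sp κ → ℝ} {ℓ : ℝ} {lo hi lo' hi' : κ → ℝ} {x : Sp κ} {s : ℝ} :
    (∀ i, con p ℓ lo hi lo' hi' i (x, s) ≤ 0) ↔ (∀ j, lo j + s * (lo' j - lo j) ≤ x j ∧
      x j ≤ hi j + s * (hi' j - hi j)) ∧ p x ≤ ℓ := by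
  constructor
  · intro h
    exact ⟨fun j => ⟨sub_nonpos.1 (h (some (Sum.inl j))), sub_nonpos.1 (h (some (Sum.inr j)))⟩,
      sub_nonpos.1 (h none)⟩
  · rintro h (_ | j | j)
    exacts [sub_nonpos.2 h.2, sub_nonpos.2 (h.1 j).1, sub_nonpos.2 (h.1 j).2]

end BoxAux

open BoxAux in
/-- shrinking a box inside a sublevel set -/
theorem tor_box {p : Sp κ → ℝ} (hp : ContDiff ℝ 2 p) {ℓ : ℝ} {lo hi lo' hi' : κ → ℝ}
    (h₁ : ∀ j, lo' j ≤ lo j) (h₂ : ∀ j, lo j < hi j) (h₃ : ∀ j, hi j ≤ hi' j)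
    (hreg : ∀ x ∈ box lo' hi', p x = ℓ → fderiv ℝ p x ≠ 0)
    (hlo : ∀ x ∈ box lo' hi', p x = ℓ → ∀ j, x j ≤ lo j →
      fderiv ℝ p x (EuclideanSpace.single j 1) ≤ 0)
    (hhi : ∀ x ∈ box lo' hi', p x = ℓ → ∀ j, hi j ≤ x j →
      0 ≤ fderiv ℝ p x (EuclideanSpace.single j 1))
    {W : ℤ} (h : Tor (Lab.triv (Sp κ)) (box lo hi ∩ {x | p x ≤ ℓ}) ∅ W) :
    Tor (Lab.triv (Sp κ)) (box lo' hi' ∩ {x | p x ≤ ℓ}) ∅ W := by
  classical
  have hsm := con_smooth hp ℓ lo hi lo' hi'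
  set A : ℝ → Set (Sp κ) := fun s => {x | ∀ i, con p ℓ lo hi lo' hi' i (x, s) ≤ 0} with hA
  have e0 : A 0 = box lo hi ∩ {x | p x ≤ ℓ} := by
    ext x
    simp only [hA, mem_ofPred_eq, con_iff, zero_mul, add_zero]
    rfl
  have e1 : A 1 = box lo' hi' ∩ {x | p x ≤ ℓ} := by
    ext x
    simp only [hA, mem_ofPred_eq, con_iff, one_mul, add_sub_cancel]
    rfl
  have hmono : MonotoneOn A (Icc (0 : ℝ) 1) := by
    intro s _ t _ hst x hx
    obtain ⟨a, b⟩ := con_iff.1 hx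
    refine con_iff.2 ⟨fun j => ⟨le_trans ?_ (a j).1, le_trans (a j).2 ?_⟩, b⟩
    · nlinarith [h₁ j]
    · nlinarith [h₃ j]
  have hcl : ∀ s, IsClosed (A s) := fun s => by
    simp only [hA, ofPred_forall]
    exact isClosed_iInter fun i =>
      isClosed_le ((hsm i).continuous.comp (Continuous.prodMk_left s)) continuous_const
  have hsub : A 1 ⊆ box lo' hi' := e1 ▸ inter_subset_left
  have h01 : A 0 ⊆ A 1 :=
    hmono (left_mem_Icc.2 zero_le_one) (right_mem_Icc.2 zero_le_one) zero_le_one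
  have hc : ∀ B : Set (Sp κ), B ⊆ A 1 → IsCompact (closure B) := fun B hB =>
    (compact lo' hi').of_isClosed_subset isClosed_closure
      (closure_minimal (hB.trans hsub) (compact lo' hi').isClosed)
  have t : Tor (Lab.triv (Sp κ)) (A 1) (A 0) 1 := by
    refine tor_mono (Sp κ) Lab.triv_good (M := univ) zero_le_one hmono (fun _ _ => subset_univ _)
      (fun s _ => hcl s) (compact lo' hi') (subset_univ _) (sdiff_subset.trans hsub)
      (Or.inr fun _ _ => rfl) fun x hx s hs => mfcqAt_univ hsm fun _ => ?_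
    have hl : ∀ j, lo j + s * (lo' j - lo j) ≤ lo j := fun j => by nlinarith [h₁ j, hs.1]
    have hh : ∀ j, hi j ≤ hi j + s * (hi' j - hi j) := fun j => by nlinarith [h₃ j, hs.1]
    refine ⟨WithLp.toLp 2 fun j => if x j ≤ lo j then -1 else if hi j ≤ x j then 1 else
      if 0 ≤ fderiv ℝ p x (EuclideanSpace.single j 1) then 1 else -1, ?_⟩
    rintro (_ | j | j) hi0 <;> rw [fderiv_left (hsm _)]
    · have hx0 : p x = ℓ := sub_eq_zero.1 hi0
      change 0 < fderiv ℝ (fun y => p y - ℓ) x _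
      rw [fderiv_sub_const]
      refine pos _ (hreg x hx hx0) _ fun j => ?_
      change (if x j ≤ lo j then -1 else if hi j ≤ x j then 1 else
        if 0 ≤ fderiv ℝ p x (EuclideanSpace.single j 1) then 1 else -1) * _ = _
      split_ifs with a b c
      · rw [abs_of_nonpos (hlo x hx hx0 j a), neg_one_mul]
      · rw [abs_of_nonneg (hhi x hx hx0 j b), one_mul]
      · rw [abs_of_nonneg c, one_mul]
      · rw [abs_of_neg (not_le.1 c), neg_one_mul]
    · have a : x j ≤ lo j := (sub_eq_zero.1 hi0).symm.trans_le (hl j)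
      have d := ((EuclideanSpace.proj (𝕜 := ℝ) j).hasFDerivAt (x := x)).const_sub
        (lo j + s * (lo' j - lo j))
      change 0 < fderiv ℝ (fun y : Sp κ => lo j + s * (lo' j - lo j) - EuclideanSpace.proj j y) x _
      rw [d.fderiv]
      simp [a]
    · have b : hi j ≤ x j := (hh j).trans_eq (sub_eq_zero.1 hi0).symm
      have a : ¬ x j ≤ lo j := not_le.2 ((h₂ j).trans_le b)
      have d := ((EuclideanSpace.proj (𝕜 := ℝ) j).hasFDerivAt (x := x)).sub_const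
        (hi j + s * (hi' j - hi j))
      change 0 < fderiv ℝ
        (fun y : Sp κ => EuclideanSpace.proj j y - (hi j + s * (hi' j - hi j))) x _
      rw [d.fderiv]
      simp [a, b]
  rw [← e0] at h
  rw [← e1, ← mul_one W]
  exact Tor.trans Lab.triv_good
    ⟨h01, hcl 0, hcl 1, hc _ sdiff_subset, subset_univ _, Or.inr fun _ _ => rfl⟩
    ⟨empty_subset _, isClosed_empty, hcl 0, hc _ (sdiff_subset.trans h01), subset_univ _,
      Or.inr fun _ _ => rfl⟩ t h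

theorem tor_box_convex (lo hi : κ → ℝ) : Tor (Lab.triv (Sp κ)) (box lo hi) ∅ 1 := by
  refine tor_convex (BoxAux.compact lo hi) fun x hx y hy a b ha hb hab j => ?_
  exact convex_Icc (lo j) (hi j) (hx j) (hy j) ha hb hab

end SpunKnot
end
end

-- merged part: Pool.Agent.Work.MP_e1e788_gt.StarA
section
/-! The nerve of the stars is the complex, and their intersections are acyclic. -/

open Set Filter Topology

noncomputable section
namespace SpunKnot
variable {V : Type} [Fintype V] [LinearOrder V]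

namespace StarAAux
open GridAAux

section grid
variable {κ : Type*} [Fintype κ] [DecidableEq κ] {Y : Set (κ → ℤ)} {x : Sp κ} {j : κ}

theorem dpos (hc : Closed Y) (i : ℤ) (h1 : (i : ℝ) ≤ x j) (h2 : x j < i + 1 / 2) :
    0 ≤ fderiv ℝ (hY Y) x (EuclideanSpace.single j 1) := by
  have h := hY_partial_nonneg hc x j
  rw [sg_of_le (by rw [round_eq_of (i := i) (by linarith) h2]; exact h1)] at h
  simpa using h

theorem dneg (hc : Closed Y) (i : ℤ) (h1 : (i : ℝ) - 2 / 3 ≤ x j) (h2 : x j < i) :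
    fderiv ℝ (hY Y) x (EuclideanSpace.single j 1) ≤ 0 := by
  rcases le_or_gt ((i : ℝ) - 1 / 2) (x j) with h3 | h3
  · have h := hY_partial_nonneg hc x j
    rw [sg_of_lt (by rw [round_eq_of (i := i) h3 (by linarith)]; exact h2)] at h
    simpa using h
  · refine (hY_partial_zero_of_pure Y (.inr ?_)).le
    rw [tt, round_eq_of (i := i - 1) (by push_cast; linarith) (by push_cast; linarith),
      stp_eq_one_iff]
    push_cast
    exact le_trans (by linarith [eta_le]) (le_abs_self _)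

theorem reg (hc : Closed Y) {ℓ : ℝ} (hℓ : ℓ ∈ Ioo (0 : ℝ) 1) (h : hY Y x = ℓ) :
    fderiv ℝ (hY Y) x ≠ 0 := fun e => by
  obtain ⟨j, hj⟩ := hY_partial_ne hc (x := x) (h ▸ hℓ.1) (h ▸ hℓ.2)
  exact hj (by rw [e]; rfl)

theorem one_le_acell {S : Finset κ} (h : Active x S) (hx : 1 / 3 ≤ x j) : 1 ≤ acell x S j := by
  have he := eta_le
  have he' := eta_pos
  by_cases hj : j ∈ S
  · have h1 := (abs_lt.1 ((h.near j).2 hj)).2
    have h2 : (-1 : ℝ) < acell x S j := by linarith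
    have h3 : -1 < acell x S j := by exact_mod_cast h2
    simp only [acell, if_pos hj] at h3 ⊢
    rcases sg_cases (x j) with e | e <;> omega
  · have h1 := (abs_lt.1 ((h.near j).1 hj)).2
    have h2 : (0 : ℝ) < acell x S j := by linarith
    exact_mod_cast h2

theorem acell_pure {S : Finset κ} (h : Active x S) {i : ℤ} (h1 : (i : ℝ) - eta / 2 ≤ x j)
    (h2 : x j ≤ i + eta / 2) : j ∉ S ∧ round (x j) = i := by
  have he := eta_le
  have he' := eta_pos
  have h3 : round (x j) = i := round_eq_of (by linarith) (by linarith)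
  refine ⟨fun hj => (h.1 j hj).ne' ?_, h3⟩
  rw [tt, h3, stp_eq_zero_iff, abs_le]
  constructor <;> linarith

end grid

variable {b : V} {L N : Set (Finset V)} {S : Finset V}

theorem mem_top {c : KS V → ℤ} (h1 : c none = 2) (h2 : c (some none) = 2)
    (h3 : c (some (some none)) = 0) :
    c ∈ slice b (at0 L) N ↔ (fun v => c (jS v)) ∈ cub L := by
  simp [slice, ycx, zcx, stack, at0, h1, h2, h3]

theorem supp_mem (hL : IsLowerSet L) (hb : {b} ∈ L) {c : KS V → ℤ} (hc : c ∈ slice b (at0 L) N)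
    (h1 : 1 ≤ c none) (h2 : 1 ≤ c (some none)) (h3 : ∀ v ∈ S, c (jS v) ≠ 0) : S ∈ L := by
  have h4 : ¬ c (some none) ≤ 0 := by omega
  have h5 : c none ≠ 0 := by omega
  simp only [slice, ycx, zcx, stack, at0, baseY, mem_setOf_eq, h5, if_false] at hc
  split_ifs at hc with e1
  swap
  · exact (h4 hc).elim
  simp only [mem_setOf_eq, h4, if_false] at hc
  split_ifs at hc with e2 e3
  · refine hL (show S ≤ {b} from fun v hv => ?_) hb
    have := congrFun (mem_singleton_iff.1 hc) (some v)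
    by_contra hv'
    exact h3 v hv (this.trans (if_neg (by simpa using hv')))
  · simp only [mem_setOf_eq] at hc
    split_ifs at hc with e4
    · exact hL (fun v hv => Finset.mem_filter.2 ⟨Finset.mem_univ _, h3 v hv⟩) hc.2.2
    · exact hc.2.2.elim
  · exact hc.elim

/-- the vertex of a simplex -/
def ctr (S : Finset V) : KS V → ℤ
  | none => 1
  | some none => 1
  | some (some none) => 0
  | some (some (some v)) => if v ∈ S then 1 else 0

/-- upper corner of the middle box -/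
def hi1 (S : Finset V) : KS V → ℝ
  | none => 1 + eta / 2
  | some none => 1 + eta / 2
  | some (some none) => eta / 2
  | some (some (some v)) => if v ∈ S then 1 + eta / 2 else 4 / 3

/-- lower corner of the large box -/
def lo2 (S : Finset V) : KS V → ℝ
  | none => 2 / 3
  | some none => 2 / 3
  | some (some none) => -1 / 3
  | some (some (some v)) => if v ∈ S then 1 / 3 else -1 / 3

/-- upper corner of the large box -/
def hi2 : KS V → ℝ
  | none => 4 / 3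
  | some none => 4 / 3
  | some (some none) => 1 / 3
  | some (some (some _)) => 4 / 3

theorem inter_eq (hS : S.Nonempty) : (⋂ v ∈ S, Comb.St v) = box (lo2 S) hi2 := by
  ext x
  simp only [mem_iInter, Comb.St, box, mem_setOf_eq, abs_le]
  constructor
  · intro h j
    obtain ⟨v, hv⟩ := hS
    obtain ⟨-, h1, h2, h3, h4⟩ := h v hv
    rcases j with _ | _ | _ | u
    · constructor <;> simp only [lo2, hi2] <;> linarith [h2.1, h2.2]
    · constructor <;> simp only [lo2, hi2] <;> linarith [h3.1, h3.2]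
    · constructor <;> simp only [lo2, hi2] <;> linarith [h4.1, h4.2]
    · refine ⟨?_, (h1 u).2⟩
      simp only [lo2]
      split_ifs with e
      exacts [(h u e).1, (h1 u).1]
  · intro h v hv
    have h1 := h none
    have h2 := h (some none)
    have h3 := h (some (some none))
    simp only [lo2, hi2] at h1 h2 h3
    refine ⟨by simpa [lo2, hv] using (h (jS v)).1, fun u => ⟨le_trans ?_ (h (jS u)).1, (h (jS u)).2⟩,
      by constructor <;> linarith [h1.1, h1.2], by constructor <;> linarith [h2.1, h2.2],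
      by constructor <;> linarith [h3.1, h3.2]⟩
    simp only [lo2]
    split_ifs <;> norm_num

theorem zero_on (hS : S.Nonempty) (hL : S ∈ L) {x : Sp (KS V)}
    (hx : x ∈ box (fun j => (ctr S j : ℝ) - eta / 2) fun j => ctr S j + eta / 2) :
    hY (slice b (at0 L) N) x = 0 := by
  refine hY_eq_zero_iff.2 fun T hT => ?_
  have e : ∀ j, acell x T j = 2 * ctr S j := fun j => by
    obtain ⟨h1, h2⟩ := acell_pure hT (hx j).1 (hx j).2
    simp only [acell, if_neg h1, h2, add_zero]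
  rw [mem_top (e _) (e _) (e _)]
  obtain ⟨v, hv⟩ := hS
  refine ⟨fun u => ?_, ⟨v, by simp [e, ctr, hv]⟩, ?_⟩
  · by_cases h : u ∈ S <;> simp [e, ctr, h]
  · convert hL
    ext u
    simp [e, ctr]

theorem indep (hS : S.Nonempty) {x : Sp (KS V)}
    (hx : x ∈ box (fun j => (ctr S j : ℝ) - eta / 2) (hi1 S)) {v : V} (hv : v ∉ S)
    (h1 : 1 / 2 ≤ x (jS v)) (h2 : x (jS v) < 1) :
    fderiv ℝ (hY (slice b (at0 L) N)) x (EuclideanSpace.single (jS v) 1) = 0 := by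
  refine hY_partial_zero_of_indep _ fun T hT => ?_
  have hr : round (x (jS v)) = 1 := round_eq_of (by push_cast; linarith) (by push_cast; linarith)
  have hs : sg (x (jS v)) = -1 := sg_of_lt (by rw [hr]; push_cast; exact h2)
  have e1 : acell x (insert (jS v) T) (jS v) = 1 := by simp [acell, hr, hs]
  have e2 : acell x (T.erase (jS v)) (jS v) = 2 := by simp [acell, hr]
  have e3 : ∀ j, j ≠ jS v → acell x (insert (jS v) T) j = acell x (T.erase (jS v)) j :=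
    fun j hj => by simp [acell, hj]
  have e4 : ∀ j, hi1 S j = ctr S j + eta / 2 → acell x (T.erase (jS v)) j = 2 * ctr S j :=
    fun j hj => by
      obtain ⟨h3, h4⟩ := acell_pure hT (hx j).1 (hj ▸ (hx j).2)
      simp [acell, h3, h4]
  have a1 := e4 none (by simp [hi1, ctr])
  have a2 := e4 (some none) (by simp [hi1, ctr])
  have a3 := e4 (some (some none)) (by simp [hi1, ctr])
  obtain ⟨u, hu⟩ := hS
  have a4 : acell x (T.erase (jS v)) (jS u) = 2 := by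
    rw [e4 (jS u) (by simp [hi1, ctr, hu])]; simp [ctr, hu]
  have a5 : jS u ≠ jS v := fun e => hv (by simp only [Option.some.injEq] at e; exact e ▸ hu)
  rw [mem_top ((e3 _ (by simp)).trans a1) ((e3 _ (by simp)).trans a2) ((e3 _ (by simp)).trans a3),
    mem_top a1 a2 a3]
  refine and_congr (forall_congr' fun w => ?_) (and_congr
    (iff_of_true ⟨u, (e3 _ a5).trans a4⟩ ⟨u, a4⟩) (iff_of_eq (congrArg (· ∈ L) ?_)))
  · by_cases h : w = v
    · simp [h, e1, e2]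
    · simp only [e3 (jS w) (by simpa using h)]
  · refine Finset.filter_congr fun w _ => ?_
    by_cases h : w = v
    · simp [h, e1, e2]
    · simp only [e3 (jS w) (by simpa using h)]

theorem mem_of_lt (hL : IsLowerSet L) (hb : {b} ∈ L) (hN : IsLowerSet N) (hbN : {b} ∈ N)
    (hS : S.Nonempty) {x : Sp (KS V)} (hx : ∀ v ∈ S, x ∈ Comb.St v)
    (h : hY (slice b (at0 L) N) x < 1) : S ∈ L := by
  obtain ⟨v, hv⟩ := hS
  obtain ⟨-, -, h1, h2, -⟩ := hx v hv
  refine supp_mem hL hb ((hY_lt_one_iff (closed_slice (tower_at0 hL) hb hN hbN)).1 h)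
    (one_le_acell (active_mcell x) (by linarith [(abs_le.1 h1).1]))
    (one_le_acell (active_mcell x) (by linarith [(abs_le.1 h2).1])) fun u hu => ?_
  have := one_le_acell (active_mcell x) (hx u hu).1
  unfold mcell
  omega

theorem ctr_mem (hS : S.Nonempty) (hL : S ∈ L) : ∃ x, hY (slice b (at0 L) N) x = 0 ∧
    ∀ v ∈ S, x ∈ Comb.St v := by
  refine ⟨WithLp.toLp 2 fun j => (ctr S j : ℝ), zero_on hS hL fun j => ?_, fun v hv => ?_⟩
  · constructor <;> simp only <;> linarith [eta_pos]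
  · refine ⟨by norm_num [ctr, hv], fun u => ?_, by simp [ctr], by simp [ctr], by simp [ctr]⟩
    by_cases h : u ∈ S <;> norm_num [ctr, h]

end StarAAux
open StarAAux

theorem nerve_St {b : V} {L N : Set (Finset V)} (hL : IsLowerSet L) (hb : {b} ∈ L)
    (hN : IsLowerSet N) (hbN : {b} ∈ N) {ℓ : ℝ} (hℓ : ℓ ∈ Ioo (0 : ℝ) 1) :
    nerve (Comb.St (V := V)) {y | hY (slice b (at0 L) N) y ≤ ℓ} = L := by
  ext S
  rcases S.eq_empty_or_nonempty with rfl | hS
  · obtain ⟨x, h, -⟩ := ctr_mem (b := b) (N := N) (Finset.singleton_nonempty b) hb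
    exact iff_of_true ⟨x, h.trans_le hℓ.1.le, by simp⟩ (hL (Finset.empty_subset _) hb)
  · refine ⟨fun ⟨x, h, hx⟩ => mem_of_lt hL hb hN hbN hS hx (lt_of_le_of_lt h hℓ.2), fun h => ?_⟩
    obtain ⟨x, h1, h2⟩ := ctr_mem (b := b) (N := N) hS h
    exact ⟨x, h1.trans_le hℓ.1.le, h2⟩

theorem tor_St {b : V} {L N : Set (Finset V)} (hL : IsLowerSet L) (hb : {b} ∈ L)
    (hN : IsLowerSet N) (hbN : {b} ∈ N) {ℓ : ℝ} (hℓ : ℓ ∈ Ioo (0 : ℝ) 1) {S : Finset V}
    (hS : S.Nonempty) :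
    Tor (Lab.triv (Sp (KS V)))
      ((⋂ v ∈ S, Comb.St v) ∩ {y | hY (slice b (at0 L) N) y ≤ ℓ}) ∅ 1 := by
  by_cases hSL : S ∈ L
  swap
  · convert tor_refl _ ∅
    exact eq_empty_of_forall_notMem fun x hx => hSL (mem_of_lt hL hb hN hbN hS
      (mem_iInter₂.1 hx.1) (lt_of_le_of_lt hx.2 hℓ.2))
  have hc : Closed (slice b (at0 L) N) := closed_slice (tower_at0 hL) hb hN hbN
  have hp : ContDiff ℝ 2 (hY (slice b (at0 L) N)) := contDiff_infty.1 (hY_smooth _) 2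
  have he := eta_le
  have he' := eta_pos
  have b0 := tor_box_convex (fun j => (ctr S j : ℝ) - eta / 2) fun j => ctr S j + eta / 2
  rw [← inter_eq_left.2 (show _ ⊆ {y | hY (slice b (at0 L) N) y ≤ ℓ} from
    fun x hx => (zero_on hS hSL hx).trans_le hℓ.1.le)] at b0
  have c1 : ∀ j, (ctr S j : ℝ) + eta / 2 ≤ hi1 S j := by
    rintro (_ | _ | _ | u)
    iterate 3 simp [ctr, hi1]
    by_cases h : u ∈ S <;> simp [ctr, hi1, h]
    linarith
  have b1 := tor_box hp (fun _ => le_rfl) (fun j => by linarith) c1 (fun x _ => reg hc hℓ)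
    (fun x hx _ j h => dneg hc (ctr S j) (by linarith [(hx j).1]) (by linarith))
    (fun x hx _ j h => ?_) b0
  · rw [inter_eq hS]
    refine tor_box hp ?_ (fun j => by linarith [c1 j]) ?_ (fun x _ => reg hc hℓ)
      (fun x hx _ j h => dneg hc (ctr S j) (le_trans ?_ (hx j).1) (by linarith))
      (fun x hx _ j h => ?_) b1
    · rintro (_ | _ | _ | u)
      iterate 3 simp only [ctr, lo2]; push_cast; linarith
      by_cases h : u ∈ S <;> simp only [ctr, lo2, h, if_true, if_false] <;> push_cast <;> linarith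
    · rintro (_ | _ | _ | u)
      iterate 3 simp only [hi1, hi2]; linarith
      by_cases h : u ∈ S <;> simp only [hi1, hi2, h, if_true, if_false] <;> linarith
    · rcases j with _ | _ | _ | u
      iterate 3 norm_num [ctr, lo2]
      by_cases h : u ∈ S <;> norm_num [ctr, lo2, h]
    · have h1 := (hx j).2
      rcases j with _ | _ | _ | u <;> simp only [hi1, hi2] at h h1
      · exact dpos hc 1 (by push_cast; linarith) (by push_cast; linarith)
      · exact dpos hc 1 (by push_cast; linarith) (by push_cast; linarith)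
      · exact dpos hc 0 (by push_cast; linarith) (by push_cast; linarith)
      · refine dpos hc 1 ?_ (by push_cast; linarith)
        push_cast
        split_ifs at h <;> linarith
  · rcases lt_or_ge (x j) (ctr S j + 1 / 2) with h1 | h1
    · exact dpos hc (ctr S j) (by linarith) h1
    have h2 := (hx j).2
    rcases j with _ | _ | _ | u <;> simp only [hi1, ctr] at h1 h2 <;> push_cast at h1
    iterate 3 linarith
    split_ifs at h1 h2 with hu
    · linarith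
    rcases lt_or_ge (x (jS u)) 1 with h3 | h3
    · exact (indep hS hx hu (by linarith) h3).ge
    · exact dpos hc 1 (by push_cast; linarith) (by push_cast; linarith)

end SpunKnot
end
end

-- merged part: Pool.Agent.Work.MP_e1e788_gt.TorE
section
/-! Computing `Tor` from a big cover all of whose intersections are acyclic. -/

open Set Matrix Filter Topology Metric
open scoped Classical

noncomputable section
namespace SpunKnot

namespace TorEAux

theorem nerve_lower {Ω ι : Type*} (B : ι → Set Ω) (A : Set Ω) : IsLowerSet (nerve B A) := by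
  intro σ τ h hσ
  obtain ⟨x, hx, hB⟩ := hσ
  exact ⟨x, hx, fun i hi => hB i (h hi)⟩

theorem nerve_mono {Ω ι : Type*} (B : ι → Set Ω) {A A' : Set Ω} (h : A ⊆ A') :
    nerve B A ⊆ nerve B A' := by
  rintro σ ⟨x, hx, hB⟩
  exact ⟨x, h hx, hB⟩

/-- simplices avoiding the complement of the range of `g` -/
theorem image_nerve_diff {Ω κ τ : Type*} [LinearOrder κ] [LinearOrder τ] (g : κ ↪o τ)
    (C : τ → Set Ω) (A A' : Set Ω) :
    (fun σ : Finset κ => σ.map g.toEmbedding) ''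
        (nerve (fun k => C (g k)) A' \ nerve (fun k => C (g k)) A) =
      {σ | σ ∈ nerve C A' ∧ ∀ a ∈ σ, a ∈ range g} \ nerve C A := by
  ext σ
  constructor
  · rintro ⟨ρ, ⟨⟨x, hx, hB⟩, hn⟩, rfl⟩
    refine ⟨⟨⟨x, hx, ?_⟩, ?_⟩, ?_⟩
    · intro a ha
      obtain ⟨k, hk, rfl⟩ := Finset.mem_map.1 ha
      exact hB k hk
    · intro a ha
      obtain ⟨k, -, rfl⟩ := Finset.mem_map.1 ha
      exact ⟨k, rfl⟩
    · rintro ⟨y, hy, hC⟩
      exact hn ⟨y, hy, fun k hk => hC _ (Finset.mem_map_of_mem _ hk)⟩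
  · rintro ⟨⟨⟨x, hx, hC⟩, hr⟩, hn⟩
    refine ⟨σ.preimage g g.injective.injOn, ⟨⟨x, hx, fun k hk => hC _ (Finset.mem_preimage.1 hk)⟩,
      ?_⟩, ?_⟩
    · rintro ⟨y, hy, hB⟩
      refine hn ⟨y, hy, fun a ha => ?_⟩
      obtain ⟨k, rfl⟩ := hr a ha
      exact hB k (Finset.mem_preimage.2 ha)
    · ext a
      simp only [Finset.mem_map, Finset.mem_preimage]
      constructor
      · rintro ⟨k, hk, rfl⟩
        exact hk
      · intro ha
        obtain ⟨k, rfl⟩ := hr a ha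
        exact ⟨k, ha, rfl⟩

/-- the simplices of the nerve on `X` that use only the vertices `f j`, `j ∈ I`, among the
vertices in the range of `f` -/
def part {Ω ι τ : Type*} (f : ι → τ) (C : τ → Set Ω) (I : Finset ι) (X : Set Ω) :
    Set (Finset τ) :=
  {σ | (∀ j, f j ∈ σ → j ∈ I) ∧ σ ∈ nerve C X}

theorem part_lower {Ω ι τ : Type*} (f : ι → τ) (C : τ → Set Ω) (I : Finset ι) (X : Set Ω) :
    IsLowerSet (part f C I X) := by
  intro σ ρ h hσ
  exact ⟨fun j hj => hσ.1 j (h hj), nerve_lower C X h hσ.2⟩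

theorem part_mono {Ω ι τ : Type*} (f : ι → τ) (C : τ → Set Ω) (I : Finset ι) {X X' : Set Ω}
    (h : X ⊆ X') : part f C I X ⊆ part f C I X' :=
  fun _ hσ => ⟨hσ.1, nerve_mono C h hσ.2⟩

theorem link_part {Ω ι τ : Type*} [DecidableEq ι] [DecidableEq τ] {f : ι → τ}
    (hf : Function.Injective f) (C : τ → Set Ω) {I : Finset ι} {i : ι} (hi : i ∉ I)
    (X : Set Ω) :
    {σ | f i ∉ σ ∧ insert (f i) σ ∈ part f C (insert i I) X} = part f C I (C (f i) ∩ X) := by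
  ext σ
  constructor
  · rintro ⟨hv, hI, x, hx, hC⟩
    refine ⟨fun j hj => ?_, x, ⟨hC _ (Finset.mem_insert_self _ _), hx⟩,
      fun a ha => hC a (Finset.mem_insert_of_mem ha)⟩
    rcases Finset.mem_insert.1 (hI j (Finset.mem_insert_of_mem hj)) with h | h
    · exact absurd (h ▸ hj) hv
    · exact h
  · rintro ⟨hI, x, hx, hC⟩
    refine ⟨fun h => hi (hI i h), fun j hj => ?_, x, hx.2, fun a ha => ?_⟩
    · rcases Finset.mem_insert.1 hj with h | h
      · rw [hf h]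
        exact Finset.mem_insert_self _ _
      · exact Finset.mem_insert_of_mem (hI j h)
    · rcases Finset.mem_insert.1 ha with h | h
      · rw [h]
        exact hx.1
      · exact hC a h

theorem del_part {Ω ι τ : Type*} [DecidableEq ι] (f : ι → τ) (C : τ → Set Ω) {I : Finset ι}
    {i : ι} (hi : i ∉ I) (X X' : Set Ω) :
    {σ | σ ∈ part f C (insert i I) X' ∧ f i ∉ σ} \ part f C (insert i I) X =
      part f C I X' \ part f C I X := by
  ext σ
  constructor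
  · rintro ⟨⟨⟨hI, hN⟩, hv⟩, hn⟩
    refine ⟨⟨fun j hj => ?_, hN⟩, fun h => hn ⟨hI, h.2⟩⟩
    rcases Finset.mem_insert.1 (hI j hj) with h | h
    · exact absurd (h ▸ hj) hv
    · exact h
  · rintro ⟨⟨hI, hN⟩, hn⟩
    exact ⟨⟨⟨fun j hj => Finset.mem_insert_of_mem (hI j hj), hN⟩, fun h => hi (hI i h)⟩,
      fun h => hn ⟨hI, h.2⟩⟩

/-- induction on the set of allowed big members -/
theorem acyc_part {Ω ι κ τ : Type*} [Fintype κ] [LinearOrder κ] [Fintype τ] [LinearOrder τ]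
    {f : ι → τ} (hf : Function.Injective f) (g : κ ↪o τ) (hfg : ∀ a, a ∈ range g ↔ a ∉ range f)
    (C : τ → Set Ω) {A A' : Set Ω} (hsub : A ⊆ A')
    (hbase : ∀ S : Finset ι, S.Nonempty → Acyc (bdZ κ)
      (nerve (fun k => C (g k)) ((⋂ i ∈ S, C (f i)) ∩ A') \
        nerve (fun k => C (g k)) ((⋂ i ∈ S, C (f i)) ∩ A)))
    (I : Finset ι) : ∀ S : Finset ι, S.Nonempty → Acyc (bdZ τ)
      (part f C I ((⋂ i ∈ S, C (f i)) ∩ A') \ part f C I ((⋂ i ∈ S, C (f i)) ∩ A)) := by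
  induction I using Finset.induction_on with
  | empty =>
    intro S hS
    have h := (acyc_reindex g _).1 (hbase S hS)
    rw [image_nerve_diff] at h
    convert h using 1
    ext σ
    constructor
    · rintro ⟨⟨hI, hN⟩, hn⟩
      refine ⟨⟨hN, fun a ha => (hfg a).2 ?_⟩, fun h => hn ⟨hI, h⟩⟩
      rintro ⟨j, rfl⟩
      exact absurd (hI j ha) (Finset.notMem_empty _)
    · rintro ⟨⟨hN, hr⟩, hn⟩
      exact ⟨⟨fun j hj => absurd ⟨j, rfl⟩ ((hfg _).1 (hr _ hj)), hN⟩, fun h => hn h.2⟩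
  | insert i I hi ih =>
    intro S hS
    have key : ∀ X : Set Ω, C (f i) ∩ ((⋂ j ∈ S, C (f j)) ∩ X) =
        (⋂ j ∈ insert i S, C (f j)) ∩ X := by
      intro X
      rw [Finset.set_biInter_insert, inter_assoc]
    refine (acyc_add (part_lower _ _ _ _) (part_lower _ _ _ _)
      (part_mono _ _ _ (inter_subset_inter_right _ hsub)) (f i) ?_).2 ?_
    · rw [link_part hf C hi, link_part hf C hi, key, key]
      exact ih _ (Finset.insert_nonempty _ _)
    · rw [del_part f C hi]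
      exact ih S hS

/-- two subfamilies of one family give the same torsion norm -/
theorem hasNu_two {Ω ι κ τ R : Type*} [CommRing R] [StarRing R] [Fintype ι] [LinearOrder ι]
    [Fintype κ] [LinearOrder κ] [Fintype τ] [LinearOrder τ]
    (f : ι ↪o τ) (g : κ ↪o τ) (hfg : ∀ a, a ∈ range g ↔ a ∉ range f)
    (C : τ → Set Ω) {A A' : Set Ω} (hsub : A ⊆ A') {G : τ → τ → R}
    (hG : ∀ a b, G a b * star (G a b) = 1) (hc : Coc G (nerve C A' \ nerve C A))
    (h0 : A.Nonempty ∨ ∀ a b, G a b = 1)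
    (hbase : ∀ S : Finset ι, S.Nonempty → Acyc (bdZ κ)
      (nerve (fun k => C (g k)) ((⋂ i ∈ S, C (f i)) ∩ A') \
        nerve (fun k => C (g k)) ((⋂ i ∈ S, C (f i)) ∩ A)))
    (hsmall : ∀ k, (C (g k) ∩ (A' \ A)).Nonempty → ∃ i, C (g k) ⊆ C (f i)) {W : R}
    (hW : HasNu (bd fun i j => G (f i) (f j)) Finset.card
      (nerve (fun i => C (f i)) A' \ nerve (fun i => C (f i)) A) W) :
    HasNu (bd fun i j => G (g i) (g j)) Finset.card
      (nerve (fun k => C (g k)) A' \ nerve (fun k => C (g k)) A) W := by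
  have h0' : ∅ ∈ nerve C A ∨ ∀ a b, G a b = 1 := by
    rcases h0 with ⟨x, hx⟩ | h
    · exact Or.inl ⟨x, hx, fun i hi => absurd hi (Finset.notMem_empty _)⟩
    · exact Or.inr h
  have hf' : ∀ j, f j ∉ range g := fun j h => (hfg _).1 h ⟨j, rfl⟩
  -- remove the small members
  have h1 : HasNu (bd G) Finset.card (nerve C A' \ nerve C A) W := by
    refine (hasNu_add_many hG (nerve_lower _ _) (nerve_lower _ _) (nerve_mono _ hsub) hc h0'
      (Finset.univ.map g.toEmbedding) ?_ W).2 ?_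
    · intro v hv J hJ hvJ
      obtain ⟨k, -, rfl⟩ := Finset.mem_map.1 hv
      have low : ∀ X : Set Ω, IsLowerSet
          {σ : Finset τ | g.toEmbedding k ∉ σ ∧ Disjoint σ J ∧
            insert (g.toEmbedding k) σ ∈ nerve C X} := by
        intro X σ ρ h hσ
        exact ⟨fun h' => hσ.1 (h h'), hσ.2.1.mono_left h,
          nerve_lower C X (Finset.insert_subset_insert _ h) hσ.2.2⟩
      by_cases hk : (C (g k) ∩ (A' \ A)).Nonempty
      · obtain ⟨i, hi⟩ := hsmall k hk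
        have cone : ∀ X : Set Ω, Acyc (bdZ τ)
            {σ : Finset τ | g.toEmbedding k ∉ σ ∧ Disjoint σ J ∧
              insert (g.toEmbedding k) σ ∈ nerve C X} := by
          intro X
          refine acyc_cone (low X) (f i) ?_
          rintro σ ⟨h₁, h₂, x, hx, hC⟩
          refine ⟨?_, ?_, x, hx, ?_⟩
          · intro h
            rcases Finset.mem_insert.1 h with h | h
            · exact hf' i ⟨k, h⟩
            · exact h₁ h
          · refine Finset.disjoint_insert_left.2 ⟨fun h => ?_, h₂⟩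
            obtain ⟨k', -, hk'⟩ := Finset.mem_map.1 (hJ h)
            exact hf' i ⟨k', hk'⟩
          · intro a ha
            rcases Finset.mem_insert.1 ha with h | h
            · exact hC a (h ▸ Finset.mem_insert_self _ _)
            · rcases Finset.mem_insert.1 h with h | h
              · rw [h]
                exact hi (hC _ (Finset.mem_insert_self _ _))
              · exact hC a (Finset.mem_insert_of_mem h)
        refine acyc_rel (low A) (low A') ?_ (cone A) (cone A')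
        intro σ hσ
        exact ⟨hσ.1, hσ.2.1, nerve_mono C hsub hσ.2.2⟩
      · convert acyc_empty (bdZ τ) using 1
        refine sdiff_eq_empty.2 ?_
        rintro σ ⟨h₁, h₂, x, hx, hC⟩
        refine ⟨h₁, h₂, x, ?_, hC⟩
        by_contra hxA
        exact hk ⟨x, hC _ (Finset.mem_insert_self _ _), hx, hxA⟩
    · have h := (hasNu_reindex f G _ W).1 hW
      rw [image_nerve_diff] at h
      convert h using 2
      ext σ
      refine and_congr_right fun _ => ?_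
      rw [Finset.disjoint_left]
      refine forall₂_congr fun a _ => ?_
      constructor
      · intro ha
        by_contra hr
        obtain ⟨k, rfl⟩ := (hfg a).2 hr
        exact ha (Finset.mem_map_of_mem _ (Finset.mem_univ k))
      · intro ha hr
        obtain ⟨k, -, rfl⟩ := Finset.mem_map.1 hr
        exact (hfg _).1 ⟨k, rfl⟩ ha
  -- remove the big members
  have h2 := (hasNu_add_many hG (nerve_lower _ _) (nerve_lower _ _) (nerve_mono _ hsub) hc h0'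
      (Finset.univ.map f.toEmbedding) ?_ W).1 h1
  · refine (hasNu_reindex g G _ W).2 ?_
    rw [image_nerve_diff]
    convert h2 using 2
    ext σ
    refine and_congr_right fun _ => ?_
    rw [Finset.disjoint_left]
    refine forall₂_congr fun a _ => ?_
    rw [hfg]
    constructor
    · intro ha hr
      obtain ⟨k, -, rfl⟩ := Finset.mem_map.1 hr
      exact ha ⟨k, rfl⟩
    · rintro ha ⟨k, rfl⟩
      exact ha (Finset.mem_map_of_mem _ (Finset.mem_univ k))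
  · intro v hv J hJ hvJ
    obtain ⟨i, -, rfl⟩ := Finset.mem_map.1 hv
    have e : ∀ X : Set Ω, {σ : Finset τ | f.toEmbedding i ∉ σ ∧ Disjoint σ J ∧
        insert (f.toEmbedding i) σ ∈ nerve C X} =
        part f C (Finset.univ.filter fun j => f j ∉ J ∧ j ≠ i)
          ((⋂ j ∈ ({i} : Finset ι), C (f j)) ∩ X) := by
      intro X
      rw [Finset.set_biInter_singleton]
      ext σ
      constructor
      · rintro ⟨h₁, h₂, x, hx, hC⟩
        refine ⟨fun j hj => Finset.mem_filter.2 ⟨Finset.mem_univ _,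
          Finset.disjoint_left.1 h₂ hj, ?_⟩, x, ⟨hC _ (Finset.mem_insert_self _ _), hx⟩,
          fun a ha => hC a (Finset.mem_insert_of_mem ha)⟩
        rintro rfl
        exact h₁ hj
      · rintro ⟨hI, x, hx, hC⟩
        refine ⟨fun h => (Finset.mem_filter.1 (hI i h)).2.2 rfl, ?_, x, hx.2, fun a ha => ?_⟩
        · refine Finset.disjoint_left.2 fun a ha haJ => ?_
          obtain ⟨j, -, rfl⟩ := Finset.mem_map.1 (hJ haJ)
          exact (Finset.mem_filter.1 (hI j ha)).2.1 haJ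
        · rcases Finset.mem_insert.1 ha with h | h
          · rw [h]
            exact hx.1
          · exact hC a h
    rw [e, e]
    exact acyc_part f.injective g hfg C hsub hbase _ _ (Finset.singleton_nonempty _)

end TorEAux

variable {Ω : Type*} [MetricSpace Ω] [ProperSpace Ω] {R : Type*} [CommRing R] [StarRing R]

theorem tor_of_cover {L : Lab Ω R} (hL : L.Good) {A' A : Set Ω} (hp : Pair L A' A)
    {ι : Type} [Fintype ι] [LinearOrder ι] (St : ι → Set Ω) (l : ι → L.Λ)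
    (hlab : ∀ i, St i ∩ L.Y ⊆ L.O (l i))
    (hcov : ∀ x ∈ closure (A' \ A), ∃ i, St i ∈ 𝓝 x)
    (hcpt : ∀ i, IsClosed (St i) ∧ IsCompact (St i ∩ A'))
    (hac : ∀ S : Finset ι, S.Nonempty →
      (∃ W, Tor (Lab.triv Ω) ((⋂ i ∈ S, St i) ∩ A) ∅ W) ∧
      (∃ W, Tor (Lab.triv Ω) ((⋂ i ∈ S, St i) ∩ A') ∅ W)) {W : R}
    (hW : HasNu (bd fun i j => L.G (l i) (l j)) Finset.card (nerve St A' \ nerve St A) W) :
    Tor L A' A W := by
  have hcl : ∀ S : Finset ι, IsClosed (⋂ i ∈ S, St i) := fun S =>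
    isClosed_biInter fun i _ => (hcpt i).1
  -- a radius that works for every intersection
  have hr : ∀ S : Finset ι, ∃ r > 0, S.Nonempty → ∀ r' ≤ r,
      LA (balls Ω r') ((⋂ i ∈ S, St i) ∩ A) univ ∧
        LA (balls Ω r') ((⋂ i ∈ S, St i) ∩ A') univ := by
    intro S
    by_cases hS : S.Nonempty
    · obtain ⟨⟨W₁, h₁⟩, ⟨W₂, h₂⟩⟩ := hac S hS
      obtain ⟨r₁, hr₁, a₁⟩ := Tor.la ((hcl S).inter hp.cl) h₁
      obtain ⟨r₂, hr₂, a₂⟩ := Tor.la ((hcl S).inter hp.cl') h₂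
      exact ⟨min r₁ r₂, lt_min hr₁ hr₂, fun _ r' h =>
        ⟨a₁ r' (h.trans (min_le_left _ _)), a₂ r' (h.trans (min_le_right _ _))⟩⟩
    · exact ⟨1, one_pos, fun h => absurd h hS⟩
  choose ρ hρ hla using hr
  obtain ⟨S₀, hS₀⟩ := Finite.exists_min ρ
  -- a Lebesgue number
  obtain ⟨δ, hδ, hleb⟩ := lebesgue_number_lemma_of_metric (c := fun i => interior (St i)) hp.cpt
    (fun _ => isOpen_interior) (by
      intro x hx
      obtain ⟨i, hi⟩ := hcov x hx
      exact mem_iUnion.2 ⟨i, mem_interior_iff_mem_nhds.2 hi⟩)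
  refine ⟨min (ρ S₀) (δ / 3), lt_min (hρ S₀) (by positivity), ?_⟩
  intro κ _ _ B m hB
  let C : ι ⊕ₗ κ → Set Ω := fun a => Sum.elim St B (ofLex a)
  let lab : ι ⊕ₗ κ → L.Λ := fun a => Sum.elim l m (ofLex a)
  have hlab' : ∀ a, C a ∩ L.Y ⊆ L.O (lab a) := by
    intro a
    rcases a with i | k
    · exact hlab i
    · exact hB.lab k
  let f : ι ↪o ι ⊕ₗ κ := OrderEmbedding.ofStrictMono (fun i => toLex (Sum.inl i))
    Sum.Lex.inl_strictMono
  let g : κ ↪o ι ⊕ₗ κ := OrderEmbedding.ofStrictMono (fun i => toLex (Sum.inr i))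
    Sum.Lex.inr_strictMono
  have hfg : ∀ a, a ∈ range g ↔ a ∉ range f := by
    intro a
    rcases a with i | k
    · refine ⟨?_, fun h => absurd ⟨i, rfl⟩ h⟩
      rintro ⟨k, hk⟩
      exact absurd (toLex.injective hk) Sum.inr_ne_inl
    · refine ⟨?_, fun _ => ⟨k, rfl⟩⟩
      rintro - ⟨i, hi⟩
      exact absurd (toLex.injective hi) Sum.inl_ne_inr
  refine TorEAux.hasNu_two f g hfg C hp.sub (G := fun a b => L.G (lab a) (lab b))
    (fun a b => hL.unit _ _) ?_ ?_ ?_ ?_ hW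
  · rintro σ ⟨⟨x, hx, hC⟩, hn⟩ a ha b hb c hc
    have hxY : x ∈ L.Y := hp.inY (subset_closure ⟨hx, fun h => hn ⟨x, h, hC⟩⟩)
    exact hL.coc _ _ _ x hxY (hlab' a ⟨hC a ha, hxY⟩) (hlab' b ⟨hC b hb, hxY⟩)
      (hlab' c ⟨hC c hc, hxY⟩)
  · exact hp.ne.imp id fun h a b => h _ _
  · intro S hS
    obtain ⟨i, hi⟩ := id hS
    have hc' : IsCompact ((⋂ j ∈ S, St j) ∩ A') :=
      (hcpt i).2.of_isClosed_subset ((hcl S).inter hp.cl')
        (inter_subset_inter_left _ (biInter_subset_of_mem hi))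
    have hsub : (⋂ j ∈ S, St j) ∩ A ⊆ (⋂ j ∈ S, St j) ∩ A' := inter_subset_inter_right _ hp.sub
    have hc : IsCompact ((⋂ j ∈ S, St j) ∩ A) :=
      hc'.of_isClosed_subset ((hcl S).inter hp.cl) hsub
    obtain ⟨a, a'⟩ := hla S hS (min (ρ S₀) (δ / 3)) ((min_le_left _ _).trans (hS₀ S))
    refine acyc_rel_of_abs hc hc' hsub ?_ a a' B hB.mem ?_
    · intro x _ U hU
      obtain ⟨ε, hε, hεU⟩ := nhds_basis_closedBall.mem_iff.1 hU
      have hpos : 0 < min ε (min (ρ S₀) (δ / 3)) :=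
        lt_min hε (lt_min (hρ S₀) (by positivity))
      exact ⟨closedBall x (min ε (min (ρ S₀) (δ / 3))), ⟨x, _, hpos, min_le_right _ _, rfl⟩,
        closedBall_mem_nhds x hpos,
        (closedBall_subset_closedBall (min_le_left _ _)).trans hεU⟩
    · intro x hx
      refine hB.cov x (closure_mono ?_ hx)
      rintro y ⟨hy, hn⟩
      exact ⟨hy.2, fun h => hn ⟨hy.1, h⟩⟩
  · rintro k ⟨x, hxB, hx⟩
    obtain ⟨i, hi⟩ := hleb x (subset_closure hx)
    refine ⟨i, ?_⟩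
    change B k ⊆ St i
    change x ∈ B k at hxB
    obtain ⟨c, s, -, hs, hBk⟩ := hB.mem k
    rw [hBk] at hxB ⊢
    intro y hy
    refine interior_subset (hi ?_)
    have h₁ : s ≤ δ / 3 := hs.trans (min_le_right _ _)
    have h₂ := dist_triangle_right y x c
    rw [mem_closedBall] at hxB hy
    rw [mem_ball]
    linarith

end SpunKnot
end
end

-- merged part: Pool.Agent.Work.MP_e1e788_gt.TorD
section
/-! Transport of `Tor` along a map that is a local `C²` embedding near the difference set. -/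

open Set Matrix Filter Topology Metric
open scoped Classical

noncomputable section
namespace SpunKnot

namespace TorDAux
variable {F₁ F₂ : Type*} [NormedAddCommGroup F₁] [InnerProductSpace ℝ F₁]
  [FiniteDimensional ℝ F₁] [NormedAddCommGroup F₂] [InnerProductSpace ℝ F₂]
  [FiniteDimensional ℝ F₂]

/-- small balls and pulled back small balls -/
def mixed (K : Set F₁) (e : F₁ → F₂) (r : ℝ) : Set (Set F₁) :=
  balls F₁ r ∪ {S | ∃ B ∈ balls F₂ r, S = K ∩ e ⁻¹' B}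

theorem balls_mono {Ω : Type*} [MetricSpace Ω] {r r' : ℝ} (h : r ≤ r') :
    balls Ω r ⊆ balls Ω r' := by
  rintro B ⟨x, ρ, h0, h1, rfl⟩
  exact ⟨x, ρ, h0, h1.trans h, rfl⟩

omit [InnerProductSpace ℝ F₂] [FiniteDimensional ℝ F₂] in
theorem mixed_compact {K : Set F₁} (hK : IsCompact K) {e : F₁ → F₂} (he : Continuous e) {r : ℝ} :
    ∀ B ∈ mixed K e r, IsCompact B := by
  rintro B (⟨x, ρ, -, -, rfl⟩ | ⟨B, ⟨x, ρ, -, -, rfl⟩, rfl⟩)
  · exact isCompact_closedBall x ρ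
  · exact hK.inter_right (isClosed_closedBall.preimage he)

theorem local_la (E : Type*) [NormedAddCommGroup E] [NormedSpace ℝ E] [FiniteDimensional ℝ E]
    {K M X : Set F₁} (hK : IsCompact K) {e : F₁ → F₂} (he : Continuous e) (hX : IsClosed X)
    (hXM : X ⊆ M) {p : F₁} (hp : K ∈ 𝓝 p) (h : MFCQAt E M (fun _ => X) e p 0) :
    ∃ δ > 0, ∃ r > 0, ∀ r' ≤ r, ∀ B₀ ∈ mixed K e r', B₀ ∩ X ⊆ ball p δ →
      LA (mixed K e r') X B₀ := by
  obtain ⟨ψ, ρ, r, hρ, hr, hψ, h0, hmap, hb₁, hb₂, hA⟩ := h.chart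
  have hA' : Convex ℝ (closedBall (0 : E) ρ ∩ ψ ⁻¹' X) := hA.self_of_nhds
  have hc0 : ContinuousAt ψ 0 := hψ.continuousAt (closedBall_mem_nhds 0 hρ)
  have hKp : ψ ⁻¹' K ∈ 𝓝 (0 : E) := hc0.preimage_mem_nhds (by rw [h0]; exact hp)
  obtain ⟨ρ₁, hρ₁, hsub⟩ := nhds_basis_closedBall.mem_iff.mp hKp
  set ρ' := min ρ ρ₁ with hρ'
  have hρ'0 : 0 < ρ' := lt_min hρ hρ₁
  have s1 : closedBall (0 : E) ρ' ⊆ closedBall 0 ρ := closedBall_subset_closedBall (min_le_left _ _)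
  have s2 : closedBall (0 : E) ρ' ⊆ ψ ⁻¹' K :=
    (closedBall_subset_closedBall (min_le_right _ _)).trans hsub
  have him : ψ '' closedBall 0 ρ' ∈ 𝓝[M] p := by
    rw [← hmap]; exact image_mem_map (closedBall_mem_nhds 0 hρ'0)
  obtain ⟨δ, hδ, hδs⟩ := Metric.mem_nhdsWithin_iff.mp him
  refine ⟨δ, hδ, r, hr, fun r' hr' B₀ hB₀ hin => ?_⟩
  have shrink : ∀ S : Set E, Convex ℝ (closedBall (0 : E) ρ ∩ S) →
      Convex ℝ (closedBall (0 : E) ρ' ∩ S) := by
    intro S hS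
    have : closedBall (0 : E) ρ' ∩ S = closedBall (0 : E) ρ' ∩ (closedBall (0 : E) ρ ∩ S) := by
      ext u; exact ⟨fun hu => ⟨hu.1, s1 hu.1, hu.2⟩, fun hu => ⟨hu.1, hu.2.2⟩⟩
    rw [this]; exact (convex_closedBall _ _).inter hS
  have cvx : ∀ B ∈ mixed K e r', Convex ℝ (closedBall (0 : E) ρ' ∩ ψ ⁻¹' B) := by
    rintro B (hB | ⟨B, hB, rfl⟩)
    · exact shrink _ (hb₁ B (balls_mono hr' hB))
    · have : closedBall (0 : E) ρ' ∩ ψ ⁻¹' (K ∩ e ⁻¹' B)
          = closedBall (0 : E) ρ' ∩ (e ∘ ψ) ⁻¹' B := by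
        ext u; exact ⟨fun hu => ⟨hu.1, hu.2.2⟩, fun hu => ⟨hu.1, s2 hu.1, hu.2⟩⟩
      rw [this]; exact shrink _ (hb₂ B (balls_mono hr' hB))
  intro ι _ _ B hB hcov
  set V := closedBall (0 : E) ρ' ∩ ψ ⁻¹' (B₀ ∩ X) with hV
  have hψ' : ContinuousOn ψ (closedBall 0 ρ') := hψ.mono s1
  have hVc : IsCompact V := by
    refine (isCompact_closedBall (0 : E) ρ').of_isClosed_subset ?_ inter_subset_left
    exact hψ'.preimage_isClosed_of_isClosed isClosed_closedBall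
      ((mixed_compact hK he B₀ hB₀).isClosed.inter hX)
  have hVx : Convex ℝ V := by
    have : V = (closedBall (0 : E) ρ' ∩ ψ ⁻¹' B₀) ∩ (closedBall (0 : E) ρ' ∩ ψ ⁻¹' X) := by
      ext u; exact ⟨fun hu => ⟨⟨hu.1, hu.2.1⟩, hu.1, hu.2.2⟩, fun hu => ⟨hu.1.1, hu.1.2, hu.2.2⟩⟩
    rw [this]; exact (cvx B₀ hB₀).inter (shrink _ hA')
  have key := acyc_nerve_convex hVc hVx (fun i => ψ ⁻¹' B i)
    (fun i => by
      have : V ∩ ψ ⁻¹' B i = V ∩ (closedBall (0 : E) ρ' ∩ ψ ⁻¹' B i) := by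
        ext u; exact ⟨fun hu => ⟨hu.1, hu.1.1, hu.2⟩, fun hu => ⟨hu.1, hu.2.2⟩⟩
      rw [this]; exact hVx.inter (cvx _ (hB i)))
    (fun x hx => by
      obtain ⟨i, hi⟩ := hcov (ψ x) hx.2
      exact ⟨i, ((hψ' x hx.1).mono inter_subset_left).preimage_mem_nhdsWithin hi⟩)
  have eq : nerve B (B₀ ∩ X) = nerve (fun i => ψ ⁻¹' B i) V := by
    ext σ
    constructor
    · rintro ⟨x, hx, hσ⟩
      obtain ⟨u, hu, rfl⟩ := hδs ⟨hin hx, hXM hx.2⟩
      exact ⟨u, ⟨hu, hx⟩, hσ⟩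
    · rintro ⟨u, hu, hσ⟩
      exact ⟨ψ u, hu.2, hσ⟩
  rw [eq]; exact key

omit [InnerProductSpace ℝ F₁] [FiniteDimensional ℝ F₁] [InnerProductSpace ℝ F₂]
  [FiniteDimensional ℝ F₂] in
theorem inv_unif {C : Set F₁} (hC : IsCompact C) {e : F₁ → F₂} (he : Continuous e)
    (hi : InjOn e C) {δ : ℝ} (hδ : 0 < δ) :
    ∃ r > 0, ∀ x ∈ C, ∀ y ∈ C, dist (e x) (e y) < r → dist x y < δ := by
  have hS : IsCompact ((C ×ˢ C) ∩ {q : F₁ × F₁ | δ ≤ dist q.1 q.2}) :=
    (hC.prod hC).inter_right (isClosed_le continuous_const (continuous_fst.dist continuous_snd))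
  have hcont : Continuous fun q : F₁ × F₁ => dist (e q.1) (e q.2) :=
    (he.comp continuous_fst).dist (he.comp continuous_snd)
  obtain ⟨r, hr, hle⟩ := hS.exists_forall_le' hcont.continuousOn (a := 0) (by
    rintro ⟨x, y⟩ ⟨⟨hx, hy⟩, hd⟩
    refine dist_pos.mpr fun h => ?_
    have : x = y := hi hx hy h
    subst this
    simp only [mem_ofPred_eq, dist_self] at hd
    linarith)
  refine ⟨r, hr, fun x hx y hy hd => ?_⟩
  by_contra hn
  have := hle (x, y) ⟨⟨hx, hy⟩, not_lt.mp hn⟩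
  exact absurd hd (not_lt.mpr this)

theorem uniform_la (E : Type*) [NormedAddCommGroup E] [NormedSpace ℝ E] [FiniteDimensional ℝ E]
    {K M X C Z : Set F₁} (hK : IsCompact K) {e : F₁ → F₂} (he : Continuous e) (hX : IsClosed X)
    (hXM : X ⊆ M) (hZ : IsCompact Z) (hC : IsClosed C) (hXC : X ⊆ C) (hZC : Z ⊆ C)
    (hi : InjOn e (K ∩ C)) (hp : ∀ p ∈ Z, K ∈ 𝓝 p)
    (h : ∀ p ∈ Z, MFCQAt E M (fun _ => X) e p 0) :
    ∃ r > 0, ∀ r' ≤ r, ∀ B₀ ∈ mixed K e r', (B₀ ∩ Z).Nonempty → LA (mixed K e r') X B₀ := by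
  have h1 := fun p (hpZ : p ∈ Z) => local_la E hK he hX hXM (hp p hpZ) (h p hpZ)
  choose! δ hδ r hr hla using h1
  obtain ⟨t, htZ, hcov⟩ := hZ.elim_nhds_subcover (fun p => ball p (δ p / 2))
    (fun p hpZ => ball_mem_nhds p (by linarith [hδ p hpZ]))
  have hm : ∃ m > 0, ∀ p ∈ t, m ≤ δ p / 2 ∧ m ≤ r p := by
    have : ∀ᶠ m in 𝓝[>] (0 : ℝ), ∀ p ∈ t, m ≤ δ p / 2 ∧ m ≤ r p := by
      rw [eventually_all_finset]
      intro p hpt
      have a1 : ∀ᶠ m in 𝓝 (0 : ℝ), m ≤ δ p / 2 :=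
        eventually_le_nhds (by linarith [hδ p (htZ p hpt)])
      have a2 : ∀ᶠ m in 𝓝 (0 : ℝ), m ≤ r p := eventually_le_nhds (hr p (htZ p hpt))
      exact (a1.and a2).filter_mono nhdsWithin_le_nhds
    obtain ⟨m, hm, hm0⟩ := (this.and self_mem_nhdsWithin).exists
    exact ⟨m, hm0, hm⟩
  obtain ⟨m, hm0, hm⟩ := hm
  obtain ⟨r₁, hr₁, hinv⟩ := inv_unif (hK.inter_right hC) he hi hm0
  refine ⟨min (m / 3) (r₁ / 3), lt_min (by linarith) (by linarith), fun r' hr' B₀ hB₀ hne => ?_⟩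
  have r1 : r' ≤ m / 3 := hr'.trans (min_le_left _ _)
  have r2 : r' ≤ r₁ / 3 := hr'.trans (min_le_right _ _)
  obtain ⟨z, hzB, hzZ⟩ := hne
  obtain ⟨p, hpt, hzp⟩ := mem_iUnion₂.mp (hcov hzZ)
  refine hla p (htZ p hpt) r' (by linarith [(hm p hpt).2]) B₀ hB₀ fun x hx => ?_
  have hd : dist x z < m := by
    rcases hB₀ with ⟨c, ρ, -, hρ, rfl⟩ | ⟨B, ⟨c, ρ, -, hρ, rfl⟩, rfl⟩
    · have a1 : dist x c ≤ ρ := hx.1
      have a2 : dist z c ≤ ρ := hzB
      linarith [dist_triangle_right x z c]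
    · refine hinv x ⟨hx.1.1, hXC hx.2⟩ z ⟨hzB.1, hZC hzZ⟩ ?_
      have a1 : dist (e x) c ≤ ρ := hx.1.2
      have a2 : dist (e z) c ≤ ρ := hzB.2
      linarith [dist_triangle_right (e x) (e z) c]
  have a3 : dist z p < δ p / 2 := hzp
  rw [mem_ball]
  linarith [dist_triangle x z p, (hm p hpt).1]

end TorDAux

variable (E : Type*) [NormedAddCommGroup E] [NormedSpace ℝ E] [FiniteDimensional ℝ E]
variable {F₁ F₂ : Type*} [NormedAddCommGroup F₁] [InnerProductSpace ℝ F₁]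
  [FiniteDimensional ℝ F₁] [NormedAddCommGroup F₂] [InnerProductSpace ℝ F₂]
  [FiniteDimensional ℝ F₂]
variable {R : Type*} [CommRing R] [StarRing R]

theorem tor_transport {L₁ : Lab F₁ R} {L₂ : Lab F₂ R} (h₁ : L₁.Good) (h₂ : L₂.Good)
    (tl : L₂.Λ → L₁.Λ) (hG : ∀ l l', L₁.G (tl l) (tl l') = L₂.G l l')
    {M U₁ A' A : Set F₁} {U₂ D' D : Set F₂} {e : F₁ → F₂} (he : Continuous e)
    (hU₁ : IsOpen U₁) (hU₂ : IsOpen U₂)
    (hbij : BijOn e (U₁ ∩ M) U₂)
    (hopen : ∀ p ∈ U₁ ∩ M, map e (𝓝[M] p) = 𝓝 (e p))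
    (p₁ : Pair L₁ A' A) (p₂ : Pair L₂ D' D) (n₁ : A.Nonempty) (n₂ : D.Nonempty) (hM : A' ⊆ M)
    (hc₁ : closure (A' \ A) ⊆ U₁) (hc₂ : closure (D' \ D) ⊆ U₂)
    (hA : ∀ p ∈ U₁ ∩ M, p ∈ A ↔ e p ∈ D) (hA' : ∀ p ∈ U₁ ∩ M, p ∈ A' ↔ e p ∈ D')
    (hY₂ : ∀ p ∈ U₁ ∩ L₁.Y, e p ∈ L₂.Y)
    (hO : ∀ l, ∀ p ∈ U₁ ∩ L₁.Y, e p ∈ L₂.O l → p ∈ L₁.O (tl l))
    (hm : ∀ p ∈ closure (A' \ A),
      MFCQAt E M (fun _ => A) e p 0 ∧ MFCQAt E M (fun _ => A') e p 0)
    {W : R} (ht : Tor L₂ D' D W) : Tor L₁ A' A W := by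
  obtain ⟨r₂, hr₂, ht⟩ := ht
  obtain ⟨K, hK, hZK, hKU⟩ := exists_compact_between p₁.cpt hU₁ hc₁
  have hKn : ∀ p ∈ closure (A' \ A), K ∈ 𝓝 p := fun p hp => mem_interior_iff_mem_nhds.mp (hZK hp)
  have hZA : closure (A' \ A) ⊆ A' := closure_minimal sdiff_subset p₁.cl'
  have hinj : InjOn e (K ∩ A') := hbij.injOn.mono fun x hx => mem_inter (hKU hx.1) (hM hx.2)
  obtain ⟨ra, hra, hla⟩ := TorDAux.uniform_la E hK he p₁.cl (p₁.sub.trans hM) p₁.cpt p₁.cl'
    p₁.sub hZA hinj hKn fun p hp => (hm p hp).1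
  obtain ⟨rb, hrb, hlb⟩ := TorDAux.uniform_la E hK he p₁.cl' hM p₁.cpt p₁.cl'
    Subset.rfl hZA hinj hKn fun p hp => (hm p hp).2
  have hdiff : ∀ x ∈ A' \ A, e x ∈ D' \ D := by
    intro x hx
    have hxU : x ∈ U₁ ∩ M := ⟨hc₁ (subset_closure hx), hM hx.1⟩
    exact ⟨(hA' x hxU).mp hx.1, fun h => hx.2 ((hA x hxU).mpr h)⟩
  have hZZ : ∀ x ∈ closure (A' \ A), e x ∈ closure (D' \ D) := fun x hx =>
    map_mem_closure he hx hdiff
  have hZZ' : closure (D' \ D) ⊆ e '' closure (A' \ A) := by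
    refine closure_minimal ?_ (p₁.cpt.image he).isClosed
    intro y hy
    obtain ⟨x, hx, rfl⟩ := hbij.surjOn (hc₂ (subset_closure hy))
    exact ⟨x, subset_closure ⟨(hA' x hx).mpr hy.1, fun h => hy.2 ((hA x hx).mp h)⟩, rfl⟩
  have hN : closure (D' \ D) ⊆ interior (e '' (K ∩ M)) := by
    intro y hy
    obtain ⟨x, hx, rfl⟩ := hZZ' hy
    rw [mem_interior_iff_mem_nhds, ← hopen x ⟨hc₁ hx, hM (hZA hx)⟩]
    exact image_mem_map (inter_mem (mem_nhdsWithin_of_mem_nhds (hKn x hx)) self_mem_nhdsWithin)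
  obtain ⟨δ, hδ, hth⟩ := p₂.cpt.exists_cthickening_subset_open isOpen_interior hN
  set r := min (min ra rb) (min r₂ (δ / 2)) with hr
  have hr0 : 0 < r := lt_min (lt_min hra hrb) (lt_min hr₂ (by linarith))
  have q1 : r ≤ ra := (min_le_left _ _).trans (min_le_left _ _)
  have q2 : r ≤ rb := (min_le_left _ _).trans (min_le_right _ _)
  have q3 : r ≤ r₂ := (min_le_right _ _).trans (min_le_left _ _)
  have q4 : r ≤ δ / 2 := (min_le_right _ _).trans (min_le_right _ _)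
  obtain ⟨k, B, l, hB⟩ := exists_adm h₂ p₂.cpt p₂.inY hr0
  have hW := ht (Fin k) B l ⟨fun i => TorDAux.balls_mono q3 (hB.mem i), hB.lab, hB.cov⟩
  have hsmall : ∀ i, ∀ z ∈ B i, z ∈ closure (D' \ D) → B i ⊆ e '' (K ∩ M) := by
    intro i z hz hzZ y hy
    obtain ⟨c, ρ, -, hρ, hc⟩ := hB.mem i
    rw [hc] at hz hy
    refine interior_subset (hth (mem_cthickening_of_dist_le y z δ _ hzZ ?_))
    have a1 : dist y c ≤ ρ := hy
    have a2 : dist z c ≤ ρ := hz
    linarith [dist_triangle_right y z c]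
  have hadm : Adm L₁ (TorDAux.mixed K e r) A' A (fun i => K ∩ e ⁻¹' B i) fun i => tl (l i) := by
    refine ⟨fun i => Or.inr ⟨B i, hB.mem i, rfl⟩, fun i x hx => ?_, fun x hx => ?_⟩
    · have hx' : x ∈ U₁ ∩ L₁.Y := ⟨hKU hx.1.1, hx.2⟩
      exact hO _ x hx' (hB.lab i ⟨hx.1.2, hY₂ x hx'⟩)
    · obtain ⟨i, hi⟩ := hB.cov (e x) (hZZ x hx)
      exact ⟨i, inter_mem (hKn x hx) (he.continuousAt.preimage_mem_nhds hi)⟩
  have hner : nerve (fun i => K ∩ e ⁻¹' B i) A' \ nerve (fun i => K ∩ e ⁻¹' B i) A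
      = nerve B D' \ nerve B D := by
    ext σ
    constructor
    · rintro ⟨⟨x, hx, hσ⟩, hn⟩
      have hxA : x ∉ A := fun h => hn ⟨x, h, hσ⟩
      have hex := hdiff x ⟨hx, hxA⟩
      refine ⟨⟨e x, hex.1, fun i hi => (hσ i hi).2⟩, ?_⟩
      rintro ⟨y, hy, hyσ⟩
      rcases σ.eq_empty_or_nonempty with rfl | ⟨i, hi⟩
      · obtain ⟨a, ha⟩ := n₁
        exact hn ⟨a, ha, fun i hi => absurd hi (Finset.notMem_empty i)⟩
      · obtain ⟨x', hx', rfl⟩ := hsmall i (e x) (hσ i hi).2 (subset_closure hex) (hyσ i hi)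
        exact hn ⟨x', (hA x' ⟨hKU hx'.1, hx'.2⟩).mpr hy, fun j hj => ⟨hx'.1, hyσ j hj⟩⟩
    · rintro ⟨⟨y, hy, hσ⟩, hn⟩
      have hyD : y ∉ D := fun h => hn ⟨y, h, hσ⟩
      obtain ⟨x, hx, rfl⟩ := interior_subset (hN (subset_closure ⟨hy, hyD⟩))
      refine ⟨⟨x, (hA' x ⟨hKU hx.1, hx.2⟩).mpr hy, fun i hi => ⟨hx.1, hσ i hi⟩⟩, ?_⟩
      rintro ⟨x', hx', hσ'⟩
      rcases σ.eq_empty_or_nonempty with rfl | ⟨i, hi⟩
      · obtain ⟨a, ha⟩ := n₂
        exact hn ⟨a, ha, fun i hi => absurd hi (Finset.notMem_empty i)⟩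
      · exact hn ⟨e x', (hA x' ⟨hKU (hσ' i hi).1, hM (p₁.sub hx')⟩).mp hx',
          fun j hj => (hσ' j hj).2⟩
  have hT : TorC L₁ (TorDAux.mixed K e r) A' A W := by
    refine torC_of_one h₁ p₁ (TorDAux.mixed_compact hK he) ?_
      (fun B₀ hB₀ hne => ⟨hla r q1 B₀ hB₀ hne, hlb r q2 B₀ hB₀ hne⟩) hadm ?_
    · intro B₀ _ x _ U hU
      obtain ⟨ε, hε, hsub⟩ := nhds_basis_closedBall.mem_iff.mp hU
      exact ⟨closedBall x (min ε r), Or.inl ⟨x, min ε r, lt_min hε hr0, min_le_right _ _, rfl⟩,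
        closedBall_mem_nhds x (lt_min hε hr0),
        (closedBall_subset_closedBall (min_le_left _ _)).trans hsub⟩
    · rw [hner]
      simp only [hG]
      exact hW
  exact ⟨r, hr0, fun ι _ _ B' l' hB' => hT ι B' l' ⟨fun i => Or.inl (hB'.mem i), hB'.lab, hB'.cov⟩⟩

end SpunKnot
end
end

-- merged part: Pool.Agent.Work.MP_e1e788_gt.Spin
section
/-! From polar coordinates to the spun space. -/

open Set Filter Topology

noncomputable section
namespace SpunKnot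

namespace SpinAux

theorem dArg_comp {A B : Type} [NormedAddCommGroup A] [NormedSpace ℝ A] [NormedAddCommGroup B]
    [NormedSpace ℝ B] {Φ : B → ℂ} {f : A → B} {x : A} (hΦ : DifferentiableAt ℝ Φ (f x))
    (hf : DifferentiableAt ℝ f x) (v : A) :
    dArg (fun q => Φ (f q)) x v = dArg Φ (f x) (fderiv ℝ f x v) := by
  have h : fderiv ℝ (fun q => Φ (f q)) x = (fderiv ℝ Φ (f x)).comp (fderiv ℝ f x) :=
    fderiv_comp x hΦ hf
  simp only [dArg, h, ContinuousLinearMap.comp_apply]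

variable {m : ℕ}

/-- polar coordinates -/
def pol (y : ℝ × (Lg m × ℝ)) : SLg m × ℝ :=
  (((y.2.1.1 : ℂ) * Complex.exp (y.1 * Complex.I), y.2.1.2), y.2.2)

theorem pol_smooth : ContDiff ℝ (⊤ : ℕ∞) (pol (m := m)) := by
  unfold pol
  have h1 : ContDiff ℝ (⊤ : ℕ∞) fun y : ℝ × (Lg m × ℝ) => (y.2.1.1 : ℂ) :=
    Complex.ofRealCLM.contDiff.comp (by fun_prop)
  have h2 : ContDiff ℝ (⊤ : ℕ∞) fun y : ℝ × (Lg m × ℝ) => (y.1 : ℂ) :=
    Complex.ofRealCLM.contDiff.comp (by fun_prop)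
  have h3 : ContDiff ℝ (⊤ : ℕ∞) fun y : ℝ × (Lg m × ℝ) => Complex.exp (y.1 * Complex.I) :=
    (h2.mul contDiff_const).cexp
  exact ((h1.mul h3).prodMk (by fun_prop)).prodMk (by fun_prop)

theorem spinback_pol {y : ℝ × (Lg m × ℝ)} (h : 0 < y.2.1.1) : spinback (pol y) = y.2 := by
  simp only [spinback, pol, norm_mul, Complex.norm_real, Complex.norm_exp_ofReal_mul_I, mul_one,
    Real.norm_of_nonneg h.le]

theorem arg_polar {r θ : ℝ} (hr : 0 < r) (hθ : θ ∈ Ioc (-Real.pi) Real.pi) :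
    Complex.arg ((r : ℂ) * Complex.exp (θ * Complex.I)) = θ := by
  rw [Complex.exp_mul_I]
  exact Complex.arg_mul_cos_add_sin_mul_I hr hθ

theorem pol_arg (q : SLg m × ℝ) : pol (Complex.arg q.1.1, spinback q) = q := by
  simp only [pol, spinback, Complex.norm_mul_exp_arg_mul_I]

theorem norm_spinback (q : SLg m × ℝ) : ‖spinback q‖ = ‖q‖ := by
  simp only [spinback, Prod.norm_def, norm_norm]

/-- the local inverse of polar coordinates -/
def lift (u : ℂ) (q : SLg m × ℝ) : ℝ × (Lg m × ℝ) :=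
  (Complex.arg u + (Complex.log (q.1.1 / u)).im, spinback q)

theorem pol_lift {u : ℂ} (hu : u ≠ 0) (q : SLg m × ℝ) : pol (lift u q) = q := by
  have h1 := Complex.norm_mul_exp_arg_mul_I u
  have h2 := Complex.norm_mul_exp_arg_mul_I (q.1.1 / u)
  have h3 : (‖q.1.1‖ : ℂ) = ‖u‖ * ‖q.1.1 / u‖ := by
    have : (‖u‖ : ℂ) ≠ 0 := by exact_mod_cast norm_ne_zero_iff.2 hu
    rw [norm_div]
    push_cast
    field_simp
  have h4 : (‖q.1.1‖ : ℂ) *
      Complex.exp ((Complex.arg u + Complex.arg (q.1.1 / u) : ℝ) * Complex.I) = q.1.1 := by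
    push_cast
    rw [add_mul, Complex.exp_add, h3]
    calc _ = (‖u‖ * Complex.exp (Complex.arg u * Complex.I)) *
          (‖q.1.1 / u‖ * Complex.exp (Complex.arg (q.1.1 / u) * Complex.I)) := by ring
      _ = u * (q.1.1 / u) := by rw [h1, h2]
      _ = q.1.1 := by field_simp
  simp only [pol, lift, spinback, Complex.log_im, h4]

theorem lift_self {q : SLg m × ℝ} (hu : q.1.1 ≠ 0) :
    lift q.1.1 q = (Complex.arg q.1.1, spinback q) := by
  simp [lift, div_self hu]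

theorem lift_smooth {q : SLg m × ℝ} (hu : q.1.1 ≠ 0) :
    ContDiffAt ℝ (⊤ : ℕ∞) (lift q.1.1) q := by
  have h0 : ContDiffAt ℝ (⊤ : ℕ∞) (fun q' : SLg m × ℝ => q'.1.1) q := by fun_prop
  have h1 : ContDiffAt ℝ (⊤ : ℕ∞) (fun q' : SLg m × ℝ => q'.1.1 / q.1.1) q := h0.div_const _
  have h2 : ContDiffAt ℝ (⊤ : ℕ∞) Complex.log (q.1.1 / q.1.1) := by
    rw [div_self hu]
    exact (Complex.contDiffAt_log Complex.one_mem_slitPlane).restrict_scalars ℝ
  have h3 : ContDiffAt ℝ (⊤ : ℕ∞) (fun q' : SLg m × ℝ => (Complex.log (q'.1.1 / q.1.1)).im) q :=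
    Complex.imCLM.contDiff.contDiffAt.comp q
      (ContDiffAt.comp q (g := Complex.log) (f := fun q' : SLg m × ℝ => q'.1.1 / q.1.1) h2 h1)
  have h4 : ContDiffAt ℝ (⊤ : ℕ∞) (fun q' : SLg m × ℝ => ‖q'.1.1‖) q :=
    h0.norm ℂ hu
  exact (contDiffAt_const.add h3).prodMk ((h4.prodMk (by fun_prop)).prodMk (by fun_prop))

variable (P : PolData m)

/-- the spun family -/
def W (z : ℝ × (SLg m × ℝ)) : ℝ := P.Ψ (z.1, Complex.arg z.2.1.1, spinback z.2)

theorem W_std (s : ℝ) {q : SLg m × ℝ} (h : ‖q.1.2.2‖ < P.ε ∨ P.R ≤ ‖q‖ ∨ ‖q.1.1‖ ≤ 1) :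
    W P (s, q) = P.g0 q.2 :=
  P.Ψ_std s _ (spinback q) (by rw [norm_spinback]; exact h)

theorem W_pol {q : SLg m × ℝ} (hu : q.1.1 ≠ 0) :
    ∀ᶠ y in 𝓝 (Complex.arg q.1.1, spinback q), ∀ s, W P (s, pol y) = P.Ψ (s, y) := by
  obtain ⟨δ, hδ, hper⟩ := P.Ψ_per
  have hπ := Real.pi_pos
  have hm : 0 < min δ Real.pi := lt_min hδ hπ
  have h1 : ∀ᶠ y : ℝ × (Lg m × ℝ) in 𝓝 (Complex.arg q.1.1, spinback q), 0 < y.2.1.1 :=
    (continuous_const.continuousAt.eventually_lt (by fun_prop) (norm_pos_iff.2 hu))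
  have h2 : ∀ᶠ y : ℝ × (Lg m × ℝ) in 𝓝 (Complex.arg q.1.1, spinback q), -Real.pi < y.1 :=
    (continuous_const.continuousAt.eventually_lt (by fun_prop) (Complex.neg_pi_lt_arg _))
  have h3 : ∀ᶠ y : ℝ × (Lg m × ℝ) in 𝓝 (Complex.arg q.1.1, spinback q),
      y.1 < Real.pi + min δ Real.pi :=
    (continuous_fst.continuousAt.eventually_lt continuous_const.continuousAt
      ((Complex.arg_le_pi _).trans_lt (by linarith)))
  filter_upwards [h1, h2, h3] with y hy1 hy2 hy3 s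
  have e1 : W P (s, pol y) =
      P.Ψ (s, Complex.arg ((y.2.1.1 : ℂ) * Complex.exp (y.1 * Complex.I)), y.2) := by
    rw [W, spinback_pol hy1]
    rfl
  rw [e1]
  rcases le_or_gt y.1 Real.pi with h | h
  · rw [arg_polar hy1 ⟨hy2, h⟩]
  · have h4 := min_le_left δ Real.pi
    have h5 := min_le_right δ Real.pi
    have e2 : Complex.exp (y.1 * Complex.I) =
        Complex.exp ((y.1 - 2 * Real.pi : ℝ) * Complex.I) := by
      push_cast
      rw [sub_mul, Complex.exp_sub, Complex.exp_two_pi_mul_I, div_one]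
    rw [e2, arg_polar hy1 ⟨by linarith, by linarith⟩,
      ← hper s (y.1 - 2 * Real.pi) (abs_lt.2 ⟨by linarith, by linarith⟩) y.2, sub_add_cancel]

theorem W_near {q : SLg m × ℝ} (hu : ‖q.1.1‖ < 1) :
    ∀ᶠ q' in 𝓝 q, ∀ s, W P (s, q') = P.g0 q'.2 := by
  have h1 : ∀ᶠ q' : SLg m × ℝ in 𝓝 q, ‖q'.1.1‖ < 1 :=
    ContinuousAt.eventually_lt (by fun_prop) continuous_const.continuousAt hu
  filter_upwards [h1] with q' h s
  exact W_std P s (Or.inr (Or.inr h.le))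

theorem W_smooth : ContDiff ℝ (⊤ : ℕ∞) (W P) := by
  rw [contDiff_iff_contDiffAt]
  rintro ⟨s, q⟩
  by_cases hu : q.1.1 = 0
  · have h1 := W_near P (q := q) (by rw [hu, norm_zero]; exact one_pos)
    have h2 : ∀ᶠ z : ℝ × (SLg m × ℝ) in 𝓝 (s, q), W P z = P.g0 z.2.2 :=
      (continuous_snd.continuousAt.eventually h1).mono fun z hz => hz z.1
    exact (P.g0_smooth.comp (by fun_prop)).contDiffAt.congr_of_eventuallyEq h2
  · have h0 := lift_smooth hu
    have h1 := W_pol P hu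
    rw [← lift_self hu] at h1
    have h2 := h0.continuousAt.eventually h1
    have h3 : ∀ᶠ z : ℝ × (SLg m × ℝ) in 𝓝 (s, q), W P z = P.Ψ (z.1, lift q.1.1 z.2) := by
      refine (continuous_snd.continuousAt.eventually h2).mono fun z hz => ?_
      have := hz z.1
      rwa [pol_lift hu] at this
    have h4 : ContDiffAt ℝ (⊤ : ℕ∞) (fun z : ℝ × (SLg m × ℝ) => lift q.1.1 z.2) (s, q) :=
      ContDiffAt.comp (s, q) (g := lift q.1.1) (f := Prod.snd) h0 contDiffAt_snd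
    exact (P.Ψ_smooth.contDiffAt.comp (s, q) (contDiffAt_fst.prodMk h4)).congr_of_eventuallyEq h3

theorem W_smooth' (s : ℝ) : ContDiff ℝ (⊤ : ℕ∞) fun q => W P (s, q) :=
  (W_smooth P).comp (contDiff_const.prodMk contDiff_id)

theorem fderiv_pol (s : ℝ) {q : SLg m × ℝ} (hu : q.1.1 ≠ 0) :
    fderiv ℝ (fun y => P.Ψ (s, y)) (Complex.arg q.1.1, spinback q) =
      (fderiv ℝ (fun q' => W P (s, q')) q).comp (fderiv ℝ pol (Complex.arg q.1.1, spinback q)) := by
  have h1 : (fun y => P.Ψ (s, y)) =ᶠ[𝓝 (Complex.arg q.1.1, spinback q)]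
      (fun q' => W P (s, q')) ∘ pol := (W_pol P hu).mono fun y hy => (hy s).symm
  rw [h1.fderiv_eq, fderiv_comp _ (((W_smooth' P s).differentiable (by simp)) _)
    ((pol_smooth.differentiable (by simp)) _), pol_arg]

theorem arg_mem (u : ℂ) : Complex.arg u ∈ Icc (-Real.pi) Real.pi :=
  ⟨(Complex.neg_pi_lt_arg u).le, Complex.arg_le_pi u⟩

theorem fderiv_near (s : ℝ) {q : SLg m × ℝ} (hu : q.1.1 = 0) (v : SLg m × ℝ) :
    fderiv ℝ (fun q' => W P (s, q')) q v = v.2 * deriv P.g0 q.2 := by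
  have h1 : (fun q' => W P (s, q')) =ᶠ[𝓝 q] P.g0 ∘ Prod.snd :=
    (W_near P (by rw [hu, norm_zero]; exact one_pos)).mono fun y hy => hy s
  rw [h1.fderiv_eq, fderiv_comp _ ((P.g0_smooth.differentiable (by simp)) _) differentiableAt_snd,
    fderiv_snd]
  simp

theorem W_reg {s : ℝ} (hs : s ∈ Icc (0 : ℝ) 1) (q : SLg m × ℝ) (h : W P (s, q) = 0) :
    fderiv ℝ (fun q' => W P (s, q')) q ≠ 0 := by
  intro h0
  by_cases hu : q.1.1 = 0
  · have h1 := fderiv_near P s hu (0, 1)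
    rw [W_std P s (Or.inr (Or.inr (by rw [hu, norm_zero]; exact zero_le_one))), P.g0_zero] at h
    rw [h0, h] at h1
    exact P.g0_reg (by simpa using h1.symm)
  · apply P.Ψ_reg s hs _ (arg_mem q.1.1) (spinback q) h
    rw [fderiv_pol P s hu, h0, ContinuousLinearMap.zero_comp]

theorem W_fib (q : SLg m × ℝ) (h : W P (1, q) = 0) (hw : q.1.2.2 ≠ 0) :
    ∃ v, fderiv ℝ (fun q' => W P (1, q')) q v = 0 ∧
      dArg (fun q : SLg m × ℝ => P.Λ q.1.2.2) q v ≠ 0 := by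
  have hΛ : Differentiable ℝ P.Λ := P.Λ_smooth.differentiable (by simp)
  by_cases hu : q.1.1 = 0
  · refine ⟨((0, 0, Complex.I * q.1.2.2), 0), by rw [fderiv_near P 1 hu, zero_mul], ?_⟩
    let f : (SLg m × ℝ) →L[ℝ] ℂ := (ContinuousLinearMap.snd ℝ _ _).comp
      ((ContinuousLinearMap.snd ℝ _ _).comp (ContinuousLinearMap.fst ℝ _ _))
    have h1 := dArg_comp (Φ := P.Λ) (f := f) (x := q) (hΛ _) f.differentiableAt
      ((0, 0, Complex.I * q.1.2.2), 0)
    rw [f.fderiv] at h1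
    exact h1.trans_ne (P.Λ_ang _ hw).ne'
  · obtain ⟨v, hv1, hv2⟩ := P.Ψ_fib _ (arg_mem q.1.1) (spinback q) h hw
    refine ⟨fderiv ℝ pol (Complex.arg q.1.1, spinback q) v, ?_, ?_⟩
    · rw [fderiv_pol P 1 hu] at hv1
      exact hv1
    · have h1 := dArg_comp (Φ := fun q : SLg m × ℝ => P.Λ q.1.2.2) (f := pol)
        (x := (Complex.arg q.1.1, spinback q)) ((hΛ.comp (by fun_prop)) _)
        ((pol_smooth.differentiable (by simp)) _) v
      have h2 := dArg_comp (Φ := fun q : Lg m × ℝ => P.Λ q.1.2.2) (f := Prod.snd)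
        (x := (Complex.arg q.1.1, spinback q)) ((hΛ.comp (by fun_prop)) _) differentiableAt_snd v
      rw [pol_arg] at h1
      rw [fderiv_snd] at h2
      rw [← h1]
      exact h2.trans_ne hv2

/-- the support of the isotopy -/
def C : Set (SLg m × ℝ) := {q | ‖q‖ ≤ P.R ∧ P.ε ≤ ‖q.1.2.2‖}

theorem C_compact : IsCompact (C P) := by
  refine (isCompact_closedBall (0 : SLg m × ℝ) P.R).of_isClosed_subset ?_ fun q hq => ?_
  · have h1 : Continuous fun q : SLg m × ℝ => ‖q.1.2.2‖ := by fun_prop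
    exact (isClosed_le continuous_norm continuous_const).inter (isClosed_le continuous_const h1)
  · exact mem_closedBall_zero_iff.2 hq.1

theorem W_out (s : ℝ) {q : SLg m × ℝ} (h : q ∉ C P) : W P (s, q) = P.g0 q.2 := by
  apply W_std
  by_contra h1
  rw [not_or, not_or, not_lt, not_le] at h1
  exact h ⟨h1.2.1.le, h1.1⟩

end SpinAux

open SpinAux in
theorem PolData.longData {m : ℕ} (P : PolData m) : Nonempty (LongData m) := by
  obtain ⟨Θ, Θ', h1, h2, h3, h4, h5, h6⟩ := iso_of_family (W_smooth P) (C_compact P)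
    (fun s _ x hx => (W_out P s hx).trans (W_out P 0 hx).symm) fun s hs x _ h => W_reg P hs x h
  exact ⟨{
    G := P.G, Λ := P.Λ, Ξ := P.Ξ, Ξ' := P.Ξ', Gh := fun q => W P (1, q), Θ := Θ, Θ' := Θ'
    R := P.R + 1, ε := P.ε, ε_pos := P.ε_pos, G_smooth := P.G_smooth, Λ_smooth := P.Λ_smooth
    Λ_std := P.Λ_std, Λ_ang := P.Λ_ang, Λ_zero := P.Λ_zero, Ξ_smooth := P.Ξ_smooth
    Ξ'_smooth := P.Ξ'_smooth, Ξ_left := P.Ξ_left, Ξ_right := P.Ξ_right
    Ξ_id := fun p hp => P.Ξ_id p (hp.imp_left fun h => by linarith)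
    Ξ_zero := P.Ξ_zero
    G_std := fun p hp => by
      rw [← P.Ψ_zero 0 p, P.Ψ_std 0 0 p (hp.imp_right fun h => Or.inl (by linarith)), P.g0_zero]
    G_reg := P.G_reg
    Gh_smooth := W_smooth' P 1
    Θ_smooth := h1, Θ'_smooth := h2, Θ_left := h3, Θ_right := h4
    Θ_id := fun p hp => h5 p fun hC => hp.elim (fun h => by linarith [hC.1])
      fun h => absurd hC.2 (not_le.2 h)
    Θ_zero := fun p => by
      rw [← P.Ψ_zero (Complex.arg p.1.1)]
      exact h6 p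
    Gh_reg := W_reg P ⟨zero_le_one, le_rfl⟩
    Gh_fib := W_fib P
    noFib := P.noFib }⟩

end SpunKnot
end
end
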