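import Pool.Agent.Work.MP_e1e788_gt.Spin
import Pool.Agent.Work.MP_e1e788_gt.GridA
import Pool.Agent.Work.MP_e1e788_gt.Tele
import Pool.Agent.Work.MP_e1e788_gt.Flag

-- merged part: Pool.Agent.Work.MP_e1e788_gt.LamA
section
/-! The shear `Lam` and the angle function. -/

open Set Filter Topology

set_option linter.unusedSectionVars false

noncomputable section
namespace SpunKnot

namespace LamAAux

/-- the cutoff in `psi0` -/
def ff (t : ℝ) : ℝ := Real.smoothTransition (2 * t + 5 / 2) * Real.smoothTransition (5 / 2 - 2 * t)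

/-- the amount of shear -/
def kk (r : ℝ) : ℝ := kap2 r * (2 * r - 1)

theorem psi0_eq (t : ℝ) : psi0 t = t * ff t := rfl

theorem ff_range (t : ℝ) : 0 ≤ ff t ∧ ff t ≤ 1 :=
  ⟨mul_nonneg (Real.smoothTransition.nonneg _) (Real.smoothTransition.nonneg _),
    mul_le_one₀ (Real.smoothTransition.le_one _) (Real.smoothTransition.nonneg _)
      (Real.smoothTransition.le_one _)⟩

theorem psi0_smooth : ContDiff ℝ (⊤ : ℕ∞) psi0 := by
  unfold psi0
  refine contDiff_id.mul ((Real.smoothTransition.contDiff.comp ?_).mul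
    (Real.smoothTransition.contDiff.comp ?_)) <;> fun_prop

theorem psi0_zero {t : ℝ} (h : 5 / 4 ≤ |t|) : psi0 t = 0 := by
  unfold psi0
  rcases le_abs.1 h with h | h
  · rw [Real.smoothTransition.zero_of_nonpos (x := 5 / 2 - 2 * t) (by linarith only [h])]; simp
  · rw [Real.smoothTransition.zero_of_nonpos (x := 2 * t + 5 / 2) (by linarith only [h])]; simp

theorem psi0_id {t : ℝ} (h : |t| ≤ 3 / 4) : psi0 t = t := by
  unfold psi0
  obtain ⟨a, b⟩ := abs_le.1 h
  rw [Real.smoothTransition.one_of_one_le (by linarith only [a]),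
    Real.smoothTransition.one_of_one_le (by linarith only [b])]
  simp

theorem psi0_deriv_zero {t : ℝ} (h : 5 / 4 < |t|) : deriv psi0 t = 0 := by
  have : psi0 =ᶠ[𝓝 t] fun _ => 0 :=
    ((isOpen_lt continuous_const continuous_abs).eventually_mem h).mono fun s hs =>
      psi0_zero (le_of_lt hs)
  rw [this.deriv_eq, deriv_const]

theorem psi0_deriv_le (t : ℝ) : |deriv psi0 t| ≤ abs (⨆ t, abs (deriv psi0 t)) := by
  have c : Continuous fun t => |deriv psi0 t| :=
    (psi0_smooth.continuous_deriv (by simp)).abs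
  obtain ⟨M, hM⟩ := (isCompact_Icc (a := (-2 : ℝ)) (b := 2)).bddAbove_image c.continuousOn
  have b : BddAbove (range fun t => |deriv psi0 t|) := by
    refine ⟨max M 0, ?_⟩
    rintro _ ⟨s, rfl⟩
    by_cases h : |s| ≤ 2
    · exact (hM ⟨s, abs_le.1 h, rfl⟩).trans (le_max_left _ _)
    · have : deriv psi0 s = 0 := psi0_deriv_zero (by linarith only [h, not_le.1 h])
      simp [this]
  exact (le_ciSup b t).trans (le_abs_self _)

theorem kap2_range (r : ℝ) : 0 ≤ kap2 r ∧ kap2 r ≤ 1 :=
  ⟨mul_nonneg (Real.smoothTransition.nonneg _) (Real.smoothTransition.nonneg _),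
    mul_le_one₀ (Real.smoothTransition.le_one _) (Real.smoothTransition.nonneg _)
      (Real.smoothTransition.le_one _)⟩

theorem kap2_smooth : ContDiff ℝ (⊤ : ℕ∞) kap2 := by
  unfold kap2
  refine (Real.smoothTransition.contDiff.comp ?_).mul
    (Real.smoothTransition.contDiff.comp ?_) <;> fun_prop

theorem kap2_zero {r : ℝ} (h : 5 * eta ≤ |r - 1 / 2|) : kap2 r = 0 := by
  unfold kap2
  have e := eta_pos
  rcases le_abs.1 h with h | h
  · rw [Real.smoothTransition.zero_of_nonpos (x := (1 / 2 + 5 * eta - r) / eta)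
      (div_nonpos_of_nonpos_of_nonneg (by linarith only [h]) e.le), mul_zero]
  · rw [Real.smoothTransition.zero_of_nonpos (x := (r - 1 / 2 + 5 * eta) / eta)
      (div_nonpos_of_nonpos_of_nonneg (by linarith only [h]) e.le), zero_mul]

theorem kap2_one {r : ℝ} (h : |r - 1 / 2| ≤ 4 * eta) : kap2 r = 1 := by
  unfold kap2
  have e := eta_pos
  obtain ⟨a, b⟩ := abs_le.1 h
  rw [Real.smoothTransition.one_of_one_le ((one_le_div e).2 (by linarith only [a])),
    Real.smoothTransition.one_of_one_le ((one_le_div e).2 (by linarith only [b])), one_mul]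

theorem kap2_hasDerivAt (r : ℝ) : HasDerivAt kap2
    (deriv Real.smoothTransition ((r - 1 / 2 + 5 * eta) / eta) * (1 / eta) *
        Real.smoothTransition ((1 / 2 + 5 * eta - r) / eta) +
      Real.smoothTransition ((r - 1 / 2 + 5 * eta) / eta) *
        (deriv Real.smoothTransition ((1 / 2 + 5 * eta - r) / eta) * (-1 / eta))) r := by
  have d : ∀ s, HasDerivAt Real.smoothTransition (deriv Real.smoothTransition s) s := fun s =>
    ((Real.smoothTransition.contDiff (n := 1)).differentiable (by simp) s).hasDerivAt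
  have h1 : HasDerivAt (fun x : ℝ => (x - 1 / 2 + 5 * eta) / eta) (1 / eta) r :=
    (((hasDerivAt_id r).sub_const _).add_const _).div_const eta
  have h2 : HasDerivAt (fun x : ℝ => (1 / 2 + 5 * eta - x) / eta) (-1 / eta) r :=
    ((hasDerivAt_id r).const_sub _).div_const eta
  exact ((d _).comp r h1).mul ((d _).comp r h2)

theorem kap2_deriv_sign (r : ℝ) : r * (deriv kap2 r * (2 * r - 1)) ≤ 0 := by
  have e := eta_pos
  have e' := eta_le
  rw [(kap2_hasDerivAt r).deriv]
  rcases le_total r (1 / 2) with h | h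
  · rw [smoothTransition_deriv_zero (s := (1 / 2 + 5 * eta - r) / eta)
      (.inr ((one_le_div e).2 (by linarith only [e, h])))]
    rcases le_total r 0 with h' | h'
    · rw [smoothTransition_deriv_zero (s := (r - 1 / 2 + 5 * eta) / eta)
        (.inl (div_nonpos_of_nonpos_of_nonneg (by linarith only [e, e', h']) e.le))]
      simp
    · refine mul_nonpos_of_nonneg_of_nonpos h' (mul_nonpos_of_nonneg_of_nonpos ?_ (by linarith only [h]))
      rw [zero_mul, mul_zero, add_zero]
      exact mul_nonneg (mul_nonneg (smoothTransition_deriv_nonneg _) (by positivity))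
        (Real.smoothTransition.nonneg _)
  · rw [smoothTransition_deriv_zero (s := (r - 1 / 2 + 5 * eta) / eta)
      (.inr ((one_le_div e).2 (by linarith only [e, h])))]
    refine mul_nonpos_of_nonneg_of_nonpos (by linarith only [e, e', h])
      (mul_nonpos_of_nonpos_of_nonneg ?_ (by linarith only [h]))
    rw [zero_mul, zero_mul, zero_add]
    exact mul_nonpos_of_nonneg_of_nonpos (Real.smoothTransition.nonneg _)
      (mul_nonpos_of_nonneg_of_nonpos (smoothTransition_deriv_nonneg _)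
        (div_nonpos_of_nonpos_of_nonneg (by norm_num) e.le))

theorem kap2_deriv_zero {r : ℝ} (h : |r - 1 / 2| < 4 * eta) : deriv kap2 r = 0 := by
  have : kap2 =ᶠ[𝓝 r] fun _ => 1 :=
    ((isOpen_lt (f := fun s : ℝ => |s - 1 / 2|) (by fun_prop) continuous_const).eventually_mem
      h).mono fun s hs => kap2_one (le_of_lt hs)
  rw [this.deriv_eq, deriv_const]

theorem kk_abs (r : ℝ) : |kk r| ≤ 10 * eta := by
  have e := eta_pos
  unfold kk
  rcases le_total (5 * eta) |r - 1 / 2| with h | h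
  · rw [kap2_zero h, zero_mul, abs_zero]; positivity
  · obtain ⟨a, b⟩ := kap2_range r
    obtain ⟨c, d⟩ := abs_le.1 h
    rw [abs_mul, abs_of_nonneg a]
    have : |2 * r - 1| ≤ 10 * eta := abs_le.2 ⟨by linarith only [c], by linarith only [d]⟩
    exact (mul_le_of_le_one_left (abs_nonneg _) b).trans this

theorem kk_hasDerivAt (r : ℝ) : HasDerivAt kk (deriv kap2 r * (2 * r - 1) + kap2 r * 2) r := by
  have h : HasDerivAt (fun x : ℝ => 2 * x - 1) 2 r := by
    simpa using ((hasDerivAt_id r).const_mul 2).sub_const 1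
  exact ((kap2_smooth.differentiable (by simp) r).hasDerivAt).mul h

theorem bt_pos (r t : ℝ) : 0 < 1 + kk r * deriv psi0 t := by
  have h1 := kk_abs r
  have h2 := psi0_deriv_le t
  have h3 : eta ≤ 1 / (16 * (abs (⨆ t, abs (deriv psi0 t)) + 1)) := min_le_right _ _
  have h4 := abs_nonneg (⨆ t, abs (deriv psi0 t))
  have e := eta_pos
  set C := abs (⨆ t, abs (deriv psi0 t))
  rw [le_div_iff₀ (by positivity)] at h3
  have h5 : |kk r * deriv psi0 t| ≤ 10 * eta * C := by
    rw [abs_mul]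
    exact mul_le_mul h1 h2 (abs_nonneg _) (by positivity)
  have := neg_abs_le (kk r * deriv psi0 t)
  linarith only [e, h3, h5, this]

theorem Lam_eq (w : ℂ) : Lam w = (w.re : ℂ) + ((w.im + kk w.re * psi0 w.im : ℝ) : ℂ) * Complex.I :=
  rfl

theorem im_eq (w : ℂ) : (Lam w).im = w.im + kk w.re * psi0 w.im := by
  rw [Lam_eq]; simp

theorem re_eq (w : ℂ) : (Lam w).re = w.re := by
  rw [Lam_eq]; simp

theorem smooth : ContDiff ℝ (⊤ : ℕ∞) Lam := by
  have a : ContDiff ℝ (⊤ : ℕ∞) fun w : ℂ => w.re := Complex.reCLM.contDiff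
  have b : ContDiff ℝ (⊤ : ℕ∞) fun w : ℂ => w.im := Complex.imCLM.contDiff
  have c : ContDiff ℝ (⊤ : ℕ∞) fun w : ℂ => w.im + kap2 w.re * (2 * w.re - 1) * psi0 w.im :=
    b.add (((kap2_smooth.comp a).mul ((contDiff_const.mul a).sub contDiff_const)).mul
      (psi0_smooth.comp b))
  exact (Complex.ofRealCLM.contDiff.comp a).add
    ((Complex.ofRealCLM.contDiff.comp c).mul contDiff_const)

theorem dArg_eq (w v : ℂ) : dArg Lam w v =
    w.re * ((deriv kap2 w.re * (2 * w.re - 1) + kap2 w.re * 2) * psi0 w.im * v.re +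
      (1 + kk w.re * deriv psi0 w.im) * v.im) - (w.im + kk w.re * psi0 w.im) * v.re := by
  have a : HasFDerivAt (fun w : ℂ => w.re) Complex.reCLM w := Complex.reCLM.hasFDerivAt
  have b : HasFDerivAt (fun w : ℂ => w.im) Complex.imCLM w := Complex.imCLM.hasFDerivAt
  have c := b.add (((kk_hasDerivAt w.re).comp_hasFDerivAt w a).mul
    (((psi0_smooth.differentiable (by simp) w.im).hasDerivAt).comp_hasFDerivAt w b))
  have d := (smooth.differentiable (by simp) w).hasFDerivAt
  have e₁ : Complex.reCLM.comp (fderiv ℝ Lam w) = Complex.reCLM :=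
    (Complex.reCLM.hasFDerivAt.comp w d).unique
      (a.congr_of_eventuallyEq (Eventually.of_forall re_eq))
  have e₂ := (Complex.imCLM.hasFDerivAt.comp w d).unique
    (c.congr_of_eventuallyEq (Eventually.of_forall im_eq))
  have f₁ : (fderiv ℝ Lam w v).re = v.re := congrArg (fun L : ℂ →L[ℝ] ℝ => L v) e₁
  have f₂ : (fderiv ℝ Lam w v).im = _ := congrArg (fun L : ℂ →L[ℝ] ℝ => L v) e₂
  unfold dArg
  rw [Complex.mul_im, Complex.conj_re, Complex.conj_im, f₁, f₂, re_eq, im_eq]
  simp
  ring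

theorem strictMono_b (r : ℝ) : StrictMono fun t => t + kk r * psi0 t := by
  refine strictMono_of_deriv_pos fun t => ?_
  have := (hasDerivAt_id t).add
    (((psi0_smooth.differentiable (by simp) t).hasDerivAt).const_mul (kk r))
  exact (bt_pos r t).trans_eq this.deriv.symm

end LamAAux

open LamAAux

theorem Lam_smooth : ContDiff ℝ (⊤ : ℕ∞) Lam := LamAAux.smooth
theorem Lam_re (w : ℂ) : (Lam w).re = w.re := re_eq w
theorem Lam_im (w : ℂ) : ∃ c : ℝ, 0 < c ∧ (Lam w).im = c * w.im := by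
  refine ⟨1 + kk w.re * ff w.im, ?_, by rw [im_eq, psi0_eq]; ring⟩
  obtain ⟨a, b⟩ := ff_range w.im
  obtain ⟨c, -⟩ := abs_le.1 (kk_abs w.re)
  have := eta_le
  have := eta_pos
  nlinarith
theorem Lam_zero {w : ℂ} (h : Lam w = 0) : w = 0 := by
  obtain ⟨c, a, b⟩ := Lam_im w
  have d := Lam_re w
  rw [h] at b d
  exact Complex.ext d.symm ((mul_eq_zero.1 b.symm).resolve_left a.ne')
theorem Lam_id {w : ℂ} (h : 5 * eta ≤ |w.re - 1 / 2| ∨ 5 / 4 ≤ |w.im|) : Lam w = w := by
  refine Complex.ext (Lam_re w) ?_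
  rw [im_eq]
  rcases h with h | h
  · rw [kk, kap2_zero h]; simp
  · rw [psi0_zero h]; simp
theorem Lam_ang {w : ℂ} (h : w ≠ 0) : 0 < dArg Lam w (Complex.I * w) := by
  have e : dArg Lam w (Complex.I * w) = w.re ^ 2 * (1 + kk w.re * deriv psi0 w.im) +
      w.im ^ 2 * (1 - kap2 w.re * ff w.im) +
      w.im ^ 2 * ff w.im * -(w.re * (deriv kap2 w.re * (2 * w.re - 1))) := by
    rw [dArg_eq, psi0_eq]
    simp only [Complex.mul_re, Complex.mul_im, Complex.I_re, Complex.I_im, kk]
    ring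
  obtain ⟨a, b⟩ := ff_range w.im
  obtain ⟨c, d⟩ := kap2_range w.re
  have p₃ : 0 ≤ w.im ^ 2 * ff w.im * -(w.re * (deriv kap2 w.re * (2 * w.re - 1))) :=
    mul_nonneg (mul_nonneg (sq_nonneg _) a) (neg_nonneg.2 (kap2_deriv_sign _))
  rw [e]
  by_cases r : w.re = 0
  · have t : w.im ≠ 0 := fun t => h (Complex.ext r t)
    have k : kap2 w.re = 0 := kap2_zero (by
      rw [r, zero_sub, abs_neg, abs_of_pos (by norm_num)]
      linarith only [eta_le])
    have p₁ := mul_nonneg (sq_nonneg w.re) (bt_pos w.re w.im).le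
    have p₂ : 0 < w.im ^ 2 * (1 - kap2 w.re * ff w.im) := by
      rw [k, zero_mul, sub_zero, mul_one]; positivity
    linarith only [p₃, p₁, p₂]
  · have p₁ := mul_pos (sq_pos_of_ne_zero r) (bt_pos w.re w.im)
    have p₂ := mul_nonneg (sq_nonneg w.im) (sub_nonneg.2 (mul_le_one₀ d a b))
    linarith
theorem Lam_dI (w : ℂ) : ∃ c : ℝ, 0 < c ∧ dArg Lam w Complex.I = c * w.re := by
  refine ⟨_, bt_pos w.re w.im, ?_⟩
  rw [dArg_eq]
  simp only [Complex.I_re, Complex.I_im]
  ring
theorem Lam_core {w : ℂ} (h₁ : |w.re - 1 / 2| < 4 * eta) (h₂ : |w.im| < 3 / 4) :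
    dArg Lam w 1 = 0 := by
  rw [dArg_eq, kk, kap2_one h₁.le, kap2_deriv_zero h₁, psi0_id h₂.le]
  simp only [Complex.one_re, Complex.one_im]
  ring
theorem Lam_far {w : ℂ} (h : 5 / 4 < |w.im|) (v : ℂ) :
    dArg Lam w v = w.re * v.im - w.im * v.re := by
  rw [dArg_eq, psi0_zero h.le, psi0_deriv_zero h]
  ring

theorem ang_strictMono : StrictMono ang := fun a b h =>
  Real.arctan_strictMono (by linarith)
theorem ang_smooth : ContDiff ℝ (⊤ : ℕ∞) ang := by
  unfold ang
  exact Real.contDiff_arctan.comp (by fun_prop)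
theorem ang_mem (τ : ℝ) : ang τ ∈ Ioo (-(Real.pi / 2)) (Real.pi / 2) := Real.arctan_mem_Ioo _

variable {V : Type} [Fintype V] [LinearOrder V]

namespace LamAAux

/-- the linear part of `wC` -/
def wL (V : Type) [Fintype V] : Sp (KA V) →L[ℝ] ℂ :=
  Complex.ofRealCLM.comp (EuclideanSpace.proj (some none)) +
    (EuclideanSpace.proj none : Sp (KA V) →L[ℝ] ℝ).smulRight Complex.I

theorem wC_eq (x : Sp (KA V)) : wC x = wL V x - (1 / 2 + 3 / 2 * Complex.I) := by
  simp [wC, wL]
  ring

theorem wC_re (x : Sp (KA V)) : (wC x).re = x (some none) - 1 / 2 := by simp [wC]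

theorem wC_im (x : Sp (KA V)) : (wC x).im = x none - 3 / 2 := by simp [wC]

theorem wC_fderiv (x : Sp (KA V)) : HasFDerivAt (wC (V := V)) (wL V) x :=
  ((wL V).hasFDerivAt.sub_const _).congr_of_eventuallyEq (Eventually.of_forall wC_eq)

theorem strip {x : Sp (KA V)} (hx : |x (some none) - 1| ≤ 4 * eta) :
    0 < (wC x).re ∧ kk (wC x).re = 2 * (wC x).re - 1 := by
  rw [wC_re]
  refine ⟨by linarith only [hx, (abs_le.1 hx).1, eta_le], ?_⟩
  rw [kk, kap2_one (by rwa [show x (some none) - 1 / 2 - 1 / 2 = x (some none) - 1 by ring]),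
    one_mul]

theorem polar {r s : ℝ} (h : 0 < r) {z : ℂ} (a : z.re = r) (b : z.im = r * s) :
    z = ‖z‖ * Complex.exp (Real.arctan s * Complex.I) := by
  have q : 0 < √(1 + s ^ 2) := Real.sqrt_pos.2 (by positivity)
  have n : ‖z‖ = r * √(1 + s ^ 2) := by
    rw [Complex.norm_eq_sqrt_sq_add_sq, a, b, show r ^ 2 + (r * s) ^ 2 = r ^ 2 * (1 + s ^ 2) by ring,
      Real.sqrt_mul (sq_nonneg _), Real.sqrt_sq h.le]
  refine Complex.ext ?_ ?_
  · rw [Complex.re_ofReal_mul, Complex.exp_ofReal_mul_I_re, Real.cos_arctan, n, a]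
    field_simp
  · rw [Complex.im_ofReal_mul, Complex.exp_ofReal_mul_I_im, Real.sin_arctan, n, b]
    field_simp

end LamAAux

theorem wC_smooth : ContDiff ℝ (⊤ : ℕ∞) (wC (V := V)) := by
  rw [funext (wC_eq (V := V))]
  exact (wL V).contDiff.sub contDiff_const
theorem PhiA_smooth : ContDiff ℝ (⊤ : ℕ∞) (PhiA (V := V)) := Lam_smooth.comp wC_smooth
theorem PhiA_ne {x : Sp (KA V)} : PhiA x ≠ 0 ↔ wC x ≠ 0 := by
  refine not_congr ⟨Lam_zero, fun h => ?_⟩
  rw [PhiA, h]
  exact Complex.ext (Lam_re 0) (by obtain ⟨c, -, e⟩ := Lam_im 0; simpa using e)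
theorem dArg_PhiA (x v : Sp (KA V)) :
    dArg PhiA x v = v (some none) * dArg Lam (wC x) 1 + v none * dArg Lam (wC x) Complex.I := by
  have d : HasFDerivAt (PhiA (V := V)) ((fderiv ℝ Lam (wC x)).comp (wL V)) x :=
    ((Lam_smooth.differentiable (by simp) (wC x)).hasFDerivAt).comp x (wC_fderiv x)
  have e : dArg PhiA x v = dArg Lam (wC x) (wL V v) := by
    unfold dArg
    rw [d.fderiv]
    rfl
  have a : (wL V v).re = v (some none) := by simp [wL]
  have b : (wL V v).im = v none := by simp [wL]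
  rw [e, dArg_eq, dArg_eq, dArg_eq, a, b]
  simp only [Complex.one_re, Complex.one_im, Complex.I_re, Complex.I_im]
  ring

/-- on the top strip the angle determines `w₁` -/
theorem tau_of_angle {x : Sp (KA V)} (hx : |x (some none) - 1| ≤ 4 * eta) {t : ℝ}
    (ht : t ∈ Icc (3 / 4 : ℝ) (9 / 4)) (k : ℤ) {a : ℝ} (ha : a = ang t + 2 * Real.pi * k)
    (h : PhiA x = ‖PhiA x‖ * Complex.exp (a * Complex.I)) : x none = t := by
  obtain ⟨p, q⟩ := strip hx
  have h₁ := congrArg Complex.re h
  have h₂ := congrArg Complex.im h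
  rw [Complex.re_ofReal_mul, Complex.exp_ofReal_mul_I_re, ha, mul_comm (2 * Real.pi),
    Real.cos_add_int_mul_two_pi, ang, Real.cos_arctan] at h₁
  rw [Complex.im_ofReal_mul, Complex.exp_ofReal_mul_I_im, ha, mul_comm (2 * Real.pi),
    Real.sin_add_int_mul_two_pi, ang, Real.sin_arctan] at h₂
  have e : (PhiA x).im = (PhiA x).re * (2 * t - 3) := by rw [h₁, h₂]; ring
  rw [PhiA, Lam_re, im_eq] at e
  have u : psi0 (t - 3 / 2) = t - 3 / 2 := psi0_id (abs_le.2 ⟨by linarith only [ht, ht.1], by linarith only [ht, ht.2]⟩)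
  have : (wC x).im = t - 3 / 2 := (strictMono_b (wC x).re).injective (by
    rw [e, u, q]
    ring)
  rw [wC_im] at this
  linarith only [this]

theorem angle_of_tau {x : Sp (KA V)} (hx : |x (some none) - 1| ≤ 4 * eta)
    (ht : x none ∈ Icc (3 / 4 : ℝ) (9 / 4)) :
    PhiA x ≠ 0 ∧ PhiA x = ‖PhiA x‖ * Complex.exp (ang (x none) * Complex.I) := by
  obtain ⟨p, q⟩ := strip hx
  refine ⟨PhiA_ne.2 fun e => by simp [e] at p, polar p (Lam_re _) ?_⟩
  rw [PhiA, im_eq, q, wC_im, psi0_id (abs_le.2 ⟨by linarith only [ht, ht.1], by linarith only [ht, ht.2]⟩)]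
  ring

theorem angle_eq {x : Sp (KA V)} (hx : |x (some none) - 1| ≤ 4 * eta)
    (ht : x none ∈ Icc (3 / 4 : ℝ) (9 / 4)) {a : ℝ}
    (h : PhiA x = ‖PhiA x‖ * Complex.exp (a * Complex.I)) :
    ∃ k : ℤ, a = ang (x none) + 2 * Real.pi * k := by
  obtain ⟨n, e⟩ := angle_of_tau hx ht
  have := mul_left_cancel₀ (Complex.ofReal_ne_zero.2 (norm_ne_zero_iff.2 n)) (h.symm.trans e)
  obtain ⟨k, hk⟩ := Complex.exp_eq_exp_iff_exists_int.1 this
  refine ⟨k, ?_⟩
  have := congrArg Complex.im hk
  simp at this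
  linarith only [this]

end SpunKnot
end
end

-- merged part: Pool.Agent.Work.MP_e1e788_gt.RingB
section
/-! The angle has no critical point on the levels of the plain ring. -/

open Set Filter Topology

noncomputable section
namespace SpunKnot
variable {V : Type} [Fintype V] [LinearOrder V]

namespace RingBAux

/-- the cells of the boundary of the rectangle -/
def Rg (m₁ m₂ : ℤ) : Prop :=
  0 ≤ m₁ ∧ m₁ ≤ 6 ∧ 0 ≤ m₂ ∧ m₂ ≤ 2 ∧ (m₁ = 0 ∨ m₁ = 6 ∨ m₂ = 0 ∨ m₂ = 2)

open Classical in
theorem mem_plain (K : Comb V) (c : KA V → ℤ) : c ∈ K.plain ↔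
    (fun j => c (some (some j))) ∈
      if Rg (c none) (c (some none)) then ycx K.b (at0 K.N₀) else baseY V := by
  unfold Comb.plain ringOf side slice
  simp only [stack, mem_setOf_eq]
  by_cases h : Rg (c none) (c (some none))
  · rw [if_pos h]
    unfold Rg at h
    split_ifs with h1 h2
    · simp only [mem_setOf_eq]
      rw [if_pos (by omega)]
    · simp only [mem_setOf_eq]
      split_ifs with h3 h4
      · rfl
      · rfl
      · omega
    · omega
  · rw [if_neg h]
    unfold Rg at h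
    split_ifs with h1 h2
    · simp only [mem_setOf_eq]
      rw [if_neg (by omega)]
    · simp only [mem_setOf_eq]
      rw [if_neg (by omega), if_neg (by omega)]
    · rfl

theorem plain_congr (K : Comb V) {c c' : KA V → ℤ}
    (h : Rg (c none) (c (some none)) ↔ Rg (c' none) (c' (some none)))
    (e : ∀ j, c (some (some j)) = c' (some (some j))) : c ∈ K.plain ↔ c' ∈ K.plain := by
  rw [mem_plain, mem_plain, funext e]
  by_cases k : Rg (c none) (c (some none))
  · rw [if_pos k, if_pos (h.1 k)]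
  · rw [if_neg k, if_neg fun k' => k (h.2 k')]

theorem indep1 (K : Comb V) {x : Sp (KA V)}
    (h : ∀ m, m = 2 * round (x (some none)) ∨ m = 2 * round (x (some none)) + sg (x (some none)) →
      (Rg (2 * round (x none) + sg (x none)) m ↔ Rg (2 * round (x none)) m)) :
    fderiv ℝ (hY K.plain) x (EuclideanSpace.single none 1) = 0 := by
  refine hY_partial_zero_of_indep _ fun S _ => plain_congr K ?_ fun j => by simp [acell]
  by_cases m : some none ∈ S
  · simpa [acell, m] using h _ (Or.inr rfl)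
  · simpa [acell, m] using h _ (Or.inl rfl)

theorem indep2 (K : Comb V) {x : Sp (KA V)}
    (h : ∀ m, m = 2 * round (x none) ∨ m = 2 * round (x none) + sg (x none) →
      (Rg m (2 * round (x (some none)) + sg (x (some none))) ↔
        Rg m (2 * round (x (some none))))) :
    fderiv ℝ (hY K.plain) x (EuclideanSpace.single (some none) 1) = 0 := by
  refine hY_partial_zero_of_indep _ fun S _ => plain_congr K ?_ fun j => by simp [acell]
  by_cases m : none ∈ S
  · simpa [acell, m] using h _ (Or.inr rfl)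
  · simpa [acell, m] using h _ (Or.inl rfl)

theorem near {κ : Type*} [Fintype κ] [DecidableEq κ] {Y : Set (κ → ℤ)} {x : Sp κ} {j : κ}
    (h : fderiv ℝ (hY Y) x (EuclideanSpace.single j 1) ≠ 0) :
    -(1 / 50) < x j - (round (x j) : ℤ) ∧ x j - (round (x j) : ℤ) < 1 / 50 := by
  have h1 : tt (x j) ≠ 1 := fun e => h (hY_partial_zero_of_pure Y (Or.inr e))
  rw [tt, Ne, stp_eq_one_iff, not_le] at h1
  exact abs_lt.1 (h1.trans_le (by linarith only [eta_le]))

theorem dArg_lin (w : ℂ) :
    dArg Lam w (Complex.I * w) = w.re * dArg Lam w Complex.I - w.im * dArg Lam w 1 := by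
  have e : Complex.I * w = w.re • Complex.I - w.im • (1 : ℂ) := by
    apply Complex.ext <;> simp
  unfold dArg
  rw [e, map_sub, map_smul, map_smul]
  simp
  ring

theorem cross (K : Comb V) {x : Sp (KA V)}
    (h : fderiv ℝ (hY K.plain) x (EuclideanSpace.single none 1) ≠ 0 ∨
      fderiv ℝ (hY K.plain) x (EuclideanSpace.single (some none) 1) ≠ 0) :
    fderiv ℝ (hY K.plain) x (EuclideanSpace.single none 1) * dArg Lam (wC x) 1 -
      fderiv ℝ (hY K.plain) x (EuclideanSpace.single (some none) 1) *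
        dArg Lam (wC x) Complex.I ≠ 0 := by
  have re : (wC x).re = x (some none) - 1 / 2 := by simp [wC]
  have im : (wC x).im = x none - 3 / 2 := by simp [wC]
  have i1 := indep1 K (x := x)
  have i2 := indep2 K (x := x)
  have n1 := near (Y := K.plain) (x := x) (j := none)
  have n2 := near (Y := K.plain) (x := x) (j := some none)
  have s1 := hY_partial_nonneg K.closed_plain x none
  have s2 := hY_partial_nonneg K.closed_plain x (some none)
  have c1 := GridAAux.sg_cases (x none)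
  have c2 := GridAAux.sg_cases (x (some none))
  generalize fderiv ℝ (hY K.plain) x (EuclideanSpace.single none 1) = g₁ at *
  generalize fderiv ℝ (hY K.plain) x (EuclideanSpace.single (some none) 1) = g₂ at *
  generalize round (x none) = i at *
  generalize round (x (some none)) = j at *
  generalize sg (x none) = σ₁ at *
  generalize sg (x (some none)) = σ₂ at *
  unfold Rg at i1 i2
  by_cases h1 : g₁ = 0
  · have h2 : g₂ ≠ 0 := h.resolve_left (not_not.2 h1)
    obtain ⟨c, hc, e⟩ := Lam_dI (wC x)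
    rw [h1, e, re, zero_mul, zero_sub, neg_ne_zero]
    refine mul_ne_zero h2 (mul_ne_zero hc.ne' fun e' => ?_)
    obtain ⟨a, b⟩ := n2 h2
    rcases le_or_gt j 0 with k | k
    · have : (j : ℝ) ≤ 0 := by exact_mod_cast k
      linarith only [e', b, this]
    · have : (1 : ℝ) ≤ j := by exact_mod_cast k
      linarith only [e', a, this]
  have hi : i = 0 ∨ i = 3 := by
    by_contra k
    exact h1 (i1 fun m _ => by omega)
  obtain ⟨a1, b1⟩ := n1 h1
  have far : 5 / 4 < |(wC x).im| := by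
    rw [im, lt_abs]
    rcases hi with rfl | rfl
    · right
      push_cast at a1 b1
      linarith only [b1]
    · left
      push_cast at a1 b1
      linarith only [a1]
  rw [Lam_far far, Lam_far far, re, im]
  simp only [Complex.one_im, Complex.one_re, Complex.I_im, Complex.I_re, mul_zero, mul_one,
    zero_sub, sub_zero]
  by_cases h2 : g₂ = 0
  · rw [h2, zero_mul, sub_zero, ← im]
    refine mul_ne_zero h1 (neg_ne_zero.2 fun e => ?_)
    rw [e, abs_zero] at far
    linarith only [far]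
  have hj : j = 0 ∨ j = 1 := by
    by_contra k
    exact h2 (i2 fun m _ => by omega)
  obtain ⟨a2, b2⟩ := n2 h2
  have p1 : 0 < (σ₁ : ℝ) * g₁ := s1.lt_of_ne' (mul_ne_zero (by
    rcases c1 with rfl | rfl <;> norm_num) h1)
  have p2 : 0 < (σ₂ : ℝ) * g₂ := s2.lt_of_ne' (mul_ne_zero (by
    rcases c2 with rfl | rfl <;> norm_num) h2)
  rcases hi with rfl | rfl <;> rcases hj with rfl | rfl <;> rcases c1 with rfl | rfl <;>
    rcases c2 with rfl | rfl <;>
    first
    | exact absurd (i1 fun m _ => by omega) h1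
    | exact absurd (i2 fun m _ => by omega) h2
    | (push_cast at a1 b1 a2 b2 p1 p2
       intro e
       linarith only [p1, p2, e, b1, b2, a2, a1, mul_pos_of_neg_of_neg (Mathlib.Tactic.Linarith.sub_neg_of_lt b1) (Mathlib.Tactic.Linarith.sub_neg_of_lt p1), mul_pos_of_neg_of_neg (Mathlib.Tactic.Linarith.sub_neg_of_lt b2) (Mathlib.Tactic.Linarith.sub_neg_of_lt p2), mul_pos_of_neg_of_neg (Mathlib.Tactic.Linarith.sub_neg_of_lt a2) (Mathlib.Tactic.Linarith.sub_neg_of_lt p2), mul_pos_of_neg_of_neg (Mathlib.Tactic.Linarith.sub_neg_of_lt a1) (Mathlib.Tactic.Linarith.sub_neg_of_lt p1)])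

end RingBAux

open RingBAux in
theorem Comb.plain_arg (K : Comb V) {x : Sp (KA V)} (h0 : 0 < hY K.plain x)
    (h1 : hY K.plain x < 1) (hw : wC x ≠ 0) :
    ∃ v, fderiv ℝ (hY K.plain) x v = 0 ∧ 0 < dArg PhiA x v := by
  suffices h : ∃ v, fderiv ℝ (hY K.plain) x v = 0 ∧ dArg PhiA x v ≠ 0 by
    obtain ⟨v, a, b⟩ := h
    rcases b.lt_or_gt with b | b
    · refine ⟨-v, by rw [map_neg, a, neg_zero], ?_⟩
      rw [dArg_PhiA] at b ⊢
      simp only [PiLp.neg_apply]
      linarith
    · exact ⟨v, a, b⟩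
  by_cases h : fderiv ℝ (hY K.plain) x (EuclideanSpace.single none 1) ≠ 0 ∨
      fderiv ℝ (hY K.plain) x (EuclideanSpace.single (some none) 1) ≠ 0
  · refine ⟨fderiv ℝ (hY K.plain) x (EuclideanSpace.single none 1) •
        EuclideanSpace.single (some none) 1 -
      fderiv ℝ (hY K.plain) x (EuclideanSpace.single (some none) 1) •
        EuclideanSpace.single none 1, ?_, ?_⟩
    · rw [map_sub, map_smul, map_smul, smul_eq_mul, smul_eq_mul]
      ring
    · rw [dArg_PhiA]
      have := cross K h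
      simpa [sub_eq_add_neg] using this
  · push Not at h
    have a := Lam_ang hw
    rw [dArg_lin] at a
    by_cases e : dArg Lam (wC x) 1 = 0
    · refine ⟨_, h.1, ?_⟩
      rw [dArg_PhiA]
      simp only [EuclideanSpace.single_apply, e, mul_zero, zero_add, if_true, one_mul]
      intro e'
      rw [e, e'] at a
      simp at a
    · refine ⟨_, h.2, ?_⟩
      rw [dArg_PhiA]
      simpa using e

end SpunKnot
end
end

-- merged part: Pool.Agent.Work.MP_e1e788_gt.LabA
section
/-! The local systems are cocycles. -/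

open Set Filter Topology

noncomputable section
namespace SpunKnot
variable {V : Type} [Fintype V] [LinearOrder V]

theorem pw3_succ (k : ℤ) : pw3 (k + 1) = 3 * pw3 k := by
  unfold pw3
  have h : k % 4 = 0 ∧ (k + 1) % 4 = 1 ∨ k % 4 = 1 ∧ (k + 1) % 4 = 2 ∨
      k % 4 = 2 ∧ (k + 1) % 4 = 3 ∨ k % 4 = 3 ∧ (k + 1) % 4 = 0 := by omega
  rcases h with ⟨a, b⟩ | ⟨a, b⟩ | ⟨a, b⟩ | ⟨a, b⟩ <;> rw [a, b] <;> decide
theorem pw3_zero : pw3 0 = 1 := by decide

namespace LabAAux

/-- the real number `t` is close to the cell `c` -/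
def Nr (t : ℝ) (c : ℤ) : Prop :=
  (Even c ∧ |t - (c : ℝ) / 2| < 1 / 50) ∨ (Odd c ∧ |t - (c : ℝ) / 2| < 1 / 2)

theorem nr_mcell {κ : Type*} [Fintype κ] [DecidableEq κ] (x : Sp κ) (j : κ) :
    Nr (x j) (mcell x j) := by
  have h := (active_mcell x).near j
  have e1 := eta_le
  have e0 := eta_pos
  by_cases hj : j ∈ Finset.univ.filter fun j => tt (x j) = 1
  · refine .inr ⟨?_, (h.2 hj).trans (by linarith only [e0])⟩
    unfold mcell acell
    rw [if_pos hj]
    rcases GridAAux.sg_cases (x j) with e | e <;> rw [e]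
    · exact ⟨_, rfl⟩
    · exact ⟨round (x j) - 1, by ring⟩
  · refine .inl ⟨?_, (h.1 hj).trans_le (by linarith only [e1])⟩
    unfold mcell acell
    rw [if_neg hj]
    exact ⟨round (x j), by ring⟩

theorem Nr.lo {t : ℝ} {c : ℤ} (h : Nr t c) (a : ℤ) (e : c ≤ 2 * a) : t < a + 1 / 50 := by
  rcases h with ⟨-, h⟩ | ⟨⟨k, hk⟩, h⟩
  · have : (c : ℝ) ≤ 2 * a := by exact_mod_cast e
    linarith only [this, h, (abs_lt.1 h).2]
  · have : (c : ℝ) + 1 ≤ 2 * a := by exact_mod_cast (by omega : c + 1 ≤ 2 * a)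
    linarith only [this, h, (abs_lt.1 h).2]

theorem Nr.hi {t : ℝ} {c : ℤ} (h : Nr t c) (a : ℤ) (e : 2 * a ≤ c) : a - 1 / 50 < t := by
  rcases h with ⟨-, h⟩ | ⟨⟨k, hk⟩, h⟩
  · have : (2 * a : ℝ) ≤ c := by exact_mod_cast e
    linarith only [this, h, (abs_lt.1 h).1]
  · have : (2 * a : ℝ) + 1 ≤ c := by exact_mod_cast (by omega : 2 * a + 1 ≤ c)
    linarith only [this, h, (abs_lt.1 h).1]

theorem Nr.ge {t : ℝ} {c : ℤ} (h : Nr t c) (a : ℤ) (e : (a : ℝ) + 1 / 3 ≤ t) : 2 * a + 1 ≤ c := by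
  by_contra hc
  linarith only [e, h, hc, h.lo a (by omega)]

theorem Nr.le {t : ℝ} {c : ℤ} (h : Nr t c) (a : ℤ) (e : t ≤ (a : ℝ) + 2 / 3) : c ≤ 2 * a + 1 := by
  by_contra hc
  have := h.hi (a + 1) (by omega)
  push_cast at this
  linarith only [e, this]

theorem Nr.lev {t : ℝ} {c : ℤ} (h : Nr t c) {i : ℤ} (e : |t - i| ≤ 2 / 3) :
    2 * i - 1 ≤ c ∧ c ≤ 2 * i + 1 := by
  obtain ⟨a, b⟩ := abs_le.1 e
  refine ⟨?_, h.le i (by linarith only [b])⟩
  have := h.ge (i - 1) (by push_cast; linarith only [a])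
  omega

/-- the simplex of a cell -/
def sup (c : KY V → ℤ) : Finset V := Finset.univ.filter fun v => c (some (some v)) ≠ 0

omit [LinearOrder V] in
theorem mem_sup_iff {c : KY V → ℤ} {v : V} : v ∈ sup c ↔ c (some (some v)) ≠ 0 := by simp [sup]

theorem ycx_cell {b : V} {P : ℤ → Set (Finset V)} (hb : {b} ∈ P 0) {c : KY V → ℤ}
    (h : c ∈ ycx b P) (h0 : 1 ≤ c none) :
    sup c ∈ P (c (some none)) ∧ (∃ v, c (some (some v)) = 2) ∧ (c none = 1 → sup c = {b}) := by
  have hc : (fun j => c (some j)) ∈ (if c none ≤ 0 then (univ : Set (KZ V → ℤ)) else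
      if c none = 1 then {ptb b} else if c none = 2 then zcx P else ∅) := h
  rw [if_neg (by omega)] at hc
  split_ifs at hc with h1 h2
  · have he : ∀ j, c (some j) = ptb b j := fun j => congrFun (mem_singleton_iff.1 hc) j
    have hs : sup c = {b} := by
      ext v
      rw [mem_sup_iff, he]
      simp [ptb]
    have hz : c (some none) = 0 := by rw [he]; simp [ptb]
    exact ⟨by rwa [hs, hz], ⟨b, by rw [he]; simp [ptb]⟩, fun _ => hs⟩
  · have hc' : (fun v => c (some (some v))) ∈ cub (P (c (some none))) := hc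
    exact ⟨hc'.2.2, hc'.2.1, fun e => absurd e h1⟩
  · exact absurd hc (notMem_empty _)

omit [Fintype V] [LinearOrder V] in
theorem at0_mem {L : Set (Finset V)} {n : ℤ} {σ : Finset V} (h : σ ∈ at0 L n) : n = 0 ∧ σ ∈ L := by
  unfold at0 at h
  split_ifs at h with e
  · exact ⟨e, h⟩
  · exact absurd h (notMem_empty _)

omit [Fintype V] [LinearOrder V] in
/-- the abstract cocycle argument -/
theorem coc_abs {Λ : Type} (val : Λ → V → V → ZMod 5) (vt : Λ → V)
    (G : Option Λ → Option Λ → R5)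
    (g₁ : ∀ l l', G (some l) (some l') = R5.xp (val l (vt l) (vt l'))) (g₂ : ∀ l, G none l = 1)
    (g₃ : ∀ l, G l none = 1) (P : Option Λ → Prop) (σ : Finset V)
    (h₁ : ∀ l, P (some l) → vt l ∈ σ)
    (h₂ : ∀ l, P (some l) → ∀ a ∈ σ, ∀ b ∈ σ, ∀ c ∈ σ, val l a b + val l b c = val l a c)
    (h₃ : ∀ l l', P (some l) → P (some l') → ∀ a ∈ σ, ∀ b ∈ σ, val l a b = val l' a b)
    (h₄ : P none → ∀ l, P (some l) → ∃ b, σ = {b}) (l l' l'' : Option Λ) (p : P l) (p' : P l')
    (p'' : P l'') : G l l' * G l' l'' = G l l'' := by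
  have one : P none → ∀ l l', P l → P l' → G l l' = 1 := by
    intro hn l l' p p'
    rcases l with _ | l
    · exact g₂ _
    rcases l' with _ | l'
    · exact g₃ _
    obtain ⟨b, e⟩ := h₄ hn l p
    have a₁ := h₁ l p
    have a₂ := h₁ l' p'
    have a₃ := h₂ l p _ a₁ _ a₁ _ a₁
    rw [e, Finset.mem_singleton] at a₁ a₂
    rw [g₁, a₂, ← a₁, add_eq_left.1 a₃, R5.xp_zero]
  rcases l with _ | l
  · rw [one p _ _ p p', one p _ _ p' p'', one p _ _ p p'', one_mul]
  rcases l' with _ | l'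
  · rw [one p' _ _ p p', one p' _ _ p' p'', one p' _ _ p p'', one_mul]
  rcases l'' with _ | l''
  · rw [one p'' _ _ p p', one p'' _ _ p' p'', one p'' _ _ p p'', one_mul]
  rw [g₁, g₁, g₁, ← R5.xp_add, ← h₃ l l' p p' _ (h₁ _ p') _ (h₁ _ p''),
    h₂ l p _ (h₁ _ p) _ (h₁ _ p') _ (h₁ _ p'')]

variable (K : Comb V)

theorem cL_flat {σ : Finset V} {n i : ℤ} (h : σ ∈ K.P₃ n) (e : 2 * i - 1 ≤ n ∧ n ≤ 2 * i + 1) :
    ∀ a ∈ σ, ∀ b ∈ σ, ∀ c ∈ σ, K.cL i a b + K.cL i b c = K.cL i a c := by
  refine K.flatL i σ ?_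
  have h3 : n = 2 * i - 1 ∨ n = 2 * i ∨ n = 2 * i + 1 := by omega
  rcases h3 with rfl | rfl | rfl
  · have := (K.tow₃.2 (2 * i - 1) ⟨i - 1, by ring⟩).1 h
    rwa [sub_add_cancel] at this
  · exact h
  · have := (K.tow₃.2 (2 * i + 1) ⟨i, rfl⟩).2 h
    rwa [add_sub_cancel_right] at this

theorem cL_agree {σ : Finset V} {n i i' : ℤ} (h : σ ∈ K.P₃ n) (e : 2 * i - 1 ≤ n ∧ n ≤ 2 * i + 1)
    (e' : 2 * i' - 1 ≤ n ∧ n ≤ 2 * i' + 1) : ∀ a ∈ σ, ∀ b ∈ σ, K.cL i a b = K.cL i' a b := by
  have h3 : i' = i ∨ (i' = i + 1 ∧ n = 2 * i + 1) ∨ (i = i' + 1 ∧ n = 2 * i' + 1) := by omega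
  rcases h3 with rfl | ⟨rfl, rfl⟩ | ⟨rfl, rfl⟩
  · exact fun _ _ _ _ => rfl
  · exact K.agreeL i σ h
  · exact fun a ha b hb => (K.agreeL i' σ h a ha b hb).symm

theorem Z_sub : K.Z₁ ⊆ K.P₃ 0 := K.sub₁.trans (K.sub₂ 0)

theorem slice_cell {c : KS V → ℤ} (h : c ∈ K.sl K.P₃) (h0 : 1 ≤ c (some none)) :
    (fun j => c (some j)) ∈ ycx K.b K.P₃ := by
  have hc : (fun j => c (some j)) ∈ (if c none = 2 then ycx K.b K.P₃ else
      if c none = 0 then ycx K.b (at0 K.N₀) else baseY V) := h
  split_ifs at hc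
  · exact hc
  · exact ycx_mono _ (CubAAux.at0_sub (K.toCombCore.subs.1.trans (Z_sub K))) hc
  · have : c (some none) ≤ 0 := hc
    omega

theorem slice_pt {y : Sp (KS V)} (hy : y ∈ K.labS.Y) (h0 : 1 / 3 ≤ y (some none)) :
    sup (fun j => mcell y (some j)) ∈ K.P₃ (mcell y (some (some none))) ∧
      (∃ v, mcell y (jS v) = 2) ∧
      (mcell y (some none) = 1 → sup (fun j => mcell y (some j)) = {K.b}) := by
  have hb := K.toCombCore.b_mem.1
  have hb3 : {K.b} ∈ K.P₃ 0 := Z_sub K (K.toCombCore.subs.1 hb)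
  have hc : mcell y ∈ K.sl K.P₃ := (hY_lt_one_iff (closed_slice K.tow₃ hb3 K.low₀ hb)).1 hy
  have h1 : 1 ≤ mcell y (some none) := by
    simpa using (nr_mcell y (some none)).ge 0 (by simpa using h0)
  exact ycx_cell hb3 (slice_cell K hc h1) h1

/-- what is needed about a cell of the ring outside the half space -/
structure RC (K : Comb V) (m₁ m₂ : ℤ) (c : KY V → ℤ) : Prop where
  left : m₁ ≤ 3 → sup c ∈ K.P₃ (c (some none))
  right : 3 ≤ m₁ → c (some none) = 0 ∧ sup c ∈ K.Cy
  mid : m₁ = 3 → (m₂ = 2 ∧ sup c ∈ K.N₁) ∨ (m₂ = 0 ∧ sup c ∈ K.N₀)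
  edge : m₂ = 1 → m₁ = 0 ∨ m₁ = 6
  two : ∃ v, c (some (some v)) = 2
  one : c none = 1 → sup c = {K.b}

theorem ring_cell {c : KA V → ℤ} (h : c ∈ K.ring) (h0 : 1 ≤ c (some (some none))) :
    RC K (c none) (c (some none)) fun j => c (some (some j)) := by
  obtain ⟨b₀, b₁⟩ := K.toCombCore.b_mem
  obtain ⟨s₀, s₁, s₂, s₃⟩ := K.toCombCore.subs
  have hZ := Z_sub K
  have base : ∀ {m₁ m₂ : ℤ} {d : KY V → ℤ}, d ∈ ycx K.b (at0 K.N₀) → 1 ≤ d none →
      (m₁ = 3 → m₂ = 0) → (m₂ = 1 → m₁ = 0 ∨ m₁ = 6) → RC K m₁ m₂ d := by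
    intro m₁ m₂ d hd h1 e e'
    obtain ⟨a, b, c⟩ := ycx_cell (P := at0 K.N₀) b₀ hd h1
    obtain ⟨z, a⟩ := at0_mem a
    exact ⟨fun _ => z ▸ hZ (s₀ a), fun _ => ⟨z, s₂ a⟩, fun m => .inr ⟨e m, a⟩, e', b, c⟩
  have nb : (fun j => c (some (some j))) ∉ baseY V := fun e => by
    have : c (some (some none)) ≤ 0 := e
    omega
  have hc : (fun j => c (some j)) ∈ (if c none = 0 ∨ c none = 6 then side K.b K.N₀ else
      if 1 ≤ c none ∧ c none ≤ 5 then slice K.b (K.top K.P₃ (c none)) K.N₀ else baseS V) := h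
  split_ifs at hc with h1 h2
  · have hc' : (fun j => c (some (some j))) ∈ (if 0 ≤ c (some none) ∧ c (some none) ≤ 2 then
        ycx K.b (at0 K.N₀) else baseY V) := hc
    split_ifs at hc'
    · exact base hc' h0 (by omega) fun _ => h1
    · exact absurd hc' nb
  · have hc' : (fun j => c (some (some j))) ∈ (if c (some none) = 2 then
        ycx K.b (K.top K.P₃ (c none)) else if c (some none) = 0 then ycx K.b (at0 K.N₀)
        else baseY V) := hc
    split_ifs at hc' with h3 h4
    · unfold Comb.top at hc'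
      split_ifs at hc' with h5 h6 h7
      · obtain ⟨a, b, d⟩ := ycx_cell (hZ (s₀ b₀)) hc' h0
        exact ⟨fun _ => a, by omega, by omega, by omega, b, d⟩
      · obtain ⟨a, b, d⟩ := ycx_cell (P := at0 K.N₁) b₁ hc' h0
        obtain ⟨z, a⟩ := at0_mem a
        exact ⟨fun _ => z ▸ hZ (s₁ a), fun _ => ⟨z, s₃ a⟩, fun _ => .inl ⟨h3, a⟩, by omega, b, d⟩
      · obtain ⟨a, b, d⟩ := ycx_cell (P := at0 K.Cy) (s₂ b₀) hc' h0
        obtain ⟨z, a⟩ := at0_mem a
        exact ⟨by omega, fun _ => ⟨z, a⟩, by omega, by omega, b, d⟩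
      · exact base hc' h0 (by omega) (by omega)
    · exact base hc' h0 (fun _ => h4) (by omega)
    · exact absurd hc' nb
  · have : c (some (some none)) ≤ 0 := hc
    omega

theorem ring_pt {x : Sp (KA V)} (hx : hY K.ring x < 1) (h0 : 1 / 3 ≤ x (some (some none))) :
    RC K (mcell x none) (mcell x (some none)) fun j => mcell x (some (some j)) :=
  ring_cell K ((hY_lt_one_iff K.closed_ring).1 hx)
    (by simpa using (nr_mcell x (some (some none))).ge 0 (by simpa using h0))

theorem sheet_eq {a lo : ℝ} {k k' : ℤ} (h : a - 2 * Real.pi * k ∈ Ioo lo (lo + 2 * Real.pi))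
    (h' : a - 2 * Real.pi * k' ∈ Ioo lo (lo + 2 * Real.pi)) : k = k' := by
  have hπ := Real.pi_pos
  have a₁ : (k : ℝ) < k' + 1 := by (refine lt_of_not_ge fun h_nl => ?_; linarith only [h_nl, h, h', hπ, h.1, h'.2, mul_nonneg_of_nonpos_of_nonpos (le_of_lt (Mathlib.Tactic.Linarith.sub_neg_of_lt hπ)) (Mathlib.Tactic.Linarith.sub_nonpos_of_le h_nl)])
  have a₂ : (k' : ℝ) < k + 1 := by nlinarith [h.2, h'.1]
  have b₁ : k < k' + 1 := by exact_mod_cast a₁
  have b₂ : k' < k + 1 := by exact_mod_cast a₂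
  omega

theorem cos_shift (a : ℝ) (k : ℤ) : Real.cos (a - 2 * Real.pi * k) = Real.cos a := by
  rw [mul_comm, Real.cos_sub_int_mul_two_pi]

theorem sin_shift (a : ℝ) (k : ℤ) : Real.sin (a - 2 * Real.pi * k) = Real.sin a := by
  rw [mul_comm, Real.sin_sub_int_mul_two_pi]

omit [Fintype V] [LinearOrder V] in
theorem polar {x : Sp (KA V)} {a : ℝ} (h0 : PhiA x ≠ 0)
    (h : PhiA x = ‖PhiA x‖ * Complex.exp (a * Complex.I)) : ∃ r c : ℝ, 0 < r ∧ 0 < c ∧
      x (some none) - 1 / 2 = r * Real.cos a ∧ c * (x none - 3 / 2) = r * Real.sin a := by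
  obtain ⟨c, hc, e⟩ := Lam_im (wC x)
  refine ⟨‖PhiA x‖, c, norm_pos_iff.2 h0, hc, ?_, ?_⟩
  · have := congrArg Complex.re h
    rw [Complex.re_ofReal_mul, Complex.exp_ofReal_mul_I_re] at this
    rw [← this, PhiA, Lam_re]
    simp [wC]
  · have := congrArg Complex.im h
    rw [Complex.im_ofReal_mul, Complex.exp_ofReal_mul_I_im] at this
    rw [← this, PhiA, e]
    simp [wC]

theorem sheet_top {a : ℝ} {k k' : ℤ} (hc : 0 < Real.cos a)
    (h : a - 2 * Real.pi * k ∈ Ioo (-(3 * Real.pi / 2)) (Real.pi / 2))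
    (h' : a - 2 * Real.pi * k' ∈ Ioo (-(Real.pi / 2)) (3 * Real.pi / 2)) : k = k' := by
  have hπ := Real.pi_pos
  refine sheet_eq (a := a) (lo := -(Real.pi / 2)) ⟨?_, by linarith only [hπ, h, h.2]⟩ ⟨h'.1, by linarith only [h', h'.2]⟩
  by_contra hn
  have := Real.cos_nonpos_of_pi_div_two_le_of_le (x := -(a - 2 * Real.pi * k)) (by linarith only [hn])
    (by linarith only [h, h.1])
  rw [Real.cos_neg, cos_shift] at this
  linarith

theorem sheet_bot {a : ℝ} {k k' : ℤ} (hc : Real.cos a < 0)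
    (h : a - 2 * Real.pi * k ∈ Ioo (-(3 * Real.pi / 2)) (Real.pi / 2))
    (h' : a - 2 * Real.pi * k' ∈ Ioo (-(Real.pi / 2)) (3 * Real.pi / 2)) : k = k' + 1 := by
  have hπ := Real.pi_pos
  refine sheet_eq (a := a) (lo := -(3 * Real.pi / 2)) ⟨h.1, by linarith only [h, h.2]⟩ ⟨?_, ?_⟩
  · push_cast
    by_contra hn
    have := Real.cos_nonneg_of_mem_Icc (x := a - 2 * Real.pi * k') ⟨h'.1.le, by linarith only [hn]⟩
    rw [cos_shift] at this
    linarith
  · push_cast
    linarith only [hπ, h', h'.2]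

theorem cont_co {κ : Type*} [Fintype κ] (j : κ) : Continuous fun y : Sp κ => y j := by
  fun_prop

theorem cont_pt {E : Type*} [NormedAddCommGroup E] : Continuous fun p : Lft E => p.pt :=
  continuous_fst.comp (WithLp.prod_continuous_ofLp 2 E ℝ)

theorem cont_ang {E : Type*} [NormedAddCommGroup E] : Continuous fun p : Lft E => p.ang :=
  continuous_snd.comp (WithLp.prod_continuous_ofLp 2 E ℝ)

theorem ev_le {Ω : Type*} [TopologicalSpace Ω] {f g : Ω → ℝ} (hf : Continuous f)
    (hg : Continuous g) {x : Ω} (h : f x < g x) : ∀ᶠ y in 𝓝 x, f y ≤ g y :=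
  (hf.continuousAt.eventually_lt hg.continuousAt h).mono fun _ => le_of_lt

theorem ev_round {Ω : Type*} [TopologicalSpace Ω] {f : Ω → ℝ} (hf : Continuous f) (x : Ω) :
    ∀ᶠ y in 𝓝 x, |f y - round (f x)| ≤ 2 / 3 :=
  ev_le (f := fun y => |f y - round (f x)|) (hf.sub continuous_const).abs continuous_const
    ((abs_sub_round (f x)).trans_lt (by norm_num))

theorem ex_ioc (lo a : ℝ) : ∃ k : ℤ, a - 2 * Real.pi * k ∈ Ioc lo (lo + 2 * Real.pi) := by
  have two : 0 < 2 * Real.pi := by linarith [Real.pi_pos]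
  refine ⟨toIocDiv two lo a, ?_⟩
  have m := sub_toIocDiv_zsmul_mem_Ioc two lo a
  rwa [zsmul_eq_mul, mul_comm (toIocDiv two lo a : ℝ)] at m

theorem ex_ico (lo a : ℝ) : ∃ k : ℤ, a - 2 * Real.pi * k ∈ Ico lo (lo + 2 * Real.pi) := by
  have two : 0 < 2 * Real.pi := by linarith [Real.pi_pos]
  refine ⟨toIcoDiv two lo a, ?_⟩
  have m := sub_toIcoDiv_zsmul_mem_Ico two lo a
  rwa [zsmul_eq_mul, mul_comm (toIcoDiv two lo a : ℝ)] at m

end LabAAux

open LabAAux

namespace Comb
variable (K : Comb V)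
theorem labS_good : K.labS.Good := by
  refine ⟨fun l l' => ?_, fun l l' l'' y hy => ?_, fun y hy => ?_⟩
  · rcases l with _ | ⟨v, i⟩ <;> rcases l' with _ | ⟨v', i'⟩ <;>
      first | exact R5.xp_unit _ | exact R5.xp_unit 0
  · refine coc_abs (fun l : V × ℤ => K.cL l.2) (fun l => l.1) K.labS.G (fun _ _ => rfl)
      (fun _ => rfl) (fun l => by rcases l with _ | _ <;> rfl) (fun l => y ∈ K.labS.O l)
      (sup fun j => mcell y (some j)) ?_ ?_ ?_ ?_ l l' l''
    · rintro ⟨v, i⟩ ⟨-, h, -⟩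
      have := (nr_mcell y (jS v)).ge 0 (by simpa using h)
      rw [mem_sup_iff]
      change mcell y (jS v) ≠ 0
      omega
    · rintro ⟨v, i⟩ ⟨h, -, h'⟩
      exact cL_flat K (slice_pt K hy h).1 ((nr_mcell y _).lev h')
    · rintro ⟨v, i⟩ ⟨v', i'⟩ ⟨h, -, h'⟩ ⟨-, -, h''⟩
      exact cL_agree K (slice_pt K hy h).1 ((nr_mcell y _).lev h') ((nr_mcell y _).lev h'')
    · rintro h ⟨v, i⟩ ⟨h', -⟩
      refine ⟨_, (slice_pt K hy h').2.2 ?_⟩
      have a := (nr_mcell y (some none)).ge 0 (by simpa using h')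
      have b := (nr_mcell y (some none)).le 0 (by simpa using (show y (some none) ≤ 2 / 3 from h))
      omega
  · by_cases h : y (some none) < 2 / 3
    · exact ⟨none, mem_nhdsWithin_of_mem_nhds (ev_le (cont_co _) continuous_const h)⟩
    · have h' : 1 / 3 < y (some none) := by linarith only [h]
      obtain ⟨v, hv⟩ := (slice_pt K hy h'.le).2.1
      have hv' : 1 / 3 < y (jS v) := by
        have := (nr_mcell y (jS v)).hi 1 (by omega)
        push_cast at this
        linarith only [this]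
      refine ⟨some (v, round (y (some (some none)))), mem_nhdsWithin_of_mem_nhds ?_⟩
      exact (ev_le continuous_const (cont_co _) h').and ((ev_le continuous_const (cont_co _) hv').and
        (ev_round (cont_co (some (some none))) y))

theorem labA_good : K.labA.Good := by
  have hπ := Real.pi_pos
  refine ⟨fun l l' => ?_, fun l l' l'' p hp => ?_, fun p hp => ?_⟩
  · rcases l with _ | ⟨v, i, s, k⟩ <;> rcases l' with _ | ⟨v', i'⟩ <;>
      first | exact R5.xp_unit _ | exact R5.xp_unit 0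
  · obtain ⟨hp, h0, hang⟩ := hp
    obtain ⟨r, c, hr, hc, hre, -⟩ := polar h0 hang
    have n₁ := nr_mcell p.pt none
    have n₂ := nr_mcell p.pt (some none)
    have n₃ := nr_mcell p.pt (some (some (some none)))
    have mixed : ∀ v i k v' i' k', p ∈ K.labA.O (some (v, i, false, k)) →
        p ∈ K.labA.O (some (v', i', true, k')) → ∀ a ∈ sup fun j => mcell p.pt (some (some j)),
        ∀ b ∈ sup fun j => mcell p.pt (some (some j)),
        pw3 k * K.cL i a b = pw3 k' * K.cR a b := by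
      rintro v i k v' i' k' ⟨h, -, hz, hw, ha⟩ ⟨-, -, -, hw', ha'⟩ a ma b mb
      have R := ring_pt K hp h
      have m₁ := n₁.le 1 (by push_cast; linarith only [hw])
      have m₂ := n₁.ge 1 (by push_cast; linarith only [hw'])
      have z : mcell p.pt (some (some (some none))) = 0 := (R.right (by omega)).1
      have lev := n₃.lev hz
      have i0 : i = 0 := by omega
      rw [i0, K.cL_zero]
      rcases R.mid (by omega) with ⟨e, m⟩ | ⟨e, m⟩
      · have := n₂.hi 1 (by omega)
        push_cast at this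
        have hcos : 0 < Real.cos p.ang := pos_of_mul_pos_left (b := r) (by linarith only [hre, this]) hr.le
        rw [sheet_top hcos ha ha', K.agree₁ _ m a ma b mb]
      · have := n₂.lo 0 (by omega)
        push_cast at this
        have hcos : Real.cos p.ang < 0 := by
          by_contra hn
          linarith only [hre, this, hr, hn, mul_nonneg hr.le (not_lt.1 hn)]
        rw [sheet_bot hcos ha ha', K.agree₀ _ m a ma b mb, pw3_succ]
        ring
    refine coc_abs (fun (l : V × ℤ × Bool × ℤ) a b =>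
        pw3 l.2.2.2 * if l.2.2.1 then K.cR a b else K.cL l.2.1 a b) (fun l => l.1) K.labA.G
      (fun _ _ => rfl) (fun _ => rfl) (fun l => by rcases l with _ | _ <;> rfl)
      (fun l => p ∈ K.labA.O l) (sup fun j => mcell p.pt (some (some j))) ?_ ?_ ?_ ?_ l l' l''
    · rintro ⟨v, i, s, k⟩ ⟨-, h, -⟩
      have := (nr_mcell p.pt (jA v)).ge 0 (by simpa using h)
      rw [mem_sup_iff]
      change mcell p.pt (jA v) ≠ 0
      omega
    · rintro ⟨v, i, _ | _, k⟩ ⟨h, -, hz, hw, -⟩ a ma b mb d md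
      · have m₁ := n₁.le 1 (by push_cast; linarith only [hw])
        have := cL_flat K ((ring_pt K hp h).left (by omega)) (n₃.lev hz) a ma b mb d md
        simp only [Bool.false_eq_true, if_false]
        rw [← mul_add, this]
      · have m₁ := n₁.ge 1 (by push_cast; linarith only [hw])
        have := K.flatR _ ((ring_pt K hp h).right (by omega)).2 a ma b mb d md
        simp only [if_true]
        rw [← mul_add, this]
    · rintro ⟨v, i, _ | _, k⟩ ⟨v', i', _ | _, k'⟩ q q' a ma b mb <;>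
        simp only [Bool.false_eq_true, if_false, if_true]
      · obtain ⟨h, -, hz, hw, ha⟩ := q
        obtain ⟨-, -, hz', -, ha'⟩ := q'
        have m₁ := n₁.le 1 (by push_cast; linarith only [hw])
        rw [cL_agree K ((ring_pt K hp h).left (by omega)) (n₃.lev hz) (n₃.lev hz') a ma b mb,
          sheet_eq (a := p.ang) (lo := -(3 * Real.pi / 2)) (k := k) (k' := k')
            ⟨ha.1, by linarith only [ha, ha.2]⟩ ⟨ha'.1, by linarith only [ha', ha'.2]⟩]
      · exact mixed _ _ _ _ _ _ q q' a ma b mb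
      · exact (mixed _ _ _ _ _ _ q' q a ma b mb).symm
      · obtain ⟨-, -, -, -, ha⟩ := q
        obtain ⟨-, -, -, -, ha'⟩ := q'
        rw [sheet_eq (a := p.ang) (lo := -(Real.pi / 2)) (k := k) (k' := k')
            ⟨ha.1, by linarith only [ha, ha.2]⟩ ⟨ha'.1, by linarith only [ha', ha'.2]⟩]
    · rintro h ⟨v, i, s, k⟩ ⟨h', -⟩
      refine ⟨_, (ring_pt K hp h').one ?_⟩
      have a := (nr_mcell p.pt (some (some none))).ge 0 (by simpa using h')
      have b := (nr_mcell p.pt (some (some none))).le 0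
        (by simpa using (show p.pt (some (some none)) ≤ 2 / 3 from h))
      change mcell p.pt (some (some none)) = 1
      omega
  · obtain ⟨hp, h0, hang⟩ := hp
    have co : ∀ j, Continuous fun q : Lft (Sp (KA V)) => q.pt j := fun j =>
      (cont_co j).comp cont_pt
    by_cases h : p.pt (some (some none)) < 2 / 3
    · exact ⟨none, mem_nhdsWithin_of_mem_nhds (ev_le (co _) continuous_const h)⟩
    have h' : 1 / 3 < p.pt (some (some none)) := by linarith only [h]
    have R := ring_pt K hp h'.le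
    obtain ⟨v, hv⟩ := R.two
    have hv' : 1 / 3 < p.pt (jA v) := by
      have := (nr_mcell p.pt (jA v)).hi 1 hv.ge
      push_cast at this
      linarith only [this]
    obtain ⟨r, c, hr, hc, hre, him⟩ := polar h0 hang
    have e₁ := ev_le continuous_const (co _) h'
    have e₂ := ev_le continuous_const (co _) hv'
    have e₃ := ev_round (co (some (some (some none)))) p
    have e₄ : ∀ (k : ℤ) (a b : ℝ), p.ang - 2 * Real.pi * k ∈ Ioo a b →
        ∀ᶠ q : Lft (Sp (KA V)) in 𝓝 p, q.ang - 2 * Real.pi * k ∈ Ioo a b := fun k a b m =>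
      (cont_ang.sub continuous_const).continuousAt.eventually (Ioo_mem_nhds m.1 m.2)
    by_cases hw : p.pt none < 5 / 3
    · obtain ⟨k, hk⟩ : ∃ k : ℤ, p.ang - 2 * Real.pi * k ∈
          Ioo (-(3 * Real.pi / 2)) (Real.pi / 2) := by
        obtain ⟨k, m⟩ := ex_ioc (-(3 * Real.pi / 2)) p.ang
        refine ⟨k, m.1, lt_of_le_of_ne (by linarith only [m, m.2]) fun e => ?_⟩
        have c₁ := cos_shift p.ang k
        have c₂ := sin_shift p.ang k
        rw [e] at c₁ c₂
        rw [← c₁, Real.cos_pi_div_two] at hre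
        rw [← c₂, Real.sin_pi_div_two] at him
        have w : 0 < p.pt none - 3 / 2 := pos_of_mul_pos_right (a := c) (by linarith only [hr, him]) hc.le
        have a := (nr_mcell p.pt (some none)).ge 0 (by push_cast; linarith only [hre, hw, w])
        have b := (nr_mcell p.pt (some none)).le 0 (by push_cast; linarith only [hre, hw, w])
        have a' := (nr_mcell p.pt none).ge 1 (by push_cast; linarith only [hw, w])
        have b' := (nr_mcell p.pt none).le 1 (by push_cast; linarith only [hw])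
        have := R.edge (by omega)
        omega
      refine ⟨some (v, round (p.pt (some (some (some none)))), false, k),
        mem_nhdsWithin_of_mem_nhds ?_⟩
      exact e₁.and (e₂.and (e₃.and ((ev_le (co _) continuous_const hw).and (e₄ k _ _ hk))))
    · have hw' : 4 / 3 < p.pt none := by linarith only [hw]
      obtain ⟨k, hk⟩ : ∃ k : ℤ, p.ang - 2 * Real.pi * k ∈
          Ioo (-(Real.pi / 2)) (3 * Real.pi / 2) := by
        obtain ⟨k, m⟩ := ex_ico (-(Real.pi / 2)) p.ang
        refine ⟨k, lt_of_le_of_ne m.1 fun e => ?_, by linarith only [m, m.2]⟩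
        have c₂ := sin_shift p.ang k
        rw [← e, Real.sin_neg, Real.sin_pi_div_two] at c₂
        rw [← c₂] at him
        linarith only [hr, him, hc, hw, mul_pos hc (show 0 < p.pt none - 3 / 2 by linarith)]
      refine ⟨some (v, round (p.pt (some (some (some none)))), true, k),
        mem_nhdsWithin_of_mem_nhds ?_⟩
      exact e₁.and (e₂.and (e₃.and ((ev_le continuous_const (co _) hw').and (e₄ k _ _ hk))))

theorem labA_equivariant : K.labA.Equivariant R5.ph := by
  have hpt : ∀ p : Lft (Sp (KA V)), (deck _ p).pt = p.pt := fun p => by simp [deck, Lft.pt]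
  have hang : ∀ p : Lft (Sp (KA V)), (deck _ p).ang = p.ang + 2 * Real.pi := fun p => by
    simp [deck, Lft.ang]
  have img : ∀ S S' : Set (Lft (Sp (KA V))), (∀ p, deck _ p ∈ S' ↔ p ∈ S) →
      S' = deck _ '' S := fun S S' h => by
    ext q
    obtain ⟨p, rfl⟩ := (deck (Sp (KA V))).surjective q
    rw [h, (deck (Sp (KA V))).injective.mem_set_image]
  refine ⟨Equiv.optionCongr (Equiv.prodCongr (Equiv.refl V) (Equiv.prodCongr (Equiv.refl ℤ)
    (Equiv.prodCongr (Equiv.refl Bool) (Equiv.addRight (1 : ℤ))))), (img _ _ fun p => ?_).symm,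
    fun l => img _ _ fun p => ?_, fun l l' => ?_⟩
  · change (hY K.ring (deck _ p).pt < 1 ∧ PhiA (deck _ p).pt ≠ 0 ∧ PhiA (deck _ p).pt =
      ‖PhiA (deck _ p).pt‖ * Complex.exp ((deck _ p).ang * Complex.I)) ↔ _
    rw [hpt, hang]
    push_cast
    rw [add_mul, Complex.exp_add, Complex.exp_two_pi_mul_I, mul_one]
    rfl
  · rcases l with _ | ⟨v, i, s, k⟩
    · change (deck _ p).pt (some (some none)) ≤ 2 / 3 ↔ _
      rw [hpt]
      rfl
    · change deck _ p ∈ K.labA.O (some (v, i, s, k + 1)) ↔ _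
      have e : p.ang + 2 * Real.pi - 2 * Real.pi * ((k + 1 : ℤ) : ℝ) =
          p.ang - 2 * Real.pi * k := by push_cast; ring
      simp only [labA, mem_ofPred_eq, hpt, hang, e]
  · rcases l with _ | ⟨v, i, s, k⟩
    · exact (map_one R5.ph).symm
    rcases l' with _ | ⟨v', l'⟩
    · exact (map_one R5.ph).symm
    change R5.xp (pw3 (k + 1) * _) = R5.ph (R5.xp (pw3 k * _))
    rw [R5.ph_xp, pw3_succ, mul_assoc]
    rfl

theorem tlab_G (l l' : K.labS.Λ) : K.labA.G (K.tlab l) (K.tlab l') = K.labS.G l l' := by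
  rcases l with _ | ⟨v, i⟩
  · rfl
  rcases l' with _ | ⟨v', i'⟩
  · rfl
  change R5.xp (pw3 0 * K.cL i v v') = R5.xp (K.cL i v v')
  rw [pw3_zero, one_mul]
end Comb

end SpunKnot
end
end

-- merged part: Pool.Agent.Work.MP_e1e788_gt.StarB
section
/-! The torsion norm of the neighbourhood pair is the simplicial one. -/

open Set Filter Topology

noncomputable section
namespace SpunKnot
variable {V : Type} [Fintype V] [LinearOrder V]

namespace StarBAux

section
variable {κ : Type} [Fintype κ] [DecidableEq κ]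

omit [DecidableEq κ] in
theorem isCompact_cube (a b : ℝ) : IsCompact {x : Sp κ | ∀ j, a ≤ x j ∧ x j ≤ b} := by
  have h : IsCompact (Set.pi univ fun _ : κ => Icc a b) :=
    isCompact_univ_pi fun _ => isCompact_Icc
  have h2 := (EuclideanSpace.equiv κ ℝ).toHomeomorph.isCompact_preimage.2 h
  convert h2 using 1
  ext x
  exact ⟨fun h j _ => h j, fun h j => h j (mem_univ j)⟩

theorem near_even {x : Sp κ} {S : Finset κ} (h : Active x S) {j : κ} {i : ℤ}
    (hj : acell x S j = 2 * i) : |x j - i| ≤ 2 * eta := by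
  have hn : j ∉ S := by
    intro hS
    simp only [acell, if_pos hS] at hj
    rcases GridAAux.sg_cases (x j) with e | e <;> rw [e] at hj <;> omega
  have := (h.near j).1 hn
  rw [hj] at this
  have e : ((2 * i : ℤ) : ℝ) / 2 = i := by push_cast; ring
  rw [e] at this
  exact this.le

theorem near_cub {x : Sp κ} {S : Finset κ} (h : Active x S) {j : κ}
    (hj : acell x S j = 0 ∨ acell x S j = 1 ∨ acell x S j = 2) :
    -(2 * eta) ≤ x j ∧ x j ≤ 1 + 2 * eta := by
  have h0 := eta_pos
  have h1 := eta_le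
  rcases hj with e | e | e
  · have := abs_le.1 (near_even h (i := 0) (by simpa using e))
    simp only [Int.cast_zero, sub_zero] at this
    constructor <;> linarith only [this, h0, h1, this.1, this.2]
  · by_cases hS : j ∈ S
    · have := abs_lt.1 ((h.near j).2 hS)
      rw [e] at this
      simp only [Int.cast_one] at this
      constructor <;> linarith only [h0, this, this.1, this.2]
    · have := abs_lt.1 ((h.near j).1 hS)
      rw [e] at this
      simp only [Int.cast_one] at this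
      constructor <;> linarith only [h0, h1, this, this.1, this.2]
  · have := abs_le.1 (near_even h (i := 1) (by simpa using e))
    simp only [Int.cast_one] at this
    constructor <;> linarith only [h0, h1, this, this.1, this.2]
end

/-- the core of the star -/
def core (v : V) : Set (Sp (KS V)) :=
  {y | |y (jS v) - 1| ≤ 2 * eta ∧ (∀ u, -(2 * eta) ≤ y (jS u) ∧ y (jS u) ≤ 1 + 2 * eta) ∧
    |y none - 1| ≤ 2 * eta ∧ |y (some none) - 1| ≤ 2 * eta ∧ |y (some (some none))| ≤ 2 * eta}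

omit [Fintype V] [LinearOrder V] in
theorem cont (j : KS V) : Continuous fun y : Sp (KS V) => (y j : ℝ) := by fun_prop

omit [Fintype V] [LinearOrder V] in
theorem conta (j : KS V) (a : ℝ) : Continuous fun y : Sp (KS V) => |(y j : ℝ) - a| := by
  have h : Continuous fun t : ℝ => |t - a| := by fun_prop
  exact h.comp (cont j)

omit [Fintype V] [LinearOrder V] in
theorem contz (j : KS V) : Continuous fun y : Sp (KS V) => |(y j : ℝ)| :=
  continuous_abs.comp (cont j)

omit [LinearOrder V] in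
theorem isClosed_core (v : V) : IsClosed (core v) := by
  unfold core
  simp only [ofPred_and, ofPred_forall]
  refine IsClosed.inter ?_ (IsClosed.inter (isClosed_iInter fun u => IsClosed.inter ?_ ?_)
    (IsClosed.inter ?_ (IsClosed.inter ?_ ?_)))
  · exact isClosed_le (conta _ _) continuous_const
  · exact isClosed_le continuous_const (cont _)
  · exact isClosed_le (cont _) continuous_const
  · exact isClosed_le (conta _ _) continuous_const
  · exact isClosed_le (conta _ _) continuous_const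
  · exact isClosed_le (contz _) continuous_const

omit [LinearOrder V] in
theorem isClosed_St (v : V) : IsClosed (Comb.St v) := by
  unfold Comb.St
  simp only [ofPred_and, ofPred_forall]
  refine IsClosed.inter ?_ (IsClosed.inter (isClosed_iInter fun u => IsClosed.inter ?_ ?_)
    (IsClosed.inter ?_ (IsClosed.inter ?_ ?_)))
  · exact isClosed_le continuous_const (cont _)
  · exact isClosed_le continuous_const (cont _)
  · exact isClosed_le (cont _) continuous_const
  · exact isClosed_le (conta _ _) continuous_const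
  · exact isClosed_le (conta _ _) continuous_const
  · exact isClosed_le (contz _) continuous_const

omit [LinearOrder V] in
theorem isCompact_St (v : V) : IsCompact (Comb.St v) := by
  refine (isCompact_cube (κ := KS V) (-2) 2).of_isClosed_subset (isClosed_St v) ?_
  rintro y ⟨-, h2, h3, h4, h5⟩ j
  have h3' := abs_le.1 h3
  have h4' := abs_le.1 h4
  have h5' := abs_le.1 h5
  rcases j with _ | _ | _ | u
  · constructor <;> linarith only [h3', h3'.1, h3'.2]
  · constructor <;> linarith only [h4', h4'.1, h4'.2]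
  · constructor <;> linarith only [h5', h5'.1, h5'.2]
  · constructor <;> linarith only [h2, (h2 u).1, (h2 u).2]

omit [LinearOrder V] in
theorem St_nhds {v : V} {x : Sp (KS V)} (hx : x ∈ core v) : Comb.St v ∈ 𝓝 x := by
  have h0 := eta_pos
  have h1 := eta_le
  obtain ⟨a1, a2, a3, a4, a5⟩ := hx
  have b1 : ∀ᶠ y in 𝓝 x, 1 / 3 ≤ y (jS v) :=
    (cont (jS v)).continuousAt.eventually (Ici_mem_nhds (by linarith only [h0, h1, a1, (abs_le.1 a1).1]))
  have b2 : ∀ᶠ y in 𝓝 x, ∀ u, -1 / 3 ≤ y (jS u) ∧ y (jS u) ≤ 4 / 3 := by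
    refine eventually_all.2 fun u => Eventually.and ?_ ?_
    · exact (cont (jS u)).continuousAt.eventually (Ici_mem_nhds (by linarith only [h0, h1, a2, (a2 u).1]))
    · exact (cont (jS u)).continuousAt.eventually (Iic_mem_nhds (by linarith only [h0, h1, a2, (a2 u).2]))
  have b3 : ∀ᶠ y in 𝓝 x, |y none - 1| ≤ 1 / 3 :=
    (conta none 1).continuousAt.eventually (Iic_mem_nhds (by linarith only [h0, h1, a3]))
  have b4 : ∀ᶠ y in 𝓝 x, |y (some none) - 1| ≤ 1 / 3 :=
    (conta (some none) 1).continuousAt.eventually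
      (Iic_mem_nhds (by linarith only [h0, h1, a4]))
  have b5 : ∀ᶠ y in 𝓝 x, |y (some (some none))| ≤ 1 / 3 :=
    (contz (some (some none))).continuousAt.eventually (Iic_mem_nhds (by linarith only [h0, h1, a5]))
  filter_upwards [b1, b2, b3, b4, b5] with y c1 c2 c3 c4 c5
  exact ⟨c1, c2, c3, c4, c5⟩

/-- where the two neighbourhood functions differ, the point is in the core of a star -/
theorem mem_core {b : V} {L L' N : Set (Finset V)} (hL : L ⊆ L') {x : Sp (KS V)}
    (h : hY (slice b (at0 L') N) x ≠ hY (slice b (at0 L) N) x) : ∃ v, x ∈ core v := by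
  have h1 := mt (hY_congr (Y := slice b (at0 L') N) (Y' := slice b (at0 L) N) (x := x)) h
  simp only [not_forall] at h1
  obtain ⟨S, hS, hne⟩ := h1
  have hsub : slice b (at0 L) N ⊆ slice b (at0 L') N := by
    refine slice_mono b (fun n => ?_) N
    unfold at0
    split_ifs
    · exact hL
    · exact subset_rfl
  have hin : acell x S ∈ slice b (at0 L') N := by
    by_contra hc
    exact hne ⟨fun h => absurd h hc, fun h => hsub h⟩
  have hout : acell x S ∉ slice b (at0 L) N := fun hc => hne ⟨fun _ => hc, fun _ => hin⟩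
  obtain ⟨c, hc⟩ : ∃ c, c = acell x S := ⟨_, rfl⟩
  rw [← hc] at hin hout
  have e2 : c none = 2 := by
    by_contra e
    simp only [slice, stack, mem_ofPred_eq, if_neg e] at hin hout
    exact hout hin
  simp only [slice, stack, mem_ofPred_eq, if_pos e2, ycx] at hin hout
  have e1 : c (some none) = 2 := by
    by_contra e
    simp only [if_neg e] at hin hout
    exact hout hin
  have n1 : ¬ c (some none) ≤ 0 := by omega
  have n2 : ¬ c (some none) = 1 := by omega
  simp only [if_neg n1, if_neg n2, if_pos e1, zcx, stack, mem_ofPred_eq] at hin hout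
  have e0 : c (some (some none)) = 0 := by
    by_contra e
    simp only [at0, if_neg e] at hin hout
    exact hout hin
  simp only [at0, if_pos e0] at hin
  obtain ⟨d1, ⟨v, d2⟩, -⟩ := hin
  subst hc
  refine ⟨v, ?_, fun u => near_cub hS (d1 u), ?_, ?_, ?_⟩
  · simpa using near_even hS (i := 1) (by simpa using d2)
  · simpa using near_even hS (i := 1) (by simpa using e2)
  · simpa using near_even hS (i := 1) (by simpa using e1)
  · simpa using near_even hS (i := 0) (by simpa using e0)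

end StarBAux

open StarBAux in
theorem Comb.tor_star (K : Comb V) {ℓ : ℝ} (hℓ : ℓ ∈ Ioo (0 : ℝ) 1) :
    Tor K.labS {y | K.q1 y ≤ ℓ} {y | K.q0 y ≤ ℓ} K.Gv := by
  have hb₀ : {K.b} ∈ K.N₀ := K.toCombCore.b_mem.1
  have hsub : K.N₀ ⊆ K.Z₁ := K.toCombCore.subs.1
  have hbZ : {K.b} ∈ K.Z₁ := hsub hb₀
  have hle : ∀ y, K.q1 y ≤ K.q0 y := by
    intro y
    refine hY_anti (slice_mono K.b (fun n => ?_) K.N₀) y
    unfold at0
    split_ifs
    · exact hsub
    · exact subset_rfl
  have hle3 : ∀ y, K.q3 y ≤ K.q1 y := fun y =>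
    hY_anti (slice_mono K.b (CubAAux.at0_sub (K.sub₁.trans (K.sub₂ 0))) K.N₀) y
  have c0 : IsClosed {y | K.q0 y ≤ ℓ} := isClosed_le (hY_smooth _).continuous continuous_const
  have c1 : IsClosed {y | K.q1 y ≤ ℓ} := isClosed_le (hY_smooth _).continuous continuous_const
  have hcore : closure ({y | K.q1 y ≤ ℓ} \ {y | K.q0 y ≤ ℓ}) ⊆ ⋃ v : V, core v := by
    refine closure_minimal ?_ (isClosed_iUnion_of_finite isClosed_core)
    rintro y ⟨h1, h0⟩
    refine mem_iUnion.2 (mem_core (b := K.b) (N := K.N₀) hsub fun e => h0 ?_)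
    have e' : K.q1 y = K.q0 y := e
    change K.q0 y ≤ ℓ
    rw [← e']
    exact h1
  have hcov : ∀ x ∈ closure ({y | K.q1 y ≤ ℓ} \ {y | K.q0 y ≤ ℓ}), ∃ v : V, Comb.St v ∈ 𝓝 x := by
    intro x hx
    obtain ⟨v, hv⟩ := mem_iUnion.1 (hcore hx)
    exact ⟨v, St_nhds hv⟩
  have hp : Pair K.labS {y | K.q1 y ≤ ℓ} {y | K.q0 y ≤ ℓ} := by
    refine ⟨fun y hy => (hle y).trans hy, c0, c1, ?_, ?_, Or.inl ?_⟩
    · refine (isCompact_iUnion fun v : V => isCompact_St v).of_isClosed_subset isClosed_closure ?_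
      intro x hx
      obtain ⟨v, hv⟩ := hcov x hx
      exact mem_iUnion.2 ⟨v, mem_of_mem_nhds hv⟩
    · intro x hx
      have h1 : K.q1 x ≤ ℓ := closure_minimal sdiff_subset c1 hx
      exact ((hle3 x).trans h1).trans_lt hℓ.2
    · have h := nerve_St K.low₀ hb₀ K.low₀ hb₀ hℓ
      have h' := hb₀
      rw [← h] at h'
      obtain ⟨x, hx, -⟩ := h'
      exact ⟨x, hx⟩
  refine tor_of_cover K.labS_good hp (ι := V) Comb.St (fun v => some (v, 0)) ?_ hcov
    (fun v => ⟨isClosed_St v, (isCompact_St v).inter_right c1⟩)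
    (fun S hS => ⟨⟨1, tor_St K.low₀ hb₀ K.low₀ hb₀ hℓ hS⟩,
      ⟨1, tor_St K.lowZ hbZ K.low₀ hb₀ hℓ hS⟩⟩) ?_
  · rintro v y ⟨⟨a1, -, -, a4, a5⟩, -⟩
    refine ⟨by linarith only [a4, (abs_le.1 a4).1], a1, ?_⟩
    simp only [Int.cast_zero, sub_zero]
    linarith only [a5]
  · have e1 : nerve (Comb.St (V := V)) {y | K.q1 y ≤ ℓ} = K.Z₁ :=
      nerve_St K.lowZ hbZ K.low₀ hb₀ hℓ
    have e0 : nerve (Comb.St (V := V)) {y | K.q0 y ≤ ℓ} = K.N₀ :=
      nerve_St K.low₀ hb₀ K.low₀ hb₀ hℓ
    rw [e1, e0]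
    have e : (fun i j : V => K.labS.G (some (i, 0)) (some (j, 0))) =
        fun i j => R5.xp (K.c₀ i j) := by
      funext i j
      change R5.xp (K.cL 0 i j) = _
      rw [K.cL_zero]
    rw [e]
    exact K.tor

end SpunKnot
end
end
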