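import Pool.Agent.Work.MP_e1e788_gt.Tele
import Pool.Agent.Work.MP_e1e788_gt.RingA
import Pool.Agent.Work.MP_e1e788_gt.StarB
import Pool.Agent.Work.MP_e1e788_gt.Spin

-- merged part: Pool.Agent.Work.MP_e1e788_gt.ZigA
section
/-! The ring deforms to a line of complexes. -/

open Set
open scoped Classical

noncomputable section
namespace SpunKnot

namespace ZigAAux

section
variable {κ : Type*} [Fintype κ] [DecidableEq κ]

/-- complex in two more directions with prescribed fibres -/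
def grid (W : ℤ → ℤ → Set (κ → ℤ)) : Set (Option (Option κ) → ℤ) :=
  stack fun m₁ => stack fun m₂ => W m₁ m₂

omit [Fintype κ] [DecidableEq κ] in
theorem mem_grid {W : ℤ → ℤ → Set (κ → ℤ)} {c : Option (Option κ) → ℤ} :
    c ∈ grid W ↔ (fun j => c (some (some j))) ∈ W (c none) (c (some none)) := Iff.rfl

theorem closed_grid {W : ℤ → ℤ → Set (κ → ℤ)} (h0 : ∀ m₁ m₂, Closed (W m₁ m₂))
    (h1 : ∀ m₁ m₂, Odd m₁ → W m₁ m₂ ⊆ W (m₁ + 1) m₂ ∧ W m₁ m₂ ⊆ W (m₁ - 1) m₂)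
    (h2 : ∀ m₁ m₂, Odd m₂ → W m₁ m₂ ⊆ W m₁ (m₂ + 1) ∧ W m₁ m₂ ⊆ W m₁ (m₂ - 1)) :
    Closed (grid W) := by
  refine closed_stack.2 ⟨fun m₁ => closed_stack.2 ⟨h0 m₁, h2 m₁⟩, fun m₁ hm => ⟨?_, ?_⟩⟩
  · exact fun c hc => (h1 m₁ _ hm).1 hc
  · exact fun c hc => (h1 m₁ _ hm).2 hc

omit [Fintype κ] in
theorem upd1 {W : ℤ → ℤ → Set (κ → ℤ)} {c : Option (Option κ) → ℤ} {x : ℤ} :
    Function.update c none x ∈ grid W ↔
      (fun j => c (some (some j))) ∈ W x (c (some none)) := by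
  rw [mem_grid]
  simp [Function.update_of_ne]

omit [Fintype κ] in
theorem upd2 {W : ℤ → ℤ → Set (κ → ℤ)} {c : Option (Option κ) → ℤ} {x : ℤ} :
    Function.update c (some none) x ∈ grid W ↔
      (fun j => c (some (some j))) ∈ W (c none) x := by
  rw [mem_grid]
  simp [Function.update_of_ne]

omit [Fintype κ] in
theorem upd3 {W : ℤ → ℤ → Set (κ → ℤ)} {c : Option (Option κ) → ℤ} {x : ℤ} {k : κ} :
    Function.update c (some (some k)) x ∈ grid W ↔
      Function.update (fun j => c (some (some j))) k x ∈ W (c none) (c (some none)) := by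
  rw [mem_grid]
  have : (fun j => Function.update c (some (some k)) x (some (some j))) =
      Function.update (fun j => c (some (some j))) k x := by
    funext j
    by_cases hj : j = k
    · subst hj; simp
    · simp [Function.update_of_ne, hj]
  rw [this]
  simp [Function.update_of_ne]

omit [Fintype κ] in
theorem pcol1 {W W' : ℤ → ℤ → Set (κ → ℤ)} (hW : Closed (grid W)) (hW' : Closed (grid W'))
    (i ε : ℤ) (hε : ε = 1 ∨ ε = -1) (hsub : ∀ m₁ m₂, W m₁ m₂ ⊆ W' m₁ m₂)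
    (h : ∀ m₁ m₂, ∀ c ∈ W' m₁ m₂, c ∉ W m₁ m₂ → (m₁ = 2 * i ∨ m₁ = 2 * i + ε) ∧
      (c ∈ W' (2 * i) m₂ ∧ c ∉ W (2 * i) m₂) ∧
      (c ∈ W' (2 * i + ε) m₂ ∧ c ∉ W (2 * i + ε) m₂) ∧ c ∉ W' (2 * i - ε) m₂) :
    PCol (grid W) (grid W') := by
  refine ⟨hW, hW', fun c hc => hsub _ _ hc, none, i, ε, hε, fun c hc => ?_⟩
  simp only [mem_diff, upd1]
  exact h _ _ _ hc.1 hc.2

omit [Fintype κ] in
theorem pcol2 {W W' : ℤ → ℤ → Set (κ → ℤ)} (hW : Closed (grid W)) (hW' : Closed (grid W'))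
    (i ε : ℤ) (hε : ε = 1 ∨ ε = -1) (hsub : ∀ m₁ m₂, W m₁ m₂ ⊆ W' m₁ m₂)
    (h : ∀ m₁ m₂, ∀ c ∈ W' m₁ m₂, c ∉ W m₁ m₂ → (m₂ = 2 * i ∨ m₂ = 2 * i + ε) ∧
      (c ∈ W' m₁ (2 * i) ∧ c ∉ W m₁ (2 * i)) ∧
      (c ∈ W' m₁ (2 * i + ε) ∧ c ∉ W m₁ (2 * i + ε)) ∧ c ∉ W' m₁ (2 * i - ε)) :
    PCol (grid W) (grid W') := by
  refine ⟨hW, hW', fun c hc => hsub _ _ hc, some none, i, ε, hε, fun c hc => ?_⟩
  simp only [mem_diff, upd2]
  exact h _ _ _ hc.1 hc.2

omit [Fintype κ] in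
theorem pcol3 {W W' : ℤ → ℤ → Set (κ → ℤ)} (hW : Closed (grid W)) (hW' : Closed (grid W'))
    (k : κ) (i ε : ℤ) (hε : ε = 1 ∨ ε = -1) (hsub : ∀ m₁ m₂, W m₁ m₂ ⊆ W' m₁ m₂)
    (h : ∀ m₁ m₂, ∀ c ∈ W' m₁ m₂, c ∉ W m₁ m₂ → (c k = 2 * i ∨ c k = 2 * i + ε) ∧
      (Function.update c k (2 * i) ∈ W' m₁ m₂ ∧ Function.update c k (2 * i) ∉ W m₁ m₂) ∧
      (Function.update c k (2 * i + ε) ∈ W' m₁ m₂ ∧
        Function.update c k (2 * i + ε) ∉ W m₁ m₂) ∧
      Function.update c k (2 * i - ε) ∉ W' m₁ m₂) :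
    PCol (grid W) (grid W') := by
  refine ⟨hW, hW', fun c hc => hsub _ _ hc, some (some k), i, ε, hε, fun c hc => ?_⟩
  simp only [mem_diff, upd3]
  exact h _ _ _ hc.1 hc.2
end

section
variable {α : Type*}

/-- the top row -/
def row (n₀ cy c₂ c₃ : Set α) (m : ℤ) : Set α :=
  if m = 2 then c₂ else if m = 3 then c₃ else if m = 4 then cy else n₀

/-- the fibres over the rectangle -/
def G (B n₀ cy c₂ c₃ : Set α) (mid : ℤ → Set α) (m₁ m₂ : ℤ) : Set α :=
  if 0 ≤ m₁ ∧ m₁ ≤ 6 then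
    (if m₂ = 2 then row n₀ cy c₂ c₃ m₁ else if m₂ = 0 then n₀ else if m₂ = 1 then mid m₁ else B)
  else B

variable {B n₀ cy c₂ c₃ : Set α} {mid : ℤ → Set α}

theorem G_out {m₁ : ℤ} (h : ¬ (0 ≤ m₁ ∧ m₁ ≤ 6)) (m₂ : ℤ) : G B n₀ cy c₂ c₃ mid m₁ m₂ = B :=
  if_neg h

theorem G_out' (m₁ : ℤ) {m₂ : ℤ} (h : ¬ (0 ≤ m₂ ∧ m₂ ≤ 2)) : G B n₀ cy c₂ c₃ mid m₁ m₂ = B := by
  unfold G
  rw [if_neg (show ¬ m₂ = 2 by omega), if_neg (show ¬ m₂ = 0 by omega),
    if_neg (show ¬ m₂ = 1 by omega), ite_self]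

theorem G_two {m₁ : ℤ} (h : 0 ≤ m₁ ∧ m₁ ≤ 6) :
    G B n₀ cy c₂ c₃ mid m₁ 2 = row n₀ cy c₂ c₃ m₁ := by
  unfold G
  rw [if_pos h, if_pos rfl]

theorem G_zero {m₁ : ℤ} (h : 0 ≤ m₁ ∧ m₁ ≤ 6) : G B n₀ cy c₂ c₃ mid m₁ 0 = n₀ := by
  unfold G
  rw [if_pos h, if_neg (by norm_num), if_pos rfl]

theorem G_one {m₁ : ℤ} (h : 0 ≤ m₁ ∧ m₁ ≤ 6) : G B n₀ cy c₂ c₃ mid m₁ 1 = mid m₁ := by
  unfold G
  rw [if_pos h, if_neg (by norm_num), if_neg (by norm_num), if_pos rfl]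

/-- a property of all the pieces holds for all fibres -/
theorem G_ind (p : Set α → Prop) (hB : p B) (h0 : p n₀) (hc : p cy) (h2 : p c₂) (h3 : p c₃)
    (hm : ∀ m, p (mid m)) (m₁ m₂ : ℤ) : p (G B n₀ cy c₂ c₃ mid m₁ m₂) := by
  unfold G row
  split_ifs <;> first | assumption | exact hm _

theorem G_diff {c₃' : Set α} {mid' : ℤ → Set α} {m₁ m₂ : ℤ} {c : α}
    (h' : c ∈ G B n₀ cy c₂ c₃' mid' m₁ m₂) (h : c ∉ G B n₀ cy c₂ c₃ mid m₁ m₂) :
    (0 ≤ m₁ ∧ m₁ ≤ 6) ∧ ((m₁ = 3 ∧ m₂ = 2 ∧ c ∈ c₃' ∧ c ∉ c₃) ∨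
      (m₂ = 1 ∧ c ∈ mid' m₁ ∧ c ∉ mid m₁)) := by
  unfold G row at h h'
  split_ifs at h h' <;> first | exact (h h').elim | skip
  · exact ⟨by assumption, Or.inl ⟨by assumption, by assumption, h', h⟩⟩
  · exact ⟨by assumption, Or.inr ⟨by assumption, h', h⟩⟩

theorem G_mono {c₃' : Set α} {mid' : ℤ → Set α} (h3 : c₃ ⊆ c₃') (hm : ∀ m, mid m ⊆ mid' m)
    (m₁ m₂ : ℤ) : G B n₀ cy c₂ c₃ mid m₁ m₂ ⊆ G B n₀ cy c₂ c₃' mid' m₁ m₂ := by
  unfold G row
  split_ifs <;> first | exact subset_rfl | exact h3 | exact hm _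
end

section
variable {κ : Type*} [Fintype κ] [DecidableEq κ]

theorem closed_G {B n₀ cy c₂ c₃ : Set (κ → ℤ)} {mid : ℤ → Set (κ → ℤ)} (cB : Closed B)
    (c0 : Closed n₀) (cc : Closed cy) (cl2 : Closed c₂) (cl3 : Closed c₃)
    (cm : ∀ m, Closed (mid m)) (b3 : B ⊆ c₃) (bm : ∀ m, B ⊆ mid m) (s02 : n₀ ⊆ c₂)
    (s0c : n₀ ⊆ cy) (s32 : c₃ ⊆ c₂) (s3c : c₃ ⊆ cy) (sm0 : ∀ m, mid m ⊆ n₀) (sm3 : mid 3 ⊆ c₃)
    (smm : (mid 1 ⊆ mid 0 ∧ mid 1 ⊆ mid 2) ∧ (mid 3 ⊆ mid 2 ∧ mid 3 ⊆ mid 4) ∧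
      mid 5 ⊆ mid 4 ∧ mid 5 ⊆ mid 6) :
    Closed (grid (G B n₀ cy c₂ c₃ mid)) := by
  have b0 : B ⊆ n₀ := (bm 0).trans (sm0 0)
  have hB : ∀ m₁ m₂, B ⊆ G B n₀ cy c₂ c₃ mid m₁ m₂ :=
    G_ind (fun S => B ⊆ S) subset_rfl b0 (b0.trans s0c) (b0.trans s02) b3 bm
  refine closed_grid (G_ind _ cB c0 cc cl2 cl3 cm) (fun m₁ m₂ hm => ?_) (fun m₁ m₂ hm => ?_)
  · by_cases h1 : 0 ≤ m₁ ∧ m₁ ≤ 6
    swap
    · rw [G_out h1]; exact ⟨hB _ _, hB _ _⟩
    by_cases h2 : 0 ≤ m₂ ∧ m₂ ≤ 2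
    swap
    · rw [G_out' m₁ h2]; exact ⟨hB _ _, hB _ _⟩
    obtain ⟨k, hk⟩ := hm
    have e1 : m₁ = 1 ∨ m₁ = 3 ∨ m₁ = 5 := by omega
    have e2 : m₂ = 0 ∨ m₂ = 1 ∨ m₂ = 2 := by omega
    rcases e1 with rfl | rfl | rfl <;> rcases e2 with rfl | rfl | rfl <;>
      simp [G, row, s02, s0c, s32, s3c, smm]
  · by_cases h1 : 0 ≤ m₁ ∧ m₁ ≤ 6
    swap
    · rw [G_out h1]; exact ⟨hB _ _, hB _ _⟩
    by_cases h2 : 0 ≤ m₂ ∧ m₂ ≤ 2
    swap
    · rw [G_out' m₁ h2]; exact ⟨hB _ _, hB _ _⟩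
    obtain ⟨k, hk⟩ := hm
    obtain rfl : m₂ = 1 := by omega
    rw [G_one h1, show (1 : ℤ) + 1 = 2 by norm_num, show (1 : ℤ) - 1 = 0 by norm_num, G_two h1,
      G_zero h1]
    refine ⟨?_, sm0 _⟩
    unfold row
    split_ifs with a b c
    · exact (sm0 _).trans s02
    · subst b; exact sm3
    · exact (sm0 _).trans s0c
    · exact sm0 _
end

variable {V : Type} [Fintype V] [LinearOrder V]

/-- the fibre of a simplicial complex -/
abbrev yy (b : V) (L : Set (Finset V)) : Set (KY V → ℤ) := ycx b (at0 L)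

theorem mem_ycx {b : V} {P : ℤ → Set (Finset V)} {c : KY V → ℤ} :
    c ∈ ycx b P ↔ c none ≤ 0 ∨ (c none = 1 ∧ (fun j => c (some j)) = ptb b) ∨
      (c none = 2 ∧ (fun j => c (some j)) ∈ zcx P) := by
  change (fun j => c (some j)) ∈ (if c none ≤ 0 then univ else if c none = 1 then {ptb b}
    else if c none = 2 then zcx P else ∅ : Set (KZ V → ℤ)) ↔ _
  split_ifs with h1 h2 h3
  · simp [h1]
  · simp [h2]
  · simp [h3]
  · simp [h1, h2, h3]

theorem mem_zcx0 {L : Set (Finset V)} {c : KZ V → ℤ} :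
    c ∈ zcx (at0 L) ↔ c none = 0 ∧ (fun j => c (some j)) ∈ cub L := by
  change (fun j => c (some j)) ∈ cub (if c none = 0 then L else ∅) ↔ _
  split_ifs with h
  · simp [h]
  · simp [h, cub_empty]

theorem yy_union (b : V) (L L' : Set (Finset V)) : yy b (L ∪ L') = yy b L ∪ yy b L' := by
  ext c
  simp only [mem_union, mem_ycx, mem_zcx0, cub_union]
  (clear * -; grind)

theorem yy_inter (b : V) (L L' : Set (Finset V)) : yy b (L ∩ L') = yy b L ∩ yy b L' := by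
  ext c
  simp only [mem_inter_iff, mem_ycx, mem_zcx0, cub_inter]
  tauto

theorem yy_mono (b : V) {L L' : Set (Finset V)} (h : L ⊆ L') : yy b L ⊆ yy b L' := by
  refine ycx_mono b fun n => ?_
  unfold at0
  split_ifs
  · exact h
  · exact subset_rfl

theorem closed_yy {b : V} {L : Set (Finset V)} (h : IsLowerSet L) (hb : {b} ∈ L) :
    Closed (yy b L) :=
  closed_ycx (tower_at0 h) (by simpa [at0] using hb)

/-- the cells outside the half space are bounded -/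
def Bd (N : ℤ) (S : Set (KY V → ℤ)) : Prop :=
  ∀ c ∈ S, c ∉ baseY V → (∀ j, |c j| ≤ N) ∧ ∀ v, 0 ≤ c (some (some v))

omit [Fintype V] [LinearOrder V] in
theorem bd_base (N : ℤ) : Bd N (baseY V) := fun _ hc hn => (hn hc).elim

theorem bd_ycx {N : ℤ} (hN : 6 ≤ N) (b : V) {P : ℤ → Set (Finset V)}
    (hP : ∀ n, N ≤ |n| → P n = ∅) : Bd N (ycx b P) := by
  intro c hc hn
  rcases mem_ycx.1 hc with h | ⟨h1, h2⟩ | ⟨h1, h2⟩
  · exact (hn h).elim
  · have h3 : ∀ j, c (some j) = 0 ∨ c (some j) = 2 := by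
      intro j
      have := congrFun h2 j
      simp only [ptb] at this
      split_ifs at this
      · exact Or.inr this
      · exact Or.inl this
    refine ⟨fun j => ?_, fun v => ?_⟩
    · cases j with
      | none => rw [h1]; norm_num; omega
      | some j => rcases h3 j with h | h <;> rw [h] <;> norm_num <;> omega
    · rcases h3 (some v) with h | h <;> omega
  · have h3 : (fun v => c (some (some v))) ∈ cub (P (c (some none))) := h2
    have h4 : ∀ v, c (some (some v)) = 0 ∨ c (some (some v)) = 1 ∨ c (some (some v)) = 2 := h3.1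
    refine ⟨fun j => ?_, fun v => ?_⟩
    · rcases j with _ | _ | v
      · rw [h1]; norm_num; omega
      · by_contra hlt
        push Not at hlt
        rw [hP _ hlt.le, cub_empty] at h3
        exact h3
      · rcases h4 v with h | h | h <;> rw [h] <;> norm_num <;> omega
    · rcases h4 v with h | h | h <;> omega

theorem bd_yy (b : V) (L : Set (Finset V)) {N : ℤ} (hN : 6 ≤ N) : Bd N (yy b L) := by
  refine bd_ycx hN b fun n hn => if_neg ?_
  rintro rfl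
  simp at hn
  omega

theorem inBox_G {N : ℤ} (hN : 6 ≤ N) (v₁ : V) {n₀ cy c₂ c₃ : Set (KY V → ℤ)}
    {mid : ℤ → Set (KY V → ℤ)} (h0 : Bd N n₀) (hc : Bd N cy) (h2 : Bd N c₂) (h3 : Bd N c₃)
    (hm : ∀ m, Bd N (mid m)) {W : ℤ → ℤ → Set (KY V → ℤ)} (hW : ∀ m₁ m₂, baseY V ⊆ W m₁ m₂) :
    InBox (jA v₁) (grid (G (baseY V) n₀ cy c₂ c₃ mid) \ grid W) := by
  refine ⟨N, fun c hc' => ?_⟩
  have h1 := mem_grid.1 hc'.1
  have hn : (fun j => c (some (some j))) ∉ baseY V := fun h => hc'.2 (mem_grid.2 (hW _ _ h))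
  have hb := G_ind (Bd N) (bd_base N) h0 hc h2 h3 hm _ _ _ h1 hn
  refine ⟨fun j => ?_, hb.2 v₁⟩
  rcases j with _ | _ | j
  · by_contra hlt
    rw [G_out (by rw [abs_le] at hlt; omega)] at h1
    exact hn h1
  · by_contra hlt
    rw [G_out' _ (by rw [abs_le] at hlt; omega)] at h1
    exact hn h1
  · exact hb.1 j

def mid₁ (b : V) (N : Set (Finset V)) (m : ℤ) : Set (KY V → ℤ) :=
  if m = 0 ∨ m = 6 then yy b N else baseY V

def mid₂ (b : V) (N : Set (Finset V)) (m : ℤ) : Set (KY V → ℤ) :=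
  if m = 0 ∨ m = 6 then yy b N else yy b {∅, {b}}

def mid₃ (b : V) (N : Set (Finset V)) (m : ℤ) : Set (KY V → ℤ) :=
  if m ≤ 2 ∨ m = 6 then yy b N else yy b {∅, {b}}

def mid₄ (b : V) (N : Set (Finset V)) (m : ℤ) : Set (KY V → ℤ) :=
  if m = 3 then yy b {∅, {b}} else yy b N

theorem ring_eq (K : Comb V) (P : ℤ → Set (Finset V)) :
    ringOf K.b (K.top P) K.N₀ = grid (G (baseY V) (yy K.b K.N₀) (yy K.b K.Cy) (ycx K.b P)
      (yy K.b K.N₁) (mid₁ K.b K.N₀)) := by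
  unfold ringOf grid
  congr 1
  funext m₁
  by_cases h1 : 0 ≤ m₁ ∧ m₁ ≤ 6
  · have e : m₁ = 0 ∨ m₁ = 1 ∨ m₁ = 2 ∨ m₁ = 3 ∨ m₁ = 4 ∨ m₁ = 5 ∨ m₁ = 6 := by omega
    have hs : ∀ m₂ : ℤ, (if 0 ≤ m₂ ∧ m₂ ≤ 2 then yy K.b K.N₀ else baseY V) =
        if m₂ = 2 then yy K.b K.N₀ else if m₂ = 0 then yy K.b K.N₀ else
          if m₂ = 1 then yy K.b K.N₀ else baseY V := by
      intro m₂
      split_ifs <;> first | rfl | omega
    rcases e with rfl | rfl | rfl | rfl | rfl | rfl | rfl <;>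
      simp [side, slice, G, row, mid₁, Comb.top, hs]
  · rw [if_neg (by omega), if_neg (by omega)]
    simp only [G_out h1]
    rfl

theorem line_eq (K : Comb V) : K.line7 = grid fun m₁ m₂ => if m₂ = 2 then
    G (baseY V) (yy K.b K.N₀) (yy K.b K.Cy) (yy K.b K.Z₁) (yy K.b (K.N₀ ∪ K.N₁))
      (fun _ => yy K.b K.N₀) m₁ 2 else baseY V := by
  unfold Comb.line7 line grid
  congr 1
  funext m₁
  congr 1
  funext m₂
  congr 1
  beta_reduce
  by_cases h1 : 0 ≤ m₁ ∧ m₁ ≤ 6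
  · rw [G_two h1, if_pos h1]
    rfl
  · rw [G_out h1, if_neg (by omega), if_neg (by omega), if_neg (by omega), if_neg h1]

end ZigAAux

open ZigAAux

variable {V : Type} [Fintype V] [LinearOrder V]

theorem Comb.zig_ring (K : Comb V) (v₁ : V) : Zig (jA v₁) K.ring K.line7 := by
  obtain ⟨b0, b1⟩ := K.toCombCore.b_mem
  obtain ⟨s0Z, s1Z, s0C, s1C⟩ := K.toCombCore.subs
  obtain ⟨N', hN'⟩ := K.bdd
  set N : ℤ := max N' 6 with hNdef
  have hN : 6 ≤ N := le_max_right _ _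
  have hP : ∀ n, N ≤ |n| → K.P₃ n = ∅ := fun n hn => hN' n ((le_max_left _ _).trans hn)
  have lowP : IsLowerSet ({∅, {K.b}} : Set (Finset V)) := K.inter ▸ K.low₀.inter K.low₁
  have hpt : yy K.b {∅, {K.b}} = yy K.b K.N₀ ∩ yy K.b K.N₁ := by rw [← yy_inter, K.inter]
  have hun : yy K.b (K.N₀ ∪ K.N₁) = yy K.b K.N₀ ∪ yy K.b K.N₁ := yy_union _ _ _
  have cB : Closed (baseY V) := closed_baseY
  have c0 := closed_yy K.low₀ b0
  have c1 := closed_yy K.low₁ b1
  have cZ := closed_yy K.lowZ (s0Z b0)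
  have cC := closed_yy K.lowC (s0C b0)
  have cP : Closed (yy K.b {∅, {K.b}}) := closed_yy lowP (by simp)
  have cU := closed_yy (K.low₀.union K.low₁) (Or.inl b0)
  have bb : ∀ L, baseY V ⊆ yy K.b L := fun L => baseY_subset _ _
  have p0 : yy K.b {∅, {K.b}} ⊆ yy K.b K.N₀ := hpt ▸ inter_subset_left
  have p1 : yy K.b {∅, {K.b}} ⊆ yy K.b K.N₁ := hpt ▸ inter_subset_right
  have y0Z := yy_mono K.b s0Z
  have y1Z := yy_mono K.b s1Z
  have y0C := yy_mono K.b s0C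
  have y1C := yy_mono K.b s1C
  have bd : ∀ L, Bd N (yy K.b L) := fun L => bd_yy K.b L hN
  -- the pieces over the middle row
  have i1 : ∀ p : Set (KY V → ℤ) → Prop, p (yy K.b K.N₀) → p (baseY V) →
      ∀ m, p (mid₁ K.b K.N₀ m) := fun p h h' m => by unfold mid₁; split_ifs <;> assumption
  have i2 : ∀ p : Set (KY V → ℤ) → Prop, p (yy K.b K.N₀) → p (yy K.b {∅, {K.b}}) →
      ∀ m, p (mid₂ K.b K.N₀ m) := fun p h h' m => by unfold mid₂; split_ifs <;> assumption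
  have i3 : ∀ p : Set (KY V → ℤ) → Prop, p (yy K.b K.N₀) → p (yy K.b {∅, {K.b}}) →
      ∀ m, p (mid₃ K.b K.N₀ m) := fun p h h' m => by unfold mid₃; split_ifs <;> assumption
  have i4 : ∀ p : Set (KY V → ℤ) → Prop, p (yy K.b K.N₀) → p (yy K.b {∅, {K.b}}) →
      ∀ m, p (mid₄ K.b K.N₀ m) := fun p h h' m => by unfold mid₄; split_ifs <;> assumption
  have bG : ∀ (c₃ : Set (KY V → ℤ)) (mid : ℤ → Set (KY V → ℤ)), baseY V ⊆ c₃ →
      (∀ m, baseY V ⊆ mid m) → ∀ m₁ m₂, baseY V ⊆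
        G (baseY V) (yy K.b K.N₀) (yy K.b K.Cy) (yy K.b K.Z₁) c₃ mid m₁ m₂ :=
    fun c₃ mid h h' => G_ind (fun S => baseY V ⊆ S) subset_rfl (bb _) (bb _) (bb _) h h'
  have bm1 := i1 (fun S => baseY V ⊆ S) (bb _) subset_rfl
  have bm2 := i2 (fun S => baseY V ⊆ S) (bb _) (bb _)
  have bm3 := i3 (fun S => baseY V ⊆ S) (bb _) (bb _)
  have bm4 := i4 (fun S => baseY V ⊆ S) (bb _) (bb _)
  have k1 := closed_G cB c0 cC cZ c1 (i1 _ c0 cB) (bb _) bm1 y0Z y0C y1Z y1C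
    (i1 (fun S => S ⊆ _) subset_rfl (bb _)) (by simp [mid₁, bb]) (by simp [mid₁, bb])
  have k2 := closed_G cB c0 cC cZ c1 (i2 _ c0 cP) (bb _) bm2 y0Z y0C y1Z y1C
    (i2 (fun S => S ⊆ _) subset_rfl p0) (by simp [mid₂, p1]) (by simp [mid₂, p0])
  have k3 := closed_G cB c0 cC cZ c1 (i3 _ c0 cP) (bb _) bm3 y0Z y0C y1Z y1C
    (i3 (fun S => S ⊆ _) subset_rfl p0) (by simp [mid₃, p1]) (by simp [mid₃, p0])
  have k4 := closed_G cB c0 cC cZ c1 (i4 _ c0 cP) (bb _) bm4 y0Z y0C y1Z y1C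
    (i4 (fun S => S ⊆ _) subset_rfl p0) (by simp [mid₄, p1]) (by simp [mid₄, p0])
  have k5 := closed_G (mid := fun _ => yy K.b K.N₀) cB c0 cC cZ cU (fun _ => c0) (bb _)
    (fun _ => bb _) y0Z y0C (yy_mono _ (union_subset s0Z s1Z)) (yy_mono _ (union_subset s0C s1C))
    (fun _ => subset_rfl) (yy_mono _ subset_union_left) (by simp)
  -- step 0
  have hbZ : ({K.b} : Finset V) ∈ at0 K.Z₁ 0 := by simpa [at0] using s0Z b0
  have z0 : Zig (jA v₁) (ringOf K.b (K.top (at0 K.Z₁)) K.N₀) K.ring := by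
    have k1' : Closed (ringOf K.b (K.top (at0 K.Z₁)) K.N₀) := by rw [ring_eq]; exact k1
    have k0 : Closed (ringOf K.b (K.top K.P₃) K.N₀) := K.closed_ring
    refine Col.zig ?_ ?_
    swap
    · unfold Comb.ring
      rw [ring_eq, ring_eq]
      exact inBox_G hN v₁ (bd _) (bd _) (bd_ycx hN _ hP) (bd _) (i1 _ (bd _) (bd_base N))
        (bG _ _ (bb _) bm1)
    unfold Comb.ring
    unfold ringOf at k1' k0 ⊢
    refine Col.lift k1' k0 2 ?_ ?_
    · intro n hn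
      simp only [Comb.top, if_neg hn]
    · have := Col.toSlice (tower_at0 K.lowZ) K.tow₃ hbZ (K.sub₂ 0 (K.sub₁ (s0Z b0))) K.low₀ b0
        K.col₃
      simpa [Comb.top] using this
  rw [ring_eq] at z0
  -- step a
  have pa := pcol3 k1 k2 none 1 (-1) (Or.inr rfl)
    (G_mono subset_rfl fun m => by
      unfold mid₁ mid₂
      split_ifs
      · exact subset_rfl
      · exact bb _) (by
    intro m₁ m₂ c hc' hc
    obtain ⟨h1, ⟨-, -, h2, h3⟩ | ⟨rfl, h2, h3⟩⟩ := G_diff hc' hc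
    · exact (h3 h2).elim
    rw [G_one h1, G_one h1]
    unfold mid₁ mid₂ at *
    split_ifs at h2 h3 ⊢
    · exact (h3 h2).elim
    have h4 : ¬ c none ≤ 0 := h3
    rw [mem_ycx, zcx_point] at h2
    have h5 : (fun j => c (some j)) = ptb K.b := by
      rcases h2 with h | h | h
      · exact (h4 h).elim
      · exact h.2
      · exact h.2
    have hu : ∀ x, (fun j => Function.update c none x (some j)) = ptb K.b := by
      intro x
      rw [← h5]
      funext j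
      simp [Function.update_of_ne]
    simp only [mem_ycx, zcx_point, hu, baseY, mem_ofPred_eq, Function.update_self]
    refine ⟨by omega, ?_⟩
    norm_num)
  have za := Col.zig (j₁ := jA v₁) (Relation.ReflTransGen.single pa)
    (inBox_G hN v₁ (bd _) (bd _) (bd _) (bd _) (i2 _ (bd _) (bd _)) (bG _ _ (bb _) bm1))
  -- step b
  have pb := pcol1 k2 k3 1 (-1) (Or.inr rfl)
    (G_mono subset_rfl fun m => by
      unfold mid₂ mid₃
      split_ifs <;> first | exact subset_rfl | exact p0 | omega) (by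
    intro m₁ m₂ c hc' hc
    obtain ⟨h1, ⟨-, -, h2, h3⟩ | ⟨rfl, h2, h3⟩⟩ := G_diff hc' hc
    · exact (h3 h2).elim
    unfold mid₂ at h3
    unfold mid₃ at h2
    split_ifs at h2 h3 <;> first | exact (h3 h2).elim | omega | skip
    refine ⟨by omega, ?_⟩
    simp [G, mid₂, mid₃, h2, h3])
  have zb := Col.zig (j₁ := jA v₁) (Relation.ReflTransGen.single pb)
    (inBox_G hN v₁ (bd _) (bd _) (bd _) (bd _) (i3 _ (bd _) (bd _)) (bG _ _ (bb _) bm2))
  -- step c
  have pc := pcol1 k3 k4 2 1 (Or.inl rfl)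
    (G_mono subset_rfl fun m => by
      unfold mid₃ mid₄
      split_ifs <;> first | exact subset_rfl | exact p0 | omega) (by
    intro m₁ m₂ c hc' hc
    obtain ⟨h1, ⟨-, -, h2, h3⟩ | ⟨rfl, h2, h3⟩⟩ := G_diff hc' hc
    · exact (h3 h2).elim
    unfold mid₃ at h3
    unfold mid₄ at h2
    split_ifs at h2 h3 <;> first | exact (h3 h2).elim | omega | skip
    refine ⟨by omega, ?_⟩
    simp [G, mid₃, mid₄, h2, h3])
  have zc := Col.zig (j₁ := jA v₁) (Relation.ReflTransGen.single pc)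
    (inBox_G hN v₁ (bd _) (bd _) (bd _) (bd _) (i4 _ (bd _) (bd _)) (bG _ _ (bb _) bm3))
  -- step d
  have pd := pcol2 k4 k5 1 (-1) (Or.inr rfl)
    (G_mono (yy_mono _ subset_union_right) (i4 (fun S => S ⊆ _) subset_rfl p0)) (by
    intro m₁ m₂ c hc' hc
    have key : m₁ = 3 ∧ (m₂ = 2 ∨ m₂ = 1) ∧ c ∈ yy K.b K.N₀ ∧ c ∉ yy K.b K.N₁ := by
      obtain ⟨h1, ⟨h0, h0', h2, h3⟩ | ⟨h0', h2, h3⟩⟩ := G_diff hc' hc
      · rw [hun] at h2
        exact ⟨h0, Or.inl h0', h2.resolve_right h3, h3⟩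
      · unfold mid₄ at h3
        split_ifs at h3 with h4
        · rw [hpt] at h3
          exact ⟨h4, Or.inr h0', h2, fun h => h3 ⟨h2, h⟩⟩
        · exact (h3 h2).elim
    obtain ⟨rfl, h1, h2, h3⟩ := key
    have h4 : c ∉ baseY V := fun h => h3 (bb _ h)
    refine ⟨by omega, ?_⟩
    simp [G, row, mid₄, hun, hpt, h2, h3, h4])
  have zd := Col.zig (j₁ := jA v₁) (Relation.ReflTransGen.single pd)
    (inBox_G hN v₁ (bd _) (bd _) (bd _) (bd _) (fun _ => bd _) (bG _ _ (bb _) bm4))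
  -- the last collapse
  have k6 := K.closed_line7
  rw [line_eq] at k6 ⊢
  have bL := bG (yy K.b (K.N₀ ∪ K.N₁)) (fun _ => yy K.b K.N₀) (bb _) (fun _ => bb _)
  have pe := pcol2 k6 k5 0 1 (Or.inl rfl) (fun m₁ m₂ => by
      split_ifs with h
      · subst h; exact subset_rfl
      · exact bL _ _) (by
    intro m₁ m₂ c hc' hc
    split_ifs at hc with h
    · subst h; exact (hc hc').elim
    by_cases h1 : 0 ≤ m₁ ∧ m₁ ≤ 6
    swap
    · rw [G_out h1] at hc'; exact (hc hc').elim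
    by_cases h2 : 0 ≤ m₂ ∧ m₂ ≤ 2
    swap
    · rw [G_out' _ h2] at hc'; exact (hc hc').elim
    have e : m₂ = 0 ∨ m₂ = 1 := by omega
    have h3 : c ∈ yy K.b K.N₀ := by
      rcases e with rfl | rfl
      · rwa [G_zero h1] at hc'
      · rwa [G_one h1] at hc'
    refine ⟨by omega, ?_⟩
    simp [G, h1, h3, hc])
  have ze := Col.zig (j₁ := jA v₁) (Relation.ReflTransGen.single pe)
    (inBox_G hN v₁ (bd _) (bd _) (bd _) (bd _) (fun _ => bd _) (fun m₁ m₂ => by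
      split_ifs
      · exact bL _ _
      · exact subset_rfl))
  exact Relation.EqvGen.trans _ _ _ (Relation.EqvGen.symm _ _ z0)
    (Relation.EqvGen.trans _ _ _ za (Relation.EqvGen.trans _ _ _ zb
      (Relation.EqvGen.trans _ _ _ zc (Relation.EqvGen.trans _ _ _ zd
        (Relation.EqvGen.symm _ _ ze)))))

end SpunKnot
end
end

-- merged part: Pool.Agent.Work.MP_e1e788_gt.ZigB
section
/-! The line of complexes deforms to the half space. -/

open Set
open scoped Classical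

noncomputable section
namespace SpunKnot
variable {V : Type} [Fintype V] [LinearOrder V]

namespace ZigBAux

/-- the fibre of `line` -/
def sl (X : Set (KY V → ℤ)) : Set (KS V → ℤ) := stack fun m₂ => if m₂ = 2 then X else baseY V

omit [Fintype V] [LinearOrder V] in
theorem line_eq (T : ℤ → Set (KY V → ℤ)) : line T = stack fun m => sl (T m) := rfl

omit [Fintype V] [LinearOrder V] in
theorem mem_sl {X : Set (KY V → ℤ)} {c : KS V → ℤ} :
    c ∈ sl X ↔ (fun j => c (some j)) ∈ (if c none = 2 then X else baseY V) := Iff.rfl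

theorem closed_sl {X : Set (KY V → ℤ)} (hX : Closed X) (hb : baseY V ⊆ X) : Closed (sl X) := by
  unfold sl
  rw [closed_stack]
  refine ⟨fun n => ?_, fun n hn => ?_⟩
  · split_ifs
    · exact hX
    · exact closed_baseY
  · have h2 : n ≠ 2 := by rintro rfl; exact absurd hn (by decide)
    rw [if_neg h2]
    constructor <;> split_ifs <;> first | exact hb | exact subset_rfl

omit [Fintype V] [LinearOrder V] in
theorem sl_mono {X X' : Set (KY V → ℤ)} (h : X ⊆ X') : sl X ⊆ sl X' := by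
  intro c hc
  rw [mem_sl] at hc ⊢
  split_ifs at hc ⊢
  · exact h hc
  · exact hc

omit [Fintype V] [LinearOrder V] in
theorem mem_sl_diff {X X' : Set (KY V → ℤ)} {c : KS V → ℤ} :
    c ∈ sl X' \ sl X ↔ c none = 2 ∧ (fun j => c (some j)) ∈ X' \ X := by
  rw [mem_sdiff, mem_sl, mem_sl, mem_sdiff]
  by_cases h : c none = 2
  · simp [h]
  · simp [h]

/-- small fibres: bounded off the half space -/
def Sm (X : Set (KY V → ℤ)) : Prop :=
  ∀ c ∈ X, c ∉ baseY V → (∀ j, |c j| ≤ 6) ∧ ∀ v, 0 ≤ c (some (some v))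

omit [Fintype V] [LinearOrder V] in
theorem sm_base : Sm (baseY V) := fun _ hc hc' => absurd hc hc'

theorem sm_ycx (b : V) (L : Set (Finset V)) : Sm (ycx b (at0 L)) := by
  intro c hc hc'
  have hpos : ¬ c none ≤ 0 := hc'
  have hc2 : (fun j => c (some j)) ∈ (if c none ≤ 0 then (univ : Set (KZ V → ℤ)) else
      if c none = 1 then {ptb b} else if c none = 2 then zcx (at0 L) else ∅) := hc
  rw [if_neg hpos] at hc2
  split_ifs at hc2 with h1 h2
  · have he : ∀ j, c (some j) = ptb b j := fun j => congrFun (mem_singleton_iff.1 hc2) j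
    have hr : ∀ j, 0 ≤ c (some j) ∧ c (some j) ≤ 2 := by
      intro j; rw [he j]; unfold ptb; split_ifs <;> constructor <;> norm_num
    refine ⟨fun j => ?_, fun v => (hr _).1⟩
    rcases j with _ | j
    · rw [h1]; norm_num
    · rw [abs_le]; constructor <;> linarith only [hr, (hr j).1, (hr j).2]
  · have hc3 : (fun j => c (some (some j))) ∈ cub (if c (some none) = 0 then L else ∅) := hc2
    have h0 : c (some none) = 0 := by
      by_contra h0
      rw [if_neg h0, cub_empty] at hc3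
      exact hc3
    have hr : ∀ v, 0 ≤ c (some (some v)) ∧ c (some (some v)) ≤ 2 := by
      intro v
      rcases hc3.1 v with h | h | h <;> simp only at h <;> rw [h] <;> constructor <;> norm_num
    refine ⟨fun j => ?_, fun v => (hr _).1⟩
    rcases j with _ | _ | j
    · rw [h2]; norm_num
    · rw [h0]; norm_num
    · rw [abs_le]; constructor <;> linarith only [hr, (hr j).1, (hr j).2]
  · exact absurd hc2 (notMem_empty _)

/-- admissible families -/
structure Good (T : ℤ → Set (KY V → ℤ)) : Prop where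
  closed : ∀ m, Closed (T m)
  base : ∀ m, baseY V ⊆ T m
  odd : ∀ m, Odd m → T m ⊆ T (m + 1) ∧ T m ⊆ T (m - 1)
  sm : ∀ m, Sm (T m)
  supp : ∀ m, m < 0 ∨ 6 < m → T m = baseY V

theorem Good.closed_line {T : ℤ → Set (KY V → ℤ)} (h : Good T) : Closed (line T) := by
  rw [line_eq, closed_stack]
  exact ⟨fun m => closed_sl (h.closed m) (h.base m),
    fun m hm => ⟨sl_mono (h.odd m hm).1, sl_mono (h.odd m hm).2⟩⟩

theorem inbox_line {T T' : ℤ → Set (KY V → ℤ)} (h : Good T) (h' : Good T') (v₁ : V) :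
    InBox (jA v₁) (line T' \ line T) := by
  refine ⟨6, fun c hc => ?_⟩
  have hc1 : (fun j => c (some j)) ∈ sl (T' (c none)) \ sl (T (c none)) := hc
  rw [mem_sl_diff] at hc1
  obtain ⟨h2, hin, hout⟩ := hc1
  have hnb : (fun j => c (some (some j))) ∉ baseY V := fun hb => hout (h.base _ hb)
  have hr : ¬ (c none < 0 ∨ 6 < c none) := fun hr => hnb (by rw [← h'.supp _ hr]; exact hin)
  obtain ⟨hA, hB⟩ := h'.sm _ _ hin hnb
  refine ⟨fun j => ?_, hB v₁⟩
  rcases j with _ | _ | j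
  · rw [abs_le]; omega
  · have h2' : c (some none) = 2 := h2
    rw [h2']; norm_num
  · exact hA j

/-- a collapse along the line -/
theorem zig_along {T T' : ℤ → Set (KY V → ℤ)} (h : Good T) (h' : Good T') (v₁ : V)
    (i ε : ℤ) (hε : ε = 1 ∨ ε = -1) (hsub : ∀ n, T n ⊆ T' n)
    (hn : ∀ n, n ≠ 2 * i → n ≠ 2 * i + ε → T n = T' n)
    (hd : T' (2 * i) \ T (2 * i) = T' (2 * i + ε) \ T (2 * i + ε))
    (hb : Disjoint (T' (2 * i) \ T (2 * i)) (T' (2 * i - ε))) :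
    Zig (jA v₁) (line T) (line T') := by
  refine Relation.EqvGen.rel _ _ ⟨?_, inbox_line h h' v₁⟩
  refine pcol_stack (F := fun m => sl (T m)) (F' := fun m => sl (T' m)) h.closed_line
    h'.closed_line i ε hε (fun n => sl_mono (hsub n)) (fun n h1 h2 => by rw [hn n h1 h2]) ?_ ?_
  · ext c
    rw [mem_sl_diff, mem_sl_diff, hd]
  · rw [Set.disjoint_left]
    intro c hc hc'
    rw [mem_sl_diff] at hc
    rw [mem_sl, if_pos hc.1] at hc'
    exact Set.disjoint_left.1 hb hc.2 hc'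

/-- a collapse in one fibre -/
theorem zig_fibre {T T' : ℤ → Set (KY V → ℤ)} (h : Good T) (h' : Good T') (v₁ : V)
    (n₀ : ℤ) (hn : ∀ n, n ≠ n₀ → T n = T' n) (hc : Col (T n₀) (T' n₀)) :
    Zig (jA v₁) (line T) (line T') := by
  refine Col.zig ?_ (inbox_line h h' v₁)
  refine Col.lift (F := fun m => sl (T m)) (F' := fun m => sl (T' m)) h.closed_line
    h'.closed_line n₀ (fun n h1 => by rw [hn n h1]) ?_
  refine Col.lift (F := fun m₂ => if m₂ = 2 then T n₀ else baseY V)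
    (F' := fun m₂ => if m₂ = 2 then T' n₀ else baseY V) (closed_sl (h.closed _) (h.base _))
    (closed_sl (h'.closed _) (h'.base _)) 2 (fun n h1 => by simp only [if_neg h1]) ?_
  simpa using hc

theorem at0_mono {L L' : Set (Finset V)} (h : L ⊆ L') : ∀ n, at0 L n ⊆ at0 L' n := by
  intro n; unfold at0; split_ifs
  · exact h
  · exact subset_rfl

theorem y_mono (b : V) {L L' : Set (Finset V)} (h : L ⊆ L') :
    ycx b (at0 L) ⊆ ycx b (at0 L') := ycx_mono b (at0_mono h)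

theorem y_closed {b : V} {L : Set (Finset V)} (h : IsLowerSet L) (hb : {b} ∈ L) :
    Closed (ycx b (at0 L)) := closed_ycx (tower_at0 h) (by simpa [at0] using hb)

theorem mem_y_diff (b : V) (L L' : Set (Finset V)) (c : KY V → ℤ) :
    c ∈ ycx b (at0 L') \ ycx b (at0 L) ↔
      c none = 2 ∧ c (some none) = 0 ∧ (fun j => c (some (some j))) ∈ cub L' \ cub L := by
  have e : ∀ M : Set (Finset V), c ∈ ycx b (at0 M) ↔ (fun j => c (some j)) ∈
      (if c none ≤ 0 then (univ : Set (KZ V → ℤ)) else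
      if c none = 1 then {ptb b} else if c none = 2 then zcx (at0 M) else ∅) := fun _ => Iff.rfl
  have e2 : ∀ M : Set (Finset V), (fun j => c (some j)) ∈ zcx (at0 M) ↔
      (fun j => c (some (some j))) ∈ cub (if c (some none) = 0 then M else ∅) := fun _ => Iff.rfl
  rw [mem_sdiff, e, e, mem_sdiff]
  by_cases h0 : c none ≤ 0
  · have : c none ≠ 2 := by omega
    simp [h0, this]
  · by_cases h1 : c none = 1
    · simp [h1]
    · by_cases h2 : c none = 2
      · rw [if_neg h0, if_neg h0, if_neg h1, if_neg h1, if_pos h2, if_pos h2, e2, e2]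
        by_cases h3 : c (some none) = 0
        · simp [h2, h3]
        · simp [h3, cub_empty]
      · simp [h0, h1, h2]

/-- only the middle point carries a complex -/
def one (b : V) (L : Set (Finset V)) : ℤ → Set (KY V → ℤ) :=
  fun m => if m = 2 then ycx b (at0 L) else baseY V

theorem good_one {b : V} {L : Set (Finset V)} (h : IsLowerSet L) (hb : {b} ∈ L) :
    Good (one b L) where
  closed m := by
    unfold one; split_ifs
    · exact y_closed h hb
    · exact closed_baseY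
  base m := by
    unfold one; split_ifs
    · exact baseY_subset _ _
    · exact subset_rfl
  odd m hm := by
    have h2 : m ≠ 2 := by rintro rfl; exact absurd hm (by decide)
    unfold one
    rw [if_neg h2]
    constructor <;> split_ifs <;> first | exact baseY_subset _ _ | exact subset_rfl
  sm m := by
    unfold one; split_ifs
    · exact sm_ycx _ _
    · exact sm_base
  supp m hm := by
    unfold one; rw [if_neg (by omega)]

theorem good_base : Good (fun _ => baseY V) where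
  closed _ := closed_baseY
  base _ := subset_rfl
  odd _ _ := ⟨subset_rfl, subset_rfl⟩
  sm _ := sm_base
  supp _ _ := rfl

theorem zig_scol {b : V} {L L' : Set (Finset V)} (h : SCol L L') (hb : {b} ∈ L) (v₁ : V) :
    Zig (jA v₁) (line (one b L)) (line (one b L')) := by
  have hL := h.lower.1
  have hb' : {b} ∈ L' := h.lower.2 hb
  refine zig_fibre (good_one hL hb) (good_one h.1 hb') v₁ 2
    (fun n hn => by simp only [one, if_neg hn]) ?_
  simp only [one, if_true]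
  exact Col.toYcx (tower_at0 hL) (tower_at0 h.1) (by simpa [at0] using hb)
    (by simpa [at0] using hb') (SCols.col_at0 hL (Relation.ReflTransGen.single h))

theorem zig_rzig {b : V} {N L L' : Set (Finset V)} (hb : {b} ∈ N) (h : RZig N L L') (v₁ : V) :
    Zig (jA v₁) (line (one b L)) (line (one b L')) := by
  induction h with
  | refl => exact Relation.EqvGen.refl _
  | tail _ hs ih =>
    refine Relation.EqvGen.trans _ _ _ ih ?_
    obtain ⟨h1 | h1, h2, h3⟩ := hs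
    · exact zig_scol h1 (h2 hb) v₁
    · exact Relation.EqvGen.symm _ _ (zig_scol h1 (h3 hb) v₁)

theorem lower_pt (b : V) : IsLowerSet ({∅, {b}} : Set (Finset V)) := by
  intro s t hts hs
  rcases hs with rfl | rfl
  · left; exact Finset.subset_empty.1 hts
  · exact Finset.subset_singleton_iff.1 hts

theorem col_pt (b : V) : Col (baseY V) (ycx b (at0 {∅, {b}})) := by
  have e : baseY V = stack fun n : ℤ => if n ≤ 0 then (univ : Set (KZ V → ℤ)) else ∅ := by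
    ext c
    change c none ≤ 0 ↔ (fun j => c (some j)) ∈
      (if c none ≤ 0 then (univ : Set (KZ V → ℤ)) else ∅)
    split_ifs with h <;> simp [h]
  have hc := y_closed (lower_pt b) (b := b) (by simp)
  have hc0 : Closed (baseY V) := closed_baseY
  rw [e] at hc0 ⊢
  unfold ycx at hc ⊢
  rw [zcx_point] at hc ⊢
  refine Relation.ReflTransGen.single (pcol_stack hc0 hc 1 (-1) (Or.inr rfl) ?_ ?_ ?_ ?_)
  · intro n; split_ifs <;> simp
  · intro n h1 h2
    have h1' : n ≠ 2 := by omega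
    have h2' : n ≠ 1 := by omega
    simp [h1', h2']
  · simp
  · simp

omit [Fintype V] [LinearOrder V] in
theorem line_base : line (fun _ => baseY V) = baseA V := by
  ext c
  change (fun j => c (some (some j))) ∈ (if c (some none) = 2 then baseY V else baseY V) ↔ _
  rw [ite_self]
  rfl

theorem zig_pt (b : V) (v₁ : V) : Zig (jA v₁) (line (one b {∅, {b}})) (baseA V) := by
  rw [← line_base]
  refine Relation.EqvGen.symm _ _ (zig_fibre good_base (good_one (lower_pt b) (by simp)) v₁ 2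
    (fun n hn => by simp only [one, if_neg hn]) ?_)
  simp only [one, if_true]
  exact col_pt b

/-- the family with three inner complexes and `N` on the range `[lo, hi]` -/
def fam (b : V) (A B C N : Set (Finset V)) (lo hi : ℤ) : ℤ → Set (KY V → ℤ) :=
  fun m => if m = 2 then ycx b (at0 A) else if m = 3 then ycx b (at0 B)
    else if m = 4 then ycx b (at0 C) else if lo ≤ m ∧ m ≤ hi then ycx b (at0 N) else baseY V

theorem good_fam {b : V} {A B C N : Set (Finset V)} {lo hi : ℤ} (hA : IsLowerSet A)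
    (hB : IsLowerSet B) (hC : IsLowerSet C) (hN : IsLowerSet N) (hb : {b} ∈ N) (hNB : N ⊆ B)
    (hBA : B ⊆ A) (hBC : B ⊆ C) (hlo : lo = 0 ∨ lo = 2) (hhi : hi = 4 ∨ hi = 6) :
    Good (fam b A B C N lo hi) where
  closed m := by
    unfold fam; split_ifs
    · exact y_closed hA (hBA (hNB hb))
    · exact y_closed hB (hNB hb)
    · exact y_closed hC (hBC (hNB hb))
    · exact y_closed hN hb
    · exact closed_baseY
  base m := by
    unfold fam; split_ifs <;> first | exact baseY_subset _ _ | exact subset_rfl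
  odd m hm := by
    obtain ⟨k, rfl⟩ := hm
    unfold fam
    constructor <;> split_ifs <;>
      first
      | omega
      | exact baseY_subset _ _
      | exact subset_rfl
      | exact y_mono b hBA
      | exact y_mono b hBC
      | exact y_mono b (hNB.trans hBA)
      | exact y_mono b (hNB.trans hBC)
  sm m := by
    unfold fam; split_ifs <;> first | exact sm_ycx _ _ | exact sm_base
  supp m hm := by
    unfold fam
    rw [if_neg (by omega), if_neg (by omega), if_neg (by omega), if_neg (by omega)]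

end ZigBAux

open ZigBAux in
theorem Comb.zig_line (K : Comb V) (v₁ : V) : Zig (jA v₁) K.line7 (baseA V) := by
  obtain ⟨hb₀, hb₁⟩ := K.toCombCore.b_mem
  obtain ⟨s0Z, s1Z, s0C, s1C⟩ := K.toCombCore.subs
  have hU : IsLowerSet (K.N₀ ∪ K.N₁) := K.low₀.union K.low₁
  have hW : IsLowerSet (K.Z₁ ∪ K.Cy) := K.lowZ.union K.lowC
  have hUZ : K.N₀ ∪ K.N₁ ⊆ K.Z₁ := union_subset s0Z s1Z
  have hUC : K.N₀ ∪ K.N₁ ⊆ K.Cy := union_subset s0C s1C
  have g : ∀ lo hi : ℤ, lo = 0 ∨ lo = 2 → hi = 4 ∨ hi = 6 →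
      Good (fam K.b K.Z₁ (K.N₀ ∪ K.N₁) K.Cy K.N₀ lo hi) := fun lo hi h1 h2 =>
    good_fam K.lowZ hU K.lowC K.low₀ hb₀ subset_union_left hUZ hUC h1 h2
  have g4 : Good (fam K.b (K.Z₁ ∪ K.Cy) K.Cy K.Cy K.N₀ 2 4) :=
    good_fam hW K.lowC K.lowC K.low₀ hb₀ s0C subset_union_right subset_rfl (Or.inr rfl)
      (Or.inl rfl)
  have g3 : Good (one K.b (K.Z₁ ∪ K.Cy)) := good_one hW (Or.inl (s0Z hb₀))
  have e7 : K.line7 = line (fam K.b K.Z₁ (K.N₀ ∪ K.N₁) K.Cy K.N₀ 0 6) := rfl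
  have z1 := zig_along (g 2 6 (Or.inr rfl) (Or.inr rfl)) (g 0 6 (Or.inl rfl) (Or.inr rfl)) v₁ 0 1
    (Or.inl rfl)
    (fun n => by
      unfold fam; split_ifs <;> first | omega | exact baseY_subset _ _ | exact subset_rfl)
    (fun n h1 h2 => by
      unfold fam; split_ifs <;> first | omega | rfl)
    (by simp [fam]) (by simp [fam, Set.disjoint_left])
  have z2 := zig_along (g 2 4 (Or.inr rfl) (Or.inl rfl)) (g 2 6 (Or.inr rfl) (Or.inr rfl)) v₁ 3
    (-1) (Or.inr rfl)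
    (fun n => by
      unfold fam; split_ifs <;> first | omega | exact baseY_subset _ _ | exact subset_rfl)
    (fun n h1 h2 => by
      unfold fam; split_ifs <;> first | omega | rfl)
    (by simp [fam]) (by simp [fam, Set.disjoint_left])
  have z3 := zig_along (g 2 4 (Or.inr rfl) (Or.inl rfl)) g4 v₁ 1 1 (Or.inl rfl)
    (fun n => by
      unfold fam; split_ifs <;>
        first
        | exact subset_rfl
        | exact y_mono _ subset_union_left
        | exact y_mono _ hUC)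
    (fun n h1 h2 => by
      unfold fam; split_ifs <;> first | omega | rfl)
    (by
      have e1 : cub (K.Z₁ ∪ K.Cy) \ cub K.Z₁ = cub K.Cy \ cub (K.N₀ ∪ K.N₁) := by
        rw [← K.inter', cub_union, cub_inter]
        ext a; simp only [mem_sdiff, mem_union, mem_inter_iff]; (clear * -; tauto)
      ext c
      simp only [fam]
      norm_num only [if_true, if_false]
      rw [mem_y_diff, mem_y_diff, e1])
    (by
      simp only [fam]
      norm_num only [if_true, if_false, false_and, true_and, and_false, and_true]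
      rw [Set.disjoint_left]
      exact fun c hc hc' => hc.2 (baseY_subset _ _ hc'))
  have z4 := zig_along g3 g4 v₁ 2 (-1) (Or.inr rfl)
    (fun n => by
      unfold fam one; split_ifs <;> first | omega | exact baseY_subset _ _ | exact subset_rfl)
    (fun n h1 h2 => by
      unfold fam one; split_ifs <;> first | omega | rfl)
    (by simp [fam, one]) (by simp [fam, one, Set.disjoint_left])
  have z5 := zig_rzig (b := K.b) (by simp) K.zigT v₁
  rw [e7]
  exact (z1.symm _ _).trans _ _ _ ((z2.symm _ _).trans _ _ _ (z3.trans _ _ _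
    ((z4.symm _ _).trans _ _ _ (z5.trans _ _ _ (zig_pt K.b v₁)))))

end SpunKnot
end
end

-- merged part: Pool.Agent.Work.MP_e1e788_gt.RingC
section
/-! Regularity of `G` and `Ψ`, of the angle on them, and the unknotting diffeomorphism. -/

open Set Filter Topology

noncomputable section
namespace SpunKnot
variable {V : Type} [Fintype V] [LinearOrder V]

namespace RingCAux

set_option linter.unusedSectionVars false

/-- the projection as a linear map -/
def prL (V : Type) [Fintype V] : Sp (KA V) →L[ℝ] ℝ × Sp (KS V) :=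
  (EuclideanSpace.proj (none : KA V)).prod (tlL (KS V))

theorem prL_eq (x : Sp (KA V)) : prL V x = prA x := rfl

/-- the inverse of the projection -/
def lift (q : ℝ × Sp (KS V)) : Sp (KA V) := WithLp.toLp 2 fun j => Option.rec q.1 (fun i => q.2 i) j

theorem pr_lift (q : ℝ × Sp (KS V)) : prA (lift q) = q := rfl

theorem lift_pr (x : Sp (KA V)) : lift (prA x) = x := by
  ext j
  cases j <;> rfl

theorem lift_cont : Continuous (lift (V := V)) := by
  refine (PiLp.continuous_toLp 2 _).comp (continuous_pi fun j => ?_)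
  cases j with
  | none => exact continuous_fst
  | some i => exact (EuclideanSpace.proj i : Sp (KS V) →L[ℝ] ℝ).continuous.comp continuous_snd

theorem exists_ne {E : Type*} [NormedAddCommGroup E] [NormedSpace ℝ E] {f : E →L[ℝ] ℝ}
    (h : f ≠ 0) : ∃ v, f v ≠ 0 := by
  by_contra c
  push Not at c
  exact h (ContinuousLinearMap.ext c)

theorem ne_of {E : Type*} [NormedAddCommGroup E] [NormedSpace ℝ E] {f : E →L[ℝ] ℝ} {v : E}
    (h : f v ≠ 0) : f ≠ 0 := fun e => h (by rw [e]; rfl)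

theorem dif {E F : Type*} [NormedAddCommGroup E] [NormedSpace ℝ E] [NormedAddCommGroup F]
    [NormedSpace ℝ F] {f : E → F} (h : ContDiff ℝ (⊤ : ℕ∞) f) (x : E) : DifferentiableAt ℝ f x :=
  h.differentiable (by simp) x

theorem hY_ne {Y : Set (KA V → ℤ)} (hc : Closed Y) {x : Sp (KA V)} (h : hY Y x - 1 / 2 = 0) :
    ∃ v, fderiv ℝ (hY Y) x v ≠ 0 := by
  obtain ⟨j, hj⟩ := hY_partial_ne hc (x := x) (by linarith only [h]) (by linarith only [h])
  exact ⟨_, hj⟩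

variable (Γ : Geo V)

theorem not_off {x : Sp (KA V)} (h : ¬ Γ.D.Off (prA x)) :
    x none ∈ Icc (1 - 4 * eta) (2 + 4 * eta) ∧ tlL (KS V) x ∈ tsupport Γ.D.κ := by
  simp only [SD.Off, not_or, not_lt, not_not] at h
  exact ⟨⟨h.1, h.2.1⟩, h.2.2⟩

theorem ioo {t : ℝ} (h : t ∈ Icc (1 - 4 * eta) (2 + 4 * eta)) :
    t ∈ Ioo (2 * eta) (3 - 2 * eta) := by
  have := eta_le
  exact ⟨by linarith only [this, h, h.1], by linarith only [this, h, h.2]⟩

theorem core_all {x : Sp (KA V)} (h : x none ∈ Ioo (2 * eta) (3 - 2 * eta)) :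
    ∀ᶠ x' in 𝓝 x, ∀ g, Γ.Gof g x' = g (prA x') := by
  filter_upwards [Γ.Gof_core (fun _ => 0) h] with x' e g
  simp only [Geo.Gof, add_zero] at e ⊢
  rw [e, zero_add]

theorem core_val {x : Sp (KA V)} (h : x none ∈ Ioo (2 * eta) (3 - 2 * eta))
    (g : ℝ × Sp (KS V) → ℝ) : Γ.Gof g x = g (prA x) := (core_all Γ h).self_of_nhds g

theorem core_der {x : Sp (KA V)} (h : x none ∈ Ioo (2 * eta) (3 - 2 * eta))
    {g : ℝ × Sp (KS V) → ℝ} (hg : ContDiff ℝ (⊤ : ℕ∞) g) (v : Sp (KA V)) :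
    fderiv ℝ (Γ.Gof g) x v = fderiv ℝ g (prA x) (prA v) := by
  have e : Γ.Gof g =ᶠ[𝓝 x] g ∘ prL V := Γ.Gof_core g h
  rw [e.fderiv_eq, fderiv_comp x (dif hg _) (prL V).differentiableAt, (prL V).fderiv]
  rfl

theorem core_ne {x : Sp (KA V)} (h : x none ∈ Ioo (2 * eta) (3 - 2 * eta))
    {g : ℝ × Sp (KS V) → ℝ} (hg : ContDiff ℝ (⊤ : ℕ∞) g) (h' : fderiv ℝ g (prA x) ≠ 0) :
    fderiv ℝ (Γ.Gof g) x ≠ 0 := by
  obtain ⟨w, hw⟩ := exists_ne h'
  refine ne_of (v := lift w) ?_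
  rwa [core_der Γ h hg, pr_lift]

theorem core_arg {x : Sp (KA V)} (ht : x none ∈ Icc (1 - 4 * eta) (2 + 4 * eta))
    (hs : tlL (KS V) x ∈ tsupport Γ.D.κ) : ∃ c : ℝ, 0 < c ∧ ∀ v, dArg PhiA x v = v none * c := by
  have h1 : |x (some none) - 1| ≤ 3 * eta := (Γ.supp _ hs).1
  have h2 := eta_le
  have h3 := eta_pos
  have re : (wC x).re = x (some none) - 1 / 2 := by simp [wC]
  have im : (wC x).im = x none - 3 / 2 := by simp [wC]
  rw [abs_le] at h1
  obtain ⟨c, hc, e⟩ := Lam_dI (wC x)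
  refine ⟨c * (wC x).re, mul_pos hc (by rw [re]; linarith only [h1, h2, h3, h1.1]), fun v => ?_⟩
  rw [dArg_PhiA, e, Lam_core, mul_zero, zero_add]
  · rw [re, abs_lt]
    constructor <;> linarith only [h1, h3, h1.1, h1.2]
  · rw [im, abs_lt]
    constructor <;> linarith only [h2, h3, ht, ht.1, ht.2]

theorem off_der {x : Sp (KA V)} (h : Γ.D.Off (prA x)) :
    fderiv ℝ Γ.G x = fderiv ℝ (hY Γ.K.plain) x := by
  have e : Γ.G =ᶠ[𝓝 x] fun x' => hY Γ.K.plain x' - 1 / 2 := (Γ.off h).mono fun _ e => e.1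
  rw [e.fderiv_eq, fderiv_sub_const]

theorem off_derΨ {x : Sp (KA V)} (h : Γ.D.Off (prA x)) (s θ : ℝ) (v : ℝ × Sp (KA V)) :
    fderiv ℝ (fun q : ℝ × Sp (KA V) => Γ.Ψ (s, q)) (θ, x) v =
      fderiv ℝ (hY Γ.K.plain) x v.2 := by
  have e : (fun q : ℝ × Sp (KA V) => Γ.Ψ (s, q)) =ᶠ[𝓝 (θ, x)]
      fun q => (hY Γ.K.plain ∘ Prod.snd) q - 1 / 2 :=
    ((continuous_snd.tendsto (θ, x)).eventually (Γ.off h)).mono fun q e => e.2.2 s q.1
  rw [e.fderiv_eq, fderiv_sub_const, fderiv_comp (θ, x) (dif (hY_smooth _) _) differentiableAt_snd,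
    fderiv_snd]
  rfl

theorem core_derΨ {x : Sp (KA V)} (h : x none ∈ Ioo (2 * eta) (3 - 2 * eta)) (s θ : ℝ)
    (v : ℝ × Sp (KA V)) : fderiv ℝ (fun q : ℝ × Sp (KA V) => Γ.Ψ (s, q)) (θ, x) v =
      fderiv ℝ (fun z : ℝ × ℝ × Sp (KS V) => Γ.D.gS Γ.F s z.1 z.2) (θ, prA x) (v.1, prA v.2) := by
  have hg : ContDiff ℝ (⊤ : ℕ∞) fun z : ℝ × ℝ × Sp (KS V) => Γ.D.gS Γ.F s z.1 z.2 :=
    (Γ.D.gS_smooth Γ.hF).comp (contDiff_const.prodMk contDiff_id)
  let L := (ContinuousLinearMap.id ℝ ℝ).prodMap (prL V)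
  have e : (fun q : ℝ × Sp (KA V) => Γ.Ψ (s, q)) =ᶠ[𝓝 (θ, x)]
      (fun z : ℝ × ℝ × Sp (KS V) => Γ.D.gS Γ.F s z.1 z.2) ∘ L :=
    ((continuous_snd.tendsto (θ, x)).eventually (core_all Γ h)).mono fun q e => e _
  rw [e.fderiv_eq, fderiv_comp (θ, x) (dif hg _) L.differentiableAt, L.fderiv]
  rfl

end RingCAux

open RingCAux

namespace Geo
variable (Γ : Geo V)

theorem G_reg {x : Sp (KA V)} (h : Γ.G x = 0) : fderiv ℝ Γ.G x ≠ 0 := by
  by_cases ho : Γ.D.Off (prA x)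
  · rw [off_der Γ ho]
    obtain ⟨v, hv⟩ := hY_ne Γ.K.closed_plain ((Γ.off ho).self_of_nhds.1.symm.trans h)
    exact ne_of hv
  · have ht := ioo (not_off Γ ho).1
    have e : Γ.D.gI 1 = Γ.D.gK := funext Γ.D.gI_one
    refine core_ne Γ ht Γ.D.gK_smooth ?_
    rw [← e]
    refine Γ.D.gI_reg one_pos le_rfl ?_
    rw [e]
    exact (core_val Γ ht _).symm.trans h

theorem arg_reg' {x : Sp (KA V)} (h : Γ.G x = 0) (hs : tlL (KS V) x ∈ tsupport Γ.D.κ)
    (ht : x none ∈ Icc (1 - 4 * eta) (2 + 4 * eta))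
    (hx : x none ≤ 1 - 2 * eta ∨ 1 - eta ≤ x none ∨ Γ.D.κ (tlL (KS V) x) < 1) :
    ∃ v, fderiv ℝ Γ.G x v = 0 ∧ 0 < dArg PhiA x v ∧
      fderiv ℝ Γ.D.κ (tlL (KS V) x) (tlL (KS V) v) = 0 := by
  have h0 : Γ.D.gK (x none, tlL (KS V) x) = 0 := (core_val Γ (ioo ht) _).symm.trans h
  obtain ⟨e, h1, h2⟩ := Γ.D.gK_slice h0 hx
  obtain ⟨c, hc, ha⟩ := core_arg Γ ht hs
  set f := fderiv ℝ Γ.D.gK (x none, tlL (KS V) x) with hf
  refine ⟨lift ((1, 0) + (-f (1, 0) / f (0, e)) • (0, e)), ?_, ?_, ?_⟩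
  · refine (core_der Γ (ioo ht) Γ.D.gK_smooth _).trans ?_
    rw [pr_lift]
    change f _ = 0
    rw [map_add, map_smul, smul_eq_mul, div_mul_cancel₀ _ h1, add_neg_cancel]
  · rw [ha]
    change 0 < (1 + (-f (1, 0) / f (0, e)) * 0) * c
    simpa using hc
  · change fderiv ℝ Γ.D.κ (tlL (KS V) x) (0 + (-f (1, 0) / f (0, e)) • e) = 0
    rw [zero_add, map_smul, h2, smul_zero]

theorem arg_reg {x : Sp (KA V)} (h : Γ.G x = 0) (hw : wC x ≠ 0)
    (hx : tlL (KS V) x ∉ tsupport Γ.D.κ ∨ x none ≤ 1 - 2 * eta ∨ 1 - eta ≤ x none) :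
    ∃ v, fderiv ℝ Γ.G x v = 0 ∧ 0 < dArg PhiA x v := by
  by_cases ho : Γ.D.Off (prA x)
  · have e := (Γ.off ho).self_of_nhds.1.symm.trans h
    rw [off_der Γ ho]
    exact Γ.K.plain_arg (by linarith only [e]) (by linarith only [e]) hw
  · obtain ⟨ht, hs⟩ := not_off Γ ho
    obtain ⟨v, h1, h2, -⟩ := Γ.arg_reg' h hs ht
      ((hx.resolve_left (not_not.2 hs)).imp_right Or.inl)
    exact ⟨v, h1, h2⟩

theorem G_dec {x : Sp (KA V)} (h0 : 1 - 3 * eta < x none) (h1 : x none < 1 - eta / 2)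
    (hκ : 0 < Γ.D.κ (tlL (KS V) x)) :
    fderiv ℝ Γ.G x (EuclideanSpace.single none 1) < 0 := by
  have h2 := eta_pos
  have e : prA (EuclideanSpace.single none 1 : Sp (KA V)) = (1, 0) := by
    refine Prod.ext (by simp [prA]) ?_
    ext j
    simp [prA]
  refine (core_der Γ (ioo ⟨by linarith only [h0, h2], by linarith only [h1, h2]⟩) Γ.D.gK_smooth _).trans_lt ?_
  rw [e]
  exact Γ.D.gK_dec h0 h1 hκ

theorem Ψ_reg {s θ : ℝ} (hs : s ∈ Icc (0 : ℝ) 1) (hθ : θ ∈ Icc (-Real.pi) Real.pi)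
    {x : Sp (KA V)} (h : Γ.Ψ (s, θ, x) = 0) :
    fderiv ℝ (fun q : ℝ × Sp (KA V) => Γ.Ψ (s, q)) (θ, x) ≠ 0 := by
  by_cases ho : Γ.D.Off (prA x)
  · obtain ⟨v, hv⟩ := hY_ne Γ.K.closed_plain (((Γ.off ho).self_of_nhds.2.2 s θ).symm.trans h)
    refine ne_of (v := (0, v)) ?_
    rwa [off_derΨ Γ ho]
  · have ht := ioo (not_off Γ ho).1
    obtain ⟨w, hw⟩ := exists_ne (Γ.D.gS_reg Γ.hF hs hθ ((core_val Γ ht _).symm.trans h))
    refine ne_of (v := (w.1, lift w.2)) ?_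
    rw [core_derΨ Γ ht]
    exact hw

theorem Ψ_fib {θ : ℝ} (hθ : θ ∈ Icc (-Real.pi) Real.pi) {x : Sp (KA V)}
    (h : Γ.Ψ (1, θ, x) = 0) (hw : wC x ≠ 0) :
    ∃ v : ℝ × Sp (KA V), fderiv ℝ (fun q : ℝ × Sp (KA V) => Γ.Ψ (1, q)) (θ, x) v = 0 ∧
      dArg PhiA x v.2 ≠ 0 := by
  by_cases ho : Γ.D.Off (prA x)
  · have e := ((Γ.off ho).self_of_nhds.2.2 1 θ).symm.trans h
    obtain ⟨v, h1, h2⟩ := Γ.K.plain_arg (x := x) (by linarith only [e]) (by linarith only [e]) hw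
    exact ⟨(0, v), (off_derΨ Γ ho _ _ _).trans h1, h2.ne'⟩
  · obtain ⟨ht, hs⟩ := not_off Γ ho
    obtain ⟨a, e, h1⟩ := Γ.D.gS_fib Γ.hF hθ ((core_val Γ (ioo ht) _).symm.trans h)
    obtain ⟨c, hc, ha⟩ := core_arg Γ ht hs
    set f := fderiv ℝ (fun z : ℝ × ℝ × Sp (KS V) => Γ.D.gS Γ.F 1 z.1 z.2) (θ, prA x) with hf
    let w : ℝ × ℝ × Sp (KS V) := (0, 1, 0) + (-f (0, 1, 0) / f (a, 0, e)) • (a, 0, e)
    refine ⟨(w.1, lift w.2), (core_derΨ Γ (ioo ht) _ _ _).trans ?_, ?_⟩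
    · change f w = 0
      rw [map_add, map_smul, smul_eq_mul, div_mul_cancel₀ _ h1, add_neg_cancel]
    · rw [ha]
      change (1 + (-f (0, 1, 0) / f (a, 0, e)) * 0) * c ≠ 0
      simpa using hc.ne'

theorem iso (v₁ : V) : ∃ C : Set (Sp (KA V)), IsCompact C ∧ (∀ x ∈ C, -1 / 2 ≤ x (jA v₁)) ∧
    Iso C (fun x => stp (x (some (some none))) - 1 / 2) Γ.G := by
  obtain ⟨C₁, a1, a2, a3⟩ := Zig.iso
    (Relation.EqvGen.trans _ _ _ (Γ.K.zig_ring v₁) (Γ.K.zig_line v₁))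
  have h2 := eta_le
  have h3 := eta_pos
  let C₂ : Set (Sp (KA V)) := lift '' (Icc (3 / 4 : ℝ) (9 / 4) ×ˢ tsupport Γ.D.κ)
  have b1 : IsCompact C₂ := (isCompact_Icc.prod Γ.D.κ_cpt).image lift_cont
  have hs : ContDiff ℝ (⊤ : ℕ∞) fun z : ℝ × Sp (KA V) => Γ.Gof (Γ.D.gI z.1) z.2 :=
    (((hY_smooth _).comp contDiff_snd).sub
      (Γ.D.hQ.ends.1.comp ((tlL (KS V)).contDiff.comp contDiff_snd))).add
      (Γ.D.gI_smooth.comp (contDiff_fst.prodMk ((prL V).contDiff.comp contDiff_snd)))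
  have e0 : (fun x => Γ.Gof (Γ.D.gI 0) x) = fun x => hY Γ.K.ring x - 1 / 2 :=
    funext fun x => (Γ.ring_eq x).symm
  have b3 := iso_of_family hs b1 (fun s _ x hx => by
      have ho : Γ.D.Off (prA x) := by
        by_contra ho
        obtain ⟨ht, hs⟩ := not_off Γ ho
        exact hx ⟨prA x, ⟨⟨by linarith only [h2, h3, ht, ht.1, show (prA x).1 = x none from rfl],
          by linarith only [h2, h3, ht, ht.2, show (prA x).1 = x none from rfl]⟩, hs⟩, lift_pr x⟩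
      have e := (Γ.off ho).self_of_nhds.2.1
      exact (e s).trans (e 0).symm) (by
      rintro s hs' _ ⟨q, hq, rfl⟩ h
      rcases hs'.1.eq_or_lt with rfl | hp
      · have h' : hY Γ.K.ring (lift q) - 1 / 2 = 0 := (Γ.ring_eq _).trans h
        obtain ⟨v, hv⟩ := hY_ne Γ.K.closed_ring h'
        simp only [e0, fderiv_sub_const]
        exact ne_of hv
      · have ht : lift q none ∈ Ioo (2 * eta) (3 - 2 * eta) :=
          ⟨by linarith only [h2, h3, hq, hq.1.1, show lift q none = q.1 from rfl],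
            by linarith only [h2, h3, hq, hq.1.2, show lift q none = q.1 from rfl]⟩
        exact core_ne Γ ht (Γ.D.gI_smooth.comp (contDiff_const.prodMk contDiff_id))
          (Γ.D.gI_reg hp hs'.2 ((core_val Γ ht _).symm.trans h)))
  have e1 : (fun x => Γ.Gof (Γ.D.gI 1) x) = Γ.G := by
    rw [funext Γ.D.gI_one]
    rfl
  have e2 : (fun x : Sp (KA V) => hY (baseA V) x - 1 / 2) =
      fun x => stp (x (some (some none))) - 1 / 2 :=
    funext fun x => congrArg (· - 1 / 2) (hY_base _ x)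
  simp only [e0, e1] at b3
  rw [e2] at a3
  refine ⟨C₁ ∪ C₂, a1.union b1, ?_, a3.symm.trans b3⟩
  rintro x (hx | ⟨q, hq, rfl⟩)
  · exact a2 x hx
  · exact (Γ.supp _ hq.2).2 v₁
end Geo

end SpunKnot
end
end

-- merged part: Pool.Agent.Work.MP_e1e788_gt.CovA
section
/-! Charts of the cover; topology of the sets `below`. -/

open Set Filter Topology

noncomputable section
namespace SpunKnot
variable {E : Type*} [NormedAddCommGroup E] [NormedSpace ℝ E]
variable {V : Type*} [NormedAddCommGroup V] [InnerProductSpace ℝ V] [FiniteDimensional ℝ V]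
variable {F₂ : Type*} [NormedAddCommGroup F₂] [NormedSpace ℝ F₂]
variable {G : V → ℝ} {Φ : V → ℂ} {X : Set V}

namespace CovAAux

omit [FiniteDimensional ℝ V] in
theorem cont_pt : Continuous (fun p : Lft V => p.pt) :=
  continuous_fst.comp (WithLp.prod_continuous_ofLp 2 V ℝ)

omit [FiniteDimensional ℝ V] in
theorem cont_ang : Continuous (fun p : Lft V => p.ang) :=
  continuous_snd.comp (WithLp.prod_continuous_ofLp 2 V ℝ)

omit [FiniteDimensional ℝ V] in
theorem closed_eqs (hG : Continuous G) (hΦ : Continuous Φ) :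
    IsClosed {p : Lft V | G p.pt = 0 ∧
      Φ p.pt = ‖Φ p.pt‖ * Complex.exp (p.ang * Complex.I)} := by
  refine IsClosed.inter (isClosed_eq (hG.comp cont_pt) continuous_const) (isClosed_eq ?_ ?_)
  · exact hΦ.comp cont_pt
  · have h1 : Continuous fun p : Lft V => ((‖Φ p.pt‖ : ℝ) : ℂ) :=
      Complex.continuous_ofReal.comp (hΦ.comp cont_pt).norm
    have h2 : Continuous fun p : Lft V => Complex.exp (p.ang * Complex.I) :=
      Complex.continuous_exp.comp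
        ((Complex.continuous_ofReal.comp cont_ang).mul continuous_const)
    exact h1.mul h2

theorem fderiv_left {f : E × ℝ → ℝ} {s₀ : ℝ} (hf : DifferentiableAt ℝ f (0, s₀)) (v : E) :
    fderiv ℝ f (0, s₀) (v, 0) = fderiv ℝ (fun u => f (u, s₀)) 0 v := by
  have h := hf.hasFDerivAt.comp (0 : E) (hasFDerivAt_prodMk_left (𝕜 := ℝ) (0 : E) s₀)
  have h2 : fderiv ℝ (fun u => f (u, s₀)) 0 = _ := h.fderiv
  rw [h2]; simp

theorem ang_unique {z : ℂ} (hz : z ≠ 0) {a b : ℝ} (ha : z = ‖z‖ * Complex.exp (a * Complex.I))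
    (hb : z = ‖z‖ * Complex.exp (b * Complex.I)) (hab : |a - b| < 2 * Real.pi) : a = b := by
  have hn : ((‖z‖ : ℝ) : ℂ) ≠ 0 := by
    exact_mod_cast (norm_ne_zero_iff.mpr hz)
  have he : Complex.exp (a * Complex.I) = Complex.exp (b * Complex.I) :=
    mul_left_cancel₀ hn (ha.symm.trans hb)
  obtain ⟨n, hn'⟩ := Complex.exp_eq_exp_iff_exists_int.mp he
  have h1 : a = b + n * (2 * Real.pi) := by
    have := congrArg Complex.im hn'
    simpa using this
  have h2 : |(n : ℝ)| < 1 := by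
    have hp : 0 < 2 * Real.pi := by positivity
    rw [h1, add_sub_cancel_left, abs_mul, abs_of_pos hp] at hab
    by_contra hc
    push Not at hc
    linarith only [hab, hp, hc, mul_nonneg_of_nonpos_of_nonpos (le_of_lt (Mathlib.Tactic.Linarith.sub_neg_of_lt hp)) (Mathlib.Tactic.Linarith.sub_nonpos_of_le hc)]
  have h3 : n = 0 := by
    have : |n| < 1 := by exact_mod_cast h2
    exact Int.abs_lt_one_iff.mp this
  simp [h1, h3]

end CovAAux
open CovAAux

theorem isClosed_below (hG : Continuous G) (hΦ : Continuous Φ) (hX : IsCompact X)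
    (hXΦ : ∀ ξ ∈ X, Φ ξ ≠ 0) {γ : V → ℝ} (hγ : ContinuousOn γ X) :
    IsClosed (below G Φ X γ) := by
  have hcl : IsClosed ((fun p : Lft V => p.pt) ⁻¹' X) := hX.isClosed.preimage cont_pt
  have h1 : IsClosed {p ∈ (fun p : Lft V => p.pt) ⁻¹' X | p.ang ≤ γ p.pt} :=
    hcl.isClosed_le cont_ang.continuousOn
      (hγ.comp cont_pt.continuousOn (fun _ h => h))
  convert (closed_eqs hG hΦ).inter h1 using 1
  ext p
  constructor
  · rintro ⟨⟨h1, _, h3⟩, h4, h5⟩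
    exact ⟨⟨h1, h3⟩, h4, h5⟩
  · rintro ⟨⟨h1, h3⟩, h4, h5⟩
    exact ⟨⟨h1, hXΦ _ h4, h3⟩, h4, h5⟩

/-- the slab over `X` between two heights is compact -/
theorem isCompact_slab (hG : Continuous G) (hΦ : Continuous Φ) (hX : IsCompact X)
    (hXΦ : ∀ ξ ∈ X, Φ ξ ≠ 0) (a b : ℝ) :
    IsCompact {p | p ∈ cov G Φ ∧ p.pt ∈ X ∧ p.ang ∈ Icc a b} := by
  have hK : IsCompact ((WithLp.toLp 2 : V × ℝ → Lft V) '' (X ×ˢ Icc a b)) :=
    (hX.prod isCompact_Icc).image (WithLp.prod_continuous_toLp 2 V ℝ)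
  convert hK.inter_right (closed_eqs hG hΦ) using 1
  ext p
  constructor
  · rintro ⟨⟨h1, _, h3⟩, h4, h5⟩
    exact ⟨⟨p.ofLp, ⟨h4, h5⟩, rfl⟩, h1, h3⟩
  · rintro ⟨⟨q, ⟨h4, h5⟩, rfl⟩, h1, h3⟩
    exact ⟨⟨h1, hXΦ _ h4, h3⟩, h4, h5⟩

theorem deck_below (γ : V → ℝ) :
    deck V '' below G Φ X γ = below G Φ X (fun x => γ x + 2 * Real.pi) := by
  have hpt : ∀ p : Lft V, (deck V p).pt = p.pt := fun p => by simp [deck, Lft.pt]
  have hang : ∀ p : Lft V, (deck V p).ang = p.ang + 2 * Real.pi := fun p => by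
    simp [deck, Lft.ang]
  have hexp : ∀ p : Lft V, Complex.exp ((deck V p).ang * Complex.I) =
      Complex.exp (p.ang * Complex.I) := fun p => by
    rw [hang]
    push_cast
    rw [add_mul, Complex.exp_add, Complex.exp_two_pi_mul_I, mul_one]
  have key : ∀ p : Lft V, deck V p ∈ below G Φ X (fun x => γ x + 2 * Real.pi) ↔
      p ∈ below G Φ X γ := fun p => by
    simp only [below, cov, mem_setOf_eq]
    rw [hexp, hpt, hang, add_le_add_iff_right]
  ext q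
  constructor
  · rintro ⟨p, hp, rfl⟩
    exact (key p).mpr hp
  · intro hq
    refine ⟨(deck V).symm q, (key _).mp ?_, by simp⟩
    simpa using hq

theorem below_nonempty (hX : X.Nonempty) (hXG : ∀ ξ ∈ X, G ξ = 0 ∧ Φ ξ ≠ 0) (γ : V → ℝ) :
    (below G Φ X γ).Nonempty := by
  obtain ⟨ξ, hξ⟩ := hX
  obtain ⟨n, hn⟩ := exists_nat_ge ((Complex.arg (Φ ξ) - γ ξ) / (2 * Real.pi))
  have hp : 0 < 2 * Real.pi := by positivity
  refine ⟨WithLp.toLp 2 (ξ, Complex.arg (Φ ξ) - n * (2 * Real.pi)),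
    ⟨(hXG ξ hξ).1, (hXG ξ hξ).2, ?_⟩, hξ, ?_⟩
  · show Φ ξ = ‖Φ ξ‖ * Complex.exp (((Complex.arg (Φ ξ) - n * (2 * Real.pi) : ℝ) : ℂ) * Complex.I)
    push_cast
    rw [sub_mul, Complex.exp_sub, mul_assoc (n : ℂ), Complex.exp_nat_mul_two_pi_mul_I, div_one,
      Complex.norm_mul_exp_arg_mul_I]
  · show Complex.arg (Φ ξ) - n * (2 * Real.pi) ≤ γ ξ
    rw [div_le_iff₀ hp] at hn
    linarith only [hn]

/-- MFCQ for the family `s ↦ below G Φ X (γ s)`, for the auxiliary map `e`, which is either the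
identity or factors through a map `e₀` of the base that is immersive on the hypersurface. -/
theorem mfcq_below (hΦ : ContDiff ℝ 2 Φ) {p : Lft V} (hp : p ∈ cov G Φ) {χ : E → V}
    (hχ : IsChart E G χ p.pt) {g : E → ℝ} (hg : ContDiffAt ℝ 2 g 0)
    (hX : ∀ᶠ u in 𝓝 (0 : E), χ u ∈ X ↔ g u ≤ 0) {γ : ℝ → V → ℝ} {s₀ : ℝ}
    (hγ : ContDiffAt ℝ 2 (fun q : E × ℝ => γ q.2 (χ q.1)) (0, s₀))
    (hv : ∃ v : E, (g 0 = 0 → 0 < fderiv ℝ g 0 v) ∧ (p.ang = γ s₀ p.pt →
      fderiv ℝ (fun u => γ s₀ (χ u)) 0 v < dArg Φ p.pt (fderiv ℝ χ 0 v) / ‖Φ p.pt‖ ^ 2)) :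
    MFCQAt E (cov G Φ) (fun s => below G Φ X (γ s)) id p s₀ ∧
      ∀ e₀ : V →L[ℝ] F₂, (∀ v, fderiv ℝ G p.pt v = 0 → e₀ v = 0 → v = 0) →
        DifferentiableAt ℝ G p.pt →
        MFCQAt E (cov G Φ) (fun s => below G Φ X (γ s)) (fun q => e₀ q.pt) p s₀ := by
  obtain ⟨hpG, hp0, hpe⟩ := hp
  obtain ⟨v, hv1, hv2⟩ := hv
  set w : E → ℂ := fun u => Φ (χ u) / Φ p.pt with hw
  set a : E → ℝ := fun u => p.ang + (Complex.log (w u)).im with ha
  set ψ : E → Lft V := fun u => WithLp.toLp 2 (χ u, a u) with hψ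
  have hΦχ : ContDiffAt ℝ 2 (fun u => Φ (χ u)) 0 := hΦ.contDiffAt.comp 0 hχ.smooth
  have hwc : ContDiffAt ℝ 2 w 0 := hΦχ.div_const _
  have hw0 : w 0 = 1 := by
    show Φ (χ 0) / Φ p.pt = 1
    rw [hχ.zero, div_self hp0]
  have hlog : ContDiffAt ℝ 2 Complex.log (w 0) := by
    rw [hw0]
    exact (Complex.contDiffAt_log (n := 2) Complex.one_mem_slitPlane).restrict_scalars ℝ
  have hac : ContDiffAt ℝ 2 a 0 :=
    contDiffAt_const.add (Complex.imCLM.contDiff.contDiffAt.comp 0 (hlog.comp 0 hwc))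
  have ha0 : a 0 = p.ang := by simp [ha, hw0]
  have hψc : ContDiffAt ℝ 2 ψ 0 :=
    (WithLp.prodContinuousLinearEquiv 2 ℝ V ℝ).symm.contDiff.contDiffAt.comp 0
      (hχ.smooth.prodMk hac)
  have hψ0 : ψ 0 = p := by
    simp only [hψ, hχ.zero, ha0]
  have two_ne : (2 : WithTop ℕ∞) ≠ 0 := by norm_num
  have hχd : DifferentiableAt ℝ χ 0 := hχ.smooth.differentiableAt two_ne
  -- derivative of the angle
  have hda : fderiv ℝ a 0 v = dArg Φ p.pt (fderiv ℝ χ 0 v) / ‖Φ p.pt‖ ^ 2 := by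
    have h1 : HasFDerivAt Φ (fderiv ℝ Φ p.pt) (χ 0) := by
      rw [hχ.zero]; exact (hΦ.differentiable two_ne _).hasFDerivAt
    have h2 := (h1.comp 0 hχd.hasFDerivAt).mul_const (Φ p.pt)⁻¹
    have h2' : HasFDerivAt w _ 0 := h2
    have h3 : HasDerivAt Complex.log 1 (w 0) := by
      rw [hw0]; simpa using Complex.hasDerivAt_log Complex.one_mem_slitPlane
    have h4 := (h3.hasFDerivAt.restrictScalars ℝ).comp 0 h2'
    have h5 := (Complex.imCLM.hasFDerivAt.comp 0 h4).const_add p.ang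
    have h6 : fderiv ℝ a 0 = _ := h5.fderiv
    rw [h6, dArg]
    have hn : (‖Φ p.pt‖ ^ 2 : ℝ) = Complex.normSq (Φ p.pt) := Complex.sq_norm _
    rw [hn]
    generalize Φ p.pt = z
    generalize fderiv ℝ Φ p.pt = L
    simp
    ring
  have hG0 : ∀ᶠ u in 𝓝 (0 : E), G (χ u) = 0 := by
    have : {x | G x = 0} ∈ map χ (𝓝 0) := by rw [hχ.nhds]; exact self_mem_nhdsWithin
    exact this
  have hne : ∀ᶠ u in 𝓝 (0 : E), Φ (χ u) ≠ 0 := by
    apply hΦχ.continuousAt.eventually_ne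
    simpa [hχ.zero] using hp0
  have hcov : ∀ᶠ u in 𝓝 (0 : E), ψ u ∈ cov G Φ := by
    filter_upwards [hG0, hne] with u h1 h2
    refine ⟨h1, h2, ?_⟩
    show Φ (χ u) = ‖Φ (χ u)‖ * Complex.exp ((a u : ℂ) * Complex.I)
    have e1 : Φ (χ u) = w u * Φ p.pt := (div_mul_cancel₀ _ hp0).symm
    have e2 : (a u : ℂ) * Complex.I = p.ang * Complex.I + Complex.arg (w u) * Complex.I := by
      simp only [ha, Complex.log_im]; push_cast; ring
    rw [e2, Complex.exp_add, e1, norm_mul]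
    push_cast
    conv_lhs => rw [← Complex.norm_mul_exp_arg_mul_I (w u), hpe]
    ring
  have hmap : map ψ (𝓝 0) = 𝓝[cov G Φ] p := by
    apply le_antisymm
    · refine tendsto_nhdsWithin_iff.mpr ⟨?_, hcov⟩
      rw [← hψ0]; exact hψc.continuousAt
    · intro s hs
      have hU : ∀ᶠ u in 𝓝 (0 : E), ψ u ∈ s ∧ ψ u ∈ cov G Φ ∧ |a u - p.ang| < Real.pi := by
        have h3 : ∀ᶠ u in 𝓝 (0 : E), |a u - p.ang| < Real.pi := by
          have := hac.continuousAt.eventually (Metric.ball_mem_nhds (a 0) Real.pi_pos)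
          filter_upwards [this] with u hu
          rwa [Real.dist_eq, ha0] at hu
        filter_upwards [hs, hcov, h3] with u h1 h2 h3 using ⟨h1, h2, h3⟩
      have hI : χ '' {u | ψ u ∈ s ∧ ψ u ∈ cov G Φ ∧ |a u - p.ang| < Real.pi} ∈
          𝓝[{x | G x = 0}] p.pt := by
        rw [← hχ.nhds]; exact image_mem_map hU
      have hT : Tendsto (fun q : Lft V => q.pt) (𝓝[cov G Φ] p) (𝓝[{x | G x = 0}] p.pt) := by
        refine tendsto_nhdsWithin_iff.mpr ⟨cont_pt.continuousAt.mono_left nhdsWithin_le_nhds, ?_⟩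
        filter_upwards [self_mem_nhdsWithin] with q hq using hq.1
      have hA : ∀ᶠ q in 𝓝[cov G Φ] p, |q.ang - p.ang| < Real.pi := by
        have := (cont_ang (V := V)).continuousAt.eventually
          (Metric.ball_mem_nhds p.ang Real.pi_pos)
        filter_upwards [nhdsWithin_le_nhds this] with q hq
        rwa [Real.dist_eq] at hq
      filter_upwards [hT hI, hA, self_mem_nhdsWithin] with q h1 h2 h3
      obtain ⟨u, ⟨hu1, hu2, hu3⟩, hu4⟩ := h1
      have e1 : q.ang = a u := by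
        have hu5 : Φ (χ u) = ‖Φ (χ u)‖ * Complex.exp ((a u : ℂ) * Complex.I) := hu2.2.2
        have hu4' : χ u = q.pt := hu4
        rw [hu4'] at hu5
        refine ang_unique h3.2.1 h3.2.2 hu5 ?_
        have := abs_sub_lt_iff.mp h2
        have := abs_sub_lt_iff.mp hu3
        rw [abs_sub_lt_iff]; constructor <;> linarith
      have e2 : q = ψ u := by
        have hu4' : χ u = q.pt := hu4
        simp only [hψ, hu4', ← e1]
      rw [e2]; exact hu1
  have hψinj : Function.Injective (fderiv ℝ ψ 0) := by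
    let P : Lft V →L[ℝ] V := (ContinuousLinearMap.fst ℝ V ℝ).comp
      (WithLp.prodContinuousLinearEquiv 2 ℝ V ℝ : Lft V →L[ℝ] V × ℝ)
    have h1 := P.hasFDerivAt.comp 0 (hψc.differentiableAt two_ne).hasFDerivAt
    have h2 : fderiv ℝ χ 0 = _ := h1.fderiv
    have h3 := hχ.inj
    rw [h2] at h3
    exact Function.Injective.of_comp (f := P) h3
  let gs : Fin 2 → E × ℝ → ℝ := ![fun q => g q.1, fun q => a q.1 - γ q.2 (χ q.1)]
  have hg0 : ContDiffAt ℝ 2 (fun q : E × ℝ => g q.1) (0, s₀) :=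
    ContDiffAt.comp (g := g) (f := Prod.fst) (0, s₀) hg contDiffAt_fst
  have hg1 : ContDiffAt ℝ 2 (fun q : E × ℝ => a q.1 - γ q.2 (χ q.1)) (0, s₀) :=
    (ContDiffAt.comp (g := a) (f := Prod.fst) (0, s₀) hac contDiffAt_fst).sub hγ
  have hgs : ∀ j, ContDiffAt ℝ 2 (gs j) (0, s₀) := by
    intro j; fin_cases j
    · exact hg0
    · exact hg1
  have hact : ∀ j, gs j (0, s₀) = 0 → 0 < fderiv ℝ (gs j) (0, s₀) (v, 0) := by
    intro j hj
    rw [fderiv_left ((hgs j).differentiableAt two_ne)]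
    fin_cases j
    · exact hv1 hj
    · have hj' : a 0 - γ s₀ (χ 0) = 0 := hj
      rw [ha0, hχ.zero, sub_eq_zero] at hj'
      have hd : DifferentiableAt ℝ (fun u => γ s₀ (χ u)) 0 :=
        DifferentiableAt.comp (g := fun q : E × ℝ => γ q.2 (χ q.1)) (f := fun u => (u, s₀)) 0
          (hγ.differentiableAt two_ne) (by fun_prop)
      show 0 < fderiv ℝ (fun u => a u - γ s₀ (χ u)) 0 v
      rw [fderiv_fun_sub (hac.differentiableAt two_ne) hd, ContinuousLinearMap.sub_apply, hda]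
      linarith only [hv2, hj', hv2 hj']
  have hiff : ∀ᶠ q : E × ℝ in 𝓝 (0, s₀), ψ q.1 ∈ below G Φ X (γ q.2) ↔ ∀ j, gs j q ≤ 0 := by
    have ht : Tendsto (Prod.fst : E × ℝ → E) (𝓝 (0, s₀)) (𝓝 0) := continuous_fst.continuousAt
    filter_upwards [ht hcov, ht hX] with q h1 h2
    have h1' : ψ q.1 ∈ cov G Φ := h1
    have h2' : χ q.1 ∈ X ↔ g q.1 ≤ 0 := h2
    rw [Fin.forall_fin_two]
    show (ψ q.1 ∈ cov G Φ ∧ χ q.1 ∈ X ∧ a q.1 ≤ γ q.2 (χ q.1)) ↔
      g q.1 ≤ 0 ∧ a q.1 - γ q.2 (χ q.1) ≤ 0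
    rw [h2', sub_nonpos]
    (clear * - h1' h2' hv1 hv2; tauto)
  refine ⟨⟨ψ, 2, gs, v, hψc, hψ0, hψinj, hmap, hψc, hψinj, hgs, hact, hiff⟩, ?_⟩
  intro e₀ he hGd
  refine ⟨ψ, 2, gs, v, hψc, hψ0, hψinj, hmap, e₀.contDiff.contDiffAt.comp 0 hχ.smooth, ?_,
    hgs, hact, hiff⟩
  have h1 : fderiv ℝ ((fun q : Lft V => e₀ q.pt) ∘ ψ) 0 = _ :=
    (e₀.hasFDerivAt.comp 0 hχd.hasFDerivAt).fderiv
  rw [h1]
  have h2 : (fderiv ℝ G p.pt).comp (fderiv ℝ χ 0) = 0 := by
    have h3 : HasFDerivAt G (fderiv ℝ G p.pt) (χ 0) := by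
      rw [hχ.zero]; exact hGd.hasFDerivAt
    have h4 := h3.comp 0 hχd.hasFDerivAt
    have h5 : HasFDerivAt (G ∘ χ) (0 : E →L[ℝ] ℝ) 0 :=
      (hasFDerivAt_const (0 : ℝ) (0 : E)).congr_of_eventuallyEq hG0
    exact h4.unique h5
  rw [injective_iff_map_eq_zero]
  intro u hu
  have h6 : fderiv ℝ χ 0 u = 0 := he _ (by simpa using congrArg (fun L => L u) h2) hu
  exact hχ.inj (by simpa using h6)

end SpunKnot
end
end

-- merged part: Pool.Agent.Work.MP_e1e788_gt.CovB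
section
/-! A fibration forces the torsion norm of a fundamental domain to be a twisted coboundary. -/

open Set Filter Topology

noncomputable section
namespace SpunKnot
variable {E : Type*} [NormedAddCommGroup E] [NormedSpace ℝ E] [FiniteDimensional ℝ E]
variable {V : Type*} [NormedAddCommGroup V] [InnerProductSpace ℝ V] [FiniteDimensional ℝ V]
variable {R : Type*} [CommRing R] [StarRing R]

namespace CovBAux

omit [FiniteDimensional ℝ V] in
theorem below_mono {G : V → ℝ} {Φ : V → ℂ} {X : Set V} {γ₁ γ₂ : V → ℝ}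
    (h : ∀ x ∈ X, γ₁ x ≤ γ₂ x) : below G Φ X γ₁ ⊆ below G Φ X γ₂ :=
  fun _ hp => ⟨hp.1, hp.2.1, hp.2.2.trans (h _ hp.2.1)⟩

omit [FiniteDimensional ℝ V] in
theorem diff_subset_slab {G : V → ℝ} {Φ : V → ℂ} {X : Set V} {γ₁ γ₂ : V → ℝ} {a b : ℝ}
    (h₁ : ∀ x ∈ X, a ≤ γ₁ x) (h₂ : ∀ x ∈ X, γ₂ x ≤ b) :
    below G Φ X γ₂ \ below G Φ X γ₁ ⊆ {p | p ∈ cov G Φ ∧ p.pt ∈ X ∧ p.ang ∈ Icc a b} := by
  rintro p ⟨hp, hn⟩
  refine ⟨hp.1, hp.2.1, ?_, hp.2.2.trans (h₂ _ hp.2.1)⟩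
  by_contra hlt
  exact hn ⟨hp.1, hp.2.1, (not_le.1 hlt).le.trans (h₁ _ hp.2.1)⟩

theorem closure_diff_subset {G : V → ℝ} {Φ : V → ℂ} (hG : Continuous G) (hΦ : Continuous Φ)
    {X : Set V} (hc : IsCompact X) (hs : ∀ ξ ∈ X, G ξ = 0 ∧ Φ ξ ≠ 0) {γ₁ γ₂ : V → ℝ}
    (c₁ : ContinuousOn γ₁ X) (c₂ : ContinuousOn γ₂ X) :
    ∃ a b : ℝ, closure (below G Φ X γ₂ \ below G Φ X γ₁) ⊆
      {p | p ∈ cov G Φ ∧ p.pt ∈ X ∧ p.ang ∈ Icc a b} := by
  obtain ⟨M₁, h₁⟩ := hc.exists_bound_of_continuousOn c₁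
  obtain ⟨M₂, h₂⟩ := hc.exists_bound_of_continuousOn c₂
  refine ⟨-M₁, M₂, closure_minimal (diff_subset_slab (fun x hx => ?_) (fun x hx => ?_))
    (isCompact_slab hG hΦ hc (fun ξ h => (hs ξ h).2) _ _).isClosed⟩
  · exact (abs_le.1 (h₁ x hx)).1
  · exact (abs_le.1 (h₂ x hx)).2

theorem pair_below {G : V → ℝ} {Φ : V → ℂ} (hG : Continuous G) (hΦ : Continuous Φ)
    {X : Set V} (hc : IsCompact X) (hs : ∀ ξ ∈ X, G ξ = 0 ∧ Φ ξ ≠ 0) (hX : X.Nonempty)
    {L : Lab (Lft V) R} (hY : ∀ p ∈ cov G Φ, p ∈ L.Y) {γ₁ γ₂ : V → ℝ}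
    (c₁ : ContinuousOn γ₁ X) (c₂ : ContinuousOn γ₂ X) (h : ∀ x ∈ X, γ₁ x ≤ γ₂ x) :
    Pair L (below G Φ X γ₂) (below G Φ X γ₁) := by
  obtain ⟨a, b, hab⟩ := closure_diff_subset hG hΦ hc hs c₁ c₂
  have hn : ∀ ξ ∈ X, Φ ξ ≠ 0 := fun ξ h => (hs ξ h).2
  exact ⟨below_mono h, isClosed_below hG hΦ hc hn c₁, isClosed_below hG hΦ hc hn c₂,
    (isCompact_slab hG hΦ hc hn a b).of_isClosed_subset isClosed_closure hab,
    fun p hp => hY p (hab hp).1, Or.inl (below_nonempty hX hs _)⟩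

omit [FiniteDimensional ℝ E] in
/-- MFCQ for the families `s ↦ below (k s + t - β)`. -/
theorem mfcq_fib {G : V → ℝ} {Φ : V → ℂ} (hΦ : ContDiff ℝ 2 Φ) {C X : Set V} {β : V → ℝ}
    (hF : FibExt E G Φ C X β) (k t s₀ : ℝ) {p : Lft V} (hp : p ∈ cov G Φ) (hpX : p.pt ∈ X) :
    MFCQAt E (cov G Φ) (fun s => below G Φ X (fun x => k * s + t - β x)) id p s₀ := by
  obtain ⟨χ, g, hχ, hg, hβ, hX, -, e, he, hge⟩ := hF.loc p.pt hpX
  refine (mfcq_below (F₂ := ℝ) (γ := fun s x => k * s + t - β x) hΦ hp hχ hg hX ?_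
    ⟨e, hge, fun _ => ?_⟩).1
  · have h1 : ContDiffAt ℝ 2 (fun q : E × ℝ => (β ∘ χ) q.1) (0, s₀) :=
      ContDiffAt.comp (g := β ∘ χ) (f := fun q : E × ℝ => q.1) (0, s₀) hβ contDiffAt_fst
    exact ((contDiffAt_const.mul contDiffAt_snd).add contDiffAt_const).sub h1
  · have h1 : fderiv ℝ (fun u => k * s₀ + t - β (χ u)) 0 = -fderiv ℝ (β ∘ χ) 0 :=
      fderiv_const_sub (f := β ∘ χ) (k * s₀ + t)
    rw [h1, ContinuousLinearMap.neg_apply]
    linarith only [he]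

theorem tor_fib {G : V → ℝ} {Φ : V → ℂ} (hG : Continuous G) (hΦ : ContDiff ℝ 2 Φ)
    {C X : Set V} {β : V → ℝ} (hF : FibExt E G Φ C X β) (hX : X.Nonempty)
    {L : Lab (Lft V) R} (hL : L.Good) (hY : ∀ p ∈ cov G Φ, p ∈ L.Y) {a b : ℝ} (hab : a ≤ b) :
    Tor L (below G Φ X fun x => b - β x) (below G Φ X fun x => a - β x) 1 := by
  have hn : ∀ ξ ∈ X, Φ ξ ≠ 0 := fun ξ h => (hF.sub ξ h).2
  have hc : ∀ s : ℝ, ContinuousOn (fun x => s - β x) X := fun s => continuousOn_const.sub hF.cont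
  obtain ⟨a', b', hs⟩ := closure_diff_subset hG hΦ.continuous hF.cpt hF.sub (hc a) (hc b)
  refine tor_mono E (A := fun s => below G Φ X fun x => s - β x) (M := cov G Φ) hL hab
    (fun s _ s' _ h => below_mono (fun x _ => sub_le_sub_right h _)) (fun s _ p hp => hp.1)
    (fun s _ => isClosed_below hG hΦ.continuous hF.cpt hn (hc s))
    (isCompact_slab hG hΦ.continuous hF.cpt hn a' b') (fun p hp => hY p hp.1)
    (subset_closure.trans hs) (Or.inl (below_nonempty hX hF.sub _)) (fun p hp s _ => ?_)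
  simpa only [one_mul, add_zero] using mfcq_fib hΦ hF 1 0 s hp.1 hp.2.1

end CovBAux

open CovBAux in
theorem coboundary_of_fibExt {G : V → ℝ} {Φ : V → ℂ} (hG : Continuous G) (hΦ : ContDiff ℝ 2 Φ)
    {C X : Set V} {β : V → ℝ} (hF : FibExt E G Φ C X β) (hX : X.Nonempty)
    {L : Lab (Lft V) R} (hL : L.Good) (hY : ∀ p ∈ cov G Φ, p ∈ L.Y) (φ : R →+* R)
    (hφ : ∀ x, φ (star x) = star (φ x)) (he : L.Equivariant φ) (c : ℝ) {W₀ : R}
    (hm : ∀ p ∈ cov G Φ, p.pt ∈ X →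
      MFCQAt E (cov G Φ) (fun _ => below G Φ X fun _ => c) id p 0)
    (ht : Tor L (below G Φ X fun _ => c + 2 * Real.pi) (below G Φ X fun _ => c) W₀) :
    ∃ w : R, IsUnit w ∧ w * star w = W₀ * φ (w * star w) := by
  obtain ⟨tl, hY', hO, hGφ⟩ := he
  have hπ := Real.pi_pos
  have hc : ∀ s : ℝ, ContinuousOn (fun x => s - β x) X := fun s => continuousOn_const.sub hF.cont
  have pair : ∀ {γ₁ γ₂ : V → ℝ}, ContinuousOn γ₁ X → ContinuousOn γ₂ X →
      (∀ x ∈ X, γ₁ x ≤ γ₂ x) → Pair L (below G Φ X γ₂) (below G Φ X γ₁) :=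
    fun c₁ c₂ h => pair_below hG hΦ.continuous hF.cpt hF.sub hX hY c₁ c₂ h
  have shift : ∀ {γ₁ γ₂ : V → ℝ} {W : R}, Tor L (below G Φ X γ₂) (below G Φ X γ₁) W →
      Tor L (below G Φ X fun x => γ₂ x + 2 * Real.pi) (below G Φ X fun x => γ₁ x + 2 * Real.pi)
        (φ W) := by
    intro γ₁ γ₂ W h
    have := Tor.image (deck V) tl φ hφ hY' hO hGφ h
    rwa [deck_below, deck_below] at this
  have iter : ∀ N : ℕ, ∃ W, Tor L (below G Φ X fun _ => c + N * (2 * Real.pi))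
      (below G Φ X fun _ => c) W := by
    intro N
    induction N with
    | zero => exact ⟨1, by simpa using tor_refl L _⟩
    | succ N ih =>
      obtain ⟨W, hW⟩ := ih
      have e : c + ((N + 1 : ℕ) : ℝ) * (2 * Real.pi) = c + N * (2 * Real.pi) + 2 * Real.pi := by
        push_cast; ring
      rw [e]
      have hN : (0 : ℝ) ≤ N * (2 * Real.pi) := by positivity
      exact ⟨_, Tor.trans hL (pair continuousOn_const continuousOn_const (fun _ _ => by linarith))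
        (pair continuousOn_const continuousOn_const (fun _ _ => by linarith)) (shift hW) ht⟩
  obtain ⟨M, hM⟩ := hF.cpt.exists_bound_of_continuousOn hF.cont
  have hM₁ : ∀ x ∈ X, -M ≤ β x := fun x hx => (abs_le.1 (hM x hx)).1
  have hM₂ : ∀ x ∈ X, β x ≤ M := fun x hx => (abs_le.1 (hM x hx)).2
  have hM₀ : 0 ≤ M := by
    obtain ⟨x, hx⟩ := hX
    linarith [hM₁ x hx, hM₂ x hx]
  obtain ⟨N, hN⟩ := exists_nat_ge (2 * M / (2 * Real.pi))
  rw [div_le_iff₀ (by positivity)] at hN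
  obtain ⟨W₁, hW₁⟩ := iter N
  have p₁ : Pair L (below G Φ X fun x => c + M - β x) (below G Φ X fun _ => c) :=
    pair continuousOn_const (hc _) (fun x hx => by linarith [hM₂ x hx])
  obtain ⟨W, hW⟩ : ∃ W, Tor L (below G Φ X fun x => c + M - β x) (below G Φ X fun _ => c) W := by
    refine exists_tor_six E (M := cov G Φ) hL p₁
      (pair (hc _) continuousOn_const (fun x hx => by linarith [hM₁ x hx]))
      (pair continuousOn_const (hc (c + N * (2 * Real.pi) + M))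
        (fun x hx => by linarith [hM₂ x hx]))
      (fun p hp => hp.1) (fun p hp => ?_) hW₁
      (tor_fib hG hΦ hF hX hL hY (by linarith))
    obtain ⟨a, b, hs⟩ := closure_diff_subset hG hΦ.continuous hF.cpt hF.sub
      (γ₁ := fun _ => c) continuousOn_const (hc (c + M))
    refine ⟨hm p (hs hp).1 (hs hp).2.1, ?_⟩
    simpa only [zero_mul, zero_add] using mfcq_fib hΦ hF 0 (c + M) 0 (hs hp).1 (hs hp).2.1
  obtain ⟨w, hw, rfl⟩ := Tor.unit hL p₁ hW
  refine ⟨w, hw, ?_⟩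
  have e : (fun x => c + M - β x + 2 * Real.pi) = fun x => c + M + 2 * Real.pi - β x := by
    funext x; ring
  have t₁ := Tor.trans hL
    (pair (hc _) (hc (c + M + 2 * Real.pi)) (fun x _ => by linarith)) p₁
    (tor_fib hG hΦ hF hX hL hY (by linarith)) hW
  have t₂ := shift hW
  rw [e] at t₂
  have t₃ := Tor.trans hL
    (pair continuousOn_const (hc _) (fun x hx => by linarith [hM₂ x hx]))
    (pair continuousOn_const continuousOn_const (fun _ _ => by linarith)) t₂ ht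
  have := Tor.unique hL
    (pair continuousOn_const (hc _) (fun x hx => by linarith [hM₂ x hx])) t₁ t₃
  rwa [mul_one] at this

end SpunKnot
end
end

-- merged part: Pool.Agent.Work.MP_e1e788_gt.SideA
section
/-! The regular parts of the cyclic cover of a hypothetical exterior. -/

open Set Filter Topology

noncomputable section
namespace SpunKnot
variable {V : Type} [Fintype V] [LinearOrder V]
variable {E : Type*} [NormedAddCommGroup E] [NormedSpace ℝ E] [FiniteDimensional ℝ E]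

namespace SideAAux

theorem two_le : (2 : WithTop ℕ∞) ≤ ((⊤ : ℕ∞) : WithTop ℕ∞) :=
  WithTop.coe_le_coe.2 (le_top (a := (2 : ℕ∞)))

theorem tau_lt : tau1 < tau2 := by
  unfold tau1 tau2
  linarith only [eta_pos]

theorem PhiA_two : ContDiff ℝ 2 (PhiA (V := V)) := PhiA_smooth.of_le two_le

theorem not_between {a c : ℝ} {k : ℤ} (h1 : ang tau1 < a) (h2 : a < ang tau2)
    (hc : c ∈ Icc (ang tau2 - 2 * Real.pi) (ang tau1) ∪ Icc (ang tau2) (ang tau1 + 2 * Real.pi))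
    (he : c = a + 2 * Real.pi * k) : False := by
  have hπ := Real.pi_pos
  rcases hc with hc | hc
  · rcases le_or_gt 0 k with hk | hk
    · have : (0 : ℝ) ≤ k := by exact_mod_cast hk
      linarith only [h1, he, hc, hπ, this, hc.2, mul_nonneg_of_nonpos_of_nonpos (le_of_lt (Mathlib.Tactic.Linarith.sub_neg_of_lt hπ)) (Mathlib.Tactic.Linarith.sub_nonpos_of_le this)]
    · have : (k : ℝ) ≤ -1 := by exact_mod_cast Int.le_sub_one_of_lt hk
      linarith only [h2, he, hc, hπ, this, hc.1, mul_nonneg_of_nonpos_of_nonpos (le_of_lt (Mathlib.Tactic.Linarith.sub_neg_of_lt hπ)) (Mathlib.Tactic.Linarith.sub_nonpos_of_le this)]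
  · rcases le_or_gt k 0 with hk | hk
    · have : (k : ℝ) ≤ 0 := by exact_mod_cast hk
      linarith only [h2, he, hc, hπ, this, hc.1, mul_nonneg_of_nonpos_of_nonpos (le_of_lt (Mathlib.Tactic.Linarith.sub_neg_of_lt hπ)) (Mathlib.Tactic.Linarith.sub_nonpos_of_le this)]
    · have : (1 : ℝ) ≤ k := by exact_mod_cast hk
      linarith only [h1, he, hc, hπ, this, hc.2, mul_nonneg_of_nonpos_of_nonpos (le_of_lt (Mathlib.Tactic.Linarith.sub_neg_of_lt hπ)) (Mathlib.Tactic.Linarith.sub_nonpos_of_le this)]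

/-- the interpolation between the bent height and the constant height -/
def phs (s k : ℝ) : ℝ :=
  tau1 + (Real.smoothTransition (4 * k - 2) + s * (1 - Real.smoothTransition (4 * k - 2))) *
    (tau2 - tau1)

theorem phs_smooth : ContDiff ℝ 2 fun q : ℝ × ℝ => phs q.1 q.2 := by
  have h : ContDiff ℝ 2 fun q : ℝ × ℝ => Real.smoothTransition (4 * q.2 - 2) :=
    Real.smoothTransition.contDiff.comp ((contDiff_const.mul contDiff_snd).sub contDiff_const)
  exact contDiff_const.add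
    ((h.add (contDiff_fst.mul (contDiff_const.sub h))).mul contDiff_const)

theorem phs_mono {s s' : ℝ} (h : s ≤ s') (k : ℝ) : phs s k ≤ phs s' k := by
  unfold phs
  have h1 := sub_nonneg.2 (Real.smoothTransition.le_one (4 * k - 2))
  have h2 := sub_nonneg.2 tau_lt.le
  gcongr

theorem phs_one (k : ℝ) : phs 1 k = tau2 := by
  unfold phs
  ring

theorem phs_mem {s : ℝ} (hs : s ∈ Icc (0 : ℝ) 1) (k : ℝ) : phs s k ∈ Icc tau1 tau2 := by
  refine ⟨le_trans ?_ (phs_mono hs.1 k), (phs_mono hs.2 k).trans (phs_one k).le⟩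
  unfold phs
  have h1 := Real.smoothTransition.nonneg (4 * k - 2)
  have h2 := sub_nonneg.2 tau_lt.le
  linarith only [h1, h2, mul_nonneg h1 h2]

theorem phs_top (s : ℝ) : phs s 1 = tau2 := by
  unfold phs
  rw [Real.smoothTransition.one_of_one_le (by norm_num)]
  ring

end SideAAux

open SideAAux

namespace Geo
variable (Γ : Geo V) {X : Set (Sp (KA V))} {β : Sp (KA V) → ℝ}

theorem cov_subset {p : Lft (Sp (KA V))} (h : p ∈ cov Γ.G PhiA) : p ∈ Γ.K.labA.Y := by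
  exact ⟨Γ.ring_lt h.1, h.2.1, h.2.2⟩

theorem C_subset (hF : FibExt E Γ.G PhiA Γ.C X β) : Γ.C ⊆ X := by
  exact fun x hx => mem_of_mem_nhdsWithin (s := {x | Γ.G x = 0}) hx.1 (hF.int x hx)

theorem pair_below (hF : FibExt E Γ.G PhiA Γ.C X β) {γ γ' : Sp (KA V) → ℝ} (hγ : Continuous γ)
    (hγ' : Continuous γ') (h : ∀ x, γ x ≤ γ' x) :
    Pair Γ.K.labA (below Γ.G PhiA X γ') (below Γ.G PhiA X γ) := by
  exact CovBAux.pair_below Γ.G_smooth.continuous PhiA_smooth.continuous hF.cpt hF.sub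
    (Γ.C_nonempty.mono (Γ.C_subset hF)) (fun p hp => Γ.cov_subset hp) hγ.continuousOn
    hγ'.continuousOn fun x _ => h x

/-- MFCQ for the constant heights outside the first transition, and for the bent height -/
theorem mfcq_A (hF : FibExt E Γ.G PhiA Γ.C X β) {p : Lft (Sp (KA V))} (hp : p ∈ cov Γ.G PhiA)
    (hX : p.pt ∈ X) :
    ∃ (χ : E → Sp (KA V)) (g : E → ℝ), IsChart E Γ.G χ p.pt ∧ ContDiffAt ℝ 2 g 0 ∧
      (∀ᶠ u in 𝓝 (0 : E), χ u ∈ X ↔ g u ≤ 0) ∧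
      (∀ c ∈ Icc (ang tau2 - 2 * Real.pi) (ang tau1) ∪ Icc (ang tau2) (ang tau1 + 2 * Real.pi),
        ∃ v : E, (g 0 = 0 → 0 < fderiv ℝ g 0 v) ∧
          (p.ang = c → 0 < dArg PhiA p.pt (fderiv ℝ χ 0 v))) ∧
      ∀ φ : ℝ → ℝ, DifferentiableAt ℝ φ (Γ.D.κ (tlL (KS V) p.pt)) →
        φ (Γ.D.κ (tlL (KS V) p.pt)) ∈ Icc tau1 tau2 → φ 1 = tau2 →
        ∃ v : E, (g 0 = 0 → 0 < fderiv ℝ g 0 v) ∧
          (p.ang = ang (φ (Γ.D.κ (tlL (KS V) p.pt))) →
            fderiv ℝ (fun u => ang (φ (Γ.D.κ (tlL (KS V) (χ u))))) 0 v <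
              dArg PhiA p.pt (fderiv ℝ χ 0 v) / ‖PhiA p.pt‖ ^ 2) := by
  obtain ⟨χ, g, hχ, hg, -, hXg, h0, e₁, -, he₁⟩ := hF.loc p.pt hX
  have hη := eta_pos
  have hη' := eta_le
  have hw : wC p.pt ≠ 0 := PhiA_ne.1 hp.2.1
  have hn : 0 < ‖PhiA p.pt‖ ^ 2 := pow_pos (norm_pos_iff.2 hp.2.1) 2
  have hC : p.pt ∈ Γ.C → g 0 ≠ 0 := by
    intro hpC hg0
    have h1 : ∀ᶠ u in 𝓝 (0 : E), χ u ∈ X := by
      have := hF.int p.pt hpC
      rwa [← hχ.nhds] at this
    have h2 : IsLocalMax g 0 := by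
      filter_upwards [h1, hXg] with u hu hu'
      rw [hg0]
      exact hu'.1 hu
    have := he₁ hg0
    rw [h2.fderiv_eq_zero] at this
    exact lt_irrefl _ this
  have hreg : (tlL (KS V) p.pt ∉ tsupport Γ.D.κ ∨ p.pt none ≤ 1 - 2 * eta ∨ 1 - eta ≤ p.pt none) →
      ∃ v : E, (g 0 = 0 → 0 < fderiv ℝ g 0 v) ∧ 0 < dArg PhiA p.pt (fderiv ℝ χ 0 v) := by
    intro hx
    by_cases hg0 : g 0 = 0
    · obtain ⟨e, a, b⟩ := h0 hg0
      exact ⟨e, fun _ => a, b⟩
    · obtain ⟨v, a, b⟩ := Γ.arg_reg hp.1 hw hx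
      obtain ⟨e, rfl⟩ := hχ.onto v a
      exact ⟨e, fun h => absurd h hg0, b⟩
  have hsupp : tlL (KS V) p.pt ∈ tsupport Γ.D.κ → |p.pt (some none) - 1| ≤ 4 * eta := fun hs =>
    ((Γ.supp _ hs).1).trans (by linarith only [hη])
  refine ⟨χ, g, hχ, hg, hXg, fun c hc => ?_, fun φ hφ hm h1 => ?_⟩
  · by_cases hpc : p.ang = c
    swap
    · exact ⟨e₁, he₁, fun h => absurd h hpc⟩
    obtain ⟨v, a, b⟩ := hreg (by
      by_contra hcon
      push Not at hcon
      obtain ⟨hs, l1, l2⟩ := hcon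
      obtain ⟨k, hk⟩ := angle_eq (hsupp hs) ⟨by linarith only [hη', l1, l2], by linarith only [hη', l1, l2]⟩ hp.2.2
      exact not_between (ang_strictMono (by unfold tau1; linarith only [l1, l2]))
        (ang_strictMono (by unfold tau2; linarith only [l1, l2])) hc (hpc ▸ hk))
    exact ⟨v, a, fun _ => b⟩
  · by_cases hpc : p.ang = ang (φ (Γ.D.κ (tlL (KS V) p.pt)))
    swap
    · exact ⟨e₁, he₁, fun h => absurd h hpc⟩
    by_cases hs : tlL (KS V) p.pt ∈ tsupport Γ.D.κ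
    swap
    · obtain ⟨v, a, b⟩ := hreg (Or.inl hs)
      refine ⟨v, a, fun _ => ?_⟩
      have e1 : Tendsto (fun u => tlL (KS V) (χ u)) (𝓝 0) (𝓝 (tlL (KS V) p.pt)) := by
        rw [← hχ.zero]
        exact ((tlL (KS V)).continuous.tendsto _).comp hχ.smooth.continuousAt
      have e2 : (fun u => ang (φ (Γ.D.κ (tlL (KS V) (χ u))))) =ᶠ[𝓝 0] fun _ => ang (φ 0) := by
        filter_upwards [e1.eventually (notMem_tsupport_iff_eventuallyEq.1 hs)] with u hu
        rw [hu]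
        rfl
      rw [e2.fderiv_eq, fderiv_fun_const]
      exact div_pos b hn
    have l1 : 1 - 5 / 2 * eta ≤ φ (Γ.D.κ (tlL (KS V) p.pt)) := hm.1
    have l2 : φ (Γ.D.κ (tlL (KS V) p.pt)) ≤ 1 - 3 / 4 * eta := hm.2
    have ht : p.pt none = φ (Γ.D.κ (tlL (KS V) p.pt)) :=
      tau_of_angle (hsupp hs) ⟨by linarith only [hη, hη', l1], by linarith only [hη, hη', l2]⟩ 0 (by simpa using hpc) hp.2.2
    have hpC : p.pt ∈ Γ.C := ⟨hp.1, hs, by linarith only [hη, hη', l1, ht], by linarith only [hη, hη', l2, ht]⟩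
    obtain ⟨v, a, b, c⟩ := Γ.arg_reg' hp.1 hs ⟨by linarith only [hη, l1, ht], by linarith only [hη, hη', l2, ht]⟩ (by
      rcases (Γ.D.κ_range (tlL (KS V) p.pt)).2.lt_or_eq with h | h
      · exact Or.inr (Or.inr h)
      · refine Or.inr (Or.inl ?_)
        rw [ht, h, h1]
        unfold tau2
        linarith only [hη])
    obtain ⟨e, rfl⟩ := hχ.onto v a
    refine ⟨e, fun h => absurd h (hC hpC), fun _ => ?_⟩
    have d1 : HasFDerivAt (fun u => tlL (KS V) (χ u)) ((tlL (KS V)).comp (fderiv ℝ χ 0)) 0 :=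
      (tlL (KS V)).hasFDerivAt.comp 0 (hχ.smooth.differentiableAt (by norm_num)).hasFDerivAt
    have d2 : HasFDerivAt Γ.D.κ (fderiv ℝ Γ.D.κ (tlL (KS V) p.pt)) (tlL (KS V) (χ 0)) := by
      rw [hχ.zero]
      exact (Γ.D.κ_smooth.differentiable (by simp) _).hasFDerivAt
    have d3 : DifferentiableAt ℝ (fun k => ang (φ k)) (Γ.D.κ (tlL (KS V) (χ 0))) := by
      rw [hχ.zero]
      exact (ang_smooth.differentiable (by simp) _).comp _ hφ
    have d4 := (d3.hasFDerivAt.comp 0 (d2.comp 0 d1)).fderiv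
    have d5 : fderiv ℝ (fun u => ang (φ (Γ.D.κ (tlL (KS V) (χ u))))) 0 e = 0 := by
      refine (congrArg (fun L : E →L[ℝ] ℝ => L e) d4).trans ?_
      simp only [ContinuousLinearMap.comp_apply, c, map_zero]
    rw [d5]
    exact div_pos b hn

theorem mfcq_one (hF : FibExt E Γ.G PhiA Γ.C X β) {p : Lft (Sp (KA V))} (hp : p ∈ cov Γ.G PhiA)
    (hX : p.pt ∈ X) : MFCQAt E (cov Γ.G PhiA) (fun _ => Γ.A X (ang tau1)) id p 0 := by
  obtain ⟨χ, g, hχ, hg, hXg, h1, -⟩ := Γ.mfcq_A hF hp hX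
  obtain ⟨v, a, b⟩ := h1 (ang tau1) (Or.inl
    ⟨by linarith only [(ang_mem tau1).1, (ang_mem tau2).2, Real.pi_pos], le_rfl⟩)
  refine (mfcq_below (F₂ := ℝ) (γ := fun _ _ => ang tau1) PhiA_two hp hχ hg hXg contDiffAt_const
    ⟨v, a, fun h => ?_⟩).1
  rw [fderiv_fun_const]
  exact div_pos (b h) (pow_pos (norm_pos_iff.2 hp.2.1) 2)

theorem tor_far (hF : FibExt E Γ.G PhiA Γ.C X β) :
    Tor Γ.K.labA (Γ.A X (ang tau1 + 2 * Real.pi)) (Γ.A X (ang tau2)) 1 := by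
  have hn : ∀ ξ ∈ X, PhiA ξ ≠ 0 := fun ξ h => (hF.sub ξ h).2
  have hG := Γ.G_smooth.continuous
  have hΦ := (PhiA_smooth (V := V)).continuous
  refine tor_mono E (A := fun s => below Γ.G PhiA X fun _ => s) (M := cov Γ.G PhiA)
    Γ.K.labA_good (by linarith only [(ang_mem tau1).1, (ang_mem tau2).2, Real.pi_pos])
    (fun s _ s' _ h => CovBAux.below_mono fun _ _ => h) (fun s _ p hp => hp.1)
    (fun s _ => isClosed_below hG hΦ hF.cpt hn continuousOn_const)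
    (isCompact_slab hG hΦ hF.cpt hn (ang tau2) (ang tau1 + 2 * Real.pi))
    (fun p hp => Γ.cov_subset hp.1)
    (CovBAux.diff_subset_slab (fun _ _ => le_rfl) fun _ _ => le_rfl)
    (Or.inl (below_nonempty (Γ.C_nonempty.mono (Γ.C_subset hF)) hF.sub _)) fun p hp s hs => ?_
  obtain ⟨χ, g, hχ, hg, hXg, h1, -⟩ := Γ.mfcq_A hF hp.1 hp.2.1
  obtain ⟨v, a, b⟩ := h1 s (Or.inr hs)
  refine (mfcq_below (F₂ := ℝ) (γ := fun s _ => s) PhiA_two hp.1 hχ hg hXg contDiffAt_snd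
    ⟨v, a, fun h => ?_⟩).1
  rw [fderiv_fun_const]
  exact div_pos (b h) (pow_pos (norm_pos_iff.2 hp.1.2.1) 2)

theorem tor_flat (hF : FibExt E Γ.G PhiA Γ.C X β) :
    Tor Γ.K.labA (Γ.A X (ang tau2)) (Γ.AF X) 1 := by
  have hn : ∀ ξ ∈ X, PhiA ξ ≠ 0 := fun ξ h => (hF.sub ξ h).2
  have hG := Γ.G_smooth.continuous
  have hΦ := (PhiA_smooth (V := V)).continuous
  have hκ : ContDiff ℝ 2 fun x : Sp (KA V) => Γ.D.κ (tlL (KS V) x) :=
    (Γ.D.κ_smooth.of_le two_le).comp (tlL (KS V)).contDiff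
  have ha : ContDiff ℝ 2 ang := ang_smooth.of_le two_le
  have e1 : Γ.A X (ang tau2) =
      below Γ.G PhiA X fun x => ang (phs 1 (Γ.D.κ (tlL (KS V) x))) := by
    simp only [phs_one]
    rfl
  have e0 : Γ.AF X = below Γ.G PhiA X fun x => ang (phs 0 (Γ.D.κ (tlL (KS V) x))) := by
    simp only [phs, zero_mul, add_zero]
    rfl
  rw [e1, e0]
  refine tor_mono E (A := fun s => below Γ.G PhiA X fun x => ang (phs s (Γ.D.κ (tlL (KS V) x))))
    (M := cov Γ.G PhiA) Γ.K.labA_good zero_le_one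
    (fun s _ s' _ h => CovBAux.below_mono fun _ _ => ang_strictMono.monotone (phs_mono h _))
    (fun s _ p hp => hp.1)
    (fun s _ => isClosed_below hG hΦ hF.cpt hn
      (ha.comp (phs_smooth.comp (contDiff_const.prodMk hκ))).continuous.continuousOn)
    (isCompact_slab hG hΦ hF.cpt hn (ang tau1) (ang tau2))
    (fun p hp => Γ.cov_subset hp.1)
    (CovBAux.diff_subset_slab
      (fun _ _ => ang_strictMono.monotone (phs_mem ⟨le_rfl, zero_le_one⟩ _).1)
      fun _ _ => ang_strictMono.monotone (phs_one _).le)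
    (Or.inl (below_nonempty (Γ.C_nonempty.mono (Γ.C_subset hF)) hF.sub _)) fun p hp s hs => ?_
  obtain ⟨χ, g, hχ, hg, hXg, -, h2⟩ := Γ.mfcq_A hF hp.1 hp.2.1
  have hd : Differentiable ℝ (phs s) :=
    (phs_smooth.comp (contDiff_const.prodMk contDiff_id)).differentiable (by norm_num)
  refine (mfcq_below (F₂ := ℝ) (γ := fun s x => ang (phs s (Γ.D.κ (tlL (KS V) x)))) PhiA_two hp.1
    hχ hg hXg ?_ (h2 (phs s) (hd _) (phs_mem hs _) (phs_top s))).1
  have c1 : ContDiffAt ℝ 2 (fun q : E × ℝ => χ q.1) (0, s) :=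
    ContDiffAt.comp (g := χ) (f := fun q : E × ℝ => q.1) (0, s) hχ.smooth contDiffAt_fst
  exact ha.contDiffAt.comp (0, s) (phs_smooth.contDiffAt.comp (0, s)
    (contDiffAt_snd.prodMk (hκ.contDiffAt.comp (0, s) c1)))

end Geo

end SpunKnot
end
end
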