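import Pool.Agent.Work.MP_e1e788_gt.SDA
import Pool.Agent.Work.MP_e1e788_gt.Spin
import Pool.Agent.Work.MP_e1e788_gt.SideA
import Pool.Agent.Work.MP_e1e788_gt.StarB
import Pool.Agent.Work.MP_e1e788_gt.Flag
import Pool.Agent.Work.MP_e1e788_gt.BrAmb
import Pool.Agent.Work.MP_e1e788_gt.Tele
import Pool.Agent.Work.MP_e1e788_gt.SDF
import Pool.Agent.Work.MP_e1e788_gt.CertQ1
import Pool.Agent.Work.MP_e1e788_gt.CertQ2
import Pool.Agent.Work.MP_e1e788_gt.CertR1
import Pool.Agent.Work.MP_e1e788_gt.CertR2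
import Pool.Agent.Work.MP_e1e788_gt.CertT
import Pool.Agent.Work.MP_e1e788_gt.CertM

-- merged part: Pool.Agent.Work.MP_e1e788_gt.SDT
section
/-! The torsion norm of the first transition, computed in the slice. -/

open Set Filter Topology

noncomputable section
namespace SpunKnot

namespace SDTAux

/-- the level shift at the first time -/
def mu1 : ℝ := upS (tau1 - 1) / 4

theorem mu1_range : 0 ≤ mu1 ∧ mu1 ≤ 1 / 4 := by
  have := upS_range (tau1 - 1)
  unfold mu1
  constructor <;> linarith only [this, this.1, this.2]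

theorem tau12 : tau1 < tau2 := by
  have := eta_pos
  unfold tau1 tau2
  linarith only [this]

/-- the level shift along the first family, as a function of the cut-off value -/
def mm (s k : ℝ) : ℝ :=
  k * (upS (tau1 + s * (Real.smoothTransition (4 * k - 2) * (tau2 - tau1)) - 1) / 4)

theorem mm_smooth : ContDiff ℝ (⊤ : ℕ∞) fun z : ℝ × ℝ => mm z.1 z.2 := by
  unfold mm
  refine contDiff_snd.mul (ContDiff.div_const ?_ _)
  refine upS_smooth.comp ?_
  refine ContDiff.sub (contDiff_const.add (contDiff_fst.mul (ContDiff.mul ?_ contDiff_const)))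
    contDiff_const
  exact Real.smoothTransition.contDiff.comp ((contDiff_const.mul contDiff_snd).sub contDiff_const)

theorem mm_range (s : ℝ) {k : ℝ} (h0 : 0 ≤ k) (h1 : k ≤ 1) : 0 ≤ mm s k ∧ mm s k ≤ 1 / 4 := by
  have h := upS_range (tau1 + s * (Real.smoothTransition (4 * k - 2) * (tau2 - tau1)) - 1)
  unfold mm
  constructor
  · exact mul_nonneg h0 (by linarith only [h, h.1])
  · linarith only [h1, h0, h, h.1, h.2, mul_nonneg_of_nonpos_of_nonpos (Mathlib.Tactic.Linarith.sub_nonpos_of_le h0) (Mathlib.Tactic.Linarith.sub_nonpos_of_le h.right)]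

theorem mm_mono {k : ℝ} (h0 : 0 ≤ k) : Monotone fun s => mm s k := by
  intro s s' hs
  unfold mm
  refine mul_le_mul_of_nonneg_left ?_ h0
  refine div_le_div_of_nonneg_right (upS_mono ?_) (by norm_num)
  have h1 : 0 ≤ Real.smoothTransition (4 * k - 2) * (tau2 - tau1) :=
    mul_nonneg (Real.smoothTransition.nonneg _) (by linarith [tau12])
  have := mul_le_mul_of_nonneg_right hs h1
  linarith

theorem mm_zero (k : ℝ) : mm 0 k = k * mu1 := by
  simp [mm, mu1]

theorem mm_zero' (s : ℝ) : mm s 0 = 0 := by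
  simp [mm]

section
variable {S : Type*} [NormedAddCommGroup S] [NormedSpace ℝ S] (D : SD S)

theorem le30 (y : S) : D.p3 y ≤ D.p0 y := (D.le32 y).trans ((D.le21 y).trans (D.le10 y))

theorem le31 (y : S) : D.p3 y ≤ D.p1 y := (D.le32 y).trans (D.le21 y)

theorem kappa_one {y : S} (h : D.p3 y < D.p0 y) : D.κ y = 1 := by
  by_contra hne
  have hlt : D.κ y < 1 := lt_of_le_of_ne (D.κ_range y).2 hne
  exact absurd (D.eq_of_lt hlt).self_of_nhds.1 h.ne

theorem tauF_range (y : S) : tau1 ≤ D.tauF y ∧ D.tauF y ≤ tau2 := by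
  have h0 : 0 ≤ D.kp y := Real.smoothTransition.nonneg _
  have h1 : D.kp y ≤ 1 := Real.smoothTransition.le_one _
  have h := tau12
  unfold SD.tauF
  constructor <;> linarith only [h0, h, h1, mul_nonneg_of_nonpos_of_nonpos (Mathlib.Tactic.Linarith.sub_nonpos_of_le h0) (le_of_lt (Mathlib.Tactic.Linarith.sub_neg_of_lt h)), mul_nonneg_of_nonpos_of_nonpos (Mathlib.Tactic.Linarith.sub_nonpos_of_le h1) (le_of_lt (Mathlib.Tactic.Linarith.sub_neg_of_lt h))]

theorem gK_tau1 (y : S) : D.gK (tau1, y) = D.p0 y - 1 / 2 - D.κ y * mu1 := by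
  have he := eta_pos
  have h1 : tau1 ≤ 1 + eta / 2 := by unfold tau1; linarith only [he]
  have h2 : stp (1 - tau1) = 1 := stp_eq_one_iff.2 (by unfold tau1; linarith only [he])
  rw [(D.first h1 y).2, h2, mu1]
  ring

theorem gK_tauF (y : S) : D.gK (D.tauF y, y) = D.p3 y - 1 / 2 - mm 1 (D.κ y) := by
  have he := eta_pos
  have h1 : D.tauF y ≤ 1 + eta / 2 := by
    have := (tauF_range D y).2
    unfold tau2 at this
    linarith only [he, this]
  have hm : mm 1 (D.κ y) = D.κ y * (upS (D.tauF y - 1) / 4) := by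
    simp [mm, SD.tauF, SD.kp]
  rw [(D.first h1 y).2, hm]
  rcases (D.κ_range y).2.lt_or_eq with hlt | heq
  · rw [(D.eq_of_lt hlt).self_of_nhds.1]
    ring
  · have hk : D.kp y = 1 := by
      unfold SD.kp
      rw [heq]
      exact Real.smoothTransition.one_of_one_le (by norm_num)
    have ht : D.tauF y = tau2 := by
      unfold SD.tauF
      rw [hk]
      ring
    have h2 : stp (1 - D.tauF y) = 0 := stp_eq_zero_iff.2 (by rw [ht]; unfold tau2; linarith only [he])
    rw [h2]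
    ring

/-- regularity of the shifted levels -/
theorem reg_shift {f : S → ℝ} (h3 : ∀ y, D.p3 y ≤ f y)
    (h0 : ∀ y, f y ≤ D.p0 y) (hr : ∀ y, 0 < f y → f y < 1 → fderiv ℝ f y ≠ 0)
    {m : ℝ → ℝ} (hm : Differentiable ℝ m) {y : S} (hm0 : 0 ≤ m (D.κ y))
    (hm1 : m (D.κ y) ≤ 1 / 4) (hz : f y - 1 / 2 - m (D.κ y) = 0) :
    fderiv ℝ (fun y' => f y' - 1 / 2 - m (D.κ y')) y ≠ 0 := by
  have hf0 : 0 < f y := by linarith only [hm0, hz]
  have hf1 : f y < 1 := by linarith only [hm1, hz, hf0]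
  have hconst : ∀ c : ℝ, (∀ᶠ y' in 𝓝 y, D.κ y' = c) →
      fderiv ℝ (fun y' => f y' - 1 / 2 - m (D.κ y')) y ≠ 0 := by
    intro c hc
    have he : (fun y' => f y' - 1 / 2 - m (D.κ y')) =ᶠ[𝓝 y] fun y' => f y' - (1 / 2 + m c) := by
      filter_upwards [hc] with y' hy'
      rw [hy']
      ring
    rw [he.fderiv_eq, fderiv_sub_const]
    exact hr y hf0 hf1
  rcases D.tri y with h | ⟨h, h'⟩ | h
  · exact hconst 1 h
  · have hfe : f =ᶠ[𝓝 y] fun y' => stp (D.l0 y') := by
      filter_upwards [h] with y' hy'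
      have a := h3 y'
      have b := h0 y'
      rw [hy'.1] at b
      rw [hy'.2.1] at a
      exact le_antisymm b a
    have hfy : f y = stp (D.l0 y) := hfe.self_of_nhds
    have hκ : fderiv ℝ D.κ y D.e0 = 0 := by
      rcases h' with h' | h' | h'
      · exact h'
      · rw [hfy, h'] at hf0
        exact absurd hf0 (lt_irrefl _)
      · rw [hfy, h'] at hf1
        exact absurd hf1 (lt_irrefl _)
    have hκd : HasFDerivAt D.κ (fderiv ℝ D.κ y) y :=
      ((D.κ_smooth.differentiable (by simp)) y).hasFDerivAt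
    have hsd : HasDerivAt stp (deriv stp (D.l0 y)) (D.l0 y) :=
      ((stp_smooth.differentiable (by simp)) _).hasDerivAt
    have hA : HasFDerivAt (fun y' => stp (D.l0 y')) (deriv stp (D.l0 y) • D.l0) y :=
      hsd.comp_hasFDerivAt y D.l0.hasFDerivAt
    have hA' : HasFDerivAt f (deriv stp (D.l0 y) • D.l0) y := hA.congr_of_eventuallyEq hfe
    have hB : HasFDerivAt (fun y' => m (D.κ y')) (deriv m (D.κ y) • fderiv ℝ D.κ y) y :=
      (hm _).hasDerivAt.comp_hasFDerivAt y hκd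
    have hC : HasFDerivAt (fun y' => f y' - 1 / 2 - m (D.κ y'))
        (deriv stp (D.l0 y) • D.l0 - deriv m (D.κ y) • fderiv ℝ D.κ y) y :=
      (hA'.sub_const (1 / 2)).sub hB
    rw [hC.fderiv]
    intro h0'
    have h1 := congrArg (fun T : S →L[ℝ] ℝ => T D.e0) h0'
    simp only [sub_apply, smul_apply, hκ, D.l0e0,
      smul_eq_mul, mul_one, mul_zero, sub_zero, zero_apply] at h1
    have h2 := stp_deriv_pos (s := D.l0 y) (hfy ▸ hf0) (hfy ▸ hf1)
    exact h2.ne' h1
  · exact hconst 0 (h.mono fun _ hy' => hy'.1)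

theorem closure_in : closure {y | D.p3 y < D.p0 y} ⊆ {y | ∀ᶠ y' in 𝓝 y, D.κ y' = 1} := by
  intro y hy
  have hfr := mem_closure_iff_frequently.1 hy
  rcases D.tri y with h | ⟨h, -⟩ | h
  · exact h
  · exfalso
    obtain ⟨z, hz, hz'⟩ := (hfr.and_eventually h).exists
    have hz1 : D.p3 z < D.p0 z := hz
    rw [hz'.1, hz'.2.1] at hz1
    exact lt_irrefl _ hz1
  · exfalso
    obtain ⟨z, hz, hz'⟩ := (hfr.and_eventually h).exists
    have hz1 : D.p3 z < D.p0 z := hz
    rw [hz'.2.1] at hz1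
    exact lt_irrefl _ hz1

theorem isOpen_U2 : IsOpen D.U2 := by
  have hg := D.gK_smooth.continuous
  have hκ := D.κ_smooth.continuous
  have a : Continuous fun y : S => D.gK (1 - eta / 2, y) :=
    hg.comp (continuous_const.prodMk continuous_id)
  have b : Continuous fun y : S => D.gK (1 - 3 * eta, y) :=
    hg.comp (continuous_const.prodMk continuous_id)
  exact (isOpen_lt continuous_const hκ).inter ((isOpen_lt a continuous_const).inter
    (isOpen_lt continuous_const b))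

theorem closure_U2 : closure (D.DF \ D.D1) ⊆ D.U2 := by
  have hg := D.gK_smooth.continuous
  have hκ := D.κ_smooth.continuous
  have hτ := D.tauF_smooth.continuous
  have he := eta_pos
  have hC : IsClosed {y | 1 / 2 ≤ D.κ y ∧ D.gK (D.tauF y, y) ≤ 0 ∧ 0 ≤ D.gK (tau1, y)} := by
    have a : Continuous fun y : S => D.gK (D.tauF y, y) := hg.comp (hτ.prodMk continuous_id)
    have b : Continuous fun y : S => D.gK (tau1, y) :=
      hg.comp (continuous_const.prodMk continuous_id)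
    exact (isClosed_le continuous_const hκ).inter ((isClosed_le a continuous_const).inter
      (isClosed_le continuous_const b))
  have hsub : D.DF \ D.D1 ⊆
      {y | 1 / 2 ≤ D.κ y ∧ D.gK (D.tauF y, y) ≤ 0 ∧ 0 ≤ D.gK (tau1, y)} := by
    rintro y ⟨h1, h2⟩
    have h1' : D.gK (D.tauF y, y) ≤ 0 := h1
    have h2' : 0 < D.gK (tau1, y) := not_le.1 h2
    refine ⟨?_, h1', h2'.le⟩
    by_contra hlt
    have hk : D.kp y = 0 := by
      unfold SD.kp
      exact Real.smoothTransition.zero_of_nonpos (by linarith only [hlt, not_le.1 hlt])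
    have ht : D.tauF y = tau1 := by
      unfold SD.tauF
      rw [hk]
      ring
    rw [ht] at h1'
    linarith
  refine (closure_minimal hsub hC).trans ?_
  rintro y ⟨h1, h2, h3⟩
  have hs := D.gK_strictAnti (y := y) (by linarith)
  have hr := tauF_range D y
  have e1 : tau1 = 1 - 5 / 2 * eta := rfl
  have e2 : tau2 = 1 - 3 / 4 * eta := rfl
  refine ⟨by linarith only [h1], ?_, ?_⟩
  · have := hs (a := D.tauF y) (b := 1 - eta / 2) ⟨by linarith only [he, hr, e1, hr.1], by linarith only [he, hr, e2, hr.2]⟩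
      ⟨by linarith only [he], le_rfl⟩ (by linarith only [he, hr, e2, hr.2])
    exact lt_of_lt_of_le this h2
  · have := hs (a := 1 - 3 * eta) (b := tau1) ⟨le_rfl, by linarith only [he]⟩
      ⟨by linarith only [he, e1], by linarith only [he, e1]⟩ (by linarith only [he, e1])
    exact lt_of_le_of_lt h3 this

/-- the compact set carrying all the changes -/
def ZZ : Set S := tsupport D.κ ∩ {y | D.p3 y ≤ 3 / 4}

theorem p3_smooth : ContDiff ℝ (⊤ : ℕ∞) D.p3 := D.hR.ends.2.1
theorem p1_smooth : ContDiff ℝ (⊤ : ℕ∞) D.p1 := D.hR.ends.1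
theorem p0_smooth : ContDiff ℝ (⊤ : ℕ∞) D.p0 := D.hQ.ends.1

theorem ZZ_closed : IsClosed (ZZ D) :=
  (isClosed_tsupport _).inter (isClosed_le (p3_smooth D).continuous continuous_const)

theorem ZZ_compact : IsCompact (ZZ D) :=
  D.κ_cpt.isCompact.inter_right (isClosed_le (p3_smooth D).continuous continuous_const)

theorem mem_ZZ {y : S} (h : D.κ y ≠ 0) (h' : D.p3 y ≤ 3 / 4) : y ∈ ZZ D :=
  ⟨subset_tsupport _ h, h'⟩

theorem kmu_range (y : S) : 0 ≤ D.κ y * mu1 ∧ D.κ y * mu1 ≤ 1 / 4 := by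
  have := mm_range 0 (D.κ_range y).1 (D.κ_range y).2
  rwa [mm_zero] at this
end

section
variable {S : Type*} [NormedAddCommGroup S] [InnerProductSpace ℝ S] [FiniteDimensional ℝ S]
variable {R : Type*} [CommRing R] [StarRing R] (D : SD S)

theorem two_le : (2 : WithTop ℕ∞) ≤ ((⊤ : ℕ∞) : WithTop ℕ∞) := by
  exact WithTop.coe_le_coe.2 (le_top : (2 : ℕ∞) ≤ ⊤)

theorem stepF {L : Lab S R} (hL : L.Good) (hY : ∀ y, D.p3 y < 1 → y ∈ L.Y) :
    Pair L D.DF {y | D.p3 y - 1 / 2 - D.κ y * mu1 ≤ 0} ∧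
      Tor L D.DF {y | D.p3 y - 1 / 2 - D.κ y * mu1 ≤ 0} 1 := by
  have hg : ContDiff ℝ 2 fun z : S × ℝ => D.p3 z.1 - 1 / 2 - mm z.2 (D.κ z.1) := by
    refine ContDiff.of_le ?_ two_le
    refine (((p3_smooth D).comp contDiff_fst).sub contDiff_const).sub ?_
    exact mm_smooth.comp (contDiff_snd.prodMk (D.κ_smooth.comp contDiff_fst))
  have key := tor_sublevel hL hg (Z := ZZ D) ?_ (ZZ_compact D) ?_ ?_ ?_ ?_
  · have e1 : {x : S | D.p3 x - 1 / 2 - mm 1 (D.κ x) ≤ 0} = D.DF := by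
      ext y
      simp only [SD.DF, mem_ofPred_eq, gK_tauF]
    have e0 : {x : S | D.p3 x - 1 / 2 - mm 0 (D.κ x) ≤ 0} =
        {y | D.p3 y - 1 / 2 - D.κ y * mu1 ≤ 0} := by
      ext y
      simp only [mem_ofPred_eq, mm_zero]
    simp only at key
    rw [e1, e0] at key
    exact key
  · intro x s _ s' _ hs
    have := mm_mono (D.κ_range x).1 hs
    simp only at this ⊢
    linarith only [this]
  · intro y hy
    exact hY y (by linarith [show D.p3 y ≤ 3 / 4 from hy.2])
  · intro x h1 h0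
    simp only at h1 h0
    have hr := mm_range 1 (D.κ_range x).1 (D.κ_range x).2
    refine mem_ZZ D ?_ (by linarith only [h1, hr, hr.2])
    intro hk
    rw [hk, mm_zero'] at h1 h0
    linarith only [h1, h0]
  · obtain ⟨y, -, hy⟩ := D.ne
    refine ⟨y, ?_⟩
    have hr := mm_range 0 (D.κ_range y).1 (D.κ_range y).2
    have := le30 D y
    simp only
    linarith only [hy, hr, this, hr.1]
  · intro x _ s _ hz
    have hr := mm_range s (D.κ_range x).1 (D.κ_range x).2
    have hm : Differentiable ℝ (mm s) :=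
      (mm_smooth.comp (contDiff_const.prodMk contDiff_id)).differentiable (by simp)
    exact reg_shift D (fun _ => le_rfl) (le30 D)
      D.hR.ends.2.2.2.2.2 hm hr.1 hr.2 hz

theorem stepR {L : Lab S R} (hL : L.Good) (hY : ∀ y, D.p3 y < 1 → y ∈ L.Y) :
    Pair L {y | D.p3 y - 1 / 2 - D.κ y * mu1 ≤ 0} {y | D.p1 y - 1 / 2 - D.κ y * mu1 ≤ 0} ∧
      Tor L {y | D.p3 y - 1 / 2 - D.κ y * mu1 ≤ 0} {y | D.p1 y - 1 / 2 - D.κ y * mu1 ≤ 0} 1 := by
  have hg : ContDiff ℝ 2 fun z : S × ℝ => D.R (z.2, z.1) - 1 / 2 - D.κ z.1 * mu1 := by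
    refine ContDiff.of_le ?_ two_le
    refine ((D.hR.smooth.comp (contDiff_snd.prodMk contDiff_fst)).sub contDiff_const).sub ?_
    exact (D.κ_smooth.comp contDiff_fst).mul contDiff_const
  have key := tor_sublevel hL hg (Z := ZZ D) ?_ (ZZ_compact D) ?_ ?_ ?_ ?_
  · simp only [D.hR.start 0 le_rfl, D.hR.stop 1 le_rfl] at key
    exact key
  · intro x s _ s' _ hs
    have := D.hR.anti x hs
    simp only at this ⊢
    linarith only [this]
  · intro y hy
    exact hY y (by linarith [show D.p3 y ≤ 3 / 4 from hy.2])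
  · intro x h1 h0
    simp only [D.hR.start 0 le_rfl, D.hR.stop 1 le_rfl] at h1 h0
    have hr := kmu_range D x
    refine mem_ZZ D ?_ (by linarith only [h1, hr, hr.2])
    rw [kappa_one D (y := x) (by linarith only [h1, h0, D.le10 x])]
    exact one_ne_zero
  · obtain ⟨y, -, hy⟩ := D.ne
    refine ⟨y, ?_⟩
    have hr := kmu_range D y
    have := D.le10 y
    simp only [D.hR.start 0 le_rfl]
    linarith only [hy, hr, this, hr.1]
  · intro x _ s _ hz
    have hr := kmu_range D x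
    have hm : Differentiable ℝ fun k : ℝ => k * mu1 := differentiable_id.mul_const _
    exact reg_shift D (f := fun y => D.R (s, y)) (fun y => (D.hR.ends.2.2.1 s y).1)
      (fun y => (D.hR.ends.2.2.1 s y).2.trans (D.le10 y)) (D.hR.reg s) hm hr.1 hr.2 hz

omit [FiniteDimensional ℝ S] in
theorem D1_eq : D.D1 = {y | D.p0 y - 1 / 2 - D.κ y * mu1 ≤ 0} := by
  ext y
  simp only [SD.D1, mem_ofPred_eq, gK_tau1]

omit [FiniteDimensional ℝ S] in
theorem D1_ne : D.D1.Nonempty := by
  obtain ⟨y, -, hy⟩ := D.ne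
  refine ⟨y, ?_⟩
  rw [D1_eq]
  have hr := kmu_range D y
  show D.p0 y - 1 / 2 - D.κ y * mu1 ≤ 0
  linarith only [hy, hr, hr.1]

omit [FiniteDimensional ℝ S] in
theorem step1 {L : Lab S R} (hY : ∀ y, D.p3 y < 1 → y ∈ L.Y)
    {W : R} (ht : ∀ ℓ ∈ Ioo (0 : ℝ) 1, Tor L {y | D.p1 y ≤ ℓ} {y | D.p0 y ≤ ℓ} W) :
    Pair L {y | D.p1 y - 1 / 2 - D.κ y * mu1 ≤ 0} D.D1 ∧
      Tor L {y | D.p1 y - 1 / 2 - D.κ y * mu1 ≤ 0} D.D1 W := by
  have hμ := mu1_range
  have hκ := D.κ_smooth.continuous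
  have hne := D1_ne D
  rw [D1_eq] at hne ⊢
  have hd : {y | D.p1 y ≤ 1 / 2 + mu1} \ {y | D.p0 y ≤ 1 / 2 + mu1} =
      {y | D.p1 y - 1 / 2 - D.κ y * mu1 ≤ 0} \ {y | D.p0 y - 1 / 2 - D.κ y * mu1 ≤ 0} := by
    ext y
    simp only [Set.mem_sdiff, mem_ofPred_eq, not_le]
    have := le31 D y
    constructor
    · rintro ⟨h1, h2⟩
      rw [kappa_one D (y := y) (by linarith only [this, h1, h2])]
      constructor <;> linarith only [h1, h2]
    · rintro ⟨h1, h2⟩
      have hk := kappa_one D (y := y) (by linarith only [this, h1, h2])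
      rw [hk] at h1 h2
      constructor <;> linarith only [h1, h2]
  have hZ : {y | D.p1 y ≤ 1 / 2 + mu1} \ {y | D.p0 y ≤ 1 / 2 + mu1} ⊆ ZZ D := by
    rintro y ⟨h1, h2⟩
    simp only [mem_ofPred_eq, not_le] at h1 h2
    have := le31 D y
    refine mem_ZZ D ?_ (by linarith only [hμ, h1, this, hμ.2])
    rw [kappa_one D (y := y) (by linarith only [h1, h2, this])]
    exact one_ne_zero
  have hZ' := closure_minimal hZ (ZZ_closed D)
  have hc : IsCompact (closure ({y | D.p1 y ≤ 1 / 2 + mu1} \ {y | D.p0 y ≤ 1 / 2 + mu1})) :=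
    (ZZ_compact D).of_isClosed_subset isClosed_closure hZ'
  constructor
  · refine ⟨?_, ?_, ?_, hd ▸ hc, ?_, Or.inl hne⟩
    · intro y hy
      simp only [mem_ofPred_eq] at hy ⊢
      linarith only [hy, D.le10 y]
    · exact isClosed_le (((p0_smooth D).continuous.sub continuous_const).sub
        (hκ.mul continuous_const)) continuous_const
    · exact isClosed_le (((p1_smooth D).continuous.sub continuous_const).sub
        (hκ.mul continuous_const)) continuous_const
    · rw [← hd]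
      intro y hy
      exact hY y (by linarith only [hZ', hy, show D.p3 y ≤ 3 / 4 from (hZ' hy).2])
  · refine Tor.congr (U := {y | ∀ᶠ y' in 𝓝 y, D.κ y' = 1}) isOpen_setOfPred_eventually_nhds hc hd
      ?_ ?_ ?_ ?_ hne (ht (1 / 2 + mu1) ⟨by linarith only [hμ, hμ.1], by linarith only [hμ, hμ.2]⟩)
    · refine (closure_mono ?_).trans (closure_in D)
      rintro y ⟨h1, h2⟩
      simp only [mem_ofPred_eq, not_le] at h1 h2 ⊢
      linarith only [h1, h2, le31 D y]
    · ext y
      simp only [mem_inter_iff, mem_ofPred_eq]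
      refine and_congr_left fun h => ?_
      rw [h.self_of_nhds]
      constructor <;> intro h' <;> linarith only [h']
    · ext y
      simp only [mem_inter_iff, mem_ofPred_eq]
      refine and_congr_left fun h => ?_
      rw [h.self_of_nhds]
      constructor <;> intro h' <;> linarith only [h']
    · obtain ⟨y, -, hy⟩ := D.ne
      exact ⟨y, show D.p0 y ≤ 1 / 2 + mu1 by linarith only [hμ, hy, hμ.1]⟩
end

end SDTAux

variable {S : Type*} [NormedAddCommGroup S] [InnerProductSpace ℝ S] [FiniteDimensional ℝ S]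
variable {R : Type*} [CommRing R] [StarRing R]

theorem SD.tor_slice (D : SD S) {L : Lab S R} (hL : L.Good) (hY : ∀ y, D.p3 y < 1 → y ∈ L.Y)
    {W : R} (ht : ∀ ℓ ∈ Ioo (0 : ℝ) 1, Tor L {y | D.p1 y ≤ ℓ} {y | D.p0 y ≤ ℓ} W) :
    Pair L D.DF D.D1 ∧ D.D1.Nonempty ∧ IsOpen D.U2 ∧ closure (D.DF \ D.D1) ⊆ D.U2 ∧
      Tor L D.DF D.D1 W := by
  obtain ⟨pF, tF⟩ := SDTAux.stepF D hL hY
  obtain ⟨pR, tR⟩ := SDTAux.stepR D hL hY
  obtain ⟨p1, t1⟩ := SDTAux.step1 D hY ht
  refine ⟨pF.trans (pR.trans p1), SDTAux.D1_ne D, SDTAux.isOpen_U2 D, SDTAux.closure_U2 D, ?_⟩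
  have h := Tor.trans hL pF (pR.trans p1) tF (Tor.trans hL pR p1 tR t1)
  rwa [mul_one, mul_one] at h

end SpunKnot
end
end

-- merged part: Pool.Agent.Work.MP_e1e788_gt.SideB
section
/-! The critical part of the cover is a graph over the slice; no fibration. -/

open Set Filter Topology

noncomputable section
namespace SpunKnot
variable {V : Type} [Fintype V] [LinearOrder V]
variable {E : Type*} [NormedAddCommGroup E] [NormedSpace ℝ E] [FiniteDimensional ℝ E]

namespace SideBAux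

/-- the zero of a strictly decreasing function depends continuously on the parameter -/
theorem cont_root {S : Type*} [TopologicalSpace S] {f : ℝ × S → ℝ} (hf : Continuous f)
    {U : Set S} (hU : IsOpen U) {a b : ℝ} {T : S → ℝ}
    (h : ∀ y ∈ U, StrictAntiOn (fun τ => f (τ, y)) (Icc a b) ∧ T y ∈ Icc a b ∧ f (T y, y) = 0)
    {y₀ : S} (hy : y₀ ∈ U) (hT : T y₀ ∈ Ioo a b) : ContinuousAt T y₀ := by
  have c : ∀ t, ContinuousAt (fun y => f (t, y)) y₀ := fun t =>
    (hf.comp (continuous_const.prodMk continuous_id)).continuousAt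
  obtain ⟨s₀, m₀, z₀⟩ := h y₀ hy
  refine tendsto_order.2 ⟨fun t ht => ?_, fun t ht => ?_⟩
  · have l : max t a < T y₀ := max_lt ht hT.1
    have m : max t a ∈ Icc a b := ⟨le_max_right _ _, l.le.trans m₀.2⟩
    have : 0 < f (max t a, y₀) := z₀ ▸ s₀ m m₀ l
    filter_upwards [hU.mem_nhds hy, (c _).eventually (lt_mem_nhds this)] with y u w
    obtain ⟨s, m', z⟩ := h y u
    exact (le_max_left _ _).trans_lt ((s.lt_iff_gt m' m).1 (z.trans_lt w))
  · have l : T y₀ < min t b := lt_min ht hT.2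
    have m : min t b ∈ Icc a b := ⟨m₀.1.trans l.le, min_le_right _ _⟩
    have : f (min t b, y₀) < 0 := z₀ ▸ s₀ m₀ m l
    filter_upwards [hU.mem_nhds hy, (c _).eventually (gt_mem_nhds this)] with y u w
    obtain ⟨s, m', z⟩ := h y u
    exact ((s.lt_iff_gt m m').1 (w.trans_eq z.symm)).trans_le (min_le_left _ _)

/-- the point with first coordinate `τ` over the slice point `y` -/
def lift (τ : ℝ) (y : Sp (KS V)) : Sp (KA V) := WithLp.toLp 2 fun j => Option.elim j τ fun i => y i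

theorem lift_none (τ : ℝ) (y : Sp (KS V)) : lift τ y none = τ := rfl

theorem tl_lift (τ : ℝ) (y : Sp (KS V)) : tlL (KS V) (lift τ y) = y := rfl

theorem cont_lift : Continuous fun q : ℝ × Sp (KS V) => lift q.1 q.2 := by
  refine (PiLp.continuous_toLp 2 _).comp (continuous_pi fun j => ?_)
  cases j with
  | none => exact continuous_fst
  | some i => exact (EuclideanSpace.proj (𝕜 := ℝ) i).continuous.comp continuous_snd

theorem pt_ext {x x' : Sp (KA V)} (h : x none = x' none) (h' : tlL (KS V) x = tlL (KS V) x') :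
    x = x' := by
  ext j
  cases j with
  | none => exact h
  | some i => exact congrArg (fun y : Sp (KS V) => y i) h'

theorem cont_none : Continuous fun p : Lft (Sp (KA V)) => p.pt none :=
  (EuclideanSpace.proj (𝕜 := ℝ) (none : KA V)).continuous.comp CovAAux.cont_pt

theorem cont_e : Continuous fun p : Lft (Sp (KA V)) => tlL (KS V) p.pt :=
  (tlL (KS V)).continuous.comp CovAAux.cont_pt

theorem tau12 : 1 - 3 * eta < tau1 ∧ tau1 < tau2 ∧ tau2 < 1 - eta / 2 := by
  have := eta_pos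
  unfold tau1 tau2
  refine ⟨?_, ?_, ?_⟩ <;> linarith only [this]

theorem tauF_mem {S : Type*} [NormedAddCommGroup S] [NormedSpace ℝ S] (D : SD S) (y : S) :
    D.tauF y ∈ Icc tau1 tau2 := by
  have a := Real.smoothTransition.nonneg (4 * D.κ y - 2)
  have b := Real.smoothTransition.le_one (4 * D.κ y - 2)
  have c := tau12.2.1
  unfold SD.tauF SD.kp
  constructor <;> linarith only [a, c, b, mul_nonneg_of_nonpos_of_nonpos (Mathlib.Tactic.Linarith.sub_nonpos_of_le a) (le_of_lt (Mathlib.Tactic.Linarith.sub_neg_of_lt c)), mul_nonneg_of_nonpos_of_nonpos (Mathlib.Tactic.Linarith.sub_nonpos_of_le b) (le_of_lt (Mathlib.Tactic.Linarith.sub_neg_of_lt c))]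

variable (Γ : Geo V) {X : Set (Sp (KA V))} {β : Sp (KA V) → ℝ}

/-- the open set over which the cover is a graph -/
def U1 : Set (Lft (Sp (KA V))) :=
  {p | 1 / 4 < Γ.D.κ (tlL (KS V) p.pt) ∧ p.pt none ∈ Ioo (1 - 3 * eta) (1 - eta / 2) ∧
    p.ang ∈ Ioo (-(Real.pi / 2)) (Real.pi / 2)}

theorem isOpen_U1 : IsOpen (U1 Γ) :=
  (isOpen_lt continuous_const (Γ.D.κ_smooth.continuous.comp cont_e)).inter
    ((isOpen_Ioo.preimage cont_none).inter (isOpen_Ioo.preimage CovAAux.cont_ang))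

theorem strip {x : Sp (KA V)} (h : 0 < Γ.D.κ (tlL (KS V) x)) :
    tlL (KS V) x ∈ tsupport Γ.D.κ ∧ |x (some none) - 1| ≤ 4 * eta := by
  have a : tlL (KS V) x ∈ tsupport Γ.D.κ := subset_tsupport _ h.ne'
  have b : |x (some none) - 1| ≤ 3 * eta := (Γ.supp _ a).1
  exact ⟨a, by linarith [eta_pos]⟩

theorem mem_big {t : ℝ} (h : t ∈ Icc (1 - 3 * eta) (1 - eta / 2)) :
    t ∈ Icc (3 / 4 : ℝ) (9 / 4) ∧ t ∈ Icc (3 / 4 : ℝ) 1 ∧ t ∈ Ioo (2 * eta) (3 - 2 * eta) := by
  have := eta_pos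
  have := eta_le
  refine ⟨⟨?_, ?_⟩, ⟨?_, ?_⟩, ?_, ?_⟩ <;> linarith [h.1, h.2]

theorem G_eq {x : Sp (KA V)} (h : x none ∈ Icc (1 - 3 * eta) (1 - eta / 2)) :
    Γ.G x = Γ.D.gK (x none, tlL (KS V) x) :=
  (Γ.Gof_core Γ.D.gK (mem_big h).2.2).self_of_nhds

theorem facts {p : Lft (Sp (KA V))} (h : p ∈ U1 Γ ∩ cov Γ.G PhiA) :
    Γ.D.gK (p.pt none, tlL (KS V) p.pt) = 0 ∧ p.ang = ang (p.pt none) ∧ p.pt ∈ Γ.C ∧
      StrictAntiOn (fun τ => Γ.D.gK (τ, tlL (KS V) p.pt)) (Icc (1 - 3 * eta) (1 - eta / 2)) := by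
  obtain ⟨⟨a, b, c⟩, d, -, f⟩ := h
  have k : 0 < Γ.D.κ (tlL (KS V) p.pt) := by linarith only [a]
  have b' := Ioo_subset_Icc_self b
  obtain ⟨s, t⟩ := strip Γ k
  refine ⟨(G_eq Γ b').symm.trans d, ?_, ⟨d, s, (mem_big b').1⟩, Γ.D.gK_strictAnti k⟩
  obtain ⟨n, e⟩ := angle_eq t (mem_big b').1 f
  have m := ang_mem (p.pt none)
  have := Real.pi_pos
  have u : (n : ℝ) < 1 := by (refine lt_of_not_ge fun h_nl => ?_; linarith only [h_nl, e, this, m, c, m.1, c.2, mul_nonneg_of_nonpos_of_nonpos (le_of_lt (Mathlib.Tactic.Linarith.sub_neg_of_lt this)) (Mathlib.Tactic.Linarith.sub_nonpos_of_le h_nl)])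
  have w : (-1 : ℝ) < n := by (refine lt_of_not_ge fun h_nl => ?_; linarith only [h_nl, e, this, m, c, m.2, c.1, mul_nonneg_of_nonpos_of_nonpos (le_of_lt (Mathlib.Tactic.Linarith.sub_neg_of_lt this)) (Mathlib.Tactic.Linarith.sub_nonpos_of_le h_nl)])
  have : n = 0 := by
    have u' : n < 1 := by exact_mod_cast u
    have w' : -1 < n := by exact_mod_cast w
    omega
  rw [e, this, Int.cast_zero, mul_zero, add_zero]

theorem maps : MapsTo (fun p : Lft (Sp (KA V)) => tlL (KS V) p.pt) (U1 Γ ∩ cov Γ.G PhiA)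
    Γ.D.U2 := fun p hp => by
  obtain ⟨a, -, -, s⟩ := facts Γ hp
  have b := hp.1.2.1
  have b' := Ioo_subset_Icc_self b
  have l := b.1.le.trans b.2.le
  exact ⟨hp.1.1, a ▸ s b' ⟨l, le_rfl⟩ b.2, a ▸ s ⟨le_rfl, l⟩ b' b.1⟩

theorem inj : InjOn (fun p : Lft (Sp (KA V)) => tlL (KS V) p.pt) (U1 Γ ∩ cov Γ.G PhiA) := by
  intro p hp q hq e
  obtain ⟨a, b, -, s⟩ := facts Γ hp
  obtain ⟨a', b', -, -⟩ := facts Γ hq
  have e' : tlL (KS V) p.pt = tlL (KS V) q.pt := e
  have t : p.pt none = q.pt none :=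
    s.injOn (Ioo_subset_Icc_self hp.1.2.1) (Ioo_subset_Icc_self hq.1.2.1)
      (a.trans (by rw [e']; exact a'.symm))
  exact WithLp.ofLp_injective 2 (Prod.ext (pt_ext t e') (b.trans (by rw [t]; exact b'.symm)))

/-- the section over the slice -/
def sec (T : Sp (KS V) → ℝ) (y : Sp (KS V)) : Lft (Sp (KA V)) :=
  WithLp.toLp 2 (lift (T y) y, ang (T y))

theorem exists_root : ∃ T : Sp (KS V) → ℝ, ∀ y ∈ Γ.D.U2,
    T y ∈ Ioo (1 - 3 * eta) (1 - eta / 2) ∧ Γ.D.gK (T y, y) = 0 := by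
  have : ∀ y, ∃ t, y ∈ Γ.D.U2 →
      t ∈ Ioo (1 - 3 * eta) (1 - eta / 2) ∧ Γ.D.gK (t, y) = 0 := fun y => by
    by_cases h : y ∈ Γ.D.U2
    · obtain ⟨t, a, b⟩ := intermediate_value_Ioo' (f := fun t => Γ.D.gK (t, y))
        (a := 1 - 3 * eta) (b := 1 - eta / 2) (by linarith only [eta_pos])
        (Γ.D.gK_smooth.continuous.comp (continuous_id.prodMk continuous_const)).continuousOn
        ⟨h.2.1, h.2.2⟩
      exact ⟨t, fun _ => ⟨a, b⟩⟩
    · exact ⟨0, fun a => (h a).elim⟩
  choose T hT using this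
  exact ⟨T, hT⟩

theorem sec_mem {T : Sp (KS V) → ℝ} {y : Sp (KS V)} (hy : y ∈ Γ.D.U2)
    (a : T y ∈ Ioo (1 - 3 * eta) (1 - eta / 2)) (b : Γ.D.gK (T y, y) = 0) :
    sec T y ∈ U1 Γ ∩ cov Γ.G PhiA := by
  have k : 0 < Γ.D.κ (tlL (KS V) (lift (T y) y)) := lt_trans (by norm_num) hy.1
  have a' : lift (T y) y none ∈ Icc (1 - 3 * eta) (1 - eta / 2) := Ioo_subset_Icc_self a
  exact ⟨⟨hy.1, a, ang_mem _⟩, (G_eq Γ a').trans b, angle_of_tau (strip Γ k).2 (mem_big a').1⟩

theorem bij : BijOn (fun p : Lft (Sp (KA V)) => tlL (KS V) p.pt) (U1 Γ ∩ cov Γ.G PhiA)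
    Γ.D.U2 := by
  obtain ⟨T, hT⟩ := exists_root Γ
  exact ⟨maps Γ, inj Γ, fun y hy => ⟨sec T y, sec_mem Γ hy (hT y hy).1 (hT y hy).2, rfl⟩⟩

theorem opn (hU : IsOpen Γ.D.U2) {p : Lft (Sp (KA V))} (hp : p ∈ U1 Γ ∩ cov Γ.G PhiA) :
    map (fun p : Lft (Sp (KA V)) => tlL (KS V) p.pt) (𝓝[cov Γ.G PhiA] p) =
      𝓝 (tlL (KS V) p.pt) := by
  refine le_antisymm (cont_e.continuousAt.mono_left nhdsWithin_le_nhds) ?_
  obtain ⟨T, hT⟩ := exists_root Γ
  have hy := maps Γ hp
  have c : ContinuousAt T (tlL (KS V) p.pt) :=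
    cont_root Γ.D.gK_smooth.continuous hU (fun y hy =>
      ⟨Γ.D.gK_strictAnti (lt_trans (by norm_num) hy.1), Ioo_subset_Icc_self (hT y hy).1,
        (hT y hy).2⟩) hy (hT _ hy).1
  have c' : ContinuousAt (sec T) (tlL (KS V) p.pt) :=
    (WithLp.prod_continuous_toLp 2 _ _).continuousAt.comp
      ((cont_lift.continuousAt.comp (f := fun y => (T y, y)) (c.prodMk continuousAt_id)).prodMk
        (ang_smooth.continuous.continuousAt.comp c))
  have e : sec T (tlL (KS V) p.pt) = p := inj Γ (sec_mem Γ hy (hT _ hy).1 (hT _ hy).2) hp rfl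
  have t : Tendsto (sec T) (𝓝 (tlL (KS V) p.pt)) (𝓝[cov Γ.G PhiA] p) :=
    tendsto_nhdsWithin_iff.2 ⟨by have := c'.tendsto; rwa [e] at this,
      (hU.eventually_mem hy).mono fun y hy => (sec_mem Γ hy (hT y hy).1 (hT y hy).2).2⟩
  exact fun s hs => t hs

theorem mem_below (hF : FibExt E Γ.G PhiA Γ.C X β) {p : Lft (Sp (KA V))}
    (hp : p ∈ U1 Γ ∩ cov Γ.G PhiA) {γ : Sp (KA V) → ℝ} {t : ℝ} (ht : t ∈ Icc tau1 tau2)
    (e : γ p.pt = ang t) :
    p ∈ below Γ.G PhiA X γ ↔ Γ.D.gK (t, tlL (KS V) p.pt) ≤ 0 := by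
  obtain ⟨a, b, c, s⟩ := facts Γ hp
  have m : t ∈ Icc (1 - 3 * eta) (1 - eta / 2) :=
    ⟨tau12.1.le.trans ht.1, ht.2.trans tau12.2.2.le⟩
  rw [← a]
  refine Iff.trans ?_ (s.le_iff_ge m (Ioo_subset_Icc_self hp.1.2.1)).symm
  rw [← ang_strictMono.le_iff_le, ← e, ← b]
  exact ⟨fun h => h.2.2, fun h => ⟨hp.2, Γ.C_subset hF c, h⟩⟩

theorem clos (hF : FibExt E Γ.G PhiA Γ.C X β) :
    closure (Γ.AF X \ Γ.A X (ang tau1)) ⊆ U1 Γ ∩ cov Γ.G PhiA := by
  have c := (isCompact_slab Γ.G_smooth.continuous PhiA_smooth.continuous hF.cpt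
    (fun ξ h => (hF.sub ξ h).2) (ang tau1) (ang tau2)).isClosed
  have c' : IsClosed {p : Lft (Sp (KA V)) | 1 / 2 ≤ Γ.D.κ (tlL (KS V) p.pt) ∧
      p.pt none ∈ Icc tau1 tau2} :=
    (isClosed_le continuous_const (Γ.D.κ_smooth.continuous.comp cont_e)).inter
      (isClosed_Icc.preimage cont_none)
  refine (closure_minimal ?_ (c.inter c')).trans ?_
  · rintro p ⟨⟨a, b, d⟩, e⟩
    have e' : ang tau1 < p.ang := not_le.1 fun h => e ⟨a, b, h⟩
    have m := tauF_mem Γ.D (tlL (KS V) p.pt)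
    have i : p.ang ∈ Icc (ang tau1) (ang tau2) :=
      ⟨e'.le, le_trans d (ang_strictMono.monotone m.2)⟩
    have k : 1 / 2 < Γ.D.κ (tlL (KS V) p.pt) := by
      by_contra k
      have l : tau1 < Γ.D.tauF (tlL (KS V) p.pt) := ang_strictMono.lt_iff_lt.1 (e'.trans_le d)
      rw [SD.tauF, SD.kp, Real.smoothTransition.zero_of_nonpos (by linarith only [k])] at l
      linarith
    obtain ⟨t, u, w⟩ := intermediate_value_Icc tau12.2.1.le ang_smooth.continuous.continuousOn i
    have := tau_of_angle (strip Γ (by linarith only [k])).2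
      (mem_big ⟨tau12.1.le.trans u.1, u.2.trans tau12.2.2.le⟩).1 0 (a := p.ang)
      (by rw [w]; simp) a.2.2
    exact ⟨⟨a, b, i⟩, k.le, this ▸ u⟩
  · rintro p ⟨⟨a, b, d⟩, e, f⟩
    exact ⟨⟨by linarith only [e], ⟨tau12.1.trans_le f.1, f.2.trans_lt tau12.2.2⟩,
      (ang_mem _).1.trans_le d.1, d.2.trans_lt (ang_mem _).2⟩, a⟩

theorem transv {p : Lft (Sp (KA V))} (hp : p ∈ U1 Γ) (v : Sp (KA V))
    (h : fderiv ℝ Γ.G p.pt v = 0) (h' : tlL (KS V) v = 0) : v = 0 := by
  have d := Γ.G_dec hp.2.1.1 hp.2.1.2 (lt_trans (by norm_num) hp.1)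
  have e : v = v none • EuclideanSpace.single none (1 : ℝ) := by
    refine pt_ext (by simp) ?_
    rw [h']
    ext j
    simp
  rw [e, map_smul, smul_eq_mul, mul_eq_zero] at h
  rw [e, h.resolve_right d.ne, zero_smul]

theorem mfcq (hF : FibExt E Γ.G PhiA Γ.C X β) {p : Lft (Sp (KA V))}
    (hp : p ∈ U1 Γ ∩ cov Γ.G PhiA) :
    MFCQAt E (cov Γ.G PhiA) (fun _ => Γ.A X (ang tau1)) (fun q => tlL (KS V) q.pt) p 0 ∧
      MFCQAt E (cov Γ.G PhiA) (fun _ => Γ.AF X) (fun q => tlL (KS V) q.pt) p 0 := by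
  obtain ⟨χ, g, hχ, hg, hX, h₁, h₂⟩ := Γ.mfcq_A hF hp.2 (Γ.C_subset hF (facts Γ hp).2.2.1)
  have hΦ : ContDiff ℝ 2 (PhiA (V := V)) := PhiA_smooth.of_le (by norm_cast)
  have hd : DifferentiableAt ℝ Γ.G p.pt := Γ.G_smooth.differentiable (by simp) _
  constructor
  · refine (mfcq_below (γ := fun _ _ => ang tau1) hΦ hp.2 hχ hg hX contDiffAt_const ?_).2
      (tlL (KS V)) (transv Γ hp.1) hd
    obtain ⟨v, a, b⟩ := h₁ (ang tau1) (.inl ⟨by
      linarith only [(ang_mem tau1).1, (ang_mem tau2).2, Real.pi_pos], le_rfl⟩)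
    refine ⟨v, a, fun e => ?_⟩
    rw [fderiv_fun_const]
    exact div_pos (b e) (pow_pos (norm_pos_iff.2 hp.2.2.1) 2)
  · refine (mfcq_below (γ := fun _ x => ang (Γ.D.tauF (tlL (KS V) x))) hΦ hp.2 hχ hg hX ?_ ?_).2
      (tlL (KS V)) (transv Γ hp.1) hd
    · have s : ContDiff ℝ 2 fun x : Sp (KA V) => ang (Γ.D.tauF (tlL (KS V) x)) :=
        (ang_smooth.comp (Γ.D.tauF_smooth.comp (tlL (KS V)).contDiff)).of_le (by norm_cast)
      exact s.contDiffAt.comp _ (ContDiffAt.comp (g := χ) (f := Prod.fst) _ hχ.smooth contDiffAt_fst)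
    · refine h₂ (fun k => tau1 + Real.smoothTransition (4 * k - 2) * (tau2 - tau1)) ?_
        (tauF_mem Γ.D _) ?_
      · have : Differentiable ℝ Real.smoothTransition :=
          (Real.smoothTransition.contDiff (n := 1)).differentiable (by simp)
        fun_prop
      · rw [Real.smoothTransition.one_of_one_le (by norm_num)]; ring

theorem cont_F : Continuous fun x : Sp (KA V) => ang (Γ.D.tauF (tlL (KS V) x)) :=
  ang_smooth.continuous.comp (Γ.D.tauF_smooth.continuous.comp (tlL (KS V)).continuous)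

theorem pair_F (hF : FibExt E Γ.G PhiA Γ.C X β) :
    Pair Γ.K.labA (Γ.AF X) (Γ.A X (ang tau1)) :=
  Γ.pair_below hF continuous_const (cont_F Γ) fun _ => ang_strictMono.monotone (tauF_mem _ _).1

end SideBAux

open SideBAux

namespace Geo
variable (Γ : Geo V) {X : Set (Sp (KA V))} {β : Sp (KA V) → ℝ}

theorem tor_core (hF : FibExt E Γ.G PhiA Γ.C X β) :
    Tor Γ.K.labA (Γ.AF X) (Γ.A X (ang tau1)) Γ.K.Gv := by
  obtain ⟨p₂, n₂, hU, hc, ht⟩ := Γ.D.tor_slice Γ.K.labS_good (W := Γ.K.Gv)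
    (fun y h => by rwa [Γ.e3] at h) fun ℓ h => by rw [Γ.e0, Γ.e1]; exact Γ.K.tor_star h
  refine tor_transport E Γ.K.labA_good Γ.K.labS_good Γ.K.tlab Γ.K.tlab_G cont_e (isOpen_U1 Γ) hU
    (bij Γ) (fun p hp => opn Γ hU hp) (pair_F Γ hF) p₂
    (below_nonempty (Γ.C_nonempty.mono (Γ.C_subset hF)) hF.sub _) n₂ (fun p hp => hp.1)
    ((clos Γ hF).trans inter_subset_left) hc
    (fun p hp => mem_below Γ hF hp ⟨le_rfl, tau12.2.1.le⟩ rfl)
    (fun p hp => mem_below Γ hF hp (tauF_mem _ _) rfl) (fun p hp => ?_) (fun l p hp h => ?_)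
    (fun p hp => mfcq Γ hF (clos Γ hF hp)) ht
  · exact (Γ.q3_le_ring (mem_big (Ioo_subset_Icc_self hp.1.2.1)).2.1).trans_lt hp.2.1
  · rcases l with _ | ⟨v, i⟩
    · exact h
    · refine ⟨h.1, h.2.1, h.2.2, ?_⟩
      have a := (mem_big (Ioo_subset_Icc_self hp.1.2.1)).2.1.2
      have b := hp.1.2.2
      rw [if_neg Bool.false_ne_true, Int.cast_zero, mul_zero, sub_zero]
      exact ⟨by linarith only [a], by linarith only [b, b.1, Real.pi_pos], b.2⟩

theorem noFib : ¬ FibExt E Γ.G PhiA Γ.C X β := by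
  intro hF
  have l : ang tau1 ≤ ang tau2 := ang_strictMono.monotone tau12.2.1.le
  have l' : ang tau2 ≤ ang tau1 + 2 * Real.pi := by
    linarith only [l, (ang_mem tau1).1, (ang_mem tau2).2, Real.pi_pos]
  have t₁ := Tor.trans Γ.K.labA_good
    (Γ.pair_below hF (cont_F Γ) continuous_const
      fun _ => ang_strictMono.monotone (tauF_mem _ _).2)
    (pair_F Γ hF) (Γ.tor_flat hF) (Γ.tor_core hF)
  have t₂ := Tor.trans Γ.K.labA_good
    (Γ.pair_below hF continuous_const continuous_const fun _ => l')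
    (Γ.pair_below hF continuous_const continuous_const fun _ => l) (Γ.tor_far hF) t₁
  rw [mul_one, mul_one] at t₂
  exact R5.not_coboundary Γ.K.Gv_eq (coboundary_of_fibExt Γ.G_smooth.continuous
    (PhiA_smooth.of_le (by norm_cast)) hF (Γ.C_nonempty.mono (Γ.C_subset hF)) Γ.K.labA_good
    (fun _ => Γ.cov_subset) R5.ph R5.ph_star Γ.K.labA_equivariant (ang tau1)
    (fun _ hp hX => Γ.mfcq_one hF hp hX) t₂)
end Geo

end SpunKnot
end
end

-- merged part: Pool.Agent.Work.MP_e1e788_gt.Asm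
section
/-! Passage to the coordinates of the long space. -/

open Set Filter Topology

noncomputable section
namespace SpunKnot

namespace AsmAux

/-- the linear change of coordinates -/
def lin (m : ℕ) : (Lg (m + 1) × ℝ) ≃ₗ[ℝ] Sp (KA (Fin (m + 1))) where
  toFun p := WithLp.toLp 2 fun j => match j with
    | none => p.1.2.2.im
    | some none => p.1.2.2.re
    | some (some none) => p.2
    | some (some (some none)) => p.1.2.1 0
    | some (some (some (some v))) => if v = 0 then p.1.1 else p.1.2.1 v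
  invFun y := ((y (jA 0), WithLp.toLp 2 fun v =>
    if v = 0 then y (some (some (some none))) else y (jA v), ⟨y (some none), y none⟩),
    y (some (some none)))
  map_add' p q := by
    ext j
    rcases j with _ | _ | _ | _ | v
    · rfl
    · rfl
    · rfl
    · rfl
    · by_cases h : v = 0 <;> simp [h]
  map_smul' c p := by
    ext j
    rcases j with _ | _ | _ | _ | v
    · simp
    · simp
    · rfl
    · rfl
    · by_cases h : v = 0 <;> simp [h]
  left_inv p := by
    refine Prod.ext (Prod.ext ?_ (Prod.ext ?_ rfl)) rfl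
    · simp
    · ext v
      by_cases h : v = 0 <;> simp [h]
  right_inv y := by
    ext j
    rcases j with _ | _ | _ | _ | v
    · rfl
    · rfl
    · rfl
    · simp
    · by_cases h : v = 0 <;> simp [h]

/-- the origin -/
def org (m : ℕ) : Sp (KA (Fin (m + 1))) := WithLp.toLp 2 fun j => match j with
  | none => 3 / 2
  | some none => 1 / 2
  | some (some none) => 3 / 2 * eta
  | some (some (some none)) => 0
  | some (some (some (some _))) => -2

theorem exists_aff (m : ℕ) : ∃ (A : (Lg (m + 1) × ℝ) ≃L[ℝ] Sp (KA (Fin (m + 1))))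
    (o : Sp (KA (Fin (m + 1)))), ∀ p, (A p + o) none = p.1.2.2.im + 3 / 2 ∧
      (A p + o) (some none) = p.1.2.2.re + 1 / 2 ∧
      (A p + o) (some (some none)) = p.2 + 3 / 2 * eta ∧ (A p + o) (jA 0) = p.1.1 + -2 :=
  ⟨(lin m).toContinuousLinearEquiv, org m, fun _ => ⟨rfl, rfl, rfl, rfl⟩⟩

variable {V V' : Type*} [NormedAddCommGroup V] [NormedSpace ℝ V] [NormedAddCommGroup V']
  [NormedSpace ℝ V']

theorem far (A : V ≃L[ℝ] V') (o : V') (R0 : ℝ) : ∃ R : ℝ, ∀ p, R ≤ ‖p‖ → R0 ≤ ‖A p + o‖ := by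
  refine ⟨‖(A.symm : V' →L[ℝ] V)‖ * (|R0| + ‖o‖) + 1, fun p hp => ?_⟩
  by_contra hc
  have h1 := (A.symm : V' →L[ℝ] V).le_opNorm (A p + o - o)
  have h2 : ‖A p + o - o‖ ≤ |R0| + ‖o‖ := by
    have := norm_sub_le (A p + o) o
    have := le_abs_self R0
    linarith [not_le.1 hc]
  have h3 := mul_le_mul_of_nonneg_left h2 (norm_nonneg (A.symm : V' →L[ℝ] V))
  have h4 : (A.symm : V' →L[ℝ] V) (A p + o - o) = p := by simp
  rw [h4] at h1
  linarith

theorem fd_ne (A : V ≃L[ℝ] V') (o : V') {F : V' → ℝ} (hF : Differentiable ℝ F) {x : V}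
    (h : fderiv ℝ F (A x + o) ≠ 0) : fderiv ℝ (fun x => F (A x + o)) x ≠ 0 := by
  intro h0
  refine h (ContinuousLinearMap.ext fun v => ?_)
  have := FibTAux.fd A o hF x (A.symm v)
  rw [h0, A.apply_symm_apply] at this
  exact this.symm

theorem aff_smooth (A : V ≃L[ℝ] V') (o : V') : ContDiff ℝ (⊤ : ℕ∞) fun x => A x + o :=
  A.contDiff.add contDiff_const

theorem conj_smooth (A : V ≃L[ℝ] V') (o : V') {Ξ : V' → V'} (h : ContDiff ℝ (⊤ : ℕ∞) Ξ) :
    ContDiff ℝ (⊤ : ℕ∞) fun x => A.symm (Ξ (A x + o) - o) :=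
  A.symm.contDiff.comp ((h.comp (aff_smooth A o)).sub contDiff_const)

end AsmAux

open AsmAux in
theorem Geo.polData {m : ℕ} (Γ : Geo (Fin (m + 1))) : Nonempty (PolData (m + 1)) := by
  obtain ⟨A, o, hA⟩ := exists_aff m
  obtain ⟨C, hC, hC0, Ξ, Ξ', hΞ, hΞ', hl, hr, hid, hz⟩ := Γ.iso 0
  obtain ⟨R0, hR0⟩ := Γ.Ψ_std
  obtain ⟨R1, hR1⟩ := hC.isBounded.exists_norm_le
  obtain ⟨R, hR⟩ := far A o (max R0 (R1 + 1))
  have hw : ∀ p, wC (A p + o) = p.1.2.2 := fun p => by
    rw [wC, (hA p).1, (hA p).2.1, add_sub_cancel_right, add_sub_cancel_right, Complex.re_add_im]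
  have hΦ : (fun q : Lg (m + 1) × ℝ => Lam q.1.2.2) = fun q => PhiA (A q + o) := by
    funext q
    rw [PhiA, hw]
  have hG : Differentiable ℝ Γ.G := Γ.G_smooth.differentiable (by simp)
  have hP : Differentiable ℝ (PhiA (V := Fin (m + 1))) := PhiA_smooth.differentiable (by simp)
  have hΨ : ∀ s : ℝ, Differentiable ℝ fun q : ℝ × Sp (KA (Fin (m + 1))) => Γ.Ψ (s, q) := fun s =>
    (Γ.Ψ_smooth.differentiable (by simp)).comp ((differentiable_const s).prodMk differentiable_id)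
  have hB : ∀ s : ℝ, (fun q : ℝ × (Lg (m + 1) × ℝ) => Γ.Ψ (s, q.1, A q.2 + o)) =
      fun q => Γ.Ψ (s, (ContinuousLinearEquiv.refl ℝ ℝ).prodCongr A q + (0, o)) := fun s => by
    funext q
    simp
  have hB' : ∀ (θ : ℝ) p, (ContinuousLinearEquiv.refl ℝ ℝ).prodCongr A (θ, p) + (0, o) =
      (θ, A p + o) := fun θ p => by simp
  have hhalf : stp (0 + 3 / 2 * eta) = 1 / 2 := stp_eq_half_iff.2 (zero_add _)
  refine ⟨{
    G := fun p => Γ.G (A p + o)
    Λ := Lam
    Ξ := fun p => A.symm (Ξ (A p + o) - o)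
    Ξ' := fun p => A.symm (Ξ' (A p + o) - o)
    Ψ := fun z => Γ.Ψ (z.1, z.2.1, A z.2.2 + o)
    g0 := fun t => stp (t + 3 / 2 * eta) - 1 / 2
    R := R
    ε := 1 / 4
    ε_pos := by norm_num
    G_smooth := Γ.G_smooth.comp (aff_smooth A o)
    Λ_smooth := Lam_smooth
    Λ_std := fun w hw => Lam_id (Or.inl ?_)
    Λ_ang := fun _ h => Lam_ang h
    Λ_zero := fun _ h => Lam_zero h
    Ξ_smooth := conj_smooth A o hΞ
    Ξ'_smooth := conj_smooth A o hΞ'
    Ξ_left := fun p => by simp [hl]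
    Ξ_right := fun p => by simp [hr]
    Ξ_id := fun p hp => ?_
    Ξ_zero := fun p => ?_
    G_reg := fun p hp => fd_ne A o hG (Γ.G_reg hp)
    g0_smooth := (stp_smooth.comp (contDiff_id.add contDiff_const)).sub contDiff_const
    g0_zero := fun t => ?_
    g0_reg := ?_
    Ψ_smooth := Γ.Ψ_smooth.comp (contDiff_fst.prodMk (contDiff_snd.fst.prodMk
      ((aff_smooth A o).comp contDiff_snd.snd)))
    Ψ_zero := fun θ p => Γ.Ψ_zero θ _
    Ψ_per := ?_
    Ψ_std := fun s θ p hp => ?_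
    Ψ_reg := fun s hs θ hθ p hp => ?_
    Ψ_fib := fun θ hθ p hp hp' => ?_
    noFib := ⟨(fun y => A.symm (y - o)) '' Γ.C, Γ.isCompact_C.image
      (A.symm.continuous.comp (continuous_id.sub continuous_const)), ?_, fun X β hF => ?_⟩ }⟩
  · have h1 := (Complex.abs_re_le_norm w).trans_lt hw
    have h2 := eta_le
    have h3 := (abs_lt.1 h1).2
    rw [abs_sub_comm]
    exact le_trans (by linarith only [h2, h3]) (le_abs_self _)
  · have h1 : A p + o ∉ C := fun hc => by
      rcases hp with hp | hp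
      · have h2 := (le_max_right _ _).trans (hR p hp)
        linarith only [h2, hR1, hc, hR1 _ hc]
      · have h2 := hC0 _ hc
        rw [(hA p).2.2.2] at h2
        linarith only [hp, h2]
    simp [hid _ h1]
  · have h1 := hz (A p + o)
    simp only [(hA p).2.2.1, sub_eq_zero, stp_eq_half_iff, add_eq_right] at h1
    simpa using h1
  · rw [sub_eq_zero, stp_eq_half_iff, add_eq_right]
  · rw [deriv_sub_const, deriv_comp_add_const]
    exact (stp_deriv_pos (by rw [hhalf]; norm_num) (by rw [hhalf]; norm_num)).ne'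
  · obtain ⟨δ, hδ, h⟩ := Γ.hF.per
    refine ⟨δ, hδ, fun s θ hθ p => ?_⟩
    simp only [Geo.Ψ, Geo.Gof, SD.gS, h θ hθ]
  · rw [← (hA p).2.2.1]
    refine hR0 s θ _ ?_
    rcases hp with hp | hp | hp
    · left
      rw [(hA p).1, (hA p).2.1, add_sub_cancel_right, add_sub_cancel_right]
      exact ⟨(Complex.abs_im_le_norm _).trans_lt hp, (Complex.abs_re_le_norm _).trans_lt hp⟩
    · exact Or.inr (Or.inl ((le_max_left _ _).trans (hR p hp)))
    · refine Or.inr (Or.inr ⟨0, ?_⟩)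
      rw [(hA p).2.2.2]
      linarith only [hp]
  · rw [hB s]
    refine fd_ne _ _ (hΨ s) ?_
    rw [hB']
    exact Γ.Ψ_reg hs hθ hp
  · obtain ⟨v, h1, h2⟩ := Γ.Ψ_fib hθ hp (by rw [hw]; exact hp')
    refine ⟨(v.1, A.symm v.2), ?_, ?_⟩
    · rw [hB 1, FibTAux.fd _ _ (hΨ 1), hB']
      simpa using h1
    · rw [hΦ, dArg, FibTAux.fd A o hP, A.apply_symm_apply]
      exact h2
  · rintro _ ⟨y, hy, rfl⟩
    have h1 : A (A.symm (y - o)) + o = y := by simp
    refine ⟨by simpa only [h1] using hy.1, ?_⟩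
    rw [← hw, h1]
    exact Γ.C_ne hy
  · rw [hΦ] at hF
    have h1 := hF.transport A o hG hP
    have h2 : (fun x => A x + o) '' ((fun y => A.symm (y - o)) '' Γ.C) = Γ.C := by
      rw [image_image]
      simp
    rw [h2] at h1
    exact Γ.noFib h1

end SpunKnot
end
end

-- merged part: Pool.Agent.Work.MP_e1e788_gt.GeoE
section
/-! Existence of the slice data. -/

open Set Filter Topology

noncomputable section
namespace SpunKnot
variable {V : Type} [Fintype V] [LinearOrder V]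

namespace GeoEAux

/-- `1` on `[a - m, b + m]`, `0` off `(a - 2 m, b + 2 m)` -/
def rho (a b m t : ℝ) : ℝ :=
  Real.smoothTransition ((t - a + 2 * m) / m) * Real.smoothTransition ((b + 2 * m - t) / m)

theorem rho_smooth (a b m : ℝ) : ContDiff ℝ (⊤ : ℕ∞) (rho a b m) := by
  unfold rho
  exact (Real.smoothTransition.contDiff.comp (by fun_prop)).mul
    (Real.smoothTransition.contDiff.comp (by fun_prop))

theorem rho_range (a b m t : ℝ) : 0 ≤ rho a b m t ∧ rho a b m t ≤ 1 :=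
  ⟨mul_nonneg (Real.smoothTransition.nonneg _) (Real.smoothTransition.nonneg _),
    mul_le_one₀ (Real.smoothTransition.le_one _) (Real.smoothTransition.nonneg _)
      (Real.smoothTransition.le_one _)⟩

theorem rho_one {a b m t : ℝ} (hm : 0 < m) (h1 : a - m < t) (h2 : t < b + m) : rho a b m t = 1 := by
  rw [rho, Real.smoothTransition.one_of_one_le, Real.smoothTransition.one_of_one_le, mul_one] <;>
    rw [le_div_iff₀ hm] <;> linarith

theorem rho_ne {a b m t : ℝ} (hm : 0 < m) (h : rho a b m t ≠ 0) :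
    a - 2 * m ≤ t ∧ t ≤ b + 2 * m := by
  obtain ⟨h1, h2⟩ := mul_ne_zero_iff.1 h
  rw [Ne, Real.smoothTransition.zero_iff_nonpos, not_le, lt_div_iff₀ hm] at h1 h2
  constructor <;> linarith

/-- lower ends of the core box -/
def lo (M : ℕ) : KS V → ℝ
  | none => 1 - 2 * eta
  | some none => -1 / 10
  | some (some none) => -M - 1
  | some (some (some _)) => -1 / 10

/-- upper ends of the core box -/
def hi (M : ℕ) : KS V → ℝ
  | none => 1 + 2 * eta
  | some none => 11 / 10
  | some (some none) => M + 1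
  | some (some (some _)) => 11 / 10

/-- margins -/
def mg : KS V → ℝ
  | none => eta / 2
  | some _ => 1 / 5

omit [Fintype V] [LinearOrder V] in
theorem mg_pos (j : KS V) : 0 < mg j := by
  have := eta_pos
  cases j <;> simp only [mg] <;> positivity

/-- the cutoff -/
def kap (M : ℕ) (y : Sp (KS V)) : ℝ := ∏ j, rho (lo M j) (hi M j) (mg j) (y j)

/-- closed boxes around the core box -/
def box (M : ℕ) (r : ℝ) : Set (Sp (KS V)) :=
  {y | ∀ j, y j ∈ Icc (lo M j - r * mg j) (hi M j + r * mg j)}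

omit [Fintype V] [LinearOrder V] in
theorem box_compact (M : ℕ) (r : ℝ) : IsCompact (box (V := V) M r) := by
  have h := (PiLp.homeomorph 2 fun _ : KS V => ℝ).isCompact_preimage.2
    (isCompact_univ_pi fun j => isCompact_Icc (a := lo M j - r * mg j) (b := hi M j + r * mg j))
  convert h using 1
  ext y
  exact ⟨fun a j _ => a j, fun a j => a j trivial⟩

omit [LinearOrder V] in
theorem kap_smooth (M : ℕ) : ContDiff ℝ (⊤ : ℕ∞) (kap (V := V) M) :=
  contDiff_prod fun j _ => (rho_smooth _ _ _).comp (EuclideanSpace.proj j : _ →L[ℝ] ℝ).contDiff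

omit [LinearOrder V] in
theorem kap_supp (M : ℕ) : Function.support (kap (V := V) M) ⊆ box M 2 := fun _ hy j =>
  rho_ne (mg_pos j) (Finset.prod_ne_zero_iff.1 hy j (Finset.mem_univ j))

omit [LinearOrder V] in
theorem kap_one {M : ℕ} {y : Sp (KS V)} (h : ∀ j, lo M j - mg j < y j ∧ y j < hi M j + mg j) :
    kap M y = 1 := Finset.prod_eq_one fun j _ => rho_one (mg_pos j) (h j).1 (h j).2

omit [Fintype V] [LinearOrder V] in
theorem cont (j : KS V) : Continuous (Y := ℝ) fun y : Sp (KS V) => y j :=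
  (EuclideanSpace.proj j : _ →L[ℝ] ℝ).continuous

theorem kap_dir0 (M : ℕ) {y : Sp (KS V)} (h1 : -3 / 10 < y (some none))
    (h2 : y (some none) < 13 / 10) :
    fderiv ℝ (kap M) y (EuclideanSpace.single (some none) 1) = 0 := by
  rw [← ((kap_smooth M).differentiable (by simp) y).lineDeriv_eq_fderiv, lineDeriv]
  have c : Continuous fun t : ℝ => y (some none) + t := by fun_prop
  have e : (fun t : ℝ => kap M (y + t • EuclideanSpace.single (some none) 1)) =ᶠ[𝓝 0]
      fun _ => kap M y := by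
    filter_upwards [c.continuousAt.eventually (lt_mem_nhds (a := -3 / 10) (by simpa using h1)),
      c.continuousAt.eventually (gt_mem_nhds (a := 13 / 10) (by simpa using h2))] with t t1 t2
    refine Finset.prod_congr rfl fun j _ => ?_
    by_cases hj : j = some none
    · subst hj
      rw [rho_one (mg_pos _), rho_one (mg_pos _)] <;> simp only [lo, hi, mg]
      · linarith only [h1]
      · linarith only [h2]
      · simp; linarith only [t1]
      · simp; linarith only [t2]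
    · simp [hj]
  rw [e.deriv_eq, deriv_const]

section
variable {κ : Type*} [Fintype κ] [DecidableEq κ] {x : Sp κ} {S : Finset κ}

theorem near_even (h : Active x S) {j : κ} {i : ℤ} (e : acell x S j = 2 * i) :
    |x j - i| < 2 * eta := by
  have hj : j ∉ S := fun hj => by
    simp only [acell, if_pos hj] at e
    rcases GridCAux.sg_cases (x j) with t | t <;> omega
  have := (h.near j).1 hj
  rw [e] at this
  simpa using this

theorem near_half (h : Active x S) (j : κ) : |x j - (acell x S j : ℝ) / 2| < 1 / 2 := by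
  have := eta_le
  have := eta_pos
  by_cases hj : j ∈ S
  · linarith only [this, h, hj, (h.near j).2 hj]
  · linarith [(h.near j).1 hj]

theorem near_unit (h : Active x S) {j : κ}
    (e : acell x S j = 0 ∨ acell x S j = 1 ∨ acell x S j = 2) :
    -1 / 10 ≤ x j ∧ x j ≤ 11 / 10 := by
  have := eta_le
  rcases e with e | e | e
  · have t := abs_lt.1 (near_even h (i := 0) e)
    push_cast at t
    constructor <;> linarith only [this, t, t.1, t.2]
  · have t := near_half h j
    rw [e, abs_lt] at t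
    push_cast at t
    constructor <;> linarith only [t, t.1, t.2]
  · have t := abs_lt.1 (near_even h (i := 1) e)
    push_cast at t
    constructor <;> linarith only [this, t, t.1, t.2]
end

/-- cells over the top side above the base -/
def Top (M : ℕ) (c : KS V → ℤ) : Prop :=
  c none = 2 ∧ (c (some none) = 1 ∨ c (some none) = 2) ∧ |c (some (some none))| ≤ M ∧
    (∀ v, c (jS v) = 0 ∨ c (jS v) = 1 ∨ c (jS v) = 2) ∧ ∃ v, c (jS v) = 2

def NoTop (M : ℕ) (x : Sp (KS V)) : Prop := ∀ S, Active x S → ¬ Top M (acell x S)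

def Bd (M : ℕ) (P : ℤ → Set (Finset V)) : Prop := ∀ n, (M : ℤ) < |n| → P n = ∅

omit [Fintype V] [LinearOrder V] in
theorem bd_at0 (M : ℕ) (L : Set (Finset V)) : Bd M (at0 L) := fun n hn =>
  if_neg (by rintro rfl; simp at hn; omega)

theorem mem_top {M : ℕ} {b : V} {P : ℤ → Set (Finset V)} (hP : Bd M P) (N : Set (Finset V))
    {c : KS V → ℤ} (h2 : c none = 2) (hc : ¬ Top M c) : c ∈ slice b P N ↔ c (some none) ≤ 0 := by
  have e : c ∈ slice b P N ↔ (fun j => c (some j)) ∈ ycx b P := by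
    simp only [slice, stack, mem_ofPred_eq, if_pos h2]
  rw [e]
  refine ⟨fun h => ?_, fun h => baseY_subset b P h⟩
  by_contra t
  simp only [ycx, stack, mem_ofPred_eq, if_neg t] at h
  split_ifs at h with h1 h3
  · have k := fun j => congrFun (mem_singleton_iff.1 h) j
    refine hc ⟨h2, .inl h1, ?_, fun v => ?_, b, ?_⟩
    · rw [k none]; simp [ptb]
    · rw [k (some v)]; simp only [ptb]; split_ifs <;> simp
    · rw [k (some b)]; simp [ptb]
  · have h' : (fun v => c (jS v)) ∈ cub (P (c (some (some none)))) := h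
    refine hc ⟨h2, .inr h3, ?_, h'.1, h'.2.1⟩
    by_contra u
    rw [hP _ (not_le.1 u), cub_empty] at h'
    exact h'
  · exact h

theorem noTop_of_box {M : ℕ} {x : Sp (KS V)} (h : x ∉ box M 0) : NoTop M x := by
  rintro S hS ⟨a1, a2, a3, a4, -⟩
  refine h fun j => ?_
  rw [zero_mul, sub_zero, add_zero]
  rcases j with _ | _ | _ | v
  · have t := abs_lt.1 (near_even hS (i := 1) a1)
    push_cast at t
    exact ⟨by simp only [lo]; linarith only [t, t.1], by simp only [hi]; linarith [t.2]⟩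
  · exact near_unit hS (.inr a2)
  · have t := abs_lt.1 (near_half hS (some (some none)))
    have u : |((acell x S (some (some none)) : ℤ) : ℝ)| ≤ M := by exact_mod_cast a3
    have w : (0 : ℝ) ≤ M := Nat.cast_nonneg M
    rw [abs_le] at u
    exact ⟨by simp only [lo]; linarith only [t, u, t.1, u.1], by simp only [hi]; linarith only [t, u, t.2, u.2]⟩
  · exact near_unit hS (a4 v)

theorem agree {M : ℕ} {b : V} {P P' : ℤ → Set (Finset V)} (hP : Bd M P) (hP' : Bd M P')
    (N : Set (Finset V)) {x : Sp (KS V)} (h : NoTop M x) :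
    hY (slice b P N) x = hY (slice b P' N) x := by
  refine hY_congr fun S hS => ?_
  by_cases h2 : acell x S none = 2
  · rw [mem_top hP N h2 (h S hS), mem_top hP' N h2 (h S hS)]
  · simp only [slice, stack, mem_ofPred_eq, if_neg h2]

theorem base {M : ℕ} {b : V} {P : ℤ → Set (Finset V)} (hP : Bd M P) (N : Set (Finset V))
    {x : Sp (KS V)} (h : NoTop M x) (h' : |x none - 1| < 1 / 2) :
    hY (slice b P N) x = stp (x (some none)) := by
  rw [← hY_base (some none) x]
  refine hY_congr fun S hS => ?_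
  by_cases h2 : acell x S none = 2
  · exact mem_top hP N h2 (h S hS)
  · have h0 : acell x S none ≠ 0 := fun e => by
      have t := abs_lt.1 (near_even hS (i := 0) e)
      have := eta_le
      push_cast at t
      linarith only [this, t, h', t.2, (abs_lt.1 h').1]
    simp only [slice, stack, mem_ofPred_eq, if_neg h2, if_neg h0, baseY]

theorem tri {M : ℕ} {b : V} {N : Set (Finset V)} {P0 P3 PN PC : ℤ → Set (Finset V)}
    (h0 : Bd M P0) (h3 : Bd M P3) (hN : Bd M PN) (hC : Bd M PC) (y : Sp (KS V)) :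
    (∀ᶠ y' in 𝓝 y, kap M y' = 1) ∨
    ((∀ᶠ y' in 𝓝 y, hY (slice b P0 N) y' = stp (y' (some none)) ∧
        hY (slice b P3 N) y' = stp (y' (some none)) ∧
        hY (slice b PN N) y' = stp (y' (some none)) ∧
        hY (slice b PC N) y' = stp (y' (some none))) ∧
      (fderiv ℝ (kap M) y (EuclideanSpace.single (some none) 1) = 0 ∨
        stp (y (some none)) = 0 ∨ stp (y (some none)) = 1)) ∨
    ∀ᶠ y' in 𝓝 y, kap M y' = 0 ∧ hY (slice b P3 N) y' = hY (slice b P0 N) y' ∧
      hY (slice b PN N) y' = hY (slice b P0 N) y' ∧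
      hY (slice b PC N) y' = hY (slice b P0 N) y' := by
  have e1 := eta_le
  have e0 := eta_pos
  by_cases hQ : ∀ j, lo M j - mg j < y j ∧ y j < hi M j + mg j
  · left
    filter_upwards [eventually_all.2 fun j =>
      ((cont j).continuousAt.eventually (lt_mem_nhds (hQ j).1)).and
        ((cont j).continuousAt.eventually (gt_mem_nhds (hQ j).2))] with y' h
    exact kap_one h
  right
  have nt : ∀ᶠ y' in 𝓝 y, NoTop M y' := by
    have : y ∈ (box M 0)ᶜ := fun h => hQ fun j => by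
      have t := h j
      have := mg_pos j
      rw [zero_mul, sub_zero, add_zero] at t
      exact ⟨by linarith only [this, t, t.1], by linarith [t.2]⟩
    filter_upwards [(box_compact M 0).isClosed.isOpen_compl.mem_nhds this] with y' h
    exact noTop_of_box h
  have c : Continuous fun y : Sp (KS V) => |y none - 1| :=
    (by fun_prop : Continuous fun t : ℝ => |t - 1|).comp (cont none)
  by_cases hw : |y none - 1| < 1 / 2
  · refine .inl ⟨?_, ?_⟩
    · filter_upwards [nt, c.continuousAt.eventually (gt_mem_nhds hw)] with y' a a'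
      exact ⟨base h0 N a a', base h3 N a a', base hN N a a', base hC N a a'⟩
    · by_cases a : y (some none) ≤ -3 / 10
      · exact .inr (.inl (stp_eq_zero_iff.2 (by linarith only [e1, e0, a])))
      by_cases a' : 13 / 10 ≤ y (some none)
      · exact .inr (.inr (stp_eq_one_iff.2 (by linarith only [e1, e0, a'])))
      exact .inl (kap_dir0 M (not_le.1 a) (not_le.1 a'))
  · right
    filter_upwards [nt, c.continuousAt.eventually
      (lt_mem_nhds (show 1 / 4 < |y none - 1| by linarith only [e1, e0, hw, not_lt.1 hw]))] with y' a a'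
    refine ⟨?_, agree h3 h0 N a, agree hN h0 N a, agree hC h0 N a⟩
    by_contra t
    have u := kap_supp M t none
    simp only [lo, hi, mg, mem_Icc] at u
    exact absurd a' (not_lt.2 (abs_le.2 ⟨by linarith only [e1, e0, u, u.1], by linarith only [e1, e0, u, u.2]⟩))

theorem exists_half {M : ℕ} {b : V} (N : Set (Finset V)) {P : ℤ → Set (Finset V)} (h : Bd M P) :
    ∃ y, kap M y = 1 ∧ hY (slice b P N) y = 1 / 2 := by
  have e1 := eta_le
  have e0 := eta_pos
  have w : (0 : ℝ) ≤ M := Nat.cast_nonneg M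
  refine ⟨EuclideanSpace.single none 1 + EuclideanSpace.single (some none) (3 / 2 * eta),
    kap_one fun j => ?_, ?_⟩
  · rcases j with _ | _ | _ | v <;> simp [lo, hi, mg] <;> constructor <;> linarith only [e0, e1]
  · rw [base h N _ (by simp)]
    · exact stp_eq_half_iff.2 (by simp)
    · rintro S hS ⟨-, -, -, -, v, hv⟩
      have t := near_even hS (i := 1) hv
      simp at t
      linarith only [e1, e0, t]

end GeoEAux

open GeoEAux in
theorem Comb.exists_geo (K : Comb V) : Nonempty (Geo V) := by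
  obtain ⟨b₀, b₁⟩ := K.toCombCore.b_mem
  obtain ⟨s₀, s₁, s₂, s₃⟩ := K.toCombCore.subs
  obtain ⟨N, hN⟩ := K.bdd
  have bd : Bd N.natAbs K.P₃ := fun n hn => hN n (by omega)
  have b₂ : {K.b} ∈ K.P₂ 0 := K.sub₁ (s₀ b₀)
  have b₃ : {K.b} ∈ K.P₃ 0 := K.sub₂ 0 b₂
  have path : ∀ {L : Set (Finset V)} {P : ℤ → Set (Finset V)}, IsLowerSet L → {K.b} ∈ L →
      Tower P → {K.b} ∈ P 0 → Col (zcx (at0 L)) (zcx P) →
      ∃ H, IsMPath H (hY (K.sl (at0 L))) (hY (K.sl P)) := fun hL hb hP hb' h =>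
    Col.mpath (closed_slice (tower_at0 hL) hb K.low₀ b₀)
      (Col.toSlice (tower_at0 hL) hP hb hb' K.low₀ b₀ h)
  obtain ⟨Q, hQ⟩ := path K.low₀ b₀ K.tow₂ b₂ K.col₂
  obtain ⟨R, hR⟩ := path K.lowZ (s₀ b₀) K.tow₃ b₃ K.col₃
  obtain ⟨H2, h2⟩ := path K.low₁ b₁ K.tow₃ b₃
    (Relation.ReflTransGen.trans (K.colZ.col_at0 K.low₁) K.col₃)
  obtain ⟨H3, h3⟩ := path K.low₁ b₁ (tower_at0 K.lowC) (s₂ b₀) (K.colC₁.col_at0 K.low₁)
  obtain ⟨H4, h4⟩ := path K.low₀ b₀ (tower_at0 K.lowC) (s₂ b₀) (K.colC₀.col_at0 K.low₀)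
  have le10 : ∀ y, K.q1 y ≤ K.q0 y :=
    hY_anti (slice_mono K.b (CubAAux.at0_sub (P := at0 K.Z₁) s₀) K.N₀)
  have le21 : ∀ y, hY (K.sl K.P₂) y ≤ K.q1 y :=
    hY_anti (slice_mono K.b (CubAAux.at0_sub K.sub₁) K.N₀)
  have le32 : ∀ y, K.q3 y ≤ hY (K.sl K.P₂) y := hY_anti (slice_mono K.b K.sub₂ K.N₀)
  obtain ⟨F, hF⟩ := exists_isF hQ hR le10 le21 le32
  refine ⟨{
    K := K
    D := {
      l0 := EuclideanSpace.proj (some none)
      e0 := EuclideanSpace.single (some none) 1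
      p0 := K.q0
      p1 := K.q1
      p2 := hY (K.sl K.P₂)
      p3 := K.q3
      pN := hY (K.sl (at0 K.N₁))
      pC := hY (K.sl (at0 K.Cy))
      κ := kap N.natAbs
      Q := Q
      R := R
      H2 := H2
      H3 := H3
      H4 := H4
      l0e0 := by simp
      hQ := hQ
      hR := hR
      h2 := h2
      h3 := h3
      h4 := h4
      le10 := le10
      le21 := le21
      le32 := le32
      κ_smooth := kap_smooth _
      κ_range := fun y => ⟨Finset.prod_nonneg fun _ _ => (rho_range _ _ _ _).1,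
        Finset.prod_le_one (fun _ _ => (rho_range _ _ _ _).1) fun _ _ => (rho_range _ _ _ _).2⟩
      κ_cpt := HasCompactSupport.of_support_subset_isCompact (box_compact _ 2) (kap_supp _)
      tri := tri (bd_at0 _ _) bd (bd_at0 _ _) (bd_at0 _ _)
      ne := exists_half _ (bd_at0 _ _) }
    F := F
    hF := hF
    e0 := rfl
    e1 := rfl
    e3 := rfl
    eN := rfl
    eC := rfl
    supp := fun y hy => ?_ }⟩
  have h := closure_minimal (kap_supp N.natAbs) (box_compact _ 2).isClosed hy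
  have h1 := h none
  simp only [lo, hi, mg, mem_Icc] at h1
  refine ⟨abs_le.2 ⟨by linarith only [h1, h1.1], by linarith only [h1, h1.2]⟩, fun v => ?_⟩
  have h2 := (h (jS v)).1
  simp only [lo, mg] at h2
  linarith only [h2]

end SpunKnot
end
end

-- merged part: Pool.Agent.Work.MP_e1e788_gt.Cert
section
/-! The certified combinatorial data. -/

namespace SpunKnot

namespace Cert

theorem flagB : flag (mat sB) = {∅, {100}} := by
  have key : ∀ x : Fin 635, vB.testBit x = true ↔ x = 100 := fun x => by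
    rw [vB_eq, tb_one, decide_eq_true_eq]
    exact ⟨fun h => Fin.ext h.symm, fun h => by rw [h]; rfl⟩
  ext σ
  rw [Set.mem_insert_iff, Set.mem_singleton_iff, ← Finset.subset_singleton_iff]
  refine ⟨fun h x hx => Finset.mem_singleton.2 ((key x).1 (((ind_spec indBB σ).1 h).2 x hx)),
    fun h x hx y hy => ?_⟩
  rw [Finset.mem_singleton.1 (h hx), Finset.mem_singleton.1 (h hy)]
  exact btB

end Cert

open Cert in
theorem exists_comb0 : Nonempty (Comb0 (Fin 635)) := ⟨{
  b := 100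
  N₀ := flag (mat sN0)
  N₁ := flag (mat sN1)
  Z₁ := flag (mat sZ1)
  Cy := flag (mat sCy)
  c₀ := coc cL
  cR := coc cR
  Gv := R5.g1 * R5.g1
  low₀ := flag_lower _
  low₁ := flag_lower _
  lowZ := flag_lower _
  lowC := flag_lower _
  inter := by rw [← flag_land, interN, flagB]
  inter' := by rw [← flag_land, interZC]
  colZ := colZ
  colC₀ := colC0
  colC₁ := colC1
  zigT := by
    rw [← flagB, ← unionT]
    exact (zigT (fun σ hσ => ((ind_spec indBB σ).1 hσ).2) subB).1
  flatR := flatR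
  agree₁ := fun σ hσ i hi j hj => by simpa using agree_spec agree1 σ hσ i hi j hj
  agree₀ := fun σ hσ i hi j hj => by simpa using agree_spec agree0 σ hσ i hi j hj
  tor := torZ
  Gv_eq := Or.inl rfl
  Z₁₂ := flag (mat sZ12)
  Z₁₂₃ := flag (mat sZ123)
  low₁₂ := flag_lower _
  low₁₂₃ := flag_lower _
  sub₁ := sub1
  sub₂ := sub2
  zigQ :=
    have h := fun σ hσ => ((ind_spec indZ0 σ).1 hσ).2
    (((zigQ1 h).trans (zigQ2 h)) sub0).1
  zigR :=
    have h := fun σ hσ => ((ind_spec indZZ σ).1 hσ).2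
    (((zigR1 h).trans (zigR2 h)) (sub1.trans sub2)).1
  flat₀ := flatL }⟩

end SpunKnot
end

-- merged part: Pool.Agent.Work.MP_e1e788_gt.Ex
section
/-! The example. -/

namespace SpunKnot

theorem exists_longData : Nonempty (LongData 635) := by
  obtain ⟨K₀⟩ := exists_comb0
  obtain ⟨K⟩ := K₀.comb
  obtain ⟨Γ⟩ := K.exists_geo
  obtain ⟨P⟩ := Γ.polData (m := 634)
  exact P.longData

end SpunKnot
end
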