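import Pool.Agent.Work.MP_e1e788_gt.Flag
import Pool.Agent.Work.MP_e1e788_gt.AlgM

/-! Torsion of a pair of flag complexes from a discrete Morse matching, by computation. -/

open Set
open scoped Classical

namespace SpunKnot.Cert

section Simp
variable {R : Type*} [CommRing R] {ι : Type*} [Fintype ι] [LinearOrder ι]

omit [Fintype ι] in
theorem tw_eq (g : ι → ι → R) {σ τ : Finset ι} {a b : ι} (ha : a ∈ σ) (ha' : ∀ x ∈ σ, a ≤ x)
    (hb : b ∈ τ) (hb' : ∀ x ∈ τ, b ≤ x) : tw g σ τ = g a b := by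
  rw [tw, dif_pos ⟨⟨a, ha⟩, ⟨b, hb⟩⟩]
  congr 1
  · exact le_antisymm (σ.min'_le _ ha) (ha' _ (σ.min'_mem _))
  · exact le_antisymm (τ.min'_le _ hb) (hb' _ (τ.min'_mem _))

theorem sum4 (g : ι → ι → R) (F : Finset ι → R) {a b c d : ι} (h1 : a < b) (h2 : b < c)
    (h3 : c < d) {σ : Finset ι} (hσ : σ = {a, b, c, d}) (h0 : g a a = 1) :
    ∑ τ, F τ * bd g τ σ = F (σ.erase a) * g a b + -F (σ.erase b) + F (σ.erase c) +
      -F (σ.erase d) := by
  have h4 := h1.trans h2
  have h5 := h2.trans h3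
  have h6 := h4.trans h3
  have m : ∀ x, x ∈ σ ↔ x = a ∨ x = b ∨ x = c ∨ x = d := fun x => by simp [hσ]
  have ma : ∀ x ∈ σ, a ≤ x := fun x hx => by
    rcases (m x).1 hx with rfl | rfl | rfl | rfl
    exacts [le_rfl, h1.le, h4.le, h6.le]
  have t : ∀ y, a < y → tw g σ (σ.erase y) = 1 := fun y hy =>
    (tw_eq g ((m a).2 (Or.inl rfl)) ma (Finset.mem_erase.2 ⟨hy.ne, (m a).2 (Or.inl rfl)⟩)
      fun x hx => ma x (Finset.mem_of_mem_erase hx)).trans h0
  have ta : tw g σ (σ.erase a) = g a b :=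
    tw_eq g ((m a).2 (Or.inl rfl)) ma (Finset.mem_erase.2 ⟨h1.ne', (m b).2 (by simp)⟩) fun x hx => by
      rcases (m x).1 (Finset.mem_of_mem_erase hx) with rfl | rfl | rfl | rfl
      exacts [absurd rfl (Finset.ne_of_mem_erase hx), le_rfl, h2.le, h5.le]
  have sa : σ.filter (· < a) = ∅ := Finset.filter_eq_empty_iff.2 fun x hx => (ma x hx).not_gt
  have sb : σ.filter (· < b) = {a} := by
    rw [hσ]; simp [Finset.filter_insert, Finset.filter_singleton, h1, h2.not_gt, h5.not_gt]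
  have sc : σ.filter (· < c) = {a, b} := by
    rw [hσ]; simp [Finset.filter_insert, Finset.filter_singleton, h2, h4, h3.not_gt]
  have sd : σ.filter (· < d) = {a, b, c} := by
    rw [hσ]; simp [Finset.filter_insert, Finset.filter_singleton, h3, h5, h6]
  rw [NerveAAux.sum_bd]
  conv_lhs => enter [1]; rw [hσ]
  rw [Finset.sum_insert (by simp [h1.ne, h4.ne, h6.ne]), Finset.sum_insert (by simp [h2.ne, h5.ne]),
    Finset.sum_insert (by simp [h3.ne]), Finset.sum_singleton, ta, t b h1, t c h4, t d h6]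
  simp only [NerveAAux.sg, sa, sb, sc, sd]
  rw [Finset.card_pair h1.ne, Finset.card_eq_three.2 ⟨a, b, c, h1.ne, h4.ne, h2.ne, rfl⟩]
  simp only [Finset.card_empty, Finset.card_singleton]
  ring

omit [Fintype ι] in
theorem bd_unit [StarRing R] {g : ι → ι → R} (hg : ∀ i j, g i j * star (g i j) = 1) {p : ι}
    {a : Finset ι} (h : p ∉ a) : bd g a (insert p a) * star (bd g a (insert p a)) = 1 := by
  have e : bd g a (insert p a) = (-1) ^ ((insert p a).filter (· < p)).card * tw g (insert p a) a := by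
    rw [bd, Finset.sum_eq_single p, if_pos (Finset.erase_insert h).symm]
    · intro i _ hi
      refine if_neg fun e => h ?_
      have : p ∈ (insert p a).erase i := Finset.mem_erase.2 ⟨hi.symm, Finset.mem_insert_self _ _⟩
      rwa [← e] at this
    · exact fun hp => absurd (Finset.mem_insert_self _ _) hp
  have e2 : tw g (insert p a) a * star (tw g (insert p a) a) = 1 := by
    unfold tw; split_ifs
    · exact hg _ _
    · simp
  rw [e, star_mul, star_pow, star_neg, star_one]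
  generalize ((insert p a).filter (· < p)).card = k
  have e3 : ((-1 : R) ^ k) * (-1) ^ k = 1 := by rw [← mul_pow]; simp
  linear_combination ((-1 : R) ^ k * (-1) ^ k) * e2 + e3
end Simp

/-- the bit mask of a simplex -/
noncomputable def code (σ : Finset (Fin 635)) : ℕ := Nat.ofBits fun i : Fin 635 => decide (i ∈ σ)

theorem tb_code (σ : Finset (Fin 635)) (k : ℕ) :
    (code σ).testBit k = true ↔ ∃ x ∈ σ, (x : ℕ) = k := by
  rw [code, Nat.testBit_ofBits]
  split_ifs with h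
  · simp only [decide_eq_true_eq]
    exact ⟨fun a => ⟨_, a, rfl⟩, fun ⟨x, a, e⟩ => by subst e; exact a⟩
  · simp only [false_iff, not_exists, not_and]
    intro x _ e; exact h (e ▸ x.2)

theorem tb_code' (σ : Finset (Fin 635)) (x : Fin 635) : (code σ).testBit x = true ↔ x ∈ σ := by
  rw [tb_code]; exact ⟨fun ⟨y, a, e⟩ => Fin.ext e ▸ a, fun a => ⟨x, a, rfl⟩⟩

theorem code_inj {σ τ : Finset (Fin 635)} (h : code σ = code τ) : σ = τ := by
  ext x; rw [← tb_code', h, tb_code']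

theorem eq_of_tb {a b : ℕ} (h : ∀ k, a.testBit k = true ↔ b.testBit k = true) : a = b :=
  Nat.eq_of_testBit_eq fun k => Bool.eq_iff_iff.2 (h k)

def flip (m i : ℕ) : ℕ := Nat.xor m (Nat.shiftLeft 1 i)

theorem tb_flip (m i k : ℕ) : (flip m i).testBit k = true ↔
    (m.testBit k = true ∧ i ≠ k) ∨ (¬ m.testBit k = true ∧ i = k) := by
  rw [flip, tb_xor, tb_one]
  by_cases h : i = k <;> simp [h]

theorem code_erase {σ : Finset (Fin 635)} {i : Fin 635} (h : i ∈ σ) :
    code (σ.erase i) = flip (code σ) i := eq_of_tb fun k => by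
  rw [tb_flip, tb_code, tb_code]
  constructor
  · rintro ⟨x, hx, rfl⟩
    exact Or.inl ⟨⟨x, Finset.mem_of_mem_erase hx, rfl⟩,
      fun e => Finset.ne_of_mem_erase hx (Fin.ext e).symm⟩
  · rintro (⟨⟨x, hx, rfl⟩, e⟩ | ⟨a, e⟩)
    · exact ⟨x, Finset.mem_erase.2 ⟨fun a => e (by rw [a]), hx⟩, rfl⟩
    · exact absurd ⟨i, h, e⟩ a

theorem flip_flip (m i : ℕ) : flip (flip m i) i = m := Nat.xor_xor_cancel_right _ _

theorem code_insert {σ : Finset (Fin 635)} {i : Fin 635} (h : i ∉ σ) :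
    code (insert i σ) = flip (code σ) i := by
  conv_rhs => rw [← Finset.erase_insert h, code_erase (Finset.mem_insert_self _ _), flip_flip]

theorem sub_code {σ : Finset (Fin 635)} {A : ℕ} :
    sub (code σ) A = true ↔ ∀ x ∈ σ, A.testBit x = true := by
  refine ⟨fun h x hx => sub_spec h ((tb_code' σ x).2 hx), fun h => Nat.beq_eq ▸ eq_of_tb fun k => ?_⟩
  rw [tb_land, Bool.and_eq_true]
  refine ⟨fun a => a.1, fun a => ⟨a, ?_⟩⟩
  obtain ⟨x, hx, rfl⟩ := (tb_code σ k).1 a
  exact h x hx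

noncomputable def enum (M : ℕ) (f : List ℕ → ℕ → Bool) (fuel : ℕ) : List ℕ → ℕ → ℕ → Bool :=
  Nat.rec (fun _ _ C => Nat.beq C 0) (fun _ ih l m C => cond (Nat.beq C 0) true
    (frc (Nat.log2 C) fun v => frc (flip C v) fun C' =>
      frc (Nat.lor m (Nat.shiftLeft 1 v)) fun m' =>
        f (v :: l) m' && frc (Nat.land C' (row M v)) (ih (v :: l) m') && ih l m C')) fuel

theorem enum_spec {M : ℕ} {f : List ℕ → ℕ → Bool} {fuel : ℕ} {l : List ℕ} {m C : ℕ}
    (h : enum M f fuel l m C = true) {ρ : Finset (Fin 635)} (h0 : ρ.Nonempty) (h1 : ρ ∈ flag M)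
    (h2 : ∀ x ∈ ρ, C.testBit x = true) (h3 : ∀ x ∈ ρ, ∀ y ∈ l, (x : ℕ) < y)
    (h4 : l.Pairwise (· < ·)) : ∃ l' : List ℕ, l'.Pairwise (· < ·) ∧
      (∀ k, k ∈ l' ↔ k ∈ l ∨ ∃ x ∈ ρ, (x : ℕ) = k) ∧ f l' (Nat.lor m (code ρ)) = true := by
  have z : C ≠ 0 := by
    obtain ⟨x, hx⟩ := h0
    rintro rfl
    simpa using h2 x hx
  induction fuel generalizing l m C ρ with
  | zero => exact absurd (Nat.eq_of_beq_eq_true h) z
  | succ k ih =>
    have h5 : cond (Nat.beq C 0) true (frc (Nat.log2 C) fun v => frc (flip C v) fun C' =>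
      frc (Nat.lor m (Nat.shiftLeft 1 v)) fun m' => f (v :: l) m' &&
        frc (Nat.land C' (row M v)) (enum M f k (v :: l) m') && enum M f k l m C') = true := h
    simp only [frc_eq, beq_false.2 z, cond_false, Bool.and_eq_true] at h5
    have nz : ∀ {D : ℕ} {τ : Finset (Fin 635)}, τ.Nonempty → (∀ x ∈ τ, D.testBit x = true) →
        D ≠ 0 := by
      rintro D τ ⟨x, hx⟩ a rfl
      simpa using a x hx
    by_cases hv : ∃ v ∈ ρ, (v : ℕ) = Nat.log2 C
    · obtain ⟨v, hv, e⟩ := hv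
      rw [← e] at h5
      have p1 : ((v : ℕ) :: l).Pairwise (· < ·) := List.pairwise_cons.2 ⟨h3 v hv, h4⟩
      have c1 : Nat.lor (Nat.lor m (Nat.shiftLeft 1 v)) (code (ρ.erase v)) = Nat.lor m (code ρ) :=
        eq_of_tb fun k => by
          simp only [tb_lor, tb_one, Bool.or_eq_true, decide_eq_true_eq, code_erase hv, tb_flip]
          have := (tb_code' ρ v).2 hv
          by_cases a : (v : ℕ) = k
          · subst a; simp [this]
          · simp [a]
      rcases (ρ.erase v).eq_empty_or_nonempty with h6 | h6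
      · refine ⟨_, p1, fun k => ?_, ?_⟩
        · rw [List.mem_cons, or_comm]
          refine or_congr Iff.rfl ⟨fun a => ⟨v, hv, a.symm⟩, fun ⟨x, hx, a⟩ => ?_⟩
          by_contra b
          have : x ∈ ρ.erase v := Finset.mem_erase.2 ⟨fun c => b (by rw [← a, c]), hx⟩
          simp [h6] at this
        · rw [← c1, h6, show code ∅ = 0 from eq_of_tb fun k => by simp [tb_code]]
          simpa using h5.1.1
      · have a2 : ∀ x ∈ ρ.erase v, (Nat.land (flip C v) (row M v)).testBit x = true := fun x hx => by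
          have b := Finset.mem_erase.1 hx
          rw [tb_land, tb_row' (h1 v hv x b.2),
            (tb_flip _ _ _).2 (Or.inl ⟨h2 x b.2, fun c => b.1 (Fin.ext c).symm⟩)]; rfl
        obtain ⟨l', q1, q2, q3⟩ := ih h5.1.2 h6 (flag_lower M (Finset.erase_subset _ _) h1) a2
          (fun x hx y hy => by
            have b := Finset.mem_erase.1 hx
            rcases List.mem_cons.1 hy with rfl | hy
            · have b1 := (Nat.le_log2 z).2 (Nat.ge_two_pow_of_testBit (h2 x b.2))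
              have b2 : (x : ℕ) ≠ v := fun c => b.1 (Fin.ext c)
              omega
            · exact h3 x b.2 y hy) p1 (nz h6 a2)
        refine ⟨l', q1, fun k => ?_, c1 ▸ q3⟩
        rw [q2, List.mem_cons]
        constructor
        · rintro ((a | a) | ⟨x, hx, a⟩)
          exacts [Or.inr ⟨v, hv, a.symm⟩, Or.inl a, Or.inr ⟨x, Finset.mem_of_mem_erase hx, a⟩]
        · rintro (a | ⟨x, hx, a⟩)
          · exact Or.inl (Or.inr a)
          · by_cases b : x = v
            · exact Or.inl (Or.inl (by rw [← a, b]))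
            · exact Or.inr ⟨x, Finset.mem_erase.2 ⟨b, hx⟩, a⟩
    · have a2 : ∀ x ∈ ρ, (flip C (Nat.log2 C)).testBit x = true := fun x hx =>
        (tb_flip _ _ _).2 (Or.inl ⟨h2 x hx, fun c => hv ⟨x, hx, c.symm⟩⟩)
      exact ih h5.2 h0 h1 a2 h3 h4 (nz h0 a2)

def isLo (e : ℕ) : Bool := Nat.testBit e 0
def pv (e : ℕ) : ℕ := Nat.land (Nat.shiftRight e 1) 255
def cf (e k : ℕ) : ℤ := Int.subNatNat (Nat.land (Nat.shiftRight e k) 3) 1
def phE (e : ℕ) : R5 := ⟨cf e 9, cf e 11, cf e 13, cf e 15, cf e 17⟩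
def tE (e m : ℕ) : ℕ :=
  Nat.add (Nat.mul (Nat.shiftRight e 19) (Nat.succ full)) (cond (isLo e) m (flip m (pv e)))
def phM (A : ℕ) (I : ℕ → ℕ) (m : ℕ) : R5 := cond (sub m A) 0 (phE (I m))

noncomputable def phS (A : ℕ) (L : List Row5) (I : ℕ → ℕ) (m a b c d : ℕ) : R5 :=
  phM A I (flip m a) * R5.xp (val (nth L a) b : ℕ) + -phM A I (flip m b) + phM A I (flip m c) +
    -phM A I (flip m d)

noncomputable def c4 (A : ℕ) (L : List Row5) (I : ℕ → ℕ) (b₀ tb : ℕ) (u : R5) (m t : ℕ) :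
    List ℕ → Bool
  | [a, b, c, d] => (!Nat.beq m b₀ || decide (phS A L I m a b c d = u)) &&
      (Nat.ble tb t || decide (phS A L I m a b c d = 0))
  | _ => !Nat.beq m b₀

noncomputable def mchk (M A : ℕ) (L : List Row5) (I : ℕ → ℕ) (a₀ b₀ ta tb : ℕ) (u : R5)
    (l : List ℕ) (m : ℕ) : Bool :=
  sub m A || frc (I m) fun e => frc (tE e m) fun t => frc (pv e) fun p =>
    (Nat.beq m a₀ || Nat.beq m b₀ || isLo e || (Nat.testBit m p && !sub (flip m p) A &&
      isLo (I (flip m p)) && Nat.beq (pv (I (flip m p))) p)) &&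
    l.all (fun i => frc (flip m i) fun m' => sub m' A || frc (I m') fun e' =>
      Nat.blt (tE e' m') t || (isLo e' && Nat.beq (pv e') i)) &&
    (!isLo e || (Nat.ble p 634 && !Nat.testBit m p && bt M p p &&
      l.all (fun i => bt M i p && bt M p i) && Nat.beq (tE (I (flip m p)) (flip m p)) t &&
      !Nat.beq t ta && !Nat.beq t tb && (Nat.ble ta t || !Nat.beq l.length 2 ||
        decide (phE (I (flip m p)) = 0)))) &&
    (!Nat.beq m a₀ || Nat.beq l.length 3) && c4 A L I b₀ tb u m t l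

noncomputable def inS (M A m : ℕ) : Bool :=
  !sub m A && Nat.beq (Nat.shiftRight m 635) 0 && allBits (fun i => sub m (row M i)) 640 m

noncomputable def morseChk (M A V : ℕ) (L : List Row5) (I : ℕ → ℕ) (a₀ b₀ : ℕ) (u : R5) : Bool :=
  frc M fun M => frc (tE (I a₀) a₀) fun ta => frc (tE (I b₀) b₀) fun tb =>
    enum M (mchk M A L I a₀ b₀ ta tb u) 200 [] 0 V && inS M A a₀ && inS M A b₀ &&
      Nat.blt ta tb && decide (phE (I a₀) = 1)

theorem inS_spec {M A m : ℕ} (h : inS M A m = true) :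
    ∃ σ, code σ = m ∧ σ ∈ flag M ∧ sub (code σ) A = false := by
  simp only [inS, Bool.and_eq_true, Bool.not_eq_true', Nat.beq_eq] at h
  have e : code (Finset.univ.filter fun i : Fin 635 => m.testBit i = true) = m :=
    eq_of_tb fun k => by
      rw [tb_code]
      refine ⟨fun ⟨x, hx, a⟩ => a ▸ (Finset.mem_filter.1 hx).2, fun a => ?_⟩
      have : k < 635 := by
        by_contra b
        have c := congrArg (fun n => n.testBit (k - 635)) h.1.2
        simp only [tb_shr, Nat.zero_testBit] at c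
        rw [show 635 + (k - 635) = k by omega, a] at c
        cases c
      exact ⟨⟨k, this⟩, Finset.mem_filter.2 ⟨Finset.mem_univ _, a⟩, rfl⟩
  refine ⟨_, e, fun x hx y hy => ?_, by rw [e]; exact h.1.1⟩
  have := sub_spec (allBits_spec h.2 (Finset.mem_filter.1 hx).2) (Finset.mem_filter.1 hy).2
  rw [tb_row, Bool.and_eq_true] at this
  exact this.1

theorem card_eq {σ : Finset (Fin 635)} {l : List ℕ} (h1 : l.Pairwise (· < ·))
    (h2 : ∀ k, k ∈ l ↔ ∃ x ∈ σ, (x : ℕ) = k) : σ.card = l.length := by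
  rw [← Finset.card_map Fin.valEmbedding, ← List.toFinset_card_of_nodup (h1.imp ne_of_lt)]
  congr 1
  ext k
  simp [h2]

set_option exponentiation.threshold 1000 in
theorem code_lt (σ : Finset (Fin 635)) : code σ < Nat.succ full :=
  (Nat.ofBits_lt_two_pow _).trans_le (by decide +kernel)

theorem hasNu_flag {M N A V a₀ b₀ : ℕ} {L : List Row5} {I : ℕ → ℕ} {u v : R5}
    (hI : chkInd M A N = true) (hV : chkInd M V M = true) (hF : Flat (coc L) (flag M))
    (hM : morseChk M A V L I a₀ b₀ u = true) (huv : u * v = 1) :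
    HasNu (bd fun i j => R5.xp (coc L i j)) Finset.card (flag M \ flag N) (v * star v) := by
  simp only [morseChk, frc_eq, Bool.and_eq_true, Nat.blt_eq, decide_eq_true_eq] at hM
  obtain ⟨⟨⟨⟨hE, ha'⟩, hb'⟩, hab⟩, hφ0⟩ := hM
  have mS : ∀ σ, σ ∈ flag M \ flag N ↔ σ ∈ flag M ∧ sub (code σ) A = false := fun σ => by
    rw [mem_sdiff, ind_spec hI, ← Bool.not_eq_true, sub_code]; tauto
  obtain ⟨a₀, rfl, ha⟩ := inS_spec ha'
  obtain ⟨b₀, rfl, hb⟩ := inS_spec hb'
  rw [← mS] at ha hb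
  have e0 : ∅ ∈ flag N := fun x hx => absurd hx (Finset.notMem_empty _)
  set S := flag M \ flag N with hS
  let g : Fin 635 → Fin 635 → R5 := fun i j => R5.xp (coc L i j)
  let t : Finset (Fin 635) → ℕ := fun σ => tE (I (code σ)) (code σ)
  let pf : Finset (Fin 635) → Fin 635 := fun σ =>
    if h : pv (I (code σ)) < 635 then ⟨_, h⟩ else 0
  have hpf : ∀ σ (x : Fin 635), pv (I (code σ)) = x → pf σ = x := fun σ x h => by
    simp only [pf, h, x.2, dif_pos]
  let φ : Finset (Fin 635) → R5 := fun σ => if σ ∈ S ∧ σ.card = 3 then phE (I (code σ)) else 0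
  have key : ∀ σ ∈ S, ∃ l : List ℕ, l.Pairwise (· < ·) ∧ (∀ k, k ∈ l ↔ ∃ x ∈ σ, (x : ℕ) = k) ∧
      mchk M A L I (code a₀) (code b₀) (t a₀) (t b₀) u l (code σ) = true := fun σ hσ => by
    obtain ⟨l, q1, q2, q3⟩ := enum_spec hE (ρ := σ)
      (σ.eq_empty_or_nonempty.resolve_left fun e => hσ.2 (e ▸ e0)) hσ.1
      ((ind_spec hV σ).1 hσ.1).2 (by simp) .nil
    exact ⟨l, q1, by simpa using q2, by simpa using q3⟩
  simp only [mchk, frc_eq, Bool.or_eq_true, Bool.and_eq_true, Nat.beq_eq, Nat.blt_eq, Nat.ble_eq,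
    List.all_eq_true, Bool.not_eq_true', beq_false, decide_eq_true_eq] at key
  have ns : ∀ σ ∈ S, ¬ sub (code σ) A = true := fun σ hσ => by rw [((mS σ).1 hσ).2]; simp
  have kLo : ∀ a ∈ S, isLo (I (code a)) = true → pf a ∉ a ∧ insert (pf a) a ∈ S ∧
      t (insert (pf a) a) = t a ∧ t a ≠ t a₀ ∧ t a ≠ t b₀ ∧
      (t a < t a₀ → a.card = 2 → phE (I (code (insert (pf a) a))) = 0) := fun a ha hl => by
    obtain ⟨l, q1, q2, q3⟩ := key a ha
    obtain ⟨⟨⟨⟨⟨⟨⟨b1, b2⟩, b3⟩, b4⟩, b5⟩, b6⟩, b7⟩, b8⟩ :=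
      (q3.resolve_left (ns a ha)).1.1.2.resolve_left (by simp [hl])
    have e1 : pv (I (code a)) = pf a := by
      rw [hpf a ⟨pv (I (code a)), by omega⟩ rfl]
    rw [e1] at b2 b3 b4 b5 b8
    have n1 : pf a ∉ a := fun c => by simp [(tb_code' a _).2 c] at b2
    rw [← code_insert n1] at b5 b8
    refine ⟨n1, ⟨ins_mem ha.1 b3 (fun y hy => (b4 y ((q2 y).2 ⟨y, hy, rfl⟩)).2)
      fun y hy => (b4 y ((q2 y).2 ⟨y, hy, rfl⟩)).1,
      fun c => ha.2 (flag_lower N (Finset.subset_insert _ _) c)⟩, b5, b6, b7, fun c d => ?_⟩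
    rw [card_eq q1 q2] at d
    exact b8.resolve_left (by push Not; exact ⟨c, d⟩)
  have g0 : ∀ σ ∈ flag M, ∀ i ∈ σ, g i i = 1 := fun σ hσ i hi => by
    have := hF σ hσ i hi i hi i hi
    simp only [g, show coc L i i = 0 by simpa using this, R5.xp_zero]
  have k4 : ∀ y ∈ S, (y = b₀ → y.card = 4 ∧ ∑ x, φ x * bd g x y = u) ∧
      (t y < t b₀ → ∑ x, φ x * bd g x y = 0) := fun y hy => by
    obtain ⟨l, q1, q2, q3⟩ := key y hy
    have b1 := (q3.resolve_left (ns y hy)).2
    have cd := card_eq q1 q2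
    unfold c4 at b1
    split at b1
    · rename_i a b c d
      obtain ⟨a, ha, rfl⟩ := (q2 a).1 (by simp)
      obtain ⟨b, hb, rfl⟩ := (q2 b).1 (by simp)
      obtain ⟨c, hc, rfl⟩ := (q2 c).1 (by simp)
      obtain ⟨d, hd, rfl⟩ := (q2 d).1 (by simp)
      simp only [List.pairwise_cons, List.mem_cons, forall_eq_or_imp, Fin.val_fin_lt] at q1
      have e1 : y = {a, b, c, d} := by
        ext x
        have := q2 x
        simp only [List.mem_cons, Fin.val_inj, List.not_mem_nil, or_false, exists_eq_right] at this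
        simp [← this]
      have e2 : ∀ i ∈ y, φ (y.erase i) = phM A I (flip (code y) i) := fun i hi => by
        have c1 : (y.erase i).card = 3 := by rw [Finset.card_erase_of_mem hi, cd]; rfl
        have c2 : y.erase i ∈ flag M := flag_lower M (Finset.erase_subset _ _) hy.1
        simp only [φ, mS, c1, c2, true_and, and_true, phM, ← code_erase hi]
        cases sub (code (y.erase i)) A <;> simp
      have e3 : ∑ x, φ x * bd g x y = phS A L I (code y) a b c d := by
        rw [sum4 g φ q1.1.1 q1.2.1.1 q1.2.2.1.1 e1 (g0 y hy.1 a ha), e2 a ha, e2 b hb, e2 c hc,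
          e2 d hd]
        rfl
      simp only [Bool.or_eq_true, Bool.and_eq_true, Nat.ble_eq, Bool.not_eq_true', beq_false,
        decide_eq_true_eq, ← e3] at b1
      exact ⟨fun e => ⟨cd, b1.1.resolve_left (by simp [e])⟩, fun e => b1.2.resolve_left e.not_ge⟩
    · rename_i hn
      refine ⟨fun e => by simp [e] at b1, fun _ => ?_⟩
      rw [NerveAAux.sum_bd]
      refine Finset.sum_eq_zero fun i hi => ?_
      have c1 : (y.erase i).card ≠ 3 := fun e => by
        rw [Finset.card_erase_of_mem hi, cd] at e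
        rcases l with _ | ⟨a, _ | ⟨b, _ | ⟨c, _ | ⟨d, _ | ⟨e', l⟩⟩⟩⟩⟩ <;> simp at e
        exact hn _ _ _ _ rfl
      simp [φ, c1]
  have ca : a₀.card = 3 := by
    obtain ⟨l, q1, q2, q3⟩ := key a₀ ha
    rw [card_eq q1 q2]
    exact (q3.resolve_left (ns a₀ ha)).1.2.resolve_left (by simp)
  have cb := (k4 b₀ hb).1 rfl
  refine hasNu_morse (isCx_bd (flag_lower N) (flag_lower M)
      (fun σ hσ i hi j hj k hk => by rw [← R5.xp_add, hF σ hσ.1 i hi j hj k hk]) (Or.inl e0))
    a₀ b₀ {σ | σ ∈ S ∧ isLo (I (code σ)) = true} (fun σ => insert (pf σ) σ) t φ u v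
    (fun x => ⟨fun hx => ?_, ?_⟩) (by rw [ca, cb.1]) (by rw [cb.1]; decide) (fun a ha => ?_)
    (fun a ha a' ha' e => code_inj ?_) (fun x hx y hy hd => ?_) hab (by simp [φ, ha, ca, hφ0])
    (fun x hx => ?_) (fun a ha c => ?_) cb.2 huv (Or.inl fun a ha c => ?_)
  · obtain ⟨l, q1, q2, q3⟩ := key x hx
    rcases (q3.resolve_left (ns x hx)).1.1.1.1 with ((b | b) | b) | ⟨⟨⟨b1, b2⟩, b3⟩, b4⟩
    · exact Or.inl (code_inj b)
    · exact Or.inr (Or.inl (code_inj b))
    · exact Or.inr (Or.inr (Or.inl ⟨hx, b⟩))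
    · obtain ⟨p, hp, e⟩ := (tb_code _ _).1 b1
      rw [← e, ← code_erase hp] at b2 b3 b4
      refine Or.inr (Or.inr (Or.inr ⟨x.erase p,
        ⟨(mS _).2 ⟨flag_lower M (Finset.erase_subset _ _) hx.1, b2⟩, b3⟩, ?_⟩))
      rw [hpf _ p b4, Finset.insert_erase hp]
  · rintro (rfl | rfl | a | ⟨a, ha, rfl⟩)
    exacts [ha, hb, a.1, (kLo a ha.1 ha.2).2.1]
  · obtain ⟨b1, -, b2, b3, b4, -⟩ := kLo a ha.1 ha.2
    exact ⟨bd_unit (fun i j => R5.xp_unit _) b1, b2, Finset.card_insert_of_notMem b1, b3, b4⟩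
  · have e1 := congrArg (· % Nat.succ full) e
    simp only [t, tE, ha.2, ha'.2, cond_true, Nat.add_eq, Nat.mul_eq, Nat.mul_add_mod_self_right,
      Nat.mod_eq_of_lt (code_lt _)] at e1
    exact e1
  · obtain ⟨i, hi, rfl⟩ := NerveAAux.exists_of_bd hd
    obtain ⟨l, q1, q2, q3⟩ := key y hy
    have b := (q3.resolve_left (ns y hy)).1.1.1.2 i ((q2 i).2 ⟨i, hi, rfl⟩)
    rw [← code_erase hi] at b
    refine (b.resolve_left (ns _ hx)).imp id fun c => ⟨⟨hx, c.1⟩, ?_⟩
    rw [hpf _ i c.2, Finset.insert_erase hi]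
  · by_contra c
    exact hx (if_neg (by rwa [ca] at c))
  · obtain ⟨-, b1, b2, -⟩ := kLo a ha.1 ha.2
    exact (k4 _ b1).2 (b2.trans_lt c)
  · obtain ⟨b1, -, -, -, -, b2⟩ := kLo a ha.1 ha.2
    simp only [φ]
    split_ifs with d
    · refine b2 c ?_
      have := Finset.card_insert_of_notMem b1
      omega
    · rfl

end SpunKnot.Cert
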