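import Pool.Agent.Work.MP_e1e788_gt.GridA

/-! Slice data: smoothness, values, regularity of the unspun families. -/

open Set Filter Topology

noncomputable section
namespace SpunKnot

theorem upS_smooth : ContDiff ℝ (⊤ : ℕ∞) upS := by
  unfold upS
  exact Real.smoothTransition.contDiff.comp ((contDiff_id.add contDiff_const).div_const _)

theorem upS_mono : Monotone upS := by
  intro a b hab
  apply Real.smoothTransition.monotone
  have := eta_pos
  gcongr

theorem upS_range (t : ℝ) : 0 ≤ upS t ∧ upS t ≤ 1 :=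
  ⟨Real.smoothTransition.nonneg _, Real.smoothTransition.le_one _⟩

theorem upS_zero {t : ℝ} (h : t ≤ -3 * eta) : upS t = 0 := by
  have := eta_pos
  exact Real.smoothTransition.zero_of_nonpos
    (div_nonpos_of_nonpos_of_nonneg (by linarith) (by linarith only [this]))

theorem upS_one {t : ℝ} (h : -eta / 2 ≤ t) : upS t = 1 := by
  have := eta_pos
  exact Real.smoothTransition.one_of_one_le ((le_div_iff₀ (by linarith only [this])).2 (by linarith only [h]))

theorem upS_deriv_pos {t : ℝ} (h0 : -3 * eta < t) (h1 : t < -eta / 2) : 0 < deriv upS t := by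
  have he := eta_pos
  have a : HasDerivAt (fun x : ℝ => (x + 3 * eta) / (5 * eta / 2)) (1 / (5 * eta / 2)) t :=
    ((hasDerivAt_id t).add_const _).div_const _
  have b : HasDerivAt Real.smoothTransition
      (deriv Real.smoothTransition ((t + 3 * eta) / (5 * eta / 2)))
      ((t + 3 * eta) / (5 * eta / 2)) :=
    ((Real.smoothTransition.contDiff (n := 1)).differentiable (by simp) _).hasDerivAt
  have c : HasDerivAt upS _ t := b.comp t a
  rw [c.deriv]
  refine mul_pos (smoothTransition_deriv_pos (div_pos (by linarith only [h0]) (by linarith only [he])) ?_)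
    (by positivity)
  rw [div_lt_one (by linarith only [he])]
  linarith only [h1]

theorem muS_smooth : ContDiff ℝ (⊤ : ℕ∞) muS := by
  have := upS_smooth
  unfold muS
  fun_prop

namespace SDAAux

theorem mu1 {τ : ℝ} (h : τ ≤ 1 + eta / 2) : muS τ = upS (τ - 1) / 4 := by
  have := eta_pos
  have := eta_le
  rw [muS, upS_one (t := 1 - τ) (by linarith only [h]), upS_zero (t := τ - 2) (by linarith),
    upS_one (t := 2 - τ) (by linarith)]
  ring

theorem mu2 {τ : ℝ} (h : 1 - eta / 2 ≤ τ) (h' : τ ≤ 2 - 3 * eta) : muS τ = upS (1 - τ) / 4 := by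
  have := eta_pos
  rw [muS, upS_one (t := τ - 1) (by linarith only [h]), upS_zero (t := τ - 2) (by linarith),
    upS_one (t := 2 - τ) (by linarith only [h', this])]
  ring

theorem mu3 {τ : ℝ} (h : 1 + 3 * eta ≤ τ) (h' : τ ≤ 2 + eta / 2) : muS τ = upS (τ - 2) / 4 := by
  have := eta_pos
  rw [muS, upS_one (t := τ - 1) (by linarith only [h, this]), upS_zero (t := 1 - τ) (by linarith),
    upS_one (t := 2 - τ) (by linarith only [h'])]
  ring

theorem mu4 {τ : ℝ} (h : 2 - eta / 2 ≤ τ) : muS τ = upS (2 - τ) / 4 := by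
  have := eta_pos
  have := eta_le
  rw [muS, upS_one (t := τ - 1) (by linarith), upS_zero (t := 1 - τ) (by linarith),
    upS_one (t := τ - 2) (by linarith only [h])]
  ring

theorem dmu_up {τ c : ℝ} (e : ∀ᶠ t in 𝓝 τ, muS t = upS (t - c) / 4) (h0 : -3 * eta < τ - c)
    (h1 : τ - c < -eta / 2) : 0 < deriv muS τ := by
  rw [Filter.EventuallyEq.deriv_eq e, deriv_div_const, deriv_comp_sub_const]
  exact div_pos (upS_deriv_pos h0 h1) (by norm_num)

theorem dmu_down {τ c : ℝ} (e : ∀ᶠ t in 𝓝 τ, muS t = upS (c - t) / 4) (h0 : -3 * eta < c - τ)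
    (h1 : c - τ < -eta / 2) : deriv muS τ < 0 := by
  rw [Filter.EventuallyEq.deriv_eq e, deriv_div_const, deriv_comp_const_sub]
  exact div_neg_of_neg_of_pos (neg_neg_of_pos (upS_deriv_pos h0 h1)) (by norm_num)

theorem dnonpos {f : ℝ → ℝ} {U : Set ℝ} {τ : ℝ} (h : AntitoneOn f U) (hU : U ∈ 𝓝 τ) :
    deriv f τ ≤ 0 := by
  rw [← derivWithin_of_mem_nhds hU]
  exact h.derivWithin_nonpos

theorem dnonneg {f : ℝ → ℝ} {U : Set ℝ} {τ : ℝ} (h : MonotoneOn f U) (hU : U ∈ 𝓝 τ) :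
    0 ≤ deriv f τ := by
  rw [← derivWithin_of_mem_nhds hU]
  exact h.derivWithin_nonneg

end SDAAux

open SDAAux

theorem muS_range (τ : ℝ) : 0 ≤ muS τ ∧ muS τ ≤ 1 / 4 := by
  have := eta_pos
  have := eta_le
  have a : ∀ t, 0 ≤ upS t / 4 ∧ upS t / 4 ≤ 1 / 4 := fun t =>
    ⟨by linarith only [(upS_range t).1], by linarith only [(upS_range t).2]⟩
  rcases le_total τ 1 with h | h
  · rw [mu1 (by linarith)]; exact a _
  rcases le_total τ (3 / 2) with h' | h'
  · rw [mu2 (by linarith) (by linarith)]; exact a _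
  rcases le_total τ 2 with h'' | h''
  · rw [mu3 (by linarith) (by linarith)]; exact a _
  · rw [mu4 (by linarith)]; exact a _

theorem muS_first {τ : ℝ} (h : τ ≤ 1 + eta / 2) : muS τ = upS (τ - 1) / 4 := mu1 h

theorem sigS_smooth : ContDiff ℝ (⊤ : ℕ∞) sigS := by
  unfold sigS
  exact (Real.smoothTransition.contDiff.comp ((contDiff_id.sub contDiff_const).div_const _)).mul
    (Real.smoothTransition.contDiff.comp ((contDiff_const.sub contDiff_id).div_const _))

theorem sigS_range (τ : ℝ) : 0 ≤ sigS τ ∧ sigS τ ≤ 1 :=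
  ⟨mul_nonneg (Real.smoothTransition.nonneg _) (Real.smoothTransition.nonneg _),
    mul_le_one₀ (Real.smoothTransition.le_one _) (Real.smoothTransition.nonneg _)
      (Real.smoothTransition.le_one _)⟩

theorem sigS_one {τ : ℝ} (h0 : 1 - 3 * eta ≤ τ) (h1 : τ ≤ 1 - eta / 2) : sigS τ = 1 := by
  have := eta_pos
  rw [sigS, Real.smoothTransition.one_of_one_le ((le_div_iff₀ this).2 (by linarith only [h0])),
    Real.smoothTransition.one_of_one_le ((le_div_iff₀ (by linarith)).2 (by linarith only [h1])), one_mul]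

theorem sigS_zero {τ : ℝ} (h : τ ≤ 1 - 4 * eta ∨ 1 ≤ τ) : sigS τ = 0 := by
  have := eta_pos
  rw [sigS, mul_eq_zero]
  exact h.imp (fun h => Real.smoothTransition.zero_of_nonpos
    (div_nonpos_of_nonpos_of_nonneg (by linarith) this.le)) fun h =>
    Real.smoothTransition.zero_of_nonpos (div_nonpos_of_nonpos_of_nonneg (by linarith) (by linarith))

variable {S : Type*} [NormedAddCommGroup S] [NormedSpace ℝ S]

theorem IsMPath.ends {H : ℝ × S → ℝ} {p q : S → ℝ} (h : IsMPath H p q) :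
    ContDiff ℝ (⊤ : ℕ∞) p ∧ ContDiff ℝ (⊤ : ℕ∞) q ∧
      (∀ s y, q y ≤ H (s, y) ∧ H (s, y) ≤ p y) ∧ (∀ y, 0 ≤ q y ∧ p y ≤ 1) ∧
      (∀ y, 0 < p y → p y < 1 → fderiv ℝ p y ≠ 0) ∧
      ∀ y, 0 < q y → q y < 1 → fderiv ℝ q y ≠ 0 := by
  obtain rfl : (fun y => H (0, y)) = p := funext (h.start 0 le_rfl)
  obtain rfl : (fun y => H (1, y)) = q := funext (h.stop 1 le_rfl)
  refine ⟨h.smooth.comp (contDiff_prodMk_right _), h.smooth.comp (contDiff_prodMk_right _),
    fun s y => ⟨?_, ?_⟩, fun y => ⟨(h.range _).1, (h.range _).2⟩, h.reg 0, h.reg 1⟩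
  · exact (h.stop (max s 1) (le_max_right _ _) y).ge.trans (h.anti y (le_max_left _ _))
  · exact (h.anti y (min_le_left s 0)).trans (h.start (min s 0) (min_le_right _ _) y).le

namespace SDAAux

theorem sl1 {f : ℝ × S → ℝ} (hf : Differentiable ℝ f) (τ : ℝ) (y : S) :
    HasDerivAt (fun t => f (t, y)) (fderiv ℝ f (τ, y) (1, 0)) τ :=
  (hf (τ, y)).hasFDerivAt.comp_hasDerivAt τ ((hasDerivAt_id τ).prodMk (hasDerivAt_const τ y))

theorem sl2 {f : ℝ × S → ℝ} (hf : Differentiable ℝ f) (τ : ℝ) (y e : S) :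
    fderiv ℝ f (τ, y) (0, e) = fderiv ℝ (fun y' => f (τ, y')) y e := by
  have : HasFDerivAt (fun y' => f (τ, y')) _ y :=
    (hf (τ, y)).hasFDerivAt.comp y (hasFDerivAt_prodMk_right τ y)
  rw [this.fderiv]
  simp

variable (D : SD S) {τ : ℝ}

theorem le30 (y : S) : D.p3 y ≤ D.p0 y := (D.le32 y).trans ((D.le21 y).trans (D.le10 y))

theorem le3N (y : S) : D.p3 y ≤ D.pN y :=
  (D.h2.ends.2.2.1 0 y).1.trans (D.h2.ends.2.2.1 0 y).2

theorem leCN (y : S) : D.pC y ≤ D.pN y :=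
  (D.h3.ends.2.2.1 0 y).1.trans (D.h3.ends.2.2.1 0 y).2

theorem leC0 (y : S) : D.pC y ≤ D.p0 y :=
  (D.h4.ends.2.2.1 0 y).1.trans (D.h4.ends.2.2.1 0 y).2

theorem h2a (h : τ ≤ 1 + eta) (y : S) : D.H2 ((1 + 2 * eta - τ) / eta, y) = D.p3 y :=
  D.h2.stop _ ((le_div_iff₀ eta_pos).2 (by linarith)) y

theorem h2b (h : 1 + 2 * eta ≤ τ) (y : S) : D.H2 ((1 + 2 * eta - τ) / eta, y) = D.pN y :=
  D.h2.start _ (div_nonpos_of_nonpos_of_nonneg (by linarith only [h]) eta_pos.le) y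

theorem h3a (h : τ ≤ 2 - 2 * eta) (y : S) : D.H3 ((τ - (2 - 2 * eta)) / eta, y) = D.pN y :=
  D.h3.start _ (div_nonpos_of_nonpos_of_nonneg (by linarith) eta_pos.le) y

theorem h3b (h : 2 - eta ≤ τ) (y : S) : D.H3 ((τ - (2 - 2 * eta)) / eta, y) = D.pC y :=
  D.h3.stop _ ((le_div_iff₀ eta_pos).2 (by linarith)) y

theorem h4a (h : τ ≤ 2 + eta) (y : S) : D.H4 ((2 + 2 * eta - τ) / eta, y) = D.pC y :=
  D.h4.stop _ ((le_div_iff₀ eta_pos).2 (by linarith)) y

theorem h4b (h : 2 + 2 * eta ≤ τ) (y : S) : D.H4 ((2 + 2 * eta - τ) / eta, y) = D.p0 y :=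
  D.h4.start _ (div_nonpos_of_nonpos_of_nonneg (by linarith) eta_pos.le) y

theorem s0 {t : ℝ} (h : t ≤ eta) : stp t = 0 := stp_eq_zero_iff.2 h

theorem s1 {t : ℝ} (h : 2 * eta ≤ t) : stp t = 1 := stp_eq_one_iff.2 h

theorem can1 (h : τ ≤ 1 + eta) (y : S) :
    D.hcan (τ, y) = D.p0 y + (1 - stp (1 - τ)) * (D.p3 y - D.p0 y) := by
  have := eta_pos
  have := eta_le
  simp only [SD.hcan]
  rw [s0 (t := τ - 1) (by linarith only [h]), s1 (t := 2 - τ) (by linarith), s0 (t := τ - 2) (by linarith)]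
  ring

theorem can2 (h : 1 - eta ≤ τ) (h' : τ ≤ 2 - 2 * eta) (y : S) :
    D.hcan (τ, y) = D.p3 y + stp (τ - 1) * (D.pN y - D.p3 y) := by
  have := eta_pos
  simp only [SD.hcan]
  rw [s0 (t := 1 - τ) (by linarith), s1 (t := 2 - τ) (by linarith), s0 (t := τ - 2) (by linarith)]
  ring

theorem can3 (h : 1 + 2 * eta ≤ τ) (h' : τ ≤ 2 + eta) (y : S) :
    D.hcan (τ, y) = D.pN y + (1 - stp (2 - τ)) * (D.pC y - D.pN y) := by
  have := eta_pos
  simp only [SD.hcan]
  rw [s0 (t := 1 - τ) (by linarith), s1 (t := τ - 1) (by linarith), s0 (t := τ - 2) (by linarith)]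
  ring

theorem can4 (h : 2 - eta ≤ τ) (y : S) :
    D.hcan (τ, y) = D.pC y + stp (τ - 2) * (D.p0 y - D.pC y) := by
  have := eta_pos
  have := eta_le
  simp only [SD.hcan]
  rw [s0 (t := 1 - τ) (by linarith), s1 (t := τ - 1) (by linarith), s0 (t := 2 - τ) (by linarith)]
  ring

theorem k1 (h : τ ≤ 1 + eta) (y : S) :
    D.hK (τ, y) = D.p0 y + (1 - stp (1 - τ)) * (D.p3 y - D.p0 y) := by
  have := eta_pos
  have := eta_le
  simp only [SD.hK]
  rw [h2a D h, h3a D (by linarith), h4a D (by linarith)]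
  ring

theorem k2 (h : 1 - eta ≤ τ) (h' : τ ≤ 2 - 2 * eta) (y : S) :
    D.hK (τ, y) = D.H2 ((1 + 2 * eta - τ) / eta, y) := by
  have := eta_pos
  simp only [SD.hK]
  rw [s0 (t := 1 - τ) (by linarith), h3a D h', h4a D (by linarith)]
  ring

theorem k3 (h : 1 + 2 * eta ≤ τ) (h' : τ ≤ 2 + eta) (y : S) :
    D.hK (τ, y) = D.H3 ((τ - (2 - 2 * eta)) / eta, y) := by
  have := eta_pos
  simp only [SD.hK]
  rw [s0 (t := 1 - τ) (by linarith), h2b D h, h4a D h']
  ring

theorem k4 (h : 2 - eta ≤ τ) (y : S) : D.hK (τ, y) = D.H4 ((2 + 2 * eta - τ) / eta, y) := by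
  have := eta_pos
  have := eta_le
  simp only [SD.hK]
  rw [s0 (t := 1 - τ) (by linarith), h2b D (by linarith), h3b D h]
  ring

theorem flat {y : S} (h3 : D.p3 y = D.p0 y) (hN : D.pN y = D.p0 y) (hC : D.pC y = D.p0 y) (τ : ℝ) :
    D.hcan (τ, y) = D.p0 y ∧ D.hK (τ, y) = D.p0 y := by
  have a := D.h2.ends.2.2.1 ((1 + 2 * eta - τ) / eta) y
  have b := D.h3.ends.2.2.1 ((τ - (2 - 2 * eta)) / eta) y
  have c := D.h4.ends.2.2.1 ((2 + 2 * eta - τ) / eta) y
  simp only [SD.hcan, SD.hK, h3, hN, hC, sub_self, mul_zero, add_zero, true_and] at a b c ⊢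
  linarith only [a, b, c, a.1, a.2, b.1, b.2, c.1, c.2]

theorem same (h : τ ≤ 1 + eta ∨ (1 + 2 * eta ≤ τ ∧ τ ≤ 2 - 2 * eta) ∨
    (2 - eta ≤ τ ∧ τ ≤ 2 + eta) ∨ 2 + 2 * eta ≤ τ) (y : S) : D.hcan (τ, y) = D.hK (τ, y) := by
  have := eta_pos
  rcases h with h | h | h | h
  · rw [can1 D h, k1 D h]
  · rw [can2 D (by linarith [h.1]) h.2, k2 D (by linarith [h.1]) h.2, h2b D h.1,
      s1 (by linarith [h.1])]
    ring
  · rw [can4 D h.1, k4 D h.1, h4a D h.2, s0 (by linarith [h.2])]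
    ring
  · rw [can4 D (by linarith), k4 D (by linarith), h4b D h, s1 (by linarith)]
    ring

theorem outer (h : τ ≤ 1 - 2 * eta ∨ 2 + 2 * eta ≤ τ) (y : S) : D.hK (τ, y) = D.p0 y := by
  have := eta_pos
  rcases h with h | h
  · rw [k1 D (by linarith), s1 (by linarith)]
    ring
  · rw [k4 D (by linarith), h4b D h]

theorem slice_reg (h : τ ≤ 1 - 2 * eta ∨ 1 - eta ≤ τ) {y : S} (h0 : 0 < D.hK (τ, y))
    (h1 : D.hK (τ, y) < 1) : fderiv ℝ (fun y' => D.hK (τ, y')) y ≠ 0 := by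
  have := eta_pos
  have := eta_le
  rcases h with h | h
  · simp only [outer D (.inl h)] at h0 h1 ⊢
    exact D.hQ.ends.2.2.2.2.1 y h0 h1
  rcases le_total τ (3 / 2) with h' | h'
  · simp only [k2 D h (by linarith)] at h0 h1 ⊢
    exact D.h2.reg _ y h0 h1
  rcases le_total τ 2 with h'' | h''
  · simp only [k3 D (τ := τ) (by linarith) (by linarith)] at h0 h1 ⊢
    exact D.h3.reg _ y h0 h1
  · simp only [k4 D (τ := τ) (by linarith)] at h0 h1 ⊢
    exact D.h4.reg _ y h0 h1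

theorem d1 (h : τ < 1 + eta) (y : S) :
    deriv (fun t => D.hcan (t, y)) τ ≤ 0 ∧ deriv (fun t => D.hK (t, y)) τ ≤ 0 := by
  have a : ∀ a b : ℝ, a ≤ b → D.p0 y + (1 - stp (1 - b)) * (D.p3 y - D.p0 y) ≤
      D.p0 y + (1 - stp (1 - a)) * (D.p3 y - D.p0 y) := fun a b e => by
    nlinarith only [e, le30 D y, stp_mono (show 1 - b ≤ 1 - a by linarith)]
  refine ⟨dnonpos (fun u hu v hv e => ?_) (Iic_mem_nhds h),
    dnonpos (fun u hu v hv e => ?_) (Iic_mem_nhds h)⟩
  · simp only [can1 D hu, can1 D hv, a u v e]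
  · simp only [k1 D hu, k1 D hv, a u v e]

theorem d2 (h : 1 - eta < τ) (h' : τ < 2 - 2 * eta) (y : S) :
    0 ≤ deriv (fun t => D.hcan (t, y)) τ ∧ 0 ≤ deriv (fun t => D.hK (t, y)) τ := by
  have := eta_pos
  refine ⟨dnonneg (fun u hu v hv e => ?_) (Icc_mem_nhds h h'),
    dnonneg (fun u hu v hv e => ?_) (Icc_mem_nhds h h')⟩
  · simp only [can2 D hu.1 hu.2, can2 D hv.1 hv.2]
    nlinarith only [h, h', this, e, le3N D y, stp_mono (show u - 1 ≤ v - 1 by linarith)]
  · simp only [k2 D hu.1 hu.2, k2 D hv.1 hv.2]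
    exact D.h2.anti y (by gcongr)

theorem d3 (h : 1 + 2 * eta < τ) (h' : τ < 2 + eta) (y : S) :
    deriv (fun t => D.hcan (t, y)) τ ≤ 0 ∧ deriv (fun t => D.hK (t, y)) τ ≤ 0 := by
  have := eta_pos
  refine ⟨dnonpos (fun u hu v hv e => ?_) (Icc_mem_nhds h h'),
    dnonpos (fun u hu v hv e => ?_) (Icc_mem_nhds h h')⟩
  · simp only [can3 D hu.1 hu.2, can3 D hv.1 hv.2]
    nlinarith only [h, h', this, e, leCN D y, stp_mono (show 2 - v ≤ 2 - u by linarith)]
  · simp only [k3 D hu.1 hu.2, k3 D hv.1 hv.2]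
    exact D.h3.anti y (by gcongr)

theorem d4 (h : 2 - eta < τ) (y : S) :
    0 ≤ deriv (fun t => D.hcan (t, y)) τ ∧ 0 ≤ deriv (fun t => D.hK (t, y)) τ := by
  have := eta_pos
  refine ⟨dnonneg (fun u hu v hv e => ?_) (Ici_mem_nhds h),
    dnonneg (fun u hu v hv e => ?_) (Ici_mem_nhds h)⟩
  · simp only [can4 D hu, can4 D hv]
    nlinarith only [e, leC0 D y, stp_mono (show u - 2 ≤ v - 2 by linarith)]
  · simp only [k4 D hu, k4 D hv]
    exact D.h4.anti y (by gcongr)

theorem mix_lt {a b t : ℝ} (ha : a < 1) (hb : b ≤ 1) (h0 : 0 ≤ t) (h1 : t ≤ 1)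
    (h : t = 1 → b < 1) : a + t * (b - a) < 1 := by
  rcases h1.eq_or_lt with e | e
  · rw [e]; linarith [h e]
  · linarith only [ha, e, hb, h0, mul_pos_of_neg_of_neg (Mathlib.Tactic.Linarith.sub_neg_of_lt ha) (Mathlib.Tactic.Linarith.sub_neg_of_lt e), mul_nonneg_of_nonpos_of_nonpos (Mathlib.Tactic.Linarith.sub_nonpos_of_le hb) (Mathlib.Tactic.Linarith.sub_nonpos_of_le h0)]

end SDAAux

namespace SD
variable (D : SD S)

theorem hcan_smooth : ContDiff ℝ (⊤ : ℕ∞) D.hcan := by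
  have := stp_smooth
  have := D.hQ.ends.1
  have := D.hR.ends.2.1
  have := D.h2.ends.1
  have := D.h3.ends.2.1
  unfold hcan
  fun_prop

theorem hK_smooth : ContDiff ℝ (⊤ : ℕ∞) D.hK := by
  have := stp_smooth
  have := D.hQ.ends.1
  have := D.hR.ends.2.1
  have := D.h2.ends.1
  have := D.h3.ends.2.1
  have := D.h2.smooth
  have := D.h3.smooth
  have := D.h4.smooth
  unfold hK
  fun_prop

theorem gK_smooth : ContDiff ℝ (⊤ : ℕ∞) D.gK := by
  have := D.hK_smooth
  have := D.κ_smooth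
  have := muS_smooth
  unfold gK
  fun_prop

theorem gI_smooth : ContDiff ℝ (⊤ : ℕ∞) fun z : ℝ × ℝ × S => D.gI z.1 z.2 := by
  have := D.hcan_smooth
  have := D.hK_smooth
  have := D.κ_smooth
  have := muS_smooth
  unfold gI
  fun_prop

theorem kp_smooth : ContDiff ℝ (⊤ : ℕ∞) D.kp := by
  unfold kp
  exact Real.smoothTransition.contDiff.comp ((contDiff_const.mul D.κ_smooth).sub contDiff_const)

theorem tauF_smooth : ContDiff ℝ (⊤ : ℕ∞) D.tauF := by
  unfold tauF
  exact contDiff_const.add (D.kp_smooth.mul contDiff_const)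

theorem gI_zero (q : ℝ × S) : D.gI 0 q = D.hcan q - 1 / 2 := by simp [gI]

theorem gI_one (q : ℝ × S) : D.gI 1 q = D.gK q := by simp [gI, gK]

theorem isOpen_off : IsOpen {q | D.Off q} :=
  (isOpen_lt continuous_fst continuous_const).union
    ((isOpen_lt continuous_const continuous_fst).union
      ((isClosed_tsupport D.κ).isOpen_compl.preimage continuous_snd))

/-- where `κ < 1` all the functions agree near the point -/
theorem eq_of_lt {y : S} (h : D.κ y < 1) :
    ∀ᶠ y' in 𝓝 y, D.p3 y' = D.p0 y' ∧ D.pN y' = D.p0 y' ∧ D.pC y' = D.p0 y' := by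
  rcases D.tri y with a | ⟨a, -⟩ | a
  · exact absurd a.self_of_nhds h.ne
  · exact a.mono fun y' b =>
      ⟨b.2.1.trans b.1.symm, b.2.2.1.trans b.1.symm, b.2.2.2.trans b.1.symm⟩
  · exact a.mono fun y' b => b.2

theorem off {q : ℝ × S} (h : D.Off q) (s : ℝ) :
    D.hcan q = D.p0 q.2 ∧ D.gK q = D.p0 q.2 - 1 / 2 ∧ D.gI s q = D.p0 q.2 - 1 / 2 := by
  obtain ⟨τ, y⟩ := q
  have := eta_pos
  have key : D.hcan (τ, y) = D.p0 y ∧ D.hK (τ, y) = D.p0 y ∧ D.κ y * muS τ = 0 := by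
    rcases h with h | h | h
    · have a := outer D (τ := τ) (.inl (by linarith)) y
      refine ⟨(same D (.inl (by linarith)) y).trans a, a, ?_⟩
      rw [mu1 (by linarith only [this, h]), upS_zero (by linarith)]
      simp
    · have a := outer D (τ := τ) (.inr (by linarith)) y
      refine ⟨(same D (.inr (.inr (.inr (by linarith)))) y).trans a, a, ?_⟩
      rw [mu4 (by linarith only [this, h]), upS_zero (by linarith)]
      simp
    · have a : D.κ y = 0 := image_eq_zero_of_notMem_tsupport h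
      obtain ⟨b, c, d⟩ := (D.eq_of_lt (y := y) (by rw [a]; exact one_pos)).self_of_nhds
      exact ⟨(flat D b c d τ).1, (flat D b c d τ).2, by rw [a, zero_mul]⟩
  refine ⟨key.1, ?_, ?_⟩
  · simp only [gK, key.2.1, key.2.2, sub_zero]
  · simp only [gI, key.1, key.2.1, key.2.2]
    ring

theorem first {τ : ℝ} (h : τ ≤ 1 + eta / 2) (y : S) :
    D.hcan (τ, y) = D.p0 y + (1 - stp (1 - τ)) * (D.p3 y - D.p0 y) ∧
      D.gK (τ, y) = D.p0 y + (1 - stp (1 - τ)) * (D.p3 y - D.p0 y) - 1 / 2 -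
        D.κ y * (upS (τ - 1) / 4) := by
  have := eta_pos
  exact ⟨can1 D (by linarith only [h, this]) y, by rw [gK, k1 D (by linarith), mu1 h]⟩

theorem hcan_lt {q : ℝ × S} (h : D.gK q = 0) : D.hcan q < 1 := by
  obtain ⟨τ, y⟩ := q
  have := eta_pos
  have := eta_le
  have a : D.hK (τ, y) < 1 := by
    simp only [gK] at h
    nlinarith [muS_range τ, D.κ_range y]
  have hN := (D.h2.ends.2.2.2.1 y).2
  rcases le_total τ 1 with b | b
  · rwa [same D (.inl (by linarith))]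
  rcases le_total τ (3 / 2) with c | c
  · rw [k2 D (by linarith) (by linarith)] at a
    rw [can2 D (by linarith) (by linarith)]
    refine mix_lt ((D.h2.ends.2.2.1 _ y).1.trans_lt a) hN (stp_range _).1 (stp_range _).2
      fun e => ?_
    rwa [h2b D (by linarith only [e, stp_eq_one_iff.1 e])] at a
  rcases le_total τ 2 with d | d
  · rw [k3 D (by linarith) (by linarith)] at a
    rw [can3 D (by linarith) (by linarith)]
    have := mix_lt ((D.h3.ends.2.2.1 _ y).1.trans_lt a) hN (stp_range (2 - τ)).1 (stp_range _).2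
      fun e => by rwa [h3a D (by linarith only [e, stp_eq_one_iff.1 e])] at a
    linarith only [this]
  · rw [k4 D (by linarith)] at a
    rw [can4 D (by linarith)]
    refine mix_lt ((D.h4.ends.2.2.1 _ y).1.trans_lt a) (D.h4.ends.2.2.2.1 y).2 (stp_range _).1
      (stp_range _).2 fun e => ?_
    rwa [h4b D (by linarith only [e, stp_eq_one_iff.1 e])] at a

end SD

namespace SDAAux
variable (D : SD S)

theorem gI_diff (s : ℝ) : Differentiable ℝ (D.gI s) :=
  (D.gI_smooth.comp (contDiff_prodMk_right s)).differentiable (by simp)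

theorem gI_tau (s τ : ℝ) (y : S) : fderiv ℝ (D.gI s) (τ, y) (1, 0) =
    (1 - s) * deriv (fun t => D.hcan (t, y)) τ + s * deriv (fun t => D.hK (t, y)) τ -
      s * (D.κ y * deriv muS τ) := by
  have a := (sl1 (D.hcan_smooth.differentiable (by simp)) τ y).differentiableAt.hasDerivAt
  have b := (sl1 (D.hK_smooth.differentiable (by simp)) τ y).differentiableAt.hasDerivAt
  have c := (muS_smooth.differentiable (by simp) τ).hasDerivAt
  exact (sl1 (gI_diff D s) τ y).unique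
    ((((a.const_mul (1 - s)).add (b.const_mul s)).sub_const (1 / 2)).sub
      ((c.const_mul (D.κ y)).const_mul s))

theorem gI_slice {s τ : ℝ} {y : S} (h0 : 0 ≤ s) (h1 : s ≤ 1) (h : D.gI s (τ, y) = 0)
    (hτ : ((τ ≤ 1 - 2 * eta ∨ 1 - eta ≤ τ) ∧
      ∀ y', (1 - s) * D.hcan (τ, y') = (1 - s) * D.hK (τ, y')) ∨ ¬ ∀ᶠ y' in 𝓝 y, D.κ y' = 1) :
    ∃ e, fderiv ℝ (D.gI s) (τ, y) (0, e) ≠ 0 ∧ fderiv ℝ D.κ y e = 0 := by
  simp only [sl2 (gI_diff D s)]
  have m0 : 0 ≤ s * (D.κ y * muS τ) :=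
    mul_nonneg h0 (mul_nonneg (D.κ_range y).1 (muS_range τ).1)
  have m1 : s * (D.κ y * muS τ) ≤ 1 / 4 :=
    (mul_le_of_le_one_left (mul_nonneg (D.κ_range y).1 (muS_range τ).1) h1).trans
      ((mul_le_of_le_one_left (muS_range τ).1 (D.κ_range y).2).trans (muS_range τ).2)
  have const : ∀ (c c' : ℝ) (g : S → ℝ), (∀ᶠ y' in 𝓝 y, D.κ y' = c) →
      (∀ᶠ y' in 𝓝 y, D.gI s (τ, y') = g y' - c') → fderiv ℝ g y ≠ 0 →
      ∃ e, fderiv ℝ (fun y' => D.gI s (τ, y')) y e ≠ 0 ∧ fderiv ℝ D.κ y e = 0 := by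
    intro c c' g a b n
    obtain ⟨e, he⟩ := DFunLike.ne_iff.1 n
    refine ⟨e, ?_, ?_⟩
    · rwa [Filter.EventuallyEq.fderiv_eq b, fderiv_sub_const]
    · rw [Filter.EventuallyEq.fderiv_eq (f := fun _ => c) a]
      simp
  rcases D.tri y with a | ⟨a, b⟩ | a
  · obtain ⟨b, c⟩ := hτ.resolve_right fun n => n a
    have v : D.hK (τ, y) = 1 / 2 + s * (D.κ y * muS τ) := by
      simp only [SD.gI, c] at h
      linarith only [h]
    refine const 1 (1 / 2 + s * muS τ) _ a (a.mono fun y' e => ?_)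
      (slice_reg D b (by linarith only [m0, v]) (by linarith only [m1, v]))
    simp only [SD.gI, c, e]
    ring
  · have c : ∀ᶠ y' in 𝓝 y, D.gI s (τ, y') = stp (D.l0 y') - 1 / 2 - s * (D.κ y' * muS τ) :=
      a.mono fun y' e => by
        obtain ⟨u, v⟩ := flat D (e.2.1.trans e.1.symm) (e.2.2.1.trans e.1.symm)
          (e.2.2.2.trans e.1.symm) τ
        simp only [SD.gI, u, v, e.1]
        ring
    have v := c.self_of_nhds
    rw [h] at v
    have v0 : 0 < stp (D.l0 y) := by linarith only [m0, v]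
    have v1 : stp (D.l0 y) < 1 := by linarith only [m1, v, v0]
    have k : fderiv ℝ D.κ y D.e0 = 0 := (b.resolve_right fun n => n.elim v0.ne' v1.ne)
    refine ⟨D.e0, ?_, k⟩
    have d : HasFDerivAt (fun y' => stp (D.l0 y') - 1 / 2 - s * (D.κ y' * muS τ)) _ y :=
      (((stp_smooth.differentiable (by simp) _).hasDerivAt.comp_hasFDerivAt y
        D.l0.hasFDerivAt).sub_const (1 / 2)).sub
        (((D.κ_smooth.differentiable (by simp) y).hasFDerivAt.mul_const (muS τ)).const_mul s)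
    rw [Filter.EventuallyEq.fderiv_eq c, d.fderiv]
    simpa [k, D.l0e0] using (stp_deriv_pos v0 v1).ne'
  · have c : ∀ᶠ y' in 𝓝 y, D.gI s (τ, y') = D.p0 y' - 1 / 2 :=
      a.mono fun y' e => by
        obtain ⟨u, v⟩ := flat D e.2.1 e.2.2.1 e.2.2.2 τ
        simp only [SD.gI, u, v, e.1]
        ring
    have v := c.self_of_nhds
    rw [h] at v
    exact const 0 (1 / 2) _ (a.mono fun y' e => e.1) c
      (D.hQ.ends.2.2.2.2.1 y (by linarith only [v]) (by linarith only [v]))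

end SDAAux

namespace SD
variable (D : SD S)

theorem gI_reg {s : ℝ} (h0 : 0 < s) (h1 : s ≤ 1) {q : ℝ × S} (h : D.gI s q = 0) :
    fderiv ℝ (D.gI s) q ≠ 0 := by
  obtain ⟨τ, y⟩ := q
  have := eta_pos
  have := eta_le
  intro z
  have sl : ∀ hτ, False := fun hτ => by
    obtain ⟨e, a, -⟩ := gI_slice D h0.le h1 h hτ
    exact a (by rw [z]; rfl)
  by_cases k : ∀ᶠ y' in 𝓝 y, D.κ y' = 1
  swap
  · exact sl (.inr k)
  have t := gI_tau D s τ y
  rw [z, k.self_of_nhds, one_mul, zero_apply] at t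
  have neg : deriv (fun t => D.hcan (t, y)) τ ≤ 0 ∧ deriv (fun t => D.hK (t, y)) τ ≤ 0 →
      0 < deriv muS τ → False := fun a b => by
    linarith only [t, h1, a, h0, b, mul_nonneg (sub_nonneg.2 h1) (neg_nonneg.2 a.1),
      mul_nonneg h0.le (neg_nonneg.2 a.2), mul_pos h0 b]
  have pos : 0 ≤ deriv (fun t => D.hcan (t, y)) τ ∧ 0 ≤ deriv (fun t => D.hK (t, y)) τ →
      deriv muS τ < 0 → False := fun a b => by
    linarith only [t, h1, a, h0, b, mul_nonneg (sub_nonneg.2 h1) a.1, mul_nonneg h0.le a.2, mul_pos h0 (neg_pos.2 b)]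
  have sl' : ∀ a b, False := fun a b => sl (.inl ⟨a, fun y' => by rw [same D b]⟩)
  rcases le_or_gt τ (1 - 3 * eta) with a | a
  · exact sl' (.inl (by linarith)) (.inl (by linarith))
  rcases lt_or_ge τ (1 - eta / 2) with b | b
  · exact neg (d1 D (by linarith) y) (dmu_up (c := 1)
      ((eventually_le_nhds (by linarith)).mono fun t => mu1) (by linarith only [a]) (by linarith only [b]))
  rcases le_or_gt τ (1 + eta / 2) with c | c
  · exact sl' (.inr (by linarith)) (.inl (by linarith))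
  rcases lt_or_ge τ (1 + 3 * eta) with d | d
  · exact pos (d2 D (by linarith) (by linarith) y) (dmu_down (c := 1)
      (((eventually_ge_nhds (by linarith)).and (eventually_le_nhds (by linarith))).mono
        fun t e => mu2 e.1 e.2) (by linarith only [d]) (by linarith only [c]))
  rcases le_or_gt τ (2 - 3 * eta) with e | e
  · exact sl' (.inr (by linarith)) (.inr (.inl ⟨by linarith, by linarith⟩))
  rcases lt_or_ge τ (2 - eta / 2) with f | f
  · exact neg (d3 D (by linarith) (by linarith) y) (dmu_up (c := 2)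
      (((eventually_ge_nhds (by linarith)).and (eventually_le_nhds (by linarith))).mono
        fun t e => mu3 e.1 e.2) (by linarith only [e]) (by linarith only [f]))
  rcases le_or_gt τ (2 + eta / 2) with g | g
  · exact sl' (.inr (by linarith)) (.inr (.inr (.inl ⟨by linarith, by linarith⟩)))
  rcases lt_or_ge τ (2 + 3 * eta) with i | i
  · exact pos (d4 D (by linarith) y) (dmu_down (c := 2)
      ((eventually_ge_nhds (by linarith)).mono fun t => mu4) (by linarith only [i]) (by linarith only [g]))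
  · exact sl' (.inr (by linarith)) (.inr (.inr (.inr (by linarith))))

theorem gK_slice {τ : ℝ} {y : S} (h : D.gK (τ, y) = 0)
    (hτ : τ ≤ 1 - 2 * eta ∨ 1 - eta ≤ τ ∨ D.κ y < 1) :
    ∃ e, fderiv ℝ D.gK (τ, y) (0, e) ≠ 0 ∧ fderiv ℝ D.κ y e = 0 := by
  rw [← funext D.gI_one] at h ⊢
  refine gI_slice D zero_le_one le_rfl h ?_
  rcases or_assoc.2 hτ with a | a
  · exact .inl ⟨a, fun y' => by simp⟩
  · exact .inr fun b => a.ne b.self_of_nhds

theorem gK_dec {τ : ℝ} {y : S} (h0 : 1 - 3 * eta < τ) (h1 : τ < 1 - eta / 2) (hκ : 0 < D.κ y) :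
    fderiv ℝ D.gK (τ, y) (1, 0) < 0 := by
  have := eta_pos
  rw [← funext D.gI_one, gI_tau]
  have a := (d1 D (τ := τ) (by linarith only [h1, this]) y).2
  have b := mul_pos hκ (dmu_up (τ := τ) (c := 1)
    ((eventually_le_nhds (by linarith only [h1, this])).mono fun t => mu1) (by linarith) (by linarith only [h1]))
  linarith

theorem gK_strictAnti {y : S} (hκ : 0 < D.κ y) :
    StrictAntiOn (fun τ => D.gK (τ, y)) (Icc (1 - 3 * eta) (1 - eta / 2)) := by
  refine strictAntiOn_of_deriv_neg (convex_Icc _ _)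
    (D.gK_smooth.continuous.comp (Continuous.prodMk_left y)).continuousOn fun τ hτ => ?_
  rw [interior_Icc] at hτ
  rw [(sl1 (D.gK_smooth.differentiable (by simp)) τ y).deriv]
  exact D.gK_dec hτ.1 hτ.2 hκ
end SD

end SpunKnot
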